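import Pool.Agent.CC.Mer
import Pool.Agent.SWz.Main

/-! CC, part G: Mertens' theorem in the three classes. -/

set_option autoImplicit false

namespace Pool.Agent.CC

open Finset

/-- MODULE EQD.  Each class `c` contains a third of the residue classes prime to `m`.
Proof: `hc3` gives `k0 ≡ q0 mod m` with `n0 = a + k0 d > 0` prime to `m` and `c n0 = 1`; multiplication by `n0`
(mod `m`) is a permutation of the reduced residue classes which maps class `c` onto class `c + 1`. -/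
theorem eqd (S : Dat) (c : ZMod 3) :
    3 * ((range S.m).filter fun b => b.Coprime S.m ∧ S.c b = c).card = S.m.totient := by
  have hm := S.hm
  have hd := S.hd
  obtain ⟨k0, hk0⟩ : ∃ k0 : ℕ, k0 = S.q0 + S.m * (S.a.natAbs + 1) := ⟨_, rfl⟩
  have hk : k0 ≡ S.q0 [MOD S.m] := by
    rw [hk0]
    exact Nat.add_mul_mod_self_left _ _ _
  have hpos : 0 < S.a + (k0 : ℤ) * S.d := by
    have h1 : -(S.a.natAbs : ℤ) ≤ S.a := by omega
    have h2 : (S.a.natAbs : ℤ) + 1 ≤ (k0 : ℤ) := by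
      have h3 : S.a.natAbs + 1 ≤ k0 := by
        rw [hk0]
        calc S.a.natAbs + 1 = 1 * (S.a.natAbs + 1) := (one_mul _).symm
          _ ≤ S.m * (S.a.natAbs + 1) := Nat.mul_le_mul_right _ hm
          _ ≤ _ := Nat.le_add_left _ _
      exact_mod_cast h3
    have h3 : (k0 : ℤ) ≤ (k0 : ℤ) * S.d := le_mul_of_one_le_right (by positivity) hd
    linarith
  have hc1 := S.hc3 k0 hk hpos
  obtain ⟨n0, hn0⟩ : ∃ n0 : ℕ, n0 = (S.a + (k0 : ℤ) * S.d).toNat := ⟨_, rfl⟩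
  rw [← hn0] at hc1
  have hn0' : (n0 : ℤ) = S.a + (k0 : ℤ) * S.d := by
    rw [hn0, Int.toNat_of_nonneg hpos.le]
  have hcop : n0.Coprime S.m := by
    rw [← Nat.isCoprime_iff_coprime, hn0']
    have h1 := S.hn.add_mul_left_left ((S.a.natAbs + 1 : ℤ) * S.d)
    have h2 : S.a + (k0 : ℤ) * S.d =
        S.a + S.q0 * S.d + (S.m : ℤ) * ((S.a.natAbs + 1 : ℤ) * S.d) := by
      rw [hk0]
      push_cast
      ring
    rw [h2]
    exact h1
  have hle : ∀ c : ZMod 3, ((range S.m).filter fun b => b.Coprime S.m ∧ S.c b = c).card ≤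
      ((range S.m).filter fun b => b.Coprime S.m ∧ S.c b = c + 1).card := by
    intro c
    refine Finset.card_le_card_of_injOn (fun b => (n0 * b) % S.m) ?_ ?_
    · intro b hb
      simp only [Finset.coe_filter, Finset.mem_range, Set.mem_ofPred_eq] at hb ⊢
      have h1 : (n0 * b) % S.m ≡ n0 * b [MOD S.m] := Nat.mod_modEq _ _
      have h2 : ((n0 * b) % S.m).Coprime S.m := by
        have h3 := h1.gcd_eq
        have h4 : (n0 * b).Coprime S.m := hcop.mul_left hb.2.1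
        unfold Nat.Coprime at h4 ⊢
        rw [h3, h4]
      refine ⟨Nat.mod_lt _ hm, h2, ?_⟩
      rw [S.hc2 _ _ h1, S.hc1 _ _ hcop hb.2.1, hc1, hb.2.2, add_comm]
    · intro b hb b' hb' h
      simp only [Finset.coe_filter, Finset.mem_range, Set.mem_ofPred_eq] at hb hb'
      have h1 : n0 * b ≡ n0 * b' [MOD S.m] := h
      have h2 : b ≡ b' [MOD S.m] :=
        Nat.ModEq.cancel_left_of_coprime (Nat.coprime_comm.1 hcop) h1
      exact Nat.ModEq.eq_of_lt_of_lt h2 hb.1 hb'.1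
  have h3 : ∀ c : ZMod 3, c + 1 + 1 + 1 = c := by decide
  have hall : ∀ c' : ZMod 3, ((range S.m).filter fun b => b.Coprime S.m ∧ S.c b = c').card =
      ((range S.m).filter fun b => b.Coprime S.m ∧ S.c b = c).card := by
    have h4 := hle c
    have h5 := hle (c + 1)
    have h6 := hle (c + 1 + 1)
    rw [h3] at h6
    have h7 : ∀ c c' : ZMod 3, c' = c ∨ c' = c + 1 ∨ c' = c + 1 + 1 := by decide
    intro c'
    rcases h7 c c' with rfl | rfl | rfl
    · rfl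
    · omega
    · omega
  have hsum : S.m.totient = ∑ c' : ZMod 3,
      ((range S.m).filter fun b => b.Coprime S.m ∧ S.c b = c').card := by
    rw [Nat.totient, Finset.card_eq_sum_card_fiberwise (f := S.c) (t := Finset.univ)
      (fun b _ => Finset.mem_coe.2 (Finset.mem_univ _))]
    refine Finset.sum_congr rfl fun c' _ => ?_
    rw [Finset.filter_filter]
    congr 1
    refine Finset.filter_congr fun b _ => ?_
    rw [Nat.coprime_comm]
  rw [hsum, Finset.sum_congr rfl fun c' _ => hall c', Finset.sum_const, Finset.card_univ,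
    ZMod.card, smul_eq_mul]

private noncomputable def apm_c (m b k : ℕ) : ℝ := if k.Prime ∧ k ≡ b [MOD m] then Real.log k else 0

private theorem apm_T (m : ℕ) (hm : 0 < m) (b : ℕ) (hb : b.Coprime m) (δ : ℝ) (hδ : 0 < δ) :
    ∃ t0 : ℝ, ∀ t : ℝ, t0 ≤ t →
      |(∑ k ∈ Icc 0 ⌊t⌋₊, apm_c m b k) - t / (m.totient : ℝ)| ≤ δ * t := by
  obtain ⟨C, hC⟩ := Pool.Agent.SWz.swlam 1
  obtain ⟨C', hC'⟩ := Chebyshev.psi_sub_theta_le_mul_sqrt
  have h1 : ∀ᶠ t : ℝ in Filter.atTop, |C| / (δ / 2) ≤ Real.log t :=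
    Real.tendsto_log_atTop.eventually_ge_atTop _
  have h2 : ∀ᶠ t : ℝ in Filter.atTop, |C'| / (δ / 2) ≤ Real.sqrt t :=
    Real.tendsto_sqrt_atTop.eventually_ge_atTop _
  obtain ⟨t0, ht0⟩ := Filter.eventually_atTop.1 (h1.and (h2.and (Filter.eventually_ge_atTop (2 : ℝ))))
  refine ⟨t0, fun t ht => ?_⟩
  obtain ⟨h3, h4, h5⟩ := ht0 t ht
  have htpos : 0 < t := by linarith
  have hlog : 0 < Real.log t := Real.log_pos (by linarith)
  have h6 := hC t h5 m b hm (by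
    rw [Nat.isCoprime_iff_coprime]
    exact hb)
  rw [pow_one] at h6
  have h7 : C * t / Real.log t ≤ δ / 2 * t := by
    rw [div_le_iff₀ hlog]
    rw [div_le_iff₀ (by positivity)] at h3
    calc C * t ≤ |C| * t := mul_le_mul_of_nonneg_right (le_abs_self C) htpos.le
      _ ≤ (Real.log t * (δ / 2)) * t := mul_le_mul_of_nonneg_right h3 htpos.le
      _ = δ / 2 * t * Real.log t := by ring
  have h8 : Chebyshev.psi t - Chebyshev.theta t ≤ δ / 2 * t := by
    refine (hC' t).trans ?_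
    rw [div_le_iff₀ (by positivity)] at h4
    calc C' * Real.sqrt t ≤ |C'| * Real.sqrt t :=
          mul_le_mul_of_nonneg_right (le_abs_self C') (Real.sqrt_nonneg t)
      _ ≤ (Real.sqrt t * (δ / 2)) * Real.sqrt t :=
          mul_le_mul_of_nonneg_right h4 (Real.sqrt_nonneg t)
      _ = δ / 2 * (Real.sqrt t * Real.sqrt t) := by ring
      _ = δ / 2 * t := by rw [Real.mul_self_sqrt htpos.le]
  rw [Chebyshev.psi_sub_theta_eq_sum_not_prime] at h8
  -- the prime powers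
  have hsum0 : ∑ k ∈ Icc 0 ⌊t⌋₊, apm_c m b k = ∑ k ∈ Icc 1 ⌊t⌋₊, apm_c m b k := by
    symm
    apply Finset.sum_subset
    · intro k hk
      rw [Finset.mem_Icc] at hk ⊢
      exact ⟨Nat.zero_le _, hk.2⟩
    · intro k hk hk2
      rw [Finset.mem_Icc] at hk hk2
      have : k = 0 := by omega
      subst this
      unfold apm_c
      rw [if_neg]
      intro h
      exact Nat.not_prime_zero h.1
  have hterm : ∀ n : ℕ, 0 ≤ (if (m : ℤ) ∣ (n : ℤ) - b then ArithmeticFunction.vonMangoldt n else 0) -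
      apm_c m b n ∧
      (if (m : ℤ) ∣ (n : ℤ) - b then ArithmeticFunction.vonMangoldt n else 0) -
      apm_c m b n ≤ if ¬ n.Prime then ArithmeticFunction.vonMangoldt n else 0 := by
    intro n
    have hv : 0 ≤ ArithmeticFunction.vonMangoldt n := ArithmeticFunction.vonMangoldt_nonneg
    have hmod : (m : ℤ) ∣ (n : ℤ) - b ↔ n ≡ b [MOD m] := by
      rw [Nat.ModEq.comm, Nat.modEq_iff_dvd]
    by_cases hp : n.Prime
    · rw [if_neg (not_not.2 hp)]
      by_cases hd : n ≡ b [MOD m]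
      · rw [if_pos (hmod.2 hd)]
        unfold apm_c
        rw [if_pos ⟨hp, hd⟩, ArithmeticFunction.vonMangoldt_apply_prime hp, sub_self]
        exact ⟨le_rfl, le_rfl⟩
      · rw [if_neg (fun h => hd (hmod.1 h))]
        unfold apm_c
        rw [if_neg (fun h => hd h.2), sub_self]
        exact ⟨le_rfl, le_rfl⟩
    · rw [if_pos hp]
      have h0 : apm_c m b n = 0 := by
        unfold apm_c
        exact if_neg (fun h => hp h.1)
      rw [h0, sub_zero]
      split_ifs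
      · exact ⟨hv, le_rfl⟩
      · exact ⟨le_rfl, hv⟩
  have h9 : 0 ≤ (∑ n ∈ Icc 1 ⌊t⌋₊, if (m : ℤ) ∣ (n : ℤ) - b then
      ArithmeticFunction.vonMangoldt n else 0) - ∑ k ∈ Icc 1 ⌊t⌋₊, apm_c m b k := by
    rw [← Finset.sum_sub_distrib]
    exact Finset.sum_nonneg fun n _ => (hterm n).1
  have h10 : (∑ n ∈ Icc 1 ⌊t⌋₊, if (m : ℤ) ∣ (n : ℤ) - b then
      ArithmeticFunction.vonMangoldt n else 0) - ∑ k ∈ Icc 1 ⌊t⌋₊, apm_c m b k ≤ δ / 2 * t := by
    refine le_trans ?_ h8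
    rw [← Finset.sum_sub_distrib, Finset.sum_filter]
    have : Ioc 0 ⌊t⌋₊ = Icc 1 ⌊t⌋₊ := by
      ext k
      rw [Finset.mem_Ioc, Finset.mem_Icc]
      omega
    rw [this]
    exact Finset.sum_le_sum fun n _ => (hterm n).2
  have h11 := abs_le.1 (h6.trans h7)
  rw [hsum0, abs_le]
  constructor <;> linarith [h11.1, h11.2]

private theorem apm_diff (A B : Finset ℕ) (f : ℕ → ℝ) (hf : ∀ p, 0 ≤ f p) (r : ℕ)
    (h : ∀ p ∈ A, p ∉ B → p = r) (e : ℝ) (he : ∀ p ∈ A, f p ≤ e) (he0 : 0 ≤ e) :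
    ∑ p ∈ A, f p ≤ ∑ p ∈ B, f p + e := by
  classical
  have hsplit : ∑ p ∈ A, f p = ∑ p ∈ A ∩ B, f p + ∑ p ∈ A \ B, f p := by
    have h1 := Finset.sum_sdiff (f := f) (Finset.inter_subset_left : A ∩ B ⊆ A)
    rw [Finset.sdiff_inter_self_left] at h1
    linarith
  rw [hsplit]
  refine add_le_add ?_ ?_
  · exact Finset.sum_le_sum_of_subset_of_nonneg Finset.inter_subset_right fun p _ _ => hf p
  · have h1 : (A \ B).card ≤ 1 := by
      rw [Finset.card_le_one]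
      intro p hp q hq
      rw [Finset.mem_sdiff] at hp hq
      rw [h p hp.1 hp.2, h q hq.1 hq.2]
    calc ∑ p ∈ A \ B, f p ≤ (A \ B).card • e :=
          Finset.sum_le_card_nsmul _ _ _ fun p hp => he p (Finset.mem_sdiff.1 hp).1
      _ ≤ 1 • e := nsmul_le_nsmul_left he0 h1
      _ = e := one_nsmul e

private theorem apm_hd {t : ℝ} (ht : 1 < t) : HasDerivAt (fun t : ℝ => (t * Real.log t)⁻¹)
    (-((Real.log t + 1) / (t * Real.log t) ^ 2)) t := by
  have h0 : (0 : ℝ) < t := by linarith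
  have h1 : 0 < Real.log t := Real.log_pos ht
  have h2 : HasDerivAt (fun t : ℝ => t * Real.log t) (1 * Real.log t + t * t⁻¹) t :=
    (hasDerivAt_id t).mul (Real.hasDerivAt_log h0.ne')
  have h3 := h2.fun_inv (mul_pos h0 h1).ne'
  rw [one_mul, mul_inv_cancel₀ h0.ne', neg_div] at h3
  exact h3

private theorem apm_abel (m b : ℕ) (c δ x y : ℝ) (hx : 1 < x) (hxy : x ≤ y)
    (hT : ∀ t : ℝ, x ≤ t → |(∑ k ∈ Icc 0 ⌊t⌋₊, apm_c m b k) - c * t| ≤ δ * t) :
    |(∑ k ∈ Ioc ⌊x⌋₊ ⌊y⌋₊, ((k : ℝ) * Real.log k)⁻¹ * apm_c m b k) -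
      c * (Real.log (Real.log y) - Real.log (Real.log x))| ≤
      δ * (Real.log (Real.log y) - Real.log (Real.log x)) + 2 * δ * (Real.log x)⁻¹ := by
  have hlx : 0 < Real.log x := Real.log_pos hx
  have hly : 0 < Real.log y := Real.log_pos (by linarith)
  have hgt : ∀ t ∈ Set.Icc x y, 1 < t := fun t ht => lt_of_lt_of_le hx ht.1
  have hdf : ∀ t ∈ Set.Icc x y, deriv (fun t : ℝ => (t * Real.log t)⁻¹) t =
      -((Real.log t + 1) / (t * Real.log t) ^ 2) :=
    fun t ht => (apm_hd (hgt t ht)).deriv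
  have hne : ∀ t ∈ Set.Icc x y, t ≠ 0 := fun t ht => by
    have := hgt t ht
    linarith
  have hlc : ContinuousOn Real.log (Set.Icc x y) := Real.continuousOn_log.mono fun t ht => hne t ht
  have hcont1 : ContinuousOn (fun t : ℝ => -((Real.log t + 1) / (t * Real.log t) ^ 2))
      (Set.Icc x y) := by
    refine ContinuousOn.neg (ContinuousOn.div (hlc.add continuousOn_const)
      ((continuousOn_id.mul hlc).pow 2) fun t ht => ?_)
    have h1 := hgt t ht
    have h2 := Real.log_pos h1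
    have h3 : (0 : ℝ) < t := by linarith
    exact pow_ne_zero 2 (mul_pos h3 h2).ne'
  have hint : MeasureTheory.IntegrableOn (deriv fun t : ℝ => (t * Real.log t)⁻¹) (Set.Icc x y) :=
    hcont1.integrableOn_Icc.congr_fun (fun t ht => (hdf t ht).symm) measurableSet_Icc
  have habel := sum_mul_eq_sub_sub_integral_mul (apm_c m b) (f := fun t : ℝ => (t * Real.log t)⁻¹)
    (by linarith : (0 : ℝ) ≤ x) hxy (fun t ht => (apm_hd (hgt t ht)).differentiableAt) hint
  rw [habel]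
  have hI : MeasureTheory.IntegrableOn (fun t => deriv (fun t : ℝ => (t * Real.log t)⁻¹) t *
      ∑ k ∈ Finset.Icc 0 ⌊t⌋₊, apm_c m b k) (Set.Icc x y) :=
    integrableOn_mul_sum_Icc (apm_c m b) (by linarith) hint
  have hI' : IntervalIntegrable (fun t => deriv (fun t : ℝ => (t * Real.log t)⁻¹) t *
      ∑ k ∈ Finset.Icc 0 ⌊t⌋₊, apm_c m b k) MeasureTheory.volume x y := by
    rw [intervalIntegrable_iff_integrableOn_Ioc_of_le hxy]
    exact hI.mono_set Set.Ioc_subset_Icc_self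
  rw [← intervalIntegral.integral_of_le hxy]
  have hci : ∀ c : ℝ, IntervalIntegrable
      (fun t : ℝ => -((Real.log t + 1) / (t * Real.log t) ^ 2) * (c * t))
      MeasureTheory.volume x y := by
    intro c
    apply ContinuousOn.intervalIntegrable
    rw [Set.uIcc_of_le hxy]
    exact hcont1.mul (continuousOn_const.mul continuousOn_id)
  have key : ∀ c : ℝ, (∫ t in x..y, -((Real.log t + 1) / (t * Real.log t) ^ 2) * (c * t)) =
      c * ((Real.log y)⁻¹ - (Real.log x)⁻¹) -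
        c * (Real.log (Real.log y) - Real.log (Real.log x)) := by
    intro c
    have hder : ∀ t ∈ Set.uIcc x y, HasDerivAt
        (fun t : ℝ => c * (Real.log t)⁻¹ - c * Real.log (Real.log t))
        (-((Real.log t + 1) / (t * Real.log t) ^ 2) * (c * t)) t := by
      intro t ht
      rw [Set.uIcc_of_le hxy] at ht
      have h1 := hgt t ht
      have h0 : (0 : ℝ) < t := by linarith
      have hl : 0 < Real.log t := Real.log_pos h1
      have h2 := ((Real.hasDerivAt_log h0.ne').fun_inv hl.ne').const_mul c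
      have h3 := ((Real.hasDerivAt_log h0.ne').log hl.ne').const_mul c
      have h4 := h2.fun_sub h3
      have e : -((Real.log t + 1) / (t * Real.log t) ^ 2) * (c * t) =
          c * (-t⁻¹ / Real.log t ^ 2) - c * (t⁻¹ / Real.log t) := by
        field_simp
        ring
      rw [e]
      exact h4
    rw [intervalIntegral.integral_eq_sub_of_hasDerivAt hder (hci c)]
    ring
  have hneg : ∀ t ∈ Set.Icc x y, 0 ≤ (Real.log t + 1) / (t * Real.log t) ^ 2 := fun t ht => by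
    have h1 := hgt t ht
    have h2 : 0 < t := by linarith
    have h3 := Real.log_pos h1
    positivity
  have hlow : (∫ t in x..y, -((Real.log t + 1) / (t * Real.log t) ^ 2) * ((c + δ) * t)) ≤
      ∫ t in x..y, deriv (fun t : ℝ => (t * Real.log t)⁻¹) t *
        ∑ k ∈ Finset.Icc 0 ⌊t⌋₊, apm_c m b k := by
    apply intervalIntegral.integral_mono_on hxy (hci _) hI'
    intro t ht
    rw [hdf t ht]
    have h1 := (abs_le.1 (hT t ht.1)).2
    have h2 : (∑ k ∈ Finset.Icc 0 ⌊t⌋₊, apm_c m b k) ≤ (c + δ) * t := by linarith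
    have h3 := mul_le_mul_of_nonneg_left h2 (hneg t ht)
    linarith
  have hupp : (∫ t in x..y, deriv (fun t : ℝ => (t * Real.log t)⁻¹) t *
      ∑ k ∈ Finset.Icc 0 ⌊t⌋₊, apm_c m b k) ≤
      ∫ t in x..y, -((Real.log t + 1) / (t * Real.log t) ^ 2) * ((c - δ) * t) := by
    apply intervalIntegral.integral_mono_on hxy hI' (hci _)
    intro t ht
    rw [hdf t ht]
    have h1 := (abs_le.1 (hT t ht.1)).1
    have h2 : (c - δ) * t ≤ ∑ k ∈ Finset.Icc 0 ⌊t⌋₊, apm_c m b k := by linarith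
    have h3 := mul_le_mul_of_nonneg_left h2 (hneg t ht)
    linarith
  rw [key] at hlow hupp
  have hSx := abs_le.1 (hT x le_rfl)
  have hSy := abs_le.1 (hT y hxy)
  have hxp : 0 < x := by linarith
  have hyp : 0 < y := by linarith
  have ix : 0 < (x * Real.log x)⁻¹ := inv_pos.2 (mul_pos hxp hlx)
  have iy : 0 < (y * Real.log y)⁻¹ := inv_pos.2 (mul_pos hyp hly)
  have ex : (x * Real.log x)⁻¹ * x = (Real.log x)⁻¹ := by
    rw [mul_inv, mul_comm x⁻¹, mul_assoc, inv_mul_cancel₀ hxp.ne', mul_one]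
  have ey : (y * Real.log y)⁻¹ * y = (Real.log y)⁻¹ := by
    rw [mul_inv, mul_comm y⁻¹, mul_assoc, inv_mul_cancel₀ hyp.ne', mul_one]
  have a1 : (c - δ) * (Real.log x)⁻¹ ≤ (x * Real.log x)⁻¹ *
      ∑ k ∈ Finset.Icc 0 ⌊x⌋₊, apm_c m b k := by
    have h2 : (c - δ) * x ≤ ∑ k ∈ Finset.Icc 0 ⌊x⌋₊, apm_c m b k := by linarith [hSx.1]
    have h3 := mul_le_mul_of_nonneg_left h2 ix.le
    rw [← ex]
    linarith
  have a2 : (x * Real.log x)⁻¹ * ∑ k ∈ Finset.Icc 0 ⌊x⌋₊, apm_c m b k ≤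
      (c + δ) * (Real.log x)⁻¹ := by
    have h2 : ∑ k ∈ Finset.Icc 0 ⌊x⌋₊, apm_c m b k ≤ (c + δ) * x := by linarith [hSx.2]
    have h3 := mul_le_mul_of_nonneg_left h2 ix.le
    rw [← ex]
    linarith
  have a3 : (c - δ) * (Real.log y)⁻¹ ≤ (y * Real.log y)⁻¹ *
      ∑ k ∈ Finset.Icc 0 ⌊y⌋₊, apm_c m b k := by
    have h2 : (c - δ) * y ≤ ∑ k ∈ Finset.Icc 0 ⌊y⌋₊, apm_c m b k := by linarith [hSy.1]
    have h3 := mul_le_mul_of_nonneg_left h2 iy.le
    rw [← ey]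
    linarith
  have a4 : (y * Real.log y)⁻¹ * ∑ k ∈ Finset.Icc 0 ⌊y⌋₊, apm_c m b k ≤
      (c + δ) * (Real.log y)⁻¹ := by
    have h2 : ∑ k ∈ Finset.Icc 0 ⌊y⌋₊, apm_c m b k ≤ (c + δ) * y := by linarith [hSy.2]
    have h3 := mul_le_mul_of_nonneg_left h2 iy.le
    rw [← ey]
    linarith
  rw [abs_le]
  constructor
  · linarith
  · linarith

/-- MODULE APM.  Mertens in an arithmetic progression: for `0 < α < β`, `b` prime to `m`:
`∑_{x^α ≤ p < x^β, p ≡ b mod m} 1/p → (1/φ(m)) log(β/α)`.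
Proof: `Pool.Agent.SWz.swlam : BGG.SWLam` (file SWz/Main.lean) with `A = 2` (fixed `r = m`): `θ(y; m, b) =
∑_{p ≤ y, p ≡ b} log p = y/φ(m) + O(y/log^2 y)` (prime powers: `O(√y log y)`, e.g. `Chebyshev`-bounds or
`BGG.vm_prime_sum`).  Partial summation with the decreasing function `f(t) = 1/(t log t)`: `∑ 1/p = ∫ f dθ`; the main
term is `(1/φ) ∫ dt/(t log t) = (1/φ)(log log y2 - log log y1)`, the error `≤ 4 E(y1)` where
`E = sup |θ(y) - y/φ| · ..`: `|∫ f d(θ - t/φ)| ≤ [f |R|] + ∫ |R(t)| |f'(t)| dt ≪ 1/log^3 y1 · .. → 0`.  (Or cut the interval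
into pieces `(y, (1+η) y]`: on each piece `∑ log p = η y/φ (1 + o(1))`, `1/(p log p)` is constant up to the factor
`1 + 2η`.) -/
theorem apm (m : ℕ) (hm : 0 < m) (b : ℕ) (hb : b.Coprime m) (α β : ℝ) (hα : 0 < α) (hβ : α < β) (ε : ℝ) (hε : 0 < ε) :
    ∃ x0 : ℕ, ∀ x : ℕ, x0 ≤ x →
      |(∑ p ∈ (pr 1 ((x : ℝ) ^ α) ((x : ℝ) ^ β)).filter (fun p => p ≡ b [MOD m]), 1 / (p : ℝ)) -
        1 / (m.totient : ℝ) * Real.log (β / α)| ≤ ε := by
  have hβ0 : 0 < β := by linarith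
  have hL : 0 < Real.log (β / α) := Real.log_pos (by rwa [one_lt_div hα])
  obtain ⟨δ, hδ, hδε⟩ : ∃ δ : ℝ, 0 < δ ∧ δ * (Real.log (β / α) + 2) = ε / 2 :=
    ⟨ε / 2 / (Real.log (β / α) + 2), by positivity, by field_simp⟩
  obtain ⟨t0, ht0⟩ := apm_T m hm b hb δ hδ
  have hpow : Filter.Tendsto (fun x : ℕ => (x : ℝ) ^ α) Filter.atTop Filter.atTop :=
    (tendsto_rpow_atTop hα).comp tendsto_natCast_atTop_atTop
  have h1 : ∀ᶠ x : ℕ in Filter.atTop, t0 ≤ (x : ℝ) ^ α := hpow.eventually_ge_atTop t0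
  have h2 : ∀ᶠ x : ℕ in Filter.atTop, 3 ≤ (x : ℝ) ^ α := hpow.eventually_ge_atTop 3
  have h3 : ∀ᶠ x : ℕ in Filter.atTop, 2 / ε ≤ (x : ℝ) ^ α := hpow.eventually_ge_atTop _
  obtain ⟨x0, hx0⟩ := Filter.eventually_atTop.1
    (h1.and (h2.and (h3.and (Filter.eventually_ge_atTop 2))))
  refine ⟨x0, fun x hx => ?_⟩
  obtain ⟨g1, g2, g3, g4⟩ := hx0 x hx
  have hx1 : (1 : ℝ) < (x : ℝ) := by
    have : (2 : ℝ) ≤ (x : ℝ) := by exact_mod_cast g4
    linarith
  have hxp : (0 : ℝ) < (x : ℝ) := by linarith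
  set W : ℝ := (x : ℝ) ^ α with hWdef
  set z : ℝ := (x : ℝ) ^ β with hzdef
  have hWz : W ≤ z := Real.rpow_le_rpow_of_exponent_le hx1.le hβ.le
  have hW0 : 0 < W := by linarith
  have hlogW : 1 ≤ Real.log W := by
    rw [Real.le_log_iff_exp_le hW0]
    linarith [Real.exp_one_lt_d9]
  have hab := apm_abel m b (1 / (m.totient : ℝ)) δ W z (by linarith) hWz (fun t ht => by
    have h4 := ht0 t (g1.trans ht)
    rw [one_div_mul_eq_div]
    exact h4)
  have hLL : Real.log (Real.log z) - Real.log (Real.log W) = Real.log (β / α) := by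
    have hlx : 0 < Real.log x := Real.log_pos hx1
    rw [hWdef, hzdef, Real.log_rpow hxp, Real.log_rpow hxp, Real.log_mul hβ0.ne' hlx.ne',
      Real.log_mul hα.ne' hlx.ne', Real.log_div hβ0.ne' hα.ne']
    ring
  rw [hLL] at hab
  have hab' : δ * Real.log (β / α) + 2 * δ * (Real.log W)⁻¹ ≤ ε / 2 := by
    have h5 : (Real.log W)⁻¹ ≤ 1 := inv_le_one_of_one_le₀ hlogW
    have h6 : 2 * δ * (Real.log W)⁻¹ ≤ 2 * δ * 1 := mul_le_mul_of_nonneg_left h5 (by positivity)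
    linarith
  have hsum : ∑ k ∈ Ioc ⌊W⌋₊ ⌊z⌋₊, ((k : ℝ) * Real.log k)⁻¹ * apm_c m b k =
      ∑ p ∈ (Ioc ⌊W⌋₊ ⌊z⌋₊).filter (fun k => k.Prime ∧ k ≡ b [MOD m]), 1 / (p : ℝ) := by
    rw [Finset.sum_filter]
    refine Finset.sum_congr rfl fun k _ => ?_
    unfold apm_c
    split_ifs with h
    · have h5 : 0 < Real.log (k : ℝ) := Real.log_pos (by exact_mod_cast h.1.one_lt)
      have h6 : (k : ℝ) ≠ 0 := by exact_mod_cast h.1.ne_zero
      field_simp
    · rw [mul_zero]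
  rw [hsum] at hab
  have hW1 : 1 / W ≤ ε / 2 := by
    rw [div_le_iff₀ hW0]
    rw [div_le_iff₀ hε] at g3
    linarith
  have hmemA : ∀ p, p ∈ (pr 1 W z).filter (fun p => p ≡ b [MOD m]) ↔
      (p < ⌈z⌉₊ ∧ p.Prime ∧ W ≤ (p : ℝ)) ∧ p ≡ b [MOD m] := by
    intro p
    unfold pr
    rw [Finset.mem_filter, Finset.mem_filter, Finset.mem_range]
    constructor
    · rintro ⟨⟨h4, h5, _, h6⟩, h7⟩
      exact ⟨⟨h4, h5, h6⟩, h7⟩
    · rintro ⟨⟨h4, h5, h6⟩, h7⟩
      exact ⟨⟨h4, h5, fun h => h5.one_lt.ne' (Nat.dvd_one.1 h), h6⟩, h7⟩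
  have hfnn : ∀ p : ℕ, (0 : ℝ) ≤ 1 / (p : ℝ) := fun p => by positivity
  have hA : ∑ p ∈ (pr 1 W z).filter (fun p => p ≡ b [MOD m]), 1 / (p : ℝ) ≤
      ∑ p ∈ (Ioc ⌊W⌋₊ ⌊z⌋₊).filter (fun k => k.Prime ∧ k ≡ b [MOD m]), 1 / (p : ℝ) + 1 / W := by
    refine apm_diff _ _ (fun p : ℕ => 1 / (p : ℝ)) hfnn ⌊W⌋₊ ?_ _ ?_ (by positivity)
    · intro p hp hp'
      rw [hmemA] at hp
      obtain ⟨⟨h4, h5, h6⟩, h7⟩ := hp
      have h8 : (p : ℝ) < z := Nat.lt_ceil.1 h4
      have h9 : p ≤ ⌊z⌋₊ := Nat.le_floor h8.le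
      by_contra hne
      apply hp'
      rw [Finset.mem_filter, Finset.mem_Ioc]
      refine ⟨⟨?_, h9⟩, h5, h7⟩
      have h10 : ⌊W⌋₊ ≤ p := Nat.floor_le_of_le h6
      omega
    · intro p hp
      rw [hmemA] at hp
      exact one_div_le_one_div_of_le hW0 hp.1.2.2
  have hB : ∑ p ∈ (Ioc ⌊W⌋₊ ⌊z⌋₊).filter (fun k => k.Prime ∧ k ≡ b [MOD m]), 1 / (p : ℝ) ≤
      ∑ p ∈ (pr 1 W z).filter (fun p => p ≡ b [MOD m]), 1 / (p : ℝ) + 1 / W := by
    refine apm_diff _ _ (fun p : ℕ => 1 / (p : ℝ)) hfnn ⌊z⌋₊ ?_ _ ?_ (by positivity)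
    · intro p hp hp'
      rw [Finset.mem_filter, Finset.mem_Ioc] at hp
      obtain ⟨⟨h4, h5⟩, h6, h7⟩ := hp
      by_contra hne
      apply hp'
      rw [hmemA]
      have h8 : W < (p : ℝ) := (Nat.floor_lt hW0.le).1 h4
      refine ⟨⟨?_, h6, h8.le⟩, h7⟩
      have h9 : ⌊z⌋₊ ≤ ⌈z⌉₊ := Nat.floor_le_ceil z
      omega
    · intro p hp
      rw [Finset.mem_filter, Finset.mem_Ioc] at hp
      have h8 : W < (p : ℝ) := (Nat.floor_lt hW0.le).1 hp.1.1
      exact one_div_le_one_div_of_le hW0 h8.le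
  have h12 := abs_le.1 hab
  rw [abs_le]
  constructor
  · linarith [h12.1]
  · linarith [h12.2]

private theorem Mass_cop {m p b : ℕ} (hp : p.Prime) (h : p ≡ b [MOD m]) (hb : b.Coprime m) :
    ¬ p ∣ m := by
  intro hd
  have h1 : Nat.gcd p m = Nat.gcd b m := h.gcd_eq
  have h2 : Nat.gcd b m = 1 := hb
  have h3 : Nat.gcd p m = p := Nat.gcd_eq_left hd
  rw [h3, h2] at h1
  exact hp.one_lt.ne' h1

open scoped Classical in
/-- the cell is the disjoint union of its residue classes -/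
private theorem Mass_split (S : Dat) (H i j : ℕ) (hH : 0 < H) (hj : j ≤ H) (c : ZMod 3) (x : ℕ)
    (hx : 1 ≤ x) (f : ℕ → ℝ) :
    ∑ p ∈ S.cell x H c i j, f p =
      ∑ b ∈ (range S.m).filter (fun b => b.Coprime S.m ∧ S.c b = c),
        ∑ p ∈ (pr 1 ((x : ℝ) ^ ((i : ℝ) / H)) ((x : ℝ) ^ ((j : ℝ) / H))).filter
          (fun p => p ≡ b [MOD S.m]), f p := by
  have hmap : ∀ p ∈ S.cell x H c i j, p % S.m ∈
      (range S.m).filter (fun b => b.Coprime S.m ∧ S.c b = c) := by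
    intro p hp
    unfold Dat.cell at hp
    rw [mem_filter] at hp
    obtain ⟨-, hpp, hpm, hpc, -, -⟩ := hp
    rw [mem_filter, mem_range]
    refine ⟨Nat.mod_lt _ S.hm, ?_, ?_⟩
    · have h1 : p.Coprime S.m := (Nat.Prime.coprime_iff_not_dvd hpp).2 hpm
      have h2 : Nat.gcd (p % S.m) S.m = Nat.gcd p S.m := (Nat.mod_modEq p S.m).gcd_eq
      exact h2.trans h1
    · rw [← hpc]
      exact S.hc2 _ _ (Nat.mod_modEq p S.m)
  rw [← sum_fiberwise_of_maps_to hmap]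
  refine sum_congr rfl fun b hb => ?_
  rw [mem_filter, mem_range] at hb
  obtain ⟨hbm, hbc, hbS⟩ := hb
  refine sum_congr ?_ fun _ _ => rfl
  ext p
  rw [mem_filter, mem_filter]
  unfold Dat.cell pr
  rw [mem_filter, mem_filter, mem_range, mem_range, Nat.lt_ceil]
  constructor
  · rintro ⟨⟨-, hpp, hpm, -, h1, h2⟩, h3⟩
    refine ⟨⟨h2, hpp, ?_, h1⟩, ?_⟩
    · intro h4
      exact hpp.one_lt.ne' (Nat.dvd_one.1 h4)
    · rw [← h3]
      exact (Nat.mod_modEq p S.m).symm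
  · rintro ⟨⟨h2, hpp, -, h1⟩, h3⟩
    have h4 : p % S.m = b := by
      have h5 : p % S.m = b % S.m := h3
      rw [h5, Nat.mod_eq_of_lt hbm]
    refine ⟨⟨?_, hpp, Mass_cop hpp h3 hbc, ?_, h1, h2⟩, h4⟩
    · have h6 : (x : ℝ) ^ ((j : ℝ) / H) ≤ (x : ℝ) ^ (1 : ℝ) := by
        apply Real.rpow_le_rpow_of_exponent_le
        · exact_mod_cast hx
        · rw [div_le_one (by exact_mod_cast hH)]
          exact_mod_cast hj
      rw [Real.rpow_one] at h6
      have h7 : (p : ℝ) < x := h2.trans_le h6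
      have h8 : p < x := by exact_mod_cast h7
      omega
    · rw [← hbS]
      exact S.hc2 _ _ h3

/-- MODULE MASS.  `∑_{p ∈ cell} 1/p → (1/3) log(j/i)`, the same for `1/(p-1)` (difference `≤ ∑ 2/p^2 ≤ 4 x^(-i/H)`).
Proof: `eqd` and `apm`; `S.c p` depends only on `p mod m`; for large `x` all `p ≥ x^(i/H)` are prime to `m`; `p < x^(j/H)`,
`j ≤ H`, gives `p ≤ x`. -/
theorem mass (S : Dat) (H i j : ℕ) (hi : 0 < i) (hij : i < j) (hj : j ≤ H) (c : ZMod 3) (lo hi' : ℝ)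
    (hlo : lo < (1 / 3) * Real.log ((j : ℝ) / i)) (hhi : (1 / 3) * Real.log ((j : ℝ) / i) < hi') :
    ∃ x0 : ℕ, ∀ x : ℕ, x0 ≤ x → lo ≤ ∑ p ∈ S.cell x H c i j, 1 / (p : ℝ) ∧
      ∑ p ∈ S.cell x H c i j, 1 / ((p : ℝ) - 1) ≤ hi' := by
  classical
  have hH : 0 < H := by omega
  have hHr : (0 : ℝ) < H := by exact_mod_cast hH
  have hir : (0 : ℝ) < i := by exact_mod_cast hi
  have hjr : (i : ℝ) < j := by exact_mod_cast hij
  obtain ⟨L, hL⟩ : ∃ L, L = (1 / 3) * Real.log ((j : ℝ) / i) := ⟨_, rfl⟩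
  rw [← hL] at hlo hhi
  have hL0 : 0 < L := by
    rw [hL]
    have h1 : 0 < Real.log ((j : ℝ) / i) := Real.log_pos (by rw [lt_div_iff₀ hir]; linarith)
    positivity
  obtain ⟨B, hB⟩ : ∃ B, B = (range S.m).filter (fun b => b.Coprime S.m ∧ S.c b = c) := ⟨_, rfl⟩
  obtain ⟨δ, hδ⟩ : ∃ δ, δ = min (L - lo) (hi' - L) := ⟨_, rfl⟩
  have hδ0 : 0 < δ := by
    rw [hδ]
    exact lt_min (by linarith) (by linarith)
  have hδ1 : δ ≤ L - lo := by rw [hδ]; exact min_le_left _ _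
  have hδ2 : δ ≤ hi' - L := by rw [hδ]; exact min_le_right _ _
  obtain ⟨ε, hε⟩ : ∃ ε, ε = δ / (2 * ((B.card : ℝ) + 1)) := ⟨_, rfl⟩
  have hε0 : 0 < ε := by
    rw [hε]
    positivity
  have hεB : (B.card : ℝ) * ε ≤ δ / 2 := by
    rw [hε, mul_div_assoc', div_le_div_iff₀ (by positivity) (by norm_num)]
    nlinarith [(Nat.cast_nonneg B.card : (0 : ℝ) ≤ B.card)]
  have hαβ : (i : ℝ) / H < (j : ℝ) / H := (div_lt_div_iff_of_pos_right hHr).2 hjr
  have hα0 : 0 < (i : ℝ) / H := by positivity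
  have hlog : Real.log ((j : ℝ) / H / ((i : ℝ) / H)) = 3 * L := by
    rw [hL, div_div_div_cancel_right₀ hHr.ne']
    ring
  -- the sum over the cell
  have hev : ∀ᶠ x : ℕ in Filter.atTop, ∀ b ∈ B,
      |(∑ p ∈ (pr 1 ((x : ℝ) ^ ((i : ℝ) / H)) ((x : ℝ) ^ ((j : ℝ) / H))).filter
        (fun p => p ≡ b [MOD S.m]), 1 / (p : ℝ)) - 1 / (S.m.totient : ℝ) * (3 * L)| ≤ ε := by
    rw [Filter.eventually_all_finset]
    intro b hb
    rw [hB, mem_filter] at hb
    obtain ⟨x0, hx0⟩ := apm S.m S.hm b hb.2.1 _ _ hα0 hαβ ε hε0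
    rw [hlog] at hx0
    exact Filter.eventually_atTop.2 ⟨x0, hx0⟩
  have htot : (3 : ℝ) * B.card = S.m.totient := by
    have := eqd S c
    rw [hB]
    exact_mod_cast this
  have hphi : (0 : ℝ) < S.m.totient := by exact_mod_cast Nat.totient_pos.2 S.hm
  have hy : Filter.Tendsto (fun x : ℕ => (x : ℝ) ^ ((i : ℝ) / H)) Filter.atTop Filter.atTop :=
    (tendsto_rpow_atTop hα0).comp tendsto_natCast_atTop_atTop
  have hall : ∀ᶠ x : ℕ in Filter.atTop, lo ≤ ∑ p ∈ S.cell x H c i j, 1 / (p : ℝ) ∧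
      ∑ p ∈ S.cell x H c i j, 1 / ((p : ℝ) - 1) ≤ hi' := by
    filter_upwards [hev, hy.eventually_ge_atTop (max 2 (4 * (L + δ / 2) / δ)),
      Filter.eventually_ge_atTop 1] with x hx hxy hx1
    obtain ⟨y, hyd⟩ : ∃ y, y = (x : ℝ) ^ ((i : ℝ) / H) := ⟨_, rfl⟩
    have hy2 : 2 ≤ y := by rw [hyd]; exact (le_max_left _ _).trans hxy
    have hy4 : 4 * (L + δ / 2) / δ ≤ y := by rw [hyd]; exact (le_max_right _ _).trans hxy
    have hs := Mass_split S H i j hH hj c x hx1 (fun p => 1 / (p : ℝ))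
    rw [← hB] at hs
    have h1 : |(∑ p ∈ S.cell x H c i j, 1 / (p : ℝ)) - L| ≤ δ / 2 := by
      have h2 : L = ∑ b ∈ B, 1 / (S.m.totient : ℝ) * (3 * L) := by
        rw [sum_const, nsmul_eq_mul]
        have h3 : (B.card : ℝ) = S.m.totient / 3 := by linarith
        rw [h3]
        field_simp
      rw [hs]
      conv_lhs => rw [h2]
      rw [← sum_sub_distrib]
      refine (abs_sum_le_sum_abs _ _).trans ?_
      calc ∑ b ∈ B, |(∑ p ∈ (pr 1 ((x : ℝ) ^ ((i : ℝ) / H)) ((x : ℝ) ^ ((j : ℝ) / H))).filter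
            (fun p => p ≡ b [MOD S.m]), 1 / (p : ℝ)) - 1 / (S.m.totient : ℝ) * (3 * L)|
          ≤ ∑ b ∈ B, ε := sum_le_sum hx
        _ = (B.card : ℝ) * ε := by rw [sum_const, nsmul_eq_mul]
        _ ≤ δ / 2 := hεB
    rw [abs_le] at h1
    constructor
    · linarith [h1.1]
    · have h4 : ∀ p ∈ S.cell x H c i j, 1 / ((p : ℝ) - 1) ≤ (1 + 2 / y) * (1 / (p : ℝ)) := by
        intro p hp
        unfold Dat.cell at hp
        rw [mem_filter] at hp
        have hpy : y ≤ (p : ℝ) := by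
          rw [hyd]
          exact hp.2.2.2.2.1
        have hp1 : (0 : ℝ) < (p : ℝ) - 1 := by linarith
        have hp0 : (0 : ℝ) < (p : ℝ) := by linarith
        have hy0 : 0 < y := by linarith
        rw [mul_one_div, div_le_div_iff₀ hp1 hp0]
        have h5 : (1 + 2 / y) * ((p : ℝ) - 1) = (p : ℝ) - 1 + 2 * ((p : ℝ) - 1) / y := by ring
        have h6 : 1 ≤ 2 * ((p : ℝ) - 1) / y := by
          rw [le_div_iff₀ hy0]
          linarith
        rw [h5]
        linarith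
      refine (sum_le_sum h4).trans ?_
      rw [← mul_sum]
      have hy0 : 0 < y := by linarith
      have h7 : 2 / y * (L + δ / 2) ≤ δ / 2 := by
        rw [div_le_iff₀ hδ0] at hy4
        rw [div_mul_eq_mul_div, div_le_iff₀ hy0]
        linarith
      have h8 : 0 ≤ 2 / y := by positivity
      calc (1 + 2 / y) * ∑ p ∈ S.cell x H c i j, 1 / (p : ℝ)
          ≤ (1 + 2 / y) * (L + δ / 2) :=
            mul_le_mul_of_nonneg_left (by linarith [h1.2]) (by linarith)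
        _ = L + δ / 2 + 2 / y * (L + δ / 2) := by ring
        _ ≤ hi' := by linarith
  exact Filter.eventually_atTop.1 hall

/-- MODULE MASSN.  The rational bounds used: `kmn j/10^6 < (1/3) log((j+1)/j) < kpn j/10^6` for `16 ≤ j ≤ 100`
(`2/(2j+1) < log(1+1/j) < (2j+1)/(2j(j+1))`; `Nat.div`). -/
theorem massn (j : ℕ) (h1 : 16 ≤ j) (h2 : j ≤ 100) :
    (kmn j : ℝ) / 10 ^ 6 < (1 / 3) * Real.log (((j + 1 : ℕ) : ℝ) / j) ∧
      (1 / 3) * Real.log (((j + 1 : ℕ) : ℝ) / j) < (kpn j : ℝ) / 10 ^ 6 := by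
  have hj : (0 : ℝ) < j := by
    have : 0 < j := by omega
    exact_mod_cast this
  have hj1 : ((j + 1 : ℕ) : ℝ) / j = 1 + 1 / j := by
    push_cast
    field_simp
  constructor
  · have h3 : kmn j * (3 * (2 * j + 1)) < 2 * 10 ^ 6 := by
      have h4 : kmn j * (3 * (2 * j + 1)) ≤ 2 * 10 ^ 6 := Nat.div_mul_le_self _ _
      refine lt_of_le_of_ne h4 fun h5 => ?_
      have h6 : 3 ∣ 2 * 10 ^ 6 := ⟨kmn j * (2 * j + 1), by rw [← h5]; ring⟩
      norm_num at h6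
    have h7 : (kmn j : ℝ) * (3 * (2 * j + 1)) < 2 * 10 ^ 6 := by exact_mod_cast h3
    have h8 : (kmn j : ℝ) / 10 ^ 6 < 1 / 3 * (2 / (2 * j + 1)) := by
      rw [div_lt_iff₀ (by norm_num)]
      have h9 : 1 / 3 * (2 / (2 * (j : ℝ) + 1)) * 10 ^ 6 = 2 * 10 ^ 6 / (3 * (2 * j + 1)) := by
        field_simp
      rw [h9, lt_div_iff₀ (by positivity)]
      exact h7
    have h10 := Real.le_log_one_add_of_nonneg (x := 1 / (j : ℝ)) (by positivity)
    have h11 : 2 * (1 / (j : ℝ)) / (1 / j + 2) = 2 / (2 * j + 1) := by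
      field_simp
      ring
    rw [h11, ← hj1] at h10
    linarith
  · have h3 : (2 * j + 1) * 10 ^ 6 < kpn j * (6 * j * (j + 1)) := by
      unfold kpn
      have h4 : 0 < 6 * j * (j + 1) := by positivity
      exact Nat.lt_mul_of_div_lt (Nat.lt_succ_self _) h4
    have h7 : (2 * (j : ℝ) + 1) * 10 ^ 6 < (kpn j : ℝ) * (6 * j * (j + 1)) := by
      exact_mod_cast h3
    have h8 : 1 / 3 * ((2 * (j : ℝ) + 1) / (2 * j * (j + 1))) < (kpn j : ℝ) / 10 ^ 6 := by
      rw [lt_div_iff₀ (by norm_num)]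
      have h9 : 1 / 3 * ((2 * (j : ℝ) + 1) / (2 * j * (j + 1))) * 10 ^ 6 =
          (2 * j + 1) * 10 ^ 6 / (6 * j * (j + 1)) := by
        field_simp
        ring
      rw [h9, div_lt_iff₀ (by positivity)]
      exact h7
    have ht : (0 : ℝ) < 1 + 1 / j := by positivity
    have h10 : Real.log (1 + 1 / (j : ℝ)) ≤ ((1 + 1 / (j : ℝ)) - (1 + 1 / (j : ℝ))⁻¹) / 2 := by
      rw [← Real.sinh_log ht]
      apply Real.self_le_sinh_iff.2
      apply Real.log_nonneg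
      have : 0 ≤ 1 / (j : ℝ) := by positivity
      linarith
    have h11 : ((1 + 1 / (j : ℝ)) - (1 + 1 / (j : ℝ))⁻¹) / 2 =
        (2 * (j : ℝ) + 1) / (2 * j * (j + 1)) := by
      field_simp
      ring
    rw [h11, ← hj1] at h10
    linarith

end Pool.Agent.CC
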