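import Pool.Agent.CC.SC
import Pool.Agent.CC.Mass

/-! CC, part K: the sequences `al` and the number of bad `k` of a given type. -/

set_option autoImplicit false

namespace Pool.Agent.CC

open Finset

private theorem al_ix (x : ℕ) (hx : 3 ≤ x) (p : ℕ) (hp : 1 ≤ p) :
    (x : ℝ) ^ ((ix x p : ℝ) / 400) ≤ (p : ℝ) ∧ (p : ℝ) ≤ (x : ℝ) ^ (((ix x p : ℝ) + 1) / 400) := by
  have hx1 : (1 : ℝ) < x := by
    have : (3 : ℝ) ≤ x := by exact_mod_cast hx
    linarith
  have hx0 : (0 : ℝ) < x := by linarith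
  have hlx : 0 < Real.log x := Real.log_pos hx1
  have hp1 : (1 : ℝ) ≤ p := by exact_mod_cast hp
  have hp0 : (0 : ℝ) < p := by linarith
  have hlp : 0 ≤ Real.log p := Real.log_nonneg hp1
  have h1 : (ix x p : ℝ) ≤ 400 * Real.log p / Real.log x := Nat.floor_le (by positivity)
  have h2 : 400 * Real.log p / Real.log x < (ix x p : ℝ) + 1 := Nat.lt_floor_add_one _
  rw [le_div_iff₀ hlx] at h1
  rw [div_lt_iff₀ hlx] at h2
  constructor
  · rw [Real.rpow_def_of_pos hx0, ← Real.le_log_iff_exp_le hp0]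
    linarith
  · rw [Real.rpow_def_of_pos hx0, ← Real.log_le_iff_le_exp hp0]
    linarith

/-- one step of `al` -/
private theorem al_step (S : Dat) (x : ℕ) (z : Fin 5) (zs : List (Fin 5)) (N n : ℕ)
    (h : al S x (z :: zs) N n ≠ 0) :
    ∃ p, p.Prime ∧ p ∣ n ∧ n ≠ 0 ∧ inz S x z p ∧ ix x p ≤ N ∧ al S x zs (N - ix x p) (n / p) ≠ 0 := by
  classical
  rw [al] at h
  obtain ⟨p, hp, h1⟩ := exists_ne_zero_of_sum_ne_zero h
  rw [mem_filter, Nat.mem_primeFactors] at hp
  by_cases h2 : ix x p ≤ N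
  · rw [if_pos h2] at h1
    exact ⟨p, hp.1.1, hp.1.2.1, hp.1.2.2, hp.2, h2, h1⟩
  · rw [if_neg h2] at h1
    exact absurd rfl h1

private theorem al_pf (n p : ℕ) (hp : p.Prime) (hpn : p ∣ n) :
    n.primeFactors ⊆ insert p (n / p).primeFactors := by
  obtain ⟨t, rfl⟩ := hpn
  rw [Nat.mul_div_cancel_left _ hp.pos]
  intro q hq
  rw [Nat.mem_primeFactors] at hq
  rw [mem_insert, Nat.mem_primeFactors]
  rcases (hq.1.dvd_mul).1 hq.2.1 with h | h
  · exact Or.inl ((Nat.prime_dvd_prime_iff_eq hq.1 hp).1 h)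
  · exact Or.inr ⟨hq.1, h, fun h0 => hq.2.2 (by rw [h0, mul_zero])⟩

/-- MODULE AL_SIZE.  If `al S x zs N n ≠ 0` then `x^(N/400) ≤ n ≤ x^((N + #zs)/400)` and all prime factors of `n` are
`≥ x^(32/400)`.
Proof: induction on `zs`; a prime `p` has `x^(ix/400) ≤ p < x^((ix+1)/400)` (`ix x p = ⌊400 log p/log x⌋`), `zlo z ≥ 32`. -/
theorem al_size (S : Dat) (x : ℕ) (hx : 3 ≤ x) (zs : List (Fin 5)) (N n : ℕ) (h : al S x zs N n ≠ 0) :
    1 ≤ n ∧ (x : ℝ) ^ ((N : ℝ) / 400) ≤ (n : ℝ) ∧ (n : ℝ) ≤ (x : ℝ) ^ (((N : ℝ) + zs.length) / 400) ∧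
      ∀ p ∈ n.primeFactors, (x : ℝ) ^ ((32 : ℝ) / 400) ≤ (p : ℝ) := by
  have hx1 : (1 : ℝ) < x := by
    have : (3 : ℝ) ≤ x := by exact_mod_cast hx
    linarith
  have hx0 : (0 : ℝ) < x := by linarith
  induction zs generalizing N n with
  | nil =>
    rw [al] at h
    by_cases h1 : N = 0 ∧ n = 1
    · obtain ⟨rfl, rfl⟩ := h1
      simp
    · rw [if_neg h1] at h
      exact absurd rfl h
  | cons z zs ih =>
    obtain ⟨p, hp, hpn, hn0, hz, hi, h1⟩ := al_step S x z zs N n h
    obtain ⟨h2, h3, h4, h5⟩ := ih _ _ h1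
    obtain ⟨t, rfl⟩ := hpn
    rw [Nat.mul_div_cancel_left _ hp.pos] at h2 h3 h4 h5
    obtain ⟨h6, h7⟩ := al_ix x hx p hp.one_lt.le
    have hp0 : (0 : ℝ) < p := by exact_mod_cast hp.pos
    have ht0 : (0 : ℝ) < t := by exact_mod_cast h2
    have hc : ((N - ix x p : ℕ) : ℝ) = (N : ℝ) - ix x p := by rw [Nat.cast_sub hi]
    rw [hc] at h3 h4
    refine ⟨Nat.one_le_iff_ne_zero.2 hn0, ?_, ?_, ?_⟩
    · have h8 : (x : ℝ) ^ ((N : ℝ) / 400) = (x : ℝ) ^ ((ix x p : ℝ) / 400)
          * (x : ℝ) ^ (((N : ℝ) - ix x p) / 400) := by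
        rw [← Real.rpow_add hx0]
        congr 1
        ring
      rw [h8, Nat.cast_mul]
      exact mul_le_mul h6 h3 (Real.rpow_nonneg hx0.le _) hp0.le
    · have h8 : (x : ℝ) ^ (((N : ℝ) + ((z :: zs).length : ℕ)) / 400)
          = (x : ℝ) ^ (((ix x p : ℝ) + 1) / 400)
          * (x : ℝ) ^ (((N : ℝ) - ix x p + zs.length) / 400) := by
        rw [← Real.rpow_add hx0]
        congr 1
        rw [List.length_cons]
        push_cast
        ring
      rw [h8, Nat.cast_mul]
      exact mul_le_mul h7 h4 ht0.le (Real.rpow_nonneg hx0.le _)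
    · intro q hq
      have h8 := al_pf (p * t) p hp (dvd_mul_right _ _) hq
      rw [mem_insert, Nat.mul_div_cancel_left _ hp.pos] at h8
      rcases h8 with rfl | h8
      · refine le_trans ?_ hz.2.1
        refine Real.rpow_le_rpow_of_exponent_le hx1.le ?_
        have h9 : 32 ≤ zlo z := by
          fin_cases z <;> decide
        have h10 : (32 : ℝ) ≤ zlo z := by exact_mod_cast h9
        linarith
      · exact h5 q h8

private theorem al_nonneg (S : Dat) (x : ℕ) (zs : List (Fin 5)) (N n : ℕ) : 0 ≤ al S x zs N n := by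
  induction zs generalizing N n with
  | nil =>
    rw [al]
    split_ifs <;> norm_num
  | cons z zs ih =>
    rw [al]
    refine sum_nonneg fun p _ => ?_
    split_ifs
    · exact ih _ _
    · exact le_rfl

private theorem al_card (S : Dat) (x : ℕ) (zs : List (Fin 5)) (N n : ℕ) (h : al S x zs N n ≠ 0) :
    n.primeFactors.card ≤ zs.length := by
  induction zs generalizing N n with
  | nil =>
    rw [al] at h
    by_cases h1 : N = 0 ∧ n = 1
    · obtain ⟨rfl, rfl⟩ := h1
      simp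
    · rw [if_neg h1] at h
      exact absurd rfl h
  | cons z zs ih =>
    obtain ⟨p, hp, hpn, hn0, hz, hi, h1⟩ := al_step S x z zs N n h
    refine (card_le_card (al_pf n p hp hpn)).trans ((card_insert_le _ _).trans ?_)
    rw [List.length_cons]
    exact Nat.succ_le_succ (ih _ _ h1)

/-- sums over `N`: the first step -/
private theorem al_sum (S : Dat) (x : ℕ) (z : Fin 5) (zs : List (Fin 5)) (n : ℕ) (R : Finset ℕ)
    (F : Finset ℕ) (hF : ∀ p, p ∈ F ↔ p ∈ n.primeFactors ∧ inz S x z p) :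
    ∑ N ∈ R, al S x (z :: zs) N n = ∑ p ∈ F, ∑ N ∈ (R.filter fun N => ix x p ≤ N).image
      (fun N => N - ix x p), al S x zs N (n / p) := by
  classical
  have h1 : ∀ N ∈ R, al S x (z :: zs) N n
      = ∑ p ∈ F, if ix x p ≤ N then al S x zs (N - ix x p) (n / p) else 0 := by
    intro N _
    rw [al]
    refine sum_congr ?_ fun _ _ => rfl
    ext p
    rw [hF, mem_filter]
  rw [sum_congr rfl h1, sum_comm]
  refine sum_congr rfl fun p _ => ?_
  rw [sum_image, sum_filter]
  intro a ha b hb hab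
  rw [coe_filter] at ha hb
  have ha' := ha.2
  have hb' := hb.2
  simp only at hab
  omega

/-- MODULE AL_LE.  `al ≥ 0`, and the sum over all `N` of `al S x zs N n` is at most `(#zs)^(#zs)` (at every step there are at
most `#zs` primes to choose from: `n` is a product of `#zs` primes if the sum is not 0). -/
theorem al_le (S : Dat) (x : ℕ) (zs : List (Fin 5)) (n : ℕ) (R : Finset ℕ) :
    (∀ N, 0 ≤ al S x zs N n) ∧ ∑ N ∈ R, al S x zs N n ≤ ((zs.length : ℝ) + 1) ^ zs.length := by
  classical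
  refine ⟨fun N => al_nonneg S x zs N n, ?_⟩
  induction zs generalizing n R with
  | nil =>
    rw [List.length_nil, pow_zero]
    have h1 : ∀ N ∈ R, al S x [] N n ≤ if N = 0 then 1 else 0 := by
      intro N _
      rw [al]
      by_cases hN : N = 0
      · rw [if_pos hN]
        split_ifs <;> norm_num
      · rw [if_neg hN, if_neg fun h => hN h.1]
    refine (sum_le_sum h1).trans ?_
    rw [sum_ite_eq']
    split_ifs <;> norm_num
  | cons z zs ih =>
    by_cases h0 : ∃ N ∈ R, al S x (z :: zs) N n ≠ 0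
    · obtain ⟨N, -, hN⟩ := h0
      have hcard := al_card S x (z :: zs) N n hN
      rw [List.length_cons] at hcard ⊢
      rw [al_sum S x z zs n R (n.primeFactors.filter fun p => inz S x z p) fun p => by
        rw [mem_filter]]
      refine (sum_le_card_nsmul _ _ _ fun p _ => ih (n / p) _).trans ?_
      rw [nsmul_eq_mul, pow_succ']
      have h2 : ((n.primeFactors.filter fun p => inz S x z p).card : ℝ) ≤ (zs.length : ℝ) + 1 := by
        exact_mod_cast (card_filter_le _ _).trans hcard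
      have h3 : (0 : ℝ) ≤ zs.length := Nat.cast_nonneg _
      push_cast
      refine mul_le_mul (by linarith) ?_ (by positivity) (by positivity)
      exact pow_le_pow_left₀ (by positivity) (by linarith) _
    · push Not at h0
      rw [sum_eq_zero h0]
      positivity

private theorem al_zone (S : Dat) (x : ℕ) (p : ℕ) (z z' : Fin 5) (h : inz S x z p)
    (h' : inz S x z' p) : z = z' := by
  have hc : zc z = zc z' := h.1.symm.trans h'.1
  have key : ∀ z z' : Fin 5, zc z = zc z' → z ≠ z' → (zhi z ≠ 400 ∧ zhi z = zlo z') ∨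
      (zhi z' ≠ 400 ∧ zhi z' = zlo z) := by
    decide
  by_contra hne
  rcases key z z' hc hne with ⟨h1, h2⟩ | ⟨h1, h2⟩
  · have h3 := (h.2.2).resolve_left h1
    rw [h2] at h3
    exact absurd h'.2.1 (not_le.2 h3)
  · have h3 := (h'.2.2).resolve_left h1
    rw [h2] at h3
    exact absurd h.2.1 (not_le.2 h3)

open scoped Classical in
private theorem al_typ (S : Dat) (x n : ℕ) (k : Fin 5 → ℕ) (h : typ S x n k) (z : Fin 5) (p : ℕ)
    (hp : p ∈ n.primeFactors) (hz : inz S x z p) :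
    typ S x (n / p) (fun z' => k z' - if z' = z then 1 else 0) := by
  obtain ⟨h1, h2, h3⟩ := h
  have hpp := Nat.prime_of_mem_primeFactors hp
  have hpn := Nat.dvd_of_mem_primeFactors hp
  have hpf : (n / p).primeFactors = n.primeFactors.erase p := by
    obtain ⟨t, rfl⟩ := hpn
    have hcop : Nat.Coprime p t := by
      have := Nat.squarefree_mul_iff.1 h1
      exact this.1
    rw [Nat.mul_div_cancel_left _ hpp.pos]
    ext q
    rw [mem_erase, Nat.mem_primeFactors, Nat.mem_primeFactors]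
    constructor
    · rintro ⟨hq, hqt, ht⟩
      refine ⟨?_, hq, dvd_mul_of_dvd_right hqt _, mul_ne_zero hpp.ne_zero ht⟩
      rintro rfl
      exact hq.one_lt.ne' (Nat.eq_one_of_dvd_coprimes hcop dvd_rfl hqt)
    · rintro ⟨hqp, hq, hqt, ht⟩
      refine ⟨hq, ?_, right_ne_zero_of_mul ht⟩
      rcases (hq.dvd_mul).1 hqt with h | h
      · exact absurd ((Nat.prime_dvd_prime_iff_eq hq hpp).1 h) hqp
      · exact h
  refine ⟨h1.squarefree_of_dvd (Nat.div_dvd_of_dvd hpn), ?_, ?_⟩
  · intro q hq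
    rw [hpf, mem_erase] at hq
    exact h2 q hq.2
  · intro z'
    change _ = k z' - if z' = z then 1 else 0
    rw [hpf, filter_erase, ← h3 z']
    by_cases hz' : z' = z
    · rw [if_pos hz', card_erase_of_mem]
      rw [mem_filter, hz']
      exact ⟨hp, hz⟩
    · rw [if_neg hz', erase_eq_of_notMem, Nat.sub_zero]
      rw [mem_filter]
      rintro ⟨-, h4⟩
      exact hz' (al_zone S x p z' z h4 hz)

open scoped Classical in
/-- MODULE AL_COUNT.  If `n` is of type `k` and `k z = count of z in zs` then the sum over `N` is `∏_z (k z)!` (the number of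
orderings); we need `≥`, the sum over all `N` that can occur (`N ≤ 400 · #zs` or so; `R` contains all `N` with
`al .. N n ≠ 0`).
Proof: induction on `zs = z :: zs'`: the primes `p ∣ n` in the zone `z` are `k z` in number, and `n/p` is of type
`k - δ_z` (`n` squarefree; the zones are pairwise disjoint), so the sum is `k z · (k z - 1)! ∏_{z' ≠ z} (k z')!`. -/
theorem al_count (S : Dat) (x : ℕ) (zs : List (Fin 5)) (n : ℕ) (k : Fin 5 → ℕ) (h : typ S x n k)
    (hk : ∀ z, k z = zs.count z) (R : Finset ℕ) (hR : ∀ N, al S x zs N n ≠ 0 → N ∈ R) :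
    (∏ z, ((k z).factorial : ℝ)) ≤ ∑ N ∈ R, al S x zs N n := by
  induction zs generalizing n k R with
  | nil =>
    have hn1 : n = 1 := by
      have h1 : n.primeFactors = ∅ := by
        rw [eq_empty_iff_forall_notMem]
        intro p hp
        obtain ⟨z, hz⟩ := h.2.1 p hp
        have h2 := h.2.2 z
        rw [hk z, List.count_nil, card_eq_zero] at h2
        have h3 : p ∈ n.primeFactors.filter fun p => inz S x z p := mem_filter.2 ⟨hp, hz⟩
        rw [h2] at h3
        exact absurd h3 (notMem_empty p)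
      rcases Nat.primeFactors_eq_empty.1 h1 with h2 | h2
      · exact absurd h.1 (by rw [h2]; exact not_squarefree_zero)
      · exact h2
    have hal : al S x [] 0 n = 1 := by
      rw [al, if_pos ⟨rfl, hn1⟩]
    have h0 : 0 ∈ R := hR 0 (by rw [hal]; exact one_ne_zero)
    have h1 : ∏ z, ((k z).factorial : ℝ) = 1 := by
      refine prod_eq_one fun z _ => ?_
      rw [hk z, List.count_nil]
      simp
    rw [h1, ← hal]
    exact single_le_sum (f := fun N => al S x [] N n) (fun N _ => al_nonneg S x [] N n) h0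
  | cons z zs ih =>
    set F := n.primeFactors.filter fun p => inz S x z p with hF
    rw [al_sum S x z zs n R F fun p => by rw [hF, mem_filter]]
    have hFc : F.card = k z := h.2.2 z
    set k' : Fin 5 → ℕ := fun z' => k z' - if z' = z then 1 else 0 with hk'
    have hstep : ∀ p ∈ F, (∏ z, ((k' z).factorial : ℝ)) ≤ ∑ N ∈ (R.filter fun N => ix x p ≤ N).image
        (fun N => N - ix x p), al S x zs N (n / p) := by
      intro p hp
      rw [hF, mem_filter] at hp
      refine ih (n / p) k' (al_typ S x n k h z p hp.1 hp.2) ?_ _ ?_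
      · intro z'
        simp only [hk']
        rw [hk z', List.count_cons]
        by_cases hz' : z' = z
        · rw [if_pos hz', hz']
          simp
        · rw [if_neg hz']
          have h1 : (z == z') = false := by
            rw [beq_eq_false_iff_ne]
            exact fun h => hz' h.symm
          rw [h1]
          simp
      · intro N' hN'
        rw [mem_image]
        refine ⟨N' + ix x p, mem_filter.2 ⟨hR _ ?_, Nat.le_add_left _ _⟩, Nat.add_sub_cancel _ _⟩
        have h1 : al S x zs N' (n / p) ≤ al S x (z :: zs) (N' + ix x p) n := by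
          rw [al]
          have h2 := single_le_sum (s := n.primeFactors.filter fun p => inz S x z p)
            (f := fun p' => if ix x p' ≤ N' + ix x p then
              al S x zs (N' + ix x p - ix x p') (n / p') else 0)
            (fun p' _ => by
              split_ifs
              · exact al_nonneg _ _ _ _ _
              · exact le_rfl) (mem_filter.2 hp)
          rw [if_pos (Nat.le_add_left _ _), Nat.add_sub_cancel] at h2
          exact h2
        have h2 : 0 < al S x zs N' (n / p) := lt_of_le_of_ne (al_nonneg _ _ _ _ _) (Ne.symm hN')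
        exact (lt_of_lt_of_le h2 h1).ne'
    refine le_trans ?_ (sum_le_sum hstep)
    rw [sum_const, nsmul_eq_mul, hFc]
    have hz1 : 1 ≤ k z := by
      rw [hk z, List.count_cons_self]
      exact Nat.succ_le_succ (Nat.zero_le _)
    rw [← mul_prod_erase univ _ (mem_univ z), ← mul_prod_erase univ
      (fun z => ((k' z).factorial : ℝ)) (mem_univ z)]
    have h1 : ∏ y ∈ univ.erase z, ((k' y).factorial : ℝ) = ∏ y ∈ univ.erase z,
        ((k y).factorial : ℝ) := by
      refine prod_congr rfl fun y hy => ?_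
      simp only [hk']
      rw [if_neg (ne_of_mem_erase hy), Nat.sub_zero]
    have h2 : ((k z).factorial : ℝ) = k z * ((k' z).factorial : ℝ) := by
      simp only [hk', if_true]
      rw [← Nat.mul_factorial_pred (Nat.one_le_iff_ne_zero.1 hz1)]
      push_cast
      rfl
    rw [h1, h2, mul_assoc]

/-- the mass of the primes of index `j` in the zone `z` -/
private noncomputable def alκ (j : ℕ) : ℝ := (1 / 3) * Real.log (((j : ℝ) + 1) / j)

private theorem alκ_nonneg (j : ℕ) (hj : 1 ≤ j) : 0 ≤ alκ j := by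
  have h1 : (1 : ℝ) ≤ j := by exact_mod_cast hj
  have h2 : 1 ≤ ((j : ℝ) + 1) / j := by
    rw [le_div_iff₀ (by linarith)]
    linarith
  have := Real.log_nonneg h2
  unfold alκ
  positivity

private theorem alκ_le (j : ℕ) (hj : 1 ≤ j) : alκ j ≤ 1 := by
  have h1 : (1 : ℝ) ≤ j := by exact_mod_cast hj
  have h2 : ((j : ℝ) + 1) / j ≤ 2 := by
    rw [div_le_iff₀ (by linarith)]
    linarith
  have h3 : (0 : ℝ) < ((j : ℝ) + 1) / j := by positivity
  have h4 : Real.log (((j : ℝ) + 1) / j) ≤ ((j : ℝ) + 1) / j - 1 := Real.log_le_sub_one_of_pos h3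
  unfold alκ
  linarith

private theorem zlo_pos (z : Fin 5) : 32 ≤ zlo z := by
  fin_cases z <;> decide

open scoped Classical in
/-- the primes `≤ x` of the zone -/
private noncomputable def alP (S : Dat) (x : ℕ) (z : Fin 5) : Finset ℕ :=
  (Icc 1 x).filter fun p => p.Prime ∧ inz S x z p

open scoped Classical in
/-- the mass of the primes of index `j` is small -/
private theorem al_mu (S : Dat) (z : Fin 5) (ε : ℝ) (hε : 0 < ε) :
    ∃ x0 : ℕ, ∀ x : ℕ, x0 ≤ x → ∀ j : ℕ, j < 400 →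
      ∑ p ∈ (alP S x z).filter (fun p => ix x p = j), 1 / (p : ℝ) ≤
        if zlo z ≤ j ∧ j < zhi z then alκ j + ε else 0 := by
  have hex : ∀ j : ℕ, ∃ x0 : ℕ, ∀ x : ℕ, x0 ≤ x → 1 ≤ j → j < 400 →
      ∑ p ∈ S.cell x 400 (zc z) j (j + 1), 1 / ((p : ℝ) - 1) ≤ alκ j + ε := by
    intro j
    by_cases hj : 1 ≤ j ∧ j < 400
    · obtain ⟨x0, h⟩ := mass S 400 j (j + 1) hj.1 (Nat.lt_succ_self j) hj.2 (zc z)
        (alκ j - 1) (alκ j + ε) (by
          unfold alκ
          push_cast
          linarith) (by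
          unfold alκ
          push_cast
          linarith)
      exact ⟨x0, fun x hx _ _ => (h x hx).2⟩
    · exact ⟨0, fun x _ h1 h2 => absurd ⟨h1, h2⟩ hj⟩
  choose X hX using hex
  obtain ⟨x1, hx1⟩ : ∃ x1 : ℕ, ∀ x : ℕ, x1 ≤ x → (S.m : ℝ) < (x : ℝ) ^ ((32 : ℝ) / 400) := by
    have h1 : Filter.Tendsto (fun x : ℕ => (x : ℝ) ^ ((32 : ℝ) / 400)) Filter.atTop Filter.atTop :=
      (tendsto_rpow_atTop (by norm_num)).comp tendsto_natCast_atTop_atTop
    obtain ⟨x1, h⟩ := Filter.eventually_atTop.1 (h1.eventually_gt_atTop (S.m : ℝ))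
    exact ⟨x1, h⟩
  refine ⟨max (max 3 x1) ((range 400).sup X), fun x hx j hj => ?_⟩
  have hx3 : 3 ≤ x := (le_max_left 3 x1).trans ((le_max_left _ _).trans hx)
  have hxm : (S.m : ℝ) < (x : ℝ) ^ ((32 : ℝ) / 400) :=
    hx1 x ((le_max_right 3 x1).trans ((le_max_left _ _).trans hx))
  have hXj : X j ≤ x := (le_sup (mem_range.2 hj)).trans ((le_max_right _ _).trans hx)
  have hx1' : (1 : ℝ) < x := by
    have : (3 : ℝ) ≤ x := by exact_mod_cast hx3
    linarith
  have hx0 : (0 : ℝ) < x := by linarith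
  have hlx : 0 < Real.log x := Real.log_pos hx1'
  -- the index of a prime of the zone
  have hidx : ∀ p, p.Prime → inz S x z p → ix x p = j → zlo z ≤ j ∧ j < zhi z := by
    intro p hp hz hi
    have hp1 : (1 : ℝ) ≤ p := by exact_mod_cast hp.one_lt.le
    have hp0 : (0 : ℝ) < p := by linarith
    have hlp : 0 ≤ Real.log p := Real.log_nonneg hp1
    constructor
    · rw [← hi]
      refine Nat.le_floor ?_
      rw [le_div_iff₀ hlx]
      have h1 := hz.2.1
      rw [Real.rpow_def_of_pos hx0, ← Real.le_log_iff_exp_le hp0] at h1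
      linarith
    · rcases hz.2.2 with h1 | h1
      · rw [h1]
        exact hj
      · rw [← hi]
        have h2 : 400 * Real.log p / Real.log x < zhi z := by
          rw [div_lt_iff₀ hlx]
          rw [Real.rpow_def_of_pos hx0, ← Real.log_lt_iff_lt_exp hp0] at h1
          linarith
        exact (Nat.floor_lt (by positivity)).2 h2
  by_cases hz : zlo z ≤ j ∧ j < zhi z
  · rw [if_pos hz]
    have hj1 : 1 ≤ j := le_trans (by norm_num) ((zlo_pos z).trans hz.1)
    refine le_trans ?_ (hX j x hXj hj1 hj)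
    have hsub : (alP S x z).filter (fun p => ix x p = j) ⊆ S.cell x 400 (zc z) j (j + 1) := by
      intro p hp
      rw [mem_filter, alP, mem_filter, mem_Icc] at hp
      obtain ⟨⟨⟨hp1, hpx⟩, hpp, hpz⟩, hpi⟩ := hp
      obtain ⟨h1, -⟩ := al_ix x hx3 p hp1
      have hp0 : (0 : ℝ) < p := by exact_mod_cast hpp.pos
      unfold Dat.cell
      rw [mem_filter, mem_range]
      refine ⟨Nat.lt_succ_of_le hpx, hpp, ?_, hpz.1, ?_, ?_⟩
      · intro hd
        have h2 : p ≤ S.m := Nat.le_of_dvd S.hm hd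
        have h3 : (x : ℝ) ^ ((32 : ℝ) / 400) ≤ (p : ℝ) := by
          refine le_trans ?_ hpz.2.1
          refine Real.rpow_le_rpow_of_exponent_le hx1'.le ?_
          have h10 : (32 : ℝ) ≤ zlo z := by exact_mod_cast zlo_pos z
          linarith
        have h4 : (p : ℝ) ≤ S.m := by exact_mod_cast h2
        linarith
      · rw [← hpi]
        exact_mod_cast h1
      · rw [← hpi, Real.rpow_def_of_pos hx0, ← Real.log_lt_iff_lt_exp hp0]
        have h2 : 400 * Real.log p / Real.log x < (ix x p : ℝ) + 1 := Nat.lt_floor_add_one _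
        rw [div_lt_iff₀ hlx] at h2
        push_cast
        linarith
    refine (sum_le_sum fun p hp => ?_).trans (sum_le_sum_of_subset_of_nonneg hsub
      fun p hp _ => ?_)
    · rw [mem_filter, alP, mem_filter] at hp
      have hp2 : (2 : ℝ) ≤ p := by exact_mod_cast hp.1.2.1.two_le
      exact one_div_le_one_div_of_le (by linarith) (by linarith)
    · unfold Dat.cell at hp
      rw [mem_filter] at hp
      have hp2 : (2 : ℝ) ≤ p := by exact_mod_cast hp.2.1.two_le
      have : (0 : ℝ) < (p : ℝ) - 1 := by linarith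
      positivity
  · rw [if_neg hz]
    refine le_of_eq (sum_eq_zero fun p hp => ?_)
    rw [mem_filter, alP, mem_filter] at hp
    exact absurd (hidx p hp.1.2.1 hp.1.2.2 hp.2) hz

open scoped Classical in
/-- one step of the mass -/
private theorem al_mass_step (S : Dat) (x : ℕ) (z : Fin 5) (zs : List (Fin 5)) (N : ℕ) :
    ∑ n ∈ Icc 1 x, al S x (z :: zs) N n / n ≤
      ∑ j ∈ range (N + 1), (∑ p ∈ (alP S x z).filter (fun p => ix x p = j), 1 / (p : ℝ)) *
        ∑ n ∈ Icc 1 x, al S x zs (N - j) n / n := by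
  -- pairs
  have h1 : ∑ n ∈ Icc 1 x, al S x (z :: zs) N n / n ≤ ∑ p ∈ alP S x z, ∑ n ∈ Icc 1 x,
      (if ix x p ≤ N then 1 / (p : ℝ) * (al S x zs (N - ix x p) n / n) else 0) := by
    have h2 : ∀ n ∈ Icc 1 x, al S x (z :: zs) N n / n =
        ∑ p ∈ n.primeFactors.filter (fun p => inz S x z p), (if ix x p ≤ N then
          1 / (p : ℝ) * (al S x zs (N - ix x p) (n / p) / ((n / p : ℕ) : ℝ)) else 0) := by
      intro n hn
      rw [al, sum_div]
      refine sum_congr rfl fun p hp => ?_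
      rw [mem_filter, Nat.mem_primeFactors] at hp
      obtain ⟨⟨hpp, ⟨t, rfl⟩, hn0⟩, hz⟩ := hp
      rw [Nat.mul_div_cancel_left _ hpp.pos]
      have hp0 : (p : ℝ) ≠ 0 := by exact_mod_cast hpp.ne_zero
      have ht0 : (t : ℝ) ≠ 0 := by exact_mod_cast right_ne_zero_of_mul hn0
      split_ifs
      · push_cast
        field_simp
      · simp
    have h3 : ∀ n ∈ Icc 1 x, al S x (z :: zs) N n / n =
        ∑ p ∈ alP S x z, if p ∣ n then (if ix x p ≤ N then
          1 / (p : ℝ) * (al S x zs (N - ix x p) (n / p) / ((n / p : ℕ) : ℝ)) else 0) else 0 := by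
      intro n hn
      refine (h2 n hn).trans ?_
      rw [← sum_filter (fun p => p ∣ n) (s := alP S x z)]
      refine sum_congr ?_ fun _ _ => rfl
      rw [mem_Icc] at hn
      ext p
      rw [mem_filter, mem_filter, alP, mem_filter, mem_Icc, Nat.mem_primeFactors]
      constructor
      · rintro ⟨⟨hpp, hpn, hn0⟩, hz⟩
        exact ⟨⟨⟨hpp.one_lt.le, (Nat.le_of_dvd (by omega) hpn).trans hn.2⟩, hpp, hz⟩, hpn⟩
      · rintro ⟨⟨-, hpp, hz⟩, hpn⟩
        exact ⟨⟨hpp, hpn, by omega⟩, hz⟩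
    rw [sum_congr rfl h3, sum_comm]
    refine sum_le_sum fun p hp => ?_
    rw [alP, mem_filter] at hp
    have hpp := hp.2.1
    rw [← sum_filter]
    set g : ℕ → ℝ := fun n => if ix x p ≤ N then 1 / (p : ℝ) * (al S x zs (N - ix x p) n / n)
      else 0 with hg
    have hg0 : ∀ n, 0 ≤ g n := by
      intro n
      simp only [hg]
      split_ifs
      · exact mul_nonneg (by positivity) (div_nonneg (al_nonneg _ _ _ _ _) (Nat.cast_nonneg _))
      · exact le_rfl
    have h4 : ∑ n ∈ (Icc 1 x).filter (fun n => p ∣ n), g (n / p)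
        = ∑ n ∈ ((Icc 1 x).filter (fun n => p ∣ n)).image (fun n => n / p), g n := by
      rw [sum_image]
      intro a ha b hb hab
      rw [coe_filter] at ha hb
      obtain ⟨-, t, rfl⟩ := ha
      obtain ⟨-, t', rfl⟩ := hb
      simp only [Nat.mul_div_cancel_left _ hpp.pos] at hab
      rw [hab]
    refine (le_of_eq h4).trans (sum_le_sum_of_subset_of_nonneg ?_ fun n _ _ => hg0 n)
    intro n hn
    rw [mem_image] at hn
    obtain ⟨a, ha, rfl⟩ := hn
    rw [mem_filter, mem_Icc] at ha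
    obtain ⟨ha, t, rfl⟩ := ha
    rw [Nat.mul_div_cancel_left _ hpp.pos, mem_Icc]
    refine ⟨?_, (Nat.le_mul_of_pos_left t hpp.pos).trans ha.2⟩
    rcases Nat.eq_zero_or_pos t with h | h
    · rw [h, mul_zero] at ha
      omega
    · exact h
  refine h1.trans (le_of_eq ?_)
  have h2 : ∀ p ∈ alP S x z, ∑ n ∈ Icc 1 x,
      (if ix x p ≤ N then 1 / (p : ℝ) * (al S x zs (N - ix x p) n / n) else 0)
      = if ix x p ≤ N then 1 / (p : ℝ) * ∑ n ∈ Icc 1 x, al S x zs (N - ix x p) n / n else 0 := by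
    intro p _
    split_ifs
    · rw [mul_sum]
    · rw [sum_const_zero]
  rw [sum_congr rfl h2, ← sum_filter, ← sum_fiberwise_of_maps_to (g := fun p => ix x p)
    (t := range (N + 1)) (fun p hp => by
      rw [mem_filter] at hp
      exact mem_range.2 (Nat.lt_succ_of_le hp.2))]
  refine sum_congr rfl fun j hj => ?_
  rw [mem_range] at hj
  rw [sum_mul]
  refine sum_congr ?_ fun p hp => ?_
  · ext p
    rw [mem_filter, mem_filter, mem_filter]
    constructor
    · rintro ⟨⟨h3, -⟩, h4⟩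
      exact ⟨h3, h4⟩
    · rintro ⟨h3, h4⟩
      exact ⟨⟨h3, by omega⟩, h4⟩
  · rw [mem_filter] at hp
    rw [hp.2]

private theorem al_coeff (z : Fin 5) (P : Polynomial ℝ) (N : ℕ) :
    (Mz z * P).coeff N = ∑ j ∈ range (N + 1), (if zlo z ≤ j ∧ j < zhi z then alκ j else 0)
      * P.coeff (N - j) := by
  unfold Mz
  rw [sum_mul, Polynomial.finsetSum_coeff]
  have h1 : ∀ j ∈ Ico (zlo z) (zhi z), (Polynomial.C ((1 / 3) * Real.log (((j : ℝ) + 1) / j))
      * Polynomial.X ^ j * P).coeff N = if j ≤ N then alκ j * P.coeff (N - j) else 0 := by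
    intro j _
    rw [mul_assoc, Polynomial.coeff_C_mul, Polynomial.coeff_X_pow_mul']
    unfold alκ
    split_ifs <;> simp
  rw [sum_congr rfl h1, ← sum_filter]
  have h2 : ∀ j ∈ range (N + 1), (if zlo z ≤ j ∧ j < zhi z then alκ j else 0) * P.coeff (N - j)
      = if zlo z ≤ j ∧ j < zhi z then alκ j * P.coeff (N - j) else 0 := by
    intro j _
    split_ifs <;> simp
  rw [sum_congr rfl h2, ← sum_filter]
  refine sum_congr ?_ fun _ _ => rfl
  ext j
  rw [mem_filter, mem_filter, mem_Ico, mem_range]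
  constructor
  · rintro ⟨h3, h4⟩
    exact ⟨Nat.lt_succ_of_le h4, h3⟩
  · rintro ⟨h3, h4⟩
    exact ⟨h4, Nat.le_of_lt_succ h3⟩

open scoped Classical in
private theorem al_mass_list (S : Dat) (zs : List (Fin 5)) :
    (∀ N, 0 ≤ (zs.map Mz).prod.coeff N) ∧ ∀ ε : ℝ, 0 < ε →
    ∃ x0 : ℕ, ∀ x : ℕ, x0 ≤ x → ∀ N : ℕ, N < 400 →
      ∑ n ∈ Icc 1 x, al S x zs N n / n ≤ (zs.map Mz).prod.coeff N + ε := by
  induction zs with
  | nil =>
    rw [List.map_nil, List.prod_nil]
    refine ⟨fun N => ?_, fun ε hε => ⟨0, fun x _ N _ => ?_⟩⟩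
    · rw [Polynomial.coeff_one]
      split_ifs <;> norm_num
    · rw [Polynomial.coeff_one]
      have h1 : ∀ n ∈ Icc 1 x, al S x [] N n / n = if n = 1 then (if N = 0 then 1 else 0) else 0 := by
        intro n _
        rw [al]
        by_cases hn : n = 1
        · subst hn
          by_cases hN : N = 0 <;> simp [hN]
        · rw [if_neg hn, if_neg fun h => hn h.2, zero_div]
      rw [sum_congr rfl h1, sum_ite_eq']
      split_ifs <;> linarith
  | cons z zs ih =>
    obtain ⟨ih0, ih⟩ := ih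
    rw [List.map_cons, List.prod_cons]
    set P := (zs.map Mz).prod with hP
    have hm0 : ∀ j, 0 ≤ if zlo z ≤ j ∧ j < zhi z then alκ j else 0 := by
      intro j
      split_ifs with h
      · exact alκ_nonneg j (le_trans (by norm_num) ((zlo_pos z).trans h.1))
      · exact le_rfl
    refine ⟨fun N => ?_, fun ε hε => ?_⟩
    · rw [al_coeff]
      exact sum_nonneg fun j _ => mul_nonneg (hm0 j) (ih0 _)
    · obtain ⟨B, hB0, hB⟩ : ∃ B : ℝ, 0 ≤ B ∧ ∀ M, M < 400 → P.coeff M ≤ B := by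
        refine ⟨∑ M ∈ range 400, P.coeff M, sum_nonneg fun M _ => ih0 M, fun M hM => ?_⟩
        exact single_le_sum (f := fun M => P.coeff M) (fun M _ => ih0 M) (mem_range.2 hM)
      obtain ⟨η, hη, hη1, hηε⟩ : ∃ η : ℝ, 0 < η ∧ η ≤ 1 ∧ 400 * (η * (B + 2)) ≤ ε := by
        refine ⟨min 1 (ε / (400 * (B + 2))), lt_min zero_lt_one (by positivity), min_le_left _ _, ?_⟩
        have h1 : min 1 (ε / (400 * (B + 2))) ≤ ε / (400 * (B + 2)) := min_le_right _ _
        rw [le_div_iff₀ (by positivity)] at h1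
        linarith
      obtain ⟨x1, h1⟩ := al_mu S z η hη
      obtain ⟨x2, h2⟩ := ih η hη
      refine ⟨max x1 x2, fun x hx N hN => ?_⟩
      refine (al_mass_step S x z zs N).trans ?_
      rw [al_coeff]
      have h3 : ∀ j ∈ range (N + 1),
          (∑ p ∈ (alP S x z).filter (fun p => ix x p = j), 1 / (p : ℝ)) *
            ∑ n ∈ Icc 1 x, al S x zs (N - j) n / n ≤
          (if zlo z ≤ j ∧ j < zhi z then alκ j else 0) * P.coeff (N - j) + η * (B + 2) := by
        intro j hj
        rw [mem_range] at hj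
        have h4 := h1 x ((le_max_left _ _).trans hx) j (by omega)
        have h5 := h2 x ((le_max_right _ _).trans hx) (N - j) (by omega)
        have h6 : 0 ≤ ∑ p ∈ (alP S x z).filter (fun p => ix x p = j), 1 / (p : ℝ) :=
          sum_nonneg fun p _ => by positivity
        have h7 : 0 ≤ ∑ n ∈ Icc 1 x, al S x zs (N - j) n / n :=
          sum_nonneg fun n _ => div_nonneg (al_nonneg _ _ _ _ _) (Nat.cast_nonneg _)
        have h8 := ih0 (N - j)
        have h9 := hB (N - j) (by omega)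
        by_cases hz : zlo z ≤ j ∧ j < zhi z
        · rw [if_pos hz] at h4 ⊢
          have hj1 : 1 ≤ j := le_trans (by norm_num) ((zlo_pos z).trans hz.1)
          have h10 := alκ_nonneg j hj1
          have h11 := alκ_le j hj1
          calc (∑ p ∈ (alP S x z).filter (fun p => ix x p = j), 1 / (p : ℝ)) *
                ∑ n ∈ Icc 1 x, al S x zs (N - j) n / n
              ≤ (alκ j + η) * (P.coeff (N - j) + η) := mul_le_mul h4 h5 h7 (by linarith)
            _ = alκ j * P.coeff (N - j) + η * (P.coeff (N - j) + alκ j + η) := by ring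
            _ ≤ alκ j * P.coeff (N - j) + η * (B + 2) := by
                have : η * (P.coeff (N - j) + alκ j + η) ≤ η * (B + 2) :=
                  mul_le_mul_of_nonneg_left (by linarith) hη.le
                linarith
        · rw [if_neg hz] at h4 ⊢
          have h10 : ∑ p ∈ (alP S x z).filter (fun p => ix x p = j), 1 / (p : ℝ) = 0 :=
            le_antisymm h4 h6
          rw [h10, zero_mul, zero_mul, zero_add]
          positivity
      refine (sum_le_sum h3).trans ?_
      rw [sum_add_distrib, sum_const, card_range, nsmul_eq_mul]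
      have h4 : ((N + 1 : ℕ) : ℝ) ≤ 400 := by exact_mod_cast hN
      have h5 : ((N + 1 : ℕ) : ℝ) * (η * (B + 2)) ≤ 400 * (η * (B + 2)) :=
        mul_le_mul_of_nonneg_right h4 (by positivity)
      linarith

open scoped Classical in
/-- MODULE AL_MASS.  `∑_{n ≤ x} al S x zs N n/n ≤` coefficient of `∏_z Mz z^(count z)` at `N`, plus `ε`.
Proof: with `μ_x(z, j) = ∑ 1/p` over the primes of the zone `z` with `ix x p = j`: induction on `zs`:
`∑_{n ≥ 1} al (z :: zs) N n/n ≤ ∑_{j ≤ N} μ_x(z, j) ∑_{n'} al zs (N - j) n'/n'` (`n = p n'`; the sum over `n ≤ x` is at most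
the sum over `p, n' ≤ x`).  For `N < 400` only `j < 400` occur; `μ_x(z, j) = 0` for `j < zlo z` and for `j ≥ zhi z` if
`zhi z < 400`; for `zlo z ≤ j < zhi z`, `μ_x(z, j)` = sum over `S.cell x 400 (zc z) j (j+1)`
`≤ (1/3) log((j+1)/j) + ε'` for large `x` (`mass` with `H = 400`, `hi' = ... + ε'`).  So the left side is at most the
coefficient at `N` of the product of the polynomials with coefficients `κ_j + ε'`, which is the coefficient of
`∏ Mz z^(count)` plus `O(ε')`. -/
theorem al_mass (S : Dat) (zs : List (Fin 5)) (ε : ℝ) (hε : 0 < ε) :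
    ∃ x0 : ℕ, ∀ x : ℕ, x0 ≤ x → ∀ N : ℕ, N < 400 →
      ∑ n ∈ Icc 1 x, al S x zs N n / n ≤ (∏ z : Fin 5, Mz z ^ zs.count z).coeff N + ε := by
  have h1 : ∏ z : Fin 5, Mz z ^ zs.count z = (zs.map Mz).prod := by
    rw [prod_list_map_count]
    refine (prod_subset (subset_univ _) fun z _ hz => ?_).symm
    rw [List.mem_toFinset] at hz
    rw [List.count_eq_zero_of_not_mem hz, pow_zero]
  rw [h1]
  exact (al_mass_list S zs).2 ε hε

/-! #### SWI -/

private theorem swi_disj (S : Dat) {x p : ℕ} {a z : Fin 5} (h1 : inz S x a p) (h2 : inz S x z p) : z = a := by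
  obtain ⟨c1, l1, u1⟩ := h1
  obtain ⟨c2, l2, u2⟩ := h2
  have hc : zc a = zc z := c1.symm.trans c2
  clear c1 c2
  by_contra hne
  fin_cases a <;> fin_cases z <;> first
    | exact hne rfl
    | exact absurd hc (by decide)
    | (simp [zlo, zhi] at l1 l2 u1 u2; linarith)

private theorem swi_pf {n P : ℕ} (hsq : Squarefree n) (hP : P ∈ n.primeFactors) :
    n.primeFactors = insert P (n / P).primeFactors ∧ P ∉ (n / P).primeFactors := by
  have hp := Nat.prime_of_mem_primeFactors hP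
  have hd := Nat.dvd_of_mem_primeFactors hP
  have he : P * (n / P) = n := Nat.mul_div_cancel' hd
  have hcop : Nat.Coprime P (n / P) := by
    refine Nat.coprime_of_squarefree_mul ?_
    rw [he]; exact hsq
  constructor
  · conv_lhs => rw [← he, hcop.primeFactors_mul, hp.primeFactors]
    rfl
  · intro hmem
    have h1 := Nat.dvd_of_mem_primeFactors hmem
    have h2 := Nat.dvd_gcd (dvd_refl P) h1
    rw [hcop] at h2
    exact hp.one_lt.ne' (Nat.dvd_one.1 h2)

open scoped Classical in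
private theorem swi_typ (S : Dat) {x n P : ℕ} {kk : Fin 5 → ℕ} {a : Fin 5} (h : typ S x n kk)
    (hP : P ∈ n.primeFactors) (ha : inz S x a P) : typ S x (n / P) (kd kk a) := by
  obtain ⟨hsq, h1, h2⟩ := h
  obtain ⟨e1, e2⟩ := swi_pf hsq hP
  refine ⟨hsq.squarefree_of_dvd (Nat.div_dvd_of_dvd (Nat.dvd_of_mem_primeFactors hP)), ?_, ?_⟩
  · intro p hp
    refine h1 p ?_
    rw [e1]
    exact Finset.mem_insert_of_mem hp
  · intro z
    have h3 := h2 z
    rw [e1, Finset.filter_insert] at h3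
    unfold kd
    by_cases hz : inz S x z P
    · have hza : z = a := swi_disj S ha hz
      rw [if_pos hz, Finset.card_insert_of_notMem (fun hh => e2 (Finset.mem_filter.1 hh).1)] at h3
      rw [if_pos hza]
      omega
    · have hza : z ≠ a := fun hh => hz (hh ▸ ha)
      rw [if_neg hz] at h3
      rw [if_neg hza]
      omega

open scoped Classical in
private theorem swi_point (S : Dat) {x n : ℕ} {kk : Fin 5 → ℕ} (α : Fin 5 → ℕ → ℝ)
    (hα0 : ∀ a n, 0 ≤ α a n) (h : typ S x n kk) (hn : 1 ≤ n)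
    (h1 : ∀ a, kk a ≠ 0 → ∀ P ∈ n.primeFactors, inz S x a P → 1 ≤ α a (n / P)) :
    Real.log n ≤ ∑ a : Fin 5, if kk a = 0 then 0 else ∑ m ∈ n.divisors, α a m * vm (n / m) := by
  obtain ⟨hsq, hz, hcard⟩ := h
  have hn0 : n ≠ 0 := by omega
  have hlog : Real.log n = ∑ P ∈ n.primeFactors, Real.log P := by
    conv_lhs => rw [← Nat.prod_primeFactors_of_squarefree hsq]
    rw [Nat.cast_prod, Real.log_prod]
    intro p hp
    exact_mod_cast (Nat.prime_of_mem_primeFactors hp).pos.ne'
  have hlp : ∀ P ∈ n.primeFactors, 0 ≤ Real.log P := fun P hP =>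
    Real.log_nonneg (by exact_mod_cast (Nat.prime_of_mem_primeFactors hP).one_lt.le)
  have hvm : ∀ m : ℕ, 0 ≤ vm m := fun m => by
    unfold vm
    exact_mod_cast ArithmeticFunction.vonMangoldt_nonneg
  have s1 : Real.log n ≤ ∑ a : Fin 5, ∑ P ∈ n.primeFactors.filter (fun p => inz S x a p), Real.log P := by
    rw [hlog]
    have : ∀ a : Fin 5, ∑ P ∈ n.primeFactors.filter (fun p => inz S x a p), Real.log P =
        ∑ P ∈ n.primeFactors, if inz S x a P then Real.log P else 0 := fun a => by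
      rw [Finset.sum_filter]
    simp_rw [this]
    rw [Finset.sum_comm]
    refine Finset.sum_le_sum fun P hP => ?_
    obtain ⟨z, hzP⟩ := hz P hP
    have h2 := Finset.single_le_sum (f := fun a : Fin 5 => if inz S x a P then Real.log P else 0)
      (fun a _ => by split_ifs; exacts [hlp P hP, le_rfl]) (Finset.mem_univ z)
    rw [if_pos hzP] at h2
    exact h2
  refine s1.trans (Finset.sum_le_sum fun a _ => ?_)
  by_cases hka : kk a = 0
  · rw [if_pos hka]
    have h2 := hcard a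
    rw [hka, Finset.card_eq_zero] at h2
    rw [h2, Finset.sum_empty]
  · rw [if_neg hka]
    have hinj : Set.InjOn (fun P => n / P) (n.primeFactors.filter (fun p => inz S x a p) : Finset ℕ) := by
      intro P hP Q hQ hPQ
      have hP' := Nat.dvd_of_mem_primeFactors (Finset.mem_filter.1 (Finset.mem_coe.1 hP)).1
      have hQ' := Nat.dvd_of_mem_primeFactors (Finset.mem_filter.1 (Finset.mem_coe.1 hQ)).1
      dsimp only at hPQ
      rw [← Nat.div_div_self hP' hn0, ← Nat.div_div_self hQ' hn0, hPQ]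
    have hsub : (n.primeFactors.filter (fun p => inz S x a p)).image (fun P => n / P) ⊆ n.divisors := by
      intro m hm
      obtain ⟨P, hP, rfl⟩ := Finset.mem_image.1 hm
      exact Nat.mem_divisors.2 ⟨Nat.div_dvd_of_dvd
        (Nat.dvd_of_mem_primeFactors (Finset.mem_filter.1 hP).1), hn0⟩
    refine le_trans ?_ (Finset.sum_le_sum_of_subset_of_nonneg hsub
      (fun m _ _ => mul_nonneg (hα0 a m) (hvm _)))
    rw [Finset.sum_image hinj]
    refine Finset.sum_le_sum fun P hP => ?_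
    obtain ⟨hP1, hP2⟩ := Finset.mem_filter.1 hP
    have hd := Nat.dvd_of_mem_primeFactors hP1
    rw [Nat.div_div_self hd hn0]
    have e1 : vm P = Real.log P := by
      unfold vm
      exact ArithmeticFunction.vonMangoldt_apply_prime (Nat.prime_of_mem_primeFactors hP1)
    rw [e1]
    have h2 := mul_le_mul_of_nonneg_right (h1 a hka P hP1 hP2) (hlp P hP1)
    linarith

/-- the list of the zones of the remaining primes -/
private def swi_zs (kk : Fin 5 → ℕ) (a : Fin 5) : List (Fin 5) :=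
  List.replicate (kd kk a 0) 0 ++ (List.replicate (kd kk a 1) 1 ++ (List.replicate (kd kk a 2) 2 ++
    (List.replicate (kd kk a 3) 3 ++ List.replicate (kd kk a 4) 4)))

private theorem swi_count (kk : Fin 5 → ℕ) (a z : Fin 5) : (swi_zs kk a).count z = kd kk a z := by
  unfold swi_zs
  simp only [List.count_append, List.count_replicate]
  fin_cases z <;> simp

private theorem swi_length (kk : Fin 5 → ℕ) (a : Fin 5) (ha : kk a ≠ 0) :
    (swi_zs kk a).length = ∑ z, kk z - 1 := by
  have h1 : (swi_zs kk a).length = ∑ z, kd kk a z := by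
    unfold swi_zs
    simp only [List.length_append, List.length_replicate, Fin.sum_univ_five]
    omega
  have h2 : ∑ z, kd kk a z + 1 = ∑ z, kk z := by
    have h3 : ∀ z, kd kk a z + (if z = a then 1 else 0) = kk z := by
      intro z
      unfold kd
      split_ifs with h
      · subst h; omega
      · omega
    have h4 : ∑ z, (kd kk a z + (if z = a then 1 else 0)) = ∑ z, kk z :=
      Finset.sum_congr rfl fun z _ => h3 z
    rw [Finset.sum_add_distrib, Finset.sum_ite_eq' Finset.univ a (fun _ => 1), if_pos (Finset.mem_univ a)] at h4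
    exact h4
  omega

private def swi_R (kk : Fin 5 → ℕ) (a : Fin 5) : Finset ℕ :=
  (range 400).filter (fun N => N + zlo a ≤ 400 ∧ 400 ≤ N + (∑ z, kk z - 1) + zhi a)

private noncomputable def swi_fac (kk : Fin 5 → ℕ) (a : Fin 5) : ℝ := ∏ z, ((kd kk a z).factorial : ℝ)

private theorem swi_fac_one (kk : Fin 5 → ℕ) (a : Fin 5) : 1 ≤ swi_fac kk a := by
  unfold swi_fac
  have h1 : 1 ≤ ∏ z, (kd kk a z).factorial :=
    Nat.one_le_iff_ne_zero.2 (Finset.prod_ne_zero_iff.2 fun z _ => Nat.factorial_ne_zero _)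
  exact_mod_cast h1

open scoped Classical in
private noncomputable def swi_al (S : Dat) (x : ℕ) (kk : Fin 5 → ℕ) (a : Fin 5) (n : ℕ) : ℝ :=
  if (x : ℝ) ^ ((7 : ℝ) / 100) < (n : ℝ) ∧ (n : ℝ) ≤ (x : ℝ) ^ ((93 : ℝ) / 100) then
    (∑ N ∈ swi_R kk a, al S x (swi_zs kk a) N n) / swi_fac kk a else 0

private theorem swi_al_nonneg (S : Dat) (x : ℕ) (kk : Fin 5 → ℕ) (a : Fin 5) (n : ℕ) :
    0 ≤ swi_al S x kk a n := by
  unfold swi_al
  split_ifs
  · exact div_nonneg (Finset.sum_nonneg fun N _ => (al_le S x _ n ∅).1 N)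
      (le_trans zero_le_one (swi_fac_one kk a))
  · exact le_rfl

private theorem swi_al_le (S : Dat) (x : ℕ) (kk : Fin 5 → ℕ) (a : Fin 5) (n : ℕ) :
    swi_al S x kk a n ≤ (((swi_zs kk a).length : ℝ) + 1) ^ (swi_zs kk a).length := by
  have h0 : (0 : ℝ) ≤ (((swi_zs kk a).length : ℝ) + 1) ^ (swi_zs kk a).length := by positivity
  unfold swi_al
  split_ifs
  · rw [div_le_iff₀ (lt_of_lt_of_le zero_lt_one (swi_fac_one kk a))]
    refine ((al_le S x _ n (swi_R kk a)).2).trans ?_
    exact le_mul_of_one_le_right h0 (swi_fac_one kk a)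
  · exact h0

private theorem swi_al_supp (S : Dat) {x : ℕ} (hx : 3 ≤ x) (kk : Fin 5 → ℕ) (a : Fin 5) {n : ℕ}
    (h : swi_al S x kk a n ≠ 0) : (x : ℝ) ^ ((7 : ℝ) / 100) < (n : ℝ) ∧
      (n : ℝ) ≤ (x : ℝ) ^ ((93 : ℝ) / 100) ∧ ∀ p ∈ n.primeFactors, (x : ℝ) ^ ((1 : ℝ) / 20) ≤ (p : ℝ) := by
  unfold swi_al at h
  split_ifs at h with h1
  · refine ⟨h1.1, h1.2, fun p hp => ?_⟩
    have h2 : ∑ N ∈ swi_R kk a, al S x (swi_zs kk a) N n ≠ 0 := by
      intro hh
      rw [hh, zero_div] at h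
      exact h rfl
    obtain ⟨N, -, hN⟩ := Finset.exists_ne_zero_of_sum_ne_zero h2
    have h3 := (al_size S x hx _ N n hN).2.2.2 p hp
    refine le_trans ?_ h3
    exact Real.rpow_le_rpow_of_exponent_le (by exact_mod_cast (by omega : 1 ≤ x)) (by norm_num)
  · exact absurd rfl h

/-- the sum of `α(n)/n` -/
private theorem swi_mass (S : Dat) {x : ℕ} (kk : Fin 5 → ℕ) (a : Fin 5) {δ : ℝ} (hδ : 0 ≤ δ)
    (h : ∀ N : ℕ, N < 400 → ∑ n ∈ Icc 1 x, al S x (swi_zs kk a) N n / n ≤
      (∏ z : Fin 5, Mz z ^ (swi_zs kk a).count z).coeff N + δ) :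
    ∑ n ∈ Icc 1 x, swi_al S x kk a n / n ≤
      (∑ N ∈ swi_R kk a, (∏ z, Mz z ^ kd kk a z).coeff N) / swi_fac kk a + 400 * δ := by
  have hf := swi_fac_one kk a
  have hf0 : 0 < swi_fac kk a := lt_of_lt_of_le zero_lt_one hf
  have h1 : ∑ n ∈ Icc 1 x, swi_al S x kk a n / n ≤
      ∑ n ∈ Icc 1 x, (∑ N ∈ swi_R kk a, al S x (swi_zs kk a) N n) / swi_fac kk a / n := by
    refine Finset.sum_le_sum fun n _ => ?_
    refine div_le_div_of_nonneg_right ?_ (Nat.cast_nonneg n)
    unfold swi_al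
    split_ifs
    · exact le_rfl
    · exact div_nonneg (Finset.sum_nonneg fun N _ => (al_le S x _ n ∅).1 N) hf0.le
  have h2 : ∑ n ∈ Icc 1 x, (∑ N ∈ swi_R kk a, al S x (swi_zs kk a) N n) / swi_fac kk a / n =
      (∑ N ∈ swi_R kk a, ∑ n ∈ Icc 1 x, al S x (swi_zs kk a) N n / n) / swi_fac kk a := by
    rw [Finset.sum_comm, Finset.sum_div]
    refine Finset.sum_congr rfl fun n _ => ?_
    rw [div_right_comm, Finset.sum_div]
  rw [h2] at h1
  have h3 : ∑ N ∈ swi_R kk a, ∑ n ∈ Icc 1 x, al S x (swi_zs kk a) N n / n ≤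
      ∑ N ∈ swi_R kk a, ((∏ z, Mz z ^ kd kk a z).coeff N + δ) := by
    refine Finset.sum_le_sum fun N hN => ?_
    have h4 := h N (Finset.mem_range.1 (Finset.mem_filter.1 hN).1)
    simp_rw [swi_count] at h4
    exact h4
  rw [Finset.sum_add_distrib, Finset.sum_const, nsmul_eq_mul] at h3
  have h5 : ((swi_R kk a).card : ℝ) * δ ≤ 400 * δ := by
    refine mul_le_mul_of_nonneg_right ?_ hδ
    have : (swi_R kk a).card ≤ 400 := (Finset.card_filter_le _ _).trans (by rw [Finset.card_range])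
    exact_mod_cast this
  refine h1.trans ?_
  rw [div_le_iff₀ hf0, add_mul, div_mul_cancel₀ _ hf0.ne']
  have h6 : 400 * δ ≤ 400 * δ * swi_fac kk a := le_mul_of_one_le_right (by positivity) hf
  linarith

open scoped Classical in
/-- the value of `α` at `n/P` -/
private theorem swi_one (S : Dat) {x n P : ℕ} {kk : Fin 5 → ℕ} {a : Fin 5} (hx : 3 ≤ x)
    (h2 : 2 ≤ ∑ z, kk z) (hka : kk a ≠ 0) (hd1 : 3 * (S.d : ℝ) < (x : ℝ) ^ ((1 : ℝ) / 400))
    (hn1 : (x : ℝ) / 2 * S.d ≤ (n : ℝ)) (hn2 : (n : ℝ) ≤ 3 * S.d * x) (h : typ S x n kk)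
    (hP : P ∈ n.primeFactors) (ha : inz S x a P) : 1 ≤ swi_al S x kk a (n / P) := by
  have hx0 : (0 : ℝ) < x := by exact_mod_cast (by omega : 0 < x)
  have hx1 : (1 : ℝ) ≤ x := by exact_mod_cast (by omega : 1 ≤ x)
  have hx1' : (1 : ℝ) < x := by exact_mod_cast (by omega : 1 < x)
  have hd : (1 : ℝ) ≤ S.d := by exact_mod_cast S.hd
  have hty := swi_typ S h hP ha
  have hPd := Nat.dvd_of_mem_primeFactors hP
  have hPp := Nat.prime_of_mem_primeFactors hP
  have hP0 : (0 : ℝ) < P := by exact_mod_cast hPp.pos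
  have hcast : ((n / P : ℕ) : ℝ) = (n : ℝ) / P := Nat.cast_div hPd hP0.ne'
  set n' := n / P with hn'
  have hlo := ha.2.1
  have hzl : 32 ≤ zlo a := by fin_cases a <;> decide
  have hlen := swi_length kk a hka
  -- bounds of n'
  have u1 : (n' : ℝ) * (x : ℝ) ^ ((zlo a : ℝ) / 400) ≤ 3 * S.d * x := by
    rw [hcast]
    calc (n : ℝ) / P * (x : ℝ) ^ ((zlo a : ℝ) / 400) ≤ (n : ℝ) / P * P :=
          mul_le_mul_of_nonneg_left hlo (div_nonneg (Nat.cast_nonneg n) hP0.le)
      _ = n := div_mul_cancel₀ _ hP0.ne'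
      _ ≤ _ := hn2
  -- support of al
  have hR : ∀ N, al S x (swi_zs kk a) N n' ≠ 0 → N ∈ swi_R kk a := by
    intro N hN
    obtain ⟨b0, b1, b2, -⟩ := al_size S x hx _ N n' hN
    rw [hlen] at b2
    have hA : N + zlo a ≤ 400 := by
      by_contra hcon
      push Not at hcon
      have c1 : (x : ℝ) ^ ((N : ℝ) / 400) * (x : ℝ) ^ ((zlo a : ℝ) / 400) ≤ 3 * S.d * x :=
        (mul_le_mul_of_nonneg_right b1 (by positivity)).trans u1
      rw [← Real.rpow_add hx0] at c1
      have c2 : (x : ℝ) ^ ((1 : ℝ) / 400 + 1) ≤ (x : ℝ) ^ ((N : ℝ) / 400 + (zlo a : ℝ) / 400) := by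
        refine Real.rpow_le_rpow_of_exponent_le hx1 ?_
        have : (401 : ℝ) ≤ N + zlo a := by exact_mod_cast hcon
        linarith
      rw [Real.rpow_add hx0, Real.rpow_one] at c2
      have c3 := mul_lt_mul_of_pos_right hd1 hx0
      linarith
    have hB : 400 ≤ N + (∑ z, kk z - 1) + zhi a := by
      rcases ha.2.2 with hz | hz
      · rw [hz]; omega
      · by_contra hcon
        push Not at hcon
        have c0 : (n' : ℝ) * (x : ℝ) ^ ((zhi a : ℝ) / 400) ≥ x / 2 * S.d := by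
          rw [hcast]
          calc (n : ℝ) / P * (x : ℝ) ^ ((zhi a : ℝ) / 400) ≥ (n : ℝ) / P * P :=
                mul_le_mul_of_nonneg_left hz.le (div_nonneg (Nat.cast_nonneg n) hP0.le)
            _ = n := div_mul_cancel₀ _ hP0.ne'
            _ ≥ _ := hn1
        have c1 : (x : ℝ) / 2 * S.d ≤
            (x : ℝ) ^ (((N : ℝ) + ((∑ z, kk z - 1 : ℕ) : ℝ)) / 400) * (x : ℝ) ^ ((zhi a : ℝ) / 400) :=
          c0.le.trans (mul_le_mul_of_nonneg_right b2 (by positivity))
        rw [← Real.rpow_add hx0] at c1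
        have c2 : (x : ℝ) ^ (((N : ℝ) + ((∑ z, kk z - 1 : ℕ) : ℝ)) / 400 + (zhi a : ℝ) / 400) ≤
            (x : ℝ) ^ (1 - (1 : ℝ) / 400) := by
          refine Real.rpow_le_rpow_of_exponent_le hx1 ?_
          have h5 : N + (∑ z, kk z - 1) + zhi a ≤ 399 := by omega
          have : (N : ℝ) + ((∑ z, kk z - 1 : ℕ) : ℝ) + zhi a ≤ 399 := by exact_mod_cast h5
          linarith
        rw [Real.rpow_sub hx0, Real.rpow_one] at c2
        have c3 : (0 : ℝ) < (x : ℝ) ^ ((1 : ℝ) / 400) := by positivity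
        have c4 := c1.trans c2
        rw [le_div_iff₀ c3] at c4
        have c5 : (x : ℝ) / 2 * 1 * (3 * 1) < (x : ℝ) / 2 * S.d * (x : ℝ) ^ ((1 : ℝ) / 400) := by
          have d1 : (x : ℝ) / 2 * 1 ≤ (x : ℝ) / 2 * S.d := mul_le_mul_of_nonneg_left hd (by positivity)
          have d2 : (3 : ℝ) * 1 < (x : ℝ) ^ ((1 : ℝ) / 400) := by linarith
          exact mul_lt_mul' d1 d2 (by norm_num) (by positivity)
        linarith
    unfold swi_R
    rw [Finset.mem_filter, Finset.mem_range]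
    exact ⟨by omega, hA, hB⟩
  have hcnt := al_count S x (swi_zs kk a) n' (kd kk a) hty (fun z => (swi_count kk a z).symm)
    (swi_R kk a) hR
  -- n' is in the range
  have hpos : 0 < ∑ N ∈ swi_R kk a, al S x (swi_zs kk a) N n' :=
    lt_of_lt_of_le (lt_of_lt_of_le zero_lt_one (swi_fac_one kk a)) hcnt
  have hn'1 : 1 ≤ n' := by
    obtain ⟨N, -, hN⟩ := Finset.exists_ne_zero_of_sum_ne_zero hpos.ne'
    exact (al_size S x hx _ N n' hN).1
  have hbig : (x : ℝ) ^ ((7 : ℝ) / 100) < (n' : ℝ) := by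
    -- a zone with a prime of n'
    have h5 : ∑ z, kd kk a z ≠ 0 := by
      have := hlen
      have h6 : (swi_zs kk a).length = ∑ z, kd kk a z := by
        unfold swi_zs
        simp only [List.length_append, List.length_replicate, Fin.sum_univ_five]
        omega
      omega
    obtain ⟨z, -, hz⟩ := Finset.exists_ne_zero_of_sum_ne_zero h5
    have h6 := hty.2.2 z
    have h7 : (n'.primeFactors.filter fun p => inz S x z p).Nonempty := by
      rw [← Finset.card_pos]; omega
    obtain ⟨p, hp⟩ := h7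
    obtain ⟨hp1, hp2⟩ := Finset.mem_filter.1 hp
    have h8 : p ≤ n' := Nat.le_of_dvd hn'1 (Nat.dvd_of_mem_primeFactors hp1)
    have h9 : (p : ℝ) ≤ n' := by exact_mod_cast h8
    have hzl' : 32 ≤ zlo z := by fin_cases z <;> decide
    have h10 : (x : ℝ) ^ ((7 : ℝ) / 100) < (x : ℝ) ^ ((zlo z : ℝ) / 400) := by
      refine Real.rpow_lt_rpow_of_exponent_lt hx1' ?_
      have : (32 : ℝ) ≤ zlo z := by exact_mod_cast hzl'
      linarith
    exact h10.trans_le (hp2.2.1.trans h9)
  have hsml : (n' : ℝ) ≤ (x : ℝ) ^ ((93 : ℝ) / 100) := by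
    have e1 : (x : ℝ) ^ ((32 : ℝ) / 400) ≤ (x : ℝ) ^ ((zlo a : ℝ) / 400) := by
      refine Real.rpow_le_rpow_of_exponent_le hx1 ?_
      have : (32 : ℝ) ≤ zlo a := by exact_mod_cast hzl
      linarith
    have e2 : (n' : ℝ) * (x : ℝ) ^ ((32 : ℝ) / 400) ≤ 3 * S.d * x :=
      (mul_le_mul_of_nonneg_left e1 (Nat.cast_nonneg _)).trans u1
    have e3 : 3 * (S.d : ℝ) * x ≤ (x : ℝ) ^ ((1 : ℝ) / 400) * x :=
      mul_le_mul_of_nonneg_right hd1.le hx0.le
    have e4 : (x : ℝ) ^ ((1 : ℝ) / 400) * x ≤ (x : ℝ) ^ ((93 : ℝ) / 100) * (x : ℝ) ^ ((32 : ℝ) / 400) := by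
      nth_rewrite 2 [← Real.rpow_one (x : ℝ)]
      rw [← Real.rpow_add hx0, ← Real.rpow_add hx0]
      exact Real.rpow_le_rpow_of_exponent_le hx1 (by norm_num)
    exact le_of_mul_le_mul_right (e2.trans (e3.trans e4)) (by positivity)
  unfold swi_al
  rw [if_pos ⟨hbig, hsml⟩, le_div_iff₀ (lt_of_lt_of_le zero_lt_one (swi_fac_one kk a)), one_mul]
  exact hcnt

private theorem swi_log {δ : ℝ} (hδ : 0 < δ) : ∀ᶠ x : ℕ in Filter.atTop,
    Real.log (2 * x) ≤ (1 + δ) * Real.log ((x : ℝ) / 2) := by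
  have h1 : Filter.Tendsto (fun x : ℕ => δ * Real.log (x : ℝ)) Filter.atTop Filter.atTop :=
    Filter.Tendsto.const_mul_atTop hδ (Real.tendsto_log_atTop.comp tendsto_natCast_atTop_atTop)
  filter_upwards [h1.eventually_ge_atTop ((2 + δ) * Real.log 2), Filter.eventually_ge_atTop 1] with x hx hx1
  have hx0 : (x : ℝ) ≠ 0 := by exact_mod_cast (by omega : x ≠ 0)
  rw [Real.log_mul (by norm_num) hx0, Real.log_div hx0 (by norm_num)]
  nlinarith

open scoped Classical in
/-- MODULE SWI: the number of bad primes `k` of type `kk`.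
Proof.  Let `x` be large, `k ∈ S.I x` prime, `n = nv k` of type `kk`.  `log k ≤ log 2x`,
`1 = ∑_{P ∣ n} log P/log n` (`n` squarefree), `log n ≥ log(d x/2)`; the primes `P` of `n` are distributed over the zones:
`log k ≤ (log 2x/log(dx/2)) ∑_{a : kk a ≠ 0} ∑_{P ∣ n, P ∈ zone a} log P`.  For `P` in the zone `a` put `n' = n/P`, it is of
type `kd kk a`; `zs_a` = the list with `kd kk a z` copies of `z`.  `al_count` with `R = R_a = {N < 400 : N + zlo a ≤ 400,
400 ≤ N + #zs_a + zhi a}`: `al .. N n' ≠ 0` implies `N ∈ R_a` for large `x`: `n' = n/P` with `x^(zlo a/400) ≤ P`, so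
`x^(N/400) ≤ n' ≤ 3 d x^(1 - zlo a/400)`, i.e. `N ≤ 400 - zlo a + 400 log(3d)/log x`, so `N ≤ 400 - zlo a`; and if
`zhi a < 400`, `P < x^(zhi a/400)`, so `x^((N + #zs)/400) ≥ n' ≥ (d/2) x^(1 - zhi a/400)`, so `N + #zs ≥ 400 - zhi a`.
Also `x^(32/400) ≤ n' ≤ x^(93/100)` (`#zs ≥ 1`; `3 d x^(1 - 32/400) ≤ x^(93/100)`).  Hence
`∑_{P ∣ n, P ∈ zone a} log P ≤ ∑_{n' P = n} α_a(n') Λ(P)` with
`α_a(n') = (1/∏ (kd kk a z)!) ∑_{N ∈ R_a} al S x zs_a N n'` if `n' ≤ x^(93/100)` (and `n' > x^(7/100)`), else 0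
(bounded by `al_le`).  Theorem `sc` for each `a`, `al_mass` for `∑ α_a(n')/n'`, and
`#zs_a = ∑_z kk z - 1`; `log 2x/log(dx/2) → 1`; the total is `U((4/25) AA vl kk + ε)`. -/
theorem swi (S : Dat) (kk : Fin 5 → ℕ) (h2 : 2 ≤ ∑ z, kk z) (ε : ℝ) (hε : 0 < ε) :
    ∃ x0 : ℕ, ∀ x : ℕ, x0 ≤ x →
      ∑ k ∈ S.I x, (if k.Prime ∧ typ S x (S.nv k) kk then Real.log k else 0) ≤
        S.U x * (4 / 25 * AA * vl kk + ε) := by
  -- the expected value of one zone
  set v : Fin 5 → ℝ := fun a => (∑ N ∈ swi_R kk a, (∏ z, Mz z ^ kd kk a z).coeff N) / swi_fac kk a with hv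
  have hvl : vl kk = ∑ a : Fin 5, if kk a = 0 then 0 else v a := rfl
  -- choice of δ
  obtain ⟨δ, hδ0, hδ⟩ : ∃ δ : ℝ, 0 < δ ∧ (1 + δ) * (∑ a : Fin 5, if kk a = 0 then 0 else
      ((4 / 25 * AA + δ) * (v a + 400 * δ) + δ)) < 4 / 25 * AA * vl kk + ε := by
    have hcont : Continuous fun δ : ℝ => (1 + δ) * (∑ a : Fin 5, if kk a = 0 then 0 else
      ((4 / 25 * AA + δ) * (v a + 400 * δ) + δ)) := by
      refine (continuous_const.add continuous_id).mul (continuous_finsetSum _ fun a _ => ?_)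
      split_ifs
      · exact continuous_const
      · fun_prop
    have h0 : (fun δ : ℝ => (1 + δ) * (∑ a : Fin 5, if kk a = 0 then 0 else
      ((4 / 25 * AA + δ) * (v a + 400 * δ) + δ))) 0 < 4 / 25 * AA * vl kk + ε := by
      have e1 : (fun δ : ℝ => (1 + δ) * (∑ a : Fin 5, if kk a = 0 then 0 else
        ((4 / 25 * AA + δ) * (v a + 400 * δ) + δ))) 0 = 4 / 25 * AA * vl kk := by
        dsimp only
        rw [hvl, add_zero, one_mul, Finset.mul_sum]
        refine Finset.sum_congr rfl fun a _ => ?_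
        split_ifs <;> ring
      rw [e1]
      linarith
    have h1 := (hcont.tendsto 0).eventually (gt_mem_nhds h0)
    have h2 : ∀ᶠ δ : ℝ in nhdsWithin 0 (Set.Ioi 0), (1 + δ) * (∑ a : Fin 5, if kk a = 0 then 0 else
      ((4 / 25 * AA + δ) * (v a + 400 * δ) + δ)) < 4 / 25 * AA * vl kk + ε :=
      h1.filter_mono nhdsWithin_le_nhds
    obtain ⟨δ, h3, h4⟩ := (h2.and self_mem_nhdsWithin).exists
    exact ⟨δ, h4, h3⟩
  -- eventually
  have hAA : 0 ≤ 4 / 25 * AA + δ := by
    have : 0 ≤ AA := by unfold AA; positivity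
    positivity
  have E1 : ∀ᶠ x : ℕ in Filter.atTop, 3 * (S.d : ℝ) < (x : ℝ) ^ ((1 : ℝ) / 400) :=
    ((tendsto_rpow_atTop (by norm_num : (0:ℝ) < 1 / 400)).comp
      tendsto_natCast_atTop_atTop).eventually_gt_atTop _
  have E2 : ∀ a : Fin 5, ∀ᶠ x : ℕ in Filter.atTop, ∀ N : ℕ, N < 400 →
      ∑ n ∈ Icc 1 x, al S x (swi_zs kk a) N n / n ≤
        (∏ z : Fin 5, Mz z ^ (swi_zs kk a).count z).coeff N + δ := fun a => by
    obtain ⟨x0, h0⟩ := al_mass S (swi_zs kk a) δ hδ0
    exact Filter.eventually_atTop.2 ⟨x0, h0⟩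
  have E3 : ∀ a : Fin 5, ∀ᶠ x : ℕ in Filter.atTop, ∀ α : ℕ → ℝ,
      (∀ n, 0 ≤ α n ∧ α n ≤ (((swi_zs kk a).length : ℝ) + 1) ^ (swi_zs kk a).length) →
      (∀ n, α n ≠ 0 → (x : ℝ) ^ ((7 : ℝ) / 100) < (n : ℝ) ∧ (n : ℝ) ≤ (x : ℝ) ^ ((93 : ℝ) / 100) ∧
        ∀ p ∈ n.primeFactors, (x : ℝ) ^ ((1 : ℝ) / 20) ≤ (p : ℝ)) →
      ∑ k ∈ S.I x, (if k.Prime then ∑ n ∈ (S.nv k).divisors, α n * vm (S.nv k / n) else 0) ≤
        S.U x * ((4 / 25 * AA + δ) * (∑ n ∈ Icc 1 x, α n / n) + δ) := fun a => by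
    obtain ⟨x0, h0⟩ := sc S ((((swi_zs kk a).length : ℝ) + 1) ^ (swi_zs kk a).length) (by positivity) δ hδ0
    exact Filter.eventually_atTop.2 ⟨x0, h0⟩
  obtain ⟨c, C, hc, -, x1, hU⟩ := ulow S
  have E4 : ∀ᶠ x : ℕ in Filter.atTop, 0 ≤ S.U x := by
    filter_upwards [Filter.eventually_ge_atTop x1, Filter.eventually_ge_atTop 1] with x hx hx1
    refine le_trans ?_ (hU x hx).1
    have : 0 ≤ Real.log (x : ℝ) := Real.log_nonneg (by exact_mod_cast hx1)
    positivity
  obtain ⟨-, -, -, hdat⟩ := dat_basic S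
  refine Filter.eventually_atTop.1 ?_
  filter_upwards [E1, Filter.eventually_all.2 E2, Filter.eventually_all.2 E3, E4, swi_log hδ0,
    Filter.eventually_ge_atTop 3, Filter.eventually_ge_atTop (2 * S.a.natAbs + 2)] with x e1 e2 e3 e4 e5 hx3 hxa
  have hx0 : (0 : ℝ) < x := by exact_mod_cast (by omega : 0 < x)
  have hd : (1 : ℝ) ≤ S.d := by exact_mod_cast S.hd
  have hvm : ∀ m : ℕ, 0 ≤ vm m := fun m => by
    unfold vm
    exact_mod_cast ArithmeticFunction.vonMangoldt_nonneg
  -- pointwise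
  have P1 : ∀ k ∈ S.I x, (if k.Prime ∧ typ S x (S.nv k) kk then Real.log k else 0) ≤
      (1 + δ) * ∑ a : Fin 5, if kk a = 0 then 0 else
        (if k.Prime then ∑ n ∈ (S.nv k).divisors, swi_al S x kk a n * vm (S.nv k / n) else 0) := by
    intro k hk
    obtain ⟨d0, d1, d2, d3⟩ := hdat x hxa k hk
    have hkx : k ≤ 2 * x := (Finset.mem_Ioc.1 (Finset.mem_filter.1 hk).1).2
    have hkx1 : x < k := (Finset.mem_Ioc.1 (Finset.mem_filter.1 hk).1).1
    by_cases hkp : k.Prime
    · simp only [hkp, true_and, if_true]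
      split_ifs with hty
      · have q1 := swi_point S (swi_al S x kk) (fun a n => swi_al_nonneg S x kk a n) hty d1
          (fun a hka P hP ha => swi_one S hx3 h2 hka e1 d2 d3 hty hP ha)
        have q2 : Real.log ((x : ℝ) / 2) ≤ Real.log (S.nv k) := by
          refine Real.log_le_log (by positivity) ?_
          refine le_trans ?_ d2
          exact le_mul_of_one_le_right (by positivity) hd
        have q3 : Real.log k ≤ Real.log (2 * x) := by
          refine Real.log_le_log (by exact_mod_cast (by omega : 0 < k)) ?_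
          exact_mod_cast hkx
        refine q3.trans (e5.trans ?_)
        exact mul_le_mul_of_nonneg_left (q2.trans q1) (by positivity)
      · refine mul_nonneg (by positivity) (Finset.sum_nonneg fun a _ => ?_)
        split_ifs
        · exact le_rfl
        · exact Finset.sum_nonneg fun n _ => mul_nonneg (swi_al_nonneg S x kk a n) (hvm _)
    · simp [hkp]
  refine (Finset.sum_le_sum P1).trans ?_
  rw [← Finset.mul_sum, Finset.sum_comm]
  have P2 : ∑ a : Fin 5, ∑ k ∈ S.I x, (if kk a = 0 then 0 else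
        (if k.Prime then ∑ n ∈ (S.nv k).divisors, swi_al S x kk a n * vm (S.nv k / n) else 0)) ≤
      S.U x * ∑ a : Fin 5, if kk a = 0 then 0 else ((4 / 25 * AA + δ) * (v a + 400 * δ) + δ) := by
    rw [Finset.mul_sum]
    refine Finset.sum_le_sum fun a _ => ?_
    by_cases hka : kk a = 0
    · simp [hka]
    · simp only [hka, if_false]
      refine (e3 a (swi_al S x kk a) (fun n => ⟨swi_al_nonneg S x kk a n, swi_al_le S x kk a n⟩)
        (fun n hn => swi_al_supp S hx3 kk a hn)).trans ?_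
      refine mul_le_mul_of_nonneg_left ?_ e4
      have := mul_le_mul_of_nonneg_left (swi_mass S kk a hδ0.le (e2 a)) hAA
      linarith
  have P3 := mul_le_mul_of_nonneg_left P2 (by positivity : (0:ℝ) ≤ 1 + δ)
  refine P3.trans ?_
  have P4 := mul_le_mul_of_nonneg_left hδ.le e4
  refine le_trans (le_of_eq ?_) P4
  ring

end Pool.Agent.CC
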