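import Pool.Agent.CC.Swcl

/-! CC, part J2: level of distribution of the convolution. -/

set_option autoImplicit false

namespace Pool.Agent.CC

open Finset


/-! arithmetic -/

private theorem bil_dvd (S : Dat) (b : ℕ) (hb : b.Coprime S.m) (z : ℤ) (hz : z ∣ 2 * S.a * S.d) :
    IsCoprime z (b : ℤ) := by
  rw [Int.isCoprime_iff_gcd_eq_one]
  by_contra h
  obtain ⟨p, hp, hpd⟩ := Nat.exists_prime_and_dvd h
  have h1 : (p : ℤ) ∣ z := (Int.natCast_dvd_natCast.2 hpd).trans (Int.gcd_dvd_left z (b : ℤ))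
  have h2 : (p : ℤ) ∣ (b : ℤ) := (Int.natCast_dvd_natCast.2 hpd).trans (Int.gcd_dvd_right z (b : ℤ))
  have h3 : p ∣ b := Int.natCast_dvd_natCast.1 h2
  have h4 : p ∣ S.m := S.hp p hp (h1.trans hz)
  exact (Nat.Prime.not_coprime_iff_dvd.2 ⟨p, hp, h3, h4⟩) hb

private theorem bil_cop_a (S : Dat) (b : ℕ) (hb : b.Coprime S.m) : IsCoprime S.a (b : ℤ) :=
  bil_dvd S b hb S.a ⟨2 * S.d, by ring⟩

private theorem bil_cop_d (S : Dat) (b : ℕ) (hb : b.Coprime S.m) : IsCoprime S.d (b : ℤ) :=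
  bil_dvd S b hb S.d ⟨2 * S.a, by ring⟩

private theorem bil_cast (S : Dat) : ((S.d.toNat : ℕ) : ℤ) = S.d := Int.toNat_of_nonneg (by have := S.hd; omega)

private theorem bil_copD (S : Dat) (b : ℕ) (hb : b.Coprime S.m) : b.Coprime (S.d.toNat * S.m) := by
  apply Nat.Coprime.mul_right _ hb
  rw [← Nat.isCoprime_iff_coprime, bil_cast]
  exact (bil_cop_d S b hb).symm

private theorem bil_class (S : Dat) (b : ℕ) (hb : b.Coprime S.m) :
    ∃ c : ℕ, c.Coprime (b * (S.d.toNat * S.m)) ∧ (c : ℤ) ≡ S.a + S.q0 * S.d [ZMOD S.d * S.m] ∧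
      (c : ℤ) ≡ S.a [ZMOD b] := by
  have hco := bil_copD S b hb
  have hd := S.hd
  have hm := S.hm
  have hb0 : b ≠ 0 ∨ b = 0 := by omega
  have hdm : (0 : ℤ) < S.d * S.m := by positivity
  -- natural representatives
  have hu : ((((S.a + S.q0 * S.d) % (S.d * S.m)).toNat : ℕ) : ℤ) = (S.a + S.q0 * S.d) % (S.d * S.m) :=
    Int.toNat_of_nonneg (Int.emod_nonneg _ hdm.ne')
  have hv : ∃ v : ℕ, (v : ℤ) ≡ S.a [ZMOD b] := by
    rcases Nat.eq_zero_or_pos b with h0 | h0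
    · -- `b = 0` is coprime to `m` only if `m = 1`, then `D ∣ 1`
      subst h0
      have hD : S.d.toNat * S.m = 1 := by simpa using hco
      have ha : IsCoprime S.a (0 : ℤ) := by simpa using bil_cop_a S 0 hb
      -- here `2 ∣ m = 1` is a contradiction
      have h2 : 2 ∣ S.m := S.hp 2 Nat.prime_two ⟨S.a * S.d, by ring⟩
      have h3 : S.m = 1 := Nat.eq_one_of_mul_eq_one_left hD
      omega
    · refine ⟨(S.a % (b : ℤ)).toNat, ?_⟩
      rw [Int.toNat_of_nonneg (Int.emod_nonneg _ (by exact_mod_cast h0.ne'))]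
      exact Int.mod_modEq _ _
  obtain ⟨v, hv⟩ := hv
  set u := ((S.a + S.q0 * S.d) % (S.d * S.m)).toNat with hudef
  obtain ⟨c, hc1, hc2⟩ := Nat.chineseRemainder hco v u
  have h1 : (c : ℤ) ≡ S.a [ZMOD b] := ((Int.natCast_modEq_iff).2 hc1).trans hv
  have h2 : (c : ℤ) ≡ S.a + S.q0 * S.d [ZMOD S.d * S.m] := by
    have h3 := (Int.natCast_modEq_iff).2 hc2
    rw [Nat.cast_mul, bil_cast] at h3
    refine h3.trans ?_
    rw [hu]
    exact Int.mod_modEq _ _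
  refine ⟨c, ?_, h2, h1⟩
  rw [← Nat.isCoprime_iff_coprime]
  push_cast
  rw [bil_cast]
  have key : ∀ t n : ℤ, (c : ℤ) ≡ t [ZMOD n] → IsCoprime t n → IsCoprime (c : ℤ) n := by
    intro t n h ht
    obtain ⟨k, hk⟩ := (Int.modEq_iff_dvd.1 h.symm)
    have : (c : ℤ) = t + n * k := by linarith
    rw [this]
    exact (IsCoprime.add_mul_left_left_iff).2 ht
  refine IsCoprime.mul_right (key _ _ h1 (bil_cop_a S b hb)) (key _ _ h2 ?_)
  refine IsCoprime.mul_right ?_ S.hn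
  have := S.had
  exact (IsCoprime.add_mul_right_left_iff).2 this

private theorem bil_iff (S : Dat) (b c : ℕ) (hb : b.Coprime S.m)
    (hc1 : (c : ℤ) ≡ S.a + S.q0 * S.d [ZMOD S.d * S.m]) (hc2 : (c : ℤ) ≡ S.a [ZMOD b])
    (y : ℕ × ℕ) (hy : S.a < ((y.1 * y.2 : ℕ) : ℤ)) :
    ((((y.1 * y.2 : ℕ) : ℤ) ≡ S.a + S.q0 * S.d [ZMOD S.d * S.m]) ∧ b ∣ nq S y) ↔
      y.1 * y.2 ≡ c [MOD b * (S.d.toNat * S.m)] := by
  set n := y.1 * y.2 with hn
  have hd := S.hd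
  have hco : ((b : ℤ)).natAbs.Coprime (S.d * S.m).natAbs := by
    have h1 := bil_copD S b hb
    have h2 : (S.d * S.m).natAbs = S.d.toNat * S.m := by
      have : (((S.d * S.m).natAbs : ℕ) : ℤ) = ((S.d.toNat * S.m : ℕ) : ℤ) := by
        rw [Int.natAbs_of_nonneg (by positivity)]
        push_cast
        rw [bil_cast]
      exact_mod_cast this
    rw [h2]
    simpa using h1
  have e1 : n ≡ c [MOD b * (S.d.toNat * S.m)] ↔ (n : ℤ) ≡ c [ZMOD (b : ℤ)] ∧ (n : ℤ) ≡ c [ZMOD S.d * S.m] := by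
    rw [Int.modEq_and_modEq_iff_modEq_mul hco, ← Int.natCast_modEq_iff]
    push_cast
    rw [bil_cast]
  rw [e1]
  have e2 : (n : ℤ) ≡ c [ZMOD S.d * S.m] ↔ (n : ℤ) ≡ S.a + S.q0 * S.d [ZMOD S.d * S.m] :=
    ⟨fun h => h.trans hc1, fun h => h.trans hc1.symm⟩
  rw [e2]
  constructor
  · rintro ⟨h1, h2⟩
    refine ⟨?_, h1⟩
    -- d | n - a
    obtain ⟨k, hk⟩ := Int.modEq_iff_dvd.1 h1.symm
    have h3 : (n : ℤ) - S.a = S.d * (S.q0 + S.m * k) := by linear_combination hk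
    have h4 : nq S y = (S.q0 + S.m * k : ℤ).toNat := by
      unfold nq
      rw [← hn, h3, Int.mul_ediv_cancel_left _ (by omega)]
    have h5 : (0 : ℤ) < S.q0 + S.m * k := by
      have h6 : (0 : ℤ) < S.d * (S.q0 + S.m * k) := by rw [← h3]; linarith
      exact (mul_pos_iff_of_pos_left (by omega)).1 h6
    have h6 : (b : ℤ) ∣ S.q0 + S.m * k := by
      rw [h4] at h2
      have := Int.natCast_dvd_natCast.2 h2
      rwa [Int.toNat_of_nonneg h5.le] at this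
    refine Int.ModEq.trans ?_ hc2.symm
    apply Int.ModEq.symm
    rw [Int.modEq_iff_dvd, h3]
    exact Dvd.dvd.mul_left h6 _
  · rintro ⟨h1, h2⟩
    refine ⟨h2, ?_⟩
    obtain ⟨k, hk⟩ := Int.modEq_iff_dvd.1 h2.symm
    have h3 : (n : ℤ) - S.a = S.d * (S.q0 + S.m * k) := by linear_combination hk
    have h4 : nq S y = (S.q0 + S.m * k : ℤ).toNat := by
      unfold nq
      rw [← hn, h3, Int.mul_ediv_cancel_left _ (by omega)]
    have h5 : (0 : ℤ) < S.q0 + S.m * k := by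
      have h6 : (0 : ℤ) < S.d * (S.q0 + S.m * k) := by rw [← h3]; linarith
      exact (mul_pos_iff_of_pos_left (by omega)).1 h6
    have h6 : (b : ℤ) ∣ S.d * (S.q0 + S.m * k) := by
      rw [← h3]
      exact Int.modEq_iff_dvd.1 (h1.trans hc2).symm
    have h7 : (b : ℤ) ∣ S.q0 + S.m * k := (bil_cop_d S b hb).symm.dvd_of_dvd_mul_left h6
    rw [h4]
    have h8 : (b : ℤ) ∣ (((S.q0 + S.m * k : ℤ).toNat : ℕ) : ℤ) := by
      rwa [Int.toNat_of_nonneg h5.le]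
    exact Int.natCast_dvd_natCast.1 h8

/-! the sums over the box -/

open scoped Classical in
private theorem bil_prod (α : ℕ → ℝ) (M1 X Y1 Y2 : ℕ) (R : ℕ → ℕ → Prop) :
    (∑ m ∈ Icc 1 X, ∑ n ∈ Icc 1 Y2, (if R m n then (if M1 < m then ((α m : ℝ) : ℂ) else 0) *
      (if Y1 < n ∧ n ≤ Y2 then ((vm n : ℝ) : ℂ) else 0) else 0)) =
    ((∑ y ∈ Ioc M1 X ×ˢ Ioc Y1 Y2, (if R y.1 y.2 then α y.1 * vm y.2 else 0) : ℝ) : ℂ) := by
  rw [Finset.sum_product]
  push_cast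
  have hsub : Ioc M1 X ⊆ Icc 1 X := by
    intro m hm
    rw [Finset.mem_Ioc] at hm
    rw [Finset.mem_Icc]
    omega
  have hsub2 : Ioc Y1 Y2 ⊆ Icc 1 Y2 := by
    intro m hm
    rw [Finset.mem_Ioc] at hm
    rw [Finset.mem_Icc]
    omega
  rw [← Finset.sum_subset hsub (f := fun m => ∑ n ∈ Icc 1 Y2, (if R m n then
      (if M1 < m then ((α m : ℝ) : ℂ) else 0) *
      (if Y1 < n ∧ n ≤ Y2 then ((vm n : ℝ) : ℂ) else 0) else 0))]
  · refine Finset.sum_congr rfl fun m hm => ?_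
    rw [Finset.mem_Ioc] at hm
    rw [← Finset.sum_subset hsub2 (f := fun n => (if R m n then
      (if M1 < m then ((α m : ℝ) : ℂ) else 0) *
      (if Y1 < n ∧ n ≤ Y2 then ((vm n : ℝ) : ℂ) else 0) else 0))]
    · refine Finset.sum_congr rfl fun n hn => ?_
      rw [Finset.mem_Ioc] at hn
      rw [if_pos hm.1, if_pos hn]
      split_ifs <;> simp
    · intro n _ hn
      rw [Finset.mem_Ioc] at hn
      rw [if_neg hn]
      simp
  · intro m hm1 hm
    rw [Finset.mem_Icc] at hm1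
    rw [Finset.mem_Ioc] at hm
    have h1 : ¬ M1 < m := fun h => hm ⟨h, hm1.2⟩
    refine Finset.sum_eq_zero fun n _ => ?_
    rw [if_neg h1]
    simp

/-- multiples of the large primes of `q` -/
private theorem bil_ncop (α : ℕ → ℝ) (K0 P : ℝ) (hP : 0 < P) (hα : ∀ n, 0 ≤ α n ∧ α n ≤ K0)
    (hα2 : ∀ n, α n ≠ 0 → ∀ p ∈ n.primeFactors, P ≤ (p : ℝ)) (M1 X q : ℕ) (hq : 1 ≤ q) :
    ∑ m ∈ Ioc M1 X, (if m.Coprime q then 0 else α m) ≤ K0 * (X / P) * (q.divisors.card : ℝ) := by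
  have hK0 : 0 ≤ K0 := (hα 0).1.trans (hα 0).2
  calc ∑ m ∈ Ioc M1 X, (if m.Coprime q then 0 else α m)
      ≤ ∑ m ∈ Ioc M1 X, ∑ p ∈ q.primeFactors, (if p ∣ m then α m else 0) := by
        apply Finset.sum_le_sum
        intro m _
        have hnn : ∀ p ∈ q.primeFactors, 0 ≤ (if p ∣ m then α m else 0) := by
          intro p _
          split_ifs
          · exact (hα m).1
          · exact le_rfl
        split_ifs with h
        · exact Finset.sum_nonneg hnn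
        · obtain ⟨p, hp, hpm, hps⟩ := Nat.Prime.not_coprime_iff_dvd.1 h
          have hmem : p ∈ q.primeFactors := Nat.mem_primeFactors.2 ⟨hp, hps, by omega⟩
          have := Finset.single_le_sum hnn hmem
          rwa [if_pos hpm] at this
    _ = ∑ p ∈ q.primeFactors, ∑ m ∈ Ioc M1 X, (if p ∣ m then α m else 0) := Finset.sum_comm
    _ ≤ ∑ _p ∈ q.primeFactors, K0 * (X / P) := by
        apply Finset.sum_le_sum
        intro p hp
        have hpp := Nat.prime_of_mem_primeFactors hp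
        by_cases hPp : P ≤ (p : ℝ)
        · have hp0 : (0 : ℝ) < p := by exact_mod_cast hpp.pos
          have h1 : ∑ m ∈ Ioc M1 X, (if p ∣ m then α m else 0) ≤
              ∑ m ∈ (Ioc 0 X).filter (fun m => p ∣ m), K0 := by
            rw [← Finset.sum_filter]
            calc ∑ m ∈ (Ioc M1 X).filter (fun m => p ∣ m), α m
                ≤ ∑ m ∈ (Ioc M1 X).filter (fun m => p ∣ m), K0 := Finset.sum_le_sum fun m _ => (hα m).2
              _ ≤ _ := by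
                  apply Finset.sum_le_sum_of_subset_of_nonneg
                  · intro m hm
                    rw [Finset.mem_filter, Finset.mem_Ioc] at hm ⊢
                    exact ⟨⟨by omega, hm.1.2⟩, hm.2⟩
                  · intro _ _ _
                    exact hK0
          refine h1.trans ?_
          rw [Finset.sum_const, nsmul_eq_mul, Nat.Ioc_filter_dvd_card_eq_div, mul_comm]
          apply mul_le_mul_of_nonneg_left _ hK0
          calc ((X / p : ℕ) : ℝ) ≤ (X : ℝ) / p := Nat.cast_div_le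
            _ ≤ X / P := div_le_div_of_nonneg_left (Nat.cast_nonneg _) hP hPp
        · have h1 : ∑ m ∈ Ioc M1 X, (if p ∣ m then α m else 0) = 0 := by
            apply Finset.sum_eq_zero
            intro m hm
            rw [Finset.mem_Ioc] at hm
            split_ifs with h
            · by_contra h2
              exact hPp (hα2 m h2 p (Nat.mem_primeFactors.2 ⟨hpp, h, by omega⟩))
            · rfl
          rw [h1]
          positivity
    _ = (q.primeFactors.card : ℝ) * (K0 * (X / P)) := by rw [Finset.sum_const, nsmul_eq_mul]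
    _ ≤ (q.divisors.card : ℝ) * (K0 * (X / P)) := by
        gcongr
        intro p hp
        exact Nat.mem_divisors.2 ⟨Nat.dvd_of_mem_primeFactors hp, by omega⟩
    _ = _ := by ring

open scoped Classical in
/-- the terms not prime to `q` -/
private theorem bil_rest (α : ℕ → ℝ) (K0 P : ℝ) (hP : 0 < P) (hα : ∀ n, 0 ≤ α n ∧ α n ≤ K0)
    (hα2 : ∀ n, α n ≠ 0 → ∀ p ∈ n.primeFactors, P ≤ (p : ℝ)) (M1 X Y1 Y2 q : ℕ) (hq : 1 ≤ q) (hY : 1 ≤ Y2) :
    |(∑ m ∈ Ioc M1 X, α m) * (∑ n ∈ Ioc Y1 Y2, vm n) -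
      ∑ y ∈ Ioc M1 X ×ˢ Ioc Y1 Y2, (if (y.1 * y.2).Coprime (q * 1) then α y.1 * vm y.2 else 0)| ≤
      K0 * X * Real.log Y2 * (1 + Y2 / P) * (q.divisors.card : ℝ) := by
  have hK0 : 0 ≤ K0 := (hα 0).1.trans (hα 0).2
  have hvm : ∀ n, 0 ≤ vm n := fun n => ArithmeticFunction.vonMangoldt_nonneg
  have hlog : 0 ≤ Real.log Y2 := Real.log_natCast_nonneg _
  have hV : ∑ n ∈ Ioc Y1 Y2, vm n ≤ Y2 * Real.log Y2 := by
    calc ∑ n ∈ Ioc Y1 Y2, vm n ≤ ∑ n ∈ Ioc Y1 Y2, Real.log Y2 := by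
          apply Finset.sum_le_sum
          intro n hn
          rw [Finset.mem_Ioc] at hn
          refine (show vm n ≤ Real.log n from ArithmeticFunction.vonMangoldt_le_log).trans ?_
          apply Real.log_le_log
          · exact_mod_cast (by omega : 0 < n)
          · exact_mod_cast hn.2
      _ = ((Y2 - Y1 : ℕ) : ℝ) * Real.log Y2 := by rw [Finset.sum_const, nsmul_eq_mul, Nat.card_Ioc]
      _ ≤ _ := by
          gcongr
          omega
  have hV0 : 0 ≤ ∑ n ∈ Ioc Y1 Y2, vm n := Finset.sum_nonneg fun n _ => hvm n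
  have hA : ∑ m ∈ Ioc M1 X, α m ≤ K0 * X := by
    calc ∑ m ∈ Ioc M1 X, α m ≤ ∑ m ∈ Ioc M1 X, K0 := Finset.sum_le_sum fun m _ => (hα m).2
      _ = ((X - M1 : ℕ) : ℝ) * K0 := by rw [Finset.sum_const, nsmul_eq_mul, Nat.card_Ioc]
      _ ≤ (X : ℝ) * K0 := by
          gcongr
          omega
      _ = _ := by ring
  have hA0 : 0 ≤ ∑ m ∈ Ioc M1 X, α m := Finset.sum_nonneg fun m _ => (hα m).1
  have hN1 := bil_ncop α K0 P hP hα hα2 M1 X q hq
  have hN10 : 0 ≤ ∑ m ∈ Ioc M1 X, (if m.Coprime q then 0 else α m) := by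
    apply Finset.sum_nonneg
    intro m _
    split_ifs
    · exact le_rfl
    · exact (hα m).1
  have hN2 : ∑ n ∈ Ioc Y1 Y2, (if n.Coprime q then 0 else vm n) ≤ (q.divisors.card : ℝ) * Real.log Y2 := by
    refine le_trans ?_ (BGG.vm_noncop_sum Y2 q hY hq)
    apply Finset.sum_le_sum_of_subset_of_nonneg
    · intro m hm
      rw [Finset.mem_Ioc] at hm
      rw [Finset.mem_Icc]
      omega
    · intro n _ _
      split_ifs
      · exact le_rfl
      · exact hvm n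
  have hN20 : 0 ≤ ∑ n ∈ Ioc Y1 Y2, (if n.Coprime q then 0 else vm n) := by
    apply Finset.sum_nonneg
    intro n _
    split_ifs
    · exact le_rfl
    · exact hvm n
  rw [Finset.sum_mul_sum, ← Finset.sum_product', ← Finset.sum_sub_distrib, abs_of_nonneg]
  · calc ∑ y ∈ Ioc M1 X ×ˢ Ioc Y1 Y2, (α y.1 * vm y.2 -
          (if (y.1 * y.2).Coprime (q * 1) then α y.1 * vm y.2 else 0))
        ≤ ∑ y ∈ Ioc M1 X ×ˢ Ioc Y1 Y2, ((if y.1.Coprime q then 0 else α y.1) * vm y.2 +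
            α y.1 * (if y.2.Coprime q then 0 else vm y.2)) := by
          apply Finset.sum_le_sum
          intro y _
          have h1 := mul_nonneg (hα y.1).1 (hvm y.2)
          by_cases h2 : y.1.Coprime q
          · by_cases h3 : y.2.Coprime q
            · rw [if_pos (by rw [mul_one]; exact Nat.Coprime.mul_left h2 h3), if_pos h2, if_pos h3]
              simp
            · rw [if_pos h2, if_neg h3]
              split_ifs <;> linarith
          · rw [if_neg h2]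
            split_ifs <;> linarith
      _ = (∑ m ∈ Ioc M1 X, (if m.Coprime q then 0 else α m)) * (∑ n ∈ Ioc Y1 Y2, vm n) +
            (∑ m ∈ Ioc M1 X, α m) * (∑ n ∈ Ioc Y1 Y2, (if n.Coprime q then 0 else vm n)) := by
          rw [Finset.sum_add_distrib, Finset.sum_mul_sum, Finset.sum_mul_sum, ← Finset.sum_product',
            ← Finset.sum_product']
      _ ≤ (K0 * (X / P) * (q.divisors.card : ℝ)) * (Y2 * Real.log Y2) +
            (K0 * X) * ((q.divisors.card : ℝ) * Real.log Y2) := by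
          gcongr
      _ = _ := by
          field_simp
          ring
  · apply Finset.sum_nonneg
    intro y _
    have h1 := mul_nonneg (hα y.1).1 (hvm y.2)
    split_ifs <;> linarith


open scoped Classical in
private theorem bil_one (S : Dat) (x : ℕ) (η M : ℝ) (hη : 0 < η) (hη2 : η ≤ 1 / 4) (hM : 0 < M)
    (hx : (|(S.a : ℝ)|) * 2 < (S.d : ℝ) * x) (α : ℕ → ℝ) (K0 P : ℝ) (hP : 0 < P)
    (hα : ∀ n, 0 ≤ α n ∧ α n ≤ K0)
    (hα2 : ∀ n, α n ≠ 0 → ∀ p ∈ n.primeFactors, P ≤ (p : ℝ)) (b c : ℕ) (hb0 : 1 ≤ b) (hb : b.Coprime S.m)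
    (hc1 : (c : ℤ) ≡ S.a + S.q0 * S.d [ZMOD S.d * S.m]) (hc2 : (c : ℤ) ≡ S.a [ZMOD b]) (X Y1 Y2 : ℕ)
    (hX : X = ⌊(1 + η) * M⌋₊) (hY1 : Y1 = ⌊(1 - η) * ((S.d : ℝ) * x) / ((1 + η) * M)⌋₊)
    (hY2 : Y2 = ⌊2 * (1 + η) * ((S.d : ℝ) * x) / M⌋₊) (hY : 1 ≤ Y2) :
    |Ad (Bx S x M η) (fun y => α y.1 * vm y.2) (nq S) b -
      (∑ n ∈ Ioc ⌊M⌋₊ X, α n) * (∑ n ∈ Ioc Y1 Y2, vm n) / ((S.d.toNat * S.m).totient : ℝ) / (b.totient : ℝ)| ≤
      ‖BV.bdisc (fun m => if ⌊M⌋₊ < m then ((α m : ℝ) : ℂ) else 0)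
        (fun n => if Y1 < n ∧ n ≤ Y2 then ((vm n : ℝ) : ℂ) else 0) X Y2 (b * (S.d.toNat * S.m)) c 1‖ +
      (K0 * X * Real.log Y2 * (1 + Y2 / P)) *
        (BV.tau (b * (S.d.toNat * S.m)) / ((b * (S.d.toNat * S.m)).totient : ℝ)) := by
  have hd := S.hd
  have hm := S.hm
  have hd0 : 0 < S.d.toNat := by omega
  have hD0 : 0 < S.d.toNat * S.m := Nat.mul_pos hd0 hm
  set D := S.d.toNat * S.m with hD
  have hq : 1 ≤ b * D := Nat.mul_pos hb0 hD0
  have hφ : ((b * D).totient : ℝ) = (D.totient : ℝ) * (b.totient : ℝ) := by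
    rw [Nat.totient_mul (bil_copD S b hb)]
    push_cast
    ring
  have hφ0 : (0 : ℝ) < ((b * D).totient : ℝ) := by exact_mod_cast Nat.totient_pos.2 hq
  -- the values are larger than `a`
  have hbig : ∀ y ∈ Ioc ⌊M⌋₊ X ×ˢ Ioc Y1 Y2, S.a < ((y.1 * y.2 : ℕ) : ℤ) := by
    intro y hy
    rw [Finset.mem_product, Finset.mem_Ioc, Finset.mem_Ioc, hY1] at hy
    have h1 : M < (y.1 : ℝ) := (Nat.floor_lt hM.le).1 hy.1.1
    have hdx : 0 ≤ (S.d : ℝ) * x := by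
      have : (0 : ℝ) ≤ (S.d : ℝ) := by exact_mod_cast (by omega : (0 : ℤ) ≤ S.d)
      positivity
    have h20 : 0 ≤ (1 - η) * ((S.d : ℝ) * x) / ((1 + η) * M) := by
      apply div_nonneg
      · exact mul_nonneg (by linarith) hdx
      · positivity
    have h2 : (1 - η) * ((S.d : ℝ) * x) / ((1 + η) * M) < (y.2 : ℝ) := (Nat.floor_lt h20).1 hy.2.1
    rw [div_lt_iff₀ (by positivity)] at h2
    have h3 : (1 - η) * ((S.d : ℝ) * x) < (y.2 : ℝ) * ((1 + η) * (y.1 : ℝ)) := by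
      refine h2.trans_le ?_
      gcongr
    have h4 : (|(S.a : ℝ)|) < ((y.1 * y.2 : ℕ) : ℝ) := by
      push_cast
      have h5 : (3 / 4 : ℝ) * ((S.d : ℝ) * x) ≤ (1 - η) * ((S.d : ℝ) * x) := by gcongr; linarith
      have h6 : (y.2 : ℝ) * ((1 + η) * (y.1 : ℝ)) ≤ (5 / 4) * ((y.1 : ℝ) * y.2) := by
        have : 0 ≤ (y.1 : ℝ) * y.2 := by positivity
        nlinarith
      have h7 := abs_nonneg (S.a : ℝ)
      nlinarith
    have h5 := (le_abs_self (S.a : ℝ)).trans_lt h4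
    exact_mod_cast h5
  -- the two sums
  have hAd : Ad (Bx S x M η) (fun y => α y.1 * vm y.2) (nq S) b =
      ∑ y ∈ Ioc ⌊M⌋₊ X ×ˢ Ioc Y1 Y2, (if y.1 * y.2 ≡ c [MOD b * D] ∧ (y.1 * y.2).Coprime 1 then
        α y.1 * vm y.2 else 0) := by
    unfold Ad Bx
    rw [Finset.sum_filter, ← hX, ← hY1, ← hY2]
    refine Finset.sum_congr rfl fun y hy => ?_
    have h1 := bil_iff S b c hb hc1 hc2 y (hbig y hy)
    by_cases h2 : (((y.1 * y.2 : ℕ) : ℤ) ≡ S.a + S.q0 * S.d [ZMOD S.d * S.m])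
    · by_cases h3 : b ∣ nq S y
      · rw [if_pos h2, if_pos h3, if_pos ⟨h1.1 ⟨h2, h3⟩, Nat.coprime_one_right _⟩]
      · rw [if_pos h2, if_neg h3, if_neg (fun h => h3 (h1.2 h.1).2)]
    · rw [if_neg h2, if_neg (fun h => h2 (h1.2 h.1).1)]
  have e1 := bil_prod α ⌊M⌋₊ X Y1 Y2 (fun m n => m * n ≡ c [MOD b * D] ∧ (m * n).Coprime 1)
  have e2 := bil_prod α ⌊M⌋₊ X Y1 Y2 (fun m n => (m * n).Coprime (b * D * 1))
  have e3 : ‖BV.bdisc (fun m => if ⌊M⌋₊ < m then ((α m : ℝ) : ℂ) else 0)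
        (fun n => if Y1 < n ∧ n ≤ Y2 then ((vm n : ℝ) : ℂ) else 0) X Y2 (b * D) c 1‖ =
      |(∑ y ∈ Ioc ⌊M⌋₊ X ×ˢ Ioc Y1 Y2, (if y.1 * y.2 ≡ c [MOD b * D] ∧ (y.1 * y.2).Coprime 1 then
        α y.1 * vm y.2 else 0)) - (∑ y ∈ Ioc ⌊M⌋₊ X ×ˢ Ioc Y1 Y2, (if (y.1 * y.2).Coprime (b * D * 1) then
        α y.1 * vm y.2 else 0)) / ((b * D).totient : ℝ)| := by
    rw [← Real.norm_eq_abs, ← Complex.norm_real]
    congr 1
    have f1 : BV.bcls (fun m => if ⌊M⌋₊ < m then ((α m : ℝ) : ℂ) else 0)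
        (fun n => if Y1 < n ∧ n ≤ Y2 then ((vm n : ℝ) : ℂ) else 0) X Y2 (b * D) c 1 =
        ((∑ y ∈ Ioc ⌊M⌋₊ X ×ˢ Ioc Y1 Y2, (if y.1 * y.2 ≡ c [MOD b * D] ∧ (y.1 * y.2).Coprime 1 then
        α y.1 * vm y.2 else 0) : ℝ) : ℂ) := by
      unfold BV.bcls
      convert e1 using 6
    have f2 : BV.bcop (fun m => if ⌊M⌋₊ < m then ((α m : ℝ) : ℂ) else 0)
        (fun n => if Y1 < n ∧ n ≤ Y2 then ((vm n : ℝ) : ℂ) else 0) X Y2 (b * D) 1 =
        ((∑ y ∈ Ioc ⌊M⌋₊ X ×ˢ Ioc Y1 Y2, (if (y.1 * y.2).Coprime (b * D * 1) then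
        α y.1 * vm y.2 else 0) : ℝ) : ℂ) := by
      unfold BV.bcop
      convert e2 using 6
    unfold BV.bdisc
    rw [Complex.ofReal_sub, Complex.ofReal_div, Complex.ofReal_natCast, f1, f2]
  have hrest := bil_rest α K0 P hP hα hα2 ⌊M⌋₊ X Y1 Y2 (b * D) hq hY
  rw [e3, hAd]
  set A1 := ∑ y ∈ Ioc ⌊M⌋₊ X ×ˢ Ioc Y1 Y2, (if y.1 * y.2 ≡ c [MOD b * D] ∧ (y.1 * y.2).Coprime 1 then
        α y.1 * vm y.2 else 0) with hA1
  set A2 := ∑ y ∈ Ioc ⌊M⌋₊ X ×ˢ Ioc Y1 Y2, (if (y.1 * y.2).Coprime (b * D * 1) then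
        α y.1 * vm y.2 else 0) with hA2
  set T := (∑ n ∈ Ioc ⌊M⌋₊ X, α n) * (∑ n ∈ Ioc Y1 Y2, vm n) with hT
  have e4 : A1 - T / (D.totient : ℝ) / (b.totient : ℝ) =
      (A1 - A2 / ((b * D).totient : ℝ)) - (T - A2) / ((b * D).totient : ℝ) := by
    rw [div_div, ← hφ]
    ring
  rw [e4]
  refine (abs_sub _ _).trans (add_le_add le_rfl ?_)
  rw [abs_div, abs_of_pos hφ0, ← mul_div_assoc]
  gcongr
  exact hrest


open Filter in
private theorem bil_ev (K : ℝ) (k : ℕ) (ε : ℝ) (hε : 0 < ε) :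
    ∀ᶠ x : ℕ in atTop, K * (1 + Real.log x) ^ k ≤ (x : ℝ) ^ ε := by
  have h1 := isLittleO_log_rpow_rpow_atTop (k : ℝ) hε
  have h2 := h1.comp_tendsto tendsto_natCast_atTop_atTop
  have hc : 0 < 1 / ((|K| + 1) * 2 ^ k) := by positivity
  have h3 := h2.def hc
  filter_upwards [h3, eventually_ge_atTop 3] with x hx hx3
  have hx3' : (3 : ℝ) ≤ x := by exact_mod_cast hx3
  have hl : 1 ≤ Real.log x := by
    rw [Real.le_log_iff_exp_le (by linarith)]
    exact (Real.exp_one_lt_d9.le.trans (by norm_num)).trans hx3'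
  simp only [Function.comp_apply, Real.norm_eq_abs, Real.rpow_natCast] at hx
  have hx0 : 0 ≤ (x : ℝ) ^ ε := by positivity
  have hx00 : 0 ≤ (Real.log (x : ℝ)) ^ k := pow_nonneg (by linarith) _
  rw [abs_of_nonneg hx00, abs_of_nonneg hx0] at hx
  calc K * (1 + Real.log x) ^ k ≤ (|K| + 1) * (2 * Real.log x) ^ k := by
        gcongr
        · linarith [le_abs_self K]
        · linarith
    _ = ((|K| + 1) * 2 ^ k) * (Real.log x) ^ k := by rw [mul_pow]; ring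
    _ ≤ ((|K| + 1) * 2 ^ k) * (1 / ((|K| + 1) * 2 ^ k) * (x : ℝ) ^ ε) := by gcongr
    _ = (x : ℝ) ^ ε := by field_simp

private theorem bil_choose (S : Dat) : ∃ c : ℕ → ℕ, (∀ q, (c q).Coprime q) ∧
    ∀ b, b.Coprime S.m → ((c (b * (S.d.toNat * S.m)) : ℕ) : ℤ) ≡ S.a + S.q0 * S.d [ZMOD S.d * S.m] ∧
      ((c (b * (S.d.toNat * S.m)) : ℕ) : ℤ) ≡ S.a [ZMOD b] := by
  have hd := S.hd
  have hm := S.hm
  have hD0 : 0 < S.d.toNat * S.m := Nat.mul_pos (by omega) hm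
  have h : ∀ q : ℕ, ∃ c : ℕ, c.Coprime q ∧ ∀ b, b.Coprime S.m → q = b * (S.d.toNat * S.m) →
      (c : ℤ) ≡ S.a + S.q0 * S.d [ZMOD S.d * S.m] ∧ (c : ℤ) ≡ S.a [ZMOD b] := by
    intro q
    by_cases h1 : ∃ b, b.Coprime S.m ∧ q = b * (S.d.toNat * S.m)
    · obtain ⟨b, hb, rfl⟩ := h1
      obtain ⟨c, hc, hc1, hc2⟩ := bil_class S b hb
      refine ⟨c, hc, fun b' _ h2 => ?_⟩
      have : b = b' := Nat.eq_of_mul_eq_mul_right hD0 h2
      subst this
      exact ⟨hc1, hc2⟩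
    · exact ⟨1, Nat.coprime_one_left _, fun b hb h2 => (h1 ⟨b, hb, h2⟩).elim⟩
  choose c hc1 hc2 using h
  exact ⟨c, hc1, fun b hb => hc2 _ b hb rfl⟩

private theorem bil_n1 {d x η : ℝ} (hd : 1 ≤ d) (hx : 0 < x) (hη : 0 < η) : x ≤ 2 * (1 + η) * (d * x) := by
  have h1 : x ≤ d * x := le_mul_of_one_le_left hx.le hd
  have h2 : d * x ≤ (2 * (1 + η)) * (d * x) := le_mul_of_one_le_left (by linarith) (by linarith)
  exact h1.trans h2

private theorem bil_n2 {y η : ℝ} (hy : 0 < y) (hη2 : η ≤ 1 / 4) : 2 * (1 + η) * y ≤ 4 * y :=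
  mul_le_mul_of_nonneg_right (by linarith) hy.le

private theorem bil_n3 {d x : ℝ} (hx : 0 < x) (h : 4 * d ≤ x) : 4 * (d * x) ≤ x ^ 2 := by
  calc 4 * (d * x) = (4 * d) * x := by ring
    _ ≤ x * x := mul_le_mul_of_nonneg_right h hx.le
    _ = x ^ 2 := by ring

private theorem bil_n4 {M η : ℝ} (hM : 0 < M) (hη : 0 < η) (hη2 : η ≤ 1 / 4) :
    (1 + η) * M ≤ 2 * M ∧ (1 + η) * M ≤ (5 / 4) * M ∧ M ≤ (1 + η) * M := by
  refine ⟨mul_le_mul_of_nonneg_right (by linarith) hM.le, mul_le_mul_of_nonneg_right (by linarith) hM.le,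
    le_mul_of_one_le_left hM.le (by linarith)⟩

private theorem bil_n5 {L : ℝ} (h : 4 ≤ L) : L ≤ L ^ 3 ∧ (2 * L) ^ 2 ≤ L ^ 3 := by
  constructor
  · nlinarith [sq_nonneg L]
  · nlinarith [sq_nonneg L]

private theorem bil_n6 {η : ℝ} (hη : 0 < η) (hη2 : η ≤ 1 / 4) : 2 * (1 + η) ^ 2 ≤ 25 / 8 := by nlinarith

private theorem bil_n7 {d y : ℝ} (hd : 1 ≤ d) (hy : 0 ≤ y) :
    (5 / 4) * y + (25 / 8) * d * y ≤ 5 * d * y := by nlinarith

private theorem bil_n8 {a d x : ℝ} (hd : 1 ≤ d) (h : 2 * |a| + 4 * d + 1 ≤ x) : |a| * 2 < d * x := by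
  have h0 := abs_nonneg a
  have h1 : x ≤ d * x := le_mul_of_one_le_left (by linarith) hd
  linarith

open scoped Classical in
open Filter in
/-- MODULE BIL: level of distribution of the convolution (the remainder sum of the family `Bx`, weight `α(m') Λ(P)`, values
`nq = (m' P - a)/d`), for all moduli `b ≤ x^θ`, `θ < 1/2`. -/
theorem bil (S : Dat) (η : ℝ) (hη : 0 < η) (hη2 : η ≤ 1 / 4) (K0 : ℝ) (hK : 0 ≤ K0) (θ : ℝ) (hθ : θ < 1 / 2) (A : ℕ) :
    ∃ C : ℝ, ∃ x0 : ℕ, ∀ x : ℕ, x0 ≤ x → ∀ M : ℝ, (x : ℝ) ^ ((7 : ℝ) / 100) ≤ M → M ≤ (x : ℝ) ^ ((93 : ℝ) / 100) →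
      ∀ α : ℕ → ℝ, (∀ n, 0 ≤ α n ∧ α n ≤ K0) →
      (∀ n, α n ≠ 0 → ∀ p ∈ n.primeFactors, (x : ℝ) ^ ((1 : ℝ) / 20) ≤ (p : ℝ)) →
      Rs (Bx S x M η) (fun y => α y.1 * vm y.2) (nq S) S.m
        ((∑ n ∈ Ioc ⌊M⌋₊ ⌊(1 + η) * M⌋₊, α n) *
          (∑ P ∈ Ioc ⌊(1 - η) * ((S.d : ℝ) * x) / ((1 + η) * M)⌋₊ ⌊2 * (1 + η) * ((S.d : ℝ) * x) / M⌋₊, vm P) /
            ((S.d.toNat * S.m).totient : ℝ))
        ((x : ℝ) ^ θ) ≤ C * x / (Real.log x) ^ A := by
  obtain ⟨K, hK0, hSW⟩ := swcl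
  obtain ⟨B, C0, hC0, hBV⟩ := BV.bv_main A 3 K hK0
  obtain ⟨c, hc, hcc⟩ := bil_choose S
  have hd := S.hd
  have hm := S.hm
  have hD0 : 0 < S.d.toNat * S.m := Nat.mul_pos (by omega) hm
  set D := S.d.toNat * S.m with hD
  set d : ℝ := (S.d : ℝ) with hdef
  have hd1 : (1 : ℝ) ≤ d := by rw [hdef]; exact_mod_cast hd
  have ev1 := bil_ev 1 B (7 / 100) (by norm_num)
  have ev2 := bil_ev (D : ℝ) B (1 / 2 - θ) (by linarith)
  have ev3 := bil_ev (10 * K0 * d) (A + 5) (1 / 20) (by norm_num)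
  have ev4 : ∀ᶠ x : ℕ in atTop, max 4 (2 * K0 ^ 2) ≤ Real.log x :=
    (Real.tendsto_log_atTop.comp tendsto_natCast_atTop_atTop).eventually_ge_atTop _
  have ev5 : ∀ᶠ x : ℕ in atTop, 2 * |(S.a : ℝ)| + 4 * d + 1 ≤ (x : ℝ) :=
    tendsto_natCast_atTop_atTop.eventually_ge_atTop _
  have hev := ((ev1.and ev2).and (ev3.and ev4)).and ev5
  obtain ⟨x0, hx0⟩ := eventually_atTop.1 hev
  refine ⟨C0 * 4 * d + 1, x0, fun x hx M hM1 hM2 α hα hα2 => ?_⟩
  obtain ⟨⟨⟨h1, h2⟩, h3, h4⟩, h5⟩ := hx0 x hx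
  set L := Real.log x with hL
  have hL4 : 4 ≤ L := (le_max_left _ _).trans h4
  have hLK : 2 * K0 ^ 2 ≤ L := (le_max_right _ _).trans h4
  have hL0 : 0 < L := by linarith
  have ha0 := abs_nonneg (S.a : ℝ)
  have hx1 : (1 : ℝ) ≤ x := by linarith
  have hxp : (0 : ℝ) < x := by linarith
  have hexp : Real.exp L = x := Real.exp_log hxp
  -- sizes
  have hLB : L ^ B ≤ (1 + L) ^ B := pow_le_pow_left₀ hL0.le (by linarith) _
  have hLB1 : 1 ≤ L ^ B := one_le_pow₀ (by linarith)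
  have hMge : 1 ≤ M := le_trans (Real.one_le_rpow hx1 (by norm_num)) hM1
  have hM0 : 0 < M := by linarith
  have hLM : L ^ B ≤ M := by linarith
  set N : ℝ := 2 * (1 + η) * (d * x) / M with hN
  have hdx : 0 < d * x := by positivity
  have hNge : (x : ℝ) ^ ((7 : ℝ) / 100) ≤ N := by
    rw [hN, le_div_iff₀ hM0]
    calc (x : ℝ) ^ ((7 : ℝ) / 100) * M ≤ (x : ℝ) ^ ((7 : ℝ) / 100) * (x : ℝ) ^ ((93 : ℝ) / 100) := by gcongr
      _ = x := by
          rw [← Real.rpow_add hxp]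
          norm_num
      _ ≤ 2 * (1 + η) * (d * x) := bil_n1 hd1 hxp hη
  have hLN : L ^ B ≤ N := by linarith
  have hN1 : 1 ≤ N := le_trans (Real.one_le_rpow hx1 (by norm_num)) hNge
  have hMN : M * N = 2 * (1 + η) * (d * x) := by rw [hN]; field_simp
  have hMN4 : M * N ≤ 4 * (d * x) := by rw [hMN]; exact bil_n2 hdx hη2
  have hNx : N ≤ x ^ 2 := by
    calc N ≤ M * N := le_mul_of_one_le_left (by linarith) hMge
      _ ≤ 4 * (d * x) := hMN4
      _ ≤ x ^ 2 := bil_n3 hxp (by linarith)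
  have hMN8 : M * N ≤ Real.exp (8 * L) := by
    rw [show 8 * L = ((8 : ℕ) : ℝ) * L by norm_num, Real.exp_nat_mul, hexp]
    calc M * N ≤ 4 * (d * x) := hMN4
      _ ≤ (x : ℝ) ^ 2 := bil_n3 hxp (by linarith)
      _ ≤ (x : ℝ) ^ 8 := pow_le_pow_right₀ hx1 (by norm_num)
  set X := ⌊(1 + η) * M⌋₊ with hX
  set Y1 := ⌊(1 - η) * (d * x) / ((1 + η) * M)⌋₊ with hY1
  set Y2 := ⌊2 * (1 + η) * (d * x) / M⌋₊ with hY2
  have hXr : (X : ℝ) ≤ (1 + η) * M := Nat.floor_le (by positivity)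
  have hY2r : (Y2 : ℝ) ≤ N := Nat.floor_le (by linarith)
  obtain ⟨hM2', hM54, hM11⟩ := bil_n4 hM0 hη hη2
  have hX4 : (X : ℝ) ≤ 4 * M := by linarith
  have hY4 : (Y2 : ℝ) ≤ 4 * N := by linarith
  have hY21 : 1 ≤ Y2 := Nat.le_floor (by simpa using hN1)
  have hY12 : Y1 ≤ Y2 := by
    apply Nat.floor_le_floor
    calc (1 - η) * (d * x) / ((1 + η) * M) ≤ 2 * (1 + η) * (d * x) / ((1 + η) * M) := by
          gcongr
          linarith
      _ ≤ 2 * (1 + η) * (d * x) / M := div_le_div_of_nonneg_left (by positivity) hM0 hM11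
  set Q := ⌊(x : ℝ) ^ θ * D⌋₊ with hQ
  have hQr : (Q : ℝ) ≤ (x : ℝ) ^ θ * D := Nat.floor_le (by positivity)
  have hQL : (Q : ℝ) * L ^ B ≤ (x : ℝ) ^ (1 / 2 : ℝ) := by
    calc (Q : ℝ) * L ^ B ≤ ((x : ℝ) ^ θ * D) * (1 + L) ^ B := by gcongr
      _ = (x : ℝ) ^ θ * (D * (1 + L) ^ B) := by ring
      _ ≤ (x : ℝ) ^ θ * (x : ℝ) ^ (1 / 2 - θ) := by gcongr
      _ = (x : ℝ) ^ (1 / 2 : ℝ) := by
          rw [← Real.rpow_add hxp]
          ring_nf
  have hQs : (Q : ℝ) * L ^ B ≤ Real.sqrt (M * N) := by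
    refine hQL.trans ?_
    rw [← Real.sqrt_eq_rpow]
    apply Real.sqrt_le_sqrt
    rw [hMN]
    exact bil_n1 hd1 hxp hη
  have hQx : (Q : ℝ) ≤ x := by
    calc (Q : ℝ) ≤ (Q : ℝ) * L ^ B := le_mul_of_one_le_right (Nat.cast_nonneg _) hLB1
      _ ≤ (x : ℝ) ^ (1 / 2 : ℝ) := hQL
      _ ≤ (x : ℝ) ^ (1 : ℝ) := Real.rpow_le_rpow_of_exponent_le hx1 (by norm_num)
      _ = x := Real.rpow_one _
  have hlogY : Real.log Y2 ≤ 2 * L := by
    have h6 : (0 : ℝ) < Y2 := by exact_mod_cast hY21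
    calc Real.log Y2 ≤ Real.log ((x : ℝ) ^ 2) := Real.log_le_log h6 (hY2r.trans hNx)
      _ = 2 * L := by rw [Real.log_pow, ← hL]; norm_num
  have hlogY0 : 0 ≤ Real.log Y2 := Real.log_natCast_nonneg _
  obtain ⟨hL3, hL23⟩ := bil_n5 hL4
  -- second moments
  have hA2 : ∑ n ∈ Icc 1 X, ‖(if ⌊M⌋₊ < n then ((α n : ℝ) : ℂ) else 0)‖ ^ 2 ≤ M * L ^ 3 := by
    calc ∑ n ∈ Icc 1 X, ‖(if ⌊M⌋₊ < n then ((α n : ℝ) : ℂ) else 0)‖ ^ 2 ≤ ∑ n ∈ Icc 1 X, K0 ^ 2 := by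
          apply Finset.sum_le_sum
          intro n _
          split_ifs
          · rw [Complex.norm_real, Real.norm_eq_abs, abs_of_nonneg (hα n).1]
            exact pow_le_pow_left₀ (hα n).1 (hα n).2 _
          · rw [norm_zero, zero_pow (by norm_num)]
            positivity
      _ = (X : ℝ) * K0 ^ 2 := by rw [Finset.sum_const, nsmul_eq_mul, Nat.card_Icc]; simp
      _ ≤ (2 * M) * K0 ^ 2 := by
          gcongr
          linarith
      _ = M * (2 * K0 ^ 2) := by ring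
      _ ≤ M * L ^ 3 := by
          gcongr
          linarith
  have hB2 : ∑ n ∈ Icc 1 Y2, ‖(if Y1 < n ∧ n ≤ Y2 then ((vm n : ℝ) : ℂ) else 0)‖ ^ 2 ≤ N * L ^ 3 := by
    calc ∑ n ∈ Icc 1 Y2, ‖(if Y1 < n ∧ n ≤ Y2 then ((vm n : ℝ) : ℂ) else 0)‖ ^ 2 ≤ ∑ n ∈ Icc 1 Y2, (2 * L) ^ 2 := by
          apply Finset.sum_le_sum
          intro n hn
          rw [Finset.mem_Icc] at hn
          split_ifs
          · have hv0 : 0 ≤ vm n := ArithmeticFunction.vonMangoldt_nonneg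
            rw [Complex.norm_real, Real.norm_eq_abs, abs_of_nonneg hv0]
            apply pow_le_pow_left₀ hv0
            refine (show vm n ≤ Real.log n from ArithmeticFunction.vonMangoldt_le_log).trans ?_
            refine le_trans (Real.log_le_log ?_ ?_) hlogY
            · exact_mod_cast (by omega : 0 < n)
            · exact_mod_cast hn.2
          · rw [norm_zero, zero_pow (by norm_num)]
            positivity
      _ = (Y2 : ℝ) * (2 * L) ^ 2 := by rw [Finset.sum_const, nsmul_eq_mul, Nat.card_Icc]; simp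
      _ ≤ N * (2 * L) ^ 2 := by gcongr
      _ ≤ N * L ^ 3 := by
          gcongr
  -- Siegel - Walfisz
  have hSWN : BV.SWc K L N (fun n => if Y1 < n ∧ n ≤ Y2 then ((vm n : ℝ) : ℂ) else 0) Y2 := by
    apply hSW L N Y1 Y2 (by linarith) _ _ hY12 hY4
    · refine le_trans ?_ hNge
      have : Real.exp (L / 16) = (x : ℝ) ^ ((1 : ℝ) / 16) := by
        rw [Real.rpow_def_of_pos hxp]
        congr 1
        rw [← hL]
        ring
      rw [this]
      exact Real.rpow_le_rpow_of_exponent_le hx1 (by norm_num)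
    · rw [show 2 * L = ((2 : ℕ) : ℝ) * L by norm_num, Real.exp_nat_mul, hexp]
      exact hNx
  have hmain := hBV L M N X Y2 Q 1 _ _ (by linarith) le_rfl hLM hLN hMN8 hX4 hY4 hQs hA2 hB2 hSWN c hc
  have htau1 : BV.tau 1 = 1 := by simp [BV.tau]
  rw [htau1, mul_one] at hmain
  -- the error term
  set P : ℝ := (x : ℝ) ^ ((1 : ℝ) / 20) with hP
  have hP0 : 0 < P := by positivity
  set E : ℝ := K0 * X * Real.log Y2 * (1 + Y2 / P) with hE
  have hE0 : 0 ≤ E := by positivity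
  have hEle : E ≤ 10 * K0 * d * L * (x : ℝ) ^ ((19 : ℝ) / 20) := by
    have hx19 : (x : ℝ) / P = (x : ℝ) ^ ((19 : ℝ) / 20) := by
      rw [hP, div_eq_iff (by positivity), ← Real.rpow_add hxp]
      norm_num
    have hM19 : M ≤ (x : ℝ) ^ ((19 : ℝ) / 20) :=
      hM2.trans (Real.rpow_le_rpow_of_exponent_le hx1 (by norm_num))
    have h6 : (X : ℝ) * (1 + Y2 / P) ≤ 5 * d * (x : ℝ) ^ ((19 : ℝ) / 20) := by
      calc (X : ℝ) * (1 + Y2 / P) = X + (X * Y2) / P := by ring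
        _ ≤ (1 + η) * M + (((1 + η) * M) * N) / P := by gcongr
        _ = (1 + η) * M + 2 * (1 + η) ^ 2 * d * (x / P) := by
            rw [mul_assoc (1 + η) M N, hMN]
            ring
        _ ≤ (5 / 4) * (x : ℝ) ^ ((19 : ℝ) / 20) + (25 / 8) * d * (x : ℝ) ^ ((19 : ℝ) / 20) := by
            rw [hx19]
            have h7 : 2 * (1 + η) ^ 2 ≤ 25 / 8 := bil_n6 hη hη2
            gcongr
            linarith
        _ ≤ 5 * d * (x : ℝ) ^ ((19 : ℝ) / 20) := bil_n7 hd1 (by positivity)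
    calc E = K0 * Real.log Y2 * (X * (1 + Y2 / P)) := by rw [hE]; ring
      _ ≤ K0 * (2 * L) * (5 * d * (x : ℝ) ^ ((19 : ℝ) / 20)) := by gcongr
      _ = _ := by ring
  have hT := BV.tau_pow_sum_totient 1 Q
  simp only [pow_one] at hT
  have hT2 : ∑ n ∈ Icc 1 Q, BV.tau n / (n.totient : ℝ) ≤ (1 + L) ^ 4 := by
    refine hT.trans ?_
    have h6 : Real.log Q ≤ L := by
      rcases Nat.eq_zero_or_pos Q with h0 | h0
      · rw [h0]; simpa using hL0.le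
      · exact Real.log_le_log (by exact_mod_cast h0) hQx
    have h7 : 0 ≤ Real.log Q := Real.log_natCast_nonneg _
    rw [show 2 ^ (1 + 1) = 4 by norm_num]
    exact pow_le_pow_left₀ (by linarith) (by linarith) _
  have hfin : E * (1 + L) ^ 4 ≤ x / L ^ A := by
    rw [le_div_iff₀ (by positivity)]
    calc E * (1 + L) ^ 4 * L ^ A ≤ (10 * K0 * d * (1 + L) * (x : ℝ) ^ ((19 : ℝ) / 20)) * (1 + L) ^ 4 * (1 + L) ^ A := by
          gcongr
          · refine hEle.trans ?_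
            gcongr
            linarith
          · linarith
      _ = (10 * K0 * d * (1 + L) ^ (A + 5)) * (x : ℝ) ^ ((19 : ℝ) / 20) := by
          rw [pow_add]
          ring
      _ ≤ (x : ℝ) ^ (1 / 20 : ℝ) * (x : ℝ) ^ ((19 : ℝ) / 20) := by gcongr
      _ = x := by
          rw [← Real.rpow_add hxp]
          norm_num
  -- the sum over `b`
  have hxa : (|(S.a : ℝ)|) * 2 < (S.d : ℝ) * x := by
    rw [← hdef]
    exact bil_n8 hd1 h5
  unfold Rs
  have hstep : ∀ b ∈ (Icc 1 ⌊(x : ℝ) ^ θ⌋₊).filter (fun b => Squarefree b ∧ b.Coprime S.m),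
      |Ad (Bx S x M η) (fun y => α y.1 * vm y.2) (nq S) b -
        (∑ n ∈ Ioc ⌊M⌋₊ X, α n) * (∑ n ∈ Ioc Y1 Y2, vm n) / (D.totient : ℝ) / (b.totient : ℝ)| ≤
      ‖BV.bdisc (fun m => if ⌊M⌋₊ < m then ((α m : ℝ) : ℂ) else 0)
        (fun n => if Y1 < n ∧ n ≤ Y2 then ((vm n : ℝ) : ℂ) else 0) X Y2 (b * D) (c (b * D)) 1‖ +
      E * (BV.tau (b * D) / ((b * D).totient : ℝ)) := by
    intro b hb
    rw [Finset.mem_filter, Finset.mem_Icc] at hb
    obtain ⟨hc1, hc2⟩ := hcc b hb.2.2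
    exact bil_one S x η M hη hη2 hM0 hxa α K0 P hP0 hα hα2 b (c (b * D)) hb.1.1 hb.2.2 hc1 hc2 X Y1 Y2
      hX hY1 hY2 hY21
  refine (Finset.sum_le_sum hstep).trans ?_
  have hsum : ∀ f : ℕ → ℝ, (∀ q, 0 ≤ f q) →
      ∑ b ∈ (Icc 1 ⌊(x : ℝ) ^ θ⌋₊).filter (fun b => Squarefree b ∧ b.Coprime S.m), f (b * D) ≤
        ∑ q ∈ Icc 1 Q, f q := by
    intro f hf
    rw [← Finset.sum_image (f := f) (g := fun b => b * D) (fun b _ b' _ h => Nat.eq_of_mul_eq_mul_right hD0 h)]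
    apply Finset.sum_le_sum_of_subset_of_nonneg
    · intro q hq
      rw [Finset.mem_image] at hq
      obtain ⟨b, hb, rfl⟩ := hq
      rw [Finset.mem_filter, Finset.mem_Icc] at hb
      rw [Finset.mem_Icc]
      refine ⟨Nat.mul_pos hb.1.1 hD0, ?_⟩
      apply Nat.le_floor
      push_cast
      have h6 : (b : ℝ) ≤ (x : ℝ) ^ θ :=
        (Nat.cast_le.2 hb.1.2).trans (Nat.floor_le (by positivity))
      gcongr
    · intro q _ _
      exact hf q
  rw [Finset.sum_add_distrib, ← Finset.mul_sum]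
  have hs1 := hsum (fun q => ‖BV.bdisc (fun m => if ⌊M⌋₊ < m then ((α m : ℝ) : ℂ) else 0)
        (fun n => if Y1 < n ∧ n ≤ Y2 then ((vm n : ℝ) : ℂ) else 0) X Y2 q (c q) 1‖) (fun q => norm_nonneg _)
  have hs2 := hsum (fun q => BV.tau q / (q.totient : ℝ)) (fun q => by unfold BV.tau; positivity)
  calc _ ≤ C0 * (M * N) / L ^ A + E * (1 + L) ^ 4 := by
        refine add_le_add (hs1.trans ?_) ?_
        · exact hmain
        · exact mul_le_mul_of_nonneg_left (hs2.trans hT2) hE0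
    _ ≤ C0 * (4 * (d * x)) / L ^ A + x / L ^ A := by
        gcongr
    _ = (C0 * 4 * d + 1) * x / L ^ A := by ring

end Pool.Agent.CC
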