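import Pool.Agent.CC.Bil

/-! CC, part J3: the upper bound for one box. -/

set_option autoImplicit false

namespace Pool.Agent.CC

open Finset

private theorem BOX_rs_mono {ι : Type} (I : Finset ι) (w : ι → ℝ) (N : ι → ℕ) (m : ℕ) (X E E' : ℝ)
    (h : E ≤ E') : Rs I w N m X E ≤ Rs I w N m X E' := by
  classical
  unfold Rs
  refine sum_le_sum_of_subset_of_nonneg ?_ (fun _ _ _ => abs_nonneg _)
  intro b hb
  obtain ⟨h1, h2⟩ := mem_filter.1 hb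
  refine mem_filter.2 ⟨mem_Icc.2 ⟨(mem_Icc.1 h1).1, le_trans (mem_Icc.1 h1).2 (Nat.floor_le_floor h)⟩, h2⟩

private theorem BOX_AA : 0 < AA ∧ AA < 4 := by
  unfold AA AAn
  constructor <;> norm_num

private theorem BOX_tot (S : Dat) : ((S.d.toNat * S.m).totient : ℝ) = S.d * S.m.totient := by
  have hd0 : 0 < S.d := lt_of_lt_of_le one_pos S.hd
  have hdn : (S.d.toNat : ℤ) = S.d := Int.toNat_of_nonneg hd0.le
  have hdn0 : S.d.toNat ≠ 0 := by omega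
  have hm0 : S.m ≠ 0 := S.hm.ne'
  have h1 : (S.d.toNat * S.m).primeFactors = S.m.primeFactors := by
    rw [Nat.primeFactors_mul hdn0 hm0]
    apply union_eq_right.2
    intro p hp
    have hpp := Nat.prime_of_mem_primeFactors hp
    have hpd := Nat.dvd_of_mem_primeFactors hp
    refine Nat.mem_primeFactors.2 ⟨hpp, S.hp p hpp ?_, hm0⟩
    have h2 : (p : ℤ) ∣ S.d := by
      rw [← hdn]; exact_mod_cast hpd
    exact dvd_mul_of_dvd_right h2 _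
  have h2 := Nat.totient_eq_mul_prod_factors (S.d.toNat * S.m)
  have h3 := Nat.totient_eq_mul_prod_factors S.m
  rw [h1] at h2
  have h4 : ((S.d.toNat * S.m).totient : ℚ) = S.d.toNat * (S.m.totient : ℚ) := by
    rw [h2, h3]; push_cast; ring
  have h5 : (S.d.toNat * S.m).totient = S.d.toNat * S.m.totient := by exact_mod_cast h4
  rw [h5]
  push_cast
  congr 1
  exact_mod_cast hdn

/-- the prime number theorem, as a difference -/
private theorem BOX_pnt (κ : ℝ) (hκ : 0 < κ) : ∃ y0 : ℝ, 2 ≤ y0 ∧ ∀ A1 A2 : ℝ, y0 ≤ A1 → A1 ≤ A2 →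
    ∑ P ∈ Ioc ⌊A1⌋₊ ⌊A2⌋₊, vm P ≤ A2 - A1 + κ * (A1 + A2) := by
  obtain ⟨C, hC⟩ := Pool.Agent.SWz.swlam 1
  have h1 : Filter.Tendsto Real.log Filter.atTop Filter.atTop := Real.tendsto_log_atTop
  obtain ⟨y1, hy1⟩ := Filter.eventually_atTop.1 (h1.eventually_ge_atTop ((|C| + 1) / κ))
  refine ⟨max 2 y1, le_max_left _ _, fun A1 A2 h2 h3 => ?_⟩
  have key : ∀ y : ℝ, max 2 y1 ≤ y →
      |(∑ n ∈ Icc 1 ⌊y⌋₊, vm n) - y| ≤ κ * y := by
    intro y hy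
    have hy2 : 2 ≤ y := le_trans (le_max_left _ _) hy
    have hlog : (|C| + 1) / κ ≤ Real.log y := hy1 y (le_trans (le_max_right _ _) hy)
    have h4 := hC y hy2 1 0 (le_refl 1) (by simp [isCoprime_one_right])
    have h5 : (∑ n ∈ Icc 1 ⌊y⌋₊, if ((1 : ℕ) : ℤ) ∣ (n : ℤ) - 0 then
        ArithmeticFunction.vonMangoldt n else 0) = ∑ n ∈ Icc 1 ⌊y⌋₊, vm n := by
      refine sum_congr rfl fun n _ => ?_
      rw [if_pos (by simp)]
      rfl
    rw [h5, Nat.totient_one, Nat.cast_one, div_one, pow_one] at h4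
    refine le_trans h4 ?_
    have hpos : 0 < (|C| + 1) / κ := by positivity
    have hl : 0 < Real.log y := lt_of_lt_of_le hpos hlog
    rw [div_le_iff₀ hl]
    have h6 : |C| + 1 ≤ κ * Real.log y := by
      rw [div_le_iff₀ hκ] at hlog; linarith
    have h7 : C ≤ κ * Real.log y := by linarith [le_abs_self C]
    nlinarith
  have hA1 := key A1 h2
  have hA2 := key A2 (le_trans h2 h3)
  have h6 : ∑ P ∈ Ioc ⌊A1⌋₊ ⌊A2⌋₊, vm P =
      ∑ n ∈ Icc 1 ⌊A2⌋₊, vm n - ∑ n ∈ Icc 1 ⌊A1⌋₊, vm n := by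
    have h7 : ⌊A1⌋₊ ≤ ⌊A2⌋₊ := Nat.floor_le_floor h3
    have h8 := sum_Ioc_consecutive (fun n => vm n) (Nat.zero_le ⌊A1⌋₊) h7
    have h9 : ∀ n : ℕ, Icc 1 n = Ioc 0 n := fun n => rfl
    rw [h9, h9, ← h8]; ring
  rw [h6]
  have h10 := (abs_le.1 hA1).1
  have h11 := (abs_le.1 hA2).2
  nlinarith

private theorem BOX_num (Q η r y0 : ℝ) (hQ : 5 / 3 * y0 ≤ Q) (hQ0 : 0 < Q) (hη : 0 < η)
    (hη2 : η ≤ 1 / 4) (h1 : 3 / 5 ≤ r) (h2 : r ≤ 1) (h3 : 1 - 2 * η ≤ r) :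
    y0 ≤ r * Q ∧ r * Q ≤ 2 * (1 + η) * Q ∧
      2 * (1 + η) * Q - r * Q + η / 5 * (r * Q + 2 * (1 + η) * Q) ≤
        Q * (1 + 4 * η + 4 / 5 * η) := by
  have h4 : r * Q ≤ 1 * Q := mul_le_mul_of_nonneg_right h2 hQ0.le
  have h5 : (1 - 2 * η) * Q ≤ r * Q := mul_le_mul_of_nonneg_right h3 hQ0.le
  have h6 : 3 / 5 * Q ≤ r * Q := mul_le_mul_of_nonneg_right h1 hQ0.le
  have h9 : 0 ≤ η * Q := (mul_pos hη hQ0).le
  have h10 : η * Q ≤ 1 / 4 * Q := mul_le_mul_of_nonneg_right hη2 hQ0.le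
  have h7 : r * Q + 2 * (1 + η) * Q ≤ 4 * Q := by linarith
  have h8 := mul_le_mul_of_nonneg_left h7 (by positivity : 0 ≤ η / 5)
  refine ⟨by linarith, by linarith, by linarith⟩

private theorem BOX_num2 (η T : ℝ) (hη : 0 < η) (hη2 : η ≤ 1 / 4) (hT : 0 ≤ T) :
    T * ((1 + η) * (1 + 4 * η + 4 / 5 * η)) ≤ T * (1 + 7 * η) := by
  apply mul_le_mul_of_nonneg_left _ hT
  nlinarith

private theorem BOX_num3 (κ : ℝ) (hκ : 0 < κ) (hκ1 : κ ≤ 1 / 4) :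
    1 ≤ (12 / 25 * (1 + 4 * κ)) * ((1 - κ) * (25 / 12 * (1 - κ))) := by
  have h4 : (12 / 25 * (1 + 4 * κ)) * ((1 - κ) * (25 / 12 * (1 - κ))) - 1 =
      κ * (2 - 7 * κ + 4 * κ ^ 2) := by ring
  have h5 : 0 ≤ κ * (2 - 7 * κ + 4 * κ ^ 2) := by
    apply mul_nonneg hκ.le
    nlinarith [sq_nonneg κ]
  linarith

private theorem BOX_num4 (A κ ε : ℝ) (hA : A < 4) (hκ : 0 < κ) (hκ2 : κ ≤ ε / 4) :
    4 / 25 * A + 16 / 25 * A * κ ≤ 4 / 25 * A + ε := by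
  have h1 : A * κ ≤ 4 * κ := mul_le_mul_of_nonneg_right hA.le hκ.le
  linarith

private theorem BOX_c1 (η : ℝ) (hη : 0 < η) (hη2 : η ≤ 1 / 4) :
    (3 : ℝ) / 5 ≤ (1 - η) / (1 + η) ∧ (1 - η) / (1 + η) ≤ 1 ∧ 1 - 2 * η ≤ (1 - η) / (1 + η) := by
  refine ⟨?_, ?_, ?_⟩
  · rw [div_le_div_iff₀ (by norm_num) (by linarith)]; linarith
  · rw [div_le_one (by linarith)]; linarith
  · rw [le_div_iff₀ (by linarith)]; nlinarith

/-- members of the box -/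
private theorem BOX_mem (S : Dat) (η : ℝ) (hη : 0 < η) (hη2 : η ≤ 1 / 4) (x : ℕ)
    (hx : 20 * S.a.natAbs + 20 ≤ x) (M : ℝ) (hM : 1 ≤ M) (y : ℕ × ℕ) (hy : y ∈ Bx S x M η) :
    (x : ℝ) / 2 ≤ (nq S y : ℝ) := by
  classical
  obtain ⟨h1, h2⟩ := mem_filter.1 hy
  obtain ⟨h3, h4⟩ := mem_product.1 h1
  have h5 : M < y.1 := (Nat.floor_lt (by linarith)).1 (mem_Ioc.1 h3).1
  have hd0 : 0 < S.d := lt_of_lt_of_le one_pos S.hd
  have hd1 : (1 : ℝ) ≤ S.d := by exact_mod_cast S.hd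
  have hx0 : (20 : ℝ) * S.a.natAbs + 20 ≤ x := by exact_mod_cast hx
  have hxpos : (0 : ℝ) < x := by
    have : (0 : ℝ) ≤ S.a.natAbs := Nat.cast_nonneg _
    linarith
  have hA1 : 0 ≤ (1 - η) * ((S.d : ℝ) * x) / ((1 + η) * M) := by
    apply div_nonneg
    · apply mul_nonneg (by linarith) (by positivity)
    · positivity
  have h6 : (1 - η) * ((S.d : ℝ) * x) / ((1 + η) * M) < y.2 :=
    (Nat.floor_lt hA1).1 (mem_Ioc.1 h4).1
  have h7 : (3 : ℝ) / 5 * (S.d * x) ≤ y.1 * y.2 := by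
    have h8 : (1 - η) * ((S.d : ℝ) * x) / ((1 + η) * M) * M ≤ y.2 * y.1 := by
      apply mul_le_mul h6.le h5.le (by linarith) (Nat.cast_nonneg _)
    have h9 : (1 - η) * ((S.d : ℝ) * x) / ((1 + η) * M) * M = (1 - η) / (1 + η) * (S.d * x) := by
      field_simp
    have h10 : (3 : ℝ) / 5 ≤ (1 - η) / (1 + η) := by
      rw [div_le_div_iff₀ (by norm_num) (by linarith)]
      linarith
    rw [h9] at h8
    have h11 : (3 : ℝ) / 5 * (S.d * x) ≤ (1 - η) / (1 + η) * (S.d * x) :=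
      mul_le_mul_of_nonneg_right h10 (by positivity)
    linarith [mul_comm (y.1 : ℝ) (y.2 : ℝ)]
  -- divisibility
  have h12 : S.d ∣ ((y.1 * y.2 : ℕ) : ℤ) - S.a := by
    have h13 : (S.d * S.m : ℤ) ∣ (S.a + S.q0 * S.d) - ((y.1 * y.2 : ℕ) : ℤ) := h2.dvd
    have h14 : S.d ∣ (S.a + S.q0 * S.d) - ((y.1 * y.2 : ℕ) : ℤ) := dvd_trans (dvd_mul_right _ _) h13
    have h15 : ((y.1 * y.2 : ℕ) : ℤ) - S.a =
        S.q0 * S.d - ((S.a + S.q0 * S.d) - ((y.1 * y.2 : ℕ) : ℤ)) := by ring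
    rw [h15]
    exact dvd_sub (dvd_mul_left _ _) h14
  obtain ⟨k, hk⟩ := h12
  have h16 : (((y.1 * y.2 : ℕ) : ℤ) - S.a) / S.d = k := by
    rw [hk, Int.mul_ediv_cancel_left _ hd0.ne']
  have h17 : (S.d : ℝ) * k = y.1 * y.2 - S.a := by
    have : ((S.d * k : ℤ) : ℝ) = ((((y.1 * y.2 : ℕ) : ℤ) - S.a : ℤ) : ℝ) := by rw [hk]
    push_cast at this
    exact this
  have ha : (S.a : ℝ) ≤ S.a.natAbs := by
    have h0 : S.a ≤ (S.a.natAbs : ℤ) := Int.le_natAbs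
    have h00 : (S.a : ℝ) ≤ ((S.a.natAbs : ℤ) : ℝ) := Int.cast_le.2 h0
    rwa [Int.cast_natCast] at h00
  have h18 : (x : ℝ) / 2 ≤ k := by
    by_contra hcon
    have h19 : (k : ℝ) < x / 2 := lt_of_not_ge hcon
    have h20 : (S.d : ℝ) * k < S.d * (x / 2) := mul_lt_mul_of_pos_left h19 (by linarith)
    have h21 : (3 : ℝ) / 5 * (S.d * x) - S.a.natAbs < S.d * (x / 2) := by linarith
    have h22 : (x : ℝ) ≤ S.d * x := by nlinarith
    have h23 : (0 : ℝ) ≤ S.a.natAbs := Nat.cast_nonneg _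
    nlinarith
  have h24 : nq S y = k.toNat := by
    unfold nq
    rw [h16]
  have h25 : (0 : ℤ) ≤ k := by
    by_contra hcon
    have : (k : ℝ) < 0 := by exact_mod_cast lt_of_not_ge hcon
    linarith
  rw [h24]
  have h26 : ((k.toNat : ℕ) : ℝ) = k := by
    have := Int.toNat_of_nonneg h25
    exact_mod_cast this
  rw [h26]
  exact h18

open scoped Classical in
/-- MODULE BOX.  Upper bound for one box.
Proof.  Let `S0` be from `supT`, `θ = 1/2 - δ`, `D = x^θ`, `z3 = D^(1/3)`, `W` with `Mert m W (min ε' S0.ε)`.  If `nq y` is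
prime then (it is `≥ (1-η)^2 x/2 · .. > z3`) no prime `< z3` divides it; so the left side is at most
`Sf (Bx ..) w (nq S) m z3 1` (all `nq y ≥ 1`).  `se_up` with `E = {1}`, `E0 = 1` and `lin` (+) with `s = 3`:
`≤ X' · Vv m 0 W · Vv m W z3 · AA/3 + Rs(PW W · D)`, `X' = (∑ α)(∑ Λ)/φ(d m)`, `Rs ≤ C x/log^4 x ≤ x/log^3 x` by `bil`
(`θ' > θ`).  `Vv m W z3 ≤ (1+ε')(log z/log z3) ...`: precisely, with `z = x^(2/25) < z3 = x^(θ/3)`, `Mert`:
`(1 - ε') (log z3/log z) Vv m W z3 ≤ Vv m W z`, so `Vv m W z3 ≤ (1-ε')^(-1) (6/25)/θ · Vv m W z`, and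
`(AA/3)(6/25)/(1/2) = (4/25) AA`.  `φ(d m) = d φ(m)` because all primes dividing `d` divide `m`.  The prime number
theorem (`SWz.swlam` with `r = 1`): `∑_{Y1 < P ≤ Y2} Λ(P) ≤ (Y2 - Y1) + ε' Y2 ≤ (d x/M) (2(1+η) - (1-η)/(1+η) + 3 ε')
≤ (d x/M)(1 + 4η + 3ε')`, and `1/M ≤ (1+η)/m'` for `m' ≤ (1+η) M`; `(1+4η)(1+η) ≤ 1 + 6η`, and `3 ε' (1+η) ≤ η`. -/
theorem box (S : Dat) (η : ℝ) (hη : 0 < η) (hη2 : η ≤ 1 / 4) (K0 : ℝ) (hK : 0 ≤ K0) (ε : ℝ) (hε : 0 < ε) :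
    ∃ x0 : ℕ, ∀ x : ℕ, x0 ≤ x → ∀ M : ℝ, (x : ℝ) ^ ((7 : ℝ) / 100) ≤ M → M ≤ (x : ℝ) ^ ((93 : ℝ) / 100) →
      ∀ α : ℕ → ℝ, (∀ n, 0 ≤ α n ∧ α n ≤ K0) →
      (∀ n, α n ≠ 0 → ∀ p ∈ n.primeFactors, (x : ℝ) ^ ((1 : ℝ) / 20) ≤ (p : ℝ)) →
      ∑ y ∈ Bx S x M η, (if (nq S y).Prime then α y.1 * vm y.2 else 0) ≤
        S.U x * ((4 / 25 * AA + ε) * (1 + 7 * η) * (∑ n ∈ Ioc ⌊M⌋₊ ⌊(1 + η) * M⌋₊, α n / n)) +
          x / (Real.log x) ^ 3 := by
  obtain ⟨S0, hS0, -, -⟩ := supT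
  obtain ⟨hAA0, hAA4⟩ := BOX_AA
  obtain ⟨ha0, hm2, hb1, hb2⟩ := dat_basic S
  set κ : ℝ := min (1 / 4) (ε / 4) with hκdef
  have hκ0 : 0 < κ := by positivity
  have hκ1 : κ ≤ 1 / 4 := min_le_left _ _
  have hκ2 : κ ≤ ε / 4 := min_le_right _ _
  obtain ⟨W1, hW1⟩ := mert S.m S.hm κ hκ0
  obtain ⟨W2, hW2⟩ := mert S.m S.hm S0.ε S0.hε
  set W : ℝ := max W1 W2 with hWdef
  have hMk := hW1 W (le_max_left _ _)
  have hMs := hW2 W (le_max_right _ _)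
  have hW3 : 3 ≤ W := hMk.1
  set θ : ℝ := 1 / 2 - κ / 2 with hθdef
  set θ' : ℝ := 1 / 2 - κ / 4 with hθ'def
  obtain ⟨C, x1, hbil⟩ := bil S η hη hη2 K0 hK θ' (by rw [hθ'def]; linarith) 4
  obtain ⟨y0, hy0, hpnt⟩ := BOX_pnt (η / 5) (by positivity)
  -- large x
  have hlim : ∀ (e c : ℝ), 0 < e → ∀ᶠ x : ℕ in Filter.atTop, c ≤ (x : ℝ) ^ e := by
    intro e c he
    have h1 := (tendsto_rpow_atTop he).comp (tendsto_natCast_atTop_atTop (R := ℝ))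
    exact h1.eventually_ge_atTop c
  have hloglim : ∀ c : ℝ, ∀ᶠ x : ℕ in Filter.atTop, c ≤ Real.log (x : ℝ) := by
    intro c
    have h1 := Real.tendsto_log_atTop.comp (tendsto_natCast_atTop_atTop (R := ℝ))
    exact h1.eventually_ge_atTop c
  have hev := (((((((hlim ((16 : ℝ) / 200) W (by norm_num)).and
    (hlim (κ / 4) (PW W) (by positivity))).and
    (hlim ((7 : ℝ) / 100) (5 / 3 * y0) (by norm_num))).and
    (hloglim (max C 1))).and (Filter.eventually_ge_atTop x1)).and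
    (Filter.eventually_ge_atTop (20 * S.a.natAbs + 20))).and
    (hlim (1 / 2) 4 (by norm_num)))
  obtain ⟨x0, hx0⟩ := Filter.eventually_atTop.1 hev
  refine ⟨x0, fun x hx M hM1 hM2 α hα hαp => ?_⟩
  obtain ⟨⟨⟨⟨⟨⟨hx1, hx2⟩, hx3⟩, hx4⟩, hx5⟩, hx6⟩, hx7⟩ := hx0 x hx
  have hxn : 20 ≤ x := by omega
  have hxr : (20 : ℝ) ≤ x := by exact_mod_cast hxn
  have hxp : (0 : ℝ) < x := by linarith
  have hx1' : (1 : ℝ) ≤ x := by linarith
  have hlog1 : 1 ≤ Real.log x := le_trans (le_max_right _ _) hx4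
  have hlogC : C ≤ Real.log x := le_trans (le_max_left _ _) hx4
  have hM0 : 1 ≤ M := le_trans (Real.one_le_rpow hx1' (by norm_num)) hM1
  have hd1 : (1 : ℝ) ≤ S.d := by exact_mod_cast S.hd
  have hφ : (0 : ℝ) < S.m.totient := by exact_mod_cast Nat.totient_pos.2 S.hm
  set z : ℝ := (x : ℝ) ^ ((16 : ℝ) / 200) with hz
  set z3 : ℝ := (x : ℝ) ^ (θ / 3) with hz3
  set D : ℝ := (x : ℝ) ^ θ with hD
  have hzz3 : z ≤ z3 := Real.rpow_le_rpow_of_exponent_le hx1' (by rw [hθdef]; linarith)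
  have hz3D : z3 ≤ D := Real.rpow_le_rpow_of_exponent_le hx1' (by rw [hθdef]; linarith)
  have hD1 : 1 ≤ D := Real.one_le_rpow hx1' (by rw [hθdef]; linarith)
  have hWz3 : W ≤ z3 := le_trans hx1 hzz3
  set A1 : ℝ := (1 - η) * ((S.d : ℝ) * x) / ((1 + η) * M) with hA1
  set A2 : ℝ := 2 * (1 + η) * ((S.d : ℝ) * x) / M with hA2
  set Sα : ℝ := ∑ n ∈ Ioc ⌊M⌋₊ ⌊(1 + η) * M⌋₊, α n with hSα
  set SΛ : ℝ := ∑ P ∈ Ioc ⌊A1⌋₊ ⌊A2⌋₊, vm P with hSΛ
  set T : ℝ := ∑ n ∈ Ioc ⌊M⌋₊ ⌊(1 + η) * M⌋₊, α n / n with hT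
  set X' : ℝ := Sα * SΛ / ((S.d.toNat * S.m).totient : ℝ) with hX'
  have hvm : ∀ k, 0 ≤ vm k := fun k => ArithmeticFunction.vonMangoldt_nonneg
  have hSα0 : 0 ≤ Sα := sum_nonneg fun n _ => (hα n).1
  have hSΛ0 : 0 ≤ SΛ := sum_nonneg fun n _ => hvm n
  have hT0 : 0 ≤ T := sum_nonneg fun n _ => div_nonneg (hα n).1 (Nat.cast_nonneg n)
  -- the first step: the sieve
  have hnq : ∀ y ∈ Bx S x M η, (x : ℝ) / 2 ≤ (nq S y : ℝ) := fun y hy =>
    BOX_mem S η hη hη2 x hx6 M hM0 y hy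
  have hstep1 : ∑ y ∈ Bx S x M η, (if (nq S y).Prime then α y.1 * vm y.2 else 0) ≤
      ∑ e ∈ ({1} : Finset ℕ), Sf (Bx S x M η) (fun y => α y.1 * vm y.2) (nq S) S.m z3 e := by
    rw [sum_singleton]
    unfold Sf
    refine sum_le_sum fun y hy => ?_
    by_cases hp : (nq S y).Prime
    · rw [if_pos hp, if_pos]
      refine ⟨one_dvd _, fun p hpp hdiv => ?_⟩
      have hp1 := mem_filter.1 hpp
      have hp2 : p = nq S y := (Nat.prime_dvd_prime_iff_eq hp1.2.1 hp).1 hdiv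
      have hp3 : (p : ℝ) < z3 := by
        have := mem_range.1 hp1.1
        exact Nat.lt_ceil.1 this
      have hp4 : z3 ≤ (x : ℝ) ^ ((1 : ℝ) / 2) :=
        Real.rpow_le_rpow_of_exponent_le hx1' (by rw [hθdef]; linarith)
      have hp5 := hnq y hy
      rw [← hp2] at hp5
      have hp6 : (x : ℝ) ^ ((1 : ℝ) / 2) * (x : ℝ) ^ ((1 : ℝ) / 2) = x := by
        rw [← Real.rpow_add hxp]; norm_num
      have hp7 : 4 * (x : ℝ) ^ ((1 : ℝ) / 2) ≤ (x : ℝ) ^ ((1 : ℝ) / 2) * (x : ℝ) ^ ((1 : ℝ) / 2) :=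
        mul_le_mul_of_nonneg_right hx7 (by positivity)
      linarith
    · rw [if_neg hp]
      split_ifs
      · exact mul_nonneg (hα _).1 (hvm _)
      · exact le_refl 0
  have hstep2 := se_up (Bx S x M η) (fun y => α y.1 * vm y.2) (nq S)
    (fun y _ => mul_nonneg (hα _).1 (hvm _)) (fun y hy => by
      have h1 := hnq y hy
      have h2 : (1 : ℝ) ≤ (nq S y : ℝ) := by linarith
      exact_mod_cast h2) S.m S.hm W z3 D hW3 hWz3 hD1 ⌈z3⌉₊ (le_refl _) X' {1} 1 (by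
      intro e he
      rw [mem_singleton] at he
      subst he
      refine ⟨squarefree_one, Nat.coprime_one_left _, fun p hp => ?_, by simp⟩
      simp at hp)
  rw [sum_singleton (fun e : ℕ => 1 / (e.totient : ℝ)), Nat.totient_one, Nat.cast_one, div_one, mul_one,
    mul_one] at hstep2
  -- the remainder
  have hR : Rs (Bx S x M η) (fun y => α y.1 * vm y.2) (nq S) S.m X' ((PW W : ℝ) * D) ≤
      x / (Real.log x) ^ 3 := by
    have h1 : (PW W : ℝ) * D ≤ (x : ℝ) ^ θ' := by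
      calc (PW W : ℝ) * D ≤ (x : ℝ) ^ (κ / 4) * (x : ℝ) ^ θ := by
            apply mul_le_mul_of_nonneg_right hx2 (by positivity)
        _ = (x : ℝ) ^ θ' := by
            rw [← Real.rpow_add hxp]
            congr 1
            rw [hθdef, hθ'def]; ring
    refine le_trans (BOX_rs_mono _ _ _ _ _ _ _ h1) ?_
    refine le_trans (hbil x hx5 M hM1 hM2 α hα hαp) ?_
    rw [div_le_div_iff₀ (by positivity) (by positivity)]
    have h2 : (0 : ℝ) ≤ x * (Real.log x) ^ 3 := by positivity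
    calc C * x * Real.log x ^ 3 = C * (x * Real.log x ^ 3) := by ring
      _ ≤ Real.log x * (x * Real.log x ^ 3) := mul_le_mul_of_nonneg_right hlogC h2
      _ = x * Real.log x ^ 4 := by ring
  -- the main term
  have hV0W := Vv_pos S.m 0 W (Or.inr hm2)
  have hVWz := Vv_pos S.m W z (Or.inl hW3)
  have hVWz3 := Vv_pos S.m W z3 (Or.inl hW3)
  have hlin := (lin S0 S.m W hMs ⌈z3⌉₊ z3 D hWz3 (le_refl _)).1 hz3D
  have hlogx : 0 < Real.log x := by linarith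
  have hθ0 : 0 < θ := by rw [hθdef]; linarith
  have hlogz : Real.log z = 16 / 200 * Real.log x := Real.log_rpow hxp _
  have hlogz3 : Real.log z3 = θ / 3 * Real.log x := Real.log_rpow hxp _
  have hlogD : Real.log D = θ * Real.log x := Real.log_rpow hxp _
  have hs3 : Real.log D / Real.log z3 = 3 := by
    rw [hlogD, hlogz3]; field_simp
  rw [hs3] at hlin
  have hratio : Real.log z3 / Real.log z = 25 / 12 * (1 - κ) := by
    rw [hlogz, hlogz3, hθdef]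
    field_simp
    ring
  have hV3 : Vv S.m W z3 ≤ 12 / 25 * (1 + 4 * κ) * Vv S.m W z := by
    have h1 := (hMk.2 z z3 hx1 hzz3).1
    rw [hratio] at h1
    have h3 := BOX_num3 κ hκ0 hκ1
    have h6 : 0 ≤ 12 / 25 * (1 + 4 * κ) := by linarith
    calc Vv S.m W z3 ≤ (12 / 25 * (1 + 4 * κ)) * ((1 - κ) * (25 / 12 * (1 - κ))) * Vv S.m W z3 :=
          le_mul_of_one_le_left hVWz3.1.le h3
      _ = (12 / 25 * (1 + 4 * κ)) * ((1 - κ) * (25 / 12 * (1 - κ)) * Vv S.m W z3) := by ring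
      _ ≤ _ := mul_le_mul_of_nonneg_left h1 h6
  have hV : Vv S.m 0 W * Vv S.m W z = Vv S.m 0 z := (Vv_split S.m 0 W z (by linarith) hx1).symm
  have hX'0 : 0 ≤ X' := div_nonneg (mul_nonneg hSα0 hSΛ0) (Nat.cast_nonneg _)
  have hmain1 : X' * (Vv S.m 0 W * vr S.m W ⌈z3⌉₊ true z3 D) ≤
      X' * ((4 / 25 * AA + ε) * Vv S.m 0 z) := by
    apply mul_le_mul_of_nonneg_left _ hX'0
    have h1 : 1 + S0.φ 3 ≤ AA / 3 := by linarith
    have h1' : 0 ≤ 1 + S0.φ 3 := by linarith [S0.φ0 3 (by norm_num)]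
    calc Vv S.m 0 W * vr S.m W ⌈z3⌉₊ true z3 D
        ≤ Vv S.m 0 W * (Vv S.m W z3 * (1 + S0.φ 3)) := mul_le_mul_of_nonneg_left hlin hV0W.1.le
      _ ≤ Vv S.m 0 W * ((12 / 25 * (1 + 4 * κ) * Vv S.m W z) * (AA / 3)) := by
          apply mul_le_mul_of_nonneg_left _ hV0W.1.le
          apply mul_le_mul hV3 h1 h1'
          have := hVWz.1
          positivity
      _ = (4 / 25 * AA + 16 / 25 * AA * κ) * (Vv S.m 0 W * Vv S.m W z) := by ring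
      _ ≤ (4 / 25 * AA + ε) * (Vv S.m 0 W * Vv S.m W z) := by
          apply mul_le_mul_of_nonneg_right _ (mul_pos hV0W.1 hVWz.1).le
          exact BOX_num4 AA κ ε hAA4 hκ0 hκ2
      _ = _ := by rw [hV]
  -- the size of X'
  have hSΛb : SΛ ≤ (S.d * x / M) * (1 + 4 * η + 4 / 5 * η) := by
    have hMx : M * (x : ℝ) ^ ((7 : ℝ) / 100) ≤ x := by
      calc M * (x : ℝ) ^ ((7 : ℝ) / 100) ≤ (x : ℝ) ^ ((93 : ℝ) / 100) * (x : ℝ) ^ ((7 : ℝ) / 100) := by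
            apply mul_le_mul_of_nonneg_right hM2 (by positivity)
        _ = x := by rw [← Real.rpow_add hxp]; norm_num
    have hQ : 5 / 3 * y0 ≤ S.d * x / M := by
      rw [le_div_iff₀ (by linarith)]
      have h1 : 5 / 3 * y0 * M ≤ (x : ℝ) ^ ((7 : ℝ) / 100) * M :=
        mul_le_mul_of_nonneg_right hx3 (by linarith)
      have h2 : (x : ℝ) ≤ S.d * x := le_mul_of_one_le_left hxp.le hd1
      linarith
    set Q : ℝ := S.d * x / M with hQdef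
    have hQ0 : 0 < Q := by positivity
    have hA1Q : A1 = (1 - η) / (1 + η) * Q := by
      rw [hA1, hQdef]; field_simp
    have hA2Q : A2 = 2 * (1 + η) * Q := by
      rw [hA2, hQdef]; ring
    obtain ⟨hc1, hc2, hc3⟩ := BOX_c1 η hη hη2
    obtain ⟨h1, h2, h3⟩ := BOX_num Q η ((1 - η) / (1 + η)) y0 hQ hQ0 hη hη2 hc1 hc2 hc3
    rw [← hA1Q, ← hA2Q] at h2 h3
    rw [← hA1Q] at h1
    exact le_trans (hpnt A1 A2 h1 h2) h3
  have hSαb : Sα ≤ M * ((1 + η) * T) := by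
    rw [hSα, hT, mul_sum, mul_sum]
    refine sum_le_sum fun n hn => ?_
    have h1 := mem_Ioc.1 hn
    have h2 : (n : ℝ) ≤ (1 + η) * M := (Nat.le_floor_iff (by positivity)).1 h1.2
    have h3 : M < n := (Nat.floor_lt (by linarith)).1 h1.1
    have h4 : (0 : ℝ) < n := by linarith
    have h5 : M * ((1 + η) * (α n / n)) = α n * (((1 + η) * M) / n) := by ring
    rw [h5]
    have h6 : 1 ≤ ((1 + η) * M) / n := by rw [le_div_iff₀ h4]; linarith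
    exact le_mul_of_one_le_right (hα n).1 h6
  have hX'b : X' ≤ S.X x * ((1 + 7 * η) * T) := by
    rw [hX', BOX_tot]
    have h1 : Sα * SΛ ≤ (M * ((1 + η) * T)) * ((S.d * x / M) * (1 + 4 * η + 4 / 5 * η)) :=
      mul_le_mul hSαb hSΛb hSΛ0 (by positivity)
    have h2 : (M * ((1 + η) * T)) * ((S.d * x / M) * (1 + 4 * η + 4 / 5 * η)) =
        S.d * x * (T * ((1 + η) * (1 + 4 * η + 4 / 5 * η))) := by
      field_simp
    have h4 : S.X x * ((1 + 7 * η) * T) = S.d * x * (T * (1 + 7 * η)) / (S.d * S.m.totient) := by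
      unfold Dat.X
      field_simp
    rw [h4]
    apply div_le_div_of_nonneg_right _ (by positivity)
    rw [h2] at h1
    refine le_trans h1 ?_
    apply mul_le_mul_of_nonneg_left _ (by positivity)
    exact BOX_num2 η T hη hη2 hT0
  have hV0z := Vv_pos S.m 0 z (Or.inr hm2)
  have hmain2 : X' * ((4 / 25 * AA + ε) * Vv S.m 0 z) ≤
      S.U x * ((4 / 25 * AA + ε) * (1 + 7 * η) * T) := by
    have h1 : 0 ≤ (4 / 25 * AA + ε) * Vv S.m 0 z := mul_nonneg (by linarith) hV0z.1.le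
    calc X' * ((4 / 25 * AA + ε) * Vv S.m 0 z)
        ≤ (S.X x * ((1 + 7 * η) * T)) * ((4 / 25 * AA + ε) * Vv S.m 0 z) :=
          mul_le_mul_of_nonneg_right hX'b h1
      _ = (S.X x * Vv S.m 0 z) * ((4 / 25 * AA + ε) * (1 + 7 * η) * T) := by ring
      _ = _ := rfl
  calc ∑ y ∈ Bx S x M η, (if (nq S y).Prime then α y.1 * vm y.2 else 0)
      ≤ _ := hstep1
    _ ≤ _ := hstep2
    _ ≤ _ := add_le_add (le_trans hmain1 hmain2) hR

end Pool.Agent.CC
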