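import Mathlib

/-!
# CHEN WITH A CUBIC CONDITION (MP_8bf9c2_nt): definitions

Author of the mathematics: helper64.  Goal (`Fin.lean`, `Wr.lean`): `gcd(a,d) = 1`, `2 ∣ a d`, `a ≠ 0`, `H` a subgroup of
index 3 of `(ℤ/m)ˣ`, `q0` a class mod `m` with `q0` and `a + q0 d` units mod `m` and `a + q0 d ∉ H`.  Then at least
`c x / log² x` primes `q ∈ (x, 2x]`, `q ≡ q0 mod m`, are such that `a + q d` has AT MOST THREE prime factors, all of them
`> x^(2/25)`, exactly ONE of which is not in `H`.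
-/

set_option autoImplicit false

namespace Pool.Agent.CC

open Finset

/-! ## The sieve -/

open scoped Classical in
/-- the primes `W ≤ p < z` not dividing `m` -/
noncomputable def pr (m : ℕ) (W z : ℝ) : Finset ℕ :=
  (range ⌈z⌉₊).filter fun p => p.Prime ∧ ¬ p ∣ m ∧ W ≤ (p : ℝ)

/-- the product `∏ (1 - 1/(p-1))` over these primes -/
noncomputable def Vv (m : ℕ) (W z : ℝ) : ℝ := ∏ p ∈ pr m W z, (1 - 1 / ((p : ℝ) - 1))

open scoped Classical in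
/-- Rosser's functional `∑ μ(b) h(b)` over the `b` in Rosser's set `D^+` (`true`) or `D^-` (`false`) of level `D`, primes
`W ≤ p < z`, `p ∤ m`.  The first argument `n` is fuel, enough if `⌈z⌉ ≤ n`. -/
noncomputable def Ro (m : ℕ) (W : ℝ) : ℕ → Bool → ℝ → ℝ → (ℕ → ℝ) → ℝ
  | 0, _, _, _, h => h 1
  | n + 1, true, z, D, h =>
      h 1 - ∑ p ∈ (pr m W z).filter (fun p : ℕ => (p : ℝ) ^ 3 < D), Ro m W n false (p : ℝ) (D / p) (fun b => h (p * b))
  | n + 1, false, z, D, h =>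
      h 1 - ∑ p ∈ pr m W z, Ro m W n true (p : ℝ) (D / p) (fun b => h (p * b))

/-- the main term of Rosser's sieve -/
noncomputable def vr (m : ℕ) (W : ℝ) (n : ℕ) (t : Bool) (z D : ℝ) : ℝ :=
  Ro m W n t z D (fun b => 1 / (b.totient : ℝ))

open scoped Classical in
/-- the squarefree `b ≤ E` with all prime factors in `pr m W z` -/
noncomputable def lev (m : ℕ) (W z E : ℝ) : Finset ℕ :=
  (Icc 1 ⌊E⌋₊).filter fun b => Squarefree b ∧ ∀ p ∈ b.primeFactors, p ∈ pr m W z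

/-- Mertens' theorem beyond `W` with relative error `ε` -/
def Mert (m : ℕ) (W ε : ℝ) : Prop :=
  3 ≤ W ∧ ∀ w z : ℝ, W ≤ w → w ≤ z →
    (1 - ε) * (Real.log z / Real.log w) * Vv m W z ≤ Vv m W w ∧
      Vv m W w ≤ (1 + ε) * (Real.log z / Real.log w) * Vv m W z

/-- A strict supersolution of the equations of the linear sieve: `F = 1 + φ` on `[1,∞)`, `f = 1 - ψ` on `[2,∞)`;
`Φ`, `Ψ` are majorants of the tail integrals of `φ`, `ψ`. -/
structure Sup where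
  ε : ℝ
  φ : ℝ → ℝ
  Φ : ℝ → ℝ
  ψ : ℝ → ℝ
  Ψ : ℝ → ℝ
  hε : 0 < ε
  hε1 : ε ≤ 1 / 2
  φ0 : ∀ t, 1 ≤ t → 0 ≤ φ t
  ψ0 : ∀ t, 2 ≤ t → 0 ≤ ψ t
  Φ0 : ∀ t, 1 ≤ t → 0 ≤ Φ t
  Ψ0 : ∀ t, 2 ≤ t → 0 ≤ Ψ t
  φa : ∀ t t', 1 ≤ t → t ≤ t' → φ t' ≤ φ t
  ψa : ∀ t t', 2 ≤ t → t ≤ t' → ψ t' ≤ ψ t
  hΦ : ∀ t t', 1 ≤ t → t ≤ t' → Φ t' + (t' - t) * φ t' ≤ Φ t
  hΨ : ∀ t t', 2 ≤ t → t ≤ t' → Ψ t' + (t' - t) * ψ t' ≤ Ψ t
  I1 : ∀ s, 3 ≤ s → (1 + ε) * (Ψ (s - 1) / s) + ε * ψ (s - 1) ≤ φ s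
  I2 : ∀ s, 2 ≤ s → (1 + ε) * (Φ (s - 1) / s) + ε * φ (s - 1) ≤ ψ s
  I3 : ∀ s, 1 ≤ s → s < 3 → (1 + ε) * (3 / s) * (1 + φ 3) ≤ 1 + φ s

/-! ## Sums over a weighted family -/

open scoped Classical in
/-- the weight of the members divisible by `e` -/
noncomputable def Ad {ι : Type} (I : Finset ι) (w : ι → ℝ) (N : ι → ℕ) (e : ℕ) : ℝ :=
  ∑ k ∈ I, if e ∣ N k then w k else 0

open scoped Classical in
/-- the weight of the members divisible by `e` without prime factors `p < z`, `p ∤ m` -/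
noncomputable def Sf {ι : Type} (I : Finset ι) (w : ι → ℝ) (N : ι → ℕ) (m : ℕ) (z : ℝ) (e : ℕ) : ℝ :=
  ∑ k ∈ I, if e ∣ N k ∧ ∀ p ∈ pr m 0 z, ¬ p ∣ N k then w k else 0

open scoped Classical in
/-- the remainder sum: all squarefree `b ≤ E` prime to `m` -/
noncomputable def Rs {ι : Type} (I : Finset ι) (w : ι → ℝ) (N : ι → ℕ) (m : ℕ) (X E : ℝ) : ℝ :=
  ∑ b ∈ (Icc 1 ⌊E⌋₊).filter (fun b => Squarefree b ∧ b.Coprime m), |Ad I w N b - X / (b.totient : ℝ)|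

/-- the product of the primes below `W` -/
noncomputable def PW (W : ℝ) : ℕ := ∏ p ∈ (range ⌈W⌉₊).filter Nat.Prime, p

/-! ## The arithmetic data -/

/-- `a, d`, the modulus `m` (divisible by all primes dividing `2 a d`), the class `q0` of the primes `q` mod `m`, and the
cubic class `c`, normalised such that `c (a + k d) = 1` for `k ≡ q0 mod m`. -/
structure Dat where
  a : ℤ
  d : ℤ
  m : ℕ
  q0 : ℕ
  c : ℕ → ZMod 3
  hd : 1 ≤ d
  hm : 0 < m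
  hp : ∀ p : ℕ, p.Prime → (p : ℤ) ∣ 2 * a * d → p ∣ m
  had : IsCoprime a d
  hq : q0.Coprime m
  hn : IsCoprime (a + q0 * d) (m : ℤ)
  hc1 : ∀ x y : ℕ, x.Coprime m → y.Coprime m → c (x * y) = c x + c y
  hc2 : ∀ x y : ℕ, x ≡ y [MOD m] → c x = c y
  hc3 : ∀ k : ℕ, k ≡ q0 [MOD m] → 0 < a + k * d → c (a + k * d).toNat = 1

namespace Dat

variable (S : Dat)

/-- `n = a + k d` -/
def nv (k : ℕ) : ℕ := (S.a + k * S.d).toNat

/-- the `k` in `(x, 2x]` in the class `q0` -/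
def I (x : ℕ) : Finset ℕ := (Ioc x (2 * x)).filter fun k => k ≡ S.q0 [MOD S.m]

/-- `x / φ(m)` -/
noncomputable def X (x : ℕ) : ℝ := (x : ℝ) / (S.m.totient : ℝ)

/-- the sifting limit `x^(2/25)` -/
noncomputable def z (x : ℕ) : ℝ := (x : ℝ) ^ ((16 : ℝ) / 200)

/-- the unit `x/φ(m) ∏_{p < z} (1 - 1/(p-1))` -/
noncomputable def U (x : ℕ) : ℝ := S.X x * Vv S.m 0 ((x : ℝ) ^ ((16 : ℝ) / 200))

open scoped Classical in
/-- the primes `x^(i/H) ≤ p < x^(j/H)` with `c p = c` -/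
noncomputable def cell (x H : ℕ) (c : ZMod 3) (i j : ℕ) : Finset ℕ :=
  (range (x + 1)).filter fun p => p.Prime ∧ ¬ p ∣ S.m ∧ S.c p = c ∧
    (x : ℝ) ^ ((i : ℝ) / H) ≤ (p : ℝ) ∧ (p : ℝ) < (x : ℝ) ^ ((j : ℝ) / H)

/-- the prime `p` has weight `1/2` -/
def half (x p : ℕ) : Prop :=
  (S.c p = 2 ∧ (x : ℝ) ^ ((65 : ℝ) / 200) ≤ (p : ℝ) ∧ (p : ℝ) < (x : ℝ) ^ ((76 : ℝ) / 200)) ∨
    (S.c p = 1 ∧ (x : ℝ) ^ ((16 : ℝ) / 200) ≤ (p : ℝ) ∧ (p : ℝ) < (x : ℝ) ^ ((46 : ℝ) / 200))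

/-- `n` survives the mixed sieve: no prime factor `< x^(16/200)`, none of class 2 in `[x^(16/200), x^(65/200))` -/
def Surv (x n : ℕ) : Prop :=
  (∀ p ∈ pr S.m 0 ((x : ℝ) ^ ((16 : ℝ) / 200)), ¬ p ∣ n) ∧ ∀ p ∈ S.cell x 200 2 16 65, ¬ p ∣ n

open scoped Classical in
/-- the weight of `n` -/
noncomputable def wt (x n : ℕ) : ℝ := 1 - (1 / 2) * ((n.primeFactors.filter fun p => S.half x p).card : ℝ)

end Dat

/-! ## Tables (linear sieve; levels in steps of `1/16`) -/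

/-- `10^7 ψ(i/16)`, `i = 32, ..., 112` -/
def psiT : List ℕ := [10018838, 8970347, 8041687, 7216474, 6481060, 5823990, 5235581, 4707599, 4232999, 3805726,
  3420548, 3072924, 2758898, 2475007, 2218213, 1985840, 1775522, 1585163, 1412899, 1257071, 1116194, 988942, 874122,
  770662, 677597, 594054, 519244, 452453, 393031, 340389, 293990, 253344, 218004, 187491, 161202, 138542, 119004,
  102158, 87633, 75112, 64321, 55027, 47026, 40142, 34226, 29146, 24788, 21055, 17860, 15130, 12801, 10816, 9128,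
  7695, 6480, 5452, 4584, 3851, 3235, 2716, 2280, 1915, 1608, 1351, 1136, 957, 806, 680, 574, 486, 413, 351, 300,
  257, 250, 250, 250, 250, 250, 250, 250]

/-- `10^7 φ(i/16)`, `i = 48, ..., 112` -/
def phiT : List ℕ := [1881161, 1648979, 1445857, 1267899, 1111793, 974716, 854249, 748314, 655114, 573097, 500913,
  437386, 381492, 332332, 289119, 251160, 217846, 188640, 163066, 140705, 121183, 104170, 89373, 76530, 65408,
  55801, 47524, 40412, 34317, 29108, 24668, 20891, 17684, 14962, 12653, 10695, 9035, 7627, 6435, 5426, 4572, 3850,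
  3240, 2725, 2292, 1926, 1619, 1361, 1144, 962, 810, 682, 576, 487, 412, 351, 299, 256, 250, 250, 250, 250, 250,
  250, 250]

/-- `10^7 A`: `F(s) = A/s` for `s < 3` -/
def AAn : ℕ := 35647947

/-- the constant `A` (slightly more than `2 e^γ`) -/
noncomputable def AA : ℝ := (AAn : ℝ) / 10 ^ 7

/-- `10^7` times an upper bound for `F(i/16)` -/
def Ftn (i : ℕ) : ℕ := if i ≤ 48 then (16 * AAn + (i - 1)) / i else 10 ^ 7 + phiT.getD (i - 48) 0

/-- `10^7` times a lower bound for `f(i/16)` -/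
def ftn (i : ℕ) : ℕ := if i ≤ 32 then 0 else 10 ^ 7 - psiT.getD (i - 32) 0

/-- `10^6` times an upper bound for `(1/3) log((j+1)/j)` -/
def kpn (j : ℕ) : ℕ := (2 * j + 1) * 10 ^ 6 / (6 * j * (j + 1)) + 1

/-- `10^6` times a lower bound for `(1/3) log((j+1)/j)` -/
def kmn (j : ℕ) : ℕ := 2 * 10 ^ 6 / (3 * (2 * j + 1))

/-- the pairs of cells for which the second step of Buchstab's identity is used: level after both primes at least `33`,
and at least `1` after a third one -/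
def okp (a b : ℕ) : Bool := decide (a + b ≤ 65) && decide (a + 2 * b ≤ 96)

/-- `2 * 10^25` times the gain of the pair of cells `(a, b)` -/
def br (a b : ℕ) : ℤ :=
  2 * 10 ^ 6 * (kmn a : ℤ) * kmn b * ftn (98 - a - b) -
    (kpn a : ℤ) * kpn b * (2 * (∑ l ∈ Ico 16 b, (kpn l : ℤ) * Ftn (97 - a - b - l)) + (kpn b : ℤ) * Ftn (97 - a - 2 * b))

/-- the gain if it is used -/
def pb (a b : ℕ) : ℤ := if okp a b && decide (0 < br a b) then br a b else 0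

/-- `2 * 10^25` times the main part -/
def tauM : ℤ :=
  2 * 10 ^ 18 * (ftn 100 : ℤ) - 2 * 10 ^ 12 * (∑ j ∈ Ico 16 65, (kpn j : ℤ) * Ftn (99 - j)) +
    ∑ i ∈ Ico 16 65, ∑ j ∈ Ico 16 i, pb i j

/-- `2 * 10^25` times the upper bound for the surviving `n` divisible by a prime of the cell `a` -/
def tauH (a : ℕ) : ℤ := 2 * 10 ^ 12 * (kpn a : ℤ) * Ftn (99 - a) - ∑ j ∈ Ico 16 65, pb a j

/-- `4 * 10^25 τ` -/
def tauZ : ℤ := 2 * tauM - (∑ a ∈ Ico 16 46, tauH a) - ∑ a ∈ Ico 65 76, tauH a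

/-! ## Types of bad numbers -/

/-- class of the zone: `S, G1, G2, C1, C2` -/
def zc : Fin 5 → ZMod 3 := ![0, 1, 1, 2, 2]
/-- lower end of the zone, in `1/400` -/
def zlo : Fin 5 → ℕ := ![32, 32, 92, 130, 152]
/-- upper end of the zone, `400` = no upper end -/
def zhi : Fin 5 → ℕ := ![400, 92, 400, 152, 400]

/-- the prime `p` belongs to the zone `z` -/
def inz (S : Dat) (x : ℕ) (z : Fin 5) (p : ℕ) : Prop :=
  S.c p = zc z ∧ (x : ℝ) ^ ((zlo z : ℝ) / 400) ≤ (p : ℝ) ∧ (zhi z = 400 ∨ (p : ℝ) < (x : ℝ) ^ ((zhi z : ℝ) / 400))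

open scoped Classical in
/-- `n` is squarefree, all its prime factors lie in zones, `k z` of them in the zone `z` -/
def typ (S : Dat) (x n : ℕ) (k : Fin 5 → ℕ) : Prop :=
  Squarefree n ∧ (∀ p ∈ n.primeFactors, ∃ z, inz S x z p) ∧
    ∀ z, (n.primeFactors.filter fun p => inz S x z p).card = k z

/-- the mass polynomial of a zone -/
noncomputable def Mz (z : Fin 5) : Polynomial ℝ :=
  ∑ j ∈ Ico (zlo z) (zhi z), Polynomial.C ((1 / 3) * Real.log (((j : ℝ) + 1) / j)) * Polynomial.X ^ j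

/-- the type `k` with one prime of the zone `a` removed -/
def kd (k : Fin 5 → ℕ) (a z : Fin 5) : ℕ := k z - if z = a then 1 else 0

/-- the expected (relative) number of `n` of type `k` -/
noncomputable def vl (k : Fin 5 → ℕ) : ℝ :=
  ∑ a : Fin 5, if k a = 0 then 0 else
    (∑ N ∈ (range 400).filter (fun N => N + zlo a ≤ 400 ∧ 400 ≤ N + (∑ z, k z - 1) + zhi a),
      (∏ z, Mz z ^ kd k a z).coeff N) / ∏ z, ((kd k a z).factorial : ℝ)

/-- the bad types `(kS, kG1, kG2, kC1, kC2)` of positive weight -/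
def badL : List (ℕ × ℕ × ℕ × ℕ × ℕ) :=
  [(0,0,0,1,1), (1,0,0,1,1), (2,0,0,1,1), (3,0,0,1,1), (0,0,0,0,2), (1,0,0,0,2), (2,0,0,0,2), (3,0,0,0,2),
   (0,1,1,0,1), (1,1,1,0,1), (2,1,1,0,1), (3,1,1,0,1), (0,0,2,1,0), (1,0,2,1,0), (2,0,2,1,0), (0,0,2,0,1),
   (1,0,2,0,1), (2,0,2,0,1), (0,1,3,0,0), (1,1,3,0,0), (2,1,3,0,0), (0,0,4,0,0), (1,0,4,0,0), (3,1,0,0,0),
   (4,1,0,0,0), (5,1,0,0,0), (6,1,0,0,0), (7,1,0,0,0), (8,1,0,0,0), (9,1,0,0,0), (10,1,0,0,0), (11,1,0,0,0),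
   (3,0,1,0,0), (4,0,1,0,0), (5,0,1,0,0), (6,0,1,0,0), (7,0,1,0,0), (8,0,1,0,0), (9,0,1,0,0)]

/-- the type as a function -/
def ty (k : ℕ × ℕ × ℕ × ℕ × ℕ) : Fin 5 → ℕ := ![k.1, k.2.1, k.2.2.1, k.2.2.2.1, k.2.2.2.2]

/-- the weight of the type -/
noncomputable def wty (k : ℕ × ℕ × ℕ × ℕ × ℕ) : ℝ := 1 - (1 / 2) * ((k.2.1 : ℝ) + (k.2.2.2.1 : ℝ))

/-! ## The convolution sequences (switching) -/

open scoped Classical in
/-- the pairs `(m', P)` of the box `(M, (1+η)M] × (..]` with `m' P ≡ a + q0 d mod d m` -/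
noncomputable def Bx (S : Dat) (x : ℕ) (M η : ℝ) : Finset (ℕ × ℕ) :=
  ((Ioc ⌊M⌋₊ ⌊(1 + η) * M⌋₊) ×ˢ
    (Ioc ⌊(1 - η) * ((S.d : ℝ) * x) / ((1 + η) * M)⌋₊ ⌊2 * (1 + η) * ((S.d : ℝ) * x) / M⌋₊)).filter
    fun y => ((y.1 * y.2 : ℕ) : ℤ) ≡ S.a + S.q0 * S.d [ZMOD S.d * S.m]

/-- the value `k = (m' P - a)/d` -/
def nq (S : Dat) (y : ℕ × ℕ) : ℕ := ((((y.1 * y.2 : ℕ) : ℤ) - S.a) / S.d).toNat

/-- index of the cell (width `1/400`) of `p` -/
noncomputable def ix (x p : ℕ) : ℕ := ⌊400 * Real.log p / Real.log x⌋₊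

open scoped Classical in
/-- number of ordered tuples of primes from the zones of the list, product `m'`, sum of the indices `N` -/
noncomputable def al (S : Dat) (x : ℕ) : List (Fin 5) → ℕ → ℕ → ℝ
  | [], N, m' => if N = 0 ∧ m' = 1 then 1 else 0
  | z :: zs, N, m' => ∑ p ∈ m'.primeFactors.filter (fun p => inz S x z p),
      if ix x p ≤ N then al S x zs (N - ix x p) (m' / p) else 0

end Pool.Agent.CC
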