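import Pool.Agent.CC.N2C

/-! CC, part L: the numerical value of the bad types. -/

set_option autoImplicit false

namespace Pool.Agent.CC

open Finset

/-- `∑ (weight) vl(type) (4/25) A ≤ 0.2991` (numerically 0.299027 with the upper bounds for the logarithms). -/
theorem n2 : (badL.map fun k => wty k * vl (ty k)).sum * (4 / 25 * AA) ≤ 2991 / 10000 := N2.total

end Pool.Agent.CC
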