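import Pool.Agent.CC.TauA
import Pool.Agent.CC.AL
import Pool.Agent.CC.N2

/-! CC, part M: the theorem for the normalised data. -/

set_option autoImplicit false

namespace Pool.Agent.CC

open Finset

private theorem SQS_ev (A B θ : ℝ) (hB : 0 < B) (hθ : θ < 1) :
    ∃ x0 : ℕ, ∀ x : ℕ, x0 ≤ x → A * (x : ℝ) ^ θ * (Real.log x) ^ 2 ≤ B * x := by
  have h1 : (fun x : ℝ => (Real.log x) ^ (2 : ℝ)) =o[Filter.atTop] fun x => x ^ (1 - θ) :=
    isLittleO_log_rpow_rpow_atTop 2 (by linarith)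
  have h2 := h1.bound (c := B / (|A| + 1)) (by positivity)
  have h3 := (tendsto_natCast_atTop_atTop (R := ℝ)).eventually (h2.and (Filter.eventually_ge_atTop 1))
  obtain ⟨x0, hx0⟩ := Filter.eventually_atTop.1 h3
  refine ⟨x0, fun x hx => ?_⟩
  obtain ⟨h4, h5⟩ := hx0 x hx
  have hx0' : (0 : ℝ) < x := by linarith
  have h6 : 0 ≤ Real.log x := Real.log_nonneg h5
  have h7 : (Real.log x) ^ 2 ≤ B / (|A| + 1) * (x : ℝ) ^ (1 - θ) := by
    rw [Real.norm_of_nonneg (by positivity), Real.norm_of_nonneg (by positivity)] at h4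
    have h8 : (Real.log x) ^ (2 : ℝ) = (Real.log x) ^ 2 := by
      rw [← Real.rpow_natCast]; norm_num
    rwa [h8] at h4
  have h9 : (x : ℝ) ^ θ * (x : ℝ) ^ (1 - θ) = x := by
    rw [← Real.rpow_add hx0']; simp
  have h10 : A ≤ |A| + 1 := by linarith [le_abs_self A]
  calc A * (x : ℝ) ^ θ * (Real.log x) ^ 2 ≤ (|A| + 1) * (x : ℝ) ^ θ * (Real.log x) ^ 2 := by
        gcongr
    _ ≤ (|A| + 1) * (x : ℝ) ^ θ * (B / (|A| + 1) * (x : ℝ) ^ (1 - θ)) := by gcongr
    _ = B * ((x : ℝ) ^ θ * (x : ℝ) ^ (1 - θ)) := by field_simp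
    _ = B * x := by rw [h9]

/-- from a bound `A x^θ log x` to `ε U` -/
private theorem SQS_fin (S : Dat) (ε : ℝ) (hε : 0 < ε) (A θ : ℝ) (hθ : θ < 1) :
    ∃ x0 : ℕ, ∀ x : ℕ, x0 ≤ x → 3 ≤ x ∧ A * (x : ℝ) ^ θ * Real.log x ≤ ε * S.U x := by
  obtain ⟨c, C, hc, hC, x1, hx1⟩ := ulow S
  obtain ⟨x2, hx2⟩ := SQS_ev A (ε * c) θ (by positivity) hθ
  refine ⟨max (max x1 x2) 3, fun x hx => ⟨le_trans (le_max_right _ _) hx, ?_⟩⟩
  have h1 := (hx1 x (le_trans (le_trans (le_max_left _ _) (le_max_left _ _)) hx)).1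
  have h2 := hx2 x (le_trans (le_trans (le_max_right _ _) (le_max_left _ _)) hx)
  have h3 : 3 ≤ x := le_trans (le_max_right _ _) hx
  have h4 : (3 : ℝ) ≤ x := by exact_mod_cast h3
  have h5 : 0 < Real.log x := Real.log_pos (by linarith)
  calc A * (x : ℝ) ^ θ * Real.log x = (A * (x : ℝ) ^ θ * (Real.log x) ^ 2) / Real.log x := by
        field_simp
    _ ≤ (ε * c * x) / Real.log x := by gcongr
    _ = ε * (c * x / Real.log x) := by ring
    _ ≤ ε * S.U x := by gcongr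

private theorem SQS_count (s : Finset ℕ) (x r : ℕ) (hr : 0 < r) (hs : s ⊆ Ioc x (2 * x))
    (h : ∀ k ∈ s, ∀ k' ∈ s, k ≡ k' [MOD r]) : (s.card : ℝ) ≤ x / r + 1 := by
  rcases s.eq_empty_or_nonempty with rfl | ⟨k0, hk0⟩
  · simp only [card_empty, Nat.cast_zero]
    positivity
  · have h1 : s ⊆ (Ioc x (2 * x)).filter (fun k => k ≡ k0 [MOD r]) := by
      intro k hk
      exact mem_filter.2 ⟨hs hk, h k hk k0 hk0⟩
    have h2 := card_le_card h1
    have h3 := Nat.Ioc_filter_modEq_card x (2 * x) hr k0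
    have h4 : ((#((Ioc x (2 * x)).filter (fun k => k ≡ k0 [MOD r])) : ℤ) : ℚ) ≤ (x : ℚ) / r + 1 := by
      rw [h3]
      have h5 : (⌊(((2 * x : ℕ) : ℚ) - k0) / (r : ℚ)⌋ : ℚ) ≤ (((2 * x : ℕ) : ℚ) - k0) / (r : ℚ) :=
        Int.floor_le _
      have h6 : ((x : ℚ) - k0) / (r : ℚ) - 1 < (⌊((x : ℚ) - k0) / (r : ℚ)⌋ : ℚ) := by
        have := Int.lt_floor_add_one (((x : ℚ) - k0) / (r : ℚ))
        linarith
      have hr' : (0 : ℚ) < r := by exact_mod_cast hr
      have h7 : (((2 * x : ℕ) : ℚ) - k0) / (r : ℚ) - ((x : ℚ) - k0) / (r : ℚ) = (x : ℚ) / r := by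
        push_cast
        field_simp
        ring
      push_cast
      apply max_le
      · push_cast at h5 h7
        linarith
      · positivity
    have h8 : (s.card : ℚ) ≤ (x : ℚ) / r + 1 := by
      refine le_trans ?_ h4
      exact_mod_cast h2
    have h9 : ((s.card : ℚ) : ℝ) ≤ (((x : ℚ) / r + 1 : ℚ) : ℝ) := by exact_mod_cast h8
    push_cast at h9
    exact h9

private theorem SQS_log {x k : ℕ} (h3 : 3 ≤ x) (hk : k ∈ Ioc x (2 * x)) :
    vm k ≤ 2 * Real.log x := by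
  have hx : (3 : ℝ) ≤ x := by exact_mod_cast h3
  have hk' := mem_Ioc.1 hk
  have h1 : (k : ℝ) ≤ 2 * x := by exact_mod_cast hk'.2
  have h0 : (0 : ℝ) < k := by
    have : 0 < k := by omega
    exact_mod_cast this
  calc vm k ≤ Real.log k := ArithmeticFunction.vonMangoldt_le_log
    _ ≤ Real.log ((x : ℝ) ^ 2) := by
        apply Real.log_le_log h0
        nlinarith
    _ = 2 * Real.log x := by rw [Real.log_pow]; norm_num

private theorem SQS_vm (k : ℕ) : 0 ≤ vm k := ArithmeticFunction.vonMangoldt_nonneg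

open scoped Classical in
/-- MODULE SQS.  The `k` for which `n = a + k d` is divisible by the square of a prime `p ≥ x^(2/25)`:
`∑ Λ(k) ≤ log(2x) ∑_{x^(2/25) ≤ p ≤ √(3dx)} (x/p^2 + 1) ≤ log(2x)(2 x^(1 - 2/25) + √(3dx) + ..) ≤ ε U` (for `p ∤ d` the `k` with
`p^2 ∣ a + k d` form one class mod `p^2`; `p ∣ d` is impossible for large `x`; `ulow`). -/
theorem sqs (S : Dat) (ε : ℝ) (hε : 0 < ε) : ∃ x0 : ℕ, ∀ x : ℕ, x0 ≤ x →
    ∑ k ∈ S.I x, (if ∃ p : ℕ, p.Prime ∧ (x : ℝ) ^ ((16 : ℝ) / 200) ≤ (p : ℝ) ∧ p ^ 2 ∣ S.nv k then vm k else 0) ≤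
      ε * S.U x := by
  obtain ⟨x1, hx1⟩ := SQS_fin S ε hε (2 * (2 + Real.sqrt (3 * S.d))) ((23 : ℝ) / 25) (by norm_num)
  obtain ⟨ha0, hm2, hb1, hb2⟩ := dat_basic S
  refine ⟨max x1 (2 * S.a.natAbs + 2), fun x hx => ?_⟩
  obtain ⟨h3, h4⟩ := hx1 x (le_trans (le_max_left _ _) hx)
  have h5 := hb2 x (le_trans (le_max_right _ _) hx)
  refine le_trans ?_ h4
  have hx3 : (3 : ℝ) ≤ x := by exact_mod_cast h3
  have hx0 : (0 : ℝ) < x := by linarith
  have hlog : 0 < Real.log x := Real.log_pos (by linarith)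
  have hd1 : (1 : ℝ) ≤ S.d := by exact_mod_cast S.hd
  set Z : ℝ := (x : ℝ) ^ ((16 : ℝ) / 200) with hZ
  have hZ1 : 1 ≤ Z := Real.one_le_rpow (by linarith) (by norm_num)
  set Y : ℝ := Real.sqrt (3 * S.d * x) with hY
  set B : Finset ℕ := (S.I x).filter (fun k => ∃ p : ℕ, p.Prime ∧ Z ≤ (p : ℝ) ∧ p ^ 2 ∣ S.nv k)
    with hB
  set P : Finset ℕ := (Ioo (⌈Z⌉₊ - 1) (⌊Y⌋₊ + 1)).filter Nat.Prime with hP
  have hBP : B ⊆ P.biUnion (fun p => (S.I x).filter (fun k => p ^ 2 ∣ S.nv k)) := by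
    intro k hk
    obtain ⟨hkI, p, hp, hZp, hpk⟩ := mem_filter.1 hk
    obtain ⟨g1, g2, g3, g4⟩ := h5 k hkI
    have h6 : (p : ℝ) ^ 2 ≤ 3 * S.d * x := by
      refine le_trans ?_ g4
      exact_mod_cast Nat.le_of_dvd g2 hpk
    have h7 : (p : ℝ) ≤ Y := Real.le_sqrt_of_sq_le h6
    refine mem_biUnion.2 ⟨p, mem_filter.2 ⟨mem_Ioo.2 ⟨?_, ?_⟩, hp⟩, mem_filter.2 ⟨hkI, hpk⟩⟩
    · have h8 : ⌈Z⌉₊ ≤ p := Nat.ceil_le.2 hZp
      have h9 : 0 < ⌈Z⌉₊ := Nat.ceil_pos.2 (by linarith)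
      omega
    · exact Nat.lt_succ_of_le (Nat.le_floor h7)
  have hcard : ∀ p ∈ P, (((S.I x).filter (fun k => p ^ 2 ∣ S.nv k)).card : ℝ) ≤ x / ((p : ℝ) ^ 2) + 1 := by
    intro p hp
    have hpp : p.Prime := (mem_filter.1 hp).2
    have h6 := SQS_count ((S.I x).filter (fun k => p ^ 2 ∣ S.nv k)) x (p ^ 2) (pow_pos hpp.pos 2)
      (fun k hk => (mem_filter.1 (mem_filter.1 hk).1).1) (by
        intro k hk k' hk'
        obtain ⟨hkI, hpk⟩ := mem_filter.1 hk
        obtain ⟨hkI', hpk'⟩ := mem_filter.1 hk'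
        have e1 := (hb1 k (mem_filter.1 hkI).2 (h5 k hkI).1).1
        have e2 := (hb1 k' (mem_filter.1 hkI').2 (h5 k' hkI').1).1
        have e3 : ((p ^ 2 : ℕ) : ℤ) ∣ S.a + k * S.d := by
          rw [← e1]; exact_mod_cast hpk
        have e4 : ((p ^ 2 : ℕ) : ℤ) ∣ S.a + k' * S.d := by
          rw [← e2]; exact_mod_cast hpk'
        have e5 : ((p ^ 2 : ℕ) : ℤ) ∣ ((k' : ℤ) - k) * S.d := by
          have := dvd_sub e4 e3
          have e6 : S.a + k' * S.d - (S.a + k * S.d) = ((k' : ℤ) - k) * S.d := by ring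
          rwa [e6] at this
        have hpd : IsCoprime ((p ^ 2 : ℕ) : ℤ) S.d := by
          push_cast
          apply IsCoprime.pow_left
          have hpI : Prime (p : ℤ) := Nat.prime_iff_prime_int.1 hpp
          rw [Prime.coprime_iff_not_dvd hpI]
          intro hdv
          have e7 : (p : ℤ) ∣ S.a + k * S.d := dvd_trans (by
            push_cast
            exact dvd_pow_self _ (by norm_num)) e3
          have e8 : (p : ℤ) ∣ S.a := (dvd_add_left (dvd_mul_of_dvd_right hdv _)).1 e7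
          exact hpI.not_isUnit (S.had.isUnit_of_dvd' e8 hdv)
        have e9 : ((p ^ 2 : ℕ) : ℤ) ∣ (k' : ℤ) - k := hpd.dvd_of_dvd_mul_right e5
        exact (Nat.modEq_iff_dvd).2 e9)
    push_cast at h6
    exact h6
  have hBc : (B.card : ℝ) ≤ (2 + Real.sqrt (3 * S.d)) * (x : ℝ) ^ ((23 : ℝ) / 25) := by
    have h6 : (B.card : ℝ) ≤ ∑ p ∈ P, ((x : ℝ) / ((p : ℝ) ^ 2) + 1) := by
      have h7 : B.card ≤ ∑ p ∈ P, ((S.I x).filter (fun k => p ^ 2 ∣ S.nv k)).card :=
        le_trans (card_le_card hBP) card_biUnion_le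
      calc (B.card : ℝ) ≤ ((∑ p ∈ P, ((S.I x).filter (fun k => p ^ 2 ∣ S.nv k)).card : ℕ) : ℝ) := by
            exact_mod_cast h7
        _ = ∑ p ∈ P, (((S.I x).filter (fun k => p ^ 2 ∣ S.nv k)).card : ℝ) := by push_cast; rfl
        _ ≤ _ := sum_le_sum hcard
    rw [sum_add_distrib] at h6
    have h8 : ∑ p ∈ P, (x : ℝ) / ((p : ℝ) ^ 2) ≤ 2 * (x : ℝ) ^ ((23 : ℝ) / 25) := by
      have h9 : ∑ p ∈ P, (x : ℝ) / ((p : ℝ) ^ 2) ≤
          x * ∑ i ∈ Ioo (⌈Z⌉₊ - 1) (⌊Y⌋₊ + 1), ((i : ℝ) ^ 2)⁻¹ := by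
        rw [mul_sum]
        refine le_trans (sum_le_sum_of_subset_of_nonneg (filter_subset _ _) ?_) (le_of_eq ?_)
        · intro i _ _; positivity
        · exact sum_congr rfl fun i _ => div_eq_mul_inv _ _
      have h10 := sum_Ioo_inv_sq_le (α := ℝ) (⌈Z⌉₊ - 1) (⌊Y⌋₊ + 1)
      have h11 : 0 < ⌈Z⌉₊ := Nat.ceil_pos.2 (by linarith)
      have h12 : ((⌈Z⌉₊ - 1 : ℕ) : ℝ) + 1 = ⌈Z⌉₊ := by
        rw [Nat.cast_sub h11]; push_cast; ring
      rw [h12] at h10
      have h13 : (2 : ℝ) / ⌈Z⌉₊ ≤ 2 / Z := by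
        apply div_le_div_of_nonneg_left (by norm_num) (by linarith) (Nat.le_ceil Z)
      have h14 : (x : ℝ) * (2 / Z) = 2 * (x : ℝ) ^ ((23 : ℝ) / 25) := by
        have h15 : (x : ℝ) ^ ((23 : ℝ) / 25) * Z = x := by
          rw [hZ, ← Real.rpow_add hx0]; norm_num
        rw [mul_div_assoc']
        rw [div_eq_iff (by linarith)]
        rw [mul_assoc, h15]; ring
      calc _ ≤ _ := h9
        _ ≤ x * (2 / Z) := by
            apply mul_le_mul_of_nonneg_left (le_trans h10 h13) hx0.le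
        _ = _ := h14
    have h16 : ∑ p ∈ P, (1 : ℝ) ≤ Real.sqrt (3 * S.d) * (x : ℝ) ^ ((23 : ℝ) / 25) := by
      rw [sum_const, nsmul_eq_mul, mul_one]
      have h17 : P.card ≤ ⌊Y⌋₊ := by
        refine le_trans (card_filter_le _ _) ?_
        rw [Nat.card_Ioo]
        omega
      have h18 : Y = Real.sqrt (3 * S.d) * Real.sqrt x := by
        rw [hY, Real.sqrt_mul (by positivity)]
      calc (P.card : ℝ) ≤ (⌊Y⌋₊ : ℝ) := by exact_mod_cast h17
        _ ≤ Y := Nat.floor_le (Real.sqrt_nonneg _)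
        _ = Real.sqrt (3 * S.d) * (x : ℝ) ^ ((1 : ℝ) / 2) := by rw [h18, Real.sqrt_eq_rpow (x : ℝ)]
        _ ≤ _ := by
          apply mul_le_mul_of_nonneg_left _ (Real.sqrt_nonneg _)
          exact Real.rpow_le_rpow_of_exponent_le (by linarith) (by norm_num)
    calc (B.card : ℝ) ≤ _ := h6
      _ ≤ 2 * (x : ℝ) ^ ((23 : ℝ) / 25) + Real.sqrt (3 * S.d) * (x : ℝ) ^ ((23 : ℝ) / 25) :=
          add_le_add h8 h16
      _ = _ := by ring
  rw [← sum_filter]
  calc ∑ k ∈ B, vm k ≤ ∑ k ∈ B, 2 * Real.log x :=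
        sum_le_sum fun k hk => SQS_log h3 (mem_filter.1 (mem_filter.1 hk).1).1
    _ = (B.card : ℝ) * (2 * Real.log x) := by rw [sum_const, nsmul_eq_mul]
    _ ≤ ((2 + Real.sqrt (3 * S.d)) * (x : ℝ) ^ ((23 : ℝ) / 25)) * (2 * Real.log x) := by
        gcongr
    _ = _ := by ring

/-- MODULE PPS.  The prime powers: `∑_{x < k ≤ 2x, k not prime} Λ(k) ≤ C √x log x ≤ ε U`. -/
theorem pps (S : Dat) (ε : ℝ) (hε : 0 < ε) : ∃ x0 : ℕ, ∀ x : ℕ, x0 ≤ x →
    ∑ k ∈ S.I x, (if k.Prime then 0 else vm k) ≤ ε * S.U x := by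
  obtain ⟨x1, hx1⟩ := SQS_fin S ε hε 8 ((1 : ℝ) / 2) (by norm_num)
  refine ⟨x1, fun x hx => ?_⟩
  obtain ⟨h3, h4⟩ := hx1 x hx
  refine le_trans ?_ h4
  have hx3 : (3 : ℝ) ≤ x := by exact_mod_cast h3
  have hx0 : (0 : ℝ) < x := by linarith
  have hlog : 0 < Real.log x := Real.log_pos (by linarith)
  have h5 : ∑ k ∈ S.I x, (if k.Prime then 0 else vm k) ≤
      Chebyshev.psi ((2 * x : ℕ) : ℝ) - Chebyshev.theta ((2 * x : ℕ) : ℝ) := by
    rw [Chebyshev.psi_sub_theta_eq_sum_not_prime, Nat.floor_natCast, sum_filter]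
    have h6 : ∀ k : ℕ, (if k.Prime then 0 else vm k) = if ¬ k.Prime then vm k else 0 := by
      intro k
      by_cases hk : k.Prime <;> simp [hk]
    rw [sum_congr rfl (fun k _ => h6 k)]
    refine sum_le_sum_of_subset_of_nonneg ?_ ?_
    · intro k hk
      have hk1 := mem_Ioc.1 (mem_filter.1 hk).1
      exact mem_Ioc.2 ⟨by omega, hk1.2⟩
    · intro k _ _
      split_ifs <;> first | exact SQS_vm k | exact le_refl _
  refine le_trans h5 ?_
  have h7 := Chebyshev.psi_sub_theta_le (x := ((2 * x : ℕ) : ℝ)) (by push_cast; linarith)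
  refine le_trans h7 ?_
  push_cast
  have h8 : Real.sqrt (2 * x) ≤ 2 * (x : ℝ) ^ ((1 : ℝ) / 2) := by
    rw [← Real.sqrt_eq_rpow, Real.sqrt_le_left (by positivity), mul_pow, Real.sq_sqrt hx0.le]
    linarith
  have h9 : Real.log (2 * x) ≤ 2 * Real.log x := by
    have h10 : 2 * Real.log x = Real.log ((x : ℝ) ^ 2) := by rw [Real.log_pow]; norm_num
    rw [h10]
    apply Real.log_le_log (by positivity)
    nlinarith
  have h11 : 0 ≤ Real.log (2 * x) := Real.log_nonneg (by linarith)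
  calc 2 * Real.sqrt (2 * x) * Real.log (2 * x)
      ≤ 2 * (2 * (x : ℝ) ^ ((1 : ℝ) / 2)) * (2 * Real.log x) := by gcongr
    _ = _ := by ring

private def typlB (k0 k1 k2 k3 k4 : ℕ) : Bool :=
  !(decide (32 * k0 + 32 * k1 + 92 * k2 + 130 * k3 + 152 * k4 ≤ 400) &&
    decide ((k1 + k2 + 2 * (k3 + k4)) % 3 = 1) && decide (k1 + k3 ≤ 1)) ||
    (decide ((k0, k1, k2, k3, k4) ∈ badL) || (decide (k0 + k1 + k2 ≤ 3) && decide (k1 + k2 = 1) && decide (k3 = 0) &&
      decide (k4 = 0)))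

private theorem typl_all : ((List.range 13).all fun k0 => (List.range 2).all fun k1 => (List.range 5).all fun k2 =>
    (List.range 2).all fun k3 => (List.range 3).all fun k4 => typlB k0 k1 k2 k3 k4) = true := by
  decide +kernel

private theorem typl_aux (k0 k1 k2 k3 k4 : ℕ) (i0 : k0 < 13) (i1 : k1 < 2) (i2 : k2 < 5) (i3 : k3 < 2) (i4 : k4 < 3)
    (h1 : 32 * k0 + 32 * k1 + 92 * k2 + 130 * k3 + 152 * k4 ≤ 400)
    (h2 : (k1 + k2 + 2 * (k3 + k4)) % 3 = 1) (h3 : k1 + k3 ≤ 1) :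
    (k0, k1, k2, k3, k4) ∈ badL ∨ (k0 + k1 + k2 ≤ 3 ∧ k1 + k2 = 1 ∧ k3 = 0 ∧ k4 = 0) := by
  have h := typl_all
  simp only [List.all_eq_true, List.mem_range] at h
  have h5 := h k0 i0 k1 i1 k2 i2 k3 i3 k4 i4
  unfold typlB at h5
  simp only [Bool.or_eq_true, Bool.not_eq_true', Bool.and_eq_true, decide_eq_true_eq, Bool.and_eq_false_iff,
    decide_eq_false_iff_not] at h5
  rcases h5 with h5 | h5 | h5
  · exfalso
    rcases h5 with (h5 | h5) | h5
    · exact h5 h1
    · exact h5 h2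
    · exact h5 h3
  · exact Or.inl h5
  · exact Or.inr ⟨h5.1.1.1, h5.1.1.2, h5.1.2, h5.2⟩

/-- MODULE TYPL.  Combinatorics of the types (`omega` after case distinctions): sizes `32 k0 + 32 k1 + 92 k2 + 130 k3 + 152 k4 ≤
400`, class `k1 + k2 + 2 (k3 + k4) ≡ 1 mod 3`, weight positive (`k1 + k3 ≤ 1`); then the type is good or in `badL`. -/
theorem typl (t : ℕ × ℕ × ℕ × ℕ × ℕ)
    (h1 : 32 * t.1 + 32 * t.2.1 + 92 * t.2.2.1 + 130 * t.2.2.2.1 + 152 * t.2.2.2.2 ≤ 400)
    (h2 : (t.2.1 + t.2.2.1 + 2 * (t.2.2.2.1 + t.2.2.2.2)) % 3 = 1) (h3 : t.2.1 + t.2.2.2.1 ≤ 1) :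
    t ∈ badL ∨ (t.1 + t.2.1 + t.2.2.1 ≤ 3 ∧ t.2.1 + t.2.2.1 = 1 ∧ t.2.2.2.1 = 0 ∧ t.2.2.2.2 = 0) := by
  obtain ⟨k0, k1, k2, k3, k4⟩ := t
  simp only at h1 h2 h3
  exact typl_aux k0 k1 k2 k3 k4 (by omega) (by omega) (by omega) (by omega) (by omega) h1 h2 h3

open scoped Classical in
private theorem ty_zsum {M : Type*} [AddCommMonoid M] (P : Finset ℕ) (R : Fin 5 → ℕ → Prop)
    (h : ∀ p ∈ P, ∃ z, R z p ∧ ∀ z', R z' p → z' = z) (f : Fin 5 → ℕ → M) (g : ℕ → M)
    (hg : ∀ p ∈ P, ∀ z, R z p → f z p = g p) :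
    ∑ z, ∑ p ∈ P.filter (fun p => R z p), f z p = ∑ p ∈ P, g p := by
  have e : ∀ z, ∑ p ∈ P.filter (fun p => R z p), f z p = ∑ p ∈ P, if R z p then f z p else 0 := by
    intro z
    rw [Finset.sum_filter]
  rw [Finset.sum_congr rfl (fun z _ => e z), Finset.sum_comm]
  refine Finset.sum_congr rfl fun p hp => ?_
  obtain ⟨z, hz, hu⟩ := h p hp
  rw [Finset.sum_eq_single_of_mem z (Finset.mem_univ z)]
  · rw [if_pos hz, hg p hp z hz]
  · intro z' _ hz'
    exact if_neg fun h => hz' (hu z' h)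

private theorem ty_inz_unique (S : Dat) (x p : ℕ) (z z' : Fin 5) (h : inz S x z p) (h' : inz S x z' p) : z' = z := by
  obtain ⟨h1, h2, h3⟩ := h
  obtain ⟨h1', h2', h3'⟩ := h'
  fin_cases z <;> fin_cases z' <;>
    first
    | rfl
    | (exfalso
       simp [zc, zlo, zhi] at h1 h2 h3 h1' h2' h3'
       first
       | exact absurd (h1.symm.trans h1') (by decide)
       | linarith)

private theorem ty_rpow_eq (x : ℕ) (a b : ℝ) (h : a = b) : (x : ℝ) ^ a = (x : ℝ) ^ b := by rw [h]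

open scoped Classical in
private theorem ty_c_prod (S : Dat) (P : Finset ℕ) (hP : ∀ p ∈ P, p.Coprime S.m) :
    S.c (∏ p ∈ P, p) = ∑ p ∈ P, S.c p ∧ (∏ p ∈ P, p).Coprime S.m := by
  have h1 : S.c 1 = 0 := by
    have := S.hc1 1 1 (Nat.coprime_one_left S.m) (Nat.coprime_one_left S.m)
    rw [mul_one] at this
    exact left_eq_add.1 this
  induction P using Finset.induction_on with
  | empty => exact ⟨by simpa using h1, by simp⟩
  | insert p P hp ih =>
    have ih' := ih fun q hq => hP q (Finset.mem_insert_of_mem hq)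
    have hpc := hP p (Finset.mem_insert_self p P)
    rw [Finset.prod_insert hp, Finset.sum_insert hp]
    exact ⟨by rw [S.hc1 _ _ hpc ih'.2, ih'.1], Nat.Coprime.mul_left hpc ih'.2⟩

set_option maxHeartbeats 1600000 in
/-- MODULE TYPOF.  The type of a surviving squarefree `n`.
Proof: `x` large, `k ∈ S.I x`, `n = nv k` prime to `m` and `≤ 3 d x`.  Every prime `p ∣ n` is prime to `m` and
`≥ x^(16/200) = x^(32/400)`.  Class 0: zone 0.  Class 1: zone 1 if `p < x^(92/400)`, else zone 2.  Class 2: `p ≥ x^(65/200)`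
(otherwise `p` would be in `S.cell x 200 2 16 65`; `p ≤ x` there), zone 3 if `p < x^(152/400)`, else zone 4.
`t` = the numbers of primes in the zones.  `wt = wty t` since `S.half x p` holds exactly for the zones 1 and 3.  The product
of the lower ends of the zones is `≤ n ≤ 3 d x`, so `(32 t0 + ...)/400 ≤ 1 + log(3d)/log x`, which gives `≤ 400` for large
`x`.  Classes: `n` squarefree is the product of its prime factors, `c n = ∑ c p` (`hc1`) and `c n = 1` (`hc3`).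
Then TYPL (if `t.2.1 + t.2.2.2.1 ≥ 2` then `wty t ≤ 0`). -/
theorem typof (S : Dat) : ∃ x0 : ℕ, ∀ x : ℕ, x0 ≤ x → ∀ k ∈ S.I x, S.Surv x (S.nv k) → Squarefree (S.nv k) →
    ∃ t : ℕ × ℕ × ℕ × ℕ × ℕ, typ S x (S.nv k) (ty t) ∧ S.wt x (S.nv k) = wty t ∧
      (t ∈ badL ∨ wty t ≤ 0 ∨ (t.1 + t.2.1 + t.2.2.1 ≤ 3 ∧ t.2.1 + t.2.2.1 = 1 ∧ t.2.2.2.1 = 0 ∧ t.2.2.2.2 = 0)) := by
  classical
  obtain ⟨ha, h2m, hdat, hdat2⟩ := dat_basic S
  have hd1 : (1 : ℝ) ≤ S.d := by exact_mod_cast S.hd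
  -- x large
  obtain ⟨x1, hx1⟩ : ∃ x1 : ℕ, ∀ x : ℕ, x1 ≤ x → 400 * Real.log (3 * S.d) < Real.log x := by
    have := (Real.tendsto_log_atTop.comp tendsto_natCast_atTop_atTop).eventually_gt_atTop
      (400 * Real.log (3 * (S.d : ℝ)))
    obtain ⟨x1, hx1⟩ := Filter.eventually_atTop.1 this
    exact ⟨x1, fun x hx => hx1 x hx⟩
  refine ⟨max (max x1 3) (2 * S.a.natAbs + 2), fun x hx k hk hsv hsq => ?_⟩
  have hx1' := hx1 x ((le_max_left _ _).trans ((le_max_left _ _).trans hx))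
  have hx3 : 3 ≤ x := (le_max_right _ _).trans ((le_max_left _ _).trans hx)
  obtain ⟨hpos, hn1, hnlow, hnup⟩ := hdat2 x ((le_max_right _ _).trans hx) k hk
  have hkI : k ≡ S.q0 [MOD S.m] := by
    unfold Dat.I at hk
    exact (Finset.mem_filter.1 hk).2
  obtain ⟨hnv, hcop⟩ := hdat k hkI hpos
  set n := S.nv k with hn
  have hxR : (3 : ℝ) ≤ x := by exact_mod_cast hx3
  have hx0 : (0 : ℝ) < x := by linarith
  have hxge1 : (1 : ℝ) ≤ x := by linarith
  have hlx : 0 < Real.log x := Real.log_pos (by linarith)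
  have hn0 : n ≠ 0 := by omega
  -- primes of n
  have hpm : ∀ p ∈ n.primeFactors, p.Coprime S.m := fun p hp =>
    Nat.Coprime.coprime_dvd_left (Nat.dvd_of_mem_primeFactors hp) hcop
  have hpnm : ∀ p ∈ n.primeFactors, ¬ p ∣ S.m := fun p hp hd => by
    have hpp := Nat.prime_of_mem_primeFactors hp
    exact (hpp.coprime_iff_not_dvd.1 (hpm p hp)) hd
  have hge : ∀ p ∈ n.primeFactors, (x : ℝ) ^ ((16 : ℝ) / 200) ≤ (p : ℝ) := by
    intro p hp
    by_contra hlt
    rw [not_le] at hlt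
    refine hsv.1 p ?_ (Nat.dvd_of_mem_primeFactors hp)
    unfold pr
    rw [Finset.mem_filter, Finset.mem_range]
    exact ⟨Nat.lt_ceil.2 hlt, Nat.prime_of_mem_primeFactors hp, hpnm p hp, Nat.cast_nonneg p⟩
  have hex : ∀ p ∈ n.primeFactors, ∃ z, inz S x z p := by
    intro p hp
    have h1 := hge p hp
    have e16 : (x : ℝ) ^ ((16 : ℝ) / 200) = (x : ℝ) ^ ((32 : ℝ) / 400) := ty_rpow_eq x _ _ (by norm_num)
    have hc : S.c p = 0 ∨ S.c p = 1 ∨ S.c p = 2 := by
      have : ∀ a : ZMod 3, a = 0 ∨ a = 1 ∨ a = 2 := by decide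
      exact this _
    rcases hc with hc | hc | hc
    · refine ⟨0, hc, ?_, Or.inl rfl⟩
      simp only [zlo]
      rw [e16] at h1
      simpa using h1
    · by_cases h92 : (p : ℝ) < (x : ℝ) ^ ((92 : ℝ) / 400)
      · refine ⟨1, hc, ?_, Or.inr ?_⟩
        · rw [e16] at h1
          simpa [zlo] using h1
        · simpa [zhi] using h92
      · refine ⟨2, hc, ?_, Or.inl rfl⟩
        rw [not_lt] at h92
        simpa [zlo] using h92
    · have h130 : (x : ℝ) ^ ((130 : ℝ) / 400) ≤ (p : ℝ) := by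
        by_contra hlt
        rw [not_le] at hlt
        refine hsv.2 p ?_ (Nat.dvd_of_mem_primeFactors hp)
        unfold Dat.cell
        rw [Finset.mem_filter, Finset.mem_range]
        have hpx : (p : ℝ) < x := by
          refine hlt.trans_le ?_
          calc (x : ℝ) ^ ((130 : ℝ) / 400) ≤ (x : ℝ) ^ (1 : ℝ) :=
                Real.rpow_le_rpow_of_exponent_le hxge1 (by norm_num)
            _ = x := Real.rpow_one _
        have hpx' : p < x := by exact_mod_cast hpx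
        refine ⟨by omega, Nat.prime_of_mem_primeFactors hp, hpnm p hp, hc, ?_, ?_⟩
        · have : (x : ℝ) ^ (((16 : ℕ) : ℝ) / ((200 : ℕ) : ℝ)) = (x : ℝ) ^ ((16 : ℝ) / 200) := by norm_num
          rw [this]
          exact h1
        · have : (x : ℝ) ^ (((65 : ℕ) : ℝ) / ((200 : ℕ) : ℝ)) = (x : ℝ) ^ ((130 : ℝ) / 400) :=
            ty_rpow_eq x _ _ (by norm_num)
          rw [this]
          exact hlt
      by_cases h152 : (p : ℝ) < (x : ℝ) ^ ((152 : ℝ) / 400)
      · refine ⟨3, hc, ?_, Or.inr ?_⟩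
        · simpa [zlo] using h130
        · simpa [zhi] using h152
      · refine ⟨4, hc, ?_, Or.inl rfl⟩
        rw [not_lt] at h152
        simpa [zlo] using h152
  have hexu : ∀ p ∈ n.primeFactors, ∃ z, inz S x z p ∧ ∀ z', inz S x z' p → z' = z := by
    intro p hp
    obtain ⟨z, hz⟩ := hex p hp
    exact ⟨z, hz, fun z' hz' => ty_inz_unique S x p z z' hz hz'⟩
  set cnt : Fin 5 → ℕ := fun z => (n.primeFactors.filter fun p => inz S x z p).card with hcnt
  set t : ℕ × ℕ × ℕ × ℕ × ℕ := (cnt 0, cnt 1, cnt 2, cnt 3, cnt 4) with ht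
  have htyp : ∀ z, cnt z = ty t z := by
    intro z
    fin_cases z <;> rfl
  -- weight
  have hwt : S.wt x n = wty t := by
    unfold Dat.wt wty
    have h1 : (n.primeFactors.filter fun p => S.half x p) =
        (n.primeFactors.filter fun p => inz S x 1 p) ∪ (n.primeFactors.filter fun p => inz S x 3 p) := by
      ext p
      simp only [Finset.mem_filter, Finset.mem_union]
      have e1 : (x : ℝ) ^ ((65 : ℝ) / 200) = (x : ℝ) ^ ((130 : ℝ) / 400) := ty_rpow_eq x _ _ (by norm_num)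
      have e2 : (x : ℝ) ^ ((76 : ℝ) / 200) = (x : ℝ) ^ ((152 : ℝ) / 400) := ty_rpow_eq x _ _ (by norm_num)
      have e3 : (x : ℝ) ^ ((16 : ℝ) / 200) = (x : ℝ) ^ ((32 : ℝ) / 400) := ty_rpow_eq x _ _ (by norm_num)
      have e4 : (x : ℝ) ^ ((46 : ℝ) / 200) = (x : ℝ) ^ ((92 : ℝ) / 400) := ty_rpow_eq x _ _ (by norm_num)
      have i1 : inz S x 1 p ↔ S.c p = 1 ∧ (x : ℝ) ^ ((32 : ℝ) / 400) ≤ (p : ℝ) ∧ (p : ℝ) < (x : ℝ) ^ ((92 : ℝ) / 400) := by
        unfold inz
        simp [zc, zlo, zhi]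
      have i3 : inz S x 3 p ↔ S.c p = 2 ∧ (x : ℝ) ^ ((130 : ℝ) / 400) ≤ (p : ℝ) ∧ (p : ℝ) < (x : ℝ) ^ ((152 : ℝ) / 400) := by
        unfold inz
        simp [zc, zlo, zhi]
      rw [i1, i3]
      unfold Dat.half
      rw [e1, e2, e3, e4]
      tauto
    rw [h1, Finset.card_union_of_disjoint]
    · push_cast
      rfl
    · rw [Finset.disjoint_left]
      intro p hp hp'
      have := ty_inz_unique S x p 1 3 (Finset.mem_filter.1 hp).2 (Finset.mem_filter.1 hp').2
      exact absurd this (by decide)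
  have hnprod : ∏ p ∈ n.primeFactors, p = n := Nat.prod_primeFactors_of_squarefree hsq
  -- sizes
  have hsize : 32 * t.1 + 32 * t.2.1 + 92 * t.2.2.1 + 130 * t.2.2.2.1 + 152 * t.2.2.2.2 ≤ 400 := by
    have hle : ∑ z, (cnt z : ℝ) * ((zlo z : ℝ) / 400 * Real.log x) ≤ Real.log n := by
      have e1 : Real.log n = ∑ p ∈ n.primeFactors, Real.log p := by
        conv_lhs => rw [← hnprod]
        rw [Nat.cast_prod, Real.log_prod]
        intro p hp
        have := (Nat.prime_of_mem_primeFactors hp).pos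
        positivity
      rw [e1, ← ty_zsum n.primeFactors (fun z p => inz S x z p) hexu (fun _ p => Real.log p) (fun p => Real.log p)
        (fun _ _ _ _ => rfl)]
      refine Finset.sum_le_sum fun z _ => ?_
      have e2 : (cnt z : ℝ) * ((zlo z : ℝ) / 400 * Real.log x) =
          ∑ p ∈ n.primeFactors.filter (fun p => inz S x z p), ((zlo z : ℝ) / 400 * Real.log x) := by
        rw [Finset.sum_const, nsmul_eq_mul]
      rw [e2]
      refine Finset.sum_le_sum fun p hp => ?_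
      have h1 := (Finset.mem_filter.1 hp).2.2.1
      rw [← Real.log_rpow hx0]
      exact Real.log_le_log (Real.rpow_pos_of_pos hx0 _) h1
    have hup : Real.log n ≤ Real.log (3 * S.d) + Real.log x := by
      rw [← Real.log_mul (by positivity) (by positivity)]
      exact Real.log_le_log (by exact_mod_cast Nat.pos_of_ne_zero hn0) hnup
    rw [Fin.sum_univ_five] at hle
    simp only [zlo] at hle
    by_contra hcon
    rw [not_le] at hcon
    have hcon' : (401 : ℝ) ≤ 32 * (cnt 0 : ℝ) + 32 * (cnt 1 : ℝ) + 92 * (cnt 2 : ℝ) + 130 * (cnt 3 : ℝ) + 152 * (cnt 4 : ℝ) := by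
      have : 401 ≤ 32 * cnt 0 + 32 * cnt 1 + 92 * cnt 2 + 130 * cnt 3 + 152 * cnt 4 := hcon
      exact_mod_cast this
    have h3 : (32 * (cnt 0 : ℝ) + 32 * (cnt 1 : ℝ) + 92 * (cnt 2 : ℝ) + 130 * (cnt 3 : ℝ) + 152 * (cnt 4 : ℝ)) / 400
        * Real.log x ≤ Real.log (3 * S.d) + Real.log x := by
      refine le_trans (le_of_eq ?_) (hle.trans hup)
      simp
      ring
    have h4 : (401 : ℝ) / 400 * Real.log x ≤ Real.log (3 * S.d) + Real.log x := by
      refine le_trans ?_ h3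
      apply mul_le_mul_of_nonneg_right _ hlx.le
      linarith
    linarith
  -- classes
  have hclass : (t.2.1 + t.2.2.1 + 2 * (t.2.2.2.1 + t.2.2.2.2)) % 3 = 1 := by
    have h1 : S.c n = 1 := by
      have := S.hc3 k hkI hpos
      exact this
    have h2 : S.c n = ∑ p ∈ n.primeFactors, S.c p := by
      conv_lhs => rw [← hnprod]
      exact (ty_c_prod S n.primeFactors hpm).1
    rw [← ty_zsum n.primeFactors (fun z p => inz S x z p) hexu (fun z _ => zc z) (fun p => S.c p)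
        (fun p _ z hz => hz.1.symm)] at h2
    simp only [Finset.sum_const, Fin.sum_univ_five, nsmul_eq_mul] at h2
    have h3 : (((t.2.1 + t.2.2.1 + 2 * (t.2.2.2.1 + t.2.2.2.2) : ℕ) : ZMod 3)) = ((1 : ℕ) : ZMod 3) := by
      rw [Nat.cast_one, ← h1, h2]
      push_cast
      simp only [zc, ht, hcnt]
      simp
      ring
    have h4 := (ZMod.natCast_eq_natCast_iff _ _ _).1 h3
    rw [Nat.ModEq] at h4
    omega
  refine ⟨t, ⟨hsq, hex, fun z => htyp z⟩, hwt, ?_⟩
  by_cases h13 : t.2.1 + t.2.2.2.1 ≤ 1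
  · rcases typl t hsize hclass h13 with h | h
    · exact Or.inl h
    · exact Or.inr (Or.inr h)
  · right; left
    unfold wty
    have : (2 : ℝ) ≤ (t.2.1 : ℝ) + (t.2.2.2.1 : ℝ) := by
      have : 2 ≤ t.2.1 + t.2.2.2.1 := by omega
      exact_mod_cast this
    linarith

/-- `n` is squarefree with at most three prime factors, all `≥ x^(2/25)`, exactly one of them of a class `≠ 0` -/
def GoodN (S : Dat) (x n : ℕ) : Prop :=
  Squarefree n ∧ n.primeFactors.card ≤ 3 ∧ (∀ p ∈ n.primeFactors, (x : ℝ) ^ ((16 : ℝ) / 200) ≤ (p : ℝ)) ∧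
    ∃ p0 ∈ n.primeFactors, ∀ p ∈ n.primeFactors, S.c p = 0 ↔ p ≠ p0

open scoped Classical in
private theorem fin_good (S : Dat) (x n : ℕ) (hn : n.Coprime S.m) (hsv : S.Surv x n) (t : ℕ × ℕ × ℕ × ℕ × ℕ)
    (ht : typ S x n (ty t))
    (h : t.1 + t.2.1 + t.2.2.1 ≤ 3 ∧ t.2.1 + t.2.2.1 = 1 ∧ t.2.2.2.1 = 0 ∧ t.2.2.2.2 = 0) : GoodN S x n := by
  obtain ⟨hsq, hex, hcard⟩ := ht
  obtain ⟨g1, g2, g3, g4⟩ := h
  have c0 := hcard 0
  have c1 := hcard 1
  have c2 := hcard 2
  have c3 := hcard 3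
  have c4 := hcard 4
  simp only [ty, Matrix.cons_val] at c0 c1 c2 c3 c4
  rw [g3] at c3
  rw [g4] at c4
  rw [Finset.card_eq_zero] at c3 c4
  have hzone : ∀ p ∈ n.primeFactors, inz S x 0 p ∨ inz S x 1 p ∨ inz S x 2 p := by
    intro p hp
    obtain ⟨z, hz⟩ := hex p hp
    fin_cases z
    · exact Or.inl hz
    · exact Or.inr (Or.inl hz)
    · exact Or.inr (Or.inr hz)
    · have : p ∈ n.primeFactors.filter fun p => inz S x 3 p := Finset.mem_filter.2 ⟨hp, hz⟩
      rw [c3] at this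
      exact absurd this (Finset.notMem_empty p)
    · have : p ∈ n.primeFactors.filter fun p => inz S x 4 p := Finset.mem_filter.2 ⟨hp, hz⟩
      rw [c4] at this
      exact absurd this (Finset.notMem_empty p)
  have hcardle : n.primeFactors.card ≤ 3 := by
    have hsub : n.primeFactors ⊆ ((n.primeFactors.filter fun p => inz S x 0 p) ∪
        (n.primeFactors.filter fun p => inz S x 1 p)) ∪ (n.primeFactors.filter fun p => inz S x 2 p) := by
      intro p hp
      simp only [Finset.mem_union, Finset.mem_filter]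
      rcases hzone p hp with h | h | h
      · exact Or.inl (Or.inl ⟨hp, h⟩)
      · exact Or.inl (Or.inr ⟨hp, h⟩)
      · exact Or.inr ⟨hp, h⟩
    have h1 := Finset.card_le_card hsub
    have h2 := Finset.card_union_le ((n.primeFactors.filter fun p => inz S x 0 p) ∪
        (n.primeFactors.filter fun p => inz S x 1 p)) (n.primeFactors.filter fun p => inz S x 2 p)
    have h3 := Finset.card_union_le (n.primeFactors.filter fun p => inz S x 0 p)
        (n.primeFactors.filter fun p => inz S x 1 p)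
    omega
  have hge : ∀ p ∈ n.primeFactors, (x : ℝ) ^ ((16 : ℝ) / 200) ≤ (p : ℝ) := by
    intro p hp
    by_contra hlt
    rw [not_le] at hlt
    refine hsv.1 p ?_ (Nat.dvd_of_mem_primeFactors hp)
    unfold pr
    rw [Finset.mem_filter, Finset.mem_range]
    have hpp := Nat.prime_of_mem_primeFactors hp
    refine ⟨Nat.lt_ceil.2 hlt, hpp, fun hd => ?_, Nat.cast_nonneg p⟩
    exact (hpp.coprime_iff_not_dvd.1 (Nat.Coprime.coprime_dvd_left (Nat.dvd_of_mem_primeFactors hp) hn)) hd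
  refine ⟨hsq, hcardle, hge, ?_⟩
  -- the union of zones 1, 2 has exactly one element
  have hU : ∃ p0 ∈ n.primeFactors, (inz S x 1 p0 ∨ inz S x 2 p0) ∧
      ∀ p ∈ n.primeFactors, (inz S x 1 p ∨ inz S x 2 p) → p = p0 := by
    have hcase : (t.2.1 = 1 ∧ t.2.2.1 = 0) ∨ (t.2.1 = 0 ∧ t.2.2.1 = 1) := by omega
    rcases hcase with ⟨e1, e2⟩ | ⟨e1, e2⟩
    · rw [e1, Finset.card_eq_one] at c1
      rw [e2, Finset.card_eq_zero] at c2
      obtain ⟨p0, hp0⟩ := c1
      have hm : p0 ∈ n.primeFactors.filter fun p => inz S x 1 p := by rw [hp0]; exact Finset.mem_singleton_self p0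
      refine ⟨p0, (Finset.mem_filter.1 hm).1, Or.inl (Finset.mem_filter.1 hm).2, fun p hp hz => ?_⟩
      rcases hz with hz | hz
      · have : p ∈ n.primeFactors.filter fun p => inz S x 1 p := Finset.mem_filter.2 ⟨hp, hz⟩
        rw [hp0] at this
        exact Finset.mem_singleton.1 this
      · have : p ∈ n.primeFactors.filter fun p => inz S x 2 p := Finset.mem_filter.2 ⟨hp, hz⟩
        rw [c2] at this
        exact absurd this (Finset.notMem_empty p)
    · rw [e1, Finset.card_eq_zero] at c1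
      rw [e2, Finset.card_eq_one] at c2
      obtain ⟨p0, hp0⟩ := c2
      have hm : p0 ∈ n.primeFactors.filter fun p => inz S x 2 p := by rw [hp0]; exact Finset.mem_singleton_self p0
      refine ⟨p0, (Finset.mem_filter.1 hm).1, Or.inr (Finset.mem_filter.1 hm).2, fun p hp hz => ?_⟩
      rcases hz with hz | hz
      · have : p ∈ n.primeFactors.filter fun p => inz S x 1 p := Finset.mem_filter.2 ⟨hp, hz⟩
        rw [c1] at this
        exact absurd this (Finset.notMem_empty p)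
      · have : p ∈ n.primeFactors.filter fun p => inz S x 2 p := Finset.mem_filter.2 ⟨hp, hz⟩
        rw [hp0] at this
        exact Finset.mem_singleton.1 this
  obtain ⟨p0, hp0, hz0, hun⟩ := hU
  have hc0 : S.c p0 = 1 := by
    rcases hz0 with h | h
    · exact h.1
    · exact h.1
  refine ⟨p0, hp0, fun p hp => ⟨fun hc hpe => ?_, fun hne => ?_⟩⟩
  · rw [hpe, hc0] at hc
    exact absurd hc (by decide)
  · rcases hzone p hp with h | h | h
    · exact h.1
    · exact absurd (hun p hp (Or.inl h)) hne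
    · exact absurd (hun p hp (Or.inr h)) hne

private theorem fin_wty : ∀ t ∈ badL, 0 ≤ wty t ∧ wty t ≤ 1 ∧ 2 ≤ ∑ z, ty t z := by
  have h : (badL.all fun t => decide (t.2.1 + t.2.2.2.1 ≤ 2) && decide (2 ≤ t.1 + t.2.1 + t.2.2.1 + t.2.2.2.1 + t.2.2.2.2)) = true := by
    decide +kernel
  intro t ht
  rw [List.all_eq_true] at h
  have h1 := h t ht
  rw [Bool.and_eq_true, decide_eq_true_eq, decide_eq_true_eq] at h1
  have h2 : (t.2.1 : ℝ) + (t.2.2.2.1 : ℝ) ≤ 2 := by exact_mod_cast h1.1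
  have h3 : (0 : ℝ) ≤ (t.2.1 : ℝ) + (t.2.2.2.1 : ℝ) := by positivity
  refine ⟨?_, ?_, ?_⟩
  · unfold wty; linarith
  · unfold wty; linarith
  · rw [Fin.sum_univ_five]
    exact h1.2

open scoped Classical in
private theorem fin_point (S : Dat) (x k : ℕ) (hcop : (S.nv k).Coprime S.m) (hk1 : 1 ≤ k)
    (hty : S.Surv x (S.nv k) → Squarefree (S.nv k) →
      ∃ t : ℕ × ℕ × ℕ × ℕ × ℕ, typ S x (S.nv k) (ty t) ∧ S.wt x (S.nv k) = wty t ∧
        (t ∈ badL ∨ wty t ≤ 0 ∨ (t.1 + t.2.1 + t.2.2.1 ≤ 3 ∧ t.2.1 + t.2.2.1 = 1 ∧ t.2.2.2.1 = 0 ∧ t.2.2.2.2 = 0))) :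
    (if S.Surv x (S.nv k) then vm k * S.wt x (S.nv k) else 0) ≤
      (if k.Prime then 0 else vm k) +
      (if ∃ p : ℕ, p.Prime ∧ (x : ℝ) ^ ((16 : ℝ) / 200) ≤ (p : ℝ) ∧ p ^ 2 ∣ S.nv k then vm k else 0) +
      (if k.Prime ∧ GoodN S x (S.nv k) then Real.log k else 0) +
      (badL.map fun t => wty t * (if k.Prime ∧ typ S x (S.nv k) (ty t) then Real.log k else 0)).sum := by
  have hvm0 : 0 ≤ vm k := by unfold vm; exact ArithmeticFunction.vonMangoldt_nonneg
  have hlog0 : 0 ≤ Real.log k := Real.log_nonneg (by exact_mod_cast hk1)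
  have hwt1 : S.wt x (S.nv k) ≤ 1 := by
    unfold Dat.wt
    have : (0 : ℝ) ≤ (((S.nv k).primeFactors.filter fun p => S.half x p).card : ℝ) := Nat.cast_nonneg _
    linarith
  have p1 : (0 : ℝ) ≤ (if k.Prime then 0 else vm k) := by split_ifs <;> [exact le_rfl; exact hvm0]
  have p2 : (0 : ℝ) ≤ (if ∃ p : ℕ, p.Prime ∧ (x : ℝ) ^ ((16 : ℝ) / 200) ≤ (p : ℝ) ∧ p ^ 2 ∣ S.nv k then vm k else 0) := by
    split_ifs <;> [exact hvm0; exact le_rfl]
  have p3 : (0 : ℝ) ≤ (if k.Prime ∧ GoodN S x (S.nv k) then Real.log k else 0) := by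
    split_ifs <;> [exact hlog0; exact le_rfl]
  have p4' : ∀ t ∈ badL, 0 ≤ wty t * (if k.Prime ∧ typ S x (S.nv k) (ty t) then Real.log k else 0) := by
    intro t ht
    refine mul_nonneg (fin_wty t ht).1 ?_
    split_ifs <;> [exact hlog0; exact le_rfl]
  have p4 : 0 ≤ (badL.map fun t => wty t * (if k.Prime ∧ typ S x (S.nv k) (ty t) then Real.log k else 0)).sum := by
    apply List.sum_nonneg
    intro y hy
    rw [List.mem_map] at hy
    obtain ⟨t, ht, rfl⟩ := hy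
    exact p4' t ht
  by_cases hsv : S.Surv x (S.nv k)
  swap
  · rw [if_neg hsv]
    linarith
  rw [if_pos hsv]
  have hterm : vm k * S.wt x (S.nv k) ≤ vm k := by
    calc vm k * S.wt x (S.nv k) ≤ vm k * 1 := mul_le_mul_of_nonneg_left hwt1 hvm0
      _ = vm k := mul_one _
  by_cases hkp : k.Prime
  swap
  · have e1 : (if k.Prime then 0 else vm k) = vm k := if_neg hkp
    linarith
  by_cases hsq : Squarefree (S.nv k)
  swap
  · have hp : ∃ p : ℕ, p.Prime ∧ (x : ℝ) ^ ((16 : ℝ) / 200) ≤ (p : ℝ) ∧ p ^ 2 ∣ S.nv k := by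
      rw [Nat.squarefree_iff_prime_squarefree] at hsq
      push Not at hsq
      obtain ⟨p, hpp, hpd⟩ := hsq
      refine ⟨p, hpp, ?_, by rwa [pow_two]⟩
      by_contra hlt
      rw [not_le] at hlt
      have hpd' : p ∣ S.nv k := (Dvd.intro _ rfl).trans hpd
      refine hsv.1 p ?_ hpd'
      unfold pr
      rw [Finset.mem_filter, Finset.mem_range]
      refine ⟨Nat.lt_ceil.2 hlt, hpp, fun hd => ?_, Nat.cast_nonneg p⟩
      exact (hpp.coprime_iff_not_dvd.1 (Nat.Coprime.coprime_dvd_left hpd' hcop)) hd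
    have e2 : (if ∃ p : ℕ, p.Prime ∧ (x : ℝ) ^ ((16 : ℝ) / 200) ≤ (p : ℝ) ∧ p ^ 2 ∣ S.nv k then vm k else 0) = vm k :=
      if_pos hp
    linarith
  obtain ⟨t, ht, hwt, hc⟩ := hty hsv hsq
  have hvmlog : vm k = Real.log k := by
    unfold vm
    exact ArithmeticFunction.vonMangoldt_apply_prime hkp
  rw [hwt]
  rcases hc with hc | hc | hc
  · have h1 : vm k * wty t ≤
        (badL.map fun t => wty t * (if k.Prime ∧ typ S x (S.nv k) (ty t) then Real.log k else 0)).sum := by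
      have h2 : wty t * (if k.Prime ∧ typ S x (S.nv k) (ty t) then Real.log k else 0) ∈
          (badL.map fun t => wty t * (if k.Prime ∧ typ S x (S.nv k) (ty t) then Real.log k else 0)) :=
        List.mem_map.2 ⟨t, hc, rfl⟩
      have h3 := List.single_le_sum (l := badL.map fun t => wty t *
        (if k.Prime ∧ typ S x (S.nv k) (ty t) then Real.log k else 0)) (by
          intro y hy
          rw [List.mem_map] at hy
          obtain ⟨t, ht, rfl⟩ := hy
          exact p4' t ht) _ h2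
      rw [if_pos ⟨hkp, ht⟩] at h3
      rw [hvmlog, mul_comm]
      exact h3
    linarith
  · have h1 : vm k * wty t ≤ 0 := mul_nonpos_of_nonneg_of_nonpos hvm0 hc
    linarith
  · have hg := fin_good S x (S.nv k) hcop hsv t ht hc
    have e3 : (if k.Prime ∧ GoodN S x (S.nv k) then Real.log k else 0) = Real.log k := if_pos ⟨hkp, hg⟩
    have h1 : vm k * wty t ≤ Real.log k := by
      rw [← hwt, hvmlog]
      calc Real.log k * S.wt x (S.nv k) ≤ Real.log k * 1 := mul_le_mul_of_nonneg_left hwt1 hlog0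
        _ = Real.log k := mul_one _
    linarith

private theorem fin_listsum {ι : Type*} (L : List ι) (s : Finset ℕ) (f : ι → ℕ → ℝ) :
    ∑ k ∈ s, (L.map fun t => f t k).sum = (L.map fun t => ∑ k ∈ s, f t k).sum := by
  induction L with
  | nil => simp
  | cons t L ih =>
    simp only [List.map_cons, List.sum_cons]
    rw [Finset.sum_add_distrib, ih]

private theorem fin_listle {ι : Type*} (L : List ι) (f g : ι → ℝ) (h : ∀ t ∈ L, f t ≤ g t) :
    (L.map f).sum ≤ (L.map g).sum := by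
  induction L with
  | nil => simp
  | cons t L ih =>
    simp only [List.map_cons, List.sum_cons]
    have h1 := h t List.mem_cons_self
    have h2 := ih fun t ht => h t (List.mem_cons_of_mem _ ht)
    linarith

private theorem fin_listlin {ι : Type*} (L : List ι) (w v : ι → ℝ) (U c ε : ℝ) :
    (L.map fun t => w t * (U * (c * v t + ε))).sum = U * ((L.map fun t => w t * v t).sum * c + ε * (L.map w).sum) := by
  induction L with
  | nil => simp
  | cons t L ih =>
    simp only [List.map_cons, List.sum_cons]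
    rw [ih]
    ring

open scoped Classical in
/-- MODULE FINAL.  At least `c x/log^2 x` primes `k ∈ (x, 2x]`, `k ≡ q0 mod m`, with `a + k d` good.
Proof: `tau_gen` and `n1`: `∑_{surviving k} Λ(k) wt(n) ≥ U (0.3065 - ε)` (`1226·10^22/(4·10^25) = 0.3065`).  The `k` which are
not prime (`pps`) or have `n` not squarefree (`sqs`; a prime with `p^2 ∣ n` is `≥ x^(2/25)` as `n` survives) contribute
`≤ 2 ε U` (`wt ≤ 1`).  For the other `k`, `typof`: `Λ(k) wt(n) = log k · wty t`; if `t` is good then `n` is `GoodN` (zones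
1, 2 have class 1, zone 0 class 0) and the contribution is `≤ log k`; if `wty t ≤ 0` it is `≤ 0`; the rest is
`≤ ∑_{t ∈ badL} wty t ∑_{k of type ty t} log k ≤ U ((4/25) AA ∑ wty t vl(ty t) + 39 ε) ≤ U (0.2991 + 39 ε)` by `swi`, `n2`
(the total number of primes of a type in `badL` is `≥ 2`; `0 ≤ wty t ≤ 1` on `badL`).  So
`∑_{good k} log k ≥ U (0.0074 - 42 ε) ≥ 0.007 U`, and with `log k ≤ 2 log x`, `U ≥ c x/log x` (`ulow`) the number of good
`k` is `≥ c' x/log^2 x`. -/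
theorem cubic (S : Dat) : ∃ c : ℝ, 0 < c ∧ ∃ x0 : ℕ, ∀ x : ℕ, x0 ≤ x →
    c * x / (Real.log x) ^ 2 ≤ (((S.I x).filter fun k => k.Prime ∧ GoodN S x (S.nv k)).card : ℝ) := by
  obtain ⟨c, C, hc, hC, xu, hu⟩ := ulow S
  obtain ⟨ha, h2m, hdat, hdat2⟩ := dat_basic S
  obtain ⟨xt, htau⟩ := tau_gen S (1 / 100000) (by norm_num)
  obtain ⟨xs, hsqs⟩ := sqs S (1 / 100000) (by norm_num)
  obtain ⟨xp, hpps⟩ := pps S (1 / 100000) (by norm_num)
  obtain ⟨xy, hty⟩ := typof S
  have hswi : ∀ t ∈ badL.toFinset, ∃ x0 : ℕ, ∀ x : ℕ, x0 ≤ x →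
      ∑ k ∈ S.I x, (if k.Prime ∧ typ S x (S.nv k) (ty t) then Real.log k else 0) ≤
        S.U x * (4 / 25 * AA * vl (ty t) + 1 / 100000) := by
    intro t ht
    rw [List.mem_toFinset] at ht
    exact swi S (ty t) (fin_wty t ht).2.2 (1 / 100000) (by norm_num)
  have hswi2 : ∀ᶠ x : ℕ in Filter.atTop, ∀ t ∈ badL.toFinset,
      ∑ k ∈ S.I x, (if k.Prime ∧ typ S x (S.nv k) (ty t) then Real.log k else 0) ≤
        S.U x * (4 / 25 * AA * vl (ty t) + 1 / 100000) := by
    rw [Filter.eventually_all_finset]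
    intro t ht
    obtain ⟨x0, h0⟩ := hswi t ht
    exact Filter.eventually_atTop.2 ⟨x0, h0⟩
  obtain ⟨xw, hw⟩ := Filter.eventually_atTop.1 hswi2
  refine ⟨3 / 1000 * c, by positivity,
    max (max (max xu xt) (max xs xp)) (max (max xy xw) (max 3 (2 * S.a.natAbs + 2))), fun x hx => ?_⟩
  have hxu : xu ≤ x := by omega
  have hxt : xt ≤ x := by omega
  have hxs : xs ≤ x := by omega
  have hxp : xp ≤ x := by omega
  have hxy : xy ≤ x := by omega
  have hxw : xw ≤ x := by omega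
  have hx3 : 3 ≤ x := by omega
  have hxa : 2 * S.a.natAbs + 2 ≤ x := by omega
  have hxR : (3 : ℝ) ≤ x := by exact_mod_cast hx3
  have hx0 : (0 : ℝ) < x := by linarith
  have hlx : 0 < Real.log x := Real.log_pos (by linarith)
  have hUlow := (hu x hxu).1
  have hUpos : 0 < S.U x := lt_of_lt_of_le (by positivity) hUlow
  -- sum of the pointwise inequality
  have hpt : ∑ k ∈ S.I x, (if S.Surv x (S.nv k) then vm k * S.wt x (S.nv k) else 0) ≤
      ∑ k ∈ S.I x, ((if k.Prime then 0 else vm k) +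
      (if ∃ p : ℕ, p.Prime ∧ (x : ℝ) ^ ((16 : ℝ) / 200) ≤ (p : ℝ) ∧ p ^ 2 ∣ S.nv k then vm k else 0) +
      (if k.Prime ∧ GoodN S x (S.nv k) then Real.log k else 0) +
      (badL.map fun t => wty t * (if k.Prime ∧ typ S x (S.nv k) (ty t) then Real.log k else 0)).sum) := by
    refine Finset.sum_le_sum fun k hk => ?_
    have hkI := hk
    unfold Dat.I at hkI
    rw [Finset.mem_filter, Finset.mem_Ioc] at hkI
    obtain ⟨hpos, hn1, -, -⟩ := hdat2 x hxa k hk
    have hcop := (hdat k hkI.2 hpos).2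
    exact fin_point S x k hcop (by omega) (hty x hxy k hk)
  rw [Finset.sum_add_distrib, Finset.sum_add_distrib, Finset.sum_add_distrib] at hpt
  have h1 := htau x hxt
  have h2 := hsqs x hxs
  have h3 := hpps x hxp
  have h4 : ∑ k ∈ S.I x, (badL.map fun t => wty t *
      (if k.Prime ∧ typ S x (S.nv k) (ty t) then Real.log k else 0)).sum ≤ S.U x * (2991 / 10000 + 39 / 100000) := by
    rw [fin_listsum]
    have h5 : (badL.map fun t => ∑ k ∈ S.I x, wty t *
        (if k.Prime ∧ typ S x (S.nv k) (ty t) then Real.log k else 0)).sum ≤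
        (badL.map fun t => wty t * (S.U x * (4 / 25 * AA * vl (ty t) + 1 / 100000))).sum := by
      apply fin_listle
      intro t ht
      rw [← Finset.mul_sum]
      exact mul_le_mul_of_nonneg_left (hw x hxw t (List.mem_toFinset.2 ht)) (fin_wty t ht).1
    refine h5.trans ?_
    rw [fin_listlin]
    apply mul_le_mul_of_nonneg_left _ hUpos.le
    have h6 : (badL.map wty).sum ≤ 39 := by
      have h7 : (badL.map wty).sum ≤ (badL.map fun _ => (1 : ℝ)).sum :=
        fin_listle badL wty (fun _ => 1) fun t ht => (fin_wty t ht).2.1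
      refine h7.trans (le_of_eq ?_)
      rw [List.map_const', List.sum_replicate, nsmul_eq_mul, mul_one]
      have : badL.length = 39 := rfl
      rw [this]
      norm_num
    have h8 := n2
    have h9 : (badL.map fun t => wty t * vl (ty t)).sum * (4 / 25 * AA) ≤ 2991 / 10000 := h8
    linarith
  have hn1 : (3065 : ℝ) / 10000 ≤ (tauZ : ℝ) / (4 * 10 ^ 25) := by
    have h := n1
    have h' : ((1226 * 10 ^ 22 : ℤ) : ℝ) ≤ (tauZ : ℝ) := by exact_mod_cast h
    rw [le_div_iff₀ (by norm_num)]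
    refine le_trans ?_ h'
    norm_num
  have hG : S.U x * (6 / 1000) ≤ ∑ k ∈ S.I x, (if k.Prime ∧ GoodN S x (S.nv k) then Real.log k else 0) := by
    have h5 : S.U x * (3065 / 10000 - 1 / 100000) ≤ S.U x * ((tauZ : ℝ) / (4 * 10 ^ 25) - 1 / 100000) :=
      mul_le_mul_of_nonneg_left (by linarith) hUpos.le
    have h6 : S.U x * (3065 / 10000 - 1 / 100000) ≤ 1 / 100000 * S.U x + 1 / 100000 * S.U x +
        (∑ k ∈ S.I x, (if k.Prime ∧ GoodN S x (S.nv k) then Real.log k else 0)) +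
        S.U x * (2991 / 10000 + 39 / 100000) := by
      have h7 : S.U x * ((tauZ : ℝ) / (4 * 10 ^ 25) - 1 / 100000) ≤
          ∑ k ∈ S.I x, (if S.Surv x (S.nv k) then vm k * S.wt x (S.nv k) else 0) := h1
      linarith
    linarith
  have hcount : ∑ k ∈ S.I x, (if k.Prime ∧ GoodN S x (S.nv k) then Real.log k else 0) ≤
      (((S.I x).filter fun k => k.Prime ∧ GoodN S x (S.nv k)).card : ℝ) * (2 * Real.log x) := by
    rw [← Finset.sum_filter, ← nsmul_eq_mul]
    apply Finset.sum_le_card_nsmul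
    intro k hk
    have hk1 := (Finset.mem_filter.1 hk).1
    unfold Dat.I at hk1
    rw [Finset.mem_filter, Finset.mem_Ioc] at hk1
    have h5 : (k : ℝ) ≤ (x : ℝ) ^ 2 := by
      have : (k : ℝ) ≤ 2 * x := by exact_mod_cast hk1.1.2
      nlinarith
    have h6 : (0 : ℝ) < k := by
      have : x < k := hk1.1.1
      have : 0 < k := by omega
      exact_mod_cast this
    calc Real.log k ≤ Real.log ((x : ℝ) ^ 2) := Real.log_le_log h6 h5
      _ = 2 * Real.log x := by rw [Real.log_pow]; norm_num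
  have hfin : (c * x / Real.log x) * (6 / 1000) ≤
      (((S.I x).filter fun k => k.Prime ∧ GoodN S x (S.nv k)).card : ℝ) * (2 * Real.log x) := by
    refine le_trans ?_ (hG.trans hcount)
    exact mul_le_mul_of_nonneg_right hUlow (by norm_num)
  rw [div_le_iff₀ (by positivity)]
  have h7 : (c * x / Real.log x) * (6 / 1000) = (3 / 1000 * c * x) / Real.log x * 2 := by ring
  rw [h7] at hfin
  have h8 : (3 / 1000 * c * x) / Real.log x ≤
      (((S.I x).filter fun k => k.Prime ∧ GoodN S x (S.nv k)).card : ℝ) * Real.log x := by linarith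
  rw [div_le_iff₀ hlx] at h8
  calc 3 / 1000 * c * x ≤ (((S.I x).filter fun k => k.Prime ∧ GoodN S x (S.nv k)).card : ℝ) * Real.log x * Real.log x := h8
    _ = _ := by ring

end Pool.Agent.CC
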