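import Pool.Agent.CC.Vr
import Pool.Agent.BrunHooley.Mertens

/-! CC, part C: Mertens. -/

set_option autoImplicit false

namespace Pool.Agent.CC

open Finset

/-- the coefficients `log p / p` -/
private noncomputable def MER_c (n : ℕ) : ℝ := if n.Prime then Real.log n / n else 0

open Pool.Agent.BrunHooley.MertensAux in
private theorem MER_A : ∃ C : ℝ, 0 < C ∧ ∀ n : ℕ, 1 ≤ n →
    |(∑ k ∈ Icc 0 n, MER_c k) - Real.log n| ≤ C := by
  have h := ArithmeticFunction.vonMangoldt.summable_residueClass_non_primes_div (q := 1) 0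
  have e : (fun n : ℕ ↦ (if n.Prime then 0 else ArithmeticFunction.vonMangoldt.residueClass (q := 1) 0 n) / (n : ℝ))
      = fun n : ℕ => (if n.Prime then 0 else ArithmeticFunction.vonMangoldt n) / (n : ℝ) := by
    funext n
    have : ArithmeticFunction.vonMangoldt.residueClass (q := 1) 0 n = ArithmeticFunction.vonMangoldt n := by
      rw [ArithmeticFunction.vonMangoldt.residueClass, Set.indicator_of_mem]
      simp only [Set.mem_ofPred_eq]
      exact Subsingleton.elim _ _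
    rw [this]
  rw [e] at h
  have hn : ∀ n : ℕ, 0 ≤ (if n.Prime then 0 else ArithmeticFunction.vonMangoldt n) / (n : ℝ) := by
    intro n
    split_ifs
    · simp
    · exact div_nonneg ArithmeticFunction.vonMangoldt_nonneg (Nat.cast_nonneg n)
  set K : ℝ := ∑' n : ℕ, (if n.Prime then 0 else ArithmeticFunction.vonMangoldt n) / (n : ℝ) with hK
  have hK0 : 0 ≤ K := tsum_nonneg hn
  refine ⟨K + 12, by linarith, fun n h1 => ?_⟩
  have h0 : ∑ k ∈ Icc 0 n, MER_c k = ∑ k ∈ Ioc 0 n, MER_c k := by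
    rw [← Finset.add_sum_Ioc_eq_sum_Icc (Nat.zero_le n)]
    simp [MER_c]
  have h2 : M n = (∑ k ∈ Ioc 0 n, MER_c k) +
      ∑ d ∈ Ioc 0 n, (if d.Prime then 0 else ArithmeticFunction.vonMangoldt d) / (d : ℝ) := by
    rw [M, ← Finset.sum_add_distrib]
    refine Finset.sum_congr rfl fun d _ => ?_
    rw [MER_c]
    split_ifs with hp
    · rw [ArithmeticFunction.vonMangoldt_apply_prime hp]; ring
    · ring
  have h3 : ∑ d ∈ Ioc 0 n, (if d.Prime then 0 else ArithmeticFunction.vonMangoldt d) / (d : ℝ) ≤ K :=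
    h.sum_le_tsum _ fun i _ => hn i
  have h3' : 0 ≤ ∑ d ∈ Ioc 0 n, (if d.Prime then 0 else ArithmeticFunction.vonMangoldt d) / (d : ℝ) :=
    Finset.sum_nonneg fun i _ => hn i
  have h4 := M_ge n (by omega)
  have h5 := M_le n (by omega)
  have hlog2 := Real.log_two_lt_d9
  have hlog4 : Real.log 4 = 2 * Real.log 2 := by
    rw [show (4 : ℝ) = 2 ^ 2 by norm_num, Real.log_pow]; norm_num
  rw [h0, abs_le]
  constructor <;> linarith

private theorem MER_R : ∃ C : ℝ, 0 < C ∧ ∀ t : ℝ, 2 ≤ t →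
    |(∑ k ∈ Icc 0 ⌊t⌋₊, MER_c k) - Real.log t| ≤ C := by
  obtain ⟨C, hC, h⟩ := MER_A
  refine ⟨C + 1, by linarith, fun t ht => ?_⟩
  have h1 : 1 ≤ ⌊t⌋₊ := (Nat.one_le_floor_iff t).mpr (by linarith)
  have h1' : (1 : ℝ) ≤ (⌊t⌋₊ : ℝ) := by exact_mod_cast h1
  have h2 := h _ h1
  have h6 : Real.log (⌊t⌋₊ : ℝ) ≤ Real.log t := Real.log_le_log (by linarith) (Nat.floor_le (by linarith))
  have h7 : Real.log t ≤ Real.log 2 + Real.log (⌊t⌋₊ : ℝ) := by
    rw [← Real.log_mul (by norm_num) (by linarith)]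
    exact Real.log_le_log (by linarith) (by linarith [Nat.lt_floor_add_one t])
  have hlog2 := Real.log_two_lt_d9
  rw [abs_le] at h2 ⊢
  constructor <;> linarith

private theorem MER_abel : ∃ C : ℝ, 0 < C ∧ ∀ w z : ℝ, 2 ≤ w → w ≤ z →
    |(∑ p ∈ (Ioc ⌊w⌋₊ ⌊z⌋₊).filter Nat.Prime, 1 / (p : ℝ)) - Real.log (Real.log z / Real.log w)| ≤
      C / Real.log w := by
  obtain ⟨C, hC, hR⟩ := MER_R
  refine ⟨2 * C, by positivity, fun w z hw hwz => ?_⟩
  have hlw : 0 < Real.log w := Real.log_pos (by linarith)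
  have hlz : 0 < Real.log z := Real.log_pos (by linarith)
  -- derivative
  have hd : ∀ t : ℝ, t ∈ Set.Icc w z → HasDerivAt (fun t : ℝ => (Real.log t)⁻¹) (-(t⁻¹) / (Real.log t) ^ 2) t := by
    intro t ht
    have ht1 : 1 < t := by have := ht.1; linarith
    exact (Real.hasDerivAt_log (by linarith)).inv (Real.log_pos ht1).ne'
  have hdiff : ∀ t ∈ Set.Icc w z, DifferentiableAt ℝ (fun t : ℝ => (Real.log t)⁻¹) t :=
    fun t ht => (hd t ht).differentiableAt
  have hder : ∀ t ∈ Set.Icc w z, deriv (fun t : ℝ => (Real.log t)⁻¹) t = -(t⁻¹) / (Real.log t) ^ 2 :=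
    fun t ht => (hd t ht).deriv
  have hcont : ContinuousOn (fun t : ℝ => -(t⁻¹) / (Real.log t) ^ 2) (Set.Icc w z) := by
    intro t ht
    have ht1 : 1 < t := by have := ht.1; linarith
    have h1 : t ≠ 0 := by linarith
    have h2 : Real.log t ≠ 0 := (Real.log_pos ht1).ne'
    apply ContinuousAt.continuousWithinAt
    have c1 : ContinuousAt (fun t : ℝ => t⁻¹) t := continuousAt_inv₀ h1
    have c2 : ContinuousAt Real.log t := Real.continuousAt_log h1
    exact (c1.neg).div (c2.pow 2) (pow_ne_zero 2 h2)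
  have hint : MeasureTheory.IntegrableOn (fun t : ℝ => -(t⁻¹) / (Real.log t) ^ 2) (Set.Icc w z) :=
    hcont.integrableOn_Icc
  have hint' : MeasureTheory.IntegrableOn (deriv (fun t : ℝ => (Real.log t)⁻¹)) (Set.Icc w z) :=
    hint.congr_fun (fun t ht => (hder t ht).symm) measurableSet_Icc
  have abel := sum_mul_eq_sub_sub_integral_mul MER_c (f := fun t : ℝ => (Real.log t)⁻¹) (by linarith : (0 : ℝ) ≤ w)
    hwz hdiff hint'
  have e1 : ∑ k ∈ Ioc ⌊w⌋₊ ⌊z⌋₊, (Real.log (k : ℝ))⁻¹ * MER_c k =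
      ∑ p ∈ (Ioc ⌊w⌋₊ ⌊z⌋₊).filter Nat.Prime, 1 / (p : ℝ) := by
    rw [Finset.sum_filter]
    refine Finset.sum_congr rfl fun k _ => ?_
    rw [MER_c]
    split_ifs with hp
    · have : Real.log (k : ℝ) ≠ 0 := (Real.log_pos (by exact_mod_cast hp.one_lt)).ne'
      have h2 : (k : ℝ) ≠ 0 := by exact_mod_cast hp.ne_zero
      field_simp
    · ring
  rw [e1] at abel
  rw [abel]
  -- the integral
  set A : ℝ → ℝ := fun t => ∑ k ∈ Icc 0 ⌊t⌋₊, MER_c k with hA
  have hcl : ContinuousOn (fun t : ℝ => -(t⁻¹) / (Real.log t) ^ 2 * Real.log t) (Set.Icc w z) := by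
    apply hcont.mul
    intro t ht
    have ht1 : 1 < t := by have := ht.1; linarith
    exact (Real.continuousAt_log (by linarith)).continuousWithinAt
  have i1 : MeasureTheory.IntegrableOn (fun t : ℝ => -(t⁻¹) / (Real.log t) ^ 2 * A t) (Set.Icc w z) :=
    integrableOn_mul_sum_Icc MER_c (m := 0) (by linarith) hint
  have i2 : MeasureTheory.IntegrableOn (fun t : ℝ => -(t⁻¹) / (Real.log t) ^ 2 * Real.log t) (Set.Icc w z) :=
    hcl.integrableOn_Icc
  have i1' := i1.mono_set (Set.Ioc_subset_Icc_self)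
  have i2' := i2.mono_set (Set.Ioc_subset_Icc_self)
  have hint2 := hint.mono_set (Set.Ioc_subset_Icc_self (a := w) (b := z))
  have s1 : ∫ t in Set.Ioc w z, deriv (fun t : ℝ => (Real.log t)⁻¹) t * ∑ k ∈ Icc 0 ⌊t⌋₊, MER_c k =
      ∫ t in Set.Ioc w z, (-(t⁻¹) / (Real.log t) ^ 2 * A t) := by
    apply MeasureTheory.setIntegral_congr_fun measurableSet_Ioc
    intro t ht
    show _ = _
    simp only
    rw [hder t (Set.Ioc_subset_Icc_self ht)]
  have s2 : ∫ t in Set.Ioc w z, (-(t⁻¹) / (Real.log t) ^ 2 * A t) =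
      (∫ t in Set.Ioc w z, (-(t⁻¹) / (Real.log t) ^ 2 * Real.log t)) +
      ∫ t in Set.Ioc w z, (-(t⁻¹) / (Real.log t) ^ 2 * (A t - Real.log t)) := by
    rw [← MeasureTheory.integral_add i2']
    · congr 1
      funext t
      ring
    · have := i1'.sub i2'
      refine this.congr (Filter.Eventually.of_forall fun t => ?_)
      simp only [Pi.sub_apply]
      ring
  -- main term
  have s3 : ∫ t in Set.Ioc w z, (-(t⁻¹) / (Real.log t) ^ 2 * Real.log t) =
      -(Real.log (Real.log z) - Real.log (Real.log w)) := by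
    rw [← intervalIntegral.integral_of_le hwz]
    have hh : ∀ t ∈ Set.uIcc w z, HasDerivAt (fun t : ℝ => -Real.log (Real.log t))
        (-(t⁻¹) / (Real.log t) ^ 2 * Real.log t) t := by
      intro t ht
      rw [Set.uIcc_of_le hwz] at ht
      have ht1 : 1 < t := by have := ht.1; linarith
      have h2 : Real.log t ≠ 0 := (Real.log_pos ht1).ne'
      have := ((Real.hasDerivAt_log (by linarith : t ≠ 0)).log h2).neg
      refine this.congr_deriv ?_
      field_simp
    have hii : IntervalIntegrable (fun t : ℝ => -(t⁻¹) / (Real.log t) ^ 2 * Real.log t) MeasureTheory.volume w z := by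
      rw [intervalIntegrable_iff_integrableOn_Icc_of_le hwz]
      exact i2
    rw [intervalIntegral.integral_eq_sub_of_hasDerivAt hh hii]
    ring
  have s4 : ∫ t in Set.Ioc w z, (C * (t⁻¹ / (Real.log t) ^ 2)) = C * ((Real.log w)⁻¹ - (Real.log z)⁻¹) := by
    rw [← intervalIntegral.integral_of_le hwz]
    have hh : ∀ t ∈ Set.uIcc w z, HasDerivAt (fun t : ℝ => -(C * (Real.log t)⁻¹))
        (C * (t⁻¹ / (Real.log t) ^ 2)) t := by
      intro t ht
      rw [Set.uIcc_of_le hwz] at ht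
      have := ((hd t ht).const_mul C).neg
      refine this.congr_deriv ?_
      ring
    have hii : IntervalIntegrable (fun t : ℝ => C * (t⁻¹ / (Real.log t) ^ 2)) MeasureTheory.volume w z := by
      rw [intervalIntegrable_iff_integrableOn_Icc_of_le hwz]
      have := hint.neg.const_mul C
      refine this.congr (Filter.Eventually.of_forall fun t => ?_)
      simp only [Pi.neg_apply]
      ring
    rw [intervalIntegral.integral_eq_sub_of_hasDerivAt hh hii]
    ring
  have s5 : |∫ t in Set.Ioc w z, (-(t⁻¹) / (Real.log t) ^ 2 * (A t - Real.log t))| ≤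
      C * ((Real.log w)⁻¹ - (Real.log z)⁻¹) := by
    rw [← s4, ← Real.norm_eq_abs]
    apply MeasureTheory.norm_integral_le_of_norm_le
    · have := hint2.neg.const_mul C
      refine this.congr (Filter.Eventually.of_forall fun t => ?_)
      simp only [Pi.neg_apply]
      ring
    · rw [MeasureTheory.ae_restrict_iff' measurableSet_Ioc]
      refine Filter.Eventually.of_forall fun t ht => ?_
      have ht1 : 2 ≤ t := by have := ht.1; linarith
      have h3 := hR t ht1
      have ht0 : 0 < t := by linarith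
      rw [Real.norm_eq_abs, abs_mul]
      have e : |-(t⁻¹) / (Real.log t) ^ 2| = t⁻¹ / (Real.log t) ^ 2 := by
        rw [abs_div, abs_neg, abs_of_pos (inv_pos.2 ht0), abs_of_nonneg (sq_nonneg _)]
      rw [e, mul_comm C]
      exact mul_le_mul_of_nonneg_left h3 (by positivity)
  rw [s1, s2, s3, Real.log_div hlz.ne' hlw.ne']
  have hRz := hR z (by linarith)
  have hRw := hR w hw
  have t1 : |(Real.log z)⁻¹ * (A z - Real.log z)| ≤ (Real.log z)⁻¹ * C := by
    rw [abs_mul, abs_of_pos (inv_pos.2 hlz)]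
    exact mul_le_mul_of_nonneg_left hRz (inv_pos.2 hlz).le
  have t2 : |(Real.log w)⁻¹ * (A w - Real.log w)| ≤ (Real.log w)⁻¹ * C := by
    rw [abs_mul, abs_of_pos (inv_pos.2 hlw)]
    exact mul_le_mul_of_nonneg_left hRw (inv_pos.2 hlw).le
  have e2 : (Real.log z)⁻¹ * (A z - Real.log z) = (Real.log z)⁻¹ * A z - 1 := by
    field_simp
  have e3 : (Real.log w)⁻¹ * (A w - Real.log w) = (Real.log w)⁻¹ * A w - 1 := by
    field_simp
  rw [e2] at t1
  rw [e3] at t2
  rw [abs_le] at t1 t2 s5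
  have e4 : 2 * C / Real.log w = 2 * (C * (Real.log w)⁻¹) := by ring
  rw [e4, abs_le]
  obtain ⟨t1a, t1b⟩ := t1
  obtain ⟨t2a, t2b⟩ := t2
  obtain ⟨s5a, s5b⟩ := s5
  constructor <;> nlinarith

/-- MODULE MERTENS2.  Mertens' second theorem as a difference.
Proof: `Pool.Agent.BrunHooley.MertensAux`: `M n = ∑_{d ≤ n} Λ(d)/d` satisfies `log n - 1 ≤ M n ≤ log n + log 4 + 4`; the prime
powers contribute a bounded amount (`ArithmeticFunction.vonMangoldt.summable_residueClass_non_primes_div`, see the proof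
of the private `ZLow_mert` in `Pool/Agent/SL4/ZLow.lean`), so `A(t) = ∑_{p < t} log p/p = log t + O(1)`, uniformly for
`t ≥ 2`.  Partial summation (Abel) with `1/log t`: `∑_{w ≤ p < z} 1/p = ∫ dA(t)/log t = [A(t)/log t] + ∫ A(t) dt/(t log² t)
= log (log z/log w) + O(1/log w)`.  A discrete version without integrals: with `f(t) = 1/log t` decreasing,
`∑ (A_{i+1} - A_i) f(p_i)`, compare `A` with `log` (error `≤ C`) by Abel: the error is at most `2 C f(w)`, and for `A = log`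
use `|f(p)(log p' - log p) - (log log p' - log log p)|` summed `≤ (f(w) - f(z)) * ...`; any proof is fine. -/
theorem mertens2 : ∃ C : ℝ, 0 < C ∧ ∀ w z : ℝ, 2 ≤ w → w ≤ z →
    |(∑ p ∈ pr 1 w z, 1 / (p : ℝ)) - Real.log (Real.log z / Real.log w)| ≤ C / Real.log w := by
  obtain ⟨C, hC, H⟩ := MER_abel
  refine ⟨C + 2, by linarith, fun w z hw hwz => ?_⟩
  have h := H w z hw hwz
  have hlw : 0 < Real.log w := Real.log_pos (by linarith)
  have hf1 : 1 ≤ ⌊w⌋₊ := (Nat.one_le_floor_iff w).mpr (by linarith)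
  have hf1' : (1 : ℝ) ≤ ⌊w⌋₊ := by exact_mod_cast hf1
  have hf2 : w / 2 ≤ (⌊w⌋₊ : ℝ) := by linarith [Nat.lt_floor_add_one w]
  have hf3 : w / 2 ≤ (⌊z⌋₊ : ℝ) := by
    have : (⌊w⌋₊ : ℝ) ≤ (⌊z⌋₊ : ℝ) := by exact_mod_cast Nat.floor_mono hwz
    linarith
  have hw1 : (1 : ℝ) / ⌊w⌋₊ ≤ 2 / Real.log w := by
    rw [div_le_div_iff₀ (by linarith) hlw]
    have := Real.log_le_sub_one_of_pos (by linarith : 0 < w)
    linarith
  have hz1 : (1 : ℝ) / ⌊z⌋₊ ≤ 2 / Real.log w := by
    rw [div_le_div_iff₀ (by linarith) hlw]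
    have := Real.log_le_sub_one_of_pos (by linarith : 0 < w)
    linarith
  have hpos : ∀ p : ℕ, 0 ≤ 1 / (p : ℝ) := fun p => by positivity
  -- upper bound
  have u1 : ∑ p ∈ pr 1 w z, 1 / (p : ℝ) ≤ (∑ p ∈ (Ioc ⌊w⌋₊ ⌊z⌋₊).filter Nat.Prime, 1 / (p : ℝ)) + 1 / ⌊w⌋₊ := by
    have hsub : pr 1 w z ⊆ insert ⌊w⌋₊ ((Ioc ⌊w⌋₊ ⌊z⌋₊).filter Nat.Prime) := by
      intro p hp
      rw [pr, mem_filter, mem_range] at hp
      obtain ⟨hp1, hp2, -, hp3⟩ := hp
      have hpz : (p : ℝ) < z := Nat.lt_ceil.1 hp1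
      rw [mem_insert, mem_filter, mem_Ioc]
      by_cases hpw : p ≤ ⌊w⌋₊
      · left
        have : (p : ℝ) ≤ ⌊w⌋₊ := by exact_mod_cast hpw
        have h3 := Nat.floor_le (by linarith : 0 ≤ w)
        have h4 : (⌊w⌋₊ : ℝ) ≤ p := by linarith
        have h4' : ⌊w⌋₊ ≤ p := by exact_mod_cast h4
        omega
      · right
        exact ⟨⟨by omega, Nat.le_floor hpz.le⟩, hp2⟩
    have a1 := Finset.sum_le_sum_of_subset_of_nonneg hsub (f := fun p : ℕ => 1 / (p : ℝ)) (fun i _ _ => hpos i)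
    refine a1.trans ?_
    by_cases hm : ⌊w⌋₊ ∈ (Ioc ⌊w⌋₊ ⌊z⌋₊).filter Nat.Prime
    · rw [mem_filter, mem_Ioc] at hm
      omega
    · rw [Finset.sum_insert hm]
      linarith
  have u2 : (∑ p ∈ (Ioc ⌊w⌋₊ ⌊z⌋₊).filter Nat.Prime, 1 / (p : ℝ)) ≤ (∑ p ∈ pr 1 w z, 1 / (p : ℝ)) + 1 / ⌊z⌋₊ := by
    have hsub : (Ioc ⌊w⌋₊ ⌊z⌋₊).filter Nat.Prime ⊆ insert ⌊z⌋₊ (pr 1 w z) := by
      intro p hp
      rw [mem_filter, mem_Ioc] at hp
      obtain ⟨⟨hp1, hp2⟩, hp3⟩ := hp
      rw [mem_insert, pr, mem_filter, mem_range]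
      by_cases hpz : (p : ℝ) < z
      · right
        refine ⟨Nat.lt_ceil.2 hpz, hp3, ?_, ((Nat.floor_lt (by linarith)).1 hp1).le⟩
        intro h
        exact hp3.one_lt.ne' (Nat.dvd_one.1 h)
      · left
        have h3 : (p : ℝ) ≤ ⌊z⌋₊ := by exact_mod_cast hp2
        have h4 := Nat.floor_le (by linarith : 0 ≤ z)
        push Not at hpz
        have h5 : (⌊z⌋₊ : ℝ) ≤ p := by linarith
        have h5' : ⌊z⌋₊ ≤ p := by exact_mod_cast h5
        omega
    have a1 := Finset.sum_le_sum_of_subset_of_nonneg hsub (f := fun p : ℕ => 1 / (p : ℝ)) (fun i _ _ => hpos i)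
    refine a1.trans ?_
    by_cases hm : ⌊z⌋₊ ∈ pr 1 w z
    · rw [Finset.insert_eq_of_mem hm]
      have : (0 : ℝ) ≤ 1 / (⌊z⌋₊ : ℝ) := hpos _
      linarith
    · rw [Finset.sum_insert hm]
      linarith
  rw [abs_le] at h ⊢
  have e : (C + 2) / Real.log w = C / Real.log w + 2 / Real.log w := by ring
  rw [e]
  constructor <;> linarith [h.1, h.2]

private theorem MER_tel (a b : ℕ) (ha : 3 ≤ a) (hab : a ≤ b) :
    ∑ n ∈ Ico a b, 2 / (((n : ℝ) - 1) * ((n : ℝ) - 2)) = 2 / ((a : ℝ) - 2) - 2 / ((b : ℝ) - 2) := by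
  induction b, hab using Nat.le_induction with
  | base => simp
  | succ b hab ih =>
    rw [Finset.sum_Ico_succ_top hab, ih]
    have hb : (3 : ℝ) ≤ b := by exact_mod_cast ha.trans hab
    have h1 : (b : ℝ) - 1 ≠ 0 := by linarith
    have h2 : (b : ℝ) - 2 ≠ 0 := by linarith
    have h3 : (b : ℝ) + 1 - 2 ≠ 0 := by linarith
    push_cast
    have h4 : (b : ℝ) + 1 - 2 = b - 1 := by ring
    rw [h4]
    field_simp
    ring

/-- MODULE MERT.  For every `ε > 0` the property `Mert m W ε` holds for all large `W`.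
Proof: take `W > m`, then `p ∤ m` for all `p ≥ W`.  For `W ≤ w ≤ z`: `V(w)/V(z) = ∏_{w ≤ p < z} (1 - 1/(p-1))^(-1)`
(`Vv_split`), and `-log(1 - 1/(p-1)) = 1/p + O(1/p^2)` (for `p ≥ 3`: between `1/p` and `1/p + 6/p^2`, say), so
`log (V(w)/V(z)) = log(log z/log w) + O(C/log w) + O(1/w)` by `mertens2`; exponentiate: the ratio
`V(w)/V(z) : (log z/log w)` is between `e^(-C'/log W)` and `e^(C'/log W)`, i.e. between `1 - ε` and `1 + ε` for large `W`. -/
theorem mert (m : ℕ) (hm : 0 < m) (ε : ℝ) (hε : 0 < ε) : ∃ W0 : ℝ, ∀ W : ℝ, W0 ≤ W → Mert m W ε := by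
  obtain ⟨C, hC, H⟩ := mertens2
  set l : ℝ := Real.log (1 + ε) with hl
  have hl0 : 0 < l := Real.log_pos (by linarith)
  refine ⟨max (Real.exp ((C + 2) / l)) (max 4 ((m : ℝ) + 1)), fun W hW => ?_⟩
  have hW1 : Real.exp ((C + 2) / l) ≤ W := (le_max_left _ _).trans hW
  have hW2 : 4 ≤ W := ((le_max_left _ _).trans (le_max_right _ _)).trans hW
  have hW3 : (m : ℝ) + 1 ≤ W := ((le_max_right _ _).trans (le_max_right _ _)).trans hW
  refine ⟨by linarith, fun w z hw hz => ?_⟩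
  have hw4 : 4 ≤ w := hW2.trans hw
  have hlw : 0 < Real.log w := Real.log_pos (by linarith)
  have hlz : 0 < Real.log z := Real.log_pos (by linarith)
  -- the primes beyond w do not divide m
  have hpr : pr m w z = pr 1 w z := by
    ext p
    simp only [pr, mem_filter, mem_range]
    constructor
    · rintro ⟨h1, h2, -, h4⟩
      exact ⟨h1, h2, fun h => h2.one_lt.ne' (Nat.dvd_one.1 h), h4⟩
    · rintro ⟨h1, h2, -, h4⟩
      refine ⟨h1, h2, fun h => ?_, h4⟩
      have h5 := Nat.le_of_dvd hm h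
      have h6 : (p : ℝ) ≤ m := by exact_mod_cast h5
      linarith
  have hP := H w z (by linarith) hz
  rw [← hpr] at hP
  set P : ℝ := ∑ p ∈ pr m w z, 1 / (p : ℝ) with hPdef
  have hmem : ∀ p ∈ pr m w z, w ≤ (p : ℝ) := by
    intro p hp
    rw [pr, mem_filter] at hp
    exact hp.2.2.2
  have hVpos := (Vv_pos m w z (Or.inl (by linarith))).1
  have hVpos' := (Vv_pos m W w (Or.inl (by linarith))).1
  have hlogV : Real.log (Vv m w z) = ∑ p ∈ pr m w z, Real.log (1 - 1 / ((p : ℝ) - 1)) := by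
    rw [Vv, Real.log_prod]
    intro p hp
    have h1 := hmem p hp
    have h2 : 1 / ((p : ℝ) - 1) ≤ 1 / 3 := one_div_le_one_div_of_le (by norm_num) (by linarith)
    have : 0 < 1 - 1 / ((p : ℝ) - 1) := by linarith
    exact this.ne'
  have up : Real.log (Vv m w z) ≤ -P := by
    rw [hlogV, hPdef, ← Finset.sum_neg_distrib]
    apply Finset.sum_le_sum
    intro p hp
    have h1 := hmem p hp
    have h2 : 1 / ((p : ℝ) - 1) ≤ 1 / 3 := one_div_le_one_div_of_le (by norm_num) (by linarith)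
    have h3 := Real.log_le_sub_one_of_pos (show 0 < 1 - 1 / ((p : ℝ) - 1) by linarith)
    have h4 : 1 / (p : ℝ) ≤ 1 / ((p : ℝ) - 1) := one_div_le_one_div_of_le (by linarith) (by linarith)
    linarith
  have low : -P - 2 / (w - 2) ≤ Real.log (Vv m w z) := by
    have h1 : ∑ p ∈ pr m w z, (-(1 / (p : ℝ)) - 2 / (((p : ℝ) - 1) * ((p : ℝ) - 2))) ≤ Real.log (Vv m w z) := by
      rw [hlogV]
      apply Finset.sum_le_sum
      intro p hp
      have h1 := hmem p hp
      have h2 : 1 / ((p : ℝ) - 1) ≤ 1 / 3 := one_div_le_one_div_of_le (by norm_num) (by linarith)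
      have h3 := Real.one_sub_inv_le_log_of_pos (show 0 < 1 - 1 / ((p : ℝ) - 1) by linarith)
      have h4 : 1 - (1 - 1 / ((p : ℝ) - 1))⁻¹ = -(1 / ((p : ℝ) - 2)) := by
        have a1 : (p : ℝ) - 1 ≠ 0 := by linarith
        have a2 : (p : ℝ) - 2 ≠ 0 := by linarith
        have a3 : 1 - 1 / ((p : ℝ) - 1) = ((p : ℝ) - 2) / ((p : ℝ) - 1) := by field_simp; ring
        rw [a3, inv_div]
        field_simp
        ring
      rw [h4] at h3
      refine le_trans ?_ h3
      have a1 : (0 : ℝ) < (p : ℝ) - 1 := by linarith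
      have a2 : (0 : ℝ) < (p : ℝ) - 2 := by linarith
      have a3 : (0 : ℝ) < (p : ℝ) := by linarith
      have h5 : 1 / ((p : ℝ) - 2) = 1 / p + 2 / ((p : ℝ) * ((p : ℝ) - 2)) := by field_simp; ring
      have h6 : 2 / ((p : ℝ) * ((p : ℝ) - 2)) ≤ 2 / (((p : ℝ) - 1) * ((p : ℝ) - 2)) := by
        apply div_le_div_of_nonneg_left (by norm_num) (by positivity)
        exact mul_le_mul_of_nonneg_right (by linarith) a2.le
      linarith
    have h2 : ∑ p ∈ pr m w z, 2 / (((p : ℝ) - 1) * ((p : ℝ) - 2)) ≤ 2 / (w - 2) := by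
      have hc : w ≤ (⌈w⌉₊ : ℝ) := Nat.le_ceil w
      have hc3 : 3 ≤ ⌈w⌉₊ := by
        have : (3 : ℝ) ≤ ⌈w⌉₊ := by linarith
        exact_mod_cast this
      have hcz : ⌈w⌉₊ ≤ ⌈z⌉₊ := Nat.ceil_mono hz
      have hsub : pr m w z ⊆ Ico ⌈w⌉₊ ⌈z⌉₊ := by
        intro p hp
        have h1 := hmem p hp
        rw [pr, mem_filter, mem_range] at hp
        rw [mem_Ico]
        exact ⟨Nat.ceil_le.2 h1, hp.1⟩
      have h3 := Finset.sum_le_sum_of_subset_of_nonneg hsub (f := fun n : ℕ => 2 / (((n : ℝ) - 1) * ((n : ℝ) - 2)))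
        (fun i hi _ => by
          rw [mem_Ico] at hi
          have : (3 : ℝ) ≤ i := by exact_mod_cast hc3.trans hi.1
          have a1 : (0 : ℝ) < (i : ℝ) - 1 := by linarith
          have a2 : (0 : ℝ) < (i : ℝ) - 2 := by linarith
          positivity)
      refine h3.trans ?_
      rw [MER_tel _ _ hc3 hcz]
      have h4 : (3 : ℝ) ≤ ⌈z⌉₊ := by exact_mod_cast hc3.trans hcz
      have h5 : 0 ≤ 2 / ((⌈z⌉₊ : ℝ) - 2) := div_nonneg (by norm_num) (by linarith)
      have h6 : 2 / ((⌈w⌉₊ : ℝ) - 2) ≤ 2 / (w - 2) :=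
        div_le_div_of_nonneg_left (by norm_num) (by linarith) (by linarith)
      linarith
    rw [Finset.sum_sub_distrib, Finset.sum_neg_distrib] at h1
    linarith
  -- size of the error
  have hlog2 := Real.log_two_lt_d9
  have hw2 : Real.log w ≤ w - 2 := by
    have h1 := Real.log_le_sub_one_of_pos (show 0 < w / 2 by linarith)
    rw [Real.log_div (by linarith) (by norm_num)] at h1
    linarith
  have hE1 : 2 / (w - 2) ≤ 2 / Real.log w := div_le_div_of_nonneg_left (by norm_num) hlw hw2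
  have hE2 : (C + 2) / Real.log w ≤ l := by
    have h1 : (C + 2) / l ≤ Real.log w := by
      rw [← Real.log_exp ((C + 2) / l)]
      exact Real.log_le_log (Real.exp_pos _) (hW1.trans hw)
    rw [div_le_iff₀ hl0] at h1
    rw [div_le_iff₀ hlw]
    linarith
  have hE3 : (C + 2) / Real.log w = C / Real.log w + 2 / Real.log w := by ring
  have hq0 : 0 < Real.log z / Real.log w := div_pos hlz hlw
  set x : ℝ := Real.log z / Real.log w * Vv m w z with hx
  have hx0 : 0 < x := mul_pos hq0 hVpos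
  have hlx : Real.log x = Real.log (Real.log z / Real.log w) + Real.log (Vv m w z) := Real.log_mul hq0.ne' hVpos.ne'
  rw [abs_le] at hP
  have hC0 : 0 ≤ C / Real.log w := (div_pos hC hlw).le
  have h20 : 0 ≤ 2 / Real.log w := (div_pos (by norm_num) hlw).le
  have lx1 : Real.log x ≤ l := by rw [hlx]; linarith [hP.1, hP.2]
  have lx2 : -l ≤ Real.log x := by rw [hlx]; linarith [hP.1, hP.2]
  have x1 : x ≤ 1 + ε := (Real.log_le_log_iff hx0 (by linarith)).1 lx1
  have x2 : 1 ≤ (1 + ε) * x := by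
    have h1 : 0 ≤ Real.log ((1 + ε) * x) := by
      rw [Real.log_mul (by linarith) hx0.ne']
      linarith
    exact (Real.log_nonneg_iff (by positivity)).1 h1
  rw [Vv_split m W w z hw hz]
  constructor
  · have e : (1 - ε) * (Real.log z / Real.log w) * (Vv m W w * Vv m w z) = ((1 - ε) * x) * Vv m W w := by
      rw [hx]; ring
    rw [e]
    have : (1 - ε) * x ≤ 1 := by
      rcases le_total ε 1 with h | h
      · have := mul_le_mul_of_nonneg_left x1 (by linarith : 0 ≤ 1 - ε)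
        nlinarith
      · nlinarith
    calc (1 - ε) * x * Vv m W w ≤ 1 * Vv m W w := mul_le_mul_of_nonneg_right this hVpos'.le
      _ = Vv m W w := one_mul _
  · have e : (1 + ε) * (Real.log z / Real.log w) * (Vv m W w * Vv m w z) = ((1 + ε) * x) * Vv m W w := by
      rw [hx]; ring
    rw [e]
    calc Vv m W w = 1 * Vv m W w := (one_mul _).symm
      _ ≤ (1 + ε) * x * Vv m W w := mul_le_mul_of_nonneg_right x2 hVpos'.le

end Pool.Agent.CC
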