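import Pool.Agent.CC.Defs

/-! CC, part H6: the value of the table sum. -/

set_option autoImplicit false

namespace Pool.Agent.CC

open Finset

set_option maxRecDepth 100000 in
/-- MODULE N1.  Kernel computation: `tauZ = 12260953570891646796416514`. -/
theorem n1 : (1226 : ℤ) * 10 ^ 22 ≤ tauZ := by
  decide +kernel


end Pool.Agent.CC
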