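import Pool.Agent.CC.Defs

/-! CC, numerics: upper bounds for the coefficients of products of the mass polynomials by lists of integers. -/

set_option autoImplicit false

namespace Pool.Agent.CC.N2

open Finset Polynomial

def addL : List ℕ → List ℕ → List ℕ
  | [], l => l
  | a :: as, [] => a :: as
  | a :: as, b :: bs => (a + b) :: addL as bs

theorem getD_addL : ∀ (a b : List ℕ) (N : ℕ), (addL a b).getD N 0 = a.getD N 0 + b.getD N 0
  | [], l, N => by simp [addL]
  | a :: as, [], N => by simp [addL]
  | a :: as, b :: bs, 0 => by simp [addL]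
  | a :: as, b :: bs, N + 1 => by
    simp only [addL, List.getD_cons_succ]
    exact getD_addL as bs N

def mulT : ℕ → List ℕ → List ℕ → List ℕ
  | 0, _, _ => []
  | _ + 1, [], _ => []
  | n + 1, x :: xs, b => addL ((b.take (n + 1)).map (fun y => x * y)) (0 :: mulT n xs b)

theorem getD_map_take (x : ℕ) (b : List ℕ) (n N : ℕ) (h : N < n) :
    ((b.take n).map (fun y => x * y)).getD N 0 = x * b.getD N 0 := by
  simp only [List.getD_eq_getElem?_getD, List.getElem?_map, List.getElem?_take, h, if_true]
  cases b[N]? <;> simp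

theorem getD_mulT : ∀ (n : ℕ) (a b : List ℕ) (N : ℕ), N < n →
    (mulT n a b).getD N 0 = ∑ i ∈ range (N + 1), a.getD i 0 * b.getD (N - i) 0
  | 0, a, b, N, h => absurd h (by omega)
  | n + 1, [], b, N, h => by simp [mulT]
  | n + 1, x :: xs, b, 0, h => by
    simp only [mulT]
    rw [getD_addL, getD_map_take x b (n + 1) 0 (by omega)]
    simp
  | n + 1, x :: xs, b, N + 1, h => by
    simp only [mulT]
    rw [getD_addL, getD_map_take x b (n + 1) (N + 1) h, Finset.sum_range_succ', List.getD_cons_succ,
      getD_mulT n xs b N (by omega)]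
    simp only [List.getD_cons_succ, List.getD_cons_zero, Nat.sub_zero, Nat.add_sub_add_right]
    rw [add_comm]

/-- every entry of the first list is at most `K` times the entry of the second -/
def leC (K : ℕ) : List ℕ → List ℕ → Bool
  | [], _ => true
  | a :: as, [] => a == 0 && leC K as []
  | a :: as, c :: cs => Nat.ble a (K * c) && leC K as cs

theorem leC_getD (K : ℕ) : ∀ (a c : List ℕ), leC K a c = true → ∀ N, a.getD N 0 ≤ K * c.getD N 0
  | [], c, _, N => by simp
  | a :: as, [], h, N => by
    simp only [leC, Bool.and_eq_true, beq_iff_eq] at h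
    cases N with
    | zero => simp [h.1]
    | succ N =>
      have := leC_getD K as [] h.2 N
      simpa using this
  | a :: as, c :: cs, h, N => by
    simp only [leC, Bool.and_eq_true, Nat.ble_eq] at h
    cases N with
    | zero => simpa using h.1
    | succ N =>
      have := leC_getD K as cs h.2 N
      simpa using this

/-- the list `l` (shifted by `s`) bounds the coefficients of `p`, in units of `10^(-12)` -/
def Bd (p : ℝ[X]) (s : ℕ) (l : List ℕ) : Prop :=
  ∀ N ≤ 368, 0 ≤ p.coeff N ∧ p.coeff N ≤ (if N < s then 0 else (l.getD (N - s) 0 : ℝ)) / 10 ^ 12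

theorem bd_mul {p q : ℝ[X]} {s t : ℕ} {a b : List ℕ} (hp : Bd p s a) (hq : Bd q t b) (c : List ℕ)
    (hc : leC (10 ^ 12) (mulT (369 - s - t) a b) c = true) : Bd (p * q) (s + t) c := by
  intro N hN
  have h0 : ∀ x ∈ antidiagonal N, 0 ≤ p.coeff x.1 * q.coeff x.2 := by
    intro x hx
    rw [Finset.HasAntidiagonal.mem_antidiagonal] at hx
    exact mul_nonneg (hp x.1 (by omega)).1 (hq x.2 (by omega)).1
  rw [coeff_mul]
  refine ⟨sum_nonneg h0, ?_⟩
  by_cases hNs : N < s + t
  · rw [if_pos hNs]
    refine le_of_eq ?_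
    rw [zero_div]
    refine sum_eq_zero fun x hx => ?_
    have hx' := Finset.HasAntidiagonal.mem_antidiagonal.1 hx
    have h1 := hp x.1 (by omega)
    have h2 := hq x.2 (by omega)
    rcases lt_or_ge x.1 s with h | h
    · rw [if_pos h, zero_div] at h1
      rw [le_antisymm h1.2 h1.1, zero_mul]
    · rw [if_pos (by omega : x.2 < t), zero_div] at h2
      rw [le_antisymm h2.2 h2.1, mul_zero]
  · rw [if_neg hNs]
    push Not at hNs
    obtain ⟨M, rfl⟩ := Nat.exists_eq_add_of_le hNs
    have hM : M < 369 - s - t := by omega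
    have h3 := leC_getD _ _ _ hc M
    rw [getD_mulT _ _ _ _ hM] at h3
    have h4 : ∑ x ∈ antidiagonal (s + t + M), p.coeff x.1 * q.coeff x.2 ≤
        ∑ i ∈ range (M + 1), ((a.getD i 0 : ℝ) / 10 ^ 12) * ((b.getD (M - i) 0 : ℝ) / 10 ^ 12) := by
      rw [Finset.Nat.sum_antidiagonal_eq_sum_range_succ (fun i j => p.coeff i * q.coeff j)]
      have hinj : ∑ i ∈ range (M + 1), ((a.getD i 0 : ℝ) / 10 ^ 12) * ((b.getD (M - i) 0 : ℝ) / 10 ^ 12) =
          ∑ i ∈ (range (M + 1)).map (addLeftEmbedding s),
            ((a.getD (i - s) 0 : ℝ) / 10 ^ 12) * ((b.getD (M - (i - s)) 0 : ℝ) / 10 ^ 12) := by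
        rw [sum_map]
        refine sum_congr rfl fun i _ => ?_
        simp
      rw [hinj]
      have hsub : (range (M + 1)).map (addLeftEmbedding s) ⊆ range (s + t + M + 1) := by
        intro i hi
        rw [mem_map] at hi
        obtain ⟨j, hj, rfl⟩ := hi
        rw [mem_range] at hj ⊢
        simp only [addLeftEmbedding_apply]
        omega
      rw [← sum_subset hsub (f := fun i => p.coeff i * q.coeff (s + t + M - i))]
      · refine sum_le_sum fun i hi => ?_
        rw [mem_map] at hi
        obtain ⟨j, hj, rfl⟩ := hi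
        rw [mem_range] at hj
        simp only [addLeftEmbedding_apply, Nat.add_sub_cancel_left]
        have h1 := hp (s + j) (by omega)
        have h2 := hq (s + t + M - (s + j)) (by omega)
        rw [if_neg (by omega), show s + j - s = j by omega] at h1
        rw [if_neg (by omega), show s + t + M - (s + j) - t = M - j by omega] at h2
        exact mul_le_mul h1.2 h2.2 h2.1 (by positivity)
      · intro i hi hni
        rw [mem_range] at hi
        have h1 := hp i (by omega)
        have h2 := hq (s + t + M - i) (by omega)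
        have hcase : i < s ∨ s + t + M - i < t := by
          by_contra hcon
          push Not at hcon
          apply hni
          rw [mem_map]
          refine ⟨i - s, ?_, ?_⟩
          · rw [mem_range]; omega
          · simp only [addLeftEmbedding_apply]; omega
        rcases hcase with h | h
        · rw [if_pos h, zero_div] at h1
          rw [le_antisymm h1.2 h1.1, zero_mul]
        · rw [if_pos h, zero_div] at h2
          rw [le_antisymm h2.2 h2.1, mul_zero]
    refine h4.trans ?_
    rw [show s + t + M - (s + t) = M by omega]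
    have h5 : ((∑ i ∈ range (M + 1), a.getD i 0 * b.getD (M - i) 0 : ℕ) : ℝ) ≤ 10 ^ 12 * (c.getD M 0 : ℝ) := by
      have : ((∑ i ∈ range (M + 1), a.getD i 0 * b.getD (M - i) 0 : ℕ) : ℝ) ≤ ((10 ^ 12 * c.getD M 0 : ℕ) : ℝ) := by
        exact_mod_cast h3
      refine this.trans (le_of_eq ?_)
      push_cast
      ring
    have h6 : ∑ i ∈ range (M + 1), ((a.getD i 0 : ℝ) / 10 ^ 12) * ((b.getD (M - i) 0 : ℝ) / 10 ^ 12) =
        ((∑ i ∈ range (M + 1), a.getD i 0 * b.getD (M - i) 0 : ℕ) : ℝ) / 10 ^ 24 := by
      push_cast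
      rw [Finset.sum_div]
      refine sum_congr rfl fun i _ => ?_
      ring
    rw [h6, div_le_div_iff₀ (by positivity) (by positivity)]
    nlinarith [h5]

theorem bd_one : Bd (1 : ℝ[X]) 0 [10 ^ 12] := by
  intro N hN
  rw [coeff_one]
  rcases N with _ | N
  · norm_num
  · simp

/-- the integer bound for a mass -/
def ku (j : ℕ) : ℕ := (2 * j + 1) * 10 ^ 12 / (6 * j * (j + 1)) + 1

theorem log_le (j : ℕ) (hj : 1 ≤ j) : (1 / 3) * Real.log (((j : ℝ) + 1) / j) ≤ (ku j : ℝ) / 10 ^ 12 := by
  have hj0 : (0 : ℝ) < j := by exact_mod_cast hj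
  -- log(1+1/j) ≤ (2j+1)/(2j(j+1))
  have h1 : Real.log (((j : ℝ) + 1) / j) ≤ (2 * j + 1) / (2 * j * (j + 1)) := by
    have h := Real.log_le_sub_one_of_pos (x := Real.sqrt (((j : ℝ) + 1) / j)) (by positivity)
    have hs : Real.log (Real.sqrt (((j : ℝ) + 1) / j)) = Real.log (((j : ℝ) + 1) / j) / 2 := by
      rw [Real.log_sqrt (by positivity)]
    -- use t - 1/t form: log x ≤ (x - 1/x)/2 for x ≥ 1
    have key : ∀ x : ℝ, 1 ≤ x → Real.log x ≤ (x - 1 / x) / 2 := by
      intro x hx
      have hmono : MonotoneOn (fun x : ℝ => (x - 1 / x) / 2 - Real.log x) (Set.Ici 1) := by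
        apply monotoneOn_of_deriv_nonneg (convex_Ici 1)
        · apply ContinuousOn.sub
          · apply ContinuousOn.div_const
            apply ContinuousOn.sub continuousOn_id
            apply ContinuousOn.div continuousOn_const continuousOn_id
            intro x hx
            simp only [Set.mem_Ici] at hx
            simp only [id_eq, ne_eq]
            linarith
          · apply Real.continuousOn_log.mono
            intro x hx
            simp only [Set.mem_Ici] at hx
            simp only [Set.mem_compl_iff, Set.mem_singleton_iff]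
            linarith
        · intro x hx
          rw [interior_Ici, Set.mem_Ioi] at hx
          have hx0 : x ≠ 0 := by linarith
          apply DifferentiableAt.differentiableWithinAt
          apply DifferentiableAt.sub
          · apply DifferentiableAt.div_const
            apply DifferentiableAt.sub differentiableAt_id
            exact (differentiableAt_const _).div differentiableAt_id hx0
          · exact Real.differentiableAt_log hx0
        · intro x hx
          rw [interior_Ici, Set.mem_Ioi] at hx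
          have hx0 : x ≠ 0 := by linarith
          have hd : HasDerivAt (fun x : ℝ => (x - 1 / x) / 2 - Real.log x) ((1 - (-(x ^ 2)⁻¹)) / 2 - x⁻¹) x := by
            have e1 : HasDerivAt (fun x : ℝ => x⁻¹) (-(x ^ 2)⁻¹) x := hasDerivAt_inv hx0
            have e2 := ((hasDerivAt_id x).sub e1).div_const 2
            have e3 := e2.sub (Real.hasDerivAt_log hx0)
            refine e3.congr_of_eventuallyEq (Filter.Eventually.of_forall fun y => ?_)
            show (y - 1 / y) / 2 - Real.log y = (y - y⁻¹) / 2 - Real.log y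
            rw [one_div]
          rw [hd.deriv]
          have : (1 - (-(x ^ 2)⁻¹)) / 2 - x⁻¹ = (x - 1) ^ 2 / (2 * x ^ 2) := by
            field_simp
            ring
          rw [this]
          positivity
      have := hmono (Set.mem_Ici.2 le_rfl) (Set.mem_Ici.2 hx) hx
      simp only [div_one, sub_self, zero_div, Real.log_one] at this
      linarith
    have h2 := key (((j : ℝ) + 1) / j) (by rw [le_div_iff₀ hj0]; linarith)
    refine h2.trans (le_of_eq ?_)
    field_simp
    ring
  have h2 : ((2 * j + 1) * 10 ^ 12 : ℕ) < 6 * j * (j + 1) * ku j := by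
    unfold ku
    have := Nat.div_add_mod ((2 * j + 1) * 10 ^ 12) (6 * j * (j + 1))
    have hpos : 0 < 6 * j * (j + 1) := by positivity
    have := Nat.mod_lt ((2 * j + 1) * 10 ^ 12) hpos
    nlinarith
  have h3 : ((2 * (j : ℝ) + 1) * 10 ^ 12) ≤ 6 * j * (j + 1) * (ku j : ℝ) := by
    have : (((2 * j + 1) * 10 ^ 12 : ℕ) : ℝ) ≤ ((6 * j * (j + 1) * ku j : ℕ) : ℝ) := by exact_mod_cast h2.le
    push_cast at this
    linarith
  have h4 : (1 / 3) * Real.log (((j : ℝ) + 1) / j) ≤ (2 * j + 1) / (6 * j * (j + 1)) := by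
    calc (1 / 3) * Real.log (((j : ℝ) + 1) / j) ≤ (1 / 3) * ((2 * j + 1) / (2 * j * (j + 1))) := by linarith
      _ = (2 * j + 1) / (6 * j * (j + 1)) := by field_simp; ring
  refine h4.trans ?_
  rw [div_le_div_iff₀ (by positivity) (by positivity)]
  linarith

theorem coeff_Mz (z : Fin 5) (N : ℕ) :
    (Mz z).coeff N = if N ∈ Ico (zlo z) (zhi z) then (1 / 3) * Real.log (((N : ℝ) + 1) / N) else 0 := by
  unfold Mz
  rw [finsetSum_coeff]
  simp only [coeff_C_mul, coeff_X_pow]
  simp only [mul_ite, mul_one, mul_zero]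
  rw [Finset.sum_ite_eq]

/-- the list of a zone -/
def zoneL (lo n : ℕ) : List ℕ := (List.range n).map fun i => ku (lo + i)

theorem bd_zone (z : Fin 5) (n : ℕ) (hn : min (zhi z) 369 - zlo z ≤ n) (hlo : 1 ≤ zlo z) :
    Bd (Mz z) (zlo z) (zoneL (zlo z) n) := by
  intro N hN
  rw [coeff_Mz]
  have hpos : ∀ N : ℕ, 1 ≤ N → 0 ≤ (1 / 3) * Real.log (((N : ℝ) + 1) / N) := by
    intro N hN
    have : (0 : ℝ) < N := by exact_mod_cast hN
    have h : (1 : ℝ) ≤ ((N : ℝ) + 1) / N := by rw [le_div_iff₀ this]; linarith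
    have := Real.log_nonneg h
    positivity
  by_cases h : N ∈ Ico (zlo z) (zhi z)
  · rw [if_pos h]
    rw [mem_Ico] at h
    refine ⟨hpos N (by omega), ?_⟩
    rw [if_neg (by omega)]
    have hlt : N - zlo z < n := by
      rcases Nat.le_total (zhi z) 369 with h' | h'
      · rw [min_eq_left h'] at hn; omega
      · rw [min_eq_right h'] at hn; omega
    have : (zoneL (zlo z) n).getD (N - zlo z) 0 = ku N := by
      unfold zoneL
      rw [List.getD_eq_getElem?_getD, List.getElem?_map, List.getElem?_range hlt]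
      simp only [Option.map_some, Option.getD_some]
      congr 1
      omega
    rw [this]
    exact log_le N (by omega)
  · rw [if_neg h]
    refine ⟨le_rfl, ?_⟩
    split_ifs <;> positivity

/-- product of powers -/
noncomputable def PP (e0 e1 e2 e3 e4 : ℕ) : ℝ[X] := Mz 0 ^ e0 * Mz 1 ^ e1 * Mz 2 ^ e2 * Mz 3 ^ e3 * Mz 4 ^ e4

theorem PP0 (e0 e1 e2 e3 e4 : ℕ) : PP (e0 + 1) e1 e2 e3 e4 = Mz 0 * PP e0 e1 e2 e3 e4 := by unfold PP; ring
theorem PP1 (e0 e1 e2 e3 e4 : ℕ) : PP e0 (e1 + 1) e2 e3 e4 = Mz 1 * PP e0 e1 e2 e3 e4 := by unfold PP; ring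
theorem PP2 (e0 e1 e2 e3 e4 : ℕ) : PP e0 e1 (e2 + 1) e3 e4 = Mz 2 * PP e0 e1 e2 e3 e4 := by unfold PP; ring
theorem PP3 (e0 e1 e2 e3 e4 : ℕ) : PP e0 e1 e2 (e3 + 1) e4 = Mz 3 * PP e0 e1 e2 e3 e4 := by unfold PP; ring
theorem PP4 (e0 e1 e2 e3 e4 : ℕ) : PP e0 e1 e2 e3 (e4 + 1) = Mz 4 * PP e0 e1 e2 e3 e4 := by unfold PP; ring

/-- the range sum -/
noncomputable def RS (a : Fin 5) (len : ℕ) (P : ℝ[X]) : ℝ :=
  ∑ N ∈ (range 400).filter (fun N => N + zlo a ≤ 400 ∧ 400 ≤ N + len + zhi a), P.coeff N

theorem sum_take_drop (l : List ℕ) (u v : ℕ) :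
    (((l.take u).drop v).sum : ℕ) = ∑ i ∈ Ico v u, l.getD i 0 := by
  induction l generalizing u v with
  | nil => simp
  | cons a as ih =>
    rcases u with _ | u
    · simp
    · rcases v with _ | v
      · rw [List.take_succ_cons, List.drop_zero, List.sum_cons, Finset.sum_Ico_eq_sum_range, Nat.sub_zero,
          Finset.sum_range_succ']
        have := ih u 0
        rw [List.drop_zero] at this
        rw [this, Finset.sum_Ico_eq_sum_range]
        simp [add_comm]
      · rw [List.take_succ_cons, List.drop_succ_cons, ih u v, ← Finset.sum_Ico_add' _ v u 1]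
        simp

theorem RS_le (a : Fin 5) (len : ℕ) (P : ℝ[X]) (s : ℕ) (l : List ℕ) (h : Bd P s l) (h32 : 32 ≤ zlo a) :
    RS a len P ≤ (((l.take (401 - zlo a - s)).drop (400 - len - zhi a - s)).sum : ℕ) / 10 ^ 12 := by
  unfold RS
  rw [sum_take_drop]
  have h1 : ∀ N ∈ (range 400).filter (fun N => N + zlo a ≤ 400 ∧ 400 ≤ N + len + zhi a),
      P.coeff N ≤ (if N < s then 0 else (l.getD (N - s) 0 : ℝ)) / 10 ^ 12 := by
    intro N hN
    rw [mem_filter, mem_range] at hN
    exact (h N (by omega)).2
  refine (sum_le_sum h1).trans ?_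
  rw [← Finset.sum_div]
  apply div_le_div_of_nonneg_right _ (by positivity)
  push_cast
  have h2 : ∑ N ∈ (range 400).filter (fun N => N + zlo a ≤ 400 ∧ 400 ≤ N + len + zhi a),
      (if N < s then 0 else (l.getD (N - s) 0 : ℝ)) ≤
      ∑ N ∈ (Ico (400 - len - zhi a - s) (401 - zlo a - s)).map (addRightEmbedding s), (l.getD (N - s) 0 : ℝ) := by
    rw [← Finset.sum_filter_add_sum_filter_not _ (fun N => N < s)]
    rw [Finset.sum_eq_zero (s := Finset.filter (fun N => N < s) _), zero_add]
    · rw [Finset.sum_congr rfl (g := fun N => (l.getD (N - s) 0 : ℝ))]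
      · apply Finset.sum_le_sum_of_subset_of_nonneg
        · intro N hN
          rw [mem_filter, mem_filter, mem_range] at hN
          rw [mem_map]
          refine ⟨N - s, ?_, ?_⟩
          · rw [mem_Ico]; omega
          · simp only [addRightEmbedding_apply]; omega
        · intro N _ _
          positivity
      · intro N hN
        rw [mem_filter] at hN
        rw [if_neg hN.2]
    · intro N hN
      rw [mem_filter] at hN
      rw [if_pos hN.2]
  refine h2.trans (le_of_eq ?_)
  rw [sum_map]
  refine sum_congr rfl fun i _ => ?_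
  simp

end Pool.Agent.CC.N2
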