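import Pool.Agent.CC.N2B

/-! CC, numerics: the values of the types. -/

set_option autoImplicit false
set_option maxRecDepth 20000

namespace Pool.Agent.CC.N2

open Finset Polynomial

theorem kd_ty (e0 e1 e2 e3 e4 : ℕ) (a z : Fin 5) :
    kd (ty (e0, e1, e2, e3, e4)) a z = (![e0, e1, e2, e3, e4] : Fin 5 → ℕ) z - if z = a then 1 else 0 := rfl

theorem vl_ty (e0 e1 e2 e3 e4 : ℕ) : vl (ty (e0, e1, e2, e3, e4)) =
    (if e0 = 0 then 0 else RS 0 (e0 + e1 + e2 + e3 + e4 - 1) (PP (e0 - 1) e1 e2 e3 e4) /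
      (((e0 - 1).factorial : ℝ) * (e1.factorial : ℝ) * (e2.factorial : ℝ) * (e3.factorial : ℝ) * (e4.factorial : ℝ))) +
    (if e1 = 0 then 0 else RS 1 (e0 + e1 + e2 + e3 + e4 - 1) (PP e0 (e1 - 1) e2 e3 e4) /
      ((e0.factorial : ℝ) * ((e1 - 1).factorial : ℝ) * (e2.factorial : ℝ) * (e3.factorial : ℝ) * (e4.factorial : ℝ))) +
    (if e2 = 0 then 0 else RS 2 (e0 + e1 + e2 + e3 + e4 - 1) (PP e0 e1 (e2 - 1) e3 e4) /
      ((e0.factorial : ℝ) * (e1.factorial : ℝ) * ((e2 - 1).factorial : ℝ) * (e3.factorial : ℝ) * (e4.factorial : ℝ))) +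
    (if e3 = 0 then 0 else RS 3 (e0 + e1 + e2 + e3 + e4 - 1) (PP e0 e1 e2 (e3 - 1) e4) /
      ((e0.factorial : ℝ) * (e1.factorial : ℝ) * (e2.factorial : ℝ) * ((e3 - 1).factorial : ℝ) * (e4.factorial : ℝ))) +
    (if e4 = 0 then 0 else RS 4 (e0 + e1 + e2 + e3 + e4 - 1) (PP e0 e1 e2 e3 (e4 - 1)) /
      ((e0.factorial : ℝ) * (e1.factorial : ℝ) * (e2.factorial : ℝ) * (e3.factorial : ℝ) * ((e4 - 1).factorial : ℝ))) := by
  have hs : ∑ z, ty (e0, e1, e2, e3, e4) z = e0 + e1 + e2 + e3 + e4 := by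
    rw [Fin.sum_univ_five]; rfl
  have hk : ∀ z : Fin 5, ty (e0, e1, e2, e3, e4) z = (![e0, e1, e2, e3, e4] : Fin 5 → ℕ) z := fun z => rfl
  unfold vl RS PP
  rw [hs, Fin.sum_univ_five]
  simp only [Fin.prod_univ_five, kd_ty, hk]
  simp [Matrix.cons_val_zero, Matrix.cons_val_one]

theorem V_0_0_0_1_1 : vl (ty (0, 0, 0, 1, 1)) ≤ 83026037 / 10 ^ 9 := by
  have h3 : RS 3 1 (PP 0 0 0 0 1) ≤ (30910238501 : ℝ) / 10 ^ 12 := by
    have h := RS_le 3 1 _ 152 L_0_0_0_0_1 B_0_0_0_0_1 (by decide)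
    have h' : ((L_0_0_0_0_1.take (401 - zlo 3 - 152)).drop (400 - 1 - zhi 3 - 152)).sum ≤ 30910238501 := by decide +kernel
    refine h.trans (div_le_div_of_nonneg_right ?_ (by positivity))
    exact_mod_cast h'
  have h4 : RS 4 1 (PP 0 0 0 1 0) ≤ (52115798164 : ℝ) / 10 ^ 12 := by
    have h := RS_le 4 1 _ 130 L_0_0_0_1_0 B_0_0_0_1_0 (by decide)
    have h' : ((L_0_0_0_1_0.take (401 - zlo 4 - 130)).drop (400 - 1 - zhi 4 - 130)).sum ≤ 52115798164 := by decide +kernel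
    refine h.trans (div_le_div_of_nonneg_right ?_ (by positivity))
    exact_mod_cast h'
  rw [vl_ty]
  norm_num [Nat.factorial] at h3 h4 ⊢
  linarith

theorem V_1_0_0_1_1 : vl (ty (1, 0, 0, 1, 1)) ≤ 45528058 / 10 ^ 9 := by
  have h0 : RS 0 2 (PP 0 0 0 1 1) ≤ (7096838875 : ℝ) / 10 ^ 12 := by
    have h := RS_le 0 2 _ 282 L_0_0_0_1_1 B_0_0_0_1_1 (by decide)
    have h' : ((L_0_0_0_1_1.take (401 - zlo 0 - 282)).drop (400 - 2 - zhi 0 - 282)).sum ≤ 7096838875 := by decide +kernel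
    refine h.trans (div_le_div_of_nonneg_right ?_ (by positivity))
    exact_mod_cast h'
  have h3 : RS 3 2 (PP 1 0 0 0 1) ≤ (17202514168 : ℝ) / 10 ^ 12 := by
    have h := RS_le 3 2 _ 184 L_1_0_0_0_1 B_1_0_0_0_1 (by decide)
    have h' : ((L_1_0_0_0_1.take (401 - zlo 3 - 184)).drop (400 - 2 - zhi 3 - 184)).sum ≤ 17202514168 := by decide +kernel
    refine h.trans (div_le_div_of_nonneg_right ?_ (by positivity))
    exact_mod_cast h'
  have h4 : RS 4 2 (PP 1 0 0 1 0) ≤ (21228704482 : ℝ) / 10 ^ 12 := by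
    have h := RS_le 4 2 _ 162 L_1_0_0_1_0 B_1_0_0_1_0 (by decide)
    have h' : ((L_1_0_0_1_0.take (401 - zlo 4 - 162)).drop (400 - 2 - zhi 4 - 162)).sum ≤ 21228704482 := by decide +kernel
    refine h.trans (div_le_div_of_nonneg_right ?_ (by positivity))
    exact_mod_cast h'
  rw [vl_ty]
  norm_num [Nat.factorial] at h0 h3 h4 ⊢
  linarith

theorem V_2_0_0_1_1 : vl (ty (2, 0, 0, 1, 1)) ≤ 3573997 / 10 ^ 9 := by
  have h0 : RS 0 3 (PP 1 0 0 1 1) ≤ (796959829 : ℝ) / 10 ^ 12 := by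
    have h := RS_le 0 3 _ 314 L_1_0_0_1_1 B_1_0_0_1_1 (by decide)
    have h' : ((L_1_0_0_1_1.take (401 - zlo 0 - 314)).drop (400 - 3 - zhi 0 - 314)).sum ≤ 796959829 := by decide +kernel
    refine h.trans (div_le_div_of_nonneg_right ?_ (by positivity))
    exact_mod_cast h'
  have h3 : RS 3 3 (PP 2 0 0 0 1) ≤ (2654820757 : ℝ) / 10 ^ 12 := by
    have h := RS_le 3 3 _ 216 L_2_0_0_0_1 B_2_0_0_0_1 (by decide)
    have h' : ((L_2_0_0_0_1.take (401 - zlo 3 - 216)).drop (400 - 3 - zhi 3 - 216)).sum ≤ 2654820757 := by decide +kernel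
    refine h.trans (div_le_div_of_nonneg_right ?_ (by positivity))
    exact_mod_cast h'
  have h4 : RS 4 3 (PP 2 0 0 1 0) ≤ (2899252130 : ℝ) / 10 ^ 12 := by
    have h := RS_le 4 3 _ 194 L_2_0_0_1_0 B_2_0_0_1_0 (by decide)
    have h' : ((L_2_0_0_1_0.take (401 - zlo 4 - 194)).drop (400 - 3 - zhi 4 - 194)).sum ≤ 2899252130 := by decide +kernel
    refine h.trans (div_le_div_of_nonneg_right ?_ (by positivity))
    exact_mod_cast h'
  rw [vl_ty]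
  norm_num [Nat.factorial] at h0 h3 h4 ⊢
  linarith

theorem V_3_0_0_1_1 : vl (ty (3, 0, 0, 1, 1)) ≤ 11904 / 10 ^ 9 := by
  have h0 : RS 0 4 (PP 2 0 0 1 1) ≤ (6519286 : ℝ) / 10 ^ 12 := by
    have h := RS_le 0 4 _ 346 L_2_0_0_1_1 B_2_0_0_1_1 (by decide)
    have h' : ((L_2_0_0_1_1.take (401 - zlo 0 - 346)).drop (400 - 4 - zhi 0 - 346)).sum ≤ 6519286 := by decide +kernel
    refine h.trans (div_le_div_of_nonneg_right ?_ (by positivity))
    exact_mod_cast h'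
  have h3 : RS 3 4 (PP 3 0 0 0 1) ≤ (23978170 : ℝ) / 10 ^ 12 := by
    have h := RS_le 3 4 _ 248 L_3_0_0_0_1 B_3_0_0_0_1 (by decide)
    have h' : ((L_3_0_0_0_1.take (401 - zlo 3 - 248)).drop (400 - 4 - zhi 3 - 248)).sum ≤ 23978170 := by decide +kernel
    refine h.trans (div_le_div_of_nonneg_right ?_ (by positivity))
    exact_mod_cast h'
  have h4 : RS 4 4 (PP 3 0 0 1 0) ≤ (27883841 : ℝ) / 10 ^ 12 := by
    have h := RS_le 4 4 _ 226 L_3_0_0_1_0 B_3_0_0_1_0 (by decide)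
    have h' : ((L_3_0_0_1_0.take (401 - zlo 4 - 226)).drop (400 - 4 - zhi 4 - 226)).sum ≤ 27883841 := by decide +kernel
    refine h.trans (div_le_div_of_nonneg_right ?_ (by positivity))
    exact_mod_cast h'
  rw [vl_ty]
  norm_num [Nat.factorial] at h0 h3 h4 ⊢
  linarith

theorem V_0_0_0_0_2 : vl (ty (0, 0, 0, 0, 2)) ≤ 164524880 / 10 ^ 9 := by
  have h4 : RS 4 1 (PP 0 0 0 0 1) ≤ (164524879518 : ℝ) / 10 ^ 12 := by
    have h := RS_le 4 1 _ 152 L_0_0_0_0_1 B_0_0_0_0_1 (by decide)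
    have h' : ((L_0_0_0_0_1.take (401 - zlo 4 - 152)).drop (400 - 1 - zhi 4 - 152)).sum ≤ 164524879518 := by decide +kernel
    refine h.trans (div_le_div_of_nonneg_right ?_ (by positivity))
    exact_mod_cast h'
  rw [vl_ty]
  norm_num [Nat.factorial] at h4 ⊢
  linarith

theorem V_1_0_0_0_2 : vl (ty (1, 0, 0, 0, 2)) ≤ 31457050 / 10 ^ 9 := by
  have h0 : RS 0 2 (PP 0 0 0 0 2) ≤ (7979040733 : ℝ) / 10 ^ 12 := by
    have h := RS_le 0 2 _ 304 L_0_0_0_0_2 B_0_0_0_0_2 (by decide)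
    have h' : ((L_0_0_0_0_2.take (401 - zlo 0 - 304)).drop (400 - 2 - zhi 0 - 304)).sum ≤ 7979040733 := by decide +kernel
    refine h.trans (div_le_div_of_nonneg_right ?_ (by positivity))
    exact_mod_cast h'
  have h4 : RS 4 2 (PP 1 0 0 0 1) ≤ (27467528731 : ℝ) / 10 ^ 12 := by
    have h := RS_le 4 2 _ 184 L_1_0_0_0_1 B_1_0_0_0_1 (by decide)
    have h' : ((L_1_0_0_0_1.take (401 - zlo 4 - 184)).drop (400 - 2 - zhi 4 - 184)).sum ≤ 27467528731 := by decide +kernel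
    refine h.trans (div_le_div_of_nonneg_right ?_ (by positivity))
    exact_mod_cast h'
  rw [vl_ty]
  norm_num [Nat.factorial] at h0 h4 ⊢
  linarith

theorem V_2_0_0_0_2 : vl (ty (2, 0, 0, 0, 2)) ≤ 597531 / 10 ^ 9 := by
  have h0 : RS 0 3 (PP 1 0 0 0 2) ≤ (237762499 : ℝ) / 10 ^ 12 := by
    have h := RS_le 0 3 _ 336 L_1_0_0_0_2 B_1_0_0_0_2 (by decide)
    have h' : ((L_1_0_0_0_2.take (401 - zlo 0 - 336)).drop (400 - 3 - zhi 0 - 336)).sum ≤ 237762499 := by decide +kernel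
    refine h.trans (div_le_div_of_nonneg_right ?_ (by positivity))
    exact_mod_cast h'
  have h4 : RS 4 3 (PP 2 0 0 0 1) ≤ (957297631 : ℝ) / 10 ^ 12 := by
    have h := RS_le 4 3 _ 216 L_2_0_0_0_1 B_2_0_0_0_1 (by decide)
    have h' : ((L_2_0_0_0_1.take (401 - zlo 4 - 216)).drop (400 - 3 - zhi 4 - 216)).sum ≤ 957297631 := by decide +kernel
    refine h.trans (div_le_div_of_nonneg_right ?_ (by positivity))
    exact_mod_cast h'
  rw [vl_ty]
  norm_num [Nat.factorial] at h0 h4 ⊢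
  linarith

theorem V_3_0_0_0_2 : vl (ty (3, 0, 0, 0, 2)) ≤ 1 / 10 ^ 9 := by
  have h0 : RS 0 4 (PP 2 0 0 0 2) ≤ (503 : ℝ) / 10 ^ 12 := by
    have h := RS_le 0 4 _ 368 L_2_0_0_0_2 B_2_0_0_0_2 (by decide)
    have h' : ((L_2_0_0_0_2.take (401 - zlo 0 - 368)).drop (400 - 4 - zhi 0 - 368)).sum ≤ 503 := by decide +kernel
    refine h.trans (div_le_div_of_nonneg_right ?_ (by positivity))
    exact_mod_cast h'
  have h4 : RS 4 4 (PP 3 0 0 0 1) ≤ (2360 : ℝ) / 10 ^ 12 := by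
    have h := RS_le 4 4 _ 248 L_3_0_0_0_1 B_3_0_0_0_1 (by decide)
    have h' : ((L_3_0_0_0_1.take (401 - zlo 4 - 248)).drop (400 - 4 - zhi 4 - 248)).sum ≤ 2360 := by decide +kernel
    refine h.trans (div_le_div_of_nonneg_right ?_ (by positivity))
    exact_mod_cast h'
  rw [vl_ty]
  norm_num [Nat.factorial] at h0 h4 ⊢
  linarith

theorem V_0_1_1_0_1 : vl (ty (0, 1, 1, 0, 1)) ≤ 169909395 / 10 ^ 9 := by
  have h1 : RS 1 2 (PP 0 0 1 0 1) ≤ (24271026422 : ℝ) / 10 ^ 12 := by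
    have h := RS_le 1 2 _ 244 L_0_0_1_0_1 B_0_0_1_0_1 (by decide)
    have h' : ((L_0_0_1_0_1.take (401 - zlo 1 - 244)).drop (400 - 2 - zhi 1 - 244)).sum ≤ 24271026422 := by decide +kernel
    refine h.trans (div_le_div_of_nonneg_right ?_ (by positivity))
    exact_mod_cast h'
  have h2 : RS 2 2 (PP 0 1 0 0 1) ≤ (59366545850 : ℝ) / 10 ^ 12 := by
    have h := RS_le 2 2 _ 184 L_0_1_0_0_1 B_0_1_0_0_1 (by decide)
    have h' : ((L_0_1_0_0_1.take (401 - zlo 2 - 184)).drop (400 - 2 - zhi 2 - 184)).sum ≤ 59366545850 := by decide +kernel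
    refine h.trans (div_le_div_of_nonneg_right ?_ (by positivity))
    exact_mod_cast h'
  have h4 : RS 4 2 (PP 0 1 1 0 0) ≤ (86271822480 : ℝ) / 10 ^ 12 := by
    have h := RS_le 4 2 _ 124 L_0_1_1_0_0 B_0_1_1_0_0 (by decide)
    have h' : ((L_0_1_1_0_0.take (401 - zlo 4 - 124)).drop (400 - 2 - zhi 4 - 124)).sum ≤ 86271822480 := by decide +kernel
    refine h.trans (div_le_div_of_nonneg_right ?_ (by positivity))
    exact_mod_cast h'
  rw [vl_ty]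
  norm_num [Nat.factorial] at h1 h2 h4 ⊢
  linarith

theorem V_1_1_1_0_1 : vl (ty (1, 1, 1, 0, 1)) ≤ 36742257 / 10 ^ 9 := by
  have h0 : RS 0 3 (PP 0 1 1 0 1) ≤ (4896458713 : ℝ) / 10 ^ 12 := by
    have h := RS_le 0 3 _ 276 L_0_1_1_0_1 B_0_1_1_0_1 (by decide)
    have h' : ((L_0_1_1_0_1.take (401 - zlo 0 - 276)).drop (400 - 3 - zhi 0 - 276)).sum ≤ 4896458713 := by decide +kernel
    refine h.trans (div_le_div_of_nonneg_right ?_ (by positivity))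
    exact_mod_cast h'
  have h1 : RS 1 3 (PP 1 0 1 0 1) ≤ (4776154862 : ℝ) / 10 ^ 12 := by
    have h := RS_le 1 3 _ 276 L_1_0_1_0_1 B_1_0_1_0_1 (by decide)
    have h' : ((L_1_0_1_0_1.take (401 - zlo 1 - 276)).drop (400 - 3 - zhi 1 - 276)).sum ≤ 4776154862 := by decide +kernel
    refine h.trans (div_le_div_of_nonneg_right ?_ (by positivity))
    exact_mod_cast h'
  have h2 : RS 2 3 (PP 1 1 0 0 1) ≤ (10733835523 : ℝ) / 10 ^ 12 := by
    have h := RS_le 2 3 _ 216 L_1_1_0_0_1 B_1_1_0_0_1 (by decide)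
    have h' : ((L_1_1_0_0_1.take (401 - zlo 2 - 216)).drop (400 - 3 - zhi 2 - 216)).sum ≤ 10733835523 := by decide +kernel
    refine h.trans (div_le_div_of_nonneg_right ?_ (by positivity))
    exact_mod_cast h'
  have h4 : RS 4 3 (PP 1 1 1 0 0) ≤ (16335807106 : ℝ) / 10 ^ 12 := by
    have h := RS_le 4 3 _ 156 L_1_1_1_0_0 B_1_1_1_0_0 (by decide)
    have h' : ((L_1_1_1_0_0.take (401 - zlo 4 - 156)).drop (400 - 3 - zhi 4 - 156)).sum ≤ 16335807106 := by decide +kernel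
    refine h.trans (div_le_div_of_nonneg_right ?_ (by positivity))
    exact_mod_cast h'
  rw [vl_ty]
  norm_num [Nat.factorial] at h0 h1 h2 h4 ⊢
  linarith

theorem V_2_1_1_0_1 : vl (ty (2, 1, 1, 0, 1)) ≤ 1145297 / 10 ^ 9 := by
  have h0 : RS 0 4 (PP 1 1 1 0 1) ≤ (249117442 : ℝ) / 10 ^ 12 := by
    have h := RS_le 0 4 _ 308 L_1_1_1_0_1 B_1_1_1_0_1 (by decide)
    have h' : ((L_1_1_1_0_1.take (401 - zlo 0 - 308)).drop (400 - 4 - zhi 0 - 308)).sum ≤ 249117442 := by decide +kernel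
    refine h.trans (div_le_div_of_nonneg_right ?_ (by positivity))
    exact_mod_cast h'
  have h1 : RS 1 4 (PP 2 0 1 0 1) ≤ (249117726 : ℝ) / 10 ^ 12 := by
    have h := RS_le 1 4 _ 308 L_2_0_1_0_1 B_2_0_1_0_1 (by decide)
    have h' : ((L_2_0_1_0_1.take (401 - zlo 1 - 308)).drop (400 - 4 - zhi 1 - 308)).sum ≤ 249117726 := by decide +kernel
    refine h.trans (div_le_div_of_nonneg_right ?_ (by positivity))
    exact_mod_cast h'
  have h2 : RS 2 4 (PP 2 1 0 0 1) ≤ (599492052 : ℝ) / 10 ^ 12 := by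
    have h := RS_le 2 4 _ 248 L_2_1_0_0_1 B_2_1_0_0_1 (by decide)
    have h' : ((L_2_1_0_0_1.take (401 - zlo 2 - 248)).drop (400 - 4 - zhi 2 - 248)).sum ≤ 599492052 := by decide +kernel
    refine h.trans (div_le_div_of_nonneg_right ?_ (by positivity))
    exact_mod_cast h'
  have h4 : RS 4 4 (PP 2 1 1 0 0) ≤ (943749102 : ℝ) / 10 ^ 12 := by
    have h := RS_le 4 4 _ 188 L_2_1_1_0_0 B_2_1_1_0_0 (by decide)
    have h' : ((L_2_1_1_0_0.take (401 - zlo 4 - 188)).drop (400 - 4 - zhi 4 - 188)).sum ≤ 943749102 := by decide +kernel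
    refine h.trans (div_le_div_of_nonneg_right ?_ (by positivity))
    exact_mod_cast h'
  rw [vl_ty]
  norm_num [Nat.factorial] at h0 h1 h2 h4 ⊢
  linarith

theorem V_3_1_1_0_1 : vl (ty (3, 1, 1, 0, 1)) ≤ 2326 / 10 ^ 9 := by
  have h0 : RS 0 5 (PP 2 1 1 0 1) ≤ (1281901 : ℝ) / 10 ^ 12 := by
    have h := RS_le 0 5 _ 340 L_2_1_1_0_1 B_2_1_1_0_1 (by decide)
    have h' : ((L_2_1_1_0_1.take (401 - zlo 0 - 340)).drop (400 - 5 - zhi 0 - 340)).sum ≤ 1281901 := by decide +kernel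
    refine h.trans (div_le_div_of_nonneg_right ?_ (by positivity))
    exact_mod_cast h'
  have h1 : RS 1 5 (PP 3 0 1 0 1) ≤ (1281899 : ℝ) / 10 ^ 12 := by
    have h := RS_le 1 5 _ 340 L_3_0_1_0_1 B_3_0_1_0_1 (by decide)
    have h' : ((L_3_0_1_0_1.take (401 - zlo 1 - 340)).drop (400 - 5 - zhi 1 - 340)).sum ≤ 1281899 := by decide +kernel
    refine h.trans (div_le_div_of_nonneg_right ?_ (by positivity))
    exact_mod_cast h'
  have h2 : RS 2 5 (PP 3 1 0 0 1) ≤ (3371701 : ℝ) / 10 ^ 12 := by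
    have h := RS_le 2 5 _ 280 L_3_1_0_0_1 B_3_1_0_0_1 (by decide)
    have h' : ((L_3_1_0_0_1.take (401 - zlo 2 - 280)).drop (400 - 5 - zhi 2 - 280)).sum ≤ 3371701 := by decide +kernel
    refine h.trans (div_le_div_of_nonneg_right ?_ (by positivity))
    exact_mod_cast h'
  have h4 : RS 4 5 (PP 3 1 1 0 0) ≤ (5452287 : ℝ) / 10 ^ 12 := by
    have h := RS_le 4 5 _ 220 L_3_1_1_0_0 B_3_1_1_0_0 (by decide)
    have h' : ((L_3_1_1_0_0.take (401 - zlo 4 - 220)).drop (400 - 5 - zhi 4 - 220)).sum ≤ 5452287 := by decide +kernel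
    refine h.trans (div_le_div_of_nonneg_right ?_ (by positivity))
    exact_mod_cast h'
  rw [vl_ty]
  norm_num [Nat.factorial] at h0 h1 h2 h4 ⊢
  linarith

theorem V_0_0_2_1_0 : vl (ty (0, 0, 2, 1, 0)) ≤ 16906338 / 10 ^ 9 := by
  have h2 : RS 2 2 (PP 0 0 1 1 0) ≤ (10529850481 : ℝ) / 10 ^ 12 := by
    have h := RS_le 2 2 _ 222 L_0_0_1_1_0 B_0_0_1_1_0 (by decide)
    have h' : ((L_0_0_1_1_0.take (401 - zlo 2 - 222)).drop (400 - 2 - zhi 2 - 222)).sum ≤ 10529850481 := by decide +kernel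
    refine h.trans (div_le_div_of_nonneg_right ?_ (by positivity))
    exact_mod_cast h'
  have h3 : RS 3 2 (PP 0 0 2 0 0) ≤ (12752973569 : ℝ) / 10 ^ 12 := by
    have h := RS_le 3 2 _ 184 L_0_0_2_0_0 B_0_0_2_0_0 (by decide)
    have h' : ((L_0_0_2_0_0.take (401 - zlo 3 - 184)).drop (400 - 2 - zhi 3 - 184)).sum ≤ 12752973569 := by decide +kernel
    refine h.trans (div_le_div_of_nonneg_right ?_ (by positivity))
    exact_mod_cast h'
  rw [vl_ty]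
  norm_num [Nat.factorial] at h2 h3 ⊢
  linarith

theorem V_1_0_2_1_0 : vl (ty (1, 0, 2, 1, 0)) ≤ 2398272 / 10 ^ 9 := by
  have h0 : RS 0 3 (PP 0 0 2 1 0) ≤ (530902439 : ℝ) / 10 ^ 12 := by
    have h := RS_le 0 3 _ 314 L_0_0_2_1_0 B_0_0_2_1_0 (by decide)
    have h' : ((L_0_0_2_1_0.take (401 - zlo 0 - 314)).drop (400 - 3 - zhi 0 - 314)).sum ≤ 530902439 := by decide +kernel
    refine h.trans (div_le_div_of_nonneg_right ?_ (by positivity))
    exact_mod_cast h'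
  have h2 : RS 2 3 (PP 1 0 1 1 0) ≤ (1244475271 : ℝ) / 10 ^ 12 := by
    have h := RS_le 2 3 _ 254 L_1_0_1_1_0 B_1_0_1_1_0 (by decide)
    have h' : ((L_1_0_1_1_0.take (401 - zlo 2 - 254)).drop (400 - 3 - zhi 2 - 254)).sum ≤ 1244475271 := by decide +kernel
    refine h.trans (div_le_div_of_nonneg_right ?_ (by positivity))
    exact_mod_cast h'
  have h3 : RS 3 3 (PP 1 0 2 0 0) ≤ (1776689283 : ℝ) / 10 ^ 12 := by
    have h := RS_le 3 3 _ 216 L_1_0_2_0_0 B_1_0_2_0_0 (by decide)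
    have h' : ((L_1_0_2_0_0.take (401 - zlo 3 - 216)).drop (400 - 3 - zhi 3 - 216)).sum ≤ 1776689283 := by decide +kernel
    refine h.trans (div_le_div_of_nonneg_right ?_ (by positivity))
    exact_mod_cast h'
  rw [vl_ty]
  norm_num [Nat.factorial] at h0 h2 h3 ⊢
  linarith

theorem V_2_0_2_1_0 : vl (ty (2, 0, 2, 1, 0)) ≤ 10951 / 10 ^ 9 := by
  have h0 : RS 0 4 (PP 1 0 2 1 0) ≤ (3993599 : ℝ) / 10 ^ 12 := by
    have h := RS_le 0 4 _ 346 L_1_0_2_1_0 B_1_0_2_1_0 (by decide)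
    have h' : ((L_1_0_2_1_0.take (401 - zlo 0 - 346)).drop (400 - 4 - zhi 0 - 346)).sum ≤ 3993599 := by decide +kernel
    refine h.trans (div_le_div_of_nonneg_right ?_ (by positivity))
    exact_mod_cast h'
  have h2 : RS 2 4 (PP 2 0 1 1 0) ≤ (10557499 : ℝ) / 10 ^ 12 := by
    have h := RS_le 2 4 _ 286 L_2_0_1_1_0 B_2_0_1_1_0 (by decide)
    have h' : ((L_2_0_1_1_0.take (401 - zlo 2 - 286)).drop (400 - 4 - zhi 2 - 286)).sum ≤ 10557499 := by decide +kernel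
    refine h.trans (div_le_div_of_nonneg_right ?_ (by positivity))
    exact_mod_cast h'
  have h3 : RS 3 4 (PP 2 0 2 0 0) ≤ (14700609 : ℝ) / 10 ^ 12 := by
    have h := RS_le 3 4 _ 248 L_2_0_2_0_0 B_2_0_2_0_0 (by decide)
    have h' : ((L_2_0_2_0_0.take (401 - zlo 3 - 248)).drop (400 - 4 - zhi 3 - 248)).sum ≤ 14700609 := by decide +kernel
    refine h.trans (div_le_div_of_nonneg_right ?_ (by positivity))
    exact_mod_cast h'
  rw [vl_ty]
  norm_num [Nat.factorial] at h0 h2 h3 ⊢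
  linarith

theorem V_0_0_2_0_1 : vl (ty (0, 0, 2, 0, 1)) ≤ 21731689 / 10 ^ 9 := by
  have h2 : RS 2 2 (PP 0 0 1 0 1) ≤ (12284162304 : ℝ) / 10 ^ 12 := by
    have h := RS_le 2 2 _ 244 L_0_0_1_0_1 B_0_0_1_0_1 (by decide)
    have h' : ((L_0_0_1_0_1.take (401 - zlo 2 - 244)).drop (400 - 2 - zhi 2 - 244)).sum ≤ 12284162304 := by decide +kernel
    refine h.trans (div_le_div_of_nonneg_right ?_ (by positivity))
    exact_mod_cast h'
  have h4 : RS 4 2 (PP 0 0 2 0 0) ≤ (18895052983 : ℝ) / 10 ^ 12 := by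
    have h := RS_le 4 2 _ 184 L_0_0_2_0_0 B_0_0_2_0_0 (by decide)
    have h' : ((L_0_0_2_0_0.take (401 - zlo 4 - 184)).drop (400 - 2 - zhi 4 - 184)).sum ≤ 18895052983 := by decide +kernel
    refine h.trans (div_le_div_of_nonneg_right ?_ (by positivity))
    exact_mod_cast h'
  rw [vl_ty]
  norm_num [Nat.factorial] at h2 h4 ⊢
  linarith

theorem V_1_0_2_0_1 : vl (ty (1, 0, 2, 0, 1)) ≤ 759162 / 10 ^ 9 := by
  have h0 : RS 0 3 (PP 0 0 2 0 1) ≤ (150563819 : ℝ) / 10 ^ 12 := by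
    have h := RS_le 0 3 _ 336 L_0_0_2_0_1 B_0_0_2_0_1 (by decide)
    have h' : ((L_0_0_2_0_1.take (401 - zlo 0 - 336)).drop (400 - 3 - zhi 0 - 336)).sum ≤ 150563819 := by decide +kernel
    refine h.trans (div_le_div_of_nonneg_right ?_ (by positivity))
    exact_mod_cast h'
  have h2 : RS 2 3 (PP 1 0 1 0 1) ≤ (380104962 : ℝ) / 10 ^ 12 := by
    have h := RS_le 2 3 _ 276 L_1_0_1_0_1 B_1_0_1_0_1 (by decide)
    have h' : ((L_1_0_1_0_1.take (401 - zlo 2 - 276)).drop (400 - 3 - zhi 2 - 276)).sum ≤ 380104962 := by decide +kernel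
    refine h.trans (div_le_div_of_nonneg_right ?_ (by positivity))
    exact_mod_cast h'
  have h4 : RS 4 3 (PP 1 0 2 0 0) ≤ (607548652 : ℝ) / 10 ^ 12 := by
    have h := RS_le 4 3 _ 216 L_1_0_2_0_0 B_1_0_2_0_0 (by decide)
    have h' : ((L_1_0_2_0_0.take (401 - zlo 4 - 216)).drop (400 - 3 - zhi 4 - 216)).sum ≤ 607548652 := by decide +kernel
    refine h.trans (div_le_div_of_nonneg_right ?_ (by positivity))
    exact_mod_cast h'
  rw [vl_ty]
  norm_num [Nat.factorial] at h0 h2 h4 ⊢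
  linarith

theorem V_2_0_2_0_1 : vl (ty (2, 0, 2, 0, 1)) ≤ 1 / 10 ^ 9 := by
  have h0 : RS 0 4 (PP 1 0 2 0 1) ≤ (292 : ℝ) / 10 ^ 12 := by
    have h := RS_le 0 4 _ 368 L_1_0_2_0_1 B_1_0_2_0_1 (by decide)
    have h' : ((L_1_0_2_0_1.take (401 - zlo 0 - 368)).drop (400 - 4 - zhi 0 - 368)).sum ≤ 292 := by decide +kernel
    refine h.trans (div_le_div_of_nonneg_right ?_ (by positivity))
    exact_mod_cast h'
  have h2 : RS 2 4 (PP 2 0 1 0 1) ≤ (830 : ℝ) / 10 ^ 12 := by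
    have h := RS_le 2 4 _ 308 L_2_0_1_0_1 B_2_0_1_0_1 (by decide)
    have h' : ((L_2_0_1_0_1.take (401 - zlo 2 - 308)).drop (400 - 4 - zhi 2 - 308)).sum ≤ 830 := by decide +kernel
    refine h.trans (div_le_div_of_nonneg_right ?_ (by positivity))
    exact_mod_cast h'
  have h4 : RS 4 4 (PP 2 0 2 0 0) ≤ (1367 : ℝ) / 10 ^ 12 := by
    have h := RS_le 4 4 _ 248 L_2_0_2_0_0 B_2_0_2_0_0 (by decide)
    have h' : ((L_2_0_2_0_0.take (401 - zlo 4 - 248)).drop (400 - 4 - zhi 4 - 248)).sum ≤ 1367 := by decide +kernel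
    refine h.trans (div_le_div_of_nonneg_right ?_ (by positivity))
    exact_mod_cast h'
  rw [vl_ty]
  norm_num [Nat.factorial] at h0 h2 h4 ⊢
  linarith

theorem V_0_1_3_0_0 : vl (ty (0, 1, 3, 0, 0)) ≤ 4289383 / 10 ^ 9 := by
  have h1 : RS 1 3 (PP 0 0 3 0 0) ≤ (3318030682 : ℝ) / 10 ^ 12 := by
    have h := RS_le 1 3 _ 276 L_0_0_3_0_0 B_0_0_3_0_0 (by decide)
    have h' : ((L_0_0_3_0_0.take (401 - zlo 1 - 276)).drop (400 - 3 - zhi 1 - 276)).sum ≤ 3318030682 := by decide +kernel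
    refine h.trans (div_le_div_of_nonneg_right ?_ (by positivity))
    exact_mod_cast h'
  have h2 : RS 2 3 (PP 0 1 2 0 0) ≤ (7472754154 : ℝ) / 10 ^ 12 := by
    have h := RS_le 2 3 _ 216 L_0_1_2_0_0 B_0_1_2_0_0 (by decide)
    have h' : ((L_0_1_2_0_0.take (401 - zlo 2 - 216)).drop (400 - 3 - zhi 2 - 216)).sum ≤ 7472754154 := by decide +kernel
    refine h.trans (div_le_div_of_nonneg_right ?_ (by positivity))
    exact_mod_cast h'
  rw [vl_ty]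
  norm_num [Nat.factorial] at h1 h2 ⊢
  linarith

theorem V_1_1_3_0_0 : vl (ty (1, 1, 3, 0, 0)) ≤ 250548 / 10 ^ 9 := by
  have h0 : RS 0 4 (PP 0 1 3 0 0) ≤ (162778055 : ℝ) / 10 ^ 12 := by
    have h := RS_le 0 4 _ 308 L_0_1_3_0_0 B_0_1_3_0_0 (by decide)
    have h' : ((L_0_1_3_0_0.take (401 - zlo 0 - 308)).drop (400 - 4 - zhi 0 - 308)).sum ≤ 162778055 := by decide +kernel
    refine h.trans (div_le_div_of_nonneg_right ?_ (by positivity))
    exact_mod_cast h'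
  have h1 : RS 1 4 (PP 1 0 3 0 0) ≤ (162778216 : ℝ) / 10 ^ 12 := by
    have h := RS_le 1 4 _ 308 L_1_0_3_0_0 B_1_0_3_0_0 (by decide)
    have h' : ((L_1_0_3_0_0.take (401 - zlo 1 - 308)).drop (400 - 4 - zhi 1 - 308)).sum ≤ 162778216 := by decide +kernel
    refine h.trans (div_le_div_of_nonneg_right ?_ (by positivity))
    exact_mod_cast h'
  have h2 : RS 2 4 (PP 1 1 2 0 0) ≤ (392577022 : ℝ) / 10 ^ 12 := by
    have h := RS_le 2 4 _ 248 L_1_1_2_0_0 B_1_1_2_0_0 (by decide)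
    have h' : ((L_1_1_2_0_0.take (401 - zlo 2 - 248)).drop (400 - 4 - zhi 2 - 248)).sum ≤ 392577022 := by decide +kernel
    refine h.trans (div_le_div_of_nonneg_right ?_ (by positivity))
    exact_mod_cast h'
  rw [vl_ty]
  norm_num [Nat.factorial] at h0 h1 h2 ⊢
  linarith

theorem V_2_1_3_0_0 : vl (ty (2, 1, 3, 0, 0)) ≤ 716 / 10 ^ 9 := by
  have h0 : RS 0 5 (PP 1 1 3 0 0) ≤ (787795 : ℝ) / 10 ^ 12 := by
    have h := RS_le 0 5 _ 340 L_1_1_3_0_0 B_1_1_3_0_0 (by decide)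
    have h' : ((L_1_1_3_0_0.take (401 - zlo 0 - 340)).drop (400 - 5 - zhi 0 - 340)).sum ≤ 787795 := by decide +kernel
    refine h.trans (div_le_div_of_nonneg_right ?_ (by positivity))
    exact_mod_cast h'
  have h1 : RS 1 5 (PP 2 0 3 0 0) ≤ (787794 : ℝ) / 10 ^ 12 := by
    have h := RS_le 1 5 _ 340 L_2_0_3_0_0 B_2_0_3_0_0 (by decide)
    have h' : ((L_2_0_3_0_0.take (401 - zlo 1 - 340)).drop (400 - 5 - zhi 1 - 340)).sum ≤ 787794 := by decide +kernel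
    refine h.trans (div_le_div_of_nonneg_right ?_ (by positivity))
    exact_mod_cast h'
  have h2 : RS 2 5 (PP 2 1 2 0 0) ≤ (2073403 : ℝ) / 10 ^ 12 := by
    have h := RS_le 2 5 _ 280 L_2_1_2_0_0 B_2_1_2_0_0 (by decide)
    have h' : ((L_2_1_2_0_0.take (401 - zlo 2 - 280)).drop (400 - 5 - zhi 2 - 280)).sum ≤ 2073403 := by decide +kernel
    refine h.trans (div_le_div_of_nonneg_right ?_ (by positivity))
    exact_mod_cast h'
  rw [vl_ty]
  norm_num [Nat.factorial] at h0 h1 h2 ⊢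
  linarith

theorem V_0_0_4_0_0 : vl (ty (0, 0, 4, 0, 0)) ≤ 40136 / 10 ^ 9 := by
  have h2 : RS 2 3 (PP 0 0 3 0 0) ≤ (240815909 : ℝ) / 10 ^ 12 := by
    have h := RS_le 2 3 _ 276 L_0_0_3_0_0 B_0_0_3_0_0 (by decide)
    have h' : ((L_0_0_3_0_0.take (401 - zlo 2 - 276)).drop (400 - 3 - zhi 2 - 276)).sum ≤ 240815909 := by decide +kernel
    refine h.trans (div_le_div_of_nonneg_right ?_ (by positivity))
    exact_mod_cast h'
  rw [vl_ty]
  norm_num [Nat.factorial] at h2 ⊢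
  linarith

theorem V_1_0_4_0_0 : vl (ty (1, 0, 4, 0, 0)) ≤ 1 / 10 ^ 9 := by
  have h0 : RS 0 4 (PP 0 0 4 0 0) ≤ (169 : ℝ) / 10 ^ 12 := by
    have h := RS_le 0 4 _ 368 L_0_0_4_0_0 B_0_0_4_0_0 (by decide)
    have h' : ((L_0_0_4_0_0.take (401 - zlo 0 - 368)).drop (400 - 4 - zhi 0 - 368)).sum ≤ 169 := by decide +kernel
    refine h.trans (div_le_div_of_nonneg_right ?_ (by positivity))
    exact_mod_cast h'
  have h2 : RS 2 4 (PP 1 0 3 0 0) ≤ (481 : ℝ) / 10 ^ 12 := by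
    have h := RS_le 2 4 _ 308 L_1_0_3_0_0 B_1_0_3_0_0 (by decide)
    have h' : ((L_1_0_3_0_0.take (401 - zlo 2 - 308)).drop (400 - 4 - zhi 2 - 308)).sum ≤ 481 := by decide +kernel
    refine h.trans (div_le_div_of_nonneg_right ?_ (by positivity))
    exact_mod_cast h'
  rw [vl_ty]
  norm_num [Nat.factorial] at h0 h2 ⊢
  linarith

theorem V_3_1_0_0_0 : vl (ty (3, 1, 0, 0, 0)) ≤ 86477449 / 10 ^ 9 := by
  have h0 : RS 0 3 (PP 2 1 0 0 0) ≤ (147278921376 : ℝ) / 10 ^ 12 := by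
    have h := RS_le 0 3 _ 96 L_2_1_0_0_0 B_2_1_0_0_0 (by decide)
    have h' : ((L_2_1_0_0_0.take (401 - zlo 0 - 96)).drop (400 - 3 - zhi 0 - 96)).sum ≤ 147278921376 := by decide +kernel
    refine h.trans (div_le_div_of_nonneg_right ?_ (by positivity))
    exact_mod_cast h'
  have h1 : RS 1 3 (PP 3 0 0 0 0) ≤ (77027928784 : ℝ) / 10 ^ 12 := by
    have h := RS_le 1 3 _ 96 L_3_0_0_0_0 B_3_0_0_0_0 (by decide)
    have h' : ((L_3_0_0_0_0.take (401 - zlo 1 - 96)).drop (400 - 3 - zhi 1 - 96)).sum ≤ 77027928784 := by decide +kernel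
    refine h.trans (div_le_div_of_nonneg_right ?_ (by positivity))
    exact_mod_cast h'
  rw [vl_ty]
  norm_num [Nat.factorial] at h0 h1 ⊢
  linarith

theorem V_4_1_0_0_0 : vl (ty (4, 1, 0, 0, 0)) ≤ 11257984 / 10 ^ 9 := by
  have h0 : RS 0 4 (PP 3 1 0 0 0) ≤ (57666884055 : ℝ) / 10 ^ 12 := by
    have h := RS_le 0 4 _ 128 L_3_1_0_0_0 B_3_1_0_0_0 (by decide)
    have h' : ((L_3_1_0_0_0.take (401 - zlo 0 - 128)).drop (400 - 4 - zhi 0 - 128)).sum ≤ 57666884055 := by decide +kernel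
    refine h.trans (div_le_div_of_nonneg_right ?_ (by positivity))
    exact_mod_cast h'
  have h1 : RS 1 4 (PP 4 0 0 0 0) ≤ (39524074596 : ℝ) / 10 ^ 12 := by
    have h := RS_le 1 4 _ 128 L_4_0_0_0_0 B_4_0_0_0_0 (by decide)
    have h' : ((L_4_0_0_0_0.take (401 - zlo 1 - 128)).drop (400 - 4 - zhi 1 - 128)).sum ≤ 39524074596 := by decide +kernel
    refine h.trans (div_le_div_of_nonneg_right ?_ (by positivity))
    exact_mod_cast h'
  rw [vl_ty]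
  norm_num [Nat.factorial] at h0 h1 ⊢
  linarith

theorem V_5_1_0_0_0 : vl (ty (5, 1, 0, 0, 0)) ≤ 744338 / 10 ^ 9 := by
  have h0 : RS 0 5 (PP 4 1 0 0 0) ≤ (15330882562 : ℝ) / 10 ^ 12 := by
    have h := RS_le 0 5 _ 160 L_4_1_0_0_0 B_4_1_0_0_0 (by decide)
    have h' : ((L_4_1_0_0_0.take (401 - zlo 0 - 160)).drop (400 - 5 - zhi 0 - 160)).sum ≤ 15330882562 := by decide +kernel
    refine h.trans (div_le_div_of_nonneg_right ?_ (by positivity))
    exact_mod_cast h'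
  have h1 : RS 1 5 (PP 5 0 0 0 0) ≤ (12666037314 : ℝ) / 10 ^ 12 := by
    have h := RS_le 1 5 _ 160 L_5_0_0_0_0 B_5_0_0_0_0 (by decide)
    have h' : ((L_5_0_0_0_0.take (401 - zlo 1 - 160)).drop (400 - 5 - zhi 1 - 160)).sum ≤ 12666037314 := by decide +kernel
    refine h.trans (div_le_div_of_nonneg_right ?_ (by positivity))
    exact_mod_cast h'
  rw [vl_ty]
  norm_num [Nat.factorial] at h0 h1 ⊢
  linarith

theorem V_6_1_0_0_0 : vl (ty (6, 1, 0, 0, 0)) ≤ 24671 / 10 ^ 9 := by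
  have h0 : RS 0 6 (PP 5 1 0 0 0) ≤ (2562749079 : ℝ) / 10 ^ 12 := by
    have h := RS_le 0 6 _ 192 L_5_1_0_0_0 B_5_1_0_0_0 (by decide)
    have h' : ((L_5_1_0_0_0.take (401 - zlo 0 - 192)).drop (400 - 6 - zhi 0 - 192)).sum ≤ 2562749079 := by decide +kernel
    refine h.trans (div_le_div_of_nonneg_right ?_ (by positivity))
    exact_mod_cast h'
  have h1 : RS 1 6 (PP 6 0 0 0 0) ≤ (2386080888 : ℝ) / 10 ^ 12 := by
    have h := RS_le 1 6 _ 192 L_6_0_0_0_0 B_6_0_0_0_0 (by decide)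
    have h' : ((L_6_0_0_0_0.take (401 - zlo 1 - 192)).drop (400 - 6 - zhi 1 - 192)).sum ≤ 2386080888 := by decide +kernel
    refine h.trans (div_le_div_of_nonneg_right ?_ (by positivity))
    exact_mod_cast h'
  rw [vl_ty]
  norm_num [Nat.factorial] at h0 h1 ⊢
  linarith

theorem V_7_1_0_0_0 : vl (ty (7, 1, 0, 0, 0)) ≤ 378 / 10 ^ 9 := by
  have h0 : RS 0 7 (PP 6 1 0 0 0) ≤ (238013049 : ℝ) / 10 ^ 12 := by
    have h := RS_le 0 7 _ 224 L_6_1_0_0_0 B_6_1_0_0_0 (by decide)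
    have h' : ((L_6_1_0_0_0.take (401 - zlo 0 - 224)).drop (400 - 7 - zhi 0 - 224)).sum ≤ 238013049 := by decide +kernel
    refine h.trans (div_le_div_of_nonneg_right ?_ (by positivity))
    exact_mod_cast h'
  have h1 : RS 1 7 (PP 7 0 0 0 0) ≤ (235075361 : ℝ) / 10 ^ 12 := by
    have h := RS_le 1 7 _ 224 L_7_0_0_0_0 B_7_0_0_0_0 (by decide)
    have h' : ((L_7_0_0_0_0.take (401 - zlo 1 - 224)).drop (400 - 7 - zhi 1 - 224)).sum ≤ 235075361 := by decide +kernel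
    refine h.trans (div_le_div_of_nonneg_right ?_ (by positivity))
    exact_mod_cast h'
  rw [vl_ty]
  norm_num [Nat.factorial] at h0 h1 ⊢
  linarith

theorem V_8_1_0_0_0 : vl (ty (8, 1, 0, 0, 0)) ≤ 3 / 10 ^ 9 := by
  have h0 : RS 0 8 (PP 7 1 0 0 0) ≤ (10000793 : ℝ) / 10 ^ 12 := by
    have h := RS_le 0 8 _ 256 L_7_1_0_0_0 B_7_1_0_0_0 (by decide)
    have h' : ((L_7_1_0_0_0.take (401 - zlo 0 - 256)).drop (400 - 8 - zhi 0 - 256)).sum ≤ 10000793 := by decide +kernel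
    refine h.trans (div_le_div_of_nonneg_right ?_ (by positivity))
    exact_mod_cast h'
  have h1 : RS 1 8 (PP 8 0 0 0 0) ≤ (10008723 : ℝ) / 10 ^ 12 := by
    have h := RS_le 1 8 _ 256 L_8_0_0_0_0 B_8_0_0_0_0 (by decide)
    have h' : ((L_8_0_0_0_0.take (401 - zlo 1 - 256)).drop (400 - 8 - zhi 1 - 256)).sum ≤ 10008723 := by decide +kernel
    refine h.trans (div_le_div_of_nonneg_right ?_ (by positivity))
    exact_mod_cast h'
  rw [vl_ty]
  norm_num [Nat.factorial] at h0 h1 ⊢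
  linarith

theorem V_9_1_0_0_0 : vl (ty (9, 1, 0, 0, 0)) ≤ 1 / 10 ^ 9 := by
  have h0 : RS 0 9 (PP 8 1 0 0 0) ≤ (129620 : ℝ) / 10 ^ 12 := by
    have h := RS_le 0 9 _ 288 L_8_1_0_0_0 B_8_1_0_0_0 (by decide)
    have h' : ((L_8_1_0_0_0.take (401 - zlo 0 - 288)).drop (400 - 9 - zhi 0 - 288)).sum ≤ 129620 := by decide +kernel
    refine h.trans (div_le_div_of_nonneg_right ?_ (by positivity))
    exact_mod_cast h'
  have h1 : RS 1 9 (PP 9 0 0 0 0) ≤ (129613 : ℝ) / 10 ^ 12 := by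
    have h := RS_le 1 9 _ 288 L_9_0_0_0_0 B_9_0_0_0_0 (by decide)
    have h' : ((L_9_0_0_0_0.take (401 - zlo 1 - 288)).drop (400 - 9 - zhi 1 - 288)).sum ≤ 129613 := by decide +kernel
    refine h.trans (div_le_div_of_nonneg_right ?_ (by positivity))
    exact_mod_cast h'
  rw [vl_ty]
  norm_num [Nat.factorial] at h0 h1 ⊢
  linarith

theorem V_10_1_0_0_0 : vl (ty (10, 1, 0, 0, 0)) ≤ 1 / 10 ^ 9 := by
  have h0 : RS 0 10 (PP 9 1 0 0 0) ≤ (245 : ℝ) / 10 ^ 12 := by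
    have h := RS_le 0 10 _ 320 L_9_1_0_0_0 B_9_1_0_0_0 (by decide)
    have h' : ((L_9_1_0_0_0.take (401 - zlo 0 - 320)).drop (400 - 10 - zhi 0 - 320)).sum ≤ 245 := by decide +kernel
    refine h.trans (div_le_div_of_nonneg_right ?_ (by positivity))
    exact_mod_cast h'
  have h1 : RS 1 10 (PP 10 0 0 0 0) ≤ (245 : ℝ) / 10 ^ 12 := by
    have h := RS_le 1 10 _ 320 L_10_0_0_0_0 B_10_0_0_0_0 (by decide)
    have h' : ((L_10_0_0_0_0.take (401 - zlo 1 - 320)).drop (400 - 10 - zhi 1 - 320)).sum ≤ 245 := by decide +kernel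
    refine h.trans (div_le_div_of_nonneg_right ?_ (by positivity))
    exact_mod_cast h'
  rw [vl_ty]
  norm_num [Nat.factorial] at h0 h1 ⊢
  linarith

theorem V_11_1_0_0_0 : vl (ty (11, 1, 0, 0, 0)) ≤ 1 / 10 ^ 9 := by
  have h0 : RS 0 11 (PP 10 1 0 0 0) ≤ (17 : ℝ) / 10 ^ 12 := by
    have h := RS_le 0 11 _ 352 L_10_1_0_0_0 B_10_1_0_0_0 (by decide)
    have h' : ((L_10_1_0_0_0.take (401 - zlo 0 - 352)).drop (400 - 11 - zhi 0 - 352)).sum ≤ 17 := by decide +kernel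
    refine h.trans (div_le_div_of_nonneg_right ?_ (by positivity))
    exact_mod_cast h'
  have h1 : RS 1 11 (PP 11 0 0 0 0) ≤ (17 : ℝ) / 10 ^ 12 := by
    have h := RS_le 1 11 _ 352 L_11_0_0_0_0 B_11_0_0_0_0 (by decide)
    have h' : ((L_11_0_0_0_0.take (401 - zlo 1 - 352)).drop (400 - 11 - zhi 1 - 352)).sum ≤ 17 := by decide +kernel
    refine h.trans (div_le_div_of_nonneg_right ?_ (by positivity))
    exact_mod_cast h'
  rw [vl_ty]
  norm_num [Nat.factorial] at h0 h1 ⊢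
  linarith

theorem V_3_0_1_0_0 : vl (ty (3, 0, 1, 0, 0)) ≤ 68718431 / 10 ^ 9 := by
  have h0 : RS 0 3 (PP 2 0 1 0 0) ≤ (84347155540 : ℝ) / 10 ^ 12 := by
    have h := RS_le 0 3 _ 156 L_2_0_1_0_0 B_2_0_1_0_0 (by decide)
    have h' : ((L_2_0_1_0_0.take (401 - zlo 0 - 156)).drop (400 - 3 - zhi 0 - 156)).sum ≤ 84347155540 := by decide +kernel
    refine h.trans (div_le_div_of_nonneg_right ?_ (by positivity))
    exact_mod_cast h'
  have h2 : RS 2 3 (PP 3 0 0 0 0) ≤ (159269113421 : ℝ) / 10 ^ 12 := by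
    have h := RS_le 2 3 _ 96 L_3_0_0_0_0 B_3_0_0_0_0 (by decide)
    have h' : ((L_3_0_0_0_0.take (401 - zlo 2 - 96)).drop (400 - 3 - zhi 2 - 96)).sum ≤ 159269113421 := by decide +kernel
    refine h.trans (div_le_div_of_nonneg_right ?_ (by positivity))
    exact_mod_cast h'
  rw [vl_ty]
  norm_num [Nat.factorial] at h0 h2 ⊢
  linarith

theorem V_4_0_1_0_0 : vl (ty (4, 0, 1, 0, 0)) ≤ 5109888 / 10 ^ 9 := by
  have h0 : RS 0 4 (PP 3 0 1 0 0) ≤ (20377452746 : ℝ) / 10 ^ 12 := by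
    have h := RS_le 0 4 _ 188 L_3_0_1_0_0 B_3_0_1_0_0 (by decide)
    have h' : ((L_3_0_1_0_0.take (401 - zlo 0 - 188)).drop (400 - 4 - zhi 0 - 188)).sum ≤ 20377452746 := by decide +kernel
    refine h.trans (div_le_div_of_nonneg_right ?_ (by positivity))
    exact_mod_cast h'
  have h2 : RS 2 4 (PP 4 0 0 0 0) ≤ (41127492530 : ℝ) / 10 ^ 12 := by
    have h := RS_le 2 4 _ 128 L_4_0_0_0_0 B_4_0_0_0_0 (by decide)
    have h' : ((L_4_0_0_0_0.take (401 - zlo 2 - 128)).drop (400 - 4 - zhi 2 - 128)).sum ≤ 41127492530 := by decide +kernel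
    refine h.trans (div_le_div_of_nonneg_right ?_ (by positivity))
    exact_mod_cast h'
  rw [vl_ty]
  norm_num [Nat.factorial] at h0 h2 ⊢
  linarith

theorem V_5_0_1_0_0 : vl (ty (5, 0, 1, 0, 0)) ≤ 179515 / 10 ^ 9 := by
  have h0 : RS 0 5 (PP 4 0 1 0 0) ≤ (3012076424 : ℝ) / 10 ^ 12 := by
    have h := RS_le 0 5 _ 220 L_4_0_1_0_0 B_4_0_1_0_0 (by decide)
    have h' : ((L_4_0_1_0_0.take (401 - zlo 0 - 220)).drop (400 - 5 - zhi 0 - 220)).sum ≤ 3012076424 := by decide +kernel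
    refine h.trans (div_le_div_of_nonneg_right ?_ (by positivity))
    exact_mod_cast h'
  have h2 : RS 2 5 (PP 5 0 0 0 0) ≤ (6481406646 : ℝ) / 10 ^ 12 := by
    have h := RS_le 2 5 _ 160 L_5_0_0_0_0 B_5_0_0_0_0 (by decide)
    have h' : ((L_5_0_0_0_0.take (401 - zlo 2 - 160)).drop (400 - 5 - zhi 2 - 160)).sum ≤ 6481406646 := by decide +kernel
    refine h.trans (div_le_div_of_nonneg_right ?_ (by positivity))
    exact_mod_cast h'
  rw [vl_ty]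
  norm_num [Nat.factorial] at h0 h2 ⊢
  linarith

theorem V_6_0_1_0_0 : vl (ty (6, 0, 1, 0, 0)) ≤ 2662 / 10 ^ 9 := by
  have h0 : RS 0 6 (PP 5 0 1 0 0) ≤ (231143673 : ℝ) / 10 ^ 12 := by
    have h := RS_le 0 6 _ 252 L_5_0_1_0_0 B_5_0_1_0_0 (by decide)
    have h' : ((L_5_0_1_0_0.take (401 - zlo 0 - 252)).drop (400 - 6 - zhi 0 - 252)).sum ≤ 231143673 := by decide +kernel
    refine h.trans (div_le_div_of_nonneg_right ?_ (by positivity))
    exact_mod_cast h'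
  have h2 : RS 2 6 (PP 6 0 0 0 0) ≤ (529311757 : ℝ) / 10 ^ 12 := by
    have h := RS_le 2 6 _ 192 L_6_0_0_0_0 B_6_0_0_0_0 (by decide)
    have h' : ((L_6_0_0_0_0.take (401 - zlo 2 - 192)).drop (400 - 6 - zhi 2 - 192)).sum ≤ 529311757 := by decide +kernel
    refine h.trans (div_le_div_of_nonneg_right ?_ (by positivity))
    exact_mod_cast h'
  rw [vl_ty]
  norm_num [Nat.factorial] at h0 h2 ⊢
  linarith

theorem V_7_0_1_0_0 : vl (ty (7, 0, 1, 0, 0)) ≤ 13 / 10 ^ 9 := by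
  have h0 : RS 0 7 (PP 6 0 1 0 0) ≤ (6721155 : ℝ) / 10 ^ 12 := by
    have h := RS_le 0 7 _ 284 L_6_0_1_0_0 B_6_0_1_0_0 (by decide)
    have h' : ((L_6_0_1_0_0.take (401 - zlo 0 - 284)).drop (400 - 7 - zhi 0 - 284)).sum ≤ 6721155 := by decide +kernel
    refine h.trans (div_le_div_of_nonneg_right ?_ (by positivity))
    exact_mod_cast h'
  have h2 : RS 2 7 (PP 7 0 0 0 0) ≤ (16358014 : ℝ) / 10 ^ 12 := by
    have h := RS_le 2 7 _ 224 L_7_0_0_0_0 B_7_0_0_0_0 (by decide)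
    have h' : ((L_7_0_0_0_0.take (401 - zlo 2 - 224)).drop (400 - 7 - zhi 2 - 224)).sum ≤ 16358014 := by decide +kernel
    refine h.trans (div_le_div_of_nonneg_right ?_ (by positivity))
    exact_mod_cast h'
  rw [vl_ty]
  norm_num [Nat.factorial] at h0 h2 ⊢
  linarith

theorem V_8_0_1_0_0 : vl (ty (8, 0, 1, 0, 0)) ≤ 1 / 10 ^ 9 := by
  have h0 : RS 0 8 (PP 7 0 1 0 0) ≤ (35826 : ℝ) / 10 ^ 12 := by
    have h := RS_le 0 8 _ 316 L_7_0_1_0_0 B_7_0_1_0_0 (by decide)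
    have h' : ((L_7_0_1_0_0.take (401 - zlo 0 - 316)).drop (400 - 8 - zhi 0 - 316)).sum ≤ 35826 := by decide +kernel
    refine h.trans (div_le_div_of_nonneg_right ?_ (by positivity))
    exact_mod_cast h'
  have h2 : RS 2 8 (PP 8 0 0 0 0) ≤ (92544 : ℝ) / 10 ^ 12 := by
    have h := RS_le 2 8 _ 256 L_8_0_0_0_0 B_8_0_0_0_0 (by decide)
    have h' : ((L_8_0_0_0_0.take (401 - zlo 2 - 256)).drop (400 - 8 - zhi 2 - 256)).sum ≤ 92544 := by decide +kernel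
    refine h.trans (div_le_div_of_nonneg_right ?_ (by positivity))
    exact_mod_cast h'
  rw [vl_ty]
  norm_num [Nat.factorial] at h0 h2 ⊢
  linarith

theorem V_9_0_1_0_0 : vl (ty (9, 0, 1, 0, 0)) ≤ 1 / 10 ^ 9 := by
  have h0 : RS 0 9 (PP 8 0 1 0 0) ≤ (21 : ℝ) / 10 ^ 12 := by
    have h := RS_le 0 9 _ 348 L_8_0_1_0_0 B_8_0_1_0_0 (by decide)
    have h' : ((L_8_0_1_0_0.take (401 - zlo 0 - 348)).drop (400 - 9 - zhi 0 - 348)).sum ≤ 21 := by decide +kernel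
    refine h.trans (div_le_div_of_nonneg_right ?_ (by positivity))
    exact_mod_cast h'
  have h2 : RS 2 9 (PP 9 0 0 0 0) ≤ (25 : ℝ) / 10 ^ 12 := by
    have h := RS_le 2 9 _ 288 L_9_0_0_0_0 B_9_0_0_0_0 (by decide)
    have h' : ((L_9_0_0_0_0.take (401 - zlo 2 - 288)).drop (400 - 9 - zhi 2 - 288)).sum ≤ 25 := by decide +kernel
    refine h.trans (div_le_div_of_nonneg_right ?_ (by positivity))
    exact_mod_cast h'
  rw [vl_ty]
  norm_num [Nat.factorial] at h0 h2 ⊢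
  linarith

/-- the weighted sum -/
theorem total : (badL.map fun k => wty k * vl (ty k)).sum * (4 / 25 * AA) ≤ 2991 / 10000 := by
  have hAA : AA = 35647947 / 10 ^ 7 := by unfold AA AAn; norm_num
  have v_0_0_0_1_1 := V_0_0_0_1_1
  have v_1_0_0_1_1 := V_1_0_0_1_1
  have v_2_0_0_1_1 := V_2_0_0_1_1
  have v_3_0_0_1_1 := V_3_0_0_1_1
  have v_0_0_0_0_2 := V_0_0_0_0_2
  have v_1_0_0_0_2 := V_1_0_0_0_2
  have v_2_0_0_0_2 := V_2_0_0_0_2
  have v_3_0_0_0_2 := V_3_0_0_0_2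
  have v_0_1_1_0_1 := V_0_1_1_0_1
  have v_1_1_1_0_1 := V_1_1_1_0_1
  have v_2_1_1_0_1 := V_2_1_1_0_1
  have v_3_1_1_0_1 := V_3_1_1_0_1
  have v_0_0_2_1_0 := V_0_0_2_1_0
  have v_1_0_2_1_0 := V_1_0_2_1_0
  have v_2_0_2_1_0 := V_2_0_2_1_0
  have v_0_0_2_0_1 := V_0_0_2_0_1
  have v_1_0_2_0_1 := V_1_0_2_0_1
  have v_2_0_2_0_1 := V_2_0_2_0_1
  have v_0_1_3_0_0 := V_0_1_3_0_0
  have v_1_1_3_0_0 := V_1_1_3_0_0
  have v_2_1_3_0_0 := V_2_1_3_0_0
  have v_0_0_4_0_0 := V_0_0_4_0_0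
  have v_1_0_4_0_0 := V_1_0_4_0_0
  have v_3_1_0_0_0 := V_3_1_0_0_0
  have v_4_1_0_0_0 := V_4_1_0_0_0
  have v_5_1_0_0_0 := V_5_1_0_0_0
  have v_6_1_0_0_0 := V_6_1_0_0_0
  have v_7_1_0_0_0 := V_7_1_0_0_0
  have v_8_1_0_0_0 := V_8_1_0_0_0
  have v_9_1_0_0_0 := V_9_1_0_0_0
  have v_10_1_0_0_0 := V_10_1_0_0_0
  have v_11_1_0_0_0 := V_11_1_0_0_0
  have v_3_0_1_0_0 := V_3_0_1_0_0
  have v_4_0_1_0_0 := V_4_0_1_0_0
  have v_5_0_1_0_0 := V_5_0_1_0_0
  have v_6_0_1_0_0 := V_6_0_1_0_0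
  have v_7_0_1_0_0 := V_7_0_1_0_0
  have v_8_0_1_0_0 := V_8_0_1_0_0
  have v_9_0_1_0_0 := V_9_0_1_0_0
  have hsum : (badL.map fun k => wty k * vl (ty k)).sum ≤ 52428 / 100000 := by
    unfold badL wty
    norm_num
    linarith
  rw [hAA]
  have : (badL.map fun k => wty k * vl (ty k)).sum * (4 / 25 * (35647947 / 10 ^ 7)) ≤ 52428 / 100000 * (4 / 25 * (35647947 / 10 ^ 7)) :=
    mul_le_mul_of_nonneg_right hsum (by positivity)
  refine this.trans ?_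
  norm_num

end Pool.Agent.CC.N2
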