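import Pool.Agent.CC.Defs

/-! CC, part A: Rosser's functional. -/

set_option autoImplicit false

namespace Pool.Agent.CC

open Finset

/-- MODULE MEMPR (easy, `Nat.lt_ceil`). -/
theorem mem_pr {m : ℕ} {W z : ℝ} {p : ℕ} :
    p ∈ pr m W z ↔ p.Prime ∧ ¬ p ∣ m ∧ W ≤ (p : ℝ) ∧ (p : ℝ) < z := by
  unfold pr
  rw [mem_filter, mem_range, Nat.lt_ceil]
  tauto

/-- MODULE RO_CONGR.  `Ro` depends only on the values `h b`, `b` squarefree with all prime factors in `pr m W z`.
Proof: induction on `n` (generalizing `t z D h h'`).  `h 1 = h' 1` since `1` is squarefree.  For `p ∈ pr m W z` apply the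
induction hypothesis to `fun b => h (p * b)` and the primes `< p`: if `b` is squarefree with all prime factors in
`pr m W p` then `p ∤ b` (its primes are `< p`), so `p * b` is squarefree and `(p*b).primeFactors = insert p b.primeFactors`
is contained in `pr m W z`. -/
theorem Ro_congr (m : ℕ) (W : ℝ) (n : ℕ) (t : Bool) (z D : ℝ) (h h' : ℕ → ℝ)
    (H : ∀ b : ℕ, Squarefree b → (∀ p ∈ b.primeFactors, p ∈ pr m W z) → h b = h' b) :
    Ro m W n t z D h = Ro m W n t z D h' := by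
  induction n generalizing t z D h h' with
  | zero =>
    simp only [Ro]
    exact H 1 squarefree_one fun p hp => by simp at hp
  | succ n ih =>
    have h1 : h 1 = h' 1 := H 1 squarefree_one fun p hp => by simp at hp
    have h2 : ∀ (t : Bool) (D : ℝ), ∀ p ∈ pr m W z,
        Ro m W n t (p : ℝ) D (fun b => h (p * b)) = Ro m W n t (p : ℝ) D (fun b => h' (p * b)) := by
      intro t D p hp
      have hp' := mem_pr.1 hp
      refine ih t (p : ℝ) D _ _ fun b hb hbp => ?_
      have hlt : ∀ q ∈ b.primeFactors, q < p := fun q hq => by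
        have := (mem_pr.1 (hbp q hq)).2.2.2
        exact_mod_cast this
      have hpb : ¬ p ∣ b := fun h3 =>
        lt_irrefl p (hlt p (Nat.mem_primeFactors.2 ⟨hp'.1, h3, hb.ne_zero⟩))
      have hco : p.Coprime b := (Nat.Prime.coprime_iff_not_dvd hp'.1).2 hpb
      refine H (p * b) ((Nat.squarefree_mul hco).2 ⟨hp'.1.prime.squarefree, hb⟩) fun q hq => ?_
      rw [Nat.Coprime.primeFactors_mul hco, mem_union, hp'.1.primeFactors, mem_singleton] at hq
      rcases hq with rfl | hq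
      · exact hp
      · have h4 := mem_pr.1 (hbp q hq)
        exact mem_pr.2 ⟨h4.1, h4.2.1, h4.2.2.1, h4.2.2.2.trans hp'.2.2.2⟩
    cases t with
    | true =>
      simp only [Ro]
      rw [h1]
      congr 1
      exact sum_congr rfl fun p hp => h2 _ _ p (mem_filter.1 hp).1
    | false =>
      simp only [Ro]
      rw [h1]
      congr 1
      exact sum_congr rfl fun p hp => h2 _ _ p hp

/-- MODULE RO_SUM (linearity; induction on `n`). -/
theorem Ro_sum (m : ℕ) (W : ℝ) (n : ℕ) (t : Bool) (z D : ℝ) {ι : Type} (I : Finset ι) (w : ι → ℝ) (h : ι → ℕ → ℝ) :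
    Ro m W n t z D (fun b => ∑ k ∈ I, w k * h k b) = ∑ k ∈ I, w k * Ro m W n t z D (h k) := by
  induction n generalizing t z D h with
  | zero => simp only [Ro]
  | succ n ih =>
    cases t with
    | true =>
      simp only [Ro]
      have h1 : ∀ p : ℕ, Ro m W n false (p : ℝ) (D / p) (fun b => ∑ k ∈ I, w k * h k (p * b)) =
          ∑ k ∈ I, w k * Ro m W n false (p : ℝ) (D / p) (fun b => h k (p * b)) := fun p =>
        ih false (p : ℝ) (D / p) fun k b => h k (p * b)
      simp only [h1, mul_sub, sum_sub_distrib]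
      congr 1
      rw [sum_comm]
      exact sum_congr rfl fun k _ => by rw [mul_sum]
    | false =>
      simp only [Ro]
      have h1 : ∀ p : ℕ, Ro m W n true (p : ℝ) (D / p) (fun b => ∑ k ∈ I, w k * h k (p * b)) =
          ∑ k ∈ I, w k * Ro m W n true (p : ℝ) (D / p) (fun b => h k (p * b)) := fun p =>
        ih true (p : ℝ) (D / p) fun k b => h k (p * b)
      simp only [h1, mul_sub, sum_sub_distrib]
      congr 1
      rw [sum_comm]
      exact sum_congr rfl fun k _ => by rw [mul_sum]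

/-- MODULE RO_SUM, second part (the case `I = {()}`). -/
theorem Ro_smul (m : ℕ) (W : ℝ) (n : ℕ) (t : Bool) (z D : ℝ) (c : ℝ) (h : ℕ → ℝ) :
    Ro m W n t z D (fun b => c * h b) = c * Ro m W n t z D h := by
  have h1 := Ro_sum m W n t z D (Finset.univ : Finset Unit) (fun _ => c) (fun _ => h)
  simp only [univ_unique, sum_singleton] at h1
  exact h1

private theorem RO_BOUND_mul {m : ℕ} {W z : ℝ} {p b : ℕ} (hp : p ∈ pr m W z) (hb : Squarefree b)
    (hbp : ∀ q ∈ b.primeFactors, q ∈ pr m W (p : ℝ)) :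
    Squarefree (p * b) ∧ ∀ q ∈ (p * b).primeFactors, q ∈ pr m W z := by
  have hp' := mem_pr.1 hp
  have hlt : ∀ q ∈ b.primeFactors, q < p := fun q hq => by
    have := (mem_pr.1 (hbp q hq)).2.2.2
    exact_mod_cast this
  have hpb : ¬ p ∣ b := fun h3 =>
    lt_irrefl p (hlt p (Nat.mem_primeFactors.2 ⟨hp'.1, h3, hb.ne_zero⟩))
  have hco : p.Coprime b := (Nat.Prime.coprime_iff_not_dvd hp'.1).2 hpb
  refine ⟨(Nat.squarefree_mul hco).2 ⟨hp'.1.prime.squarefree, hb⟩, fun q hq => ?_⟩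
  rw [Nat.Coprime.primeFactors_mul hco, mem_union, hp'.1.primeFactors, mem_singleton] at hq
  rcases hq with rfl | hq
  · exact hp
  · have h4 := mem_pr.1 (hbp q hq)
    exact mem_pr.2 ⟨h4.1, h4.2.1, h4.2.2.1, h4.2.2.2.trans hp'.2.2.2⟩

private theorem RO_BOUND_lev {m : ℕ} {W z E : ℝ} {b : ℕ} :
    b ∈ lev m W z E ↔ (1 ≤ b ∧ b ≤ ⌊E⌋₊) ∧ Squarefree b ∧ ∀ p ∈ b.primeFactors, p ∈ pr m W z := by
  unfold lev
  rw [mem_filter, mem_Icc]

private theorem RO_BOUND_inj {p b p' b' : ℕ} (hp : p.Prime) (hp' : p'.Prime) (hb0 : b ≠ 0)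
    (hb : ∀ q ∈ b.primeFactors, q < p) (h : p * b = p' * b') : p' ≤ p := by
  by_contra hlt
  push Not at hlt
  have h1 : p' ∣ p * b := h ▸ Dvd.intro _ rfl
  rcases (Nat.Prime.dvd_mul hp').1 h1 with h2 | h2
  · have := (Nat.prime_dvd_prime_iff_eq hp' hp).1 h2
    omega
  · have := hb p' (Nat.mem_primeFactors.2 ⟨hp', h2, hb0⟩)
    omega

private theorem RO_BOUND_aux (m : ℕ) (W z D : ℝ) (h : ℕ → ℝ) (P : Finset ℕ) (hP : P ⊆ pr m W z)
    (hD : ∀ p ∈ P, (1 : ℝ) ≤ D / p) :
    |h 1| + ∑ p ∈ P, ∑ b ∈ lev m W (p : ℝ) (D / p), |h (p * b)| ≤ ∑ b ∈ lev m W z (max 1 D), |h b| := by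
  classical
  have h1 : 1 ∈ lev m W z (max 1 D) := by
    rw [RO_BOUND_lev]
    refine ⟨⟨le_refl 1, Nat.le_floor ?_⟩, squarefree_one, fun p hp => by simp at hp⟩
    rw [Nat.cast_one]
    exact le_max_left _ _
  rw [← add_sum_erase _ _ h1]
  refine add_le_add le_rfl ?_
  rw [sum_sigma']
  have hlt : ∀ x ∈ P.sigma (fun p => lev m W (p : ℝ) (D / p)), x.1.Prime ∧ x.1 ∈ pr m W z ∧
      x.2 ≠ 0 ∧ (∀ q ∈ x.2.primeFactors, q < x.1) ∧ x.1 * x.2 ∈ (lev m W z (max 1 D)).erase 1 := by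
    intro x hx
    rw [mem_sigma, RO_BOUND_lev] at hx
    obtain ⟨hx1, ⟨hx2, hx3⟩, hx4, hx5⟩ := hx
    have hp := hP hx1
    have hp' := mem_pr.1 hp
    have hmul := RO_BOUND_mul hp hx4 hx5
    have hp0 : (0 : ℝ) < (x.1 : ℝ) := by exact_mod_cast hp'.1.pos
    refine ⟨hp'.1, hp, by omega, fun q hq => ?_, ?_⟩
    · have := (mem_pr.1 (hx5 q hq)).2.2.2
      exact_mod_cast this
    · rw [mem_erase, RO_BOUND_lev]
      refine ⟨fun h3 => hp'.1.one_lt.ne' (Nat.eq_one_of_mul_eq_one_right h3), ⟨?_, ?_⟩, hmul⟩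
      · exact Nat.mul_pos hp'.1.pos hx2
      · apply Nat.le_floor
        refine le_trans ?_ (le_max_right _ _)
        have h4 : (x.2 : ℝ) ≤ D / x.1 := (Nat.le_floor_iff (by linarith [hD x.1 hx1])).1 hx3
        push_cast
        rw [le_div_iff₀ hp0] at h4
        linarith
  have hinj : Set.InjOn (fun x : (Σ _ : ℕ, ℕ) => x.1 * x.2)
      (P.sigma (fun p => lev m W (p : ℝ) (D / p)) : Set (Σ _ : ℕ, ℕ)) := by
    intro x hx y hy hxy
    have hx' := hlt x hx
    have hy' := hlt y hy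
    have h3 : y.1 ≤ x.1 := RO_BOUND_inj hx'.1 hy'.1 hx'.2.2.1 hx'.2.2.2.1 hxy
    have h4 : x.1 ≤ y.1 := RO_BOUND_inj hy'.1 hx'.1 hy'.2.2.1 hy'.2.2.2.1 hxy.symm
    have h5 : x.1 = y.1 := le_antisymm h4 h3
    have h6 : x.2 = y.2 := by
      have h7 : x.1 * x.2 = y.1 * y.2 := hxy
      rw [h5] at h7
      exact Nat.eq_of_mul_eq_mul_left hy'.1.pos h7
    obtain ⟨x1, x2⟩ := x
    obtain ⟨y1, y2⟩ := y
    simp only at h5 h6
    rw [h5, h6]
  have h2 := sum_image (f := fun b => |h b|) hinj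
  rw [← h2]
  refine sum_le_sum_of_subset_of_nonneg ?_ fun b _ _ => abs_nonneg _
  intro b hb
  rw [mem_image] at hb
  obtain ⟨x, hx, rfl⟩ := hb
  exact (hlt x hx).2.2.2.2

private theorem RO_BOUND_both (m : ℕ) (W : ℝ) (n : ℕ) : ∀ (z D : ℝ) (h : ℕ → ℝ),
    |Ro m W n true z D h| ≤ ∑ b ∈ lev m W z (max 1 D), |h b| ∧
      (z ^ 2 ≤ D → |Ro m W n false z D h| ≤ ∑ b ∈ lev m W z (max 1 D), |h b|) := by
  induction n with
  | zero =>
    intro z D h
    have h1 := RO_BOUND_aux m W z D h ∅ (empty_subset _) (fun p hp => absurd hp (notMem_empty p))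
    rw [sum_empty, add_zero] at h1
    simp only [Ro]
    exact ⟨h1, fun _ => h1⟩
  | succ n ih =>
    intro z D h
    constructor
    · simp only [Ro]
      have hD : ∀ p ∈ (pr m W z).filter (fun p : ℕ => (p : ℝ) ^ 3 < D), (p : ℝ) ^ 2 ≤ D / p ∧ 1 ≤ D / p := by
        intro p hp
        rw [mem_filter] at hp
        have hp1 : (1 : ℝ) ≤ p := by exact_mod_cast (mem_pr.1 hp.1).1.one_le
        have hp0 : (0 : ℝ) < p := by linarith
        have h2 : (p : ℝ) ^ 2 ≤ D / p := by
          rw [le_div_iff₀ hp0]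
          nlinarith [hp.2]
        exact ⟨h2, le_trans (one_le_pow₀ hp1) h2⟩
      refine le_trans (abs_sub _ _) (le_trans ?_ (RO_BOUND_aux m W z D h _ (filter_subset _ _)
        fun p hp => (hD p hp).2))
      refine add_le_add le_rfl (le_trans (abs_sum_le_sum_abs _ _) (sum_le_sum fun p hp => ?_))
      have h3 := (ih (p : ℝ) (D / p) fun b => h (p * b)).2 (hD p hp).1
      rw [max_eq_right (hD p hp).2] at h3
      exact h3
    · intro hz
      simp only [Ro]
      have hD : ∀ p ∈ pr m W z, 1 ≤ D / p := by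
        intro p hp
        have hp' := mem_pr.1 hp
        have hp1 : (1 : ℝ) ≤ p := by exact_mod_cast hp'.1.one_le
        have hp0 : (0 : ℝ) < p := by linarith
        rw [le_div_iff₀ hp0]
        nlinarith [hp'.2.2.2]
      refine le_trans (abs_sub _ _) (le_trans ?_ (RO_BOUND_aux m W z D h _ (Subset.refl _) hD))
      refine add_le_add le_rfl (le_trans (abs_sum_le_sum_abs _ _) (sum_le_sum fun p hp => ?_))
      have h3 := (ih (p : ℝ) (D / p) fun b => h (p * b)).1
      rw [max_eq_right (hD p hp)] at h3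
      exact h3

/-- MODULE RO_BOUND.  Every squarefree `b` occurs at most once, and only `b ≤ max 1 D` occur.
Proof by induction on `n`, both statements together (for all `z, D, h`; in the second `z^2 ≤ D`).  `n = 0`: `|h 1|` is one
of the terms (`1 ∈ lev` as `1 ≤ max 1 D`).  Step: `|Ro (n+1)| ≤ |h 1| + ∑_p |Ro n _ p (D/p) (h (p ·))|`.
In the first case `p^3 < D`, so `p^2 ≤ D/p` and the second statement applies with `z = p`; `max 1 (D/p) = D/p`.  In the
second case `p < z`, `z^2 ≤ D`, so `D/p ≥ p ≥ 1` and the first statement applies.  In both cases the sum is at most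
`∑_p ∑_{b ∈ lev m W p (D/p)} |h (p b)|`, and `(p, b) ↦ p b` is injective (`p` is the largest prime factor of `p b`, all
primes of `b` are `< p`) with values in `lev m W z (max 1 D) \ {1}` (`p b ≤ p ⌊D/p⌋ ≤ D`, squarefree, primes in
`pr m W z`). -/
theorem Ro_bound (m : ℕ) (W : ℝ) (n : ℕ) (z D : ℝ) (h : ℕ → ℝ) :
    |Ro m W n true z D h| ≤ ∑ b ∈ lev m W z (max 1 D), |h b| := by
  exact (RO_BOUND_both m W n z D h).1

/-- MODULE RO_BOUND, second statement. -/
theorem Ro_bound' (m : ℕ) (W : ℝ) (n : ℕ) (z D : ℝ) (hz : z ^ 2 ≤ D) (h : ℕ → ℝ) :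
    |Ro m W n false z D h| ≤ ∑ b ∈ lev m W z (max 1 D), |h b| := by
  exact (RO_BOUND_both m W n z D h).2 hz

open scoped Classical in
private theorem RO_SIEVE_ind (m : ℕ) (W z : ℝ) (N : ℕ) :
    ∑ p ∈ pr m W z, (if p ∣ N then (if ∀ q ∈ pr m W (p : ℝ), ¬ q ∣ N then (1 : ℝ) else 0) else 0) =
      1 - (if ∀ p ∈ pr m W z, ¬ p ∣ N then (1 : ℝ) else 0) := by
  by_cases h : ∀ p ∈ pr m W z, ¬ p ∣ N
  · rw [if_pos h, sub_self]
    exact sum_eq_zero fun p hp => if_neg (h p hp)
  · rw [if_neg h, sub_zero]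
    push Not at h
    obtain ⟨p1, hp1, hd1⟩ := h
    obtain ⟨p0, hp0, hmin⟩ := exists_min_image ((pr m W z).filter fun p => p ∣ N) (fun p => p)
      ⟨p1, mem_filter.2 ⟨hp1, hd1⟩⟩
    rw [mem_filter] at hp0
    rw [sum_eq_single p0]
    · rw [if_pos hp0.2, if_pos]
      intro q hq hqN
      have hq' := mem_pr.1 hq
      have hlt : q < p0 := by exact_mod_cast hq'.2.2.2
      have h3 := hmin q (mem_filter.2 ⟨mem_pr.2 ⟨hq'.1, hq'.2.1, hq'.2.2.1,
        hq'.2.2.2.trans (mem_pr.1 hp0.1).2.2.2⟩, hqN⟩)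
      omega
    · intro p hp hne
      split_ifs with h1 h2
      · exfalso
        have h3 := hmin p (mem_filter.2 ⟨hp, h1⟩)
        have hlt : p0 < p := lt_of_le_of_ne h3 (Ne.symm hne)
        have h4 := mem_pr.1 hp0.1
        exact h2 p0 (mem_pr.2 ⟨h4.1, h4.2.1, h4.2.2.1, by exact_mod_cast hlt⟩) hp0.2
      · rfl
      · rfl
    · intro h1
      exact absurd hp0.1 h1

open scoped Classical in
/-- MODULE RO_SIEVE.  Rosser's upper and lower bound sieve for one integer `N ≥ 1`.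
Proof: induction on `n`, both inequalities together, for all `z D N`.  Write `P(z)` for `pr m W z` and
`1_N(z) = [no p ∈ P(z) divides N]`.  `n = 0`: `⌈z⌉ = 0`, `P(z) = ∅`, all sides are 1.  Step, upper bound:
`Ro (n+1) true z D [· ∣ N] = 1 - ∑_{p ∈ P(z), p^3 < D} Ro n false p (D/p) (b ↦ [p b ∣ N])`.  If `p ∤ N` the function
`b ↦ [p b ∣ N]` is zero and so is `Ro` (`Ro_smul` with `c = 0`); if `p ∣ N` it is `b ↦ [b ∣ N/p]` and by induction
(`⌈(p:ℝ)⌉ = p ≤ n` since `p < z`) `Ro n false p (D/p) .. ≤ 1_{N/p}(p)`.  Now `1_{N/p}(p) = 1_N(p)` for a prime `p` (the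
primes of `P(p)` are different from `p`).  So the sum is `≤ ∑_{p ∈ P(z), p ∣ N} 1_N(p)` = number of `p ∈ P(z)`, `p ∣ N`
without a smaller prime factor of `N` in `P(z)` `= 1 - 1_N(z)` (0 if there is no prime factor, otherwise exactly the
smallest one).  Lower bound: the same with `∑_{p ∈ P(z), p ∣ N} Ro n true p (D/p) [· ∣ N/p] ≥ ∑ 1_N(p) = 1 - 1_N(z)`. -/
theorem Ro_sieve (m : ℕ) (W : ℝ) (n : ℕ) (z D : ℝ) (N : ℕ) (hN : 1 ≤ N) (hn : ⌈z⌉₊ ≤ n) :
    (if ∀ p ∈ pr m W z, ¬ p ∣ N then (1 : ℝ) else 0) ≤ Ro m W n true z D (fun b => if b ∣ N then 1 else 0) ∧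
      Ro m W n false z D (fun b => if b ∣ N then 1 else 0) ≤ (if ∀ p ∈ pr m W z, ¬ p ∣ N then (1 : ℝ) else 0) := by
  induction n generalizing z D N with
  | zero =>
    have h1 : ⌈z⌉₊ = 0 := by omega
    have h2 : ∀ p ∈ pr m W z, ¬ p ∣ N := by
      intro p hp
      have h3 := Nat.lt_ceil.2 (mem_pr.1 hp).2.2.2
      omega
    simp only [Ro]
    rw [if_pos h2, if_pos (one_dvd N)]
    exact ⟨le_rfl, le_rfl⟩
  | succ n ih =>
    have key : ∀ p ∈ pr m W z,
        (if p ∣ N then (if ∀ q ∈ pr m W (p : ℝ), ¬ q ∣ N then (1 : ℝ) else 0) else 0) ≤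
          Ro m W n true (p : ℝ) (D / p) (fun b => if p * b ∣ N then 1 else 0) ∧
        Ro m W n false (p : ℝ) (D / p) (fun b => if p * b ∣ N then 1 else 0) ≤
          (if p ∣ N then (if ∀ q ∈ pr m W (p : ℝ), ¬ q ∣ N then (1 : ℝ) else 0) else 0) := by
      intro p hp
      have hp' := mem_pr.1 hp
      by_cases hpN : p ∣ N
      · rw [if_pos hpN]
        have h1 : (fun b => if p * b ∣ N then (1 : ℝ) else 0) = fun b => if b ∣ N / p then (1 : ℝ) else 0 := by
          funext b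
          have h2 : b ∣ N / p ↔ p * b ∣ N := Nat.dvd_div_iff_mul_dvd hpN
          by_cases h3 : p * b ∣ N
          · rw [if_pos h3, if_pos (h2.2 h3)]
          · rw [if_neg h3, if_neg (fun h4 => h3 (h2.1 h4))]
        have h2 : (∀ q ∈ pr m W (p : ℝ), ¬ q ∣ N) ↔ ∀ q ∈ pr m W (p : ℝ), ¬ q ∣ N / p := by
          have h3 : ∀ q ∈ pr m W (p : ℝ), (q ∣ N ↔ q ∣ N / p) := by
            intro q hq
            have hq' := mem_pr.1 hq
            have hlt : q < p := by exact_mod_cast hq'.2.2.2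
            constructor
            · intro h4
              rw [← Nat.mul_div_cancel' hpN] at h4
              rcases (Nat.Prime.dvd_mul hq'.1).1 h4 with h5 | h5
              · have := (Nat.prime_dvd_prime_iff_eq hq'.1 hp'.1).1 h5
                omega
              · exact h5
            · intro h4
              exact h4.trans (Nat.div_dvd_of_dvd hpN)
          constructor
          · intro h4 q hq h5
            exact h4 q hq ((h3 q hq).2 h5)
          · intro h4 q hq h5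
            exact h4 q hq ((h3 q hq).1 h5)
        have h3 : (if ∀ q ∈ pr m W (p : ℝ), ¬ q ∣ N then (1 : ℝ) else 0) =
            if ∀ q ∈ pr m W (p : ℝ), ¬ q ∣ N / p then (1 : ℝ) else 0 := by
          by_cases h4 : ∀ q ∈ pr m W (p : ℝ), ¬ q ∣ N
          · rw [if_pos h4, if_pos (h2.1 h4)]
          · rw [if_neg h4, if_neg (fun h5 => h4 (h2.2 h5))]
        rw [h1, h3]
        refine ih (p : ℝ) (D / p) (N / p) (Nat.div_pos (Nat.le_of_dvd (by omega) hpN) hp'.1.pos) ?_
        rw [Nat.ceil_natCast]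
        have h4 := Nat.lt_ceil.2 hp'.2.2.2
        omega
      · rw [if_neg hpN]
        have h1 : (fun b => if p * b ∣ N then (1 : ℝ) else 0) = fun _ : ℕ => (0 : ℝ) * 1 := by
          funext b
          rw [if_neg (fun h3 => hpN ((Dvd.intro _ rfl).trans h3)), zero_mul]
        rw [h1, Ro_smul m W n true, Ro_smul m W n false, zero_mul, zero_mul]
        exact ⟨le_rfl, le_rfl⟩
    have hs := RO_SIEVE_ind m W z N
    constructor
    · simp only [Ro]
      rw [if_pos (one_dvd N)]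
      have h1 : ∑ p ∈ (pr m W z).filter (fun p : ℕ => (p : ℝ) ^ 3 < D),
          Ro m W n false (p : ℝ) (D / p) (fun b => if p * b ∣ N then 1 else 0) ≤
          ∑ p ∈ pr m W z, (if p ∣ N then (if ∀ q ∈ pr m W (p : ℝ), ¬ q ∣ N then (1 : ℝ) else 0) else 0) := by
        refine le_trans (sum_le_sum fun p hp => (key p (mem_filter.1 hp).1).2) ?_
        refine sum_le_sum_of_subset_of_nonneg (filter_subset _ _) fun p _ _ => ?_
        split_ifs
        · exact zero_le_one
        · exact le_rfl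
        · exact le_rfl
      linarith
    · simp only [Ro]
      rw [if_pos (one_dvd N)]
      have h1 : ∑ p ∈ pr m W z, (if p ∣ N then (if ∀ q ∈ pr m W (p : ℝ), ¬ q ∣ N then (1 : ℝ) else 0) else 0) ≤
          ∑ p ∈ pr m W z, Ro m W n true (p : ℝ) (D / p) (fun b => if p * b ∣ N then 1 else 0) :=
        sum_le_sum fun p hp => (key p hp).1
      linarith

end Pool.Agent.CC
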