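import Pool.Agent.CC.Box

/-! CC, part J4: switching, the sum over the boxes. -/

set_option autoImplicit false

namespace Pool.Agent.CC

open Finset


/-! #### SCSUM -/

private theorem scs_tel (a : ℕ → ℕ) (ha : Monotone a) (f : ℕ → ℝ) (I : ℕ) :
    ∑ i ∈ range I, ∑ n ∈ Ioc (a i) (a (i + 1)), f n = ∑ n ∈ Ioc (a 0) (a I), f n := by
  induction I with
  | zero => simp
  | succ I ih =>
    rw [Finset.sum_range_succ, ih, Finset.sum_Ioc_consecutive f (ha (Nat.zero_le I)) (ha (Nat.le_succ I))]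

private theorem scs_sub {s t : Finset ℕ} {f : ℕ → ℝ} (hf : ∀ n, 0 ≤ f n)
    (h : ∀ n ∈ s, f n ≠ 0 → n ∈ t) : ∑ n ∈ s, f n ≤ ∑ n ∈ t, f n := by
  classical
  have h1 : ∑ n ∈ s.filter (fun n => f n ≠ 0), f n = ∑ n ∈ s, f n := Finset.sum_filter_ne_zero s
  rw [← h1]
  refine Finset.sum_le_sum_of_subset_of_nonneg (fun n hn => ?_) (fun n _ _ => hf n)
  obtain ⟨h2, h3⟩ := Finset.mem_filter.1 hn
  exact h n h2 h3

private theorem scs_vm (m : ℕ) : 0 ≤ vm m := by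
  unfold vm
  exact_mod_cast ArithmeticFunction.vonMangoldt_nonneg

/-- size of `nv k` -/
private theorem scs_size (S : Dat) {η : ℝ} (hη : 0 < η) {x k : ℕ} (hx : (S.a.natAbs : ℝ) < η * x)
    (hk : k ∈ S.I x) : ((1 - η) * (S.d * x) : ℝ) < ((S.a + k * S.d : ℤ) : ℝ) ∧
      ((S.a + k * S.d : ℤ) : ℝ) ≤ 2 * (1 + η) * (S.d * x) := by
  have hk1 := Finset.mem_Ioc.1 (Finset.mem_filter.1 hk).1
  have h1 : (x : ℝ) < k := by exact_mod_cast hk1.1
  have h2 : (k : ℝ) ≤ 2 * x := by exact_mod_cast hk1.2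
  have hd : (1 : ℝ) ≤ S.d := by exact_mod_cast S.hd
  have ha : |(S.a : ℝ)| = (S.a.natAbs : ℝ) := by rw [Nat.cast_natAbs, Int.cast_abs]
  have ha1 := abs_le.1 (le_of_eq ha)
  have hx0 : (0 : ℝ) ≤ x := Nat.cast_nonneg x
  push_cast
  have h3 : (S.d : ℝ) * x < k * S.d := by nlinarith
  have h4 : (k : ℝ) * S.d ≤ 2 * (S.d * x) := by nlinarith
  have h5 : η * x ≤ η * (S.d * x) := mul_le_mul_of_nonneg_left (by nlinarith) hη.le
  constructor
  · linarith [ha1.1]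
  · linarith [ha1.2]

open scoped Classical in
/-- one box -/
private theorem scs_box (S : Dat) {η : ℝ} (hη : 0 < η) {x : ℕ} (hx0 : 0 < x)
    (hx : (S.a.natAbs : ℝ) < η * x) (hxa : 2 * S.a.natAbs + 2 ≤ x) {M : ℝ} (hM : 0 < M) (α : ℕ → ℝ)
    (hα : ∀ n, 0 ≤ α n) :
    ∑ k ∈ (S.I x).filter Nat.Prime, ∑ n ∈ Ioc ⌊M⌋₊ ⌊(1 + η) * M⌋₊,
      (if n ∣ S.nv k then α n * vm (S.nv k / n) else 0) ≤
    ∑ y ∈ Bx S x M η, (if (nq S y).Prime then α y.1 * vm y.2 else 0) := by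
  obtain ⟨-, -, hb1, hb2⟩ := dat_basic S
  have hd : (1 : ℝ) ≤ S.d := by exact_mod_cast S.hd
  have hdz : (0 : ℤ) < S.d := by have := S.hd; omega
  have hval : ∀ k ∈ S.I x, ((S.nv k : ℕ) : ℤ) = S.a + k * S.d ∧ 1 ≤ S.nv k := fun k hk =>
    ⟨(hb1 k (Finset.mem_filter.1 hk).2 (hb2 x hxa k hk).1).1, (hb2 x hxa k hk).2.1⟩
  -- as a sum over pairs
  rw [← Finset.sum_product', ← Finset.sum_filter]
  set T := (((S.I x).filter Nat.Prime) ×ˢ (Ioc ⌊M⌋₊ ⌊(1 + η) * M⌋₊)).filter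
    (fun t : ℕ × ℕ => t.2 ∣ S.nv t.1) with hT
  have hmem : ∀ t ∈ T, t.1 ∈ S.I x ∧ t.1.Prime ∧ ⌊M⌋₊ < t.2 ∧ t.2 ≤ ⌊(1 + η) * M⌋₊ ∧ t.2 ∣ S.nv t.1 := by
    intro t ht
    rw [hT, Finset.mem_filter, Finset.mem_product, Finset.mem_filter, Finset.mem_Ioc] at ht
    exact ⟨ht.1.1.1, ht.1.1.2, ht.1.2.1, ht.1.2.2, ht.2⟩
  have hnq : ∀ t ∈ T, nq S (t.2, S.nv t.1 / t.2) = t.1 := by
    intro t ht
    obtain ⟨h1, -, h3, -, h5⟩ := hmem t ht
    unfold nq
    dsimp only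
    rw [Nat.mul_div_cancel' h5, (hval t.1 h1).1]
    have : S.a + (t.1 : ℤ) * S.d - S.a = t.1 * S.d := by ring
    rw [this, Int.mul_ediv_cancel _ hdz.ne', Int.toNat_natCast]
  have hinj : Set.InjOn (fun t : ℕ × ℕ => (t.2, S.nv t.1 / t.2)) (T : Set (ℕ × ℕ)) := by
    intro t ht s hs hts
    have e1 := hnq t ht
    have e2 := hnq s hs
    dsimp only at hts
    rw [hts] at e1
    have e3 : t.2 = s.2 := (Prod.mk.inj hts).1
    exact Prod.ext (e1.symm.trans e2) e3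
  have hsub : T.image (fun t : ℕ × ℕ => (t.2, S.nv t.1 / t.2)) ⊆ Bx S x M η := by
    intro y hy
    obtain ⟨t, ht, rfl⟩ := Finset.mem_image.1 hy
    obtain ⟨h1, h2, h3, h4, h5⟩ := hmem t ht
    obtain ⟨v1, v2⟩ := hval t.1 h1
    obtain ⟨z1, z2⟩ := scs_size S hη hx h1
    have hcast : ((S.a + t.1 * S.d : ℤ) : ℝ) = (S.nv t.1 : ℝ) := by rw [← v1]; simp
    rw [hcast] at z1 z2
    have h6 : M < (t.2 : ℝ) := (Nat.floor_lt hM.le).1 h3
    have h7 : (t.2 : ℝ) ≤ (1 + η) * M := (Nat.le_floor_iff (by positivity)).1 h4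
    have h8 : (0 : ℝ) < t.2 := hM.trans h6
    have h9 : ((S.nv t.1 / t.2 : ℕ) : ℝ) * t.2 = S.nv t.1 := by
      rw [← Nat.cast_mul, Nat.div_mul_cancel h5]
    have hP0 : (0 : ℝ) ≤ ((S.nv t.1 / t.2 : ℕ) : ℝ) := Nat.cast_nonneg _
    have hMη : 0 < (1 + η) * M := by positivity
    unfold Bx
    rw [Finset.mem_filter, Finset.mem_product, Finset.mem_Ioc, Finset.mem_Ioc]
    dsimp only
    refine ⟨⟨⟨h3, h4⟩, ?_, ?_⟩, ?_⟩
    · rcases le_or_gt 0 ((1 - η) * ((S.d : ℝ) * x) / ((1 + η) * M)) with h10 | h10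
      · rw [Nat.floor_lt h10, div_lt_iff₀ hMη]
        have := mul_le_mul_of_nonneg_left h7 hP0
        linarith
      · rw [Nat.floor_of_nonpos h10.le]
        have h11 : (0 : ℝ) < ((S.nv t.1 / t.2 : ℕ) : ℝ) := by
          by_contra hcon
          push Not at hcon
          have h12 : ((S.nv t.1 / t.2 : ℕ) : ℝ) = 0 := le_antisymm hcon hP0
          rw [h12, zero_mul] at h9
          have : (1 : ℝ) ≤ S.nv t.1 := by exact_mod_cast v2
          linarith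
        exact_mod_cast h11
    · rw [Nat.le_floor_iff (by positivity), le_div_iff₀ hM]
      have := mul_le_mul_of_nonneg_left h6.le hP0
      linarith
    · rw [Nat.mul_div_cancel' h5, v1]
      have h10 : (t.1 : ℤ) ≡ (S.q0 : ℤ) [ZMOD (S.m : ℤ)] := by
        exact (Int.natCast_modEq_iff).2 (Finset.mem_filter.1 h1).2
      have h11 : (t.1 : ℤ) * S.d ≡ (S.q0 : ℤ) * S.d [ZMOD (S.d * S.m : ℤ)] := by
        have := h10.mul_left' (c := S.d)
        rwa [mul_comm (S.d : ℤ) (t.1 : ℤ), mul_comm (S.d : ℤ) (S.q0 : ℤ)] at this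
      exact h11.add_left S.a
  refine le_trans ?_ (Finset.sum_le_sum_of_subset_of_nonneg hsub fun y _ _ => ?_)
  · rw [Finset.sum_image hinj]
    refine Finset.sum_le_sum fun t ht => ?_
    rw [hnq t ht, if_pos (hmem t ht).2.1]
  · split_ifs
    · exact mul_nonneg (hα _) (scs_vm _)
    · exact le_rfl

private theorem scs_err {η c ε : ℝ} (hη : 0 < η) (hc : 0 < c) (hε : 0 < ε) :
    ∀ᶠ x : ℕ in Filter.atTop, (Real.log x / Real.log (1 + η) + 1) * (x / (Real.log x) ^ 3) ≤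
      ε * (c * x / Real.log x) := by
  have hl : 0 < Real.log (1 + η) := Real.log_pos (by linarith)
  have h1 : Filter.Tendsto (fun x : ℕ => Real.log (x : ℝ)) Filter.atTop Filter.atTop :=
    Real.tendsto_log_atTop.comp tendsto_natCast_atTop_atTop
  filter_upwards [h1.eventually_ge_atTop (max 1 ((1 / Real.log (1 + η) + 1) / (ε * c)))] with x hx
  have hL1 : 1 ≤ Real.log (x : ℝ) := (le_max_left _ _).trans hx
  have hL2 : (1 / Real.log (1 + η) + 1) / (ε * c) ≤ Real.log (x : ℝ) := (le_max_right _ _).trans hx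
  rw [div_le_iff₀ (by positivity)] at hL2
  set L := Real.log (x : ℝ) with hL
  have hL0 : 0 < L := by linarith
  have hx0 : (0 : ℝ) ≤ x := Nat.cast_nonneg x
  have e1 : (L / Real.log (1 + η) + 1) ≤ L * (1 / Real.log (1 + η) + 1) := by
    have : L / Real.log (1 + η) = L * (1 / Real.log (1 + η)) := by ring
    rw [this]
    linarith
  have e2 : (L / Real.log (1 + η) + 1) * (x / L ^ 3) ≤ L * (L * (ε * c)) * (x / L ^ 3) :=
    mul_le_mul_of_nonneg_right (e1.trans (mul_le_mul_of_nonneg_left hL2 hL0.le)) (by positivity)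
  refine e2.trans (le_of_eq ?_)
  field_simp

open scoped Classical in
/-- MODULE SCSUM.  Theorem SC: for a bounded nonnegative sequence `α` supported on `x^(7/100) < m' ≤ x^(93/100)` with all prime
factors `≥ x^(1/20)`:
`∑_{k ∈ (x,2x], k ≡ q0, k prime} ∑_{m' P = a + k d} α(m') Λ(P) ≤ U ((4/25) AA + ε) ∑ α(m')/m' + ε)`.
Proof: `η` small; boxes `M_i = x^(7/100) (1+η)^i`, `0 ≤ i < I`, `I ≤ log x/log(1+η) + 1`, cover `(x^(7/100), x^(93/100)]`
(the last box may exceed: use only those with `M_i ≤ x^(93/100)`).  For `k` in the sum, `m' P = n = a + k d ∈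
((1-η) d x, 2(1+η) d x)` for large `x` and `m' ∈ (M_i, (1+η) M_i]`, so `P` is in the second interval of the box, `(m', P) ∈
Bx S x M_i η` (`n ≡ a + q0 d mod d m` as `k ≡ q0 mod m`) and `nq (m', P) = k` is prime.  For given `i` the pairs of
different `k` are different.  Sum `box` over `i`: `I x/log^3 x ≤ (ε/2) U` (`ulow`), and `(4/25 AA + ε')(1+7η) ≤
4/25 AA + ε`. -/
theorem sc (S : Dat) (K0 : ℝ) (hK : 0 ≤ K0) (ε : ℝ) (hε : 0 < ε) :
    ∃ x0 : ℕ, ∀ x : ℕ, x0 ≤ x → ∀ α : ℕ → ℝ, (∀ n, 0 ≤ α n ∧ α n ≤ K0) →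
      (∀ n, α n ≠ 0 → (x : ℝ) ^ ((7 : ℝ) / 100) < (n : ℝ) ∧ (n : ℝ) ≤ (x : ℝ) ^ ((93 : ℝ) / 100) ∧
        ∀ p ∈ n.primeFactors, (x : ℝ) ^ ((1 : ℝ) / 20) ≤ (p : ℝ)) →
      ∑ k ∈ S.I x, (if k.Prime then ∑ n ∈ (S.nv k).divisors, α n * vm (S.nv k / n) else 0) ≤
        S.U x * ((4 / 25 * AA + ε) * (∑ n ∈ Icc 1 x, α n / n) + ε) := by
  have hAA : 0 < 4 / 25 * AA := by unfold AA AAn; norm_num
  -- choice of η
  obtain ⟨η, hη, hη2, hη3⟩ : ∃ η : ℝ, 0 < η ∧ η ≤ 1 / 4 ∧ (4 / 25 * AA + ε / 2) * (1 + 7 * η) ≤ 4 / 25 * AA + ε := by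
    refine ⟨min (1 / 4) (ε / (14 * (4 / 25 * AA + ε))), lt_min (by norm_num) (by positivity),
      min_le_left _ _, ?_⟩
    have h1 : min (1 / 4) (ε / (14 * (4 / 25 * AA + ε))) ≤ ε / (14 * (4 / 25 * AA + ε)) := min_le_right _ _
    have h0 : 0 < min (1 / 4) (ε / (14 * (4 / 25 * AA + ε))) := lt_min (by norm_num) (by positivity)
    set η := min (1 / 4) (ε / (14 * (4 / 25 * AA + ε))) with hη
    rw [le_div_iff₀ (by positivity)] at h1
    nlinarith
  obtain ⟨x1, hbox⟩ := box S η hη hη2 K0 hK (ε / 2) (by positivity)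
  obtain ⟨c, C', hc, -, x2, hU⟩ := ulow S
  have E1 : ∀ᶠ x : ℕ in Filter.atTop, (S.a.natAbs : ℝ) < η * x :=
    (Filter.Tendsto.const_mul_atTop hη tendsto_natCast_atTop_atTop).eventually_gt_atTop _
  refine Filter.eventually_atTop.1 ?_
  filter_upwards [E1, scs_err hη hc hε, Filter.eventually_ge_atTop x1, Filter.eventually_ge_atTop x2,
    Filter.eventually_ge_atTop 3, Filter.eventually_ge_atTop (2 * S.a.natAbs + 2)]
    with x e1 e2 hx1 hx2 hx3 hxa α hα hsupp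
  have hx0 : (0 : ℝ) < x := by exact_mod_cast (by omega : 0 < x)
  have hx1' : (1 : ℝ) < x := by exact_mod_cast (by omega : 1 < x)
  have hL0 : 0 < Real.log (x : ℝ) := Real.log_pos hx1'
  -- the boxes
  set M : ℕ → ℝ := fun i => (x : ℝ) ^ ((7 : ℝ) / 100) * (1 + η) ^ i with hM
  have hM0 : ∀ i, 0 < M i := fun i => by rw [hM]; positivity
  have hMs : ∀ i, M (i + 1) = (1 + η) * M i := fun i => by simp only [hM]; ring
  have hMmono : Monotone M := monotone_nat_of_le_succ fun i => by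
    rw [hMs]
    have := hM0 i
    nlinarith
  have hMlo : ∀ i, (x : ℝ) ^ ((7 : ℝ) / 100) ≤ M i := fun i => by
    have := hMmono (Nat.zero_le i)
    simpa [hM] using this
  obtain ⟨I, hI1, hI2⟩ : ∃ I : ℕ, (x : ℝ) ^ ((93 : ℝ) / 100) < M I ∧ ∀ i < I, M i ≤ (x : ℝ) ^ ((93 : ℝ) / 100) := by
    have hex : ∃ i, (x : ℝ) ^ ((93 : ℝ) / 100) < M i := by
      obtain ⟨i, hi⟩ := pow_unbounded_of_one_lt ((x : ℝ) ^ ((93 : ℝ) / 100) / (x : ℝ) ^ ((7 : ℝ) / 100))
        (by linarith : 1 < 1 + η)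
      refine ⟨i, ?_⟩
      rw [div_lt_iff₀ (by positivity)] at hi
      simp only [hM]
      linarith
    classical
    refine ⟨Nat.find hex, Nat.find_spec hex, fun i hi => ?_⟩
    exact not_lt.1 (Nat.find_min hex hi)
  have hIbd : (I : ℝ) ≤ Real.log x / Real.log (1 + η) + 1 := by
    rcases Nat.eq_zero_or_pos I with h0 | h0
    · rw [h0]
      have : 0 < Real.log (1 + η) := Real.log_pos (by linarith)
      push_cast
      positivity
    · have h1 := hI2 (I - 1) (by omega)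
      simp only [hM] at h1
      have hl : 0 < Real.log (1 + η) := Real.log_pos (by linarith)
      have h2 : (1 + η) ^ (I - 1) ≤ (x : ℝ) := by
        have h3 : (1 : ℝ) ≤ (x : ℝ) ^ ((7 : ℝ) / 100) := Real.one_le_rpow hx1'.le (by norm_num)
        have h4 : (x : ℝ) ^ ((93 : ℝ) / 100) ≤ (x : ℝ) ^ (1 : ℝ) :=
          Real.rpow_le_rpow_of_exponent_le hx1'.le (by norm_num)
        rw [Real.rpow_one] at h4
        have h5 : 0 ≤ (1 + η) ^ (I - 1) := by positivity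
        have h6 := mul_le_mul_of_nonneg_right h3 h5
        linarith
      have h3 := Real.log_le_log (by positivity) h2
      rw [Real.log_pow] at h3
      have h4 : (((I - 1 : ℕ) : ℕ) : ℝ) = (I : ℝ) - 1 := by
        rw [Nat.cast_sub h0]; simp
      rw [h4] at h3
      rw [← sub_le_iff_le_add, le_div_iff₀ hl]
      exact h3
  set a : ℕ → ℕ := fun i => ⌊M i⌋₊ with ha
  have hamono : Monotone a := fun i j hij => Nat.floor_le_floor (hMmono hij)
  -- the left side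
  have L1 : ∑ k ∈ S.I x, (if k.Prime then ∑ n ∈ (S.nv k).divisors, α n * vm (S.nv k / n) else 0) ≤
      ∑ i ∈ range I, ∑ k ∈ (S.I x).filter Nat.Prime, ∑ n ∈ Ioc (a i) (a (i + 1)),
        (if n ∣ S.nv k then α n * vm (S.nv k / n) else 0) := by
    rw [← Finset.sum_filter, Finset.sum_comm]
    refine Finset.sum_le_sum fun k hk => ?_
    rw [scs_tel a hamono, ← Finset.sum_filter]
    refine scs_sub (fun n => mul_nonneg (hα n).1 (scs_vm _)) fun n hn hne => ?_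
    have hαn : α n ≠ 0 := fun h => hne (by rw [h, zero_mul])
    obtain ⟨s1, s2, -⟩ := hsupp n hαn
    rw [Finset.mem_filter, Finset.mem_Ioc]
    refine ⟨⟨?_, ?_⟩, Nat.dvd_of_mem_divisors hn⟩
    · rw [ha]
      dsimp only
      rw [Nat.floor_lt (hM0 0).le]
      simpa [hM] using s1
    · rw [ha]
      dsimp only
      rw [Nat.le_floor_iff (hM0 I).le]
      exact s2.trans hI1.le
  -- each box
  have L2 : ∀ i ∈ range I, ∑ k ∈ (S.I x).filter Nat.Prime, ∑ n ∈ Ioc (a i) (a (i + 1)),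
        (if n ∣ S.nv k then α n * vm (S.nv k / n) else 0) ≤
      S.U x * ((4 / 25 * AA + ε / 2) * (1 + 7 * η) * (∑ n ∈ Ioc (a i) (a (i + 1)), α n / n)) +
        x / (Real.log x) ^ 3 := by
    intro i hi
    rw [Finset.mem_range] at hi
    have h1 := scs_box S hη (by omega) e1 hxa (hM0 i) α (fun n => (hα n).1)
    have h2 := hbox x hx1 (M i) (hMlo i) (hI2 i hi) α hα (fun n hn => (hsupp n hn).2.2)
    have e3 : a (i + 1) = ⌊(1 + η) * M i⌋₊ := by rw [ha]; dsimp only; rw [hMs]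
    rw [e3]
    exact h1.trans h2
  refine L1.trans ((Finset.sum_le_sum L2).trans ?_)
  rw [Finset.sum_add_distrib, ← Finset.mul_sum, ← Finset.mul_sum, scs_tel a hamono, Finset.sum_const,
    Finset.card_range, nsmul_eq_mul]
  have hUx := hU x hx2
  have hU0 : 0 ≤ S.U x := le_trans (by positivity) hUx.1
  have A0 : ∀ n, 0 ≤ α n / n := fun n => div_nonneg (hα n).1 (Nat.cast_nonneg n)
  have L3 : ∑ n ∈ Ioc (a 0) (a I), α n / n ≤ ∑ n ∈ Icc 1 x, α n / n := by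
    refine scs_sub A0 fun n hn hne => ?_
    have hαn : α n ≠ 0 := fun h => hne (by rw [h, zero_div])
    obtain ⟨s1, s2, -⟩ := hsupp n hαn
    rw [Finset.mem_Icc]
    constructor
    · have : (0 : ℝ) < n := lt_of_le_of_lt (by positivity) s1
      exact_mod_cast this
    · have h4 : (x : ℝ) ^ ((93 : ℝ) / 100) ≤ (x : ℝ) ^ (1 : ℝ) :=
        Real.rpow_le_rpow_of_exponent_le hx1'.le (by norm_num)
      rw [Real.rpow_one] at h4
      exact_mod_cast s2.trans h4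
  have L4 : (I : ℝ) * (x / (Real.log x) ^ 3) ≤ ε * S.U x := by
    have h1 := mul_le_mul_of_nonneg_right hIbd (by positivity : (0 : ℝ) ≤ x / (Real.log x) ^ 3)
    refine h1.trans (e2.trans ?_)
    exact mul_le_mul_of_nonneg_left hUx.1 hε.le
  have L5 : 0 ≤ ∑ n ∈ Icc 1 x, α n / n := Finset.sum_nonneg fun n _ => A0 n
  have L6 : (4 / 25 * AA + ε / 2) * (1 + 7 * η) * (∑ n ∈ Ioc (a 0) (a I), α n / n) ≤
      (4 / 25 * AA + ε) * (∑ n ∈ Icc 1 x, α n / n) := by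
    refine (mul_le_mul_of_nonneg_left L3 (by positivity)).trans ?_
    exact mul_le_mul_of_nonneg_right hη3 L5
  have L7 := mul_le_mul_of_nonneg_left L6 hU0
  nlinarith

end Pool.Agent.CC
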