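import Pool.Agent.CC.Mer

/-! CC, part D: the sieve for weighted families, summed over a set of moduli `e`. -/

set_option autoImplicit false

namespace Pool.Agent.CC

open Finset

open scoped Classical in
private noncomputable def pwl_f (N : ℕ) (hN : 1 ≤ N) : ArithmeticFunction ℝ :=
  ⟨fun e => if e ∣ N then (1 : ℝ) else 0, by
    rw [if_neg]
    intro h
    have := zero_dvd_iff.1 h
    omega⟩

private theorem pwl_f_apply (N : ℕ) (hN : 1 ≤ N) (e : ℕ) :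
    pwl_f N hN e = if e ∣ N then (1 : ℝ) else 0 := by
  classical
  change (if e ∣ N then (1 : ℝ) else 0) = _
  congr

private theorem pwl_f_mult (N : ℕ) (hN : 1 ≤ N) : (pwl_f N hN).IsMultiplicative := by
  refine ⟨?_, ?_⟩
  · rw [pwl_f_apply, if_pos (one_dvd N)]
  · intro a b hab
    rw [pwl_f_apply, pwl_f_apply, pwl_f_apply]
    by_cases ha : a ∣ N
    · by_cases hb : b ∣ N
      · rw [if_pos ha, if_pos hb, if_pos (hab.mul_dvd_of_dvd_of_dvd ha hb), mul_one]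
      · rw [if_neg hb, mul_zero, if_neg]
        intro h
        exact hb ((Dvd.intro_left a rfl).trans h)
    · rw [if_neg ha, zero_mul, if_neg]
      intro h
      exact ha ((Dvd.intro b rfl).trans h)

private noncomputable def pwl_g : ArithmeticFunction ℝ :=
  ⟨fun e => 1 / (e.totient : ℝ), by simp⟩

private theorem pwl_g_apply (e : ℕ) : pwl_g e = 1 / (e.totient : ℝ) := rfl

private theorem pwl_g_mult : pwl_g.IsMultiplicative := by
  refine ⟨?_, ?_⟩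
  · rw [pwl_g_apply]
    simp
  · intro a b hab
    rw [pwl_g_apply, pwl_g_apply, pwl_g_apply, Nat.totient_mul hab, Nat.cast_mul, one_div_mul_one_div]

/-- MODULE PWL (Legendre below `W`).  `∑_{e0 ∣ P} μ(e0) [e0 ∣ N] = [N prime to P]` and
`∑_{e0 ∣ P} μ(e0)/φ(e0) = ∏ (1 - 1/(p-1))` for `P` = product of the primes of `pr m 0 W` (all `e0 ∣ P` are squarefree,
prime to `m`, `≤ P ≤ PW W`). -/
theorem legendre (m : ℕ) (W : ℝ) :
    ∃ P : ℕ, 0 < P ∧ Squarefree P ∧ P ≤ PW W ∧ P.primeFactors = pr m 0 W ∧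
      (∀ N : ℕ, 1 ≤ N → (∑ e ∈ P.divisors, ((ArithmeticFunction.moebius e : ℤ) : ℝ) * (if e ∣ N then (1 : ℝ) else 0)) =
        (if ∀ p ∈ pr m 0 W, ¬ p ∣ N then (1 : ℝ) else 0)) ∧
      (∑ e ∈ P.divisors, ((ArithmeticFunction.moebius e : ℤ) : ℝ) * (1 / (e.totient : ℝ))) = Vv m 0 W := by
  classical
  have hmem : ∀ p ∈ pr m 0 W, p ∈ (range ⌈W⌉₊).filter Nat.Prime := fun p hp => by
    unfold pr at hp
    have h1 := Finset.mem_filter.1 hp
    exact Finset.mem_filter.2 ⟨h1.1, h1.2.1⟩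
  have hpr : ∀ p ∈ pr m 0 W, p.Prime := fun p hp => (Finset.mem_filter.1 (hmem p hp)).2
  have hpf : (∏ p ∈ pr m 0 W, p).primeFactors = pr m 0 W := Nat.primeFactors_prod hpr
  have hsq : Squarefree (∏ p ∈ pr m 0 W, p) := by
    refine Finset.squarefree_prod_of_pairwise_isCoprime (fun p hp q hq hpq ↦ ?_)
      fun p hp ↦ (hpr p hp).squarefree
    simp only [← Nat.coprime_iff_isRelPrime]
    exact (Nat.coprime_primes (hpr p hp) (hpr q hq)).mpr hpq
  refine ⟨∏ p ∈ pr m 0 W, p, Finset.prod_pos fun p hp => (hpr p hp).pos, hsq, ?_, hpf, ?_, ?_⟩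
  · unfold PW
    exact Finset.prod_le_prod_of_subset_of_one_le' (fun p hp => hmem p hp)
      (fun p hp _ => (Finset.mem_filter.1 hp).2.one_le)
  · intro N hN
    have h1 := (pwl_f_mult N hN).prodPrimeFactors_one_sub_of_squarefree (pwl_f N hN) hsq
    rw [hpf] at h1
    simp only [pwl_f_apply] at h1
    rw [← h1]
    by_cases h : ∀ p ∈ pr m 0 W, ¬ p ∣ N
    · rw [if_pos h]
      exact Finset.prod_eq_one fun p hp => by rw [if_neg (h p hp), sub_zero]
    · rw [if_neg h]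
      push Not at h
      obtain ⟨p, hp, hpN⟩ := h
      exact Finset.prod_eq_zero hp (by rw [if_pos hpN, sub_self])
  · have h1 := pwl_g_mult.prodPrimeFactors_one_sub_of_squarefree pwl_g hsq
    rw [hpf] at h1
    simp only [pwl_g_apply] at h1
    rw [← h1]
    unfold Vv
    refine Finset.prod_congr rfl fun p hp => ?_
    rw [Nat.totient_prime (hpr p hp), Nat.cast_sub (hpr p hp).one_le, Nat.cast_one]

/-- the data of a triple `(e, e0, b)` -/
private def seT (m : ℕ) (W z : ℝ) (e e0 b : ℕ) : Prop :=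
  (Squarefree e ∧ e.Coprime m ∧ ∀ p ∈ e.primeFactors, z ≤ (p : ℝ)) ∧
    (Squarefree e0 ∧ ∀ p ∈ e0.primeFactors, p ∈ pr m 0 W) ∧
    (Squarefree b ∧ ∀ p ∈ b.primeFactors, p ∈ pr m W z)

private theorem se_cop {a b : ℕ} (ha : a ≠ 0) (hb : b ≠ 0)
    (h : ∀ p : ℕ, p ∈ a.primeFactors → p ∈ b.primeFactors → False) : a.Coprime b :=
  Nat.coprime_of_dvd fun k hk h1 h2 =>
    h k (Nat.mem_primeFactors.2 ⟨hk, h1, ha⟩) (Nat.mem_primeFactors.2 ⟨hk, h2, hb⟩)

private theorem se_copm {m b : ℕ} {W z : ℝ} (hb : b ≠ 0) (h : ∀ p ∈ b.primeFactors, p ∈ pr m W z) :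
    b.Coprime m :=
  Nat.coprime_of_dvd fun k hk h1 h2 =>
    (mem_pr.1 (h k (Nat.mem_primeFactors.2 ⟨hk, h1, hb⟩))).2.1 h2

private theorem se_tr {m : ℕ} {W z : ℝ} (hWz : W ≤ z) {e e0 b : ℕ} (h : seT m W z e e0 b) :
    e.Coprime e0 ∧ e.Coprime b ∧ e0.Coprime b ∧ Squarefree (e * e0 * b) ∧ (e * e0 * b).Coprime m := by
  obtain ⟨⟨h1, h2, h3⟩, ⟨h4, h5⟩, ⟨h6, h7⟩⟩ := h
  have c1 : e.Coprime e0 := se_cop h1.ne_zero h4.ne_zero fun p hp hp' => by
    have a1 := h3 p hp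
    have a2 := (mem_pr.1 (h5 p hp')).2.2.2
    linarith
  have c2 : e.Coprime b := se_cop h1.ne_zero h6.ne_zero fun p hp hp' => by
    have a1 := h3 p hp
    have a2 := (mem_pr.1 (h7 p hp')).2.2.2
    linarith
  have c3 : e0.Coprime b := se_cop h4.ne_zero h6.ne_zero fun p hp hp' => by
    have a1 := (mem_pr.1 (h5 p hp)).2.2.2
    have a2 := (mem_pr.1 (h7 p hp')).2.2.1
    linarith
  refine ⟨c1, c2, c3, ?_, ?_⟩
  · rw [Nat.squarefree_mul (Nat.Coprime.mul_left c2 c3), Nat.squarefree_mul c1]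
    exact ⟨⟨h1, h4⟩, h6⟩
  · exact Nat.Coprime.mul_left (Nat.Coprime.mul_left h2 (se_copm h4.ne_zero h5)) (se_copm h6.ne_zero h7)

private theorem se_pf {m : ℕ} {W z : ℝ} (hWz : W ≤ z) {e e0 b : ℕ} (h : seT m W z e e0 b) :
    e.primeFactors = (e * e0 * b).primeFactors.filter (fun p : ℕ => z ≤ (p : ℝ)) ∧
    e0.primeFactors = (e * e0 * b).primeFactors.filter (fun p : ℕ => (p : ℝ) < W) ∧
    b.primeFactors = (e * e0 * b).primeFactors.filter (fun p : ℕ => W ≤ (p : ℝ) ∧ (p : ℝ) < z) := by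
  obtain ⟨⟨h1, h2, h3⟩, ⟨h4, h5⟩, ⟨h6, h7⟩⟩ := h
  have hmul : (e * e0 * b).primeFactors = e.primeFactors ∪ e0.primeFactors ∪ b.primeFactors := by
    rw [Nat.primeFactors_mul (mul_ne_zero h1.ne_zero h4.ne_zero) h6.ne_zero,
      Nat.primeFactors_mul h1.ne_zero h4.ne_zero]
  rw [hmul]
  refine ⟨?_, ?_, ?_⟩ <;> ext p <;> simp only [Finset.mem_filter, Finset.mem_union]
  · constructor
    · intro hp
      exact ⟨Or.inl (Or.inl hp), h3 p hp⟩
    · rintro ⟨(hp | hp) | hp, hz⟩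
      · exact hp
      · have := (mem_pr.1 (h5 p hp)).2.2.2
        linarith
      · have := (mem_pr.1 (h7 p hp)).2.2.2
        linarith
  · constructor
    · intro hp
      exact ⟨Or.inl (Or.inr hp), (mem_pr.1 (h5 p hp)).2.2.2⟩
    · rintro ⟨(hp | hp) | hp, hz⟩
      · have := h3 p hp
        linarith
      · exact hp
      · have := (mem_pr.1 (h7 p hp)).2.2.1
        linarith
  · constructor
    · intro hp
      exact ⟨Or.inr hp, (mem_pr.1 (h7 p hp)).2.2⟩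
    · rintro ⟨(hp | hp) | hp, hz, hz'⟩
      · have := h3 p hp
        linarith
      · have := (mem_pr.1 (h5 p hp)).2.2.2
        linarith
      · exact hp

private theorem se_inj {m : ℕ} {W z : ℝ} (hWz : W ≤ z) {e e0 b e' e0' b' : ℕ} (h : seT m W z e e0 b)
    (h' : seT m W z e' e0' b') (heq : e * e0 * b = e' * e0' * b') : e = e' ∧ e0 = e0' ∧ b = b' := by
  have a := se_pf hWz h
  have a' := se_pf hWz h'
  rw [heq] at a
  refine ⟨?_, ?_, ?_⟩
  · rw [← Nat.prod_primeFactors_of_squarefree h.1.1, ← Nat.prod_primeFactors_of_squarefree h'.1.1,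
      a.1, a'.1]
  · rw [← Nat.prod_primeFactors_of_squarefree h.2.1.1, ← Nat.prod_primeFactors_of_squarefree h'.2.1.1,
      a.2.1, a'.2.1]
  · rw [← Nat.prod_primeFactors_of_squarefree h.2.2.1, ← Nat.prod_primeFactors_of_squarefree h'.2.2.1,
      a.2.2, a'.2.2]

private theorem se_dvd {m : ℕ} {W z : ℝ} (hWz : W ≤ z) {e e0 b : ℕ} (h : seT m W z e e0 b) (N : ℕ) :
    ((if e ∣ N then (1 : ℝ) else 0) * (if e0 ∣ N then (1 : ℝ) else 0)) * (if b ∣ N then (1 : ℝ) else 0) =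
      if e * e0 * b ∣ N then 1 else 0 := by
  obtain ⟨c1, c2, c3, -, -⟩ := se_tr hWz h
  have hiff : e * e0 * b ∣ N ↔ (e ∣ N ∧ e0 ∣ N) ∧ b ∣ N := by
    constructor
    · intro hd
      have d1 : e * e0 ∣ N := dvd_trans (Dvd.intro _ rfl) hd
      exact ⟨⟨dvd_trans (Dvd.intro _ rfl) d1, dvd_trans (Dvd.intro_left _ rfl) d1⟩,
        dvd_trans (Dvd.intro_left _ rfl) hd⟩
    · rintro ⟨⟨d1, d2⟩, d3⟩
      exact Nat.Coprime.mul_dvd_of_dvd_of_dvd (Nat.Coprime.mul_left c2 c3)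
        (Nat.Coprime.mul_dvd_of_dvd_of_dvd c1 d1 d2) d3
  by_cases h1 : e ∣ N <;> by_cases h2 : e0 ∣ N <;> by_cases h3 : b ∣ N <;> simp [hiff, h1, h2, h3]

private theorem se_Ro_add (m : ℕ) (W : ℝ) (n : ℕ) (t : Bool) (z D : ℝ) (h h' : ℕ → ℝ) :
    Ro m W n t z D (fun b => h b + h' b) = Ro m W n t z D h + Ro m W n t z D h' := by
  have h1 := Ro_sum m W n t z D (Finset.univ : Finset Bool) (fun _ => (1 : ℝ))
    (fun k b => if k then h b else h' b)
  simp only [Fintype.sum_bool, one_mul, if_true, Bool.false_eq_true, if_false] at h1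
  exact h1

private theorem se_mul_if (x : ℝ) (a : Prop) [Decidable a] : x * (if a then (1 : ℝ) else 0) = if a then x else 0 := by
  split <;> simp

/-- the main identity -/
private theorem se_main {ι : Type} (I : Finset ι) (w : ι → ℝ) (N : ι → ℕ)
    (m : ℕ) (W z D : ℝ) (hWz : W ≤ z) (n : ℕ) (t : Bool)
    (X : ℝ) (e e0 : ℕ) (he : Squarefree e ∧ e.Coprime m ∧ (∀ p ∈ e.primeFactors, z ≤ (p : ℝ)))
    (he0 : Squarefree e0 ∧ ∀ p ∈ e0.primeFactors, p ∈ pr m 0 W) :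
    ∑ k ∈ I, w k * (((if e ∣ N k then (1 : ℝ) else 0) * (if e0 ∣ N k then (1 : ℝ) else 0)) *
        Ro m W n t z D (fun b => if b ∣ N k then 1 else 0)) =
      X / (e.totient : ℝ) * (1 / (e0.totient : ℝ)) * vr m W n t z D +
        Ro m W n t z D (fun b => Ad I w N (e * e0 * b) - X / ((e * e0 * b).totient : ℝ)) := by
  have h1 : ∑ k ∈ I, w k * (((if e ∣ N k then (1 : ℝ) else 0) * (if e0 ∣ N k then (1 : ℝ) else 0)) *
        Ro m W n t z D (fun b => if b ∣ N k then 1 else 0)) =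
      Ro m W n t z D (fun b => ∑ k ∈ I, w k * (((if e ∣ N k then (1 : ℝ) else 0) *
        (if e0 ∣ N k then (1 : ℝ) else 0)) * (if b ∣ N k then 1 else 0))) := by
    rw [Ro_sum m W n t z D I w (fun k b => ((if e ∣ N k then (1 : ℝ) else 0) *
        (if e0 ∣ N k then (1 : ℝ) else 0)) * (if b ∣ N k then 1 else 0))]
    refine Finset.sum_congr rfl fun k _ => ?_
    rw [← Ro_smul]
  have h2 : X / (e.totient : ℝ) * (1 / (e0.totient : ℝ)) * vr m W n t z D =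
      Ro m W n t z D (fun b => X / (e.totient : ℝ) * (1 / (e0.totient : ℝ)) * (1 / (b.totient : ℝ))) := by
    rw [Ro_smul]
    rfl
  rw [h1, h2, ← se_Ro_add]
  refine Ro_congr _ _ _ _ _ _ _ _ fun b hb hb' => ?_
  have hT : seT m W z e e0 b := ⟨he, he0, hb, hb'⟩
  obtain ⟨c1, c2, c3, -, -⟩ := se_tr hWz hT
  have h3 : ((e * e0 * b).totient : ℝ) = (e.totient : ℝ) * (e0.totient : ℝ) * (b.totient : ℝ) := by
    rw [Nat.totient_mul (Nat.Coprime.mul_left c2 c3), Nat.totient_mul c1]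
    push_cast
    ring
  have h4 : Ad I w N (e * e0 * b) = ∑ k ∈ I, w k * (((if e ∣ N k then (1 : ℝ) else 0) *
        (if e0 ∣ N k then (1 : ℝ) else 0)) * (if b ∣ N k then 1 else 0)) := by
    unfold Ad
    refine Finset.sum_congr rfl fun k _ => ?_
    rw [se_dvd hWz hT, se_mul_if]
  rw [h3, h4]
  field_simp
  ring

/-- the error -/
private theorem se_err {ι : Type} (I : Finset ι) (w : ι → ℝ) (N : ι → ℕ)
    (m : ℕ) (W z D : ℝ) (hWz : W ≤ z) (hD : 1 ≤ D) (n : ℕ) (t : Bool)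
    (hb : ∀ h : ℕ → ℝ, |Ro m W n t z D h| ≤ ∑ b ∈ lev m W z D, |h b|)
    (X : ℝ) (E : Finset ℕ) (E0 : ℝ)
    (hE : ∀ e ∈ E, Squarefree e ∧ e.Coprime m ∧ (∀ p ∈ e.primeFactors, z ≤ (p : ℝ)) ∧ (e : ℝ) ≤ E0)
    (P : ℕ) (hP0 : 0 < P) (hPs : Squarefree P) (hPW : P ≤ PW W) (hPp : P.primeFactors = pr m 0 W) :
    |∑ e ∈ E, ∑ e0 ∈ P.divisors, ((ArithmeticFunction.moebius e0 : ℤ) : ℝ) *
        Ro m W n t z D (fun b => Ad I w N (e * e0 * b) - X / ((e * e0 * b).totient : ℝ))| ≤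
      Rs I w N m X ((PW W : ℝ) * E0 * D) := by
  have hdiv : ∀ e0 ∈ P.divisors, Squarefree e0 ∧ ∀ p ∈ e0.primeFactors, p ∈ pr m 0 W := by
    intro e0 he0
    have hd := Nat.dvd_of_mem_divisors he0
    refine ⟨hPs.squarefree_of_dvd hd, fun p hp => ?_⟩
    rw [← hPp]
    exact Nat.primeFactors_mono hd hP0.ne' hp
  have hlev : ∀ b ∈ lev m W z D, (Squarefree b ∧ ∀ p ∈ b.primeFactors, p ∈ pr m W z) ∧ (b : ℝ) ≤ D := by
    intro b hb
    unfold lev at hb
    rw [Finset.mem_filter, Finset.mem_Icc] at hb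
    exact ⟨hb.2, (Nat.le_floor_iff (by linarith)).1 hb.1.2⟩
  calc |∑ e ∈ E, ∑ e0 ∈ P.divisors, ((ArithmeticFunction.moebius e0 : ℤ) : ℝ) *
        Ro m W n t z D (fun b => Ad I w N (e * e0 * b) - X / ((e * e0 * b).totient : ℝ))|
      ≤ ∑ e ∈ E, ∑ e0 ∈ P.divisors, ∑ b ∈ lev m W z D,
          |Ad I w N (e * e0 * b) - X / ((e * e0 * b).totient : ℝ)| := by
        refine (Finset.abs_sum_le_sum_abs _ _).trans (Finset.sum_le_sum fun e _ => ?_)
        refine (Finset.abs_sum_le_sum_abs _ _).trans (Finset.sum_le_sum fun e0 _ => ?_)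
        rw [abs_mul]
        have hmu : |((ArithmeticFunction.moebius e0 : ℤ) : ℝ)| ≤ 1 := by
          have := ArithmeticFunction.abs_moebius_le_one (n := e0)
          exact_mod_cast this
        calc _ ≤ 1 * |Ro m W n t z D (fun b => Ad I w N (e * e0 * b) - X / ((e * e0 * b).totient : ℝ))| :=
              mul_le_mul_of_nonneg_right hmu (abs_nonneg _)
          _ ≤ _ := by
              rw [one_mul]
              exact hb _
    _ = ∑ y ∈ E ×ˢ (P.divisors ×ˢ lev m W z D),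
          |Ad I w N (y.1 * y.2.1 * y.2.2) - X / ((y.1 * y.2.1 * y.2.2).totient : ℝ)| := by
        rw [Finset.sum_product]
        refine Finset.sum_congr rfl fun e _ => ?_
        rw [Finset.sum_product]
    _ = ∑ b ∈ (E ×ˢ (P.divisors ×ˢ lev m W z D)).image (fun y => y.1 * y.2.1 * y.2.2),
          |Ad I w N b - X / (b.totient : ℝ)| := by
        rw [Finset.sum_image]
        rintro ⟨e, e0, b⟩ hy ⟨e', e0', b'⟩ hy' heq
        simp only [Finset.coe_product, Set.mem_prod, Finset.mem_coe] at hy hy'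
        have q := se_inj hWz (m := m) (e := e) (e0 := e0) (b := b) (e' := e') (e0' := e0') (b' := b')
          ⟨⟨(hE e hy.1).1, (hE e hy.1).2.1, (hE e hy.1).2.2.1⟩, hdiv e0 hy.2.1, (hlev b hy.2.2).1⟩
          ⟨⟨(hE e' hy'.1).1, (hE e' hy'.1).2.1, (hE e' hy'.1).2.2.1⟩, hdiv e0' hy'.2.1,
            (hlev b' hy'.2.2).1⟩ heq
        rw [q.1, q.2.1, q.2.2]
    _ ≤ Rs I w N m X ((PW W : ℝ) * E0 * D) := by
        unfold Rs
        refine Finset.sum_le_sum_of_subset_of_nonneg ?_ fun _ _ _ => abs_nonneg _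
        intro c hc
        rw [Finset.mem_image] at hc
        obtain ⟨⟨e, e0, b⟩, hy, rfl⟩ := hc
        rw [Finset.mem_product, Finset.mem_product] at hy
        have hT : seT m W z e e0 b :=
          ⟨⟨(hE e hy.1).1, (hE e hy.1).2.1, (hE e hy.1).2.2.1⟩, hdiv e0 hy.2.1, (hlev b hy.2.2).1⟩
        obtain ⟨c1, c2, c3, c4, c5⟩ := se_tr hWz hT
        rw [Finset.mem_filter, Finset.mem_Icc]
        refine ⟨⟨Nat.one_le_iff_ne_zero.2 c4.ne_zero, ?_⟩, c4, c5⟩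
        have b1 : (e : ℝ) ≤ E0 := (hE e hy.1).2.2.2
        have b2 : (e0 : ℝ) ≤ (PW W : ℝ) := by
          have := (Nat.le_of_dvd hP0 (Nat.dvd_of_mem_divisors hy.2.1)).trans hPW
          exact_mod_cast this
        have b3 : (b : ℝ) ≤ D := (hlev b hy.2.2).2
        apply Nat.le_floor
        push_cast
        have p1 : (0 : ℝ) ≤ (e : ℝ) := Nat.cast_nonneg _
        have p2 : (0 : ℝ) ≤ (e0 : ℝ) := Nat.cast_nonneg _
        have p3 : (0 : ℝ) ≤ (b : ℝ) := Nat.cast_nonneg _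
        calc (e : ℝ) * e0 * b = (e0 : ℝ) * e * b := by ring
          _ ≤ (PW W : ℝ) * E0 * D := by
              apply mul_le_mul _ b3 p3 (mul_nonneg (p2.trans b2) (p1.trans b1))
              exact mul_le_mul b2 b1 p1 (p2.trans b2)

/-- both sides together -/
private theorem se_both {ι : Type} (I : Finset ι) (w : ι → ℝ) (N : ι → ℕ) (hN : ∀ k ∈ I, 1 ≤ N k)
    (m : ℕ) (W z D : ℝ) (hWz : W ≤ z) (hD : 1 ≤ D) (n : ℕ) (t : Bool)
    (hb : ∀ h : ℕ → ℝ, |Ro m W n t z D h| ≤ ∑ b ∈ lev m W z D, |h b|)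
    (X : ℝ) (E : Finset ℕ) (E0 : ℝ)
    (hE : ∀ e ∈ E, Squarefree e ∧ e.Coprime m ∧ (∀ p ∈ e.primeFactors, z ≤ (p : ℝ)) ∧ (e : ℝ) ≤ E0) :
    |(∑ e ∈ E, ∑ k ∈ I, w k * (if e ∣ N k ∧ ∀ p ∈ pr m 0 W, ¬ p ∣ N k then (1 : ℝ) else 0) *
        Ro m W n t z D (fun b => if b ∣ N k then 1 else 0)) -
      X * (Vv m 0 W * vr m W n t z D) * (∑ e ∈ E, 1 / (e.totient : ℝ))| ≤
      Rs I w N m X ((PW W : ℝ) * E0 * D) := by
  obtain ⟨P, hP0, hPs, hPW, hPp, hPN, hPV⟩ := legendre m W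
  refine le_trans (le_of_eq ?_) (se_err I w N m W z D hWz hD n t hb X E E0 hE P hP0 hPs hPW hPp)
  congr 1
  have hdiv : ∀ e0 ∈ P.divisors, Squarefree e0 ∧ ∀ p ∈ e0.primeFactors, p ∈ pr m 0 W := by
    intro e0 he0
    have hd := Nat.dvd_of_mem_divisors he0
    refine ⟨hPs.squarefree_of_dvd hd, fun p hp => ?_⟩
    rw [← hPp]
    exact Nat.primeFactors_mono hd hP0.ne' hp
  have key : ∀ e ∈ E, ∑ k ∈ I, w k * (if e ∣ N k ∧ ∀ p ∈ pr m 0 W, ¬ p ∣ N k then (1 : ℝ) else 0) *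
        Ro m W n t z D (fun b => if b ∣ N k then 1 else 0) =
      X * (Vv m 0 W * vr m W n t z D) * (1 / (e.totient : ℝ)) +
      ∑ e0 ∈ P.divisors, ((ArithmeticFunction.moebius e0 : ℤ) : ℝ) *
        Ro m W n t z D (fun b => Ad I w N (e * e0 * b) - X / ((e * e0 * b).totient : ℝ)) := by
    intro e he
    calc ∑ k ∈ I, w k * (if e ∣ N k ∧ ∀ p ∈ pr m 0 W, ¬ p ∣ N k then (1 : ℝ) else 0) *
        Ro m W n t z D (fun b => if b ∣ N k then 1 else 0)
        = ∑ k ∈ I, ∑ e0 ∈ P.divisors, ((ArithmeticFunction.moebius e0 : ℤ) : ℝ) *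
          (w k * (((if e ∣ N k then (1 : ℝ) else 0) * (if e0 ∣ N k then (1 : ℝ) else 0)) *
        Ro m W n t z D (fun b => if b ∣ N k then 1 else 0))) := by
          refine Finset.sum_congr rfl fun k hk => ?_
          have h1 : (if e ∣ N k ∧ ∀ p ∈ pr m 0 W, ¬ p ∣ N k then (1 : ℝ) else 0) =
              (if e ∣ N k then (1 : ℝ) else 0) *
                (∑ e0 ∈ P.divisors, ((ArithmeticFunction.moebius e0 : ℤ) : ℝ) *
                  (if e0 ∣ N k then (1 : ℝ) else 0)) := by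
            rw [hPN (N k) (hN k hk)]
            by_cases h2 : e ∣ N k <;> simp [h2]
          rw [h1, Finset.mul_sum, Finset.mul_sum, Finset.sum_mul]
          refine Finset.sum_congr rfl fun e0 _ => ?_
          ring
      _ = ∑ e0 ∈ P.divisors, ((ArithmeticFunction.moebius e0 : ℤ) : ℝ) *
          (X / (e.totient : ℝ) * (1 / (e0.totient : ℝ)) * vr m W n t z D +
            Ro m W n t z D (fun b => Ad I w N (e * e0 * b) - X / ((e * e0 * b).totient : ℝ))) := by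
          rw [Finset.sum_comm]
          refine Finset.sum_congr rfl fun e0 he0 => ?_
          rw [← Finset.mul_sum, se_main I w N m W z D hWz n t X e e0
            ⟨(hE e he).1, (hE e he).2.1, (hE e he).2.2.1⟩ (hdiv e0 he0)]
      _ = _ := by
          simp only [mul_add]
          rw [Finset.sum_add_distrib]
          congr 1
          rw [← hPV, Finset.sum_mul, Finset.mul_sum, Finset.sum_mul]
          refine Finset.sum_congr rfl fun e0 _ => ?_
          ring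
  rw [Finset.sum_congr rfl key, Finset.sum_add_distrib, ← Finset.mul_sum]
  ring

private theorem se_ind {m : ℕ} {W z : ℝ} (hW : 0 ≤ W) (hWz : W ≤ z) (N : ℕ) :
    (∀ p ∈ pr m 0 z, ¬ p ∣ N) ↔ (∀ p ∈ pr m 0 W, ¬ p ∣ N) ∧ (∀ p ∈ pr m W z, ¬ p ∣ N) := by
  constructor
  · intro h
    refine ⟨fun p hp => h p ?_, fun p hp => h p ?_⟩
    · have := mem_pr.1 hp
      exact mem_pr.2 ⟨this.1, this.2.1, this.2.2.1, this.2.2.2.trans_le hWz⟩
    · have := mem_pr.1 hp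
      exact mem_pr.2 ⟨this.1, this.2.1, hW.trans this.2.2.1, this.2.2.2⟩
  · rintro ⟨h1, h2⟩ p hp
    have := mem_pr.1 hp
    rcases lt_or_ge (p : ℝ) W with h3 | h3
    · exact h1 p (mem_pr.2 ⟨this.1, this.2.1, this.2.2.1, h3⟩)
    · exact h2 p (mem_pr.2 ⟨this.1, this.2.1, h3, this.2.2.2⟩)

/-- MODULE SE_UP.  Sum over `e ∈ E` of the upper bound sieve for the members divisible by `e`.
Proof: `P` from `legendre`.  For `k ∈ I`, `e ∈ E`: `[e ∣ N][no p ∈ pr m 0 z divides N] =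
[e ∣ N] [no p ∈ pr m 0 W][no p ∈ pr m W z] ≤ [e ∣ N] ∑_{e0 ∣ P} μ(e0)[e0 ∣ N] · Ro true (b ↦ [b ∣ N])` by `Ro_sieve` (the
first factor is `≥ 0`).  Multiply by `w k`, sum over `k`, exchange: `Ro_sum` and, for `b` squarefree with primes in
`pr m W z`, `e`, `e0`, `b` pairwise coprime, `[e ∣ N][e0 ∣ N][b ∣ N] = [e e0 b ∣ N]` (`Ro_congr`):
`Sf e ≤ ∑_{e0} μ(e0) Ro true (b ↦ Ad (e e0 b))`.  Write `Ad (e e0 b) = X/(φ(e) φ(e0) φ(b)) + r(e e0 b)`.  The main term is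
`X/φ(e) · Vv m 0 W · vr true z D`.  The error is `≤ ∑_{e0} ∑_{b ∈ lev m W z D} |r(e e0 b)|` (`Ro_bound`, `max 1 D = D`), and
`(e, e0, b) ↦ e e0 b` is injective on `E × P.divisors × lev` (the three factors are the parts of the number composed of
the primes `≥ z`, `< W`, in `[W, z)`), the value is squarefree, prime to `m` and `≤ E0 · PW W · D`. -/
theorem se_up {ι : Type} (I : Finset ι) (w : ι → ℝ) (N : ι → ℕ) (hw : ∀ k ∈ I, 0 ≤ w k) (hN : ∀ k ∈ I, 1 ≤ N k)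
    (m : ℕ) (hm : 0 < m) (W z D : ℝ) (hW : 3 ≤ W) (hWz : W ≤ z) (hD : 1 ≤ D) (n : ℕ) (hn : ⌈z⌉₊ ≤ n)
    (X : ℝ) (E : Finset ℕ) (E0 : ℝ)
    (hE : ∀ e ∈ E, Squarefree e ∧ e.Coprime m ∧ (∀ p ∈ e.primeFactors, z ≤ (p : ℝ)) ∧ (e : ℝ) ≤ E0) :
    ∑ e ∈ E, Sf I w N m z e ≤
      X * (Vv m 0 W * vr m W n true z D) * (∑ e ∈ E, 1 / (e.totient : ℝ)) + Rs I w N m X ((PW W : ℝ) * E0 * D) := by
  have h1 := se_both I w N hN m W z D hWz hD n true
    (fun h => by simpa only [max_eq_right hD] using Ro_bound m W n z D h) X E E0 hE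
  have h2 : ∑ e ∈ E, Sf I w N m z e ≤
      ∑ e ∈ E, ∑ k ∈ I, w k * (if e ∣ N k ∧ ∀ p ∈ pr m 0 W, ¬ p ∣ N k then (1 : ℝ) else 0) *
        Ro m W n true z D (fun b => if b ∣ N k then 1 else 0) := by
    refine Finset.sum_le_sum fun e _ => ?_
    unfold Sf
    refine Finset.sum_le_sum fun k hk => ?_
    have h3 := (Ro_sieve m W n z D (N k) (hN k hk) hn).1
    have h4 := se_ind (m := m) (by linarith : (0 : ℝ) ≤ W) hWz (N k)
    have hw0 := hw k hk
    by_cases a1 : e ∣ N k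
    · by_cases a2 : ∀ p ∈ pr m 0 W, ¬ p ∣ N k
      · have e1 : (if e ∣ N k ∧ ∀ p ∈ pr m 0 W, ¬ p ∣ N k then (1 : ℝ) else 0) = 1 :=
          if_pos ⟨a1, a2⟩
        rw [e1, mul_one]
        by_cases a3 : ∀ p ∈ pr m W z, ¬ p ∣ N k
        · rw [if_pos ⟨a1, h4.2 ⟨a2, a3⟩⟩]
          rw [if_pos a3] at h3
          calc w k = w k * 1 := (mul_one _).symm
            _ ≤ _ := mul_le_mul_of_nonneg_left h3 hw0
        · rw [if_neg (fun h => a3 (h4.1 h.2).2)]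
          rw [if_neg a3] at h3
          exact mul_nonneg hw0 h3
      · have e1 : (if e ∣ N k ∧ ∀ p ∈ pr m 0 W, ¬ p ∣ N k then (1 : ℝ) else 0) = 0 :=
          if_neg (fun h => a2 h.2)
        rw [e1, mul_zero, zero_mul, if_neg (fun h => a2 (h4.1 h.2).1)]
    · have e1 : (if e ∣ N k ∧ ∀ p ∈ pr m 0 W, ¬ p ∣ N k then (1 : ℝ) else 0) = 0 :=
        if_neg (fun h => a1 h.1)
      rw [e1, mul_zero, zero_mul, if_neg (fun h => a1 h.1)]
  have h3 := (abs_le.1 h1).2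
  linarith

/-- MODULE SE_LOW.  The same with the lower bound sieve, `z^2 ≤ D` (`Ro_bound'`). -/
theorem se_low {ι : Type} (I : Finset ι) (w : ι → ℝ) (N : ι → ℕ) (hw : ∀ k ∈ I, 0 ≤ w k) (hN : ∀ k ∈ I, 1 ≤ N k)
    (m : ℕ) (hm : 0 < m) (W z D : ℝ) (hW : 3 ≤ W) (hWz : W ≤ z) (hD : z ^ 2 ≤ D) (n : ℕ) (hn : ⌈z⌉₊ ≤ n)
    (X : ℝ) (E : Finset ℕ) (E0 : ℝ)
    (hE : ∀ e ∈ E, Squarefree e ∧ e.Coprime m ∧ (∀ p ∈ e.primeFactors, z ≤ (p : ℝ)) ∧ (e : ℝ) ≤ E0) :
    X * (Vv m 0 W * vr m W n false z D) * (∑ e ∈ E, 1 / (e.totient : ℝ)) - Rs I w N m X ((PW W : ℝ) * E0 * D) ≤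
      ∑ e ∈ E, Sf I w N m z e := by
  have hD1 : 1 ≤ D := by nlinarith
  have h1 := se_both I w N hN m W z D hWz hD1 n false
    (fun h => by simpa only [max_eq_right hD1] using Ro_bound' m W n z D hD h) X E E0 hE
  have h2 : ∑ e ∈ E, ∑ k ∈ I, w k * (if e ∣ N k ∧ ∀ p ∈ pr m 0 W, ¬ p ∣ N k then (1 : ℝ) else 0) *
        Ro m W n false z D (fun b => if b ∣ N k then 1 else 0) ≤ ∑ e ∈ E, Sf I w N m z e := by
    refine Finset.sum_le_sum fun e _ => ?_
    unfold Sf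
    refine Finset.sum_le_sum fun k hk => ?_
    have h3 := (Ro_sieve m W n z D (N k) (hN k hk) hn).2
    have h4 := se_ind (m := m) (by linarith : (0 : ℝ) ≤ W) hWz (N k)
    have hw0 := hw k hk
    by_cases a1 : e ∣ N k
    · by_cases a2 : ∀ p ∈ pr m 0 W, ¬ p ∣ N k
      · have e1 : (if e ∣ N k ∧ ∀ p ∈ pr m 0 W, ¬ p ∣ N k then (1 : ℝ) else 0) = 1 :=
          if_pos ⟨a1, a2⟩
        rw [e1, mul_one]
        by_cases a3 : ∀ p ∈ pr m W z, ¬ p ∣ N k
        · rw [if_pos ⟨a1, h4.2 ⟨a2, a3⟩⟩]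
          rw [if_pos a3] at h3
          calc _ ≤ w k * 1 := mul_le_mul_of_nonneg_left h3 hw0
            _ = _ := mul_one _
        · rw [if_neg (fun h => a3 (h4.1 h.2).2)]
          rw [if_neg a3] at h3
          exact mul_nonpos_of_nonneg_of_nonpos hw0 h3
      · have e1 : (if e ∣ N k ∧ ∀ p ∈ pr m 0 W, ¬ p ∣ N k then (1 : ℝ) else 0) = 0 :=
          if_neg (fun h => a2 h.2)
        rw [e1, mul_zero, zero_mul, if_neg (fun h => a2 (h4.1 h.2).1)]
    · have e1 : (if e ∣ N k ∧ ∀ p ∈ pr m 0 W, ¬ p ∣ N k then (1 : ℝ) else 0) = 0 :=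
        if_neg (fun h => a1 h.1)
      rw [e1, mul_zero, zero_mul, if_neg (fun h => a1 h.1)]
  have h3 := (abs_le.1 h1).1
  linarith

end Pool.Agent.CC
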