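import Pool.Agent.CC.Defs

/-! CC, part E: the numerical supersolution of the linear sieve (tables `psiT`, `phiT`, `AA`). -/

set_option autoImplicit false

namespace Pool.Agent.CC

open Finset

/-- the piecewise linear function with the values `v i` at `i/16`, continued by `c e^(7 - t)`, `c = v 112`, beyond 7 -/
noncomputable def plf (v : ℕ → ℝ) (t : ℝ) : ℝ :=
  if t ≤ 7 then v ⌊16 * t⌋₊ + (16 * t - ⌊16 * t⌋₊) * (v (⌊16 * t⌋₊ + 1) - v ⌊16 * t⌋₊) else v 112 * Real.exp (7 - t)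

/-- its tail integral -/
noncomputable def plI (v : ℕ → ℝ) (t : ℝ) : ℝ :=
  if t ≤ 7 then (∫ u in t..7, plf v u) + v 112 else v 112 * Real.exp (7 - t)

/-- the linear formula on a closed cell -/
private theorem PLI_cell (v : ℕ → ℝ) (i : ℕ) (hi : i < 112) (t : ℝ) (h1 : (i : ℝ) / 16 ≤ t)
    (h2 : t ≤ ((i : ℝ) + 1) / 16) : plf v t = v i + (16 * t - i) * (v (i + 1) - v i) := by
  have hi' : (i : ℝ) + 1 ≤ 112 := by exact_mod_cast hi
  have ht : t ≤ 7 := by linarith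
  have ht0 : 0 ≤ 16 * t := by
    have : (0 : ℝ) ≤ i := Nat.cast_nonneg i
    linarith
  rw [plf, if_pos ht]
  rcases h2.lt_or_eq with h | h
  · have : ⌊16 * t⌋₊ = i := by
      rw [Nat.floor_eq_iff ht0]
      constructor <;> linarith
    rw [this]
  · have : ⌊16 * t⌋₊ = i + 1 := by
      have e : 16 * t = ((i + 1 : ℕ) : ℝ) := by push_cast; linarith
      rw [e, Nat.floor_natCast]
    rw [this]
    have e : 16 * t = (i : ℝ) + 1 := by linarith
    push_cast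
    rw [e]
    ring

private theorem PLI_seven (v : ℕ → ℝ) : plf v 7 = v 112 := by
  have h := PLI_cell v 111 (by norm_num) 7 (by norm_num) (by norm_num)
  rw [h]
  norm_num

private theorem PLI_node (v : ℕ → ℝ) (i : ℕ) (hi : i ≤ 112) : plf v ((i : ℝ) / 16) = v i := by
  rcases hi.lt_or_eq with h | h
  · rw [PLI_cell v i h _ le_rfl (by linarith)]
    ring_nf
  · subst h
    have e : ((112 : ℕ) : ℝ) / 16 = 7 := by norm_num
    rw [e, PLI_seven]

private theorem PLI_anti_v (v : ℕ → ℝ) (i0 : ℕ) (hv : ∀ i, i0 ≤ i → i < 112 → v (i + 1) ≤ v i)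
    (i j : ℕ) (hi : i0 ≤ i) (hij : i ≤ j) (hj : j ≤ 112) : v j ≤ v i := by
  induction j, hij using Nat.le_induction with
  | base => exact le_rfl
  | succ j hij ih => exact (hv j (hi.trans hij) (by omega)).trans (ih (by omega))

/-- every point of `[i0/16, 7)` lies in a half open cell -/
private theorem PLI_exists (i0 : ℕ) (t : ℝ) (h1 : (i0 : ℝ) / 16 ≤ t) (h2 : t < 7) :
    ∃ i : ℕ, i0 ≤ i ∧ i < 112 ∧ (i : ℝ) / 16 ≤ t ∧ t < ((i : ℝ) + 1) / 16 := by
  have h0 : (0 : ℝ) ≤ 16 * t := by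
    have : (0 : ℝ) ≤ i0 := Nat.cast_nonneg i0
    linarith
  refine ⟨⌊16 * t⌋₊, Nat.le_floor (by linarith), (Nat.floor_lt h0).2 (by push_cast; linarith), ?_, ?_⟩
  · have := Nat.floor_le h0
    linarith
  · have := Nat.lt_floor_add_one (16 * t)
    linarith

private theorem PLI_anti7 (v : ℕ → ℝ) (i0 : ℕ) (hv : ∀ i, i0 ≤ i → i < 112 → v (i + 1) ≤ v i)
    (t t' : ℝ) (h1 : (i0 : ℝ) / 16 ≤ t) (h2 : t ≤ t') (h3 : t' ≤ 7) : plf v t' ≤ plf v t := by
  rcases h2.lt_or_eq with h2' | rfl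
  swap
  · exact le_rfl
  obtain ⟨i, hi0, hi, hi1, hi2⟩ := PLI_exists i0 t h1 (h2'.trans_le h3)
  rw [PLI_cell v i hi t hi1 hi2.le]
  have hvi := hv i hi0 hi
  by_cases h4 : t' ≤ ((i : ℝ) + 1) / 16
  · rw [PLI_cell v i hi t' (hi1.trans h2) h4]
    nlinarith
  · push Not at h4
    -- both sides compared with v (i+1)
    have h5 : v (i + 1) ≤ v i + (16 * t - i) * (v (i + 1) - v i) := by nlinarith
    refine le_trans ?_ h5
    rcases h3.lt_or_eq with h3' | rfl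
    · obtain ⟨j, -, hj, hj1, hj2⟩ := PLI_exists i0 t' (h1.trans h2) h3'
      have hij : i + 1 ≤ j := by
        have : (i : ℝ) + 1 < (j : ℝ) + 1 := by linarith
        have h6 : i + 1 < j + 1 := by exact_mod_cast this
        omega
      rw [PLI_cell v j hj t' hj1 hj2.le]
      have h7 := hv j (by omega) hj
      have h8 := PLI_anti_v v i0 hv (i + 1) j (by omega) hij (by omega)
      nlinarith
    · rw [PLI_seven]
      exact PLI_anti_v v i0 hv (i + 1) 112 (by omega) (by omega) le_rfl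

private theorem PLI_ge (v : ℕ → ℝ) (i0 : ℕ) (hv : ∀ i, i0 ≤ i → i < 112 → v (i + 1) ≤ v i)
    (t : ℝ) (h1 : (i0 : ℝ) / 16 ≤ t) (h3 : t ≤ 7) : v 112 ≤ plf v t := by
  have := PLI_anti7 v i0 hv t 7 h1 h3 le_rfl
  rwa [PLI_seven] at this

private theorem PLI_anti (v : ℕ → ℝ) (i0 : ℕ) (hv : ∀ i, i0 ≤ i → i < 112 → v (i + 1) ≤ v i)
    (h0 : 0 ≤ v 112) (t t' : ℝ) (h1 : (i0 : ℝ) / 16 ≤ t) (h2 : t ≤ t') : plf v t' ≤ plf v t := by
  by_cases h3 : t' ≤ 7
  · exact PLI_anti7 v i0 hv t t' h1 h2 h3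
  · have e' : plf v t' = v 112 * Real.exp (7 - t') := by rw [plf, if_neg h3]
    push Not at h3
    by_cases h4 : t ≤ 7
    · refine le_trans ?_ (PLI_ge v i0 hv t h1 h4)
      rw [e']
      have : Real.exp (7 - t') ≤ 1 := Real.exp_le_one_iff.2 (by linarith)
      nlinarith
    · rw [e', plf, if_neg h4]
      have : Real.exp (7 - t') ≤ Real.exp (7 - t) := Real.exp_le_exp.2 (by linarith)
      exact mul_le_mul_of_nonneg_left this h0

private theorem PLI_intg (v : ℕ → ℝ) (i0 : ℕ) (hv : ∀ i, i0 ≤ i → i < 112 → v (i + 1) ≤ v i)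
    (h0 : 0 ≤ v 112) (t t' : ℝ) (h1 : (i0 : ℝ) / 16 ≤ t) (h2 : (i0 : ℝ) / 16 ≤ t') :
    IntervalIntegrable (plf v) MeasureTheory.volume t t' := by
  apply AntitoneOn.intervalIntegrable
  intro a ha b hb hab
  refine PLI_anti v i0 hv h0 a b ?_ hab
  rcases Set.mem_uIcc.1 ha with h | h
  · exact h1.trans h.1
  · exact h2.trans h.1

private theorem PLI_int (v : ℕ → ℝ) (i0 : ℕ) (hv : ∀ i, i0 ≤ i → i < 112 → v (i + 1) ≤ v i)
    (h0 : 0 ≤ v 112) (t t' : ℝ) (h1 : (i0 : ℝ) / 16 ≤ t) (h2 : t ≤ t') :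
    (t' - t) * plf v t' ≤ ∫ u in t..t', plf v u ∧ (∫ u in t..t', plf v u) ≤ (t' - t) * plf v t := by
  have hint := PLI_intg v i0 hv h0 t t' h1 (h1.trans h2)
  constructor
  · have h3 : (∫ _ in t..t', plf v t') ≤ ∫ u in t..t', plf v u := by
      apply intervalIntegral.integral_mono_on h2 intervalIntegrable_const hint
      intro x hx
      exact PLI_anti v i0 hv h0 x t' (h1.trans hx.1) hx.2
    rwa [intervalIntegral.integral_const, smul_eq_mul] at h3
  · have h3 : (∫ u in t..t', plf v u) ≤ ∫ _ in t..t', plf v t := by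
      apply intervalIntegral.integral_mono_on h2 hint intervalIntegrable_const
      intro x hx
      exact PLI_anti v i0 hv h0 t x h1 hx.1
    rwa [intervalIntegral.integral_const, smul_eq_mul] at h3

private theorem PLI_exp1 (x : ℝ) : 1 - Real.exp (-x) ≤ x := by
  have := Real.add_one_le_exp (-x)
  linarith

private theorem PLI_exp2 (x : ℝ) : x * Real.exp (-x) ≤ 1 - Real.exp (-x) := by
  have h := Real.add_one_le_exp x
  have h2 : Real.exp x * Real.exp (-x) = 1 := by rw [← Real.exp_add]; simp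
  have h3 := Real.exp_pos (-x)
  nlinarith

/-- MODULE PLI.  Properties of a piecewise linear function with nonincreasing nonnegative node values `v i`, `i0 ≤ i ≤ 112`
(and `v 113 = v 112`): nonnegative and nonincreasing on `[i0/16, ∞)`; the tail integral `Q = plI v` satisfies
`Q(t') + (t'-t) q(t') ≤ Q(t) ≤ Q(t') + (t'-t) q(t)`; the values of `Q` at the nodes are the trapezoidal sums. -/
theorem pli (v : ℕ → ℝ) (i0 : ℕ) (hi0 : i0 ≤ 112) (hv : ∀ i, i0 ≤ i → i < 112 → v (i + 1) ≤ v i) (h0 : 0 ≤ v 112)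
    (h113 : v 113 = v 112) :
    (∀ t, (i0 : ℝ) / 16 ≤ t → 0 ≤ plf v t) ∧
    (∀ t t', (i0 : ℝ) / 16 ≤ t → t ≤ t' → plf v t' ≤ plf v t) ∧
    (∀ t, (i0 : ℝ) / 16 ≤ t → 0 ≤ plI v t) ∧
    (∀ t t', (i0 : ℝ) / 16 ≤ t → t ≤ t' →
      plI v t' + (t' - t) * plf v t' ≤ plI v t ∧ plI v t ≤ plI v t' + (t' - t) * plf v t) ∧
    (∀ i, i0 ≤ i → i ≤ 112 → plf v ((i : ℝ) / 16) = v i ∧
      plI v ((i : ℝ) / 16) = v 112 + ∑ j ∈ Ico i 112, (v j + v (j + 1)) / 32) := by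
  have hnn : ∀ t, (i0 : ℝ) / 16 ≤ t → 0 ≤ plf v t := by
    intro t ht
    by_cases h : t ≤ 7
    · exact h0.trans (PLI_ge v i0 hv t ht h)
    · rw [plf, if_neg h]
      exact mul_nonneg h0 (Real.exp_pos _).le
  refine ⟨hnn, PLI_anti v i0 hv h0, ?_, ?_, ?_⟩
  · intro t ht
    by_cases h : t ≤ 7
    · rw [plI, if_pos h]
      have h1 := (PLI_int v i0 hv h0 t 7 ht h).1
      rw [PLI_seven] at h1
      have : 0 ≤ (7 - t) * v 112 := mul_nonneg (by linarith) h0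
      linarith
    · rw [plI, if_neg h]
      exact mul_nonneg h0 (Real.exp_pos _).le
  · intro t t' h1 h2
    by_cases h3 : t' ≤ 7
    · have h4 : t ≤ 7 := h2.trans h3
      have e : plI v t = (∫ u in t..t', plf v u) + plI v t' := by
        rw [plI, if_pos h4, plI, if_pos h3, ← intervalIntegral.integral_add_adjacent_intervals
          (PLI_intg v i0 hv h0 t t' h1 (h1.trans h2))
          (PLI_intg v i0 hv h0 t' 7 (h1.trans h2) (by linarith))]
        ring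
      have h5 := PLI_int v i0 hv h0 t t' h1 h2
      rw [e]
      constructor <;> linarith [h5.1, h5.2]
    · have e1 : plI v t' = v 112 * Real.exp (7 - t') := by rw [plI, if_neg h3]
      have e2 : plf v t' = v 112 * Real.exp (7 - t') := by rw [plf, if_neg h3]
      push Not at h3
      by_cases h4 : t ≤ 7
      · have e3 : plI v t = (∫ u in t..7, plf v u) + v 112 := by rw [plI, if_pos h4]
        have h5 := PLI_int v i0 hv h0 t 7 h1 h4
        rw [PLI_seven] at h5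
        have h6 := PLI_ge v i0 hv t h1 h4
        have e4 : (7 : ℝ) - t' = -(t' - 7) := by ring
        rw [e1, e2, e3, e4]
        have h7 := PLI_exp1 (t' - 7)
        have h8 := PLI_exp2 (t' - 7)
        have h9 : Real.exp (-(t' - 7)) ≤ 1 := Real.exp_le_one_iff.2 (by linarith)
        have h10 := Real.exp_pos (-(t' - 7))
        set E := Real.exp (-(t' - 7)) with hE
        constructor
        · have a1 : (7 - t) * (v 112 * E) ≤ (7 - t) * v 112 :=
            mul_le_mul_of_nonneg_left (by nlinarith) (by linarith)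
          have a2 : v 112 * ((t' - 7) * E) ≤ v 112 * (1 - E) := mul_le_mul_of_nonneg_left h8 h0
          nlinarith [h5.1]
        · have a1 : v 112 * (1 - E) ≤ v 112 * (t' - 7) := mul_le_mul_of_nonneg_left h7 h0
          have a2 : (t' - 7) * v 112 ≤ (t' - 7) * plf v t :=
            mul_le_mul_of_nonneg_left h6 (by linarith)
          nlinarith [h5.2]
      · have e3 : plI v t = v 112 * Real.exp (7 - t) := by rw [plI, if_neg h4]
        have e5 : plf v t = v 112 * Real.exp (7 - t) := by rw [plf, if_neg h4]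
        have e4 : (7 : ℝ) - t' = (7 - t) + -(t' - t) := by ring
        rw [e1, e2, e3, e5, e4, Real.exp_add]
        have h7 := PLI_exp1 (t' - t)
        have h8 := PLI_exp2 (t' - t)
        have h10 := Real.exp_pos (7 - t)
        have h11 : 0 ≤ v 112 * Real.exp (7 - t) := mul_nonneg h0 h10.le
        set E := Real.exp (-(t' - t)) with hE
        set G := Real.exp (7 - t) with hG
        constructor
        · have a2 : v 112 * G * ((t' - t) * E) ≤ v 112 * G * (1 - E) :=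
            mul_le_mul_of_nonneg_left h8 h11
          nlinarith
        · have a1 : v 112 * G * (1 - E) ≤ v 112 * G * (t' - t) :=
            mul_le_mul_of_nonneg_left h7 h11
          nlinarith
  · intro i hi hi'
    refine ⟨PLI_node v i hi', ?_⟩
    -- induction downwards
    have key : ∀ k : ℕ, k ≤ 112 - i0 → plI v (((112 - k : ℕ) : ℝ) / 16) =
        v 112 + ∑ j ∈ Ico (112 - k) 112, (v j + v (j + 1)) / 32 := by
      intro k
      induction k with
      | zero =>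
        intro _
        have e : (((112 - 0 : ℕ) : ℕ) : ℝ) / 16 = 7 := by norm_num
        rw [e, plI, if_pos le_rfl, intervalIntegral.integral_same]
        simp
      | succ k ih =>
        intro hk
        have ih' := ih (by omega)
        set n := 112 - (k + 1) with hn
        have hn1 : 112 - k = n + 1 := by omega
        have hn2 : n < 112 := by omega
        have hn3 : i0 ≤ n := by omega
        rw [hn1] at ih'
        have hn4 : (n : ℝ) + 1 ≤ 112 := by exact_mod_cast hn2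
        have hn5 : (i0 : ℝ) ≤ n := by exact_mod_cast hn3
        rw [Finset.sum_eq_sum_Ico_succ_bot hn2]
        have e1 : plI v ((n : ℝ) / 16) =
            (∫ u in ((n : ℝ) / 16)..(((n + 1 : ℕ) : ℝ) / 16), plf v u) +
              plI v (((n + 1 : ℕ) : ℝ) / 16) := by
          have b1 : (n : ℝ) / 16 ≤ 7 := by linarith
          have b2 : ((n + 1 : ℕ) : ℝ) / 16 ≤ 7 := by push_cast; linarith
          rw [plI, if_pos b1, plI, if_pos b2, ← intervalIntegral.integral_add_adjacent_intervals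
            (PLI_intg v i0 hv h0 ((n : ℝ) / 16) (((n + 1 : ℕ) : ℝ) / 16) (by linarith)
              (by push_cast; linarith))
            (PLI_intg v i0 hv h0 (((n + 1 : ℕ) : ℝ) / 16) 7 (by push_cast; linarith)
              (by linarith))]
          ring
        have e2 : (∫ u in ((n : ℝ) / 16)..(((n + 1 : ℕ) : ℝ) / 16), plf v u) =
            (v n + v (n + 1)) / 32 := by
          have c1 : (∫ u in ((n : ℝ) / 16)..(((n + 1 : ℕ) : ℝ) / 16), plf v u) =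
              ∫ u in ((n : ℝ) / 16)..(((n + 1 : ℕ) : ℝ) / 16),
                ((v n - n * (v (n + 1) - v n)) + (16 * (v (n + 1) - v n)) * u) := by
            apply intervalIntegral.integral_congr
            intro u hu
            rw [Set.uIcc_of_le (by push_cast; linarith)] at hu
            change plf v u = _
            rw [PLI_cell v n hn2 u hu.1 (by have := hu.2; push_cast at this; linarith)]
            ring
          rw [c1, intervalIntegral.integral_add intervalIntegrable_const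
            ((by fun_prop : Continuous fun u : ℝ => (16 * (v (n + 1) - v n)) * u).intervalIntegrable _ _),
            intervalIntegral.integral_const, intervalIntegral.integral_const_mul, integral_id,
            smul_eq_mul]
          push_cast
          ring
        rw [e1, e2, ih']
        ring
    have h1 := key (112 - i) (by omega)
    have e : 112 - (112 - i) = i := by omega
    rw [e] at h1
    exact h1

/-- MODULE CVX.  A function `Q` with `Q(t') + (t'-t) q(t') ≤ Q(t) ≤ Q(t') + (t'-t) q(t)` lies below its chords. -/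
theorem cvx (q Q : ℝ → ℝ) (a b s : ℝ) (h1 : a ≤ s) (h2 : s ≤ b) (hab : a < b)
    (hQ : ∀ t t', a ≤ t → t ≤ t' → t' ≤ b → Q t' + (t' - t) * q t' ≤ Q t ∧ Q t ≤ Q t' + (t' - t) * q t) :
    (b - a) * Q s ≤ (b - s) * Q a + (s - a) * Q b := by
  have e1 := (hQ a s le_rfl h1 h2).1
  have e2 := (hQ s b h1 h2 le_rfl).2
  have a1 : (b - s) * (Q s + (s - a) * q s) ≤ (b - s) * Q a :=
    mul_le_mul_of_nonneg_left e1 (by linarith)
  have a2 : (s - a) * Q s ≤ (s - a) * (Q b + (b - s) * q s) :=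
    mul_le_mul_of_nonneg_left e2 (by linarith)
  nlinarith

private theorem LOGT_step (j : ℕ) (hj : 16 ≤ j) : Real.log (((j : ℝ) + 1) / j) ≤
    (2 : ℝ) / (2 * j + 1) + 1 / (6 * j * (j + 1) * (2 * j + 1)) := by
  have hj' : (16 : ℝ) ≤ j := by exact_mod_cast hj
  set u : ℝ := 1 / (2 * (j : ℝ) + 1) with hu
  have hd : (0 : ℝ) < 2 * (j : ℝ) + 1 := by linarith
  have hu0 : 0 < u := by rw [hu]; positivity
  have hu1 : u ≤ 1 / 33 := by
    rw [hu]
    apply one_div_le_one_div_of_le (by norm_num)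
    linarith
  have h := Real.log_div_le_sum_range_add hu0.le (by linarith) 3
  have e1 : (1 + u) / (1 - u) = ((j : ℝ) + 1) / j := by
    rw [hu]
    have : (1 : ℝ) - 1 / (2 * (j : ℝ) + 1) ≠ 0 := by
      rw [← hu]
      linarith
    field_simp
    ring
  rw [e1] at h
  simp only [Finset.sum_range_succ, Finset.sum_range_zero] at h
  push_cast at h
  norm_num at h
  have hu2 : 0 < 1 - u ^ 2 := by nlinarith
  have h2 : u ^ 5 / 5 + u ^ 7 / (1 - u ^ 2) ≤ u ^ 5 / (3 * (1 - u ^ 2)) := by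
    rw [div_add_div _ _ (by norm_num) hu2.ne', div_le_div_iff₀ (by positivity) (by positivity)]
    have a : 0 < u ^ 5 * (1 - u ^ 2) := by positivity
    have e : (u ^ 5 * (1 - u ^ 2) + 5 * u ^ 7) * (3 * (1 - u ^ 2)) =
        u ^ 5 * (1 - u ^ 2) * (3 * (1 + 4 * u ^ 2)) := by ring
    have e' : u ^ 5 * (5 * (1 - u ^ 2)) = u ^ 5 * (1 - u ^ 2) * 5 := by ring
    rw [e, e']
    apply mul_le_mul_of_nonneg_left _ a.le
    nlinarith
  have h3 : u ^ 3 / 3 + u ^ 5 / (3 * (1 - u ^ 2)) = (1 / 2) * (1 / (6 * j * (j + 1) * (2 * j + 1))) := by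
    have e2 : 1 - u ^ 2 = 4 * j * (j + 1) / (2 * (j : ℝ) + 1) ^ 2 := by
      rw [hu]
      field_simp
      ring
    have e3 : u ^ 3 / 3 + u ^ 5 / (3 * (1 - u ^ 2)) = u ^ 3 / (3 * (1 - u ^ 2)) := by
      field_simp
      ring
    rw [e3, e2, hu]
    have : (j : ℝ) ≠ 0 := by linarith
    field_simp
    ring
  have h4 : (2 : ℝ) / (2 * j + 1) = 2 * u := by rw [hu]; ring
  rw [h4]
  linarith

/-- MODULE LOGT.  Rational upper bounds for `log(48/k)`, `16 ≤ k ≤ 48` (e.g. `log(48/k) = ∑_{j=k}^{47} log((j+1)/j)` and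
`log(1 + 1/j) ≤ 2/(2j+1) + 1/(6 j (j+1)(2j+1))` (the atanh series: with `u = 1/(2j+1)`,
`log((1+u)/(1-u)) = 2(u + u^3/3 + ...) ≤ 2u + (2/3) u^3/(1-u^2)`). -/
theorem logt (k : ℕ) (h1 : 16 ≤ k) (h2 : k ≤ 48) :
    Real.log (48 / k) ≤ ∑ j ∈ Ico k 48, ((2 : ℝ) / (2 * j + 1) + 1 / (6 * j * (j + 1) * (2 * j + 1))) := by
  have key : ∀ n : ℕ, k ≤ n → Real.log ((n : ℝ) / k) ≤
      ∑ j ∈ Ico k n, ((2 : ℝ) / (2 * j + 1) + 1 / (6 * j * (j + 1) * (2 * j + 1))) := by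
    intro n hn
    induction n, hn using Nat.le_induction with
    | base =>
      have : (k : ℝ) ≠ 0 := by
        have : 0 < k := by omega
        positivity
      simp [div_self this]
    | succ n hn ih =>
      rw [Finset.sum_Ico_succ_top hn]
      have hk : (0 : ℝ) < k := by
        have : 0 < k := by omega
        exact_mod_cast this
      have hn' : (0 : ℝ) < n := by
        have : 0 < n := by omega
        exact_mod_cast this
      have e : ((n + 1 : ℕ) : ℝ) / k = ((n : ℝ) / k) * (((n : ℝ) + 1) / n) := by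
        push_cast
        field_simp
      rw [e, Real.log_mul (by positivity) (by positivity)]
      exact add_le_add ih (LOGT_step n (h1.trans hn))
  have := key 48 h2
  exact_mod_cast this


/-! ### SUPT -/

private def SUPT_vq (i : ℕ) : ℚ := (psiT.getD (i - 32) 250 : ℕ) / 10 ^ 7
private def SUPT_wq (i : ℕ) : ℚ := (phiT.getD (i - 48) 250 : ℕ) / 10 ^ 7
private def SUPT_psq (i : ℕ) : ℚ := SUPT_vq 112 + ∑ j ∈ Ico i 112, (SUPT_vq j + SUPT_vq (j + 1)) / 32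
private def SUPT_phw (i : ℕ) : ℚ := SUPT_wq 112 + ∑ j ∈ Ico i 112, (SUPT_wq j + SUPT_wq (j + 1)) / 32
private def SUPT_phq (i : ℕ) : ℚ :=
  if i < 48 then (AAn / 10 ^ 7) * (∑ j ∈ Ico i 48, ((2 : ℚ) / (2 * j + 1) + 1 / (6 * j * (j + 1) * (2 * j + 1)))) -
    (3 - i / 16) + SUPT_phw 48 else SUPT_phw i
private def SUPT_fq (i : ℕ) : ℚ := if i < 48 then (AAn / 10 ^ 7) * (16 / i) - 1 else SUPT_wq i

set_option maxRecDepth 100000 in
private theorem SUPT_nc1 : ∀ i ∈ Icc 48 112, (1 + 1 / 10 ^ 6) * SUPT_psq (i - 16) + 8 / 10 ^ 6 * SUPT_vq (i - 17) ≤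
    (i : ℚ) / 16 * SUPT_wq i := by decide +kernel

set_option maxRecDepth 100000 in
private theorem SUPT_nc2 : ∀ i ∈ Icc 32 112, (1 + 1 / 10 ^ 6) * SUPT_phq (i - 16) + 8 / 10 ^ 6 * SUPT_fq (i - 17) ≤
    (i : ℚ) / 16 * SUPT_vq i := by decide +kernel

set_option maxRecDepth 100000 in
private theorem SUPT_t1 : (1 + 1 / 10 ^ 6) * SUPT_psq 96 + 8 / 10 ^ 6 * SUPT_vq 96 ≤ 735 / 10 ^ 7 := by decide +kernel

set_option maxRecDepth 100000 in
private theorem SUPT_t2 : (1 + 1 / 10 ^ 6) * SUPT_phq 96 + 8 / 10 ^ 6 * SUPT_fq 96 ≤ 735 / 10 ^ 7 := by decide +kernel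

set_option maxRecDepth 100000 in
private theorem SUPT_av : ∀ i ∈ Ico 32 112, psiT.getD (i + 1 - 32) 250 ≤ psiT.getD (i - 32) 250 := by decide +kernel
set_option maxRecDepth 100000 in
private theorem SUPT_aw : ∀ i ∈ Ico 48 112, phiT.getD (i + 1 - 48) 250 ≤ phiT.getD (i - 48) 250 := by decide +kernel
set_option maxRecDepth 100000 in
private theorem SUPT_dv : ∀ i ∈ Icc 33 100, psiT.getD (i - 32) 0 = psiT.getD (i - 32) 250 ∧
    psiT.getD (i - 32) 0 ≤ 10 ^ 7 := by decide +kernel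
set_option maxRecDepth 100000 in
private theorem SUPT_dw : ∀ i ∈ Icc 49 100, phiT.getD (i - 48) 0 = phiT.getD (i - 48) 250 := by decide +kernel

private theorem SUPT_cell (v : ℕ → ℝ) (q Q : ℝ → ℝ) (ε q0 : ℝ) (hε : 0 < ε) (i : ℕ) (hi : 16 ≤ i) (hi2 : i < 112)
    (s : ℝ) (h1 : (i : ℝ) / 16 ≤ s) (h2 : s ≤ ((i : ℝ) + 1) / 16) (hv : v (i + 1) ≤ v i)
    (hQ : ∀ t t', (i : ℝ) / 16 - 1 ≤ t → t ≤ t' → t' ≤ ((i : ℝ) + 1) / 16 - 1 →
      Q t' + (t' - t) * q t' ≤ Q t ∧ Q t ≤ Q t' + (t' - t) * q t)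
    (hq : q (s - 1) ≤ q0) (hq0 : 0 ≤ q0)
    (hN1 : (1 + ε) * Q ((i : ℝ) / 16 - 1) + 8 * ε * q0 ≤ (i : ℝ) / 16 * v i)
    (hN2 : (1 + ε) * Q (((i : ℝ) + 1) / 16 - 1) + 8 * ε * q0 ≤ ((i : ℝ) + 1) / 16 * v (i + 1)) :
    (1 + ε) * (Q (s - 1) / s) + ε * q (s - 1) ≤ plf v s := by
  have hi' : (16 : ℝ) ≤ i := by exact_mod_cast hi
  have hi2' : (i : ℝ) + 1 ≤ 112 := by exact_mod_cast hi2
  have hs0 : 0 < s := by linarith
  have hs8 : s ≤ 8 := by linarith
  have hc := cvx q Q ((i : ℝ) / 16 - 1) (((i : ℝ) + 1) / 16 - 1) (s - 1) (by linarith) (by linarith) (by linarith) hQ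
  have hcell := PLI_cell v i hi2 s h1 h2
  set θ : ℝ := 16 * s - i with hθ
  have hθ0 : 0 ≤ θ := by linarith
  have hθ1 : θ ≤ 1 := by linarith
  have hc' : Q (s - 1) ≤ (1 - θ) * Q ((i : ℝ) / 16 - 1) + θ * Q (((i : ℝ) + 1) / 16 - 1) := by
    have e1 : (((i : ℝ) + 1) / 16 - 1 - ((i : ℝ) / 16 - 1)) = 1 / 16 := by ring
    have e2 : (((i : ℝ) + 1) / 16 - 1 - (s - 1)) = (1 - θ) / 16 := by rw [hθ]; ring
    have e3 : (s - 1 - ((i : ℝ) / 16 - 1)) = θ / 16 := by rw [hθ]; ring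
    rw [e1, e2, e3] at hc
    linarith
  have hconc : (1 - θ) * ((i : ℝ) / 16 * v i) + θ * (((i : ℝ) + 1) / 16 * v (i + 1)) ≤ s * plf v s := by
    rw [hcell]
    have e : s = ((i : ℝ) + θ) / 16 := by rw [hθ]; ring
    have e2 : s * (v i + θ * (v (i + 1) - v i)) - ((1 - θ) * ((i : ℝ) / 16 * v i) + θ * (((i : ℝ) + 1) / 16 * v (i + 1)))
        = θ * (1 - θ) * (v i - v (i + 1)) / 16 := by
      rw [e]; ring
    have e3 : 0 ≤ θ * (1 - θ) * (v i - v (i + 1)) / 16 := by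
      have a1 : 0 ≤ 1 - θ := by linarith
      have a2 : 0 ≤ v i - v (i + 1) := by linarith
      positivity
    linarith
  have hmain : (1 + ε) * Q (s - 1) + ε * s * q (s - 1) ≤ s * plf v s := by
    refine le_trans ?_ hconc
    have a1 : (1 + ε) * Q (s - 1) ≤ (1 + ε) * ((1 - θ) * Q ((i : ℝ) / 16 - 1) + θ * Q (((i : ℝ) + 1) / 16 - 1)) :=
      mul_le_mul_of_nonneg_left hc' (by linarith)
    have a2 : ε * s * q (s - 1) ≤ 8 * ε * q0 := by
      have b1 : ε * s * q (s - 1) ≤ ε * s * q0 := mul_le_mul_of_nonneg_left hq (by positivity)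
      have b2 : ε * s * q0 ≤ ε * 8 * q0 := by
        apply mul_le_mul_of_nonneg_right _ hq0
        exact mul_le_mul_of_nonneg_left hs8 hε.le
      linarith
    have a3 := mul_le_mul_of_nonneg_left hN1 (show (0 : ℝ) ≤ 1 - θ by linarith)
    have a4 := mul_le_mul_of_nonneg_left hN2 hθ0
    have a5 : (1 - θ) * ((1 + ε) * Q ((i : ℝ) / 16 - 1) + 8 * ε * q0) +
        θ * ((1 + ε) * Q (((i : ℝ) + 1) / 16 - 1) + 8 * ε * q0) =
        (1 + ε) * ((1 - θ) * Q ((i : ℝ) / 16 - 1) + θ * Q (((i : ℝ) + 1) / 16 - 1)) + 8 * ε * q0 := by ring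
    linarith
  have e : (1 + ε) * (Q (s - 1) / s) + ε * q (s - 1) = ((1 + ε) * Q (s - 1) + ε * s * q (s - 1)) / s := by
    field_simp
  rw [e, div_le_iff₀ hs0, mul_comm (plf v s)]
  exact hmain

/-- beyond 7 -/
private theorem SUPT_tail (v : ℕ → ℝ) (q Q : ℝ → ℝ) (c : ℝ) (hc : 0 ≤ c) (hv : v 112 = c)
    (hv7 : plf v 7 = c) (hq7 : ∀ t, 7 ≤ t → q t = c * Real.exp (7 - t)) (hQ7 : ∀ t, 7 ≤ t → Q t = c * Real.exp (7 - t))
    (hqa : ∀ t, 6 ≤ t → t ≤ 7 → q t ≤ q 6) (hQa : ∀ t, 6 ≤ t → t ≤ 7 → Q t ≤ Q 6) (hq0 : 0 ≤ q 6)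
    (hnum : (1 + 1 / 10 ^ 6) * Q 6 + 8 / 10 ^ 6 * q 6 ≤ 294 / 100 * c)
    (s : ℝ) (hs : 7 ≤ s) :
    (1 + 1 / 10 ^ 6) * (Q (s - 1) / s) + 1 / 10 ^ 6 * q (s - 1) ≤ plf v s := by
  have hp : plf v s = c * Real.exp (7 - s) := by
    rcases hs.lt_or_eq with h | h
    · rw [plf, if_neg (by linarith), hv]
    · rw [← h, hv7]; simp
  have hs0 : 0 < s := by linarith
  have hmain : (1 + 1 / 10 ^ 6) * Q (s - 1) + 1 / 10 ^ 6 * s * q (s - 1) ≤ s * (c * Real.exp (7 - s)) := by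
    rcases le_total s 8 with h8 | h8
    · have a1 := hQa (s - 1) (by linarith) (by linarith)
      have a2 := hqa (s - 1) (by linarith) (by linarith)
      have a3 : 1 / 10 ^ 6 * s * q (s - 1) ≤ 8 / 10 ^ 6 * q 6 := by
        have b1 : 1 / 10 ^ 6 * s * q (s - 1) ≤ 1 / 10 ^ 6 * s * q 6 := mul_le_mul_of_nonneg_left a2 (by positivity)
        have b2 : 1 / 10 ^ 6 * s * q 6 ≤ 8 / 10 ^ 6 * q 6 := mul_le_mul_of_nonneg_right (by linarith) hq0
        linarith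
      have a4 : (1 + 1 / 10 ^ 6) * Q (s - 1) ≤ (1 + 1 / 10 ^ 6) * Q 6 := mul_le_mul_of_nonneg_left a1 (by norm_num)
      have a5 : 294 / 100 * c ≤ s * (c * Real.exp (7 - s)) := by
        have b1 : 8 ≤ s * Real.exp (8 - s) := by
          have := Real.add_one_le_exp (8 - s)
          have c1 : s * (8 - s + 1) ≤ s * Real.exp (8 - s) := mul_le_mul_of_nonneg_left this hs0.le
          nlinarith
        have b2 : Real.exp (8 - s) = Real.exp 1 * Real.exp (7 - s) := by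
          rw [← Real.exp_add]; ring_nf
        have b3 := Real.exp_one_lt_d9
        have b4 : 0 < Real.exp (7 - s) := Real.exp_pos _
        have b5 : 294 / 100 ≤ s * Real.exp (7 - s) := by
          rw [b2] at b1
          by_contra h
          push Not at h
          have : s * (Real.exp 1 * Real.exp (7 - s)) = Real.exp 1 * (s * Real.exp (7 - s)) := by ring
          rw [this] at b1
          have c1 : 0 < s * Real.exp (7 - s) := by positivity
          nlinarith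
        have b6 := mul_le_mul_of_nonneg_left b5 hc
        linarith
      linarith
    · rw [hQ7 (s - 1) (by linarith), hq7 (s - 1) (by linarith)]
      have b2 : Real.exp (7 - (s - 1)) = Real.exp 1 * Real.exp (7 - s) := by
        rw [← Real.exp_add]; ring_nf
      rw [b2]
      have b3 := Real.exp_one_lt_d9
      have b4 : 0 < Real.exp (7 - s) := Real.exp_pos _
      have b5 : (1 + 1 / 10 ^ 6) * Real.exp 1 + 1 / 10 ^ 6 * s * Real.exp 1 ≤ s := by nlinarith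
      have b6 := mul_le_mul_of_nonneg_left b5 (mul_nonneg hc b4.le)
      linarith
  have e : (1 + 1 / 10 ^ 6) * (Q (s - 1) / s) + 1 / 10 ^ 6 * q (s - 1) =
      ((1 + 1 / 10 ^ 6) * Q (s - 1) + 1 / 10 ^ 6 * s * q (s - 1)) / s := by
    field_simp
  rw [e, div_le_iff₀ hs0, hp, mul_comm (c * Real.exp (7 - s))]
  exact hmain

private noncomputable def SUPT_v (i : ℕ) : ℝ := (SUPT_vq i : ℝ)
private noncomputable def SUPT_w (i : ℕ) : ℝ := (SUPT_wq i : ℝ)

private theorem SUPT_v_eq (i : ℕ) : SUPT_v i = ((psiT.getD (i - 32) 250 : ℕ) : ℝ) / 10 ^ 7 := by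
  rw [SUPT_v, SUPT_vq]; push_cast; rfl

private theorem SUPT_w_eq (i : ℕ) : SUPT_w i = ((phiT.getD (i - 48) 250 : ℕ) : ℝ) / 10 ^ 7 := by
  rw [SUPT_w, SUPT_wq]; push_cast; rfl

private theorem SUPT_v_anti (i : ℕ) (h1 : 32 ≤ i) (h2 : i < 112) : SUPT_v (i + 1) ≤ SUPT_v i := by
  rw [SUPT_v_eq, SUPT_v_eq]
  have := SUPT_av i (by rw [mem_Ico]; exact ⟨h1, h2⟩)
  have h : ((psiT.getD (i + 1 - 32) 250 : ℕ) : ℝ) ≤ ((psiT.getD (i - 32) 250 : ℕ) : ℝ) := by exact_mod_cast this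
  exact div_le_div_of_nonneg_right h (by positivity)

private theorem SUPT_w_anti (i : ℕ) (h1 : 48 ≤ i) (h2 : i < 112) : SUPT_w (i + 1) ≤ SUPT_w i := by
  rw [SUPT_w_eq, SUPT_w_eq]
  have := SUPT_aw i (by rw [mem_Ico]; exact ⟨h1, h2⟩)
  have h : ((phiT.getD (i + 1 - 48) 250 : ℕ) : ℝ) ≤ ((phiT.getD (i - 48) 250 : ℕ) : ℝ) := by exact_mod_cast this
  exact div_le_div_of_nonneg_right h (by positivity)

private theorem SUPT_v112 : SUPT_v 112 = 25 / 10 ^ 6 := by rw [SUPT_v_eq]; norm_num [psiT]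
private theorem SUPT_v113 : SUPT_v 113 = SUPT_v 112 := by rw [SUPT_v_eq, SUPT_v_eq]; norm_num [psiT]
private theorem SUPT_w112 : SUPT_w 112 = 25 / 10 ^ 6 := by rw [SUPT_w_eq]; norm_num [phiT]
private theorem SUPT_w113 : SUPT_w 113 = SUPT_w 112 := by rw [SUPT_w_eq, SUPT_w_eq]; norm_num [phiT]
private theorem SUPT_w48 : SUPT_w 48 = 1881161 / 10 ^ 7 := by rw [SUPT_w_eq]; norm_num [phiT]
private theorem SUPT_v0 (i : ℕ) : 0 ≤ SUPT_v i := by rw [SUPT_v_eq]; positivity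
private theorem SUPT_w0 (i : ℕ) : 0 ≤ SUPT_w i := by rw [SUPT_w_eq]; positivity

private theorem SUPT_pv :
    (∀ t, ((32 : ℕ) : ℝ) / 16 ≤ t → 0 ≤ plf SUPT_v t) ∧
    (∀ t t', ((32 : ℕ) : ℝ) / 16 ≤ t → t ≤ t' → plf SUPT_v t' ≤ plf SUPT_v t) ∧
    (∀ t, ((32 : ℕ) : ℝ) / 16 ≤ t → 0 ≤ plI SUPT_v t) ∧
    (∀ t t', ((32 : ℕ) : ℝ) / 16 ≤ t → t ≤ t' →
      plI SUPT_v t' + (t' - t) * plf SUPT_v t' ≤ plI SUPT_v t ∧ plI SUPT_v t ≤ plI SUPT_v t' + (t' - t) * plf SUPT_v t) ∧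
    (∀ i : ℕ, 32 ≤ i → i ≤ 112 → plf SUPT_v ((i : ℝ) / 16) = SUPT_v i ∧
      plI SUPT_v ((i : ℝ) / 16) = SUPT_v 112 + ∑ j ∈ Ico i 112, (SUPT_v j + SUPT_v (j + 1)) / 32) :=
  pli SUPT_v 32 (by norm_num) SUPT_v_anti (SUPT_v0 _) SUPT_v113
private theorem SUPT_pw :
    (∀ t, ((48 : ℕ) : ℝ) / 16 ≤ t → 0 ≤ plf SUPT_w t) ∧
    (∀ t t', ((48 : ℕ) : ℝ) / 16 ≤ t → t ≤ t' → plf SUPT_w t' ≤ plf SUPT_w t) ∧
    (∀ t, ((48 : ℕ) : ℝ) / 16 ≤ t → 0 ≤ plI SUPT_w t) ∧
    (∀ t t', ((48 : ℕ) : ℝ) / 16 ≤ t → t ≤ t' →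
      plI SUPT_w t' + (t' - t) * plf SUPT_w t' ≤ plI SUPT_w t ∧ plI SUPT_w t ≤ plI SUPT_w t' + (t' - t) * plf SUPT_w t) ∧
    (∀ i : ℕ, 48 ≤ i → i ≤ 112 → plf SUPT_w ((i : ℝ) / 16) = SUPT_w i ∧
      plI SUPT_w ((i : ℝ) / 16) = SUPT_w 112 + ∑ j ∈ Ico i 112, (SUPT_w j + SUPT_w (j + 1)) / 32) :=
  pli SUPT_w 48 (by norm_num) SUPT_w_anti (SUPT_w0 _) SUPT_w113

private noncomputable def SUPT_φ (t : ℝ) : ℝ := if t < 3 then AA / t - 1 else plf SUPT_w t
private noncomputable def SUPT_Φ (t : ℝ) : ℝ :=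
  if t < 3 then AA * Real.log (3 / t) - (3 - t) + plI SUPT_w 3 else plI SUPT_w t

private theorem SUPT_AA : AA = 35647947 / 10 ^ 7 := by rw [AA, AAn]; norm_num

private theorem SUPT_plf3 : plf SUPT_w 3 = 1881161 / 10 ^ 7 := by
  have := (SUPT_pw.2.2.2.2 48 le_rfl (by norm_num)).1
  rw [SUPT_w48] at this
  have e : ((48 : ℕ) : ℝ) / 16 = 3 := by norm_num
  rwa [e] at this

/-- two sided bounds for `Φ` -/
private theorem SUPT_Φ2 (t t' : ℝ) (h1 : 1 ≤ t) (h2 : t ≤ t') :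
    SUPT_Φ t' + (t' - t) * SUPT_φ t' ≤ SUPT_Φ t ∧ SUPT_Φ t ≤ SUPT_Φ t' + (t' - t) * SUPT_φ t := by
  have hA := SUPT_AA
  -- the case t < 3
  have key : ∀ a b : ℝ, 1 ≤ a → a ≤ b → b ≤ 3 →
      AA * Real.log (3 / b) - (3 - b) + (b - a) * (AA / b - 1) ≤ AA * Real.log (3 / a) - (3 - a) ∧
      AA * Real.log (3 / a) - (3 - a) ≤ AA * Real.log (3 / b) - (3 - b) + (b - a) * (AA / a - 1) := by
    intro a b ha hab hb
    have ha0 : 0 < a := by linarith
    have hb0 : 0 < b := by linarith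
    have hA0 : 0 < AA := by rw [hA]; norm_num
    have e1 : Real.log (3 / a) = Real.log (3 / b) + Real.log (b / a) := by
      rw [← Real.log_mul (by positivity) (by positivity)]
      congr 1
      field_simp
    have l1 : Real.log (b / a) ≤ b / a - 1 := Real.log_le_sub_one_of_pos (by positivity)
    have l2 : 1 - a / b ≤ Real.log (b / a) := by
      have := Real.one_sub_inv_le_log_of_pos (show 0 < b / a by positivity)
      rwa [inv_div] at this
    rw [e1]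
    constructor
    · have : AA * (1 - a / b) ≤ AA * Real.log (b / a) := mul_le_mul_of_nonneg_left l2 hA0.le
      have e : (b - a) * (AA / b - 1) = AA * (1 - a / b) - (b - a) := by field_simp
      rw [e]; linarith
    · have : AA * Real.log (b / a) ≤ AA * (b / a - 1) := mul_le_mul_of_nonneg_left l1 hA0.le
      have e : (b - a) * (AA / a - 1) = AA * (b / a - 1) - (b - a) := by field_simp
      rw [e]; linarith
  have hw := SUPT_pw
  have h3 : ((48 : ℕ) : ℝ) / 16 = 3 := by norm_num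
  rw [h3] at hw
  rcases lt_or_ge t 3 with ht | ht
  · rcases lt_or_ge t' 3 with ht' | ht'
    · rw [SUPT_Φ, SUPT_Φ, SUPT_φ, SUPT_φ, if_pos ht, if_pos ht', if_pos ht, if_pos ht']
      obtain ⟨k1, k2⟩ := key t t' h1 h2 ht'.le
      constructor <;> linarith
    · rw [SUPT_Φ, SUPT_Φ, SUPT_φ, SUPT_φ, if_pos ht, if_neg (not_lt.2 ht'), if_pos ht, if_neg (not_lt.2 ht')]
      obtain ⟨k1, k2⟩ := key t 3 h1 ht.le le_rfl
      obtain ⟨m1, m2⟩ := hw.2.2.2.1 3 t' le_rfl ht'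
      have a1 := hw.2.1 3 t' le_rfl ht'
      rw [SUPT_plf3] at a1 m2
      have e0 : Real.log (3 / 3) = 0 := by norm_num
      rw [e0] at k1 k2
      rw [hA] at k1 k2 ⊢
      constructor
      · have : (3 - t) * plf SUPT_w t' ≤ (3 - t) * (35647947 / 10 ^ 7 / 3 - 1) :=
          mul_le_mul_of_nonneg_left (a1.trans (by norm_num)) (by linarith)
        linarith
      · have b1 : (35647947 / 10 ^ 7 / 3 : ℝ) ≤ 35647947 / 10 ^ 7 / t :=
          div_le_div_of_nonneg_left (by norm_num) (by linarith) ht.le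
        have : (t' - 3) * (1881161 / 10 ^ 7) ≤ (t' - 3) * (35647947 / 10 ^ 7 / t - 1) := by
          apply mul_le_mul_of_nonneg_left _ (by linarith)
          refine le_trans ?_ (sub_le_sub_right b1 1)
          norm_num
        linarith
  · have ht' : 3 ≤ t' := ht.trans h2
    rw [SUPT_Φ, SUPT_Φ, SUPT_φ, SUPT_φ, if_neg (not_lt.2 ht), if_neg (not_lt.2 ht'), if_neg (not_lt.2 ht),
      if_neg (not_lt.2 ht')]
    exact hw.2.2.2.1 t t' ht h2

private theorem SUPT_φa (t t' : ℝ) (h1 : 1 ≤ t) (h2 : t ≤ t') : SUPT_φ t' ≤ SUPT_φ t := by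
  have hA := SUPT_AA
  have hw := SUPT_pw
  have h3 : ((48 : ℕ) : ℝ) / 16 = 3 := by norm_num
  rw [h3] at hw
  rcases lt_or_ge t 3 with ht | ht
  · rcases lt_or_ge t' 3 with ht' | ht'
    · rw [SUPT_φ, SUPT_φ, if_pos ht, if_pos ht']
      have : AA / t' ≤ AA / t := div_le_div_of_nonneg_left (by rw [hA]; norm_num) (by linarith) h2
      linarith
    · rw [SUPT_φ, SUPT_φ, if_neg (not_lt.2 ht'), if_pos ht]
      have a1 := hw.2.1 3 t' le_rfl ht'
      rw [SUPT_plf3] at a1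
      have b1 : (35647947 / 10 ^ 7 / 3 : ℝ) ≤ 35647947 / 10 ^ 7 / t :=
        div_le_div_of_nonneg_left (by norm_num) (by linarith) ht.le
      rw [hA]
      refine a1.trans (le_trans ?_ (sub_le_sub_right b1 1))
      norm_num
  · have ht' : 3 ≤ t' := ht.trans h2
    rw [SUPT_φ, SUPT_φ, if_neg (not_lt.2 ht), if_neg (not_lt.2 ht')]
    exact hw.2.1 t t' ht h2

private theorem SUPT_φ0 (t : ℝ) (h1 : 1 ≤ t) : 0 ≤ SUPT_φ t := by
  have hw := SUPT_pw
  have h3 : ((48 : ℕ) : ℝ) / 16 = 3 := by norm_num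
  rw [h3] at hw
  have a := SUPT_φa t (max t 3) h1 (le_max_left _ _)
  refine le_trans ?_ a
  rw [SUPT_φ, if_neg (not_lt.2 (le_max_right _ _))]
  exact hw.1 _ (le_max_right _ _)

private theorem SUPT_Φ0 (t : ℝ) (h1 : 1 ≤ t) : 0 ≤ SUPT_Φ t := by
  have hw := SUPT_pw
  have h3 : ((48 : ℕ) : ℝ) / 16 = 3 := by norm_num
  rw [h3] at hw
  have a := (SUPT_Φ2 t (max t 3) h1 (le_max_left _ _)).1
  have b : 0 ≤ SUPT_Φ (max t 3) := by
    rw [SUPT_Φ, if_neg (not_lt.2 (le_max_right _ _))]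
    exact hw.2.2.1 _ (le_max_right _ _)
  have c := SUPT_φ0 (max t 3) (h1.trans (le_max_left _ _))
  have d : 0 ≤ max t 3 - t := by have := le_max_left t 3; linarith
  have e := mul_nonneg d c
  linarith

private theorem SUPT_Ψn (i : ℕ) (h1 : 32 ≤ i) (h2 : i ≤ 112) : plI SUPT_v ((i : ℝ) / 16) = (SUPT_psq i : ℝ) := by
  rw [(SUPT_pv.2.2.2.2 i h1 h2).2, SUPT_psq]
  push_cast
  rfl

private theorem SUPT_Φnw (i : ℕ) (h1 : 48 ≤ i) (h2 : i ≤ 112) : plI SUPT_w ((i : ℝ) / 16) = (SUPT_phw i : ℝ) := by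
  rw [(SUPT_pw.2.2.2.2 i h1 h2).2, SUPT_phw]
  push_cast
  rfl

private theorem SUPT_Φn (i : ℕ) (h1 : 16 ≤ i) (h2 : i ≤ 112) : SUPT_Φ ((i : ℝ) / 16) ≤ (SUPT_phq i : ℝ) := by
  rcases lt_or_ge i 48 with h | h
  · have hi : (i : ℝ) < 48 := by exact_mod_cast h
    have hi0 : (16 : ℝ) ≤ i := by exact_mod_cast h1
    rw [SUPT_Φ, if_pos (by linarith), SUPT_phq, if_pos h]
    have e : (3 : ℝ) / ((i : ℝ) / 16) = 48 / i := by field_simp; norm_num
    have e3 : (3 : ℝ) = ((48 : ℕ) : ℝ) / 16 := by norm_num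
    have l := logt i h1 h.le
    have l2 := mul_le_mul_of_nonneg_left l (show (0 : ℝ) ≤ AA by rw [SUPT_AA]; norm_num)
    have e4 : plI SUPT_w 3 = (SUPT_phw 48 : ℝ) := by
      rw [e3]; exact SUPT_Φnw 48 le_rfl (by norm_num)
    rw [e, e4]
    rw [AA] at l2 ⊢
    push_cast
    linarith
  · have hi : (48 : ℝ) ≤ i := by exact_mod_cast h
    rw [SUPT_Φ, if_neg (by linarith), SUPT_phq, if_neg (by omega), SUPT_Φnw i h h2]

private theorem SUPT_φn (i : ℕ) (h1 : 16 ≤ i) (h2 : i ≤ 112) : SUPT_φ ((i : ℝ) / 16) = (SUPT_fq i : ℝ) := by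
  rcases lt_or_ge i 48 with h | h
  · have hi : (i : ℝ) < 48 := by exact_mod_cast h
    have hi0 : (16 : ℝ) ≤ i := by exact_mod_cast h1
    rw [SUPT_φ, if_pos (by linarith), SUPT_fq, if_pos h, AA]
    push_cast
    field_simp
  · have hi : (48 : ℝ) ≤ i := by exact_mod_cast h
    rw [SUPT_φ, if_neg (by linarith), SUPT_fq, if_neg (by omega), (SUPT_pw.2.2.2.2 i h h2).1]
    rfl

private theorem SUPT_I1 (s : ℝ) (hs : 3 ≤ s) :
    (1 + 1 / 10 ^ 6) * (plI SUPT_v (s - 1) / s) + 1 / 10 ^ 6 * plf SUPT_v (s - 1) ≤ plf SUPT_w s := by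
  have hv := SUPT_pv
  rcases lt_or_ge s 7 with h7 | h7
  · obtain ⟨i, hi0, hi, hi1, hi2⟩ := PLI_exists 48 s (by norm_num; exact hs) h7
    have hir : (48 : ℝ) ≤ i := by exact_mod_cast hi0
    have e0 : ((i - 16 : ℕ) : ℝ) = (i : ℝ) - 16 := by rw [Nat.cast_sub (by omega)]; norm_num
    have e1 : (i : ℝ) / 16 - 1 = ((i - 16 : ℕ) : ℝ) / 16 := by rw [e0]; ring
    have e2 : ((i : ℝ) + 1) / 16 - 1 = ((i + 1 - 16 : ℕ) : ℝ) / 16 := by
      rw [Nat.cast_sub (by omega)]; push_cast; ring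
    have n1 := SUPT_nc1 i (by rw [mem_Icc]; omega)
    have n2 := SUPT_nc1 (i + 1) (by rw [mem_Icc]; omega)
    have n1' : (1 + 1 / 10 ^ 6) * (SUPT_psq (i - 16) : ℝ) + 8 / 10 ^ 6 * (SUPT_vq (i - 17) : ℝ) ≤
      (i : ℝ) / 16 * (SUPT_wq i : ℝ) := by
      have := (Rat.cast_le (K := ℝ)).2 n1
      push_cast at this
      exact this
    have n2' : (1 + 1 / 10 ^ 6) * (SUPT_psq (i + 1 - 16) : ℝ) + 8 / 10 ^ 6 * (SUPT_vq (i + 1 - 17) : ℝ) ≤
      ((i : ℝ) + 1) / 16 * (SUPT_wq (i + 1) : ℝ) := by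
      have := (Rat.cast_le (K := ℝ)).2 n2
      push_cast at this
      exact this
    have hvi : SUPT_v (i - 16) ≤ (SUPT_vq (i - 17) : ℝ) := by
      rcases hi0.eq_or_lt with h | h
      · subst h
        exact le_rfl
      · have := SUPT_v_anti (i - 17) (by omega) (by omega)
        have e : i - 17 + 1 = i - 16 := by omega
        rwa [e] at this
    have e3 : i + 1 - 17 = i - 16 := by omega
    rw [e3] at n2'
    have hq0 : 0 ≤ SUPT_v (i - 16) := SUPT_v0 _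
    refine SUPT_cell SUPT_w (plf SUPT_v) (plI SUPT_v) (1 / 10 ^ 6) (SUPT_v (i - 16)) (by norm_num) i (by omega) hi s
      hi1 hi2.le (SUPT_w_anti i hi0 hi) ?_ ?_ hq0 ?_ ?_
    · intro t t' h1 h2 h3
      refine hv.2.2.2.1 t t' ?_ h2
      norm_num
      linarith
    · have e := (hv.2.2.2.2 (i - 16) (by omega) (by omega)).1
      rw [← e]
      refine hv.2.1 _ _ ?_ ?_
      · rw [← e1]
        norm_num
        linarith
      · rw [← e1]
        linarith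
    · rw [e1, SUPT_Ψn _ (by omega) (by omega)]
      refine le_trans ?_ n1'
      have : 8 * (1 / 10 ^ 6) * SUPT_v (i - 16) ≤ 8 / 10 ^ 6 * (SUPT_vq (i - 17) : ℝ) := by
        have := mul_le_mul_of_nonneg_left hvi (show (0 : ℝ) ≤ 8 / 10 ^ 6 by norm_num)
        linarith
      linarith
    · rw [e2, SUPT_Ψn _ (by omega) (by omega)]
      refine le_trans (le_of_eq ?_) n2'
      rw [SUPT_v]
      ring
  · have e6 : ((96 : ℕ) : ℝ) / 16 = 6 := by norm_num
    have e7 : ((112 : ℕ) : ℝ) / 16 = 7 := by norm_num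
    have q6 : plf SUPT_v 6 = SUPT_v 96 := by rw [← e6]; exact (hv.2.2.2.2 96 (by norm_num) (by norm_num)).1
    have Q6 : plI SUPT_v 6 = (SUPT_psq 96 : ℝ) := by rw [← e6]; exact SUPT_Ψn 96 (by norm_num) (by norm_num)
    have q7 : plf SUPT_v 7 = 25 / 10 ^ 6 := by rw [PLI_seven, SUPT_v112]
    have Q7 : plI SUPT_v 7 = 25 / 10 ^ 6 := by
      have := (hv.2.2.2.2 112 (by norm_num) le_rfl).2
      rw [e7, SUPT_v112] at this
      rw [this]; simp
    have t1 : (1 + 1 / 10 ^ 6) * (SUPT_psq 96 : ℝ) + 8 / 10 ^ 6 * (SUPT_vq 96 : ℝ) ≤ 735 / 10 ^ 7 := by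
      have := (Rat.cast_le (K := ℝ)).2 SUPT_t1
      push_cast at this
      exact this
    refine SUPT_tail SUPT_w (plf SUPT_v) (plI SUPT_v) (25 / 10 ^ 6) (by norm_num) SUPT_w112
      (by rw [PLI_seven, SUPT_w112]) ?_ ?_ ?_ ?_ ?_ ?_ s h7
    · intro t ht
      rcases ht.lt_or_eq with h | h
      · rw [plf, if_neg (not_le.2 h), SUPT_v112]
      · rw [← h, q7]; simp
    · intro t ht
      rcases ht.lt_or_eq with h | h
      · rw [plI, if_neg (not_le.2 h), SUPT_v112]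
      · rw [← h, Q7]; simp
    · intro t h1 h2
      exact hv.2.1 6 t (by norm_num) h1
    · intro t h1 h2
      have := (hv.2.2.2.1 6 t (by norm_num) h1).1
      have a := hv.1 t (by norm_num; linarith)
      have b := mul_nonneg (show 0 ≤ t - 6 by linarith) a
      linarith
    · exact hv.1 6 (by norm_num)
    · rw [q6, Q6]
      refine le_trans t1 ?_
      norm_num

private theorem SUPT_fq_anti (i : ℕ) (h1 : 15 ≤ i) (h2 : i < 112) : (SUPT_fq (i + 1) : ℝ) ≤ (SUPT_fq i : ℝ) := by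
  rcases h1.eq_or_lt with h | h
  · subst h
    rw [SUPT_fq, SUPT_fq, if_pos (by norm_num), if_pos (by norm_num), AAn]
    norm_num
  · have e := SUPT_φn i (by omega) h2.le
    have e' := SUPT_φn (i + 1) (by omega) (by omega)
    rw [← e, ← e']
    have hi0 : (16 : ℝ) ≤ i := by exact_mod_cast h
    apply SUPT_φa
    · linarith
    · push_cast
      linarith

private theorem SUPT_I2 (s : ℝ) (hs : 2 ≤ s) :
    (1 + 1 / 10 ^ 6) * (SUPT_Φ (s - 1) / s) + 1 / 10 ^ 6 * SUPT_φ (s - 1) ≤ plf SUPT_v s := by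
  rcases lt_or_ge s 7 with h7 | h7
  · obtain ⟨i, hi0, hi, hi1, hi2⟩ := PLI_exists 32 s (by norm_num; exact hs) h7
    have hir : (32 : ℝ) ≤ i := by exact_mod_cast hi0
    have e0 : ((i - 16 : ℕ) : ℝ) = (i : ℝ) - 16 := by rw [Nat.cast_sub (by omega)]; norm_num
    have e1 : (i : ℝ) / 16 - 1 = ((i - 16 : ℕ) : ℝ) / 16 := by rw [e0]; ring
    have e2 : ((i : ℝ) + 1) / 16 - 1 = ((i + 1 - 16 : ℕ) : ℝ) / 16 := by
      rw [Nat.cast_sub (by omega)]; push_cast; ring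
    have n1 := SUPT_nc2 i (by rw [mem_Icc]; omega)
    have n2 := SUPT_nc2 (i + 1) (by rw [mem_Icc]; omega)
    have n1' : (1 + 1 / 10 ^ 6) * (SUPT_phq (i - 16) : ℝ) + 8 / 10 ^ 6 * (SUPT_fq (i - 17) : ℝ) ≤
      (i : ℝ) / 16 * (SUPT_vq i : ℝ) := by
      have := (Rat.cast_le (K := ℝ)).2 n1
      push_cast at this
      exact this
    have n2' : (1 + 1 / 10 ^ 6) * (SUPT_phq (i + 1 - 16) : ℝ) + 8 / 10 ^ 6 * (SUPT_fq (i + 1 - 17) : ℝ) ≤
      ((i : ℝ) + 1) / 16 * (SUPT_vq (i + 1) : ℝ) := by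
      have := (Rat.cast_le (K := ℝ)).2 n2
      push_cast at this
      exact this
    have hvi : (SUPT_fq (i - 16) : ℝ) ≤ (SUPT_fq (i - 17) : ℝ) := by
      have := SUPT_fq_anti (i - 17) (by omega) (by omega)
      have e : i - 17 + 1 = i - 16 := by omega
      rwa [e] at this
    have e3 : i + 1 - 17 = i - 16 := by omega
    rw [e3] at n2'
    have en := SUPT_φn (i - 16) (by omega) (by omega)
    have hge : (1 : ℝ) ≤ ((i - 16 : ℕ) : ℝ) / 16 := by rw [e0]; linarith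
    have hq0 : 0 ≤ (SUPT_fq (i - 16) : ℝ) := by
      rw [← en]
      exact SUPT_φ0 _ hge
    refine SUPT_cell SUPT_v SUPT_φ SUPT_Φ (1 / 10 ^ 6) (SUPT_fq (i - 16)) (by norm_num) i (by omega) hi s
      hi1 hi2.le (SUPT_v_anti i hi0 hi) ?_ ?_ hq0 ?_ ?_
    · intro t t' h1 h2 h3
      exact SUPT_Φ2 t t' (by linarith) h2
    · rw [← en]
      exact SUPT_φa _ _ hge (by rw [← e1]; linarith)
    · rw [e1]
      have a := SUPT_Φn (i - 16) (by omega) (by omega)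
      refine le_trans ?_ n1'
      have b := mul_le_mul_of_nonneg_left hvi (show (0 : ℝ) ≤ 8 / 10 ^ 6 by norm_num)
      have c := mul_le_mul_of_nonneg_left a (show (0 : ℝ) ≤ 1 + 1 / 10 ^ 6 by norm_num)
      linarith
    · rw [e2]
      have a := SUPT_Φn (i + 1 - 16) (by omega) (by omega)
      refine le_trans ?_ n2'
      have c := mul_le_mul_of_nonneg_left a (show (0 : ℝ) ≤ 1 + 1 / 10 ^ 6 by norm_num)
      linarith
  · have e6 : ((96 : ℕ) : ℝ) / 16 = 6 := by norm_num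
    have e7 : ((112 : ℕ) : ℝ) / 16 = 7 := by norm_num
    have q6 : SUPT_φ 6 = (SUPT_fq 96 : ℝ) := by rw [← e6]; exact SUPT_φn 96 (by norm_num) (by norm_num)
    have Q6 : SUPT_Φ 6 ≤ (SUPT_phq 96 : ℝ) := by rw [← e6]; exact SUPT_Φn 96 (by norm_num) (by norm_num)
    have q7 : plf SUPT_w 7 = 25 / 10 ^ 6 := by rw [PLI_seven, SUPT_w112]
    have Q7 : plI SUPT_w 7 = 25 / 10 ^ 6 := by
      have := (SUPT_pw.2.2.2.2 112 (by norm_num) le_rfl).2
      rw [e7, SUPT_w112] at this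
      rw [this]; simp
    have t1 : (1 + 1 / 10 ^ 6) * (SUPT_phq 96 : ℝ) + 8 / 10 ^ 6 * (SUPT_fq 96 : ℝ) ≤ 735 / 10 ^ 7 := by
      have := (Rat.cast_le (K := ℝ)).2 SUPT_t2
      push_cast at this
      exact this
    refine SUPT_tail SUPT_v SUPT_φ SUPT_Φ (25 / 10 ^ 6) (by norm_num) SUPT_v112
      (by rw [PLI_seven, SUPT_v112]) ?_ ?_ ?_ ?_ ?_ ?_ s h7
    · intro t ht
      rw [SUPT_φ, if_neg (by linarith)]
      rcases ht.lt_or_eq with h | h
      · rw [plf, if_neg (not_le.2 h), SUPT_w112]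
      · rw [← h, q7]; simp
    · intro t ht
      rw [SUPT_Φ, if_neg (by linarith)]
      rcases ht.lt_or_eq with h | h
      · rw [plI, if_neg (not_le.2 h), SUPT_w112]
      · rw [← h, Q7]; simp
    · intro t h1 h2
      exact SUPT_φa 6 t (by norm_num) h1
    · intro t h1 h2
      have := (SUPT_Φ2 6 t (by norm_num) h1).1
      have a := SUPT_φ0 t (by linarith)
      have b := mul_nonneg (show 0 ≤ t - 6 by linarith) a
      linarith
    · exact SUPT_φ0 6 (by norm_num)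
    · rw [q6]
      have c := mul_le_mul_of_nonneg_left Q6 (show (0 : ℝ) ≤ 1 + 1 / 10 ^ 6 by norm_num)
      refine le_trans (add_le_add_left c _) (le_trans t1 ?_)
      norm_num

/-- left continuity at a node -/
private theorem SUPT_left (v : ℕ → ℝ) (i : ℕ) (h1 : 1 ≤ i) (h2 : i ≤ 112) (hv : v i ≤ v (i - 1)) (hv2 : v (i - 1) - v i ≤ 2)
    (δ : ℝ) (hδ : 0 < δ) : ∃ η : ℝ, 0 < η ∧ η ≤ 1 / 16 ∧ ∀ s : ℝ, (i : ℝ) / 16 - η < s → s ≤ (i : ℝ) / 16 →
      plf v s ≤ v i + δ := by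
  refine ⟨min (1 / 16) (δ / 32), lt_min (by norm_num) (by positivity), min_le_left _ _, ?_⟩
  intro s hs1 hs2
  have m1 := min_le_left (1 / 16 : ℝ) (δ / 32)
  have m2 := min_le_right (1 / 16 : ℝ) (δ / 32)
  have e0 : ((i - 1 : ℕ) : ℝ) = (i : ℝ) - 1 := by rw [Nat.cast_sub h1]; norm_num
  have := PLI_cell v (i - 1) (by omega) s (by rw [e0]; linarith) (by rw [e0]; linarith)
  rw [this, e0, Nat.sub_add_cancel h1]
  have a : 0 ≤ (i : ℝ) - 16 * s := by linarith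
  have b : (i : ℝ) - 16 * s ≤ δ / 2 := by linarith
  have c : (16 * s - ((i : ℝ) - 1)) * (v i - v (i - 1)) = (v i - v (i - 1)) + ((i : ℝ) - 16 * s) * (v (i - 1) - v i) := by
    ring
  rw [c]
  have d : ((i : ℝ) - 16 * s) * (v (i - 1) - v i) ≤ δ / 2 * 2 := by
    apply mul_le_mul b hv2 (by linarith) (by positivity)
  linarith

/-- MODULE SUPT.  The tables define a strict supersolution.
CONSTRUCTION: `ε = 10^(-7)` (any tiny number).  `v i = psiT[i-32]/10^7` (`v 113 := v 112`), `w i = phiT[i-48]/10^7`.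
`ψ = plf v` on `[2, ∞)`; `φ(t) = AA/t - 1` for `t < 3`, `φ = plf w` on `[3, ∞)`.  `Ψ = plI v` on `[2, ∞)`; `Φ = plI w` on
`[3, ∞)` and `Φ(t) = AA log(3/t) - (3 - t) + plI w 3` for `1 ≤ t < 3`.
CHECKS.  Node values: `Ψ_i = v 112 + ∑_{j ≥ i} (v_j + v_(j+1))/32`, same for `Φ_i`, `i ≥ 48`; for `16 ≤ i < 48`
`Φ_i = AA log(48/i) - (3 - i/16) + Φ_48` with `logt`.  `φ` is nonincreasing (`AA/3 - 1 ≥ w 48`), `Φ' = -φ`.
(I1) and (I2) on a cell `[i/16, (i+1)/16]`, `s ≤ 7`: `s ψ(s)` is concave there (linear times linear with slope `≤ 0`), so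
it is at least the chord of the node values `(i/16) v_i`; `Φ(s-1)` is convex (`cvx`), so it is at most the chord; the
small term `ε s φ(s-1)` is at most `8 ε φ((i-16)/16)`.  So it suffices that for all nodes `i`
`(i/16) v_i ≥ (1+ε) Φ_(i-16) + 8 ε φ((i-16)/16)`, and also `≥ (1+ε) Φ_(i-16) + 8 ε φ((i-17)/16)` (right end of the cell);
similarly `(i/16) w_i ≥ (1+ε) Ψ_(i-16) + 8 ε v_(i-17)`, `i ≥ 49`, resp. `v_(i-16)`, `i ≥ 48`.
NUMERICALLY (exact arithmetic, checked by helper64): with `ε = 10^(-6)` all node inequalities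
`(i/16) w_i ≥ (1+ε) Ψ_(i-16) + ε (i/16) v_(i-16)` (`48 ≤ i ≤ 112`), `(i/16) v_i ≥ (1+ε) Φ_(i-16) + ε (i/16) φ_(i-16)`
(`32 ≤ i ≤ 112`) hold with relative slack `≥ 1.19 · 10^(-4)`; `AA ≥ 3 (1 + w 48)(1 + ε)` (I3: `1 + φ(s) = AA/s`).
For `7 ≤ s ≤ 8`: `s c e^(7-s) ≥ 8 c/e` (`c = 2.5·10^(-5)`) and `8c/e = 7.355·10^(-5) ≥ (1+ε) Ψ(6) + 8 ε ψ(6)`, where
`Ψ(6), Φ(6) ≤ 6.9·10^(-5)`.  For `s ≥ 8`: `s c e^(7-s) ≥ (1+ε) c e^(8-s) + ε s c e^(8-s)` as `s (1 - ε e) ≥ (1+ε) e`.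
The claims on the values: for `49 ≤ i`: `Ftn i/10^7 = 1 + w_i` and `φ` is continuous at `i/16`; `ftn i/10^7 = 1 - v_i`
for `i ≥ 33` (note `v_33 < 1`). -/
theorem supT : ∃ S : Sup, 3 * (1 + S.φ 3) ≤ AA ∧
    (∀ i : ℕ, 49 ≤ i → i ≤ 100 → ∀ δ : ℝ, 0 < δ → ∃ η : ℝ, 0 < η ∧ ∀ s : ℝ, (i : ℝ) / 16 - η < s → s ≤ (i : ℝ) / 16 →
      1 + S.φ s ≤ (Ftn i : ℝ) / 10 ^ 7 + δ) ∧
    (∀ i : ℕ, 33 ≤ i → i ≤ 100 → ∀ δ : ℝ, 0 < δ → ∃ η : ℝ, 0 < η ∧ ∀ s : ℝ, (i : ℝ) / 16 - η < s → s ≤ (i : ℝ) / 16 →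
      (ftn i : ℝ) / 10 ^ 7 - δ ≤ 1 - S.ψ s) := by
  have hv := SUPT_pv
  have h32 : ((32 : ℕ) : ℝ) / 16 = 2 := by norm_num
  rw [h32] at hv
  have hφ3 : SUPT_φ 3 = 1881161 / 10 ^ 7 := by
    rw [SUPT_φ, if_neg (lt_irrefl _), SUPT_plf3]
  have hv32 : SUPT_v 32 ≤ 2 := by rw [SUPT_v_eq]; norm_num [psiT]
  have hw48 : SUPT_w 48 ≤ 2 := by rw [SUPT_w48]; norm_num
  refine ⟨{
    ε := 1 / 10 ^ 6, φ := SUPT_φ, Φ := SUPT_Φ, ψ := plf SUPT_v, Ψ := plI SUPT_v, hε := (by norm_num),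
    hε1 := (by norm_num), φ0 := SUPT_φ0, ψ0 := hv.1, Φ0 := SUPT_Φ0, Ψ0 := hv.2.2.1, φa := SUPT_φa, ψa := hv.2.1,
    hΦ := fun t t' h1 h2 => (SUPT_Φ2 t t' h1 h2).1, hΨ := fun t t' h1 h2 => (hv.2.2.2.1 t t' h1 h2).1,
    I1 := ?_, I2 := SUPT_I2, I3 := ?_ }, ?_, ?_, ?_⟩
  · intro s hs
    have : SUPT_φ s = plf SUPT_w s := by rw [SUPT_φ, if_neg (not_lt.2 hs)]
    rw [this]
    exact SUPT_I1 s hs
  · intro s h1 h2
    have : SUPT_φ s = AA / s - 1 := by rw [SUPT_φ, if_pos h2]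
    rw [this, hφ3, SUPT_AA]
    have hs0 : 0 < s := by linarith
    have e : (1 + 1 / 10 ^ 6) * (3 / s) * (1 + 1881161 / 10 ^ 7) = ((1 + 1 / 10 ^ 6) * 3 * (1 + 1881161 / 10 ^ 7)) / s := by
      ring
    rw [e]
    have : (1 + 1 / 10 ^ 6) * 3 * (1 + 1881161 / 10 ^ 7) / s ≤ 35647947 / 10 ^ 7 / s :=
      div_le_div_of_nonneg_right (by norm_num) hs0.le
    linarith
  · show 3 * (1 + SUPT_φ 3) ≤ AA
    rw [hφ3, SUPT_AA]
    norm_num
  · intro i h1 h2 δ hδ
    have han := SUPT_w_anti (i - 1) (by omega) (by omega)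
    rw [Nat.sub_add_cancel (by omega : 1 ≤ i)] at han
    have hle : SUPT_w (i - 1) ≤ 2 :=
      (PLI_anti_v SUPT_w 48 SUPT_w_anti 48 (i - 1) le_rfl (by omega) (by omega)).trans hw48
    obtain ⟨η, hη, hη2, H⟩ := SUPT_left SUPT_w i (by omega) (by omega) han (by have := SUPT_w0 i; linarith) δ hδ
    have hir : (49 : ℝ) ≤ i := by exact_mod_cast h1
    refine ⟨η, hη, fun s hs1 hs2 => ?_⟩
    have H' := H s hs1 hs2
    have e : SUPT_φ s = plf SUPT_w s := by rw [SUPT_φ, if_neg (by linarith)]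
    show 1 + SUPT_φ s ≤ _
    rw [e]
    have e2 : (Ftn i : ℝ) / 10 ^ 7 = 1 + SUPT_w i := by
      rw [Ftn, if_neg (by omega), SUPT_dw i (by rw [mem_Icc]; omega), SUPT_w_eq]
      push_cast
      ring
    rw [e2]
    linarith
  · intro i h1 h2 δ hδ
    have han := SUPT_v_anti (i - 1) (by omega) (by omega)
    rw [Nat.sub_add_cancel (by omega : 1 ≤ i)] at han
    have hle : SUPT_v (i - 1) ≤ 2 :=
      (PLI_anti_v SUPT_v 32 SUPT_v_anti 32 (i - 1) le_rfl (by omega) (by omega)).trans hv32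
    obtain ⟨η, hη, hη2, H⟩ := SUPT_left SUPT_v i (by omega) (by omega) han (by have := SUPT_v0 i; linarith) δ hδ
    refine ⟨η, hη, fun s hs1 hs2 => ?_⟩
    have H' := H s hs1 hs2
    show _ ≤ 1 - plf SUPT_v s
    have hd := SUPT_dv i (by rw [mem_Icc]; omega)
    have e2 : (ftn i : ℝ) / 10 ^ 7 = 1 - SUPT_v i := by
      rw [ftn, if_neg (by omega), Nat.cast_sub hd.2, hd.1, SUPT_v_eq]
      push_cast
      ring
    rw [e2]
    linarith

end Pool.Agent.CC
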