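import Pool.Agent.CC.UL
import Pool.Agent.BV.Final
import Pool.Agent.BGG.SWq
import Pool.Agent.SWz.Main

/-! CC, module SWCL. -/

set_option autoImplicit false

namespace Pool.Agent.CC

open Finset

private theorem swcl_class (Y1 Y2 : ℕ) (h12 : Y1 ≤ Y2) (r s b : ℕ) :
    (∑ n ∈ Icc 1 Y2, if n ≡ b [MOD r] ∧ n.Coprime s then
      (if Y1 < n ∧ n ≤ Y2 then ((vm n : ℝ) : ℂ) else 0) else 0) =
    (((BGG.Sc Y2 BGG.vmr r s (b : ℤ) - BGG.Sc Y1 BGG.vmr r s (b : ℤ) : ℝ)) : ℂ) := by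
  rw [← BGG.Sc_rs BGG.vmr Y1 Y2 Y2 h12 le_rfl]
  unfold BGG.Sc BGG.rs
  push_cast
  refine Finset.sum_congr rfl fun n _ => ?_
  have h1 : ((r : ℤ) ∣ (n : ℤ) - (b : ℤ)) ↔ n ≡ b [MOD r] := by
    rw [← Int.natCast_modEq_iff]
    constructor
    · intro h
      exact (Int.modEq_iff_dvd.2 h).symm
    · intro h
      exact Int.modEq_iff_dvd.1 h.symm
  simp only [h1, vm, BGG.vmr]
  split_ifs <;> simp

private theorem swcl_cop (Y1 Y2 : ℕ) (h12 : Y1 ≤ Y2) (r s : ℕ) (hr : 1 ≤ r) :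
    (∑ n ∈ Icc 1 Y2, if n.Coprime (r * s) then
      (if Y1 < n ∧ n ≤ Y2 then ((vm n : ℝ) : ℂ) else 0) else 0) =
    (((BGG.Sg Y2 BGG.vmr r s - BGG.Sg Y1 BGG.vmr r s : ℝ)) : ℂ) := by
  rw [BGG.Sg_eq_sum _ _ _ _ hr, BGG.Sg_eq_sum _ _ _ _ hr, ← Finset.sum_sub_distrib]
  have h1 : ∀ b ∈ (range r).filter (fun b => Nat.Coprime r b),
      BGG.Sc Y2 BGG.vmr r s (b : ℤ) - BGG.Sc Y1 BGG.vmr r s (b : ℤ) =
        BGG.Sc Y2 (BGG.rs Y1 Y2 BGG.vmr) r s (b : ℤ) := fun b _ =>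
    (BGG.Sc_rs BGG.vmr Y1 Y2 Y2 h12 le_rfl r s (b : ℤ)).symm
  rw [Finset.sum_congr rfl h1, ← BGG.Sg_eq_sum _ _ _ _ hr]
  unfold BGG.Sg BGG.rs
  push_cast
  refine Finset.sum_congr rfl fun n _ => ?_
  simp only [vm, BGG.vmr]
  split_ifs <;> simp

open scoped Classical in
/-- MODULE SWCL.  Siegel - Walfisz in class form for `Λ` on `(Y1, Y2]`, uniformly for `N` between `x^(1/16)` and `x^2`
(`L = log x`).
Proof: `BGG.PD_lam SWz.swlam` (file BGG/SWq.lean; `vmr` = `Λ` there): with `x' := N` in place of `x` (`N^(1/10) ≤ 4N`,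
`N ≤ 4 N`, `log N ≥ L/16`): differences of the prefix sums over two reduced classes are `≤ K_j τ(s) N/(log N)^j`; hence
(average over all reduced classes, `BGG.Sc_sub_avg`, `Sg_eq_sum`) the class sums over `(Y1, Y2]` differ from
`(∑_{(n, rs) = 1} β)/φ(r)` by at most `2 K_j 16^j τ(s) N/L^j`. -/
theorem swcl : ∃ K : ℕ → ℝ, (∀ j, 0 ≤ K j) ∧ ∀ (L N : ℝ) (Y1 Y2 : ℕ), 3 ≤ L → Real.exp (L / 16) ≤ N →
    N ≤ Real.exp (2 * L) → Y1 ≤ Y2 → (Y2 : ℝ) ≤ 4 * N →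
    Pool.Agent.BV.SWc K L N (fun n => if Y1 < n ∧ n ≤ Y2 then ((vm n : ℝ) : ℂ) else 0) Y2 := by
  obtain ⟨K, hK0, hK⟩ := BGG.PD_lam SWz.swlam
  refine ⟨fun j => 2 * K j * 16 ^ j, fun j => by have := hK0 j; positivity, ?_⟩
  intro L N Y1 Y2 hL hN hN2 h12 hY2 j r s b hr hs hb
  have hN1 : 1 ≤ N := le_trans (Real.one_le_exp (by linarith)) hN
  have hN0 : 0 < N := by linarith
  -- the point
  have hx2 : (2 : ℝ) ≤ max N 2 := le_max_right _ _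
  have hx3 : (max N 2) ^ (1 / 10 : ℝ) ≤ 4 * N := by
    have h1 : (max N 2) ^ (1 / 10 : ℝ) ≤ (max N 2) ^ (1 : ℝ) :=
      Real.rpow_le_rpow_of_exponent_le (by linarith) (by norm_num)
    rw [Real.rpow_one] at h1
    refine h1.trans (max_le (by linarith) (by linarith))
  have hx4 : N ≤ 4 * max N 2 := by
    have : N ≤ max N 2 := le_max_left _ _
    linarith
  have hlog : L / 16 ≤ Real.log (max N 2) := by
    have h1 : Real.log N ≤ Real.log (max N 2) := Real.log_le_log hN0 (le_max_left _ _)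
    have h2 : L / 16 ≤ Real.log N := by
      rw [Real.le_log_iff_exp_le hN0]
      exact hN
    linarith
  have hL0 : 0 < L := by linarith
  have hY1 : (Y1 : ℝ) ≤ 4 * N := by
    have : (Y1 : ℝ) ≤ Y2 := by exact_mod_cast h12
    linarith
  have hbnd : ∀ Y : ℕ, (Y : ℝ) ≤ 4 * N →
      |BGG.Sc Y BGG.vmr r s (b : ℤ) - BGG.Sg Y BGG.vmr r s / (r.totient : ℝ)| ≤
        K j * (s.divisors.card : ℝ) * N / (L / 16) ^ j := by
    intro Y hY
    have h1 : |BGG.Sc Y BGG.vmr r s (b : ℤ) - BGG.Sg Y BGG.vmr r s / (r.totient : ℝ)| ≤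
        K j * (s.divisors.card : ℝ) * N / (Real.log (max N 2)) ^ j := by
      refine BGG.Sc_sub_avg Y BGG.vmr r s (b : ℤ) _ hr fun b' hb' => ?_
      exact hK j (max N 2) N hx2 hx3 hx4 Y hY r s (b : ℤ) (b' : ℤ) hr hs
        (Nat.isCoprime_iff_coprime.2 hb) (Nat.isCoprime_iff_coprime.2 hb'.symm)
    refine h1.trans ?_
    have := hK0 j
    apply div_le_div_of_nonneg_left (by positivity) (by positivity)
    gcongr
  have e1 := swcl_class Y1 Y2 h12 r s b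
  have e2 := swcl_cop Y1 Y2 h12 r s hr
  have e3 : ‖(∑ n ∈ Icc 1 Y2, if n ≡ b [MOD r] ∧ n.Coprime s then
      (if Y1 < n ∧ n ≤ Y2 then ((vm n : ℝ) : ℂ) else 0) else 0) -
      (∑ n ∈ Icc 1 Y2, if n.Coprime (r * s) then
      (if Y1 < n ∧ n ≤ Y2 then ((vm n : ℝ) : ℂ) else 0) else 0) / (r.totient : ℂ)‖ =
      |(BGG.Sc Y2 BGG.vmr r s (b : ℤ) - BGG.Sg Y2 BGG.vmr r s / (r.totient : ℝ)) -
        (BGG.Sc Y1 BGG.vmr r s (b : ℤ) - BGG.Sg Y1 BGG.vmr r s / (r.totient : ℝ))| := by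
    rw [← Real.norm_eq_abs, ← Complex.norm_real]
    congr 1
    rw [show (∑ n ∈ Icc 1 Y2, if n ≡ b [MOD r] ∧ n.Coprime s then
      (if Y1 < n ∧ n ≤ Y2 then ((vm n : ℝ) : ℂ) else 0) else 0) = _ from e1,
      show (∑ n ∈ Icc 1 Y2, if n.Coprime (r * s) then
      (if Y1 < n ∧ n ≤ Y2 then ((vm n : ℝ) : ℂ) else 0) else 0) = _ from e2]
    push_cast
    ring
  have e4 : (2 * K j * 16 ^ j) * BV.tau s * N / L ^ j =
      2 * (K j * (s.divisors.card : ℝ) * N / (L / 16) ^ j) := by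
    unfold BV.tau
    rw [div_pow]
    field_simp
  show _ ≤ (2 * K j * 16 ^ j) * BV.tau s * N / L ^ j
  rw [e4]
  refine le_trans (le_of_eq ?_) ((abs_sub _ _).trans (le_trans (add_le_add (hbnd Y2 hY2) (hbnd Y1 hY1)) (le_of_eq (by ring))))
  convert e3 using 2
end Pool.Agent.CC
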