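import Pool.Agent.CC.TauG
import Pool.Agent.CC.N1

/-! CC, part H: the weighted number of survivors of the mixed sieve (pieces). -/
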