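import Pool.Agent.CC.UL
import Pool.Agent.CC.Mass

/-! CC, part H: the weighted number of survivors of the mixed sieve. -/

set_option autoImplicit false

namespace Pool.Agent.CC

open Finset

private theorem pw_aux {C : Finset ℕ} (hC : C.Nonempty) (F : Finset ℕ) (hF : F ⊆ C) :
    ∑ p2 ∈ F, (1 - ((C.filter fun p3 => p3 < p2).card : ℝ)) ≤
      if C.min' hC ∈ F then (1 : ℝ) else 0 := by
  classical
  rw [← Finset.sum_ite_eq' F (C.min' hC) (fun _ => (1 : ℝ))]
  refine Finset.sum_le_sum fun p2 hp2 => ?_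
  split_ifs with h
  · have : (0 : ℝ) ≤ ((C.filter fun p3 => p3 < p2).card : ℝ) := Nat.cast_nonneg _
    linarith
  · have h1 : C.min' hC ∈ C.filter fun p3 => p3 < p2 :=
      Finset.mem_filter.2 ⟨Finset.min'_mem _ _, lt_of_le_of_ne (Finset.min'_le _ _ (hF hp2))
        (Ne.symm h)⟩
    have h2 : 1 ≤ (C.filter fun p3 => p3 < p2).card := Finset.card_pos.2 ⟨_, h1⟩
    have h3 : (1 : ℝ) ≤ ((C.filter fun p3 => p3 < p2).card : ℝ) := by exact_mod_cast h2
    linarith

/-- MODULE PW1.  For a finite set `C` of integers and any relation `T` (only used for `p2 < p1`):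
`[C = ∅] ≥ 1 - #C + ∑_{p1 ∈ C} ∑_{p2 ∈ C, p2 < p1, T p1 p2} (1 - #{p3 ∈ C : p3 < p2})`.
Proof: if `C = ∅` both sides are 1.  Otherwise a term of the double sum is `≤ 0` unless `p2 = min C`, where it is 1; these
are at most `#C - 1` terms (`p1 ≠ min C`), so the right side is `≤ 1 - #C + (#C - 1) = 0`. -/
theorem pw1 (C : Finset ℕ) (T : ℕ → ℕ → Prop) [∀ a b, Decidable (T a b)] :
    1 - (C.card : ℝ) + ∑ p1 ∈ C, ∑ p2 ∈ C.filter (fun p2 => p2 < p1 ∧ T p1 p2),
        (1 - ((C.filter fun p3 => p3 < p2).card : ℝ)) ≤ (if C = ∅ then (1 : ℝ) else 0) := by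
  rcases C.eq_empty_or_nonempty with rfl | hC
  · simp
  · rw [if_neg hC.ne_empty]
    have h1 : ∀ p1 ∈ C, ∑ p2 ∈ C.filter (fun p2 => p2 < p1 ∧ T p1 p2),
        (1 - ((C.filter fun p3 => p3 < p2).card : ℝ)) ≤ 1 - (if p1 = C.min' hC then 1 else 0) := by
      intro p1 _
      refine (pw_aux hC _ (Finset.filter_subset _ _)).trans ?_
      by_cases h : p1 = C.min' hC
      · rw [if_pos h, if_neg]
        · norm_num
        · intro h2
          rw [Finset.mem_filter, ← h] at h2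
          exact absurd h2.2.1 (lt_irrefl _)
      · rw [if_neg h]
        split_ifs <;> norm_num
    have h2 := Finset.sum_le_sum h1
    rw [Finset.sum_sub_distrib, Finset.sum_ite_eq', if_pos (Finset.min'_mem _ _), Finset.sum_const,
      nsmul_eq_mul, mul_one] at h2
    linarith

/-- MODULE PW2.  `[C = ∅] ≤ 1 - ∑_{p1 ∈ C, T p1} (1 - #{p2 ∈ C : p2 < p1})`.
Proof: for `C ≠ ∅` only `p1 = min C` gives a positive term, which is 1. -/
theorem pw2 (C : Finset ℕ) (T : ℕ → Prop) [∀ a, Decidable (T a)] :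
    (if C = ∅ then (1 : ℝ) else 0) ≤
      1 - ∑ p1 ∈ C.filter T, (1 - ((C.filter fun p2 => p2 < p1).card : ℝ)) := by
  rcases C.eq_empty_or_nonempty with rfl | hC
  · simp
  · rw [if_neg hC.ne_empty]
    have h1 := pw_aux hC (C.filter T) (Finset.filter_subset _ _)
    have h2 : (if C.min' hC ∈ C.filter T then (1 : ℝ) else 0) ≤ 1 := by
      split_ifs <;> norm_num
    linarith

/-- the sum of `Sf` over the single primes of the cell `a` (width `1/200`) of class `c` -/
noncomputable def S1 (S : Dat) (x : ℕ) (c : ZMod 3) (a : ℕ) : ℝ :=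
  ∑ p ∈ S.cell x 200 c a (a + 1), Sf (S.I x) vm S.nv S.m ((x : ℝ) ^ ((16 : ℝ) / 200)) p

/-- the sum over the products `p p1`, `p` in the cell `a` of class `c`, `p1` in the cell `b` of class 2 -/
noncomputable def S2 (S : Dat) (x : ℕ) (c : ZMod 3) (a b : ℕ) : ℝ :=
  ∑ p ∈ S.cell x 200 c a (a + 1), ∑ p1 ∈ S.cell x 200 2 b (b + 1),
    Sf (S.I x) vm S.nv S.m ((x : ℝ) ^ ((16 : ℝ) / 200)) (p * p1)

/-- the sum over the products `p p1 p2`, `p` in the cell `a` of class `c`, `p1`, `p2` in the cells `b`, `l` of class 2,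
`p2 < p1` -/
noncomputable def S3 (S : Dat) (x : ℕ) (c : ZMod 3) (a b l : ℕ) : ℝ :=
  ∑ p ∈ S.cell x 200 c a (a + 1), ∑ p1 ∈ S.cell x 200 2 b (b + 1),
    ∑ p2 ∈ (S.cell x 200 2 l (l + 1)).filter (fun p2 => p2 < p1),
      Sf (S.I x) vm S.nv S.m ((x : ℝ) ^ ((16 : ℝ) / 200)) (p * p1 * p2)

/-- the pair of cells is used -/
def usd (a b : ℕ) : Bool := okp a b && decide (0 < br a b)

end Pool.Agent.CC
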