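import Pool.Agent.CC.TauD

/-! CC, part H3: the sums over one and two cells. -/

set_option autoImplicit false

namespace Pool.Agent.CC

open Finset

private theorem ts_cell {S : Dat} {x : ℕ} {c : ZMod 3} {a b p : ℕ} (h : p ∈ S.cell x 200 c a b) :
    p.Prime ∧ ¬ p ∣ S.m ∧ S.c p = c ∧ (x : ℝ) ^ ((a : ℝ) / 200) ≤ (p : ℝ) ∧
      (p : ℝ) < (x : ℝ) ^ ((b : ℝ) / 200) := by
  classical
  rw [Dat.cell, Finset.mem_filter] at h
  obtain ⟨_, h1, h2, h3, h4, h5⟩ := h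
  push_cast at h4 h5
  exact ⟨h1, h2, h3, h4, h5⟩

private theorem ts_low {x : ℕ} (hx : 1 ≤ x) {a : ℕ} (ha : 16 ≤ a) :
    (x : ℝ) ^ ((16 : ℝ) / 200) ≤ (x : ℝ) ^ ((a : ℝ) / 200) := by
  refine Real.rpow_le_rpow_of_exponent_le (by exact_mod_cast hx) ?_
  have : (16 : ℝ) ≤ a := by exact_mod_cast ha
  linarith

private theorem ts_tot {p : ℕ} (hp : p.Prime) : ((p.totient : ℕ) : ℝ) = (p : ℝ) - 1 := by
  rw [Nat.totient_prime hp, Nat.cast_sub hp.one_le, Nat.cast_one]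

/-- eventually `U ≥ 0` -/
private theorem ts_U (S : Dat) : ∃ x0 : ℕ, ∀ x : ℕ, x0 ≤ x → 1 ≤ x ∧ 0 ≤ S.U x := by
  obtain ⟨c, C, hc, hC, x0, h⟩ := ulow S
  refine ⟨max x0 1, fun x hx => ?_⟩
  have h1 : 1 ≤ x := le_trans (le_max_right _ _) hx
  refine ⟨h1, le_trans ?_ (h x (le_trans (le_max_left _ _) hx)).1⟩
  have h2 : (1 : ℝ) ≤ x := by exact_mod_cast h1
  have h3 : 0 ≤ Real.log x := Real.log_nonneg h2
  positivity

/-- MODULE TAU_S0.  `Sf(1) ≥ U (ftn 100/10^7 - ε)`: `loc` with `i = 100`, `E = {1}`. -/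
theorem tau_s0 (S : Dat) (ε : ℝ) (hε : 0 < ε) : ∃ x0 : ℕ, ∀ x : ℕ, x0 ≤ x →
    S.U x * ((ftn 100 : ℝ) / 10 ^ 7 - ε) ≤ Sf (S.I x) vm S.nv S.m ((x : ℝ) ^ ((16 : ℝ) / 200)) 1 := by
  obtain ⟨x1, h1⟩ := loc S 100 (by norm_num) (by norm_num) (ε / 2) (by positivity)
  refine ⟨x1, fun x hx => ?_⟩
  have h2 := h1 x hx {1} (by
    intro e he
    rw [Finset.mem_singleton] at he
    subst he
    refine ⟨squarefree_one, Nat.coprime_one_left _, fun p hp => ?_, ?_⟩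
    · simp at hp
    · norm_num)
  rw [Finset.sum_singleton, Finset.sum_singleton, Nat.totient_one, Nat.cast_one, div_one, mul_one]
    at h2
  refine le_trans (le_of_eq ?_) h2
  ring

/-- MODULE TAU_S1.  `upc` with `i = 99 - a` (`p < x^((a+1)/200)`), `mass` and `massn`. -/
theorem tau_s1 (S : Dat) (c : ZMod 3) (a : ℕ) (ha : 16 ≤ a) (ha2 : a < 76) (ε : ℝ) (hε : 0 < ε) :
    ∃ x0 : ℕ, ∀ x : ℕ, x0 ≤ x →
      S1 S x c a ≤ S.U x * ((kpn a : ℝ) / 10 ^ 6 * ((Ftn (99 - a) : ℝ) / 10 ^ 7) + ε) := by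
  obtain ⟨hm1, hm2⟩ := massn a ha (by omega)
  set K : ℝ := (kpn a : ℝ) / 10 ^ 6 with hK
  have hK0 : 0 ≤ K := by positivity
  obtain ⟨x1, h1⟩ := upc S (99 - a) (by omega) (by omega) (ε / (K + 1)) (by positivity)
  obtain ⟨x2, h2⟩ := mass S 200 a (a + 1) (by omega) (by omega) (by omega) c _ _ hm1 hm2
  obtain ⟨x3, h3⟩ := ts_U S
  refine ⟨max x1 (max x2 x3), fun x hx => ?_⟩
  have hx1 : x1 ≤ x := le_trans (le_max_left _ _) hx
  have hx2 : x2 ≤ x := le_trans (le_trans (le_max_left _ _) (le_max_right _ _)) hx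
  have hx3 : x3 ≤ x := le_trans (le_trans (le_max_right _ _) (le_max_right _ _)) hx
  obtain ⟨hx0, hU⟩ := h3 x hx3
  have h4 := h1 x hx1 (S.cell x 200 c a (a + 1)) (by
    intro e he
    obtain ⟨e1, e2, e3, e4, e5⟩ := ts_cell he
    refine ⟨e1.squarefree, (Nat.Prime.coprime_iff_not_dvd e1).2 e2, fun p hp => ?_, ?_⟩
    · rw [e1.primeFactors, Finset.mem_singleton] at hp
      rw [hp]
      exact (ts_low hx0 ha).trans e4
    · have h5 : (100 - ((99 - a : ℕ) : ℝ)) / 200 = ((a + 1 : ℕ) : ℝ) / 200 := by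
        rw [Nat.cast_sub (by omega)]
        push_cast
        ring
      rw [h5]
      exact e5.le)
  have h5 : ∑ e ∈ S.cell x 200 c a (a + 1), 1 / ((e.totient : ℕ) : ℝ) ≤ K := by
    refine le_trans (le_of_eq ?_) (h2 x hx2).2
    exact Finset.sum_congr rfl fun e he => by rw [ts_tot (ts_cell he).1]
  refine le_trans h4 (mul_le_mul_of_nonneg_left ?_ hU)
  have h6 : ((Ftn (99 - a) : ℝ) / 10 ^ 7 + ε / (K + 1)) *
      (∑ e ∈ S.cell x 200 c a (a + 1), 1 / ((e.totient : ℕ) : ℝ)) ≤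
      ((Ftn (99 - a) : ℝ) / 10 ^ 7 + ε / (K + 1)) * K :=
    mul_le_mul_of_nonneg_left h5 (by positivity)
  have h7 : ε / (K + 1) * K + ε / (K + 1) = ε := by
    field_simp
  linarith

private theorem ts_inj {A B : Finset ℕ} (hA : ∀ p ∈ A, p.Prime) (hB : ∀ p ∈ B, p.Prime)
    (hAB : ∀ p ∈ A, p ∉ B) :
    Set.InjOn (fun y : ℕ × ℕ => y.1 * y.2) (A ×ˢ B : Finset (ℕ × ℕ)) := by
  rintro ⟨p, p1⟩ h ⟨r, r1⟩ h' he
  rw [Finset.mem_coe, Finset.mem_product] at h h'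
  replace he : p * p1 = r * r1 := he
  have e1 : p ∣ r * r1 := he ▸ Nat.dvd_mul_right _ _
  have e2 : p = r := by
    rcases (Nat.Prime.dvd_mul (hA _ h.1)).1 e1 with e3 | e3
    · exact (Nat.prime_dvd_prime_iff_eq (hA _ h.1) (hA _ h'.1)).1 e3
    · exact absurd ((Nat.prime_dvd_prime_iff_eq (hA _ h.1) (hB _ h'.2)).1 e3 ▸ h'.2) (hAB _ h.1)
  subst e2
  have e3 : p1 = r1 := Nat.eq_of_mul_eq_mul_left (hA _ h.1).pos he
  rw [e3]

/-- the cells are disjoint -/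
private theorem ts_disj {S : Dat} {x : ℕ} (hx : 1 ≤ x) {c : ZMod 3} {a b : ℕ}
    (hne : c ≠ 2 ∨ b < a) : ∀ p ∈ S.cell x 200 c a (a + 1), p ∉ S.cell x 200 2 b (b + 1) := by
  intro p hp hp'
  obtain ⟨-, -, e3, e4, -⟩ := ts_cell hp
  obtain ⟨-, -, f3, -, f5⟩ := ts_cell hp'
  rcases hne with h | h
  · exact h (e3.symm.trans f3)
  · have h1 : (x : ℝ) ^ (((b + 1 : ℕ) : ℝ) / 200) ≤ (x : ℝ) ^ ((a : ℝ) / 200) := by
      refine Real.rpow_le_rpow_of_exponent_le (by exact_mod_cast hx) ?_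
      have : ((b + 1 : ℕ) : ℝ) ≤ a := by exact_mod_cast h
      linarith
    linarith

/-- MODULE TAU_S2.  `loc` with `i = 98 - a - b`, `E` = the set of the products `p p1` (injective: for `a ≠ b` or `c ≠ 2` the
two primes are distinguished by their cell or class), `∑_{e ∈ E} 1/φ(e) = ∑ 1/(p-1) ∑ 1/(p1-1) ≥ kmn a kmn b/10^12`. -/
theorem tau_s2 (S : Dat) (c : ZMod 3) (a b : ℕ) (ha : 16 ≤ a) (hb : 16 ≤ b) (hab : a + b ≤ 65)
    (hne : c ≠ 2 ∨ b < a) (ε : ℝ) (hε : 0 < ε) :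
    ∃ x0 : ℕ, ∀ x : ℕ, x0 ≤ x →
      S.U x * ((kmn a : ℝ) / 10 ^ 6 * ((kmn b : ℝ) / 10 ^ 6) * ((ftn (98 - a - b) : ℝ) / 10 ^ 7) - ε) ≤
        S2 S x c a b := by
  obtain ⟨hm1, hm2⟩ := massn a ha (by omega)
  obtain ⟨hn1, hn2⟩ := massn b hb (by omega)
  obtain ⟨K, hK⟩ : ∃ K : ℝ, K = (kpn a : ℝ) / 10 ^ 6 := ⟨_, rfl⟩
  obtain ⟨L, hL⟩ : ∃ L : ℝ, L = (kpn b : ℝ) / 10 ^ 6 := ⟨_, rfl⟩
  rw [← hK] at hm2
  rw [← hL] at hn2
  have hK0 : 0 ≤ K := hK ▸ div_nonneg (Nat.cast_nonneg _) (pow_nonneg (by norm_num) _)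
  have hL0 : 0 ≤ L := hL ▸ div_nonneg (Nat.cast_nonneg _) (pow_nonneg (by norm_num) _)
  have hKL : 0 < K * L + 1 := by
    have := mul_nonneg hK0 hL0
    linarith
  obtain ⟨x1, h1⟩ := loc S (98 - a - b) (by omega) (by omega) (ε / (K * L + 1))
    (div_pos hε hKL)
  obtain ⟨x2, h2⟩ := mass S 200 a (a + 1) (by omega) (by omega) (by omega) c _ _ hm1 hm2
  obtain ⟨x4, h4⟩ := mass S 200 b (b + 1) (by omega) (by omega) (by omega) 2 _ _ hn1 hn2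
  obtain ⟨x3, h3⟩ := ts_U S
  refine ⟨max (max x1 x4) (max x2 x3), fun x hx => ?_⟩
  have hx1 : x1 ≤ x := le_trans (le_trans (le_max_left _ _) (le_max_left _ _)) hx
  have hx4 : x4 ≤ x := le_trans (le_trans (le_max_right _ _) (le_max_left _ _)) hx
  have hx2 : x2 ≤ x := le_trans (le_trans (le_max_left _ _) (le_max_right _ _)) hx
  have hx3 : x3 ≤ x := le_trans (le_trans (le_max_right _ _) (le_max_right _ _)) hx
  obtain ⟨hx0, hU⟩ := h3 x hx3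
  obtain ⟨A, hA⟩ : ∃ A, A = S.cell x 200 c a (a + 1) := ⟨_, rfl⟩
  obtain ⟨B, hB⟩ : ∃ B, B = S.cell x 200 2 b (b + 1) := ⟨_, rfl⟩
  have hAp : ∀ p ∈ A, p.Prime := fun p hp => (ts_cell (hA ▸ hp)).1
  have hBp : ∀ p ∈ B, p.Prime := fun p hp => (ts_cell (hB ▸ hp)).1
  have hAB : ∀ p ∈ A, p ∉ B := fun p hp => by
    rw [hB]
    exact ts_disj hx0 hne p (hA ▸ hp)
  have hinj := ts_inj hAp hBp hAB
  have hne' : ∀ p ∈ A, ∀ p1 ∈ B, p ≠ p1 := by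
    rintro p hp p1 hp1 rfl
    exact hAB p hp hp1
  have h5 := h1 x hx1 ((A ×ˢ B).image fun y : ℕ × ℕ => y.1 * y.2) (by
    intro e he
    obtain ⟨⟨p, p1⟩, hy, rfl⟩ := Finset.mem_image.1 he
    rw [Finset.mem_product] at hy
    obtain ⟨e1, e2, e3, e4, e5⟩ := ts_cell (hA ▸ hy.1)
    obtain ⟨f1, f2, f3, f4, f5⟩ := ts_cell (hB ▸ hy.2)
    have hco : Nat.Coprime p p1 := (Nat.coprime_primes e1 f1).2 (hne' _ hy.1 _ hy.2)
    show Squarefree (p * p1) ∧ (p * p1).Coprime S.m ∧ _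
    refine ⟨(Nat.squarefree_mul hco).2 ⟨e1.squarefree, f1.squarefree⟩,
      Nat.Coprime.mul_left ((Nat.Prime.coprime_iff_not_dvd e1).2 e2)
        ((Nat.Prime.coprime_iff_not_dvd f1).2 f2), fun r hr => ?_, ?_⟩
    · have h6 := Nat.primeFactors_mul e1.ne_zero f1.ne_zero
      replace hr : r ∈ (p * p1).primeFactors := hr
      rw [h6, e1.primeFactors, f1.primeFactors, Finset.mem_union, Finset.mem_singleton,
        Finset.mem_singleton] at hr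
      rcases hr with rfl | rfl
      · exact (ts_low hx0 ha).trans e4
      · exact (ts_low hx0 hb).trans f4
    · have h6 : (100 - ((98 - a - b : ℕ) : ℝ)) / 200 =
          ((a + 1 : ℕ) : ℝ) / 200 + ((b + 1 : ℕ) : ℝ) / 200 := by
        rw [Nat.cast_sub (by omega), Nat.cast_sub (by omega)]
        push_cast
        ring
      have h7 : (0 : ℝ) < x := by exact_mod_cast hx0
      rw [h6, Real.rpow_add h7]
      push_cast
      push_cast at e5 f5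
      exact mul_le_mul e5.le f5.le (Nat.cast_nonneg _) (Real.rpow_nonneg h7.le _))
  rw [Finset.sum_image hinj, Finset.sum_image hinj, Finset.sum_product, Finset.sum_product] at h5
  have h6 : S2 S x c a b = ∑ p ∈ A, ∑ p1 ∈ B,
      Sf (S.I x) vm S.nv S.m ((x : ℝ) ^ ((16 : ℝ) / 200)) (p * p1) := by
    rw [S2, hA, hB]
  rw [h6]
  refine le_trans (mul_le_mul_of_nonneg_left ?_ hU) h5
  have h7 : ∑ p ∈ A, ∑ p1 ∈ B, 1 / (((p * p1).totient : ℕ) : ℝ) =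
      (∑ p ∈ A, 1 / ((p : ℝ) - 1)) * ∑ p1 ∈ B, 1 / ((p1 : ℝ) - 1) := by
    rw [Finset.sum_mul_sum]
    refine Finset.sum_congr rfl fun p hp => Finset.sum_congr rfl fun p1 hp1 => ?_
    rw [Nat.totient_mul ((Nat.coprime_primes (hAp p hp) (hBp p1 hp1)).2 (hne' p hp p1 hp1)),
      Nat.cast_mul, ts_tot (hAp p hp), ts_tot (hBp p1 hp1), one_div_mul_one_div]
  have hle : ∀ p : ℕ, p.Prime → 1 / (p : ℝ) ≤ 1 / ((p : ℝ) - 1) := by
    intro p hp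
    have : (2 : ℝ) ≤ p := by exact_mod_cast hp.two_le
    exact one_div_le_one_div_of_le (by linarith) (by linarith)
  have hA1 : (kmn a : ℝ) / 10 ^ 6 ≤ ∑ p ∈ A, 1 / ((p : ℝ) - 1) := by
    refine le_trans ?_ (Finset.sum_le_sum fun p hp => hle p (hAp p hp))
    rw [hA]
    exact (h2 x hx2).1
  have hB1 : (kmn b : ℝ) / 10 ^ 6 ≤ ∑ p ∈ B, 1 / ((p : ℝ) - 1) := by
    refine le_trans ?_ (Finset.sum_le_sum fun p hp => hle p (hBp p hp))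
    rw [hB]
    exact (h4 x hx4).1
  have hA2 : ∑ p ∈ A, 1 / ((p : ℝ) - 1) ≤ K := by
    rw [hA]
    exact (h2 x hx2).2
  have hB2 : ∑ p ∈ B, 1 / ((p : ℝ) - 1) ≤ L := by
    rw [hB]
    exact (h4 x hx4).2
  have hk0 : (0 : ℝ) ≤ (kmn a : ℝ) / 10 ^ 6 :=
    div_nonneg (Nat.cast_nonneg _) (pow_nonneg (by norm_num) _)
  have hl0 : (0 : ℝ) ≤ (kmn b : ℝ) / 10 ^ 6 :=
    div_nonneg (Nat.cast_nonneg _) (pow_nonneg (by norm_num) _)
  have h8 : ∑ p ∈ A, ∑ p1 ∈ B, 1 / ((((fun y : ℕ × ℕ => y.1 * y.2) (p, p1)).totient : ℕ) : ℝ) =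
      (∑ p ∈ A, 1 / ((p : ℝ) - 1)) * ∑ p1 ∈ B, 1 / ((p1 : ℝ) - 1) := h7
  obtain ⟨Q, hQ⟩ : ∃ Q : ℝ, Q = (∑ p ∈ A, 1 / ((p : ℝ) - 1)) * ∑ p1 ∈ B, 1 / ((p1 : ℝ) - 1) :=
    ⟨_, rfl⟩
  have hQ1 : (kmn a : ℝ) / 10 ^ 6 * ((kmn b : ℝ) / 10 ^ 6) ≤ Q := by
    rw [hQ]
    exact mul_le_mul hA1 hB1 hl0 (hk0.trans hA1)
  have hQ2 : Q ≤ K * L := by
    rw [hQ]
    exact mul_le_mul hA2 hB2 (hl0.trans hB1) hK0
  rw [h8, ← hQ]
  have hf : (0 : ℝ) ≤ (ftn (98 - a - b) : ℝ) / 10 ^ 7 :=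
    div_nonneg (Nat.cast_nonneg _) (pow_nonneg (by norm_num) _)
  have h9 : ε / (K * L + 1) * Q + ε / (K * L + 1) ≤ ε := by
    have h10 : ε / (K * L + 1) * Q ≤ ε / (K * L + 1) * (K * L) :=
      mul_le_mul_of_nonneg_left hQ2 (div_pos hε hKL).le
    have h11 : ε / (K * L + 1) * (K * L) + ε / (K * L + 1) = ε := by
      field_simp
    linarith
  have h10 : (kmn a : ℝ) / 10 ^ 6 * ((kmn b : ℝ) / 10 ^ 6) * ((ftn (98 - a - b) : ℝ) / 10 ^ 7) ≤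
      Q * ((ftn (98 - a - b) : ℝ) / 10 ^ 7) := mul_le_mul_of_nonneg_right hQ1 hf
  linarith

end Pool.Agent.CC
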