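import Pool.Agent.CC.TauD

/-! CC, part H4: the sums over three cells. -/

set_option autoImplicit false

namespace Pool.Agent.CC

open Finset

/-! ### TAU_S3 -/

private theorem ts3_cell {S : Dat} {x : ℕ} {c : ZMod 3} {i j p : ℕ} (h : p ∈ S.cell x 200 c i j) :
    p.Prime ∧ ¬ p ∣ S.m ∧ S.c p = c ∧ (x : ℝ) ^ ((i : ℝ) / 200) ≤ (p : ℝ) ∧
      (p : ℝ) < (x : ℝ) ^ ((j : ℝ) / 200) := by
  unfold Dat.cell at h
  rw [mem_filter] at h
  simpa using h.2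

/-- disjoint cells -/
private theorem ts3_disj {S : Dat} {x : ℕ} (hx : 1 ≤ x) {c : ZMod 3} {a b p q : ℕ}
    (hne : c ≠ 2 ∨ b < a) (hp : p ∈ S.cell x 200 c a (a + 1)) (hq : q ∈ S.cell x 200 2 b (b + 1)) :
    p ≠ q := by
  rintro rfl
  have h1 := ts3_cell hp
  have h2 := ts3_cell hq
  rcases hne with h | h
  · exact h (h1.2.2.1.symm.trans h2.2.2.1)
  · have h3 : (x : ℝ) ^ (((b + 1 : ℕ) : ℝ) / 200) ≤ (x : ℝ) ^ ((a : ℝ) / 200) := by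
      apply Real.rpow_le_rpow_of_exponent_le (by exact_mod_cast hx)
      have : ((b + 1 : ℕ) : ℝ) ≤ a := by exact_mod_cast h
      linarith
    linarith [h1.2.2.2.1, h2.2.2.2.2]

/-- the triples -/
private def ts3_T (A B C : Finset ℕ) : Finset (ℕ × ℕ × ℕ) :=
  (A ×ˢ (B ×ˢ C)).filter fun t => t.2.2 < t.2.1

private theorem ts3_sum (A B C : Finset ℕ) (f : ℕ → ℕ → ℕ → ℝ) :
    ∑ p ∈ A, ∑ p1 ∈ B, ∑ p2 ∈ C.filter (fun p2 => p2 < p1), f p p1 p2 =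
      ∑ t ∈ ts3_T A B C, f t.1 t.2.1 t.2.2 := by
  rw [ts3_T, sum_filter, sum_product]
  apply sum_congr rfl
  intro p _
  rw [sum_product]
  apply sum_congr rfl
  intro p1 _
  rw [sum_filter]

private theorem ts3_inj {A B C : Finset ℕ} (hA : ∀ p ∈ A, p.Prime) (hB : ∀ p ∈ B, p.Prime)
    (hC : ∀ p ∈ C, p.Prime) (hAB : ∀ p ∈ A, ∀ q ∈ B, p ≠ q) (hAC : ∀ p ∈ A, ∀ q ∈ C, p ≠ q) :
    ∀ t ∈ ts3_T A B C, ∀ u ∈ ts3_T A B C, t.1 * t.2.1 * t.2.2 = u.1 * u.2.1 * u.2.2 → t = u := by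
  rintro ⟨p, p1, p2⟩ ht ⟨q, q1, q2⟩ hu he
  simp only [ts3_T, mem_filter, mem_product] at ht hu
  obtain ⟨⟨hp, hp1, hp2⟩, hlt⟩ := ht
  obtain ⟨⟨hq, hq1, hq2⟩, hlt'⟩ := hu
  simp only at he
  have hpp := hA p hp
  have h1 : p = q := by
    have h2 : p ∣ q * q1 * q2 := he ▸ (Dvd.intro _ (mul_assoc p p1 p2).symm)
    rcases (hpp.dvd_mul).mp h2 with h3 | h3
    · rcases (hpp.dvd_mul).mp h3 with h4 | h4
      · exact (Nat.prime_dvd_prime_iff_eq hpp (hA q hq)).mp h4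
      · exact absurd ((Nat.prime_dvd_prime_iff_eq hpp (hB q1 hq1)).mp h4) (hAB p hp q1 hq1)
    · exact absurd ((Nat.prime_dvd_prime_iff_eq hpp (hC q2 hq2)).mp h3) (hAC p hp q2 hq2)
  subst h1
  have he2 : p1 * p2 = q1 * q2 := by
    rw [mul_assoc, mul_assoc] at he
    exact Nat.eq_of_mul_eq_mul_left hpp.pos he
  have hp1p := hB p1 hp1
  have h2 : p1 ∣ q1 * q2 := he2 ▸ Dvd.intro _ rfl
  rcases (hp1p.dvd_mul).mp h2 with h3 | h3
  · have h4 := (Nat.prime_dvd_prime_iff_eq hp1p (hB q1 hq1)).mp h3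
    subst h4
    have h5 := Nat.eq_of_mul_eq_mul_left hp1p.pos he2
    subst h5
    rfl
  · have h4 := (Nat.prime_dvd_prime_iff_eq hp1p (hC q2 hq2)).mp h3
    subst h4
    exfalso
    have h5 : p2 = q1 := by
      have : p1 * p2 = p1 * q1 := by rw [he2, mul_comm]
      exact Nat.eq_of_mul_eq_mul_left hp1p.pos this
    omega

private theorem ts3_sqf {p p1 p2 : ℕ} (hp : p.Prime) (hp1 : p1.Prime) (hp2 : p2.Prime) (h1 : p ≠ p1)
    (h2 : p ≠ p2) (h3 : p1 ≠ p2) : Squarefree (p * p1 * p2) ∧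
      (((p * p1 * p2 : ℕ).totient : ℕ) : ℝ) = ((p : ℝ) - 1) * (((p1 : ℝ) - 1) * ((p2 : ℝ) - 1)) := by
  have c1 : p.Coprime p1 := (Nat.coprime_primes hp hp1).mpr h1
  have c2 : (p * p1).Coprime p2 :=
    Nat.Coprime.mul_left ((Nat.coprime_primes hp hp2).mpr h2) ((Nat.coprime_primes hp1 hp2).mpr h3)
  refine ⟨?_, ?_⟩
  · rw [Nat.squarefree_mul c2, Nat.squarefree_mul c1]
    exact ⟨⟨hp.prime.squarefree, hp1.prime.squarefree⟩, hp2.prime.squarefree⟩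
  · rw [Nat.totient_mul c2, Nat.totient_mul c1, Nat.totient_prime hp, Nat.totient_prime hp1,
      Nat.totient_prime hp2]
    push_cast [Nat.cast_sub hp.one_le, Nat.cast_sub hp1.one_le, Nat.cast_sub hp2.one_le]
    ring

/-- the common part -/
private theorem ts3_core (S : Dat) (c : ZMod 3) (a b l i : ℕ) (ha : 16 ≤ a) (hb : 16 ≤ b)
    (hl : 16 ≤ l) (hlb : l ≤ b) (hi : i + (a + b + l) = 97) (hi1 : 1 ≤ i)
    (hne : c ≠ 2 ∨ b < a) (ε M : ℝ) (hε : 0 < ε) (hM0 : 0 ≤ M)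
    (hM : ∃ x0 : ℕ, ∀ x : ℕ, x0 ≤ x → (∑ p ∈ S.cell x 200 c a (a + 1), 1 / ((p : ℝ) - 1)) *
      (∑ p1 ∈ S.cell x 200 2 b (b + 1), ∑ p2 ∈ (S.cell x 200 2 l (l + 1)).filter (fun p2 => p2 < p1),
        1 / (((p1 : ℝ) - 1) * ((p2 : ℝ) - 1))) ≤ M) :
    ∃ x0 : ℕ, ∀ x : ℕ, x0 ≤ x →
      S3 S x c a b l ≤ S.U x * (M * ((Ftn i : ℝ) / 10 ^ 7) + ε) := by
  classical
  set δ : ℝ := ε / (M + 1) with hδ
  have hδ0 : 0 < δ := by positivity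
  obtain ⟨x1, h1⟩ := upc S i hi1 (by omega) δ hδ0
  obtain ⟨x2, h2⟩ := hM
  obtain ⟨c0, C0, hc0, hC0, x3, h3⟩ := ulow S
  refine ⟨max (max x1 x2) (max x3 3), fun x hx => ?_⟩
  have hx1 : x1 ≤ x := le_trans (le_trans (le_max_left _ _) (le_max_left _ _)) hx
  have hx2 : x2 ≤ x := le_trans (le_trans (le_max_right _ _) (le_max_left _ _)) hx
  have hx3 : x3 ≤ x := le_trans (le_trans (le_max_left _ _) (le_max_right _ _)) hx
  have hx4 : 3 ≤ x := le_trans (le_trans (le_max_right _ _) (le_max_right _ _)) hx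
  have hx1' : 1 ≤ x := by omega
  have hxr : (1 : ℝ) ≤ (x : ℝ) := by exact_mod_cast hx1'
  have hx0 : (0 : ℝ) < (x : ℝ) := by linarith
  have hU : 0 ≤ S.U x := by
    refine le_trans ?_ (h3 x hx3).1
    apply div_nonneg (by positivity)
    exact Real.log_nonneg hxr
  set A := S.cell x 200 c a (a + 1) with hA
  set B := S.cell x 200 2 b (b + 1) with hB
  set C := S.cell x 200 2 l (l + 1) with hC
  have hAp : ∀ p ∈ A, p.Prime := fun p hp => (ts3_cell hp).1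
  have hBp : ∀ p ∈ B, p.Prime := fun p hp => (ts3_cell hp).1
  have hCp : ∀ p ∈ C, p.Prime := fun p hp => (ts3_cell hp).1
  have hAB : ∀ p ∈ A, ∀ q ∈ B, p ≠ q := fun p hp q hq => ts3_disj hx1' hne hp hq
  have hAC : ∀ p ∈ A, ∀ q ∈ C, p ≠ q := fun p hp q hq =>
    ts3_disj hx1' (hne.imp id (fun h => lt_of_le_of_lt hlb h)) hp hq
  have hinj := ts3_inj hAp hBp hCp hAB hAC
  let E : Finset ℕ := (ts3_T A B C).image fun t => t.1 * t.2.1 * t.2.2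
  have hsumE : ∀ f : ℕ → ℝ, ∑ e ∈ E, f e = ∑ t ∈ ts3_T A B C, f (t.1 * t.2.1 * t.2.2) :=
    fun f => sum_image hinj
  have hmem : ∀ t ∈ ts3_T A B C, t.1 ∈ A ∧ t.2.1 ∈ B ∧ t.2.2 ∈ C ∧ t.2.2 < t.2.1 := by
    intro t ht
    simp only [ts3_T, mem_filter, mem_product] at ht
    exact ⟨ht.1.1, ht.1.2.1, ht.1.2.2, ht.2⟩
  have hS3 : S3 S x c a b l =
      ∑ e ∈ E, Sf (S.I x) vm S.nv S.m ((x : ℝ) ^ ((16 : ℝ) / 200)) e := by
    rw [hsumE, S3]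
    exact ts3_sum A B C fun p p1 p2 => Sf (S.I x) vm S.nv S.m ((x : ℝ) ^ ((16 : ℝ) / 200)) (p * p1 * p2)
  have hphi : ∑ e ∈ E, 1 / (e.totient : ℝ) ≤ M := by
    refine le_trans (le_of_eq ?_) (h2 x hx2)
    rw [hsumE, sum_mul]
    have h5 : ∀ p ∈ A, 1 / ((p : ℝ) - 1) * (∑ p1 ∈ B, ∑ p2 ∈ C.filter (fun p2 => p2 < p1),
        1 / (((p1 : ℝ) - 1) * ((p2 : ℝ) - 1))) = ∑ p1 ∈ B, ∑ p2 ∈ C.filter (fun p2 => p2 < p1),
        1 / ((p : ℝ) - 1) * (1 / (((p1 : ℝ) - 1) * ((p2 : ℝ) - 1))) := by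
      intro p _
      rw [mul_sum]
      exact sum_congr rfl fun p1 _ => mul_sum _ _ _
    rw [sum_congr rfl h5, ts3_sum A B C fun p p1 p2 =>
      1 / ((p : ℝ) - 1) * (1 / (((p1 : ℝ) - 1) * ((p2 : ℝ) - 1)))]
    apply sum_congr rfl
    intro t ht
    obtain ⟨g1, g2, g3, g4⟩ := hmem t ht
    rw [(ts3_sqf (hAp _ g1) (hBp _ g2) (hCp _ g3) (hAB _ g1 _ g2) (hAC _ g1 _ g3) g4.ne').2,
      one_div_mul_one_div]
  have hE : ∀ e ∈ E, Squarefree e ∧ e.Coprime S.m ∧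
      (∀ p ∈ e.primeFactors, (x : ℝ) ^ ((16 : ℝ) / 200) ≤ (p : ℝ)) ∧
        (e : ℝ) ≤ (x : ℝ) ^ ((100 - (i : ℝ)) / 200) := by
    intro e he
    obtain ⟨t, ht, rfl⟩ := mem_image.mp he
    obtain ⟨g1, g2, g3, g4⟩ := hmem t ht
    have k1 := ts3_cell g1
    have k2 := ts3_cell g2
    have k3 := ts3_cell g3
    have hlow : ∀ (j : ℕ) (p : ℕ), 16 ≤ j → (x : ℝ) ^ ((j : ℝ) / 200) ≤ (p : ℝ) →
        (x : ℝ) ^ ((16 : ℝ) / 200) ≤ (p : ℝ) := by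
      intro j p hj hp
      refine le_trans ?_ hp
      apply Real.rpow_le_rpow_of_exponent_le hxr
      have : (16 : ℝ) ≤ j := by exact_mod_cast hj
      linarith
    refine ⟨(ts3_sqf k1.1 k2.1 k3.1 (hAB _ g1 _ g2) (hAC _ g1 _ g3) g4.ne').1, ?_, ?_, ?_⟩
    · exact Nat.Coprime.mul_left (Nat.Coprime.mul_left ((Nat.Prime.coprime_iff_not_dvd k1.1).mpr k1.2.1)
        ((Nat.Prime.coprime_iff_not_dvd k2.1).mpr k2.2.1))
        ((Nat.Prime.coprime_iff_not_dvd k3.1).mpr k3.2.1)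
    · intro p hp
      have hpp := Nat.prime_of_mem_primeFactors hp
      have hd := Nat.dvd_of_mem_primeFactors hp
      rcases (hpp.dvd_mul).mp hd with h5 | h5
      · rcases (hpp.dvd_mul).mp h5 with h6 | h6
        · rw [(Nat.prime_dvd_prime_iff_eq hpp k1.1).mp h6]
          exact hlow a _ ha k1.2.2.2.1
        · rw [(Nat.prime_dvd_prime_iff_eq hpp k2.1).mp h6]
          exact hlow b _ hb k2.2.2.2.1
      · rw [(Nat.prime_dvd_prime_iff_eq hpp k3.1).mp h5]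
        exact hlow l _ hl k3.2.2.2.1
    · have e1 : (100 - (i : ℝ)) / 200 = ((a + 1 : ℕ) : ℝ) / 200 + ((b + 1 : ℕ) : ℝ) / 200 +
          ((l + 1 : ℕ) : ℝ) / 200 := by
        have : (i : ℝ) + (a + b + l) = 97 := by exact_mod_cast hi
        push_cast
        linarith
      rw [e1, Real.rpow_add hx0, Real.rpow_add hx0]
      push_cast
      have p1 : (0 : ℝ) ≤ (t.1 : ℝ) := Nat.cast_nonneg _
      have p2 : (0 : ℝ) ≤ (t.2.1 : ℝ) := Nat.cast_nonneg _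
      have p3 : (0 : ℝ) ≤ (t.2.2 : ℝ) := Nat.cast_nonneg _
      have q1 : (0 : ℝ) ≤ (x : ℝ) ^ (((a : ℝ) + 1) / 200) := by positivity
      have q2 : (0 : ℝ) ≤ (x : ℝ) ^ (((b : ℝ) + 1) / 200) := by positivity
      have r1 := k1.2.2.2.2.le
      have r2 := k2.2.2.2.2.le
      have r3 := k3.2.2.2.2.le
      push_cast at r1 r2 r3
      exact mul_le_mul (mul_le_mul r1 r2 p2 q1) r3 p3 (mul_nonneg q1 q2)
  have h6 := h1 x hx1 E hE
  rw [hS3]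
  refine h6.trans (mul_le_mul_of_nonneg_left ?_ hU)
  have hF : 0 ≤ (Ftn i : ℝ) / 10 ^ 7 + δ := by positivity
  have h7 : ((Ftn i : ℝ) / 10 ^ 7 + δ) * (∑ e ∈ E, 1 / (e.totient : ℝ)) ≤
      ((Ftn i : ℝ) / 10 ^ 7 + δ) * M := mul_le_mul_of_nonneg_left hphi hF
  have h8 : δ * (M + 1) = ε := by
    rw [hδ]
    field_simp
  nlinarith

private theorem ts3_mass (S : Dat) (c : ZMod 3) (a : ℕ) (ha : 16 ≤ a) (ha2 : a ≤ 100) :
    ∃ x0 : ℕ, ∀ x : ℕ, x0 ≤ x →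
      ∑ p ∈ S.cell x 200 c a (a + 1), 1 / ((p : ℝ) - 1) ≤ (kpn a : ℝ) / 10 ^ 6 := by
  obtain ⟨x0, h⟩ := mass S 200 a (a + 1) (by omega) (by omega) (by omega) c
    ((1 / 3) * Real.log (((a + 1 : ℕ) : ℝ) / a) - 1) ((kpn a : ℝ) / 10 ^ 6) (by linarith)
    (massn a ha ha2).2
  exact ⟨x0, fun x hx => (h x hx).2⟩

private theorem ts3_nonneg {S : Dat} {x : ℕ} {c : ZMod 3} {i j p : ℕ}
    (h : p ∈ S.cell x 200 c i j) : 0 ≤ 1 / ((p : ℝ) - 1) := by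
  have h1 := (ts3_cell h).1.one_le
  have : (1 : ℝ) ≤ p := by exact_mod_cast h1
  apply div_nonneg zero_le_one
  linarith

private theorem ts3_k (j : ℕ) : (0 : ℝ) ≤ (kpn j : ℝ) / 10 ^ 6 :=
  div_nonneg (Nat.cast_nonneg _) (pow_nonneg (by norm_num) _)

/-- MODULE TAU_S3.  `upc` with `i = 97 - a - b - l ≥ 1`, `E` = the set of the products `p p1 p2` (injective),
`∑ 1/φ(e) ≤ kpn a kpn b kpn l/10^18`. -/
theorem tau_s3 (S : Dat) (c : ZMod 3) (a b l : ℕ) (ha : 16 ≤ a) (hl : 16 ≤ l) (hlb : l < b) (hab : a + b ≤ 65)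
    (hab2 : a + 2 * b ≤ 96) (hne : c ≠ 2 ∨ b < a) (ε : ℝ) (hε : 0 < ε) :
    ∃ x0 : ℕ, ∀ x : ℕ, x0 ≤ x →
      S3 S x c a b l ≤ S.U x * ((kpn a : ℝ) / 10 ^ 6 * ((kpn b : ℝ) / 10 ^ 6) * ((kpn l : ℝ) / 10 ^ 6) *
        ((Ftn (97 - a - b - l) : ℝ) / 10 ^ 7) + ε) := by
  obtain ⟨xa, hxa⟩ := ts3_mass S c a ha (by omega)
  obtain ⟨xb, hxb⟩ := ts3_mass S 2 b (by omega) (by omega)
  obtain ⟨xl, hxl⟩ := ts3_mass S 2 l hl (by omega)
  apply ts3_core S c a b l (97 - a - b - l) ha (by omega) hl hlb.le (by omega) (by omega) hne ε _ hε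
    (mul_nonneg (mul_nonneg (ts3_k a) (ts3_k b)) (ts3_k l))
  refine ⟨max xa (max xb xl), fun x hx => ?_⟩
  have h1 := hxa x (le_trans (le_max_left _ _) hx)
  have h2 := hxb x (le_trans (le_trans (le_max_left _ _) (le_max_right _ _)) hx)
  have h3 := hxl x (le_trans (le_trans (le_max_right _ _) (le_max_right _ _)) hx)
  have hA0 : 0 ≤ ∑ p ∈ S.cell x 200 c a (a + 1), 1 / ((p : ℝ) - 1) :=
    sum_nonneg fun p hp => ts3_nonneg hp
  have hB0 : 0 ≤ ∑ p ∈ S.cell x 200 2 b (b + 1), 1 / ((p : ℝ) - 1) :=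
    sum_nonneg fun p hp => ts3_nonneg hp
  have hC0 : 0 ≤ ∑ p ∈ S.cell x 200 2 l (l + 1), 1 / ((p : ℝ) - 1) :=
    sum_nonneg fun p hp => ts3_nonneg hp
  have h4 : (∑ p1 ∈ S.cell x 200 2 b (b + 1), ∑ p2 ∈ (S.cell x 200 2 l (l + 1)).filter (fun p2 => p2 < p1),
      1 / (((p1 : ℝ) - 1) * ((p2 : ℝ) - 1))) ≤ (∑ p ∈ S.cell x 200 2 b (b + 1), 1 / ((p : ℝ) - 1)) *
        (∑ p ∈ S.cell x 200 2 l (l + 1), 1 / ((p : ℝ) - 1)) := by
    rw [sum_mul]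
    apply sum_le_sum
    intro p1 hp1
    rw [mul_sum]
    refine le_trans (sum_le_sum_of_subset_of_nonneg (filter_subset _ _) ?_) ?_
    · intro p2 hp2 _
      rw [← one_div_mul_one_div]
      exact mul_nonneg (ts3_nonneg hp1) (ts3_nonneg hp2)
    · apply le_of_eq
      apply sum_congr rfl
      intro p2 _
      rw [one_div_mul_one_div]
  have h5 : (∑ p ∈ S.cell x 200 2 b (b + 1), 1 / ((p : ℝ) - 1)) *
      (∑ p ∈ S.cell x 200 2 l (l + 1), 1 / ((p : ℝ) - 1)) ≤ (kpn b : ℝ) / 10 ^ 6 * ((kpn l : ℝ) / 10 ^ 6) :=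
    mul_le_mul h2 h3 hC0 (ts3_k b)
  rw [mul_assoc ((kpn a : ℝ) / 10 ^ 6)]
  exact mul_le_mul h1 (h4.trans h5) (le_trans (by
    apply sum_nonneg
    intro p1 hp1
    apply sum_nonneg
    intro p2 hp2
    rw [← one_div_mul_one_div]
    exact mul_nonneg (ts3_nonneg hp1) (ts3_nonneg (mem_filter.mp hp2).1)) le_rfl) (ts3_k a)

/-- `∑_{q < p} f p f q ≤ (1/2) (∑ f)^2` -/
private theorem ts3_half (B : Finset ℕ) (f : ℕ → ℝ) (hf : ∀ p ∈ B, 0 ≤ f p) :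
    ∑ p ∈ B, ∑ q ∈ B.filter (fun q => q < p), f p * f q ≤ 1 / 2 * (∑ p ∈ B, f p) ^ 2 := by
  have h1 : ∑ p ∈ B, ∑ q ∈ B.filter (fun q => q < p), f p * f q =
      ∑ p ∈ B, ∑ q ∈ B.filter (fun q => p < q), f p * f q := by
    simp only [sum_filter]
    rw [sum_comm]
    apply sum_congr rfl
    intro p _
    apply sum_congr rfl
    intro q _
    split_ifs
    · ring
    · rfl
  have h2 : (∑ p ∈ B, ∑ q ∈ B.filter (fun q => q < p), f p * f q) +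
      (∑ p ∈ B, ∑ q ∈ B.filter (fun q => p < q), f p * f q) ≤ (∑ p ∈ B, f p) ^ 2 := by
    rw [sq, sum_mul_sum, ← sum_add_distrib]
    apply sum_le_sum
    intro p hp
    rw [sum_filter, sum_filter, ← sum_add_distrib]
    apply sum_le_sum
    intro q hq
    have h3 := mul_nonneg (hf p hp) (hf q hq)
    rcases lt_trichotomy q p with h | h | h
    · rw [if_pos h, if_neg (lt_asymm h), add_zero]
    · rw [if_neg (by omega), if_neg (by omega), add_zero]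
      exact h3
    · rw [if_neg (lt_asymm h), if_pos h, zero_add]
  rw [← h1] at h2
  linarith

/-- MODULE TAU_S3.  The case of two primes in the same cell `b`: `∑_{p2 < p1} 1/((p1-1)(p2-1)) ≤ (1/2) (∑ 1/(p-1))^2`. -/
theorem tau_s3' (S : Dat) (c : ZMod 3) (a b : ℕ) (ha : 16 ≤ a) (hb : 16 ≤ b) (hab : a + b ≤ 65)
    (hab2 : a + 2 * b ≤ 96) (hne : c ≠ 2 ∨ b < a) (ε : ℝ) (hε : 0 < ε) :
    ∃ x0 : ℕ, ∀ x : ℕ, x0 ≤ x →
      S3 S x c a b b ≤ S.U x * ((1 / 2) * ((kpn a : ℝ) / 10 ^ 6 * ((kpn b : ℝ) / 10 ^ 6) ^ 2) *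
        ((Ftn (97 - a - 2 * b) : ℝ) / 10 ^ 7) + ε) := by
  obtain ⟨xa, hxa⟩ := ts3_mass S c a ha (by omega)
  obtain ⟨xb, hxb⟩ := ts3_mass S 2 b (by omega) (by omega)
  apply ts3_core S c a b b (97 - a - 2 * b) ha hb hb le_rfl (by omega) (by omega) hne ε _ hε
    (mul_nonneg (by norm_num) (mul_nonneg (ts3_k a) (pow_nonneg (ts3_k b) 2)))
  refine ⟨max xa xb, fun x hx => ?_⟩
  have h1 := hxa x (le_trans (le_max_left _ _) hx)
  have h2 := hxb x (le_trans (le_max_right _ _) hx)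
  have hB0 : 0 ≤ ∑ p ∈ S.cell x 200 2 b (b + 1), 1 / ((p : ℝ) - 1) :=
    sum_nonneg fun p hp => ts3_nonneg hp
  have h4 := ts3_half (S.cell x 200 2 b (b + 1)) (fun p => 1 / ((p : ℝ) - 1))
    (fun p hp => ts3_nonneg hp)
  have h5 : (∑ p ∈ S.cell x 200 2 b (b + 1), 1 / ((p : ℝ) - 1)) ^ 2 ≤ ((kpn b : ℝ) / 10 ^ 6) ^ 2 :=
    pow_le_pow_left₀ hB0 h2 2
  have h6 : (∑ p1 ∈ S.cell x 200 2 b (b + 1), ∑ p2 ∈ (S.cell x 200 2 b (b + 1)).filter (fun p2 => p2 < p1),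
      1 / (((p1 : ℝ) - 1) * ((p2 : ℝ) - 1))) ≤ 1 / 2 * ((kpn b : ℝ) / 10 ^ 6) ^ 2 := by
    refine le_trans (le_of_eq ?_) (h4.trans (by linarith))
    apply sum_congr rfl
    intro p1 _
    apply sum_congr rfl
    intro p2 _
    rw [one_div_mul_one_div]
  have e : 1 / 2 * ((kpn a : ℝ) / 10 ^ 6 * ((kpn b : ℝ) / 10 ^ 6) ^ 2) =
      (kpn a : ℝ) / 10 ^ 6 * (1 / 2 * ((kpn b : ℝ) / 10 ^ 6) ^ 2) := by ring
  rw [e]
  exact mul_le_mul h1 h6 (by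
    apply sum_nonneg
    intro p1 hp1
    apply sum_nonneg
    intro p2 hp2
    rw [← one_div_mul_one_div]
    exact mul_nonneg (ts3_nonneg hp1) (ts3_nonneg (mem_filter.mp hp2).1)) (ts3_k a)

/-! ### TAU_GEN -/
end Pool.Agent.CC
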