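import Pool.Agent.CC.TauSum
import Pool.Agent.CC.TauS0
import Pool.Agent.CC.TauS3

/-! CC, part H5: the total. -/

set_option autoImplicit false

namespace Pool.Agent.CC

open Finset


/-- `liminf f/U ≥ t` -/
private def tgEv (S : Dat) (f : ℕ → ℝ) (t : ℝ) : Prop :=
  ∀ ε : ℝ, 0 < ε → ∃ x0 : ℕ, ∀ x : ℕ, x0 ≤ x → S.U x * (t - ε) ≤ f x

private theorem tgEv.add {S : Dat} {f g : ℕ → ℝ} {t u : ℝ} (hf : tgEv S f t) (hg : tgEv S g u) :
    tgEv S (fun x => f x + g x) (t + u) := by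
  intro ε hε
  obtain ⟨x1, h1⟩ := hf (ε / 2) (by linarith)
  obtain ⟨x2, h2⟩ := hg (ε / 2) (by linarith)
  refine ⟨max x1 x2, fun x hx => ?_⟩
  have h3 := h1 x (le_trans (le_max_left _ _) hx)
  have h4 := h2 x (le_trans (le_max_right _ _) hx)
  have h5 : S.U x * (t + u - ε) = S.U x * (t - ε / 2) + S.U x * (u - ε / 2) := by ring
  rw [h5]
  exact add_le_add h3 h4

private theorem tgEv.half {S : Dat} {f : ℕ → ℝ} {t : ℝ} (hf : tgEv S f t) :
    tgEv S (fun x => 1 / 2 * f x) (1 / 2 * t) := by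
  intro ε hε
  obtain ⟨x1, h1⟩ := hf (2 * ε) (by linarith)
  refine ⟨x1, fun x hx => ?_⟩
  have h3 := h1 x hx
  have h5 : S.U x * (1 / 2 * t - ε) = 1 / 2 * (S.U x * (t - 2 * ε)) := by ring
  rw [h5]
  linarith

private theorem tgEv.zero (S : Dat) : tgEv S (fun _ => 0) 0 := by
  intro ε hε
  obtain ⟨c, C, hc, hC, x0, h⟩ := ulow S
  refine ⟨max x0 3, fun x hx => ?_⟩
  have h1 := (h x (le_trans (le_max_left _ _) hx)).1
  have hx3 : (3 : ℝ) ≤ x := by exact_mod_cast le_trans (le_max_right x0 3) hx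
  have h2 : 0 ≤ S.U x := le_trans (by
    apply div_nonneg (by positivity)
    exact Real.log_nonneg (by linarith)) h1
  have h3 : 0 ≤ S.U x * ε := mul_nonneg h2 hε.le
  have h4 : S.U x * (0 - ε) = -(S.U x * ε) := by ring
  show S.U x * (0 - ε) ≤ 0
  linarith

private theorem tgEv.sum {S : Dat} {ι : Type} (s : Finset ι) {f : ι → ℕ → ℝ} {t : ι → ℝ}
    (hf : ∀ i ∈ s, tgEv S (f i) (t i)) : tgEv S (fun x => ∑ i ∈ s, f i x) (∑ i ∈ s, t i) := by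
  classical
  induction s using Finset.induction_on with
  | empty => simpa using tgEv.zero S
  | insert i s hi ih =>
      have h1 := (hf i (mem_insert_self _ _)).add (ih fun j hj => hf j (mem_insert_of_mem hj))
      simpa only [sum_insert hi] using h1

private theorem tgEv.congr {S : Dat} {f g : ℕ → ℝ} {t u : ℝ} (hf : tgEv S f t) (h1 : ∀ x, f x = g x)
    (h2 : t = u) : tgEv S g u := by
  have : f = g := funext h1
  rw [← this, ← h2]
  exact hf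

private theorem tgEv.of_le {S : Dat} {f : ℕ → ℝ} {t : ℝ}
    (h : ∀ ε : ℝ, 0 < ε → ∃ x0 : ℕ, ∀ x : ℕ, x0 ≤ x → f x ≤ S.U x * (t + ε)) :
    tgEv S (fun x => -f x) (-t) := by
  intro ε hε
  obtain ⟨x0, h0⟩ := h ε hε
  refine ⟨x0, fun x hx => ?_⟩
  have h1 := h0 x hx
  have h2 : S.U x * (-t - ε) = -(S.U x * (t + ε)) := by ring
  rw [h2]
  exact neg_le_neg h1

/-- the bracket of a pair of cells -/
private theorem tg_brk (S : Dat) (c : ZMod 3) (a b : ℕ) (ha : 16 ≤ a) (hb : 16 ≤ b)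
    (hu : usd a b = true) (hne : c ≠ 2 ∨ b < a) :
    tgEv S (fun x => S2 S x c a b - (∑ l ∈ Ico 16 b, S3 S x c a b l) - S3 S x c a b b)
      ((pb a b : ℝ) / (2 * 10 ^ 25)) := by
  have hu' : okp a b = true ∧ 0 < br a b := by
    rw [usd, Bool.and_eq_true] at hu
    exact ⟨hu.1, of_decide_eq_true hu.2⟩
  have hok : a + b ≤ 65 ∧ a + 2 * b ≤ 96 := by
    have := hu'.1
    rw [okp, Bool.and_eq_true] at this
    exact ⟨of_decide_eq_true this.1, of_decide_eq_true this.2⟩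
  have e2 : tgEv S (fun x => S2 S x c a b)
      ((kmn a : ℝ) / 10 ^ 6 * ((kmn b : ℝ) / 10 ^ 6) * ((ftn (98 - a - b) : ℝ) / 10 ^ 7)) :=
    fun ε hε => tau_s2 S c a b ha hb hok.1 hne ε hε
  have e3 : tgEv S (fun x => ∑ l ∈ Ico 16 b, -S3 S x c a b l)
      (∑ l ∈ Ico 16 b, -((kpn a : ℝ) / 10 ^ 6 * ((kpn b : ℝ) / 10 ^ 6) * ((kpn l : ℝ) / 10 ^ 6) *
        ((Ftn (97 - a - b - l) : ℝ) / 10 ^ 7))) := by
    apply tgEv.sum
    intro l hl
    rw [mem_Ico] at hl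
    exact tgEv.of_le fun ε hε => tau_s3 S c a b l ha hl.1 hl.2 hok.1 hok.2 hne ε hε
  have e4 : tgEv S (fun x => -S3 S x c a b b)
      (-((1 / 2) * ((kpn a : ℝ) / 10 ^ 6 * ((kpn b : ℝ) / 10 ^ 6) ^ 2) *
        ((Ftn (97 - a - 2 * b) : ℝ) / 10 ^ 7))) :=
    tgEv.of_le fun ε hε => tau_s3' S c a b ha hb hok.1 hok.2 hne ε hε
  refine ((e2.add e3).add e4).congr (fun x => ?_) ?_
  · rw [sum_neg_distrib]
    ring
  · have hpb : pb a b = br a b := by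
      rw [pb, if_pos]
      rw [Bool.and_eq_true]
      exact ⟨hu'.1, decide_eq_true hu'.2⟩
    rw [hpb, br]
    push_cast
    rw [sum_neg_distrib]
    have h5 : ∑ l ∈ Ico 16 b, (kpn a : ℝ) / 10 ^ 6 * ((kpn b : ℝ) / 10 ^ 6) * ((kpn l : ℝ) / 10 ^ 6) *
        ((Ftn (97 - a - b - l) : ℝ) / 10 ^ 7) = (kpn a : ℝ) * kpn b / 10 ^ 25 *
          ∑ l ∈ Ico 16 b, (kpn l : ℝ) * (Ftn (97 - a - b - l) : ℝ) := by
      rw [mul_sum]
      apply sum_congr rfl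
      intro l _
      ring
    rw [h5]
    ring

private theorem tg_ite (S : Dat) (c : ZMod 3) (a b : ℕ) (ha : 16 ≤ a) (hb : 16 ≤ b)
    (hne : c ≠ 2 ∨ b < a) :
    tgEv S (fun x => if usd a b then
      S2 S x c a b - (∑ l ∈ Ico 16 b, S3 S x c a b l) - S3 S x c a b b else 0)
      ((pb a b : ℝ) / (2 * 10 ^ 25)) := by
  by_cases hu : usd a b = true
  · refine (tg_brk S c a b ha hb hu hne).congr (fun x => ?_) rfl
    rw [if_pos hu]
  · have hpb : pb a b = 0 := by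
      rw [pb, if_neg]
      exact hu
    refine (tgEv.zero S).congr (fun x => ?_) ?_
    · rw [if_neg hu]
    · rw [hpb]
      simp

private theorem tg_s1 (S : Dat) (c : ZMod 3) (a : ℕ) (ha : 16 ≤ a) (ha2 : a < 76) :
    tgEv S (fun x => -S1 S x c a) (-((kpn a : ℝ) * (Ftn (99 - a) : ℝ) / 10 ^ 13)) := by
  refine (tgEv.of_le fun ε hε => tau_s1 S c a ha ha2 ε hε).congr (fun x => rfl) ?_
  ring

private theorem tg_pb0 {a b : ℕ} (ha : 65 ≤ a) (hb : 16 ≤ b) : pb a b = 0 := by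
  rw [pb, if_neg]
  rw [Bool.and_eq_true]
  rintro ⟨h1, -⟩
  rw [okp, Bool.and_eq_true] at h1
  have := of_decide_eq_true h1.1
  omega

private theorem tg_num : (ftn 100 : ℝ) / 10 ^ 7 +
    (∑ j ∈ Ico 16 65, -((kpn j : ℝ) * (Ftn (99 - j) : ℝ) / 10 ^ 13)) +
    (∑ i ∈ Ico 16 65, ∑ j ∈ Ico 16 i, (pb i j : ℝ) / (2 * 10 ^ 25)) +
    (1 / 2) * (∑ a ∈ Ico 16 46, (-((kpn a : ℝ) * (Ftn (99 - a) : ℝ) / 10 ^ 13) +
      ∑ j ∈ Ico 16 65, (pb a j : ℝ) / (2 * 10 ^ 25))) +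
    (1 / 2) * (∑ a ∈ Ico 65 76, -((kpn a : ℝ) * (Ftn (99 - a) : ℝ) / 10 ^ 13)) =
    (tauZ : ℝ) / (4 * 10 ^ 25) := by
  have h0 : ∀ a ∈ Ico 65 76, tauH a = 2 * 10 ^ 12 * (kpn a : ℤ) * Ftn (99 - a) := by
    intro a ha
    rw [mem_Ico] at ha
    rw [tauH, sum_eq_zero, sub_zero]
    intro j hj
    rw [mem_Ico] at hj
    exact tg_pb0 ha.1 hj.1
  rw [tauZ, sum_congr rfl h0, tauM]
  simp only [tauH]
  push_cast
  have e1 : ∀ s : Finset ℕ, ∑ j ∈ s, -((kpn j : ℝ) * (Ftn (99 - j) : ℝ) / 10 ^ 13) =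
      -((∑ j ∈ s, (kpn j : ℝ) * (Ftn (99 - j) : ℝ)) / 10 ^ 13) := by
    intro s
    rw [sum_neg_distrib, sum_div]
  have e2 : ∑ i ∈ Ico 16 65, ∑ j ∈ Ico 16 i, (pb i j : ℝ) / (2 * 10 ^ 25) =
      (∑ i ∈ Ico 16 65, ∑ j ∈ Ico 16 i, (pb i j : ℝ)) / (2 * 10 ^ 25) := by
    rw [sum_div]
    exact sum_congr rfl fun i _ => (sum_div _ _ _).symm
  have e3 : ∑ a ∈ Ico 16 46, ∑ j ∈ Ico 16 65, (pb a j : ℝ) / (2 * 10 ^ 25) =
      (∑ a ∈ Ico 16 46, ∑ j ∈ Ico 16 65, (pb a j : ℝ)) / (2 * 10 ^ 25) := by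
    rw [sum_div]
    exact sum_congr rfl fun i _ => (sum_div _ _ _).symm
  have e4 : ∀ s : Finset ℕ, ∑ a ∈ s, 2000000000000 * (kpn a : ℝ) * (Ftn (99 - a) : ℝ) =
      2000000000000 * ∑ a ∈ s, (kpn a : ℝ) * (Ftn (99 - a) : ℝ) := by
    intro s
    rw [mul_sum]
    exact sum_congr rfl fun a _ => by ring
  rw [sum_add_distrib, e1, e1, e1, e2, e3, sum_sub_distrib, e4, e4]
  ring

/-- MODULE TAU_GEN.  Combine `tau_sum`, `tau_s0`, ..., `tau_s3'` (finitely many terms, `ε` small): the coefficients add up to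
`tauZ/(4·10^25)` (definitions of `tauM`, `tauH`, `tauZ`, `br`, `pb`; `usd a b = okp a b && 0 < br a b`). -/
theorem tau_gen (S : Dat) (ε : ℝ) (hε : 0 < ε) : ∃ x0 : ℕ, ∀ x : ℕ, x0 ≤ x →
    S.U x * ((tauZ : ℝ) / (4 * 10 ^ 25) - ε) ≤
      ∑ k ∈ S.I x, (open scoped Classical in if S.Surv x (S.nv k) then vm k * S.wt x (S.nv k) else 0) := by
  have h0 : tgEv S (fun x => Sf (S.I x) vm S.nv S.m ((x : ℝ) ^ ((16 : ℝ) / 200)) 1)
      ((ftn 100 : ℝ) / 10 ^ 7) := fun ε hε => tau_s0 S ε hε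
  have h1 := tgEv.sum (S := S) (Ico 16 65) (f := fun j x => -S1 S x 2 j) (fun j hj => by
    rw [mem_Ico] at hj
    exact tg_s1 S 2 j hj.1 (by omega))
  have h2 := tgEv.sum (S := S) (Ico 16 65) (f := fun i x => ∑ j ∈ Ico 16 i, if usd i j then
      S2 S x 2 i j - (∑ l ∈ Ico 16 j, S3 S x 2 i j l) - S3 S x 2 i j j else 0)
    (fun i hi => tgEv.sum (S := S) (Ico 16 i) (fun j hj => by
      rw [mem_Ico] at hi hj
      exact tg_ite S 2 i j hi.1 hj.1 (Or.inr hj.2)))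
  have h3 := (tgEv.sum (S := S) (Ico 16 46) (f := fun a x => -S1 S x 1 a +
      ∑ j ∈ Ico 16 65, if usd a j then
        S2 S x 1 a j - (∑ l ∈ Ico 16 j, S3 S x 1 a j l) - S3 S x 1 a j j else 0)
    (fun a ha => by
      rw [mem_Ico] at ha
      exact (tg_s1 S 1 a ha.1 (by omega)).add (tgEv.sum (S := S) (Ico 16 65) (fun j hj => by
        rw [mem_Ico] at hj
        exact tg_ite S 1 a j ha.1 hj.1 (Or.inl (by decide)))))).half
  have h4 := (tgEv.sum (S := S) (Ico 65 76) (f := fun a x => -S1 S x 2 a) (fun a ha => by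
    rw [mem_Ico] at ha
    exact tg_s1 S 2 a (by omega) ha.2)).half
  have h5 := (((h0.add h1).add h2).add h3).add h4
  obtain ⟨x1, hx1⟩ := (h5.congr (fun _ => rfl) tg_num) ε hε
  obtain ⟨x2, hx2⟩ := tau_sum S
  refine ⟨max x1 x2, fun x hx => ?_⟩
  have h6 := hx1 x (le_trans (le_max_left _ _) hx)
  have h7 := hx2 x (le_trans (le_max_right _ _) hx)
  refine h6.trans (le_trans (le_of_eq ?_) h7)
  beta_reduce
  rw [sum_neg_distrib, sum_neg_distrib, sum_add_distrib, sum_neg_distrib, sum_sub_distrib]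
  ring

end Pool.Agent.CC
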