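import Pool.Agent.CC.TauD

/-! CC, part H2: the combinatorial inequality, summed over the family. -/

set_option autoImplicit false

namespace Pool.Agent.CC

open Finset

/-! Own lemmas of module TAU_SUM -/

section TAU_SUM

/-- index of the cell (width `1/200`) -/
private noncomputable def tsCl (x p : ℕ) : ℕ := ⌊200 * Real.log p / Real.log x⌋₊

private theorem ts_rpow {x p : ℕ} (hx : 2 ≤ x) (hp : 0 < p) (j : ℕ) :
    ((x : ℝ) ^ ((j : ℝ) / (200 : ℕ)) ≤ (p : ℝ) ↔ (j : ℝ) ≤ 200 * Real.log p / Real.log x) ∧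
    ((p : ℝ) < (x : ℝ) ^ ((j : ℝ) / (200 : ℕ)) ↔ 200 * Real.log p / Real.log x < (j : ℝ)) := by
  have hx0 : (0 : ℝ) < x := by exact_mod_cast (by omega : 0 < x)
  have hx1 : (1 : ℝ) < x := by exact_mod_cast (by omega : 1 < x)
  have hlx : 0 < Real.log x := Real.log_pos hx1
  have hp0 : (0 : ℝ) < p := by exact_mod_cast hp
  have h1 : ((x : ℝ) ^ ((j : ℝ) / (200 : ℕ)) ≤ (p : ℝ) ↔ (j : ℝ) ≤ 200 * Real.log p / Real.log x) := by
    rw [← Real.log_le_log_iff (Real.rpow_pos_of_pos hx0 _) hp0, Real.log_rpow hx0, le_div_iff₀ hlx]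
    constructor <;> intro h <;> push_cast at * <;> linarith
  refine ⟨h1, ?_⟩
  rw [← not_le, h1, not_le]

private theorem ts_cl {x p : ℕ} (hx : 2 ≤ x) (hp : 0 < p) (j : ℕ) :
    ((x : ℝ) ^ ((j : ℝ) / (200 : ℕ)) ≤ (p : ℝ) ∧ (p : ℝ) < (x : ℝ) ^ (((j + 1 : ℕ) : ℝ) / (200 : ℕ))) ↔
      tsCl x p = j := by
  have hx1 : (1 : ℝ) < x := by exact_mod_cast (by omega : 1 < x)
  have hlx : 0 < Real.log x := Real.log_pos hx1
  have hp1 : (1 : ℝ) ≤ p := by exact_mod_cast hp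
  have h0 : 0 ≤ 200 * Real.log p / Real.log x :=
    div_nonneg (mul_nonneg (by norm_num) (Real.log_nonneg hp1)) hlx.le
  rw [(ts_rpow hx hp j).1, (ts_rpow hx hp (j + 1)).2, tsCl, Nat.floor_eq_iff h0]
  push_cast
  rfl

/-- the primes of the cell which divide `n` -/
private noncomputable def tsC (S : Dat) (x n : ℕ) (c : ZMod 3) (i j : ℕ) : Finset ℕ :=
  (S.cell x 200 c i j).filter fun p => p ∣ n

private theorem ts_mem {S : Dat} {x : ℕ} {c : ZMod 3} {i j p : ℕ} : p ∈ S.cell x 200 c i j ↔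
    p ≤ x ∧ p.Prime ∧ ¬ p ∣ S.m ∧ S.c p = c ∧
      (x : ℝ) ^ ((i : ℝ) / (200 : ℕ)) ≤ (p : ℝ) ∧ (p : ℝ) < (x : ℝ) ^ ((j : ℝ) / (200 : ℕ)) := by
  unfold Dat.cell
  rw [Finset.mem_filter, Finset.mem_range, Nat.lt_succ_iff]

private theorem ts_memC {S : Dat} {x n : ℕ} {c : ZMod 3} {i j p : ℕ} : p ∈ tsC S x n c i j ↔
    p ∈ S.cell x 200 c i j ∧ p ∣ n := by
  unfold tsC
  rw [Finset.mem_filter]

private theorem ts_maps {S : Dat} {x n : ℕ} (hx : 2 ≤ x) {c : ZMod 3} {i j p : ℕ}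
    (hp : p ∈ tsC S x n c i j) : tsCl x p ∈ Ico i j := by
  obtain ⟨h1, h2⟩ := ts_memC.1 hp
  obtain ⟨a1, a2, a3, a4, a5, a6⟩ := ts_mem.1 h1
  have hx1 : (1 : ℝ) < x := by exact_mod_cast (by omega : 1 < x)
  have hlx : 0 < Real.log x := Real.log_pos hx1
  have hp1 : (1 : ℝ) ≤ p := by exact_mod_cast a2.one_lt.le
  have h0 : 0 ≤ 200 * Real.log p / Real.log x :=
    div_nonneg (mul_nonneg (by norm_num) (Real.log_nonneg hp1)) hlx.le
  rw [Finset.mem_Ico, tsCl]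
  exact ⟨Nat.le_floor ((ts_rpow hx a2.pos i).1.1 a5),
    (Nat.floor_lt h0).2 ((ts_rpow hx a2.pos j).2.1 a6)⟩

private theorem ts_fiber {S : Dat} {x n : ℕ} (hx : 2 ≤ x) {c : ZMod 3} {i j a : ℕ}
    (ha : a ∈ Ico i j) : (tsC S x n c i j).filter (fun p => tsCl x p = a) = tsC S x n c a (a + 1) := by
  rw [Finset.mem_Ico] at ha
  have hx1 : (1 : ℝ) ≤ x := by exact_mod_cast (by omega : 1 ≤ x)
  have hmono : ∀ u v : ℕ, u ≤ v → (x : ℝ) ^ ((u : ℝ) / (200 : ℕ)) ≤ (x : ℝ) ^ ((v : ℝ) / (200 : ℕ)) := by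
    intro u v huv
    apply Real.rpow_le_rpow_of_exponent_le hx1
    have : (u : ℝ) ≤ v := by exact_mod_cast huv
    push_cast
    linarith
  ext p
  rw [Finset.mem_filter, ts_memC, ts_memC, ts_mem, ts_mem]
  constructor
  · rintro ⟨⟨⟨a1, a2, a3, a4, a5, a6⟩, a7⟩, a8⟩
    have := (ts_cl hx a2.pos a).2 a8
    exact ⟨⟨a1, a2, a3, a4, this.1, this.2⟩, a7⟩
  · rintro ⟨⟨a1, a2, a3, a4, a5, a6⟩, a7⟩
    exact ⟨⟨⟨a1, a2, a3, a4, (hmono i a ha.1).trans a5, a6.trans_le (hmono (a + 1) j ha.2)⟩, a7⟩,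
      (ts_cl hx a2.pos a).1 ⟨a5, a6⟩⟩

private theorem ts_sum {S : Dat} {x n : ℕ} (hx : 2 ≤ x) {c : ZMod 3} {i j : ℕ} (f : ℕ → ℝ) :
    ∑ p ∈ tsC S x n c i j, f p = ∑ a ∈ Ico i j, ∑ p ∈ tsC S x n c a (a + 1), f p := by
  rw [← Finset.sum_fiberwise_of_maps_to (fun p hp => ts_maps hx hp) f]
  exact Finset.sum_congr rfl fun a ha => by rw [ts_fiber hx ha]

private theorem ts_card {S : Dat} {x n : ℕ} (hx : 2 ≤ x) {c : ZMod 3} {i j : ℕ} :
    ((tsC S x n c i j).card : ℝ) = ∑ a ∈ Ico i j, ((tsC S x n c a (a + 1)).card : ℝ) := by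
  have := ts_sum (S := S) (n := n) (c := c) (i := i) (j := j) hx (fun _ => (1 : ℝ))
  simpa only [Finset.sum_const, nsmul_eq_mul, mul_one] using this

/-- a prime of a lower cell is smaller -/
private theorem ts_lt {S : Dat} {x : ℕ} (hx : 2 ≤ x) {c c' : ZMod 3} {a b p p' : ℕ} (hab : a < b)
    (hp : p ∈ S.cell x 200 c a (a + 1)) (hp' : p' ∈ S.cell x 200 c' b (b + 1)) : p < p' := by
  have h1 := (ts_mem.1 hp).2.2.2.2.2
  have h2 := (ts_mem.1 hp').2.2.2.2.1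
  have hx1 : (1 : ℝ) ≤ x := by exact_mod_cast (by omega : 1 ≤ x)
  have h3 : (x : ℝ) ^ (((a + 1 : ℕ) : ℝ) / (200 : ℕ)) ≤ (x : ℝ) ^ ((b : ℝ) / (200 : ℕ)) := by
    apply Real.rpow_le_rpow_of_exponent_le hx1
    have : ((a + 1 : ℕ) : ℝ) ≤ b := by exact_mod_cast hab
    push_cast at *
    linarith
  exact_mod_cast h1.trans_le (h3.trans h2)

private theorem ts_ne {S : Dat} {x : ℕ} (hx : 2 ≤ x) {c : ZMod 3} {a b p p' : ℕ} (hab : c ≠ 2 ∨ b < a)
    (hp : p ∈ S.cell x 200 c a (a + 1)) (hp' : p' ∈ S.cell x 200 2 b (b + 1)) : p ≠ p' := by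
  rintro rfl
  rcases hab with h | h
  · exact h ((ts_mem.1 hp).2.2.2.1.symm.trans (ts_mem.1 hp').2.2.2.1)
  · exact lt_irrefl _ (ts_lt hx h hp' hp)

/-- the linear functionals -/
private noncomputable def tsL1 (S : Dat) (x : ℕ) (c : ZMod 3) (a : ℕ) : (ℕ → ℝ) →ₗ[ℝ] ℝ :=
  ∑ p ∈ S.cell x 200 c a (a + 1), LinearMap.proj p

private noncomputable def tsL2 (S : Dat) (x : ℕ) (c : ZMod 3) (a b : ℕ) : (ℕ → ℝ) →ₗ[ℝ] ℝ :=
  ∑ p ∈ S.cell x 200 c a (a + 1), ∑ p1 ∈ S.cell x 200 2 b (b + 1), LinearMap.proj (p * p1)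

private noncomputable def tsL3 (S : Dat) (x : ℕ) (c : ZMod 3) (a b l : ℕ) : (ℕ → ℝ) →ₗ[ℝ] ℝ :=
  ∑ p ∈ S.cell x 200 c a (a + 1), ∑ p1 ∈ S.cell x 200 2 b (b + 1),
    ∑ p2 ∈ (S.cell x 200 2 l (l + 1)).filter (fun p2 => p2 < p1), LinearMap.proj (p * p1 * p2)

private noncomputable def tsB (S : Dat) (x : ℕ) (c : ZMod 3) (a b : ℕ) : (ℕ → ℝ) →ₗ[ℝ] ℝ :=
  if usd a b then
    tsL2 S x c a b - (∑ l ∈ Ico 16 b, tsL3 S x c a b l) - tsL3 S x c a b b else 0

private noncomputable def tsT (S : Dat) (x : ℕ) : (ℕ → ℝ) →ₗ[ℝ] ℝ :=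
  LinearMap.proj 1 - (∑ j ∈ Ico 16 65, tsL1 S x 2 j) +
      (∑ i ∈ Ico 16 65, ∑ j ∈ Ico 16 i, tsB S x 2 i j) -
      (1 / 2 : ℝ) • (∑ a ∈ Ico 16 46, (tsL1 S x 1 a - ∑ j ∈ Ico 16 65, tsB S x 1 a j)) -
      (1 / 2 : ℝ) • (∑ a ∈ Ico 65 76, tsL1 S x 2 a)

private theorem tsL1_apply (S : Dat) (x : ℕ) (c : ZMod 3) (a : ℕ) (g : ℕ → ℝ) :
    tsL1 S x c a g = ∑ p ∈ S.cell x 200 c a (a + 1), g p := by
  simp only [tsL1, LinearMap.sum_apply, LinearMap.proj_apply]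

private theorem tsL2_apply (S : Dat) (x : ℕ) (c : ZMod 3) (a b : ℕ) (g : ℕ → ℝ) :
    tsL2 S x c a b g = ∑ p ∈ S.cell x 200 c a (a + 1), ∑ p1 ∈ S.cell x 200 2 b (b + 1), g (p * p1) := by
  simp only [tsL2, LinearMap.sum_apply, LinearMap.proj_apply]

private theorem tsL3_apply (S : Dat) (x : ℕ) (c : ZMod 3) (a b l : ℕ) (g : ℕ → ℝ) :
    tsL3 S x c a b l g = ∑ p ∈ S.cell x 200 c a (a + 1), ∑ p1 ∈ S.cell x 200 2 b (b + 1),
      ∑ p2 ∈ (S.cell x 200 2 l (l + 1)).filter (fun p2 => p2 < p1), g (p * p1 * p2) := by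
  simp only [tsL3, LinearMap.sum_apply, LinearMap.proj_apply]

private theorem tsB_apply (S : Dat) (x : ℕ) (c : ZMod 3) (a b : ℕ) (g : ℕ → ℝ) :
    tsB S x c a b g = if usd a b then
      tsL2 S x c a b g - (∑ l ∈ Ico 16 b, tsL3 S x c a b l g) - tsL3 S x c a b b g else 0 := by
  unfold tsB
  split_ifs
  · simp only [LinearMap.sub_apply, LinearMap.sum_apply]
  · rfl

private theorem tsT_apply (S : Dat) (x : ℕ) (g : ℕ → ℝ) :
    tsT S x g = g 1 - (∑ j ∈ Ico 16 65, tsL1 S x 2 j g) +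
      (∑ i ∈ Ico 16 65, ∑ j ∈ Ico 16 i, tsB S x 2 i j g) -
      (1 / 2) * (∑ a ∈ Ico 16 46, (tsL1 S x 1 a g - ∑ j ∈ Ico 16 65, tsB S x 1 a j g)) -
      (1 / 2) * (∑ a ∈ Ico 65 76, tsL1 S x 2 a g) := by
  simp only [tsT, LinearMap.sub_apply, LinearMap.add_apply, LinearMap.smul_apply,
    LinearMap.sum_apply, LinearMap.proj_apply, smul_eq_mul]

/-- the indicator of the divisors -/
private noncomputable def tsg (n e : ℕ) : ℝ := if e ∣ n then 1 else 0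

private theorem tsg_mul {n p q : ℕ} (h : p.Coprime q) : tsg n (p * q) = tsg n p * tsg n q := by
  have hiff : p * q ∣ n ↔ p ∣ n ∧ q ∣ n :=
    ⟨fun hd => ⟨dvd_trans (Dvd.intro _ rfl) hd, dvd_trans (Dvd.intro_left _ rfl) hd⟩,
      fun hd => Nat.Coprime.mul_dvd_of_dvd_of_dvd h hd.1 hd.2⟩
  unfold tsg
  by_cases h1 : p ∣ n <;> by_cases h2 : q ∣ n <;> simp [hiff, h1, h2]

private theorem tsg_sum {n : ℕ} (s : Finset ℕ) (f : ℕ → ℝ) :
    ∑ p ∈ s, tsg n p * f p = ∑ p ∈ s.filter (fun p => p ∣ n), f p := by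
  rw [Finset.sum_filter]
  refine Finset.sum_congr rfl fun p _ => ?_
  unfold tsg
  split <;> simp

private theorem ts_L1 (S : Dat) (x n : ℕ) (c : ZMod 3) (a : ℕ) :
    tsL1 S x c a (tsg n) = ((tsC S x n c a (a + 1)).card : ℝ) := by
  rw [tsL1_apply]
  have := tsg_sum (n := n) (S.cell x 200 c a (a + 1)) (fun _ => (1 : ℝ))
  simp only [mul_one] at this
  rw [this]
  simp [tsC]

private theorem ts_L2 (S : Dat) {x : ℕ} (hx : 2 ≤ x) (n : ℕ) (c : ZMod 3) (a b : ℕ) (hab : c ≠ 2 ∨ b < a) :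
    tsL2 S x c a b (tsg n) = ∑ _p ∈ tsC S x n c a (a + 1), ∑ _p1 ∈ tsC S x n 2 b (b + 1), (1 : ℝ) := by
  rw [tsL2_apply]
  have h1 : ∀ p ∈ S.cell x 200 c a (a + 1), ∑ p1 ∈ S.cell x 200 2 b (b + 1), tsg n (p * p1) =
      tsg n p * ∑ _p1 ∈ tsC S x n 2 b (b + 1), (1 : ℝ) := by
    intro p hp
    rw [show (∑ _p1 ∈ tsC S x n 2 b (b + 1), (1 : ℝ)) = ∑ p1 ∈ S.cell x 200 2 b (b + 1), tsg n p1 * 1 from
      (tsg_sum _ _).symm, Finset.mul_sum]
    refine Finset.sum_congr rfl fun p1 hp1 => ?_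
    rw [mul_one, tsg_mul]
    exact (Nat.coprime_primes (ts_mem.1 hp).2.1 (ts_mem.1 hp1).2.1).2 (ts_ne hx hab hp hp1)
  rw [Finset.sum_congr rfl h1, tsg_sum (n := n) _ (fun _ => ∑ _p1 ∈ tsC S x n 2 b (b + 1), (1 : ℝ))]
  rfl

private theorem ts_L3 (S : Dat) {x : ℕ} (hx : 2 ≤ x) (n : ℕ) (c : ZMod 3) (a b l : ℕ) (hab : c ≠ 2 ∨ b < a)
    (hl : l ≤ b) :
    tsL3 S x c a b l (tsg n) = ∑ _p ∈ tsC S x n c a (a + 1), ∑ p1 ∈ tsC S x n 2 b (b + 1),
      ∑ p2 ∈ tsC S x n 2 l (l + 1), (if p2 < p1 then (1 : ℝ) else 0) := by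
  rw [tsL3_apply]
  have h1 : ∀ p ∈ S.cell x 200 c a (a + 1), ∑ p1 ∈ S.cell x 200 2 b (b + 1),
      ∑ p2 ∈ (S.cell x 200 2 l (l + 1)).filter (fun p2 => p2 < p1), tsg n (p * p1 * p2) =
      tsg n p * ∑ p1 ∈ tsC S x n 2 b (b + 1), ∑ p2 ∈ tsC S x n 2 l (l + 1),
        (if p2 < p1 then (1 : ℝ) else 0) := by
    intro p hp
    rw [show (∑ p1 ∈ tsC S x n 2 b (b + 1), ∑ p2 ∈ tsC S x n 2 l (l + 1),
        (if p2 < p1 then (1 : ℝ) else 0)) = ∑ p1 ∈ S.cell x 200 2 b (b + 1), tsg n p1 *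
          ∑ p2 ∈ tsC S x n 2 l (l + 1), (if p2 < p1 then (1 : ℝ) else 0) from
      (tsg_sum _ _).symm, Finset.mul_sum]
    refine Finset.sum_congr rfl fun p1 hp1 => ?_
    rw [show (∑ p2 ∈ tsC S x n 2 l (l + 1), (if p2 < p1 then (1 : ℝ) else 0)) =
      ∑ p2 ∈ S.cell x 200 2 l (l + 1), tsg n p2 * (if p2 < p1 then (1 : ℝ) else 0) from
      (tsg_sum _ _).symm, Finset.mul_sum, Finset.mul_sum, Finset.sum_filter]
    refine Finset.sum_congr rfl fun p2 hp2 => ?_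
    have c1 : p.Coprime p1 :=
      (Nat.coprime_primes (ts_mem.1 hp).2.1 (ts_mem.1 hp1).2.1).2 (ts_ne hx hab hp hp1)
    have c2 : p.Coprime p2 :=
      (Nat.coprime_primes (ts_mem.1 hp).2.1 (ts_mem.1 hp2).2.1).2
        (ts_ne hx (hab.imp_right fun h => hl.trans_lt h) hp hp2)
    split_ifs with h
    · have c3 : p1.Coprime p2 :=
        (Nat.coprime_primes (ts_mem.1 hp1).2.1 (ts_mem.1 hp2).2.1).2 (Nat.ne_of_gt h)
      rw [tsg_mul (Nat.Coprime.mul_left c2 c3), tsg_mul c1]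
      ring
    · simp
  rw [Finset.sum_congr rfl h1, tsg_sum (n := n) _ (fun _ => ∑ p1 ∈ tsC S x n 2 b (b + 1),
    ∑ p2 ∈ tsC S x n 2 l (l + 1), (if p2 < p1 then (1 : ℝ) else 0))]
  rfl

/-- the number of the smaller primes -/
private noncomputable def tsN (S : Dat) (x n p1 : ℕ) : ℝ :=
  ∑ p ∈ tsC S x n 2 16 65, (if p < p1 then (1 : ℝ) else 0)

private theorem tsN_eq (S : Dat) {x : ℕ} (hx : 2 ≤ x) (n b p1 : ℕ) (hb : 16 ≤ b) (hb' : b < 65)
    (hp1 : p1 ∈ tsC S x n 2 b (b + 1)) :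
    tsN S x n p1 = (∑ l ∈ Ico 16 b, ∑ p2 ∈ tsC S x n 2 l (l + 1), (if p2 < p1 then (1 : ℝ) else 0)) +
      ∑ p2 ∈ tsC S x n 2 b (b + 1), (if p2 < p1 then (1 : ℝ) else 0) := by
  unfold tsN
  rw [ts_sum hx]
  have h1 : ∑ l ∈ Ico 16 65, ∑ p2 ∈ tsC S x n 2 l (l + 1), (if p2 < p1 then (1 : ℝ) else 0) =
      ∑ l ∈ Ico 16 (b + 1), ∑ p2 ∈ tsC S x n 2 l (l + 1), (if p2 < p1 then (1 : ℝ) else 0) := by
    symm
    apply Finset.sum_subset
    · intro l hl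
      rw [Finset.mem_Ico] at *
      omega
    · intro l hl hl'
      rw [Finset.mem_Ico] at hl hl'
      refine Finset.sum_eq_zero fun p2 hp2 => ?_
      rw [if_neg]
      have := ts_lt hx (by omega : b < l) (ts_memC.1 hp1).1 (ts_memC.1 hp2).1
      omega
  rw [h1, Finset.sum_Ico_succ_top hb]

private theorem ts_B (S : Dat) {x : ℕ} (hx : 2 ≤ x) (n : ℕ) (c : ZMod 3) (a b : ℕ) (hab : c ≠ 2 ∨ b < a)
    (hb : 16 ≤ b) (hb' : b < 65) :
    tsB S x c a b (tsg n) = if usd a b then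
      ∑ _p ∈ tsC S x n c a (a + 1), ∑ p1 ∈ tsC S x n 2 b (b + 1), (1 - tsN S x n p1) else 0 := by
  rw [tsB_apply]
  split_ifs with h
  · have h3 : ∀ l ∈ Ico 16 b, tsL3 S x c a b l (tsg n) = ∑ _p ∈ tsC S x n c a (a + 1),
        ∑ p1 ∈ tsC S x n 2 b (b + 1), ∑ p2 ∈ tsC S x n 2 l (l + 1), (if p2 < p1 then (1 : ℝ) else 0) := by
      intro l hl
      exact ts_L3 S hx n c a b l hab (Finset.mem_Ico.1 hl).2.le
    rw [ts_L2 S hx n c a b hab, Finset.sum_congr rfl h3, ts_L3 S hx n c a b b hab le_rfl,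
      Finset.sum_comm (s := Ico 16 b), ← Finset.sum_sub_distrib, ← Finset.sum_sub_distrib]
    refine Finset.sum_congr rfl fun p _ => ?_
    rw [Finset.sum_comm (s := Ico 16 b), ← Finset.sum_sub_distrib, ← Finset.sum_sub_distrib]
    refine Finset.sum_congr rfl fun p1 hp1 => ?_
    rw [tsN_eq S hx n b p1 hb hb' hp1]
    ring
  · rfl

private theorem tsN_card (S : Dat) (x n p1 : ℕ) :
    tsN S x n p1 = (((tsC S x n 2 16 65).filter fun p => p < p1).card : ℝ) := by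
  unfold tsN
  rw [Finset.sum_ite, Finset.sum_const_zero, add_zero, Finset.sum_const, nsmul_eq_mul, mul_one]

open scoped Classical in
private theorem ts_key (S : Dat) {x : ℕ} (hx : 2 ≤ x) (n : ℕ) :
    tsT S x (tsg n) ≤ (if tsC S x n 2 16 65 = ∅ then (1 : ℝ) else 0) *
      (1 - (1 / 2) * (((tsC S x n 1 16 46).card : ℝ) + ((tsC S x n 2 65 76).card : ℝ))) := by
  set C := tsC S x n 2 16 65 with hC
  set θ : ℝ := if C = ∅ then (1 : ℝ) else 0 with hθ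
  rw [tsT_apply]
  -- the part A
  have hA : tsg n 1 - (∑ j ∈ Ico 16 65, tsL1 S x 2 j (tsg n)) +
      (∑ i ∈ Ico 16 65, ∑ j ∈ Ico 16 i, tsB S x 2 i j (tsg n)) ≤ θ := by
    have h1 := pw1 C (fun p1 p2 => tsCl x p2 < tsCl x p1 ∧ usd (tsCl x p1) (tsCl x p2) = true)
    have h2 : (∑ i ∈ Ico 16 65, ∑ j ∈ Ico 16 i, tsB S x 2 i j (tsg n)) =
        ∑ p1 ∈ C, ∑ p2 ∈ C.filter (fun p2 => p2 < p1 ∧
          (tsCl x p2 < tsCl x p1 ∧ usd (tsCl x p1) (tsCl x p2) = true)),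
          (1 - ((C.filter fun p3 => p3 < p2).card : ℝ)) := by
      rw [hC, ts_sum hx]
      refine Finset.sum_congr rfl fun i hi => ?_
      rw [Finset.mem_Ico] at hi
      have h3 : ∀ p1 ∈ tsC S x n 2 i (i + 1), ∑ p2 ∈ (tsC S x n 2 16 65).filter (fun p2 => p2 < p1 ∧
          (tsCl x p2 < tsCl x p1 ∧ usd (tsCl x p1) (tsCl x p2) = true)),
          (1 - (((tsC S x n 2 16 65).filter fun p3 => p3 < p2).card : ℝ)) =
          ∑ j ∈ Ico 16 i, ∑ p2 ∈ tsC S x n 2 j (j + 1),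
            if usd i j then (1 - tsN S x n p2) else 0 := by
        intro p1 hp1
        have hi1 : tsCl x p1 = i := by
          have := ts_maps hx hp1
          rw [Finset.mem_Ico] at this
          omega
        rw [Finset.sum_filter, ts_sum hx]
        have h4 : ∑ j ∈ Ico 16 65, ∑ p2 ∈ tsC S x n 2 j (j + 1), (if p2 < p1 ∧
            (tsCl x p2 < tsCl x p1 ∧ usd (tsCl x p1) (tsCl x p2) = true) then
              (1 - (((tsC S x n 2 16 65).filter fun p3 => p3 < p2).card : ℝ)) else 0) =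
            ∑ j ∈ Ico 16 i, ∑ p2 ∈ tsC S x n 2 j (j + 1), (if p2 < p1 ∧
            (tsCl x p2 < tsCl x p1 ∧ usd (tsCl x p1) (tsCl x p2) = true) then
              (1 - (((tsC S x n 2 16 65).filter fun p3 => p3 < p2).card : ℝ)) else 0) := by
          symm
          apply Finset.sum_subset
          · intro l hl
            rw [Finset.mem_Ico] at *
            omega
          · intro l hl hl'
            rw [Finset.mem_Ico] at hl hl'
            refine Finset.sum_eq_zero fun p2 hp2 => ?_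
            have hl2 : tsCl x p2 = l := by
              have := ts_maps hx hp2
              rw [Finset.mem_Ico] at this
              omega
            rw [if_neg]
            rintro ⟨_, h5, _⟩
            omega
        rw [h4]
        refine Finset.sum_congr rfl fun j hj => Finset.sum_congr rfl fun p2 hp2 => ?_
        rw [Finset.mem_Ico] at hj
        have hj2 : tsCl x p2 = j := by
          have := ts_maps hx hp2
          rw [Finset.mem_Ico] at this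
          omega
        have hlt : p2 < p1 := ts_lt hx hj.2 (ts_memC.1 hp2).1 (ts_memC.1 hp1).1
        rw [tsN_card, hi1, hj2]
        by_cases h6 : usd i j = true
        · rw [if_pos ⟨hlt, hj.2, h6⟩, if_pos h6]
        · rw [if_neg (fun h => h6 h.2.2), if_neg h6]
      rw [Finset.sum_congr rfl h3, Finset.sum_comm]
      refine Finset.sum_congr rfl fun j hj => ?_
      rw [Finset.mem_Ico] at hj
      rw [ts_B S hx n 2 i j (Or.inr hj.2) hj.1 (by omega)]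
      split_ifs <;> simp
    have h5 : tsg n 1 = 1 := by simp [tsg]
    have h6 : (∑ j ∈ Ico 16 65, tsL1 S x 2 j (tsg n)) = (C.card : ℝ) := by
      rw [hC, ts_card hx]
      exact Finset.sum_congr rfl fun j _ => ts_L1 S x n 2 j
    rw [h2, h5, h6]
    exact h1
  -- the part B
  have hB : ((tsC S x n 1 16 46).card : ℝ) * θ ≤
      ∑ a ∈ Ico 16 46, (tsL1 S x 1 a (tsg n) - ∑ j ∈ Ico 16 65, tsB S x 1 a j (tsg n)) := by
    rw [ts_card hx, Finset.sum_mul]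
    refine Finset.sum_le_sum fun a _ => ?_
    rw [ts_L1]
    have h1 := pw2 C (fun p1 => usd a (tsCl x p1) = true)
    have h2 : ∑ j ∈ Ico 16 65, tsB S x 1 a j (tsg n) = ((tsC S x n 1 a (a + 1)).card : ℝ) *
        ∑ p1 ∈ C.filter (fun p1 => usd a (tsCl x p1) = true),
          (1 - ((C.filter fun p2 => p2 < p1).card : ℝ)) := by
      rw [hC, Finset.sum_filter, ts_sum hx, Finset.mul_sum]
      refine Finset.sum_congr rfl fun j hj => ?_
      rw [Finset.mem_Ico] at hj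
      rw [ts_B S hx n 1 a j (Or.inl (by decide)) hj.1 hj.2]
      have h3 : ∀ p1 ∈ tsC S x n 2 j (j + 1), (if usd a (tsCl x p1) = true then
          (1 - (((tsC S x n 2 16 65).filter fun p2 => p2 < p1).card : ℝ)) else 0) =
          if usd a j = true then (1 - tsN S x n p1) else 0 := by
        intro p1 hp1
        have hj2 : tsCl x p1 = j := by
          have := ts_maps hx hp1
          rw [Finset.mem_Ico] at this
          omega
        rw [hj2, tsN_card]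
      rw [Finset.sum_congr rfl h3]
      split_ifs
      · rw [Finset.sum_const, nsmul_eq_mul]
      · simp
    rw [h2]
    have h4 : (0 : ℝ) ≤ ((tsC S x n 1 a (a + 1)).card : ℝ) := Nat.cast_nonneg _
    have h5 := mul_le_mul_of_nonneg_left h1 h4
    calc ((tsC S x n 1 a (a + 1)).card : ℝ) * θ ≤ _ := h5
      _ = _ := by ring
  have hB2 : ((tsC S x n 2 65 76).card : ℝ) * θ ≤ ∑ a ∈ Ico 65 76, tsL1 S x 2 a (tsg n) := by
    have h1 : ∑ a ∈ Ico 65 76, tsL1 S x 2 a (tsg n) = ((tsC S x n 2 65 76).card : ℝ) := by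
      rw [ts_card hx]
      exact Finset.sum_congr rfl fun j _ => ts_L1 S x n 2 j
    rw [h1]
    have h2 : θ ≤ 1 := by
      rw [hθ]
      split <;> norm_num
    calc _ ≤ ((tsC S x n 2 65 76).card : ℝ) * 1 :=
          mul_le_mul_of_nonneg_left h2 (Nat.cast_nonneg _)
      _ = _ := mul_one _
  nlinarith [hA, hB, hB2]

open scoped Classical in
private theorem ts_wt (S : Dat) {x : ℕ} (hx : 2 ≤ x) (n : ℕ) (hn : 1 ≤ n) (hc : n.Coprime S.m) :
    S.wt x n = 1 - (1 / 2) * (((tsC S x n 1 16 46).card : ℝ) + ((tsC S x n 2 65 76).card : ℝ)) := by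
  have hx1 : (1 : ℝ) ≤ x := by exact_mod_cast (by omega : 1 ≤ x)
  have hxle : ∀ (p j : ℕ), j ≤ 200 → (p : ℝ) < (x : ℝ) ^ ((j : ℝ) / (200 : ℕ)) → p ≤ x := by
    intro p j hj h
    have h1 : (x : ℝ) ^ ((j : ℝ) / (200 : ℕ)) ≤ (x : ℝ) ^ (1 : ℝ) := by
      apply Real.rpow_le_rpow_of_exponent_le hx1
      have : (j : ℝ) ≤ 200 := by exact_mod_cast hj
      push_cast
      linarith
    rw [Real.rpow_one] at h1
    exact_mod_cast (h.trans_le h1).le
  have h1 : (n.primeFactors.filter fun p => S.half x p) =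
      tsC S x n 1 16 46 ∪ tsC S x n 2 65 76 := by
    ext p
    rw [Finset.mem_filter, Finset.mem_union, ts_memC, ts_memC, ts_mem, ts_mem, Nat.mem_primeFactors,
      Dat.half]
    have hpm : p.Prime → p ∣ n → ¬ p ∣ S.m := by
      intro h1 h2 h3
      have := Nat.eq_one_of_dvd_coprimes hc h2 h3
      exact h1.one_lt.ne' this
    constructor
    · rintro ⟨⟨b1, b2, b3⟩, ⟨b4, b5, b6⟩ | ⟨b4, b5, b6⟩⟩
      · right
        refine ⟨⟨hxle p 76 (by norm_num) (by push_cast; exact b6), b1, hpm b1 b2, b4, ?_, ?_⟩, b2⟩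
        · push_cast; exact b5
        · push_cast; exact b6
      · left
        refine ⟨⟨hxle p 46 (by norm_num) (by push_cast; exact b6), b1, hpm b1 b2, b4, ?_, ?_⟩, b2⟩
        · push_cast; exact b5
        · push_cast; exact b6
    · rintro (⟨⟨b1, b2, b3, b4, b5, b6⟩, b7⟩ | ⟨⟨b1, b2, b3, b4, b5, b6⟩, b7⟩)
      · refine ⟨⟨b2, b7, by omega⟩, Or.inr ⟨b4, ?_, ?_⟩⟩
        · push_cast at b5; exact b5
        · push_cast at b6; exact b6
      · refine ⟨⟨b2, b7, by omega⟩, Or.inl ⟨b4, ?_, ?_⟩⟩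
        · push_cast at b5; exact b5
        · push_cast at b6; exact b6
  have h2 : Disjoint (tsC S x n 1 16 46) (tsC S x n 2 65 76) := by
    rw [Finset.disjoint_left]
    intro p hp hp'
    have e1 := (ts_mem.1 (ts_memC.1 hp).1).2.2.2.1
    have e2 := (ts_mem.1 (ts_memC.1 hp').1).2.2.2.1
    rw [e1] at e2
    exact absurd e2 (by decide)
  rw [Dat.wt, h1, Finset.card_union_of_disjoint h2]
  push_cast
  ring

private theorem ts_Sf (S : Dat) (x : ℕ) (z : ℝ) (e : ℕ) :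
    Sf (S.I x) vm S.nv S.m z e =
      ∑ k ∈ S.I x, (vm k * (if ∀ p ∈ pr S.m 0 z, ¬ p ∣ S.nv k then (1 : ℝ) else 0)) * tsg (S.nv k) e := by
  unfold Sf
  refine Finset.sum_congr rfl fun k _ => ?_
  unfold tsg
  by_cases h1 : e ∣ S.nv k
  · by_cases h2 : ∀ p ∈ pr S.m 0 z, ¬ p ∣ S.nv k
    · rw [if_pos ⟨h1, h2⟩, if_pos h2, if_pos h1]
      ring
    · rw [if_neg (fun h => h2 h.2), if_neg h2]
      ring
  · rw [if_neg (fun h => h1 h.1), if_neg h1]
    ring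

end TAU_SUM

open scoped Classical in
/-- MODULE TAU_SUM: the combinatorial inequality, summed over the family.
Proof: fix `k ∈ S.I x`, `n = nv k ≥ 1`.  If some `p ∈ pr m 0 z` divides `n`, all terms vanish for this `k` (in `Sf` too).
Otherwise let `C` be the set of the primes `p ∣ n` in `S.cell x 200 2 16 65` and `Z` the set of `p ∈ n.primeFactors` with
`S.half x p`.  `S.cell x 200 2 16 65` is the disjoint union of the cells `j, 16 ≤ j < 65`; `Z` is the disjoint union of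
the primes of `n` in the cells `a ∈ [16, 46)` of class 1 and `a ∈ [65, 76)` of class 2 (for `p ∣ n`: `p` prime to `m`,
`p ≤ x` as `p < x^(76/200)`).  The left side for `k` is `[C = ∅] (1 - #Z/2) = [C = ∅] - (1/2) ∑_{p ∈ Z} [C = ∅]`.
Apply PW1 with `T p1 p2` = 'the cells `i` of `p1` and `j` of `p2` satisfy `j < i` and `usd i j`' and, for `p ∈ Z` in the
cell `a`, PW2 with `T p1` = '`usd a j`, `j` = cell of `p1`' (for `a ≥ 65` nothing is used since `a + j > 65`).  The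
numbers `#{p3 ∈ C : p3 < p2}` = sum over the cells `l < j` of the number of primes of `C` in the cell `l`, plus the
number in the cell `j` that are `< p2`; in `S3 .. i j l` with `l < j` the condition `p2 < p1` is automatic.  Since the
primes are distinct, `[p1 ∣ n][p2 ∣ n] = [p1 p2 ∣ n]` etc.  Multiply by `Λ(k)` and sum. -/
theorem tau_sum (S : Dat) : ∃ x0 : ℕ, ∀ x : ℕ, x0 ≤ x →
    Sf (S.I x) vm S.nv S.m ((x : ℝ) ^ ((16 : ℝ) / 200)) 1 - (∑ j ∈ Ico 16 65, S1 S x 2 j) +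
      (∑ i ∈ Ico 16 65, ∑ j ∈ Ico 16 i, if usd i j then
        S2 S x 2 i j - (∑ l ∈ Ico 16 j, S3 S x 2 i j l) - S3 S x 2 i j j else 0) -
      (1 / 2) * (∑ a ∈ Ico 16 46, (S1 S x 1 a - ∑ j ∈ Ico 16 65, if usd a j then
        S2 S x 1 a j - (∑ l ∈ Ico 16 j, S3 S x 1 a j l) - S3 S x 1 a j j else 0)) -
      (1 / 2) * (∑ a ∈ Ico 65 76, S1 S x 2 a) ≤
    ∑ k ∈ S.I x, if S.Surv x (S.nv k) then vm k * S.wt x (S.nv k) else 0 := by
  obtain ⟨-, -, hd3, hd4⟩ := dat_basic S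
  refine ⟨2 * S.a.natAbs + 2, fun x hx => ?_⟩
  have hx2 : 2 ≤ x := by omega
  set z : ℝ := (x : ℝ) ^ ((16 : ℝ) / 200) with hz
  have e1 : Sf (S.I x) vm S.nv S.m z 1 - (∑ j ∈ Ico 16 65, S1 S x 2 j) +
      (∑ i ∈ Ico 16 65, ∑ j ∈ Ico 16 i, if usd i j then
        S2 S x 2 i j - (∑ l ∈ Ico 16 j, S3 S x 2 i j l) - S3 S x 2 i j j else 0) -
      (1 / 2) * (∑ a ∈ Ico 16 46, (S1 S x 1 a - ∑ j ∈ Ico 16 65, if usd a j then
        S2 S x 1 a j - (∑ l ∈ Ico 16 j, S3 S x 1 a j l) - S3 S x 1 a j j else 0)) -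
      (1 / 2) * (∑ a ∈ Ico 65 76, S1 S x 2 a) = tsT S x (Sf (S.I x) vm S.nv S.m z) := by
    rw [tsT_apply]
    simp only [tsB_apply, tsL1_apply, tsL2_apply, tsL3_apply, S1, S2, S3, ← hz]
  have e2 : Sf (S.I x) vm S.nv S.m z = ∑ k ∈ S.I x,
      (vm k * (if ∀ p ∈ pr S.m 0 z, ¬ p ∣ S.nv k then (1 : ℝ) else 0)) • tsg (S.nv k) := by
    ext e
    rw [ts_Sf, Finset.sum_apply]
    rfl
  rw [e1, e2, map_sum]
  refine Finset.sum_le_sum fun k hk => ?_
  rw [map_smul, smul_eq_mul]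
  obtain ⟨g1, g2, -, -⟩ := hd4 x hx k hk
  have hkq : k ≡ S.q0 [MOD S.m] := by
    have := hk
    unfold Dat.I at this
    rw [Finset.mem_filter] at this
    exact this.2
  have g3 := (hd3 k hkq g1).2
  have hvm : 0 ≤ vm k := ArithmeticFunction.vonMangoldt_nonneg
  have hkey := ts_key S hx2 (S.nv k)
  have hwt := ts_wt S hx2 (S.nv k) g2 g3
  rw [← hwt] at hkey
  by_cases h1 : ∀ p ∈ pr S.m 0 z, ¬ p ∣ S.nv k
  · rw [if_pos h1, mul_one]
    by_cases h2 : tsC S x (S.nv k) 2 16 65 = ∅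
    · have h3 : S.Surv x (S.nv k) := by
        refine ⟨h1, fun p hp hd => ?_⟩
        have h4 : p ∈ tsC S x (S.nv k) 2 16 65 := ts_memC.2 ⟨hp, hd⟩
        rw [h2] at h4
        exact absurd h4 (Finset.notMem_empty p)
      rw [if_pos h3]
      rw [if_pos h2, one_mul] at hkey
      exact mul_le_mul_of_nonneg_left hkey hvm
    · have h3 : ¬ S.Surv x (S.nv k) := by
        rintro ⟨-, h4⟩
        apply h2
        rw [Finset.eq_empty_iff_forall_notMem]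
        intro p hp
        exact h4 p (ts_memC.1 hp).1 (ts_memC.1 hp).2
      rw [if_neg h3]
      rw [if_neg h2, zero_mul] at hkey
      exact mul_nonpos_of_nonneg_of_nonpos hvm hkey
  · rw [if_neg h1, mul_zero, zero_mul]
    have h3 : ¬ S.Surv x (S.nv k) := fun h => h1 h.1
    rw [if_neg h3]

end Pool.Agent.CC
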