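import Pool.Agent.CC.SE
import Pool.Agent.CC.SupT
import Pool.Agent.BGV.Chain

/-! CC, part F: the primes `k` (weight `Λ`), values `n = a + k d`. -/

set_option autoImplicit false

namespace Pool.Agent.CC

open Finset

/-- the weight -/
noncomputable def vm (k : ℕ) : ℝ := ArithmeticFunction.vonMangoldt k

/-- MODULE DATA.  Simple consequences of the axioms of `Dat`: `a ≠ 0`, `2 ∣ m`, and for `k ≡ q0 mod m` with `a + k d > 0`:
`nv k` is prime to `m`. -/
theorem dat_basic (S : Dat) : S.a ≠ 0 ∧ 2 ∣ S.m ∧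
    (∀ k : ℕ, k ≡ S.q0 [MOD S.m] → 0 < S.a + k * S.d → ((S.nv k : ℕ) : ℤ) = S.a + k * S.d ∧ (S.nv k).Coprime S.m) ∧
    (∀ x : ℕ, 2 * S.a.natAbs + 2 ≤ x → ∀ k ∈ S.I x, 0 < S.a + k * S.d ∧ 1 ≤ S.nv k ∧
      (x : ℝ) / 2 * S.d ≤ (S.nv k : ℝ) ∧ (S.nv k : ℝ) ≤ 3 * S.d * x) := by
  refine ⟨?_, ?_, ?_, ?_⟩
  · intro h0
    obtain ⟨p, hp1, hp2⟩ := Nat.exists_infinite_primes (S.m + 1)
    have h1 := S.hp p hp2 (by rw [h0]; simp)
    have h2 := Nat.le_of_dvd S.hm h1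
    omega
  · exact S.hp 2 Nat.prime_two ⟨S.a * S.d, by push_cast; ring⟩
  · intro k hk hpos
    have h1 : ((S.nv k : ℕ) : ℤ) = S.a + k * S.d := by
      unfold Dat.nv
      exact Int.toNat_of_nonneg hpos.le
    refine ⟨h1, ?_⟩
    rw [← Nat.isCoprime_iff_coprime, h1]
    have h2 : (S.m : ℤ) ∣ (k : ℤ) - S.q0 := by
      have := (Nat.modEq_iff_dvd.1 hk.symm)
      simpa using this
    obtain ⟨t, ht⟩ := h2
    have h3 : S.a + (k : ℤ) * S.d = (S.a + S.q0 * S.d) + (S.m : ℤ) * (t * S.d) := by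
      have : (k : ℤ) = S.q0 + S.m * t := by linarith
      rw [this]; ring
    rw [h3]
    exact S.hn.add_mul_left_left (t * S.d)
  · intro x hx k hk
    unfold Dat.I at hk
    simp only [mem_filter, mem_Ioc] at hk
    obtain ⟨⟨hk1, hk2⟩, hk3⟩ := hk
    have hd := S.hd
    have ha1 : -(S.a.natAbs : ℤ) ≤ S.a := by omega
    have ha2 : S.a ≤ (S.a.natAbs : ℤ) := by omega
    have hx' : 2 * (S.a.natAbs : ℤ) + 2 ≤ (x : ℤ) := by exact_mod_cast hx
    have hk1' : (x : ℤ) + 1 ≤ k := by exact_mod_cast hk1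
    have hk2' : (k : ℤ) ≤ 2 * x := by exact_mod_cast hk2
    have hx0 : (0 : ℤ) ≤ x := by positivity
    have hlow : (x : ℤ) * S.d ≤ 2 * (S.a + k * S.d) := by nlinarith
    have hup : S.a + k * S.d ≤ 3 * S.d * x := by nlinarith
    have hpos : 0 < S.a + k * S.d := by nlinarith
    have h1 : ((S.nv k : ℕ) : ℤ) = S.a + k * S.d := by
      unfold Dat.nv
      exact Int.toNat_of_nonneg hpos.le
    have h1' : ((S.nv k : ℕ) : ℝ) = S.a + k * S.d := by
      have := congrArg (fun t : ℤ => (t : ℝ)) h1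
      push_cast at this
      exact this
    refine ⟨hpos, ?_, ?_, ?_⟩
    · have : (0 : ℤ) < ((S.nv k : ℕ) : ℤ) := by rw [h1]; exact hpos
      omega
    · rw [h1']
      have : ((x : ℤ) : ℝ) * S.d ≤ 2 * (S.a + k * S.d) := by exact_mod_cast hlow
      push_cast at this
      linarith
    · rw [h1']
      have : ((S.a : ℝ) + k * S.d) ≤ 3 * S.d * x := by exact_mod_cast hup
      exact this

/-- the residue class mod `b m` -/
private theorem ul_class (S : Dat) (b : ℕ) (hb : b.Coprime S.m) : ∃ c : ℤ, IsCoprime c ((b * S.m : ℕ) : ℤ) ∧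
    ∀ k : ℤ, ((b * S.m : ℕ) : ℤ) ∣ k - c ↔ ((S.m : ℤ) ∣ k - S.q0 ∧ (b : ℤ) ∣ S.a + k * S.d) := by
  have hbad : ∀ y : ℤ, y ∣ S.a * S.d → IsCoprime (b : ℤ) y := by
    intro y hy
    rw [Int.isCoprime_iff_gcd_eq_one]
    by_contra hne
    obtain ⟨p, hp, hpd⟩ := Nat.exists_prime_and_dvd hne
    have h1 : (p : ℤ) ∣ (b : ℤ) := dvd_trans (Int.natCast_dvd_natCast.2 hpd) (Int.gcd_dvd_left ..)
    have h2 : (p : ℤ) ∣ y := dvd_trans (Int.natCast_dvd_natCast.2 hpd) (Int.gcd_dvd_right ..)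
    have h3 : (p : ℤ) ∣ 2 * S.a * S.d := by
      have := (h2.trans hy).mul_left 2
      rwa [← mul_assoc] at this
    have h4 := S.hp p hp h3
    have h5 : p ∣ b := Int.natCast_dvd_natCast.1 h1
    have h6 : p ∣ Nat.gcd b S.m := Nat.dvd_gcd h5 h4
    rw [hb] at h6
    exact hp.one_lt.ne' (Nat.dvd_one.1 h6)
  have hbd : IsCoprime (b : ℤ) S.d := hbad _ (Dvd.intro_left _ rfl)
  have hba : IsCoprime (b : ℤ) S.a := hbad _ (Dvd.intro _ rfl)
  have hbm : IsCoprime (b : ℤ) (S.m : ℤ) := Nat.isCoprime_iff_coprime.2 hb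
  obtain ⟨s, t, hst⟩ := hbd
  obtain ⟨u, v, huv⟩ := hbm
  set cb : ℤ := -S.a * t with hcb
  have h1 : S.a + cb * S.d = S.a * s * b := by
    have : t * S.d = 1 - s * b := by linarith
    rw [hcb]
    have e : -S.a * t * S.d = -S.a * (t * S.d) := by ring
    rw [e, this]; ring
  set c : ℤ := cb * v * S.m + S.q0 * u * b with hc
  have h2 : c - cb = b * (u * (S.q0 - cb)) := by
    have : v * (S.m : ℤ) = 1 - u * b := by linarith
    rw [hc]
    have e : cb * v * (S.m : ℤ) = cb * (v * S.m) := by ring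
    rw [e, this]; ring
  have h3 : c - S.q0 = S.m * (v * (cb - S.q0)) := by
    have : u * (b : ℤ) = 1 - v * S.m := by linarith
    rw [hc]
    have e : (S.q0 : ℤ) * u * b = S.q0 * (u * b) := by ring
    rw [e, this]; ring
  have h4 : (b : ℤ) ∣ S.a + c * S.d := by
    have e : S.a + c * S.d = (S.a + cb * S.d) + (c - cb) * S.d := by ring
    rw [e, h1, h2]
    exact dvd_add ⟨S.a * s, by ring⟩ ⟨u * (S.q0 - cb) * S.d, by ring⟩
  refine ⟨c, ?_, ?_⟩
  · push_cast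
    apply IsCoprime.mul_right
    · obtain ⟨w, hw⟩ := h4
      have e : S.a = -(c * S.d) + b * w := by linarith
      rw [e] at hba
      have h5 : IsCoprime (b : ℤ) (-(c * S.d)) := by
        have := hba.add_mul_left_right (-w)
        have e2 : -(c * S.d) + (b : ℤ) * w + b * -w = -(c * S.d) := by ring
        rwa [e2] at this
      have h6 : IsCoprime (b : ℤ) (c * S.d) := by
        have := h5.neg_right
        rwa [neg_neg] at this
      exact (h6.symm).of_mul_left_left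
    · have h7 : IsCoprime ((S.q0 : ℕ) : ℤ) (S.m : ℤ) := Nat.isCoprime_iff_coprime.2 S.hq
      have e : c = (S.q0 : ℤ) + S.m * (v * (cb - S.q0)) := by linarith
      rw [e]
      exact h7.add_mul_left_left _
  · intro k
    have hbm' : IsCoprime (b : ℤ) (S.m : ℤ) := Nat.isCoprime_iff_coprime.2 hb
    have e1 : ((b * S.m : ℕ) : ℤ) ∣ k - c ↔ (b : ℤ) ∣ k - c ∧ (S.m : ℤ) ∣ k - c := by
      push_cast
      exact ⟨fun h => ⟨(Dvd.intro _ rfl).trans h, (Dvd.intro_left _ rfl).trans h⟩, fun h => hbm'.mul_dvd h.1 h.2⟩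
    have e2 : (b : ℤ) ∣ k - c ↔ (b : ℤ) ∣ S.a + k * S.d := by
      have e : S.a + k * S.d = (S.a + c * S.d) + (k - c) * S.d := by ring
      rw [e, dvd_add_right h4]
      constructor
      · intro h
        exact h.mul_right _
      · intro h
        exact (hbad S.d (Dvd.intro_left _ rfl)).dvd_of_dvd_mul_right h
    have e3 : (S.m : ℤ) ∣ k - c ↔ (S.m : ℤ) ∣ k - S.q0 := by
      have e : k - S.q0 = (c - S.q0) + (k - c) := by ring
      rw [e, dvd_add_right (h3 ▸ Dvd.intro _ rfl)]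
    rw [e1, e2, e3, and_comm]

/-- MODULE BPRIME: Bombieri - Vinogradov for the family.  `Pool.Agent.BGV.bv : θ < 1/2 → BGG.BVs θ` (file BGV/Chain.lean),
`BGG.BVs`, `BGG.LamErr` in BGG/Defs.lean.
Proof: let `θ < θ' < 1/2`.  For `b` squarefree, prime to `m`, put `q = b m`; `b` is prime to `a d` (all primes dividing
`a d` divide `m`), so by the Chinese remainder theorem there is an integer `c_q` with `c_q ≡ q0 mod m`,
`a + c_q d ≡ 0 mod b`, and it is prime to `q` (mod `m`: `hq`; mod `b`: `c_q d ≡ -a`, `(a, b) = 1`).  For `k ∈ S.I x`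
(`a + k d > 0` for large `x`): `b ∣ nv k` iff `b ∣ a + k d` iff `k ≡ c_q mod b`.  So
`Ad (S.I x) Λ nv b - X/φ(b) = LamErr x (2x) q c_q` (`φ(b m) = φ(b) φ(m)`; `X = x/φ(m)`; the sum over
`1 ≤ n ≤ ⌊2x⌋`, `x < n`).  The moduli `q = b m ≤ m x^θ ≤ x^θ'` for large `x` are distinct; apply `BVs θ'` with
`y = x`, `z = 2 x` and the class function `q ↦ c_q` (anything for the other `q`). -/
theorem bprime (S : Dat) (θ : ℝ) (hθ : θ < 1 / 2) (A : ℕ) :
    ∃ C : ℝ, ∃ x0 : ℕ, ∀ x : ℕ, x0 ≤ x →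
      Rs (S.I x) vm S.nv S.m (S.X x) ((x : ℝ) ^ θ) ≤ C * x / (Real.log x) ^ A := by
  classical
  obtain ⟨θ', h1, h2⟩ : ∃ θ' : ℝ, θ < θ' ∧ θ' < 1 / 2 := exists_between hθ
  obtain ⟨C, hC⟩ := Pool.Agent.BGV.bv θ' h2 A
  refine ⟨C, ?_⟩
  rw [← Filter.eventually_atTop]
  have hcl : ∀ b : ℕ, ∃ c : ℤ, b.Coprime S.m → (IsCoprime c ((b * S.m : ℕ) : ℤ) ∧
      ∀ k : ℤ, ((b * S.m : ℕ) : ℤ) ∣ k - c ↔ ((S.m : ℤ) ∣ k - S.q0 ∧ (b : ℤ) ∣ S.a + k * S.d)) := by
    intro b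
    by_cases hb : b.Coprime S.m
    · obtain ⟨c, hc⟩ := ul_class S b hb
      exact ⟨c, fun _ => hc⟩
    · exact ⟨0, fun h => absurd h hb⟩
  choose c hc using hcl
  have htend : Filter.Tendsto (fun x : ℕ => (x : ℝ) ^ (θ' - θ)) Filter.atTop Filter.atTop :=
    (tendsto_rpow_atTop (by linarith)).comp tendsto_natCast_atTop_atTop
  filter_upwards [htend.eventually_ge_atTop (S.m : ℝ), Filter.eventually_ge_atTop (2 * S.a.natAbs + 2),
    Filter.eventually_ge_atTop 3] with x hxm hxa hx3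
  have hx3' : (3 : ℝ) ≤ (x : ℝ) := by exact_mod_cast hx3
  have hxp : (0 : ℝ) < (x : ℝ) := by linarith
  have hm0 : 0 < S.m := S.hm
  have hB := hC (x : ℝ) (by linarith) (fun q => c (q / S.m)) (x : ℝ) (2 * x) le_rfl (by linarith) (by linarith)
  refine le_trans ?_ hB
  unfold Rs
  have key : ∀ b ∈ (Icc 1 ⌊(x : ℝ) ^ θ⌋₊).filter (fun b => Squarefree b ∧ b.Coprime S.m),
      |Ad (S.I x) vm S.nv b - S.X x / (b.totient : ℝ)| =
        (if IsCoprime (c ((b * S.m) / S.m)) ((b * S.m : ℕ) : ℤ) then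
          |Pool.Agent.BGG.LamErr x (2 * x) (b * S.m) (c ((b * S.m) / S.m))| else 0) := by
    intro b hb
    simp only [mem_filter, mem_Icc] at hb
    obtain ⟨⟨hb1, hb2⟩, hbs, hbc⟩ := hb
    rw [Nat.mul_div_cancel _ hm0, if_pos (hc b hbc).1]
    congr 1
    unfold Ad Pool.Agent.BGG.LamErr
    congr 1
    · unfold Dat.I
      rw [Finset.sum_filter]
      have hfl : ⌊(2 * (x : ℝ))⌋₊ = 2 * x := by
        have : (2 * (x : ℝ)) = ((2 * x : ℕ) : ℝ) := by push_cast; ring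
        rw [this, Nat.floor_natCast]
      rw [hfl]
      have hsub : Ioc x (2 * x) ⊆ Icc 1 (2 * x) := by
        intro k hk
        simp only [mem_Ioc, mem_Icc] at hk ⊢
        omega
      rw [← Finset.sum_subset hsub]
      · apply Finset.sum_congr rfl
        intro k hk
        simp only [mem_Ioc] at hk
        have hxk : (x : ℝ) < (k : ℝ) := by exact_mod_cast hk.1
        have hmod : k ≡ S.q0 [MOD S.m] ↔ (S.m : ℤ) ∣ (k : ℤ) - S.q0 := by
          rw [Nat.ModEq.comm, Nat.modEq_iff_dvd]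
        by_cases hkm : k ≡ S.q0 [MOD S.m]
        · rw [if_pos hkm]
          have hkI : k ∈ S.I x := by
            unfold Dat.I
            simp only [mem_filter, mem_Ioc]
            exact ⟨hk, hkm⟩
          have hpos := ((dat_basic S).2.2.2 x hxa k hkI).1
          have hnv := ((dat_basic S).2.2.1 k hkm hpos).1
          have hiff : b ∣ S.nv k ↔ (b : ℤ) ∣ S.a + k * S.d := by
            rw [← hnv, Int.natCast_dvd_natCast]
          have hiff2 : ((x : ℝ) < (k : ℝ) ∧ ((b * S.m : ℕ) : ℤ) ∣ (k : ℤ) - c b) ↔ b ∣ S.nv k := by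
            rw [(hc b hbc).2 k, hiff]
            exact ⟨fun h => h.2.2, fun h => ⟨hxk, hmod.1 hkm, h⟩⟩
          by_cases hd : b ∣ S.nv k
          · rw [if_pos hd, if_pos (hiff2.2 hd)]
            rfl
          · rw [if_neg hd, if_neg (fun h => hd (hiff2.1 h))]
        · rw [if_neg hkm]
          rw [if_neg]
          rintro ⟨-, h⟩
          exact hkm (hmod.2 (((hc b hbc).2 k).1 h).1)
      · intro k hk1 hk2
        simp only [mem_Icc, mem_Ioc, not_and, not_le] at hk1 hk2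
        rw [if_neg]
        rintro ⟨h, -⟩
        have : x < k := by exact_mod_cast h
        have := hk2 this
        omega
    · unfold Dat.X
      rw [Nat.totient_mul hbc]
      push_cast
      rw [div_div, mul_comm]
      congr 1
      ring
  rw [Finset.sum_congr rfl key]
  have himg : ∑ b ∈ (Icc 1 ⌊(x : ℝ) ^ θ⌋₊).filter (fun b => Squarefree b ∧ b.Coprime S.m),
      (if IsCoprime (c ((b * S.m) / S.m)) ((b * S.m : ℕ) : ℤ) then
          |Pool.Agent.BGG.LamErr x (2 * x) (b * S.m) (c ((b * S.m) / S.m))| else 0) =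
      ∑ q ∈ ((Icc 1 ⌊(x : ℝ) ^ θ⌋₊).filter (fun b => Squarefree b ∧ b.Coprime S.m)).image (fun b => b * S.m),
        (if IsCoprime (c (q / S.m)) ((q : ℕ) : ℤ) then
          |Pool.Agent.BGG.LamErr x (2 * x) q (c (q / S.m))| else 0) := by
    rw [Finset.sum_image]
    intro b1 _ b2 _ h
    exact Nat.eq_of_mul_eq_mul_right hm0 h
  rw [himg]
  apply Finset.sum_le_sum_of_subset_of_nonneg
  · intro q hq
    simp only [mem_image, mem_filter, mem_Icc] at hq
    obtain ⟨b, ⟨⟨hb1, hb2⟩, -⟩, rfl⟩ := hq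
    rw [mem_Icc]
    refine ⟨Nat.mul_pos hb1 hm0, Nat.le_floor ?_⟩
    have hb3 : (b : ℝ) ≤ (x : ℝ) ^ θ := (Nat.le_floor_iff (by positivity)).1 hb2
    have e : (x : ℝ) ^ θ' = (x : ℝ) ^ θ * (x : ℝ) ^ (θ' - θ) := by
      rw [← Real.rpow_add hxp]
      congr 1
      ring
    push_cast
    rw [e]
    gcongr
  · intro q _ _
    split_ifs
    · exact abs_nonneg _
    · exact le_rfl

private theorem ul_Vself (m : ℕ) (W : ℝ) : Vv m W W = 1 := by
  unfold Vv
  apply Finset.prod_eq_one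
  intro p hp
  have := mem_pr.1 hp
  exact absurd (lt_of_le_of_lt this.2.2.1 this.2.2.2) (lt_irrefl _)

private theorem ul_two (S : Dat) : 2 ∣ S.m :=
  S.hp 2 Nat.prime_two ⟨S.a * S.d, by push_cast; ring⟩

private theorem ul_X (S : Dat) (x : ℕ) : 0 ≤ S.X x := by
  unfold Dat.X; positivity

private theorem ul_U (S : Dat) (x : ℕ) : 0 ≤ S.U x := by
  unfold Dat.U
  exact mul_nonneg (ul_X S x) (Vv_pos S.m 0 _ (Or.inr (ul_two S))).1.le

private theorem ul_tend (c : ℝ) (hc : 0 < c) :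
    Filter.Tendsto (fun x : ℕ => (x : ℝ) ^ c) Filter.atTop Filter.atTop :=
  (tendsto_rpow_atTop hc).comp tendsto_natCast_atTop_atTop

/-- MODULE ULOW.  The unit is at least `c x/log x` and at most `C x/log x`: with `W` from `mert` (`ε = 1/2`) and `z = x^(2/25)`:
`Vv m 0 z = Vv m 0 W · Vv m W z` and `Vv m W z` is between `(1/(1+ε)) log W/log z` and `(1/(1-ε)) log W/log z`
(`Mert` with `w = W`, `Vv m W W = 1`). -/
theorem ulow (S : Dat) : ∃ c C : ℝ, 0 < c ∧ 0 < C ∧ ∃ x0 : ℕ, ∀ x : ℕ, x0 ≤ x →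
    c * x / Real.log x ≤ S.U x ∧ S.U x ≤ C * x / Real.log x := by
  obtain ⟨W0, hW0⟩ := mert S.m S.hm (1 / 2) (by norm_num)
  set W : ℝ := max W0 3 with hWdef
  have hM : Mert S.m W (1 / 2) := hW0 W (le_max_left _ _)
  have hW3 : (3 : ℝ) ≤ W := hM.1
  have hlW : 0 < Real.log W := Real.log_pos (by linarith)
  have hV0 := Vv_pos S.m 0 W (Or.inr (ul_two S))
  have hphi : (0 : ℝ) < (S.m.totient : ℝ) := by exact_mod_cast Nat.totient_pos.2 S.hm
  refine ⟨(1 / S.m.totient) * Vv S.m 0 W * (Real.log W / ((3 / 2) * (16 / 200))),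
    (1 / S.m.totient) * Vv S.m 0 W * (Real.log W / ((1 / 2) * (16 / 200))),
    ?_, ?_, ?_⟩
  · have := hV0.1
    positivity
  · have := hV0.1
    positivity
  have h1 : ∀ᶠ x : ℕ in Filter.atTop, W ≤ (x : ℝ) ^ ((16 : ℝ) / 200) :=
    (ul_tend _ (by norm_num)).eventually_ge_atTop W
  obtain ⟨x0, hx0⟩ := Filter.eventually_atTop.1 h1
  refine ⟨max x0 3, fun x hx => ?_⟩
  have hWz := hx0 x (le_trans (le_max_left _ _) hx)
  have hx3 : (3 : ℝ) ≤ (x : ℝ) := by exact_mod_cast le_trans (le_max_right x0 3) hx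
  have hlx : 0 < Real.log x := Real.log_pos (by linarith)
  set z : ℝ := (x : ℝ) ^ ((16 : ℝ) / 200) with hz
  have hlz : Real.log z = (16 / 200) * Real.log x := by
    rw [hz, Real.log_rpow (by linarith)]
  have hm := hM.2 W z le_rfl hWz
  rw [ul_Vself] at hm
  have hVz := Vv_pos S.m W z (Or.inl hW3)
  have hU : S.U x = (x : ℝ) * (1 / S.m.totient) * Vv S.m 0 W * Vv S.m W z := by
    unfold Dat.U Dat.X
    rw [← hz, Vv_split S.m 0 W z (by linarith) hWz]
    ring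
  rw [hlz] at hm
  have hK : 0 ≤ (x : ℝ) * (1 / S.m.totient) * Vv S.m 0 W := by
    have := hV0.1
    positivity
  have e1 : Real.log W / ((3 / 2) * (16 / 200)) / Real.log x ≤ Vv S.m W z := by
    have h2 : 1 ≤ (1 + 1 / 2) * (16 / 200 * Real.log x / Real.log W) * Vv S.m W z := hm.2
    rw [div_div, div_le_iff₀ (by positivity)]
    have h3 : Real.log W * 1 ≤ Real.log W * ((1 + 1 / 2) * (16 / 200 * Real.log x / Real.log W) * Vv S.m W z) :=
      mul_le_mul_of_nonneg_left h2 hlW.le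
    have h4 : Real.log W * ((1 + 1 / 2) * (16 / 200 * Real.log x / Real.log W) * Vv S.m W z) =
        Vv S.m W z * (3 / 2 * (16 / 200) * Real.log x) := by
      field_simp
      ring
    linarith
  have e2 : Vv S.m W z ≤ Real.log W / ((1 / 2) * (16 / 200)) / Real.log x := by
    have h2 : (1 - 1 / 2) * (16 / 200 * Real.log x / Real.log W) * Vv S.m W z ≤ 1 := hm.1
    rw [div_div, le_div_iff₀ (by positivity)]
    have h3 : Real.log W * ((1 - 1 / 2) * (16 / 200 * Real.log x / Real.log W) * Vv S.m W z) ≤ Real.log W * 1 :=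
      mul_le_mul_of_nonneg_left h2 hlW.le
    have h4 : Real.log W * ((1 - 1 / 2) * (16 / 200 * Real.log x / Real.log W) * Vv S.m W z) =
        Vv S.m W z * (1 / 2 * (16 / 200) * Real.log x) := by
      field_simp
      ring
    linarith
  constructor
  · rw [hU]
    calc (1 / S.m.totient) * Vv S.m 0 W * (Real.log W / ((3 / 2) * (16 / 200))) * x / Real.log x =
        ((x : ℝ) * (1 / S.m.totient) * Vv S.m 0 W) * (Real.log W / ((3 / 2) * (16 / 200)) / Real.log x) := by ring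
      _ ≤ _ := mul_le_mul_of_nonneg_left e1 hK
  · rw [hU]
    calc ((x : ℝ) * (1 / S.m.totient) * Vv S.m 0 W) * Vv S.m W z ≤
        ((x : ℝ) * (1 / S.m.totient) * Vv S.m 0 W) * (Real.log W / ((1 / 2) * (16 / 200)) / Real.log x) :=
          mul_le_mul_of_nonneg_left e2 hK
      _ = _ := by ring

private theorem ul_vm (k : ℕ) : 0 ≤ vm k := ArithmeticFunction.vonMangoldt_nonneg

private theorem ul_Rs_mono {ι : Type} (I : Finset ι) (w : ι → ℝ) (N : ι → ℕ) (m : ℕ) (X E E' : ℝ) (h : E ≤ E') :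
    Rs I w N m X E ≤ Rs I w N m X E' := by
  unfold Rs
  apply Finset.sum_le_sum_of_subset_of_nonneg
  · intro b hb
    simp only [mem_filter, mem_Icc] at hb ⊢
    exact ⟨⟨hb.1.1, le_trans hb.1.2 (Nat.floor_le_floor h)⟩, hb.2⟩
  · intro b _ _
    exact abs_nonneg _

/-- the remainder is small -/
private theorem ul_rs (S : Dat) (W : ℝ) (i : ℕ) (δ ε : ℝ) (hδ : 0 < δ) (hε : 0 < ε) :
    ∀ᶠ x : ℕ in Filter.atTop,
      Rs (S.I x) vm S.nv S.m (S.X x) ((PW W : ℝ) * (x : ℝ) ^ ((100 - (i : ℝ)) / 200) * (x : ℝ) ^ ((i : ℝ) / 200 - δ)) ≤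
        S.U x * ε := by
  obtain ⟨C, x0, hC⟩ := bprime S (1 / 2 - δ / 2) (by linarith) 3
  obtain ⟨c, C', hc, -, x1, h1⟩ := ulow S
  have hP : ∀ᶠ x : ℕ in Filter.atTop, (PW W : ℝ) ≤ (x : ℝ) ^ (δ / 2) :=
    (ul_tend _ (by linarith)).eventually_ge_atTop _
  have hlog : Filter.Tendsto (fun x : ℕ => Real.log (x : ℝ)) Filter.atTop Filter.atTop :=
    Real.tendsto_log_atTop.comp tendsto_natCast_atTop_atTop
  have hL : ∀ᶠ x : ℕ in Filter.atTop, max 1 (|C| / (c * ε)) ≤ Real.log (x : ℝ) :=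
    hlog.eventually_ge_atTop _
  filter_upwards [hP, hL, Filter.eventually_ge_atTop x0, Filter.eventually_ge_atTop x1,
    Filter.eventually_ge_atTop 3] with x hP hL hx0 hx1 hx3
  have hx3' : (3 : ℝ) ≤ (x : ℝ) := by exact_mod_cast hx3
  have hxp : (0 : ℝ) < (x : ℝ) := by linarith
  have hL1 : 1 ≤ Real.log (x : ℝ) := le_trans (le_max_left _ _) hL
  have hL2 : |C| / (c * ε) ≤ Real.log (x : ℝ) := le_trans (le_max_right _ _) hL
  have e1 : (PW W : ℝ) * (x : ℝ) ^ ((100 - (i : ℝ)) / 200) * (x : ℝ) ^ ((i : ℝ) / 200 - δ) ≤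
      (x : ℝ) ^ (1 / 2 - δ / 2) := by
    have e2 : (x : ℝ) ^ (1 / 2 - δ / 2) =
        (x : ℝ) ^ (δ / 2) * (x : ℝ) ^ ((100 - (i : ℝ)) / 200) * (x : ℝ) ^ ((i : ℝ) / 200 - δ) := by
      rw [← Real.rpow_add hxp, ← Real.rpow_add hxp]
      congr 1
      ring
    rw [e2]
    gcongr
  refine le_trans (ul_Rs_mono _ _ _ _ _ _ _ e1) (le_trans (hC x hx0) ?_)
  have h2 := (h1 x hx1).1
  have h3 : C * x / Real.log x ^ 3 ≤ c * x / Real.log x * ε := by
    have h4 : C ≤ (c * ε) * Real.log x := by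
      have := (div_le_iff₀ (by positivity : (0 : ℝ) < c * ε)).1 hL2
      linarith [le_abs_self C]
    have h5 : (c * ε) * Real.log x ≤ (c * ε) * Real.log x ^ 2 := by
      have : Real.log x ≤ Real.log x ^ 2 := by nlinarith
      exact mul_le_mul_of_nonneg_left this (by positivity)
    rw [div_le_iff₀ (by positivity)]
    have h6 : c * x / Real.log x * ε * Real.log x ^ 3 = x * ((c * ε) * Real.log x ^ 2) := by
      field_simp
    rw [h6]
    have h7 : x * C ≤ x * ((c * ε) * Real.log x ^ 2) := mul_le_mul_of_nonneg_left (h4.trans h5) hxp.le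
    linarith
  exact h3.trans (mul_le_mul_of_nonneg_right h2 hε.le)

private theorem ul_Sf_mono (S : Dat) (x : ℕ) (z z' : ℝ) (h : z' ≤ z) (e : ℕ) :
    Sf (S.I x) vm S.nv S.m z e ≤ Sf (S.I x) vm S.nv S.m z' e := by
  classical
  unfold Sf
  apply Finset.sum_le_sum
  intro k _
  by_cases h1 : e ∣ S.nv k ∧ ∀ p ∈ pr S.m 0 z, ¬ p ∣ S.nv k
  · have h2 : e ∣ S.nv k ∧ ∀ p ∈ pr S.m 0 z', ¬ p ∣ S.nv k := by
      refine ⟨h1.1, fun p hp => h1.2 p ?_⟩
      rw [mem_pr] at hp ⊢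
      exact ⟨hp.1, hp.2.1, hp.2.2.1, lt_of_lt_of_le hp.2.2.2 h⟩
    rw [if_pos h1, if_pos h2]
  · rw [if_neg h1]
    split_ifs
    · exact ul_vm k
    · exact le_rfl

private theorem ul_Sf_nonneg (S : Dat) (x : ℕ) (z : ℝ) (e : ℕ) : 0 ≤ Sf (S.I x) vm S.nv S.m z e := by
  classical
  unfold Sf
  apply Finset.sum_nonneg
  intro k _
  split_ifs
  · exact ul_vm k
  · exact le_rfl

/-- MODULE UPC: upper bound sieve for a set of moduli `e ≤ x^((100-i)/200)`, level `1/2`, sifting limit `z = x^(2/25)`,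
`F` at `i/16`.
Proof: given `ε`.  Let `S0` be the supersolution of `supT`, `δ > 0` small (depending on `ε, i`), `θ = 1/2 - δ`,
`σ = (100-i)/200`, `D = x^(θ-σ) = x^(i/200 - δ)`, `E0 = x^σ`, `W` with `Mert m W (min ε' S0.ε)`, fixed.  For large `x`
`PW W · E0 · D ≤ x^(1/2 - δ/2)`, and `bprime` (`A = 3`) and `ulow` give `Rs ≤ ε U/2`.
(i ≥ 49) `s = log D/log z = i/16 - δ/(2/25) > 3`, `z ≤ D`: `se_up` and `lin` (+): main term
`X Vv m 0 W Vv m W z (1 + φ(s)) = U (1 + φ(s)) ≤ U (Ftn i/10^7 + ε/2)` for small `δ`.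
(i ≤ 48) put `z3 = D^(1/3) = x^((i/200 - δ)/3) < z` (`≥ W` for large `x`).  `Sf .. z e ≤ Sf .. z3 e` (fewer conditions);
`se_up` and `lin` (+) at `z3`, `s = 3`: `X Vv m 0 W Vv m W z3 (1 + φ(3)) ≤ X Vv m 0 W Vv m W z3 AA/3` and
`Vv m W z3 ≤ (1 + ε') (log z/log z3) Vv m W z = (1+ε') · 48/(i - 200 δ) · Vv m W z`; so the factor is
`(1+ε') 16 AA/(i - 200 δ) ≤ Ftn i/10^7 + ε/2` (`Ftn i ≥ 16 AAn/i`). -/
theorem upc (S : Dat) (i : ℕ) (hi1 : 1 ≤ i) (hi2 : i ≤ 100) (ε : ℝ) (hε : 0 < ε) :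
    ∃ x0 : ℕ, ∀ x : ℕ, x0 ≤ x → ∀ E : Finset ℕ,
      (∀ e ∈ E, Squarefree e ∧ e.Coprime S.m ∧ (∀ p ∈ e.primeFactors, (x : ℝ) ^ ((16 : ℝ) / 200) ≤ (p : ℝ)) ∧
        (e : ℝ) ≤ (x : ℝ) ^ ((100 - (i : ℝ)) / 200)) →
      ∑ e ∈ E, Sf (S.I x) vm S.nv S.m ((x : ℝ) ^ ((16 : ℝ) / 200)) e ≤
        S.U x * (((Ftn i : ℝ) / 10 ^ 7 + ε) * (∑ e ∈ E, 1 / (e.totient : ℝ)) + ε) := by
  classical
  rw [← Filter.eventually_atTop]
  obtain ⟨S0, hA, hF, -⟩ := supT
  have hi1' : (1 : ℝ) ≤ (i : ℝ) := by exact_mod_cast hi1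
  have hAA : 0 < AA := by unfold AA AAn; norm_num
  rcases le_or_gt 49 i with hi | hi
  · -- large i
    obtain ⟨η, hη, hη1⟩ := hF i hi hi2 ε hε
    have hi' : (49 : ℝ) ≤ (i : ℝ) := by exact_mod_cast hi
    obtain ⟨δ, hδ, hδ1, hδ2⟩ : ∃ δ : ℝ, 0 < δ ∧ 25 / 2 * δ < η ∧ δ ≤ 1 / 200 := by
      refine ⟨min (η / 25) (1 / 200), by positivity, ?_, min_le_right _ _⟩
      have := min_le_left (η / 25) (1 / 200)
      linarith
    obtain ⟨W0, hW0⟩ := mert S.m S.hm S0.ε S0.hε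
    have hM : Mert S.m (max W0 3) S0.ε := hW0 _ (le_max_left _ _)
    generalize max W0 3 = W at hM
    have hW3 : (3 : ℝ) ≤ W := hM.1
    filter_upwards [ul_rs S W i δ ε hδ hε, (ul_tend ((16 : ℝ) / 200) (by norm_num)).eventually_ge_atTop W,
      Filter.eventually_ge_atTop (2 * S.a.natAbs + 2), Filter.eventually_ge_atTop 3] with x hR hWz hxa hx3 E hE
    have hx3' : (3 : ℝ) ≤ (x : ℝ) := by exact_mod_cast hx3
    have hx1 : (1 : ℝ) ≤ (x : ℝ) := by linarith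
    have hxp : (0 : ℝ) < (x : ℝ) := by linarith
    have hlx : 0 < Real.log x := Real.log_pos (by linarith)
    set z : ℝ := (x : ℝ) ^ ((16 : ℝ) / 200) with hz
    set D : ℝ := (x : ℝ) ^ ((i : ℝ) / 200 - δ) with hDdef
    have hzD : z ≤ D := by
      rw [hz, hDdef]
      exact Real.rpow_le_rpow_of_exponent_le hx1 (by linarith)
    have hD1 : 1 ≤ D := by
      rw [hDdef]
      exact Real.one_le_rpow hx1 (by linarith)
    have hse := se_up (S.I x) vm S.nv (fun k _ => ul_vm k)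
      (fun k hk => ((dat_basic S).2.2.2 x hxa k hk).2.1) S.m S.hm W z D hW3 hWz hD1 ⌈z⌉₊ le_rfl (S.X x) E
      ((x : ℝ) ^ ((100 - (i : ℝ)) / 200)) hE
    have hlin := (lin S0 S.m W hM ⌈z⌉₊ z D hWz le_rfl).1 hzD
    have hs : Real.log D / Real.log z = (i : ℝ) / 16 - 25 / 2 * δ := by
      rw [hz, hDdef, Real.log_rpow hxp, Real.log_rpow hxp]
      field_simp
      ring
    rw [hs] at hlin
    have hphi := hη1 ((i : ℝ) / 16 - 25 / 2 * δ) (by linarith) (by linarith)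
    have hVW := Vv_pos S.m W z (Or.inl hW3)
    have hV0 := Vv_pos S.m 0 W (Or.inr (ul_two S))
    have hmain : S.X x * (Vv S.m 0 W * vr S.m W ⌈z⌉₊ true z D) ≤ S.U x * ((Ftn i : ℝ) / 10 ^ 7 + ε) := by
      have hU : S.U x = S.X x * (Vv S.m 0 W * Vv S.m W z) := by
        unfold Dat.U
        rw [← hz, Vv_split S.m 0 W z (by linarith) hWz]
      calc S.X x * (Vv S.m 0 W * vr S.m W ⌈z⌉₊ true z D)
          ≤ S.X x * (Vv S.m 0 W * (Vv S.m W z * ((Ftn i : ℝ) / 10 ^ 7 + ε))) := by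
            apply mul_le_mul_of_nonneg_left _ (ul_X S x)
            apply mul_le_mul_of_nonneg_left _ hV0.1.le
            exact hlin.trans (mul_le_mul_of_nonneg_left hphi hVW.1.le)
        _ = _ := by rw [hU]; ring
    have hsum : 0 ≤ ∑ e ∈ E, 1 / (e.totient : ℝ) := Finset.sum_nonneg fun e _ => by positivity
    calc ∑ e ∈ E, Sf (S.I x) vm S.nv S.m z e ≤ _ := hse
      _ ≤ S.U x * ((Ftn i : ℝ) / 10 ^ 7 + ε) * (∑ e ∈ E, 1 / (e.totient : ℝ)) + S.U x * ε :=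
        add_le_add (mul_le_mul_of_nonneg_right hmain hsum) hR
      _ = _ := by ring
  · -- small i
    have hi48 : (i : ℝ) ≤ 48 := by
      have : i ≤ 48 := by omega
      exact_mod_cast this
    -- the table value
    have hFt : 16 * AA / i ≤ (Ftn i : ℝ) / 10 ^ 7 := by
      have h1 : Ftn i = (16 * AAn + (i - 1)) / i := by
        unfold Ftn
        rw [if_pos (by omega)]
      have h2 : 16 * AAn ≤ i * Ftn i := by
        rw [h1]
        have h3 := Nat.div_add_mod (16 * AAn + (i - 1)) i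
        have h4 := Nat.mod_lt (16 * AAn + (i - 1)) (by omega : i > 0)
        have h5 : i * ((16 * AAn + (i - 1)) / i) + (16 * AAn + (i - 1)) % i = 16 * AAn + (i - 1) := h3
        omega
      have h3 : (16 : ℝ) * (AAn : ℝ) ≤ i * (Ftn i : ℝ) := by exact_mod_cast h2
      unfold AA
      rw [div_le_div_iff₀ (by positivity) (by positivity)]
      have h4 : 16 * ((AAn : ℝ) / 10 ^ 7) * 10 ^ 7 = 16 * (AAn : ℝ) := by ring
      rw [h4]
      linarith
    -- choice of δ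
    obtain ⟨δ, hδ, hδ2, hδ1⟩ : ∃ δ : ℝ, 0 < δ ∧ δ < 1 / 400 ∧
        (1 + δ) * (16 * AA) / (i - 200 * δ) < (Ftn i : ℝ) / 10 ^ 7 + ε := by
      have hc : ContinuousAt (fun δ : ℝ => (1 + δ) * (16 * AA) / ((i : ℝ) - 200 * δ)) 0 := by
        apply ContinuousAt.div
        · fun_prop
        · fun_prop
        · have : (i : ℝ) ≠ 0 := by positivity
          simpa using this
      have h0 : (fun δ : ℝ => (1 + δ) * (16 * AA) / ((i : ℝ) - 200 * δ)) 0 < (Ftn i : ℝ) / 10 ^ 7 + ε := by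
        have : (fun δ : ℝ => (1 + δ) * (16 * AA) / ((i : ℝ) - 200 * δ)) 0 = 16 * AA / i := by
          simp
        rw [this]
        linarith
      have h1 : ∀ᶠ δ : ℝ in nhdsWithin 0 (Set.Ioi 0), (fun δ : ℝ => (1 + δ) * (16 * AA) / ((i : ℝ) - 200 * δ)) δ <
          (Ftn i : ℝ) / 10 ^ 7 + ε :=
        (hc.eventually (gt_mem_nhds h0)).filter_mono nhdsWithin_le_nhds
      have h2 : ∀ᶠ δ : ℝ in nhdsWithin 0 (Set.Ioi 0), δ < 1 / 400 :=
        (gt_mem_nhds (by norm_num : (0 : ℝ) < 1 / 400)).filter_mono nhdsWithin_le_nhds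
      have h3 : ∀ᶠ δ : ℝ in nhdsWithin 0 (Set.Ioi 0), (0 : ℝ) < δ := eventually_mem_nhdsWithin
      obtain ⟨δ, h⟩ := (h1.and (h2.and h3)).exists
      exact ⟨δ, h.2.2, h.2.1, h.1⟩
    obtain ⟨W0, hW0⟩ := mert S.m S.hm S0.ε S0.hε
    obtain ⟨W1, hW1⟩ := mert S.m S.hm δ hδ
    have hM : Mert S.m (max W0 W1) S0.ε := hW0 _ (le_max_left _ _)
    have hM1 : Mert S.m (max W0 W1) δ := hW1 _ (le_max_right _ _)
    generalize max W0 W1 = W at hM hM1
    have hW3 : (3 : ℝ) ≤ W := hM.1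
    have hexp : 0 < ((i : ℝ) / 200 - δ) := by linarith
    filter_upwards [ul_rs S W i δ ε hδ hε,
      (ul_tend (((i : ℝ) / 200 - δ) / 3) (by linarith)).eventually_ge_atTop W,
      Filter.eventually_ge_atTop (2 * S.a.natAbs + 2), Filter.eventually_ge_atTop 3] with x hR hWz hxa hx3 E hE
    have hx3' : (3 : ℝ) ≤ (x : ℝ) := by exact_mod_cast hx3
    have hx1 : (1 : ℝ) ≤ (x : ℝ) := by linarith
    have hxp : (0 : ℝ) < (x : ℝ) := by linarith
    have hlx : 0 < Real.log x := Real.log_pos (by linarith)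
    set z : ℝ := (x : ℝ) ^ ((16 : ℝ) / 200) with hz
    set z3 : ℝ := (x : ℝ) ^ (((i : ℝ) / 200 - δ) / 3) with hz3
    set D : ℝ := (x : ℝ) ^ ((i : ℝ) / 200 - δ) with hDdef
    have hz3z : z3 ≤ z := by
      rw [hz3, hz]
      exact Real.rpow_le_rpow_of_exponent_le hx1 (by linarith)
    have hzD : z3 ≤ D := by
      rw [hz3, hDdef]
      exact Real.rpow_le_rpow_of_exponent_le hx1 (by linarith)
    have hD1 : 1 ≤ D := by
      rw [hDdef]
      exact Real.one_le_rpow hx1 (by linarith)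
    have hE' : ∀ e ∈ E, Squarefree e ∧ e.Coprime S.m ∧ (∀ p ∈ e.primeFactors, z3 ≤ (p : ℝ)) ∧
        (e : ℝ) ≤ (x : ℝ) ^ ((100 - (i : ℝ)) / 200) := fun e he =>
      ⟨(hE e he).1, (hE e he).2.1, fun p hp => hz3z.trans ((hE e he).2.2.1 p hp), (hE e he).2.2.2⟩
    have hse := se_up (S.I x) vm S.nv (fun k _ => ul_vm k)
      (fun k hk => ((dat_basic S).2.2.2 x hxa k hk).2.1) S.m S.hm W z3 D hW3 hWz hD1 ⌈z3⌉₊ le_rfl (S.X x) E
      ((x : ℝ) ^ ((100 - (i : ℝ)) / 200)) hE'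
    have hlin := (lin S0 S.m W hM ⌈z3⌉₊ z3 D hWz le_rfl).1 hzD
    have hlz3 : Real.log z3 = ((i : ℝ) / 200 - δ) / 3 * Real.log x := by
      rw [hz3, Real.log_rpow hxp]
    have hlz : Real.log z = (16 / 200) * Real.log x := by
      rw [hz, Real.log_rpow hxp]
    have hs : Real.log D / Real.log z3 = 3 := by
      rw [hlz3, hDdef, Real.log_rpow hxp, div_eq_iff (mul_pos (by linarith) hlx).ne']
      ring
    rw [hs] at hlin
    have hVW := Vv_pos S.m W z3 (Or.inl hW3)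
    have hVz := Vv_pos S.m W z (Or.inl hW3)
    have hV0 := Vv_pos S.m 0 W (Or.inr (ul_two S))
    have hme := (hM1.2 z3 z hWz hz3z).2
    have hrat : Real.log z / Real.log z3 = 48 / ((i : ℝ) - 200 * δ) := by
      rw [hlz, hlz3]
      have h1 : ((i : ℝ) - 200 * δ) ≠ 0 := by
        have : 0 < (i : ℝ) - 200 * δ := by linarith
        exact this.ne'
      have h2 : ((i : ℝ) / 200 - δ) ≠ 0 := hexp.ne'
      rw [div_eq_div_iff (by positivity) h1]
      ring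
    rw [hrat] at hme
    have hi200 : 0 < (i : ℝ) - 200 * δ := by linarith
    have hmain : S.X x * (Vv S.m 0 W * vr S.m W ⌈z3⌉₊ true z3 D) ≤ S.U x * ((Ftn i : ℝ) / 10 ^ 7 + ε) := by
      have hU : S.U x = S.X x * (Vv S.m 0 W * Vv S.m W z) := by
        unfold Dat.U
        rw [← hz, Vv_split S.m 0 W z (by linarith) (hWz.trans hz3z)]
      calc S.X x * (Vv S.m 0 W * vr S.m W ⌈z3⌉₊ true z3 D)
          ≤ S.X x * (Vv S.m 0 W * (Vv S.m W z * ((Ftn i : ℝ) / 10 ^ 7 + ε))) := by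
            apply mul_le_mul_of_nonneg_left _ (ul_X S x)
            apply mul_le_mul_of_nonneg_left _ hV0.1.le
            have h1 : vr S.m W ⌈z3⌉₊ true z3 D ≤ Vv S.m W z3 * (AA / 3) := by
              refine hlin.trans (mul_le_mul_of_nonneg_left ?_ hVW.1.le)
              linarith
            have h2 : Vv S.m W z3 * (AA / 3) ≤ ((1 + δ) * (48 / ((i : ℝ) - 200 * δ)) * Vv S.m W z) * (AA / 3) :=
              mul_le_mul_of_nonneg_right hme (by positivity)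
            have h3 : ((1 + δ) * (48 / ((i : ℝ) - 200 * δ)) * Vv S.m W z) * (AA / 3) =
                Vv S.m W z * ((1 + δ) * (16 * AA) / (i - 200 * δ)) := by
              field_simp
              ring
            rw [h3] at h2
            exact h1.trans (h2.trans (mul_le_mul_of_nonneg_left hδ1.le hVz.1.le))
        _ = _ := by rw [hU]; ring
    have hsum : 0 ≤ ∑ e ∈ E, 1 / (e.totient : ℝ) := Finset.sum_nonneg fun e _ => by positivity
    calc ∑ e ∈ E, Sf (S.I x) vm S.nv S.m z e ≤ ∑ e ∈ E, Sf (S.I x) vm S.nv S.m z3 e :=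
          Finset.sum_le_sum fun e _ => ul_Sf_mono S x z z3 hz3z e
      _ ≤ _ := hse
      _ ≤ S.U x * ((Ftn i : ℝ) / 10 ^ 7 + ε) * (∑ e ∈ E, 1 / (e.totient : ℝ)) + S.U x * ε :=
        add_le_add (mul_le_mul_of_nonneg_right hmain hsum) hR
      _ = _ := by ring

/-- MODULE LOC: lower bound sieve.  `i ≤ 32`: the right side is negative (`ftn i = 0`) unless .. it is
`U (-ε ∑ - ε) ≤ 0 ≤` the left side.  `i ≥ 33`: `se_low` and `lin` (-), `s = i/16 - δ/(2/25) > 2`, as in UPC. -/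
theorem loc (S : Dat) (i : ℕ) (hi1 : 1 ≤ i) (hi2 : i ≤ 100) (ε : ℝ) (hε : 0 < ε) :
    ∃ x0 : ℕ, ∀ x : ℕ, x0 ≤ x → ∀ E : Finset ℕ,
      (∀ e ∈ E, Squarefree e ∧ e.Coprime S.m ∧ (∀ p ∈ e.primeFactors, (x : ℝ) ^ ((16 : ℝ) / 200) ≤ (p : ℝ)) ∧
        (e : ℝ) ≤ (x : ℝ) ^ ((100 - (i : ℝ)) / 200)) →
      S.U x * (((ftn i : ℝ) / 10 ^ 7 - ε) * (∑ e ∈ E, 1 / (e.totient : ℝ)) - ε) ≤
        ∑ e ∈ E, Sf (S.I x) vm S.nv S.m ((x : ℝ) ^ ((16 : ℝ) / 200)) e := by
  classical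
  rcases le_or_gt i 32 with hi | hi
  · refine ⟨0, fun x _ E _ => ?_⟩
    have h0 : ftn i = 0 := by
      unfold ftn
      rw [if_pos hi]
    rw [h0]
    have h1 : 0 ≤ ∑ e ∈ E, Sf (S.I x) vm S.nv S.m ((x : ℝ) ^ ((16 : ℝ) / 200)) e :=
      Finset.sum_nonneg fun e _ => ul_Sf_nonneg S x _ e
    have hsum : 0 ≤ ∑ e ∈ E, 1 / (e.totient : ℝ) := Finset.sum_nonneg fun e _ => by positivity
    refine le_trans ?_ h1
    have h2 : ((((0 : ℕ) : ℝ)) / 10 ^ 7 - ε) * (∑ e ∈ E, 1 / (e.totient : ℝ)) - ε ≤ 0 := by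
      have : 0 ≤ ε * (∑ e ∈ E, 1 / (e.totient : ℝ)) := mul_nonneg hε.le hsum
      simp only [Nat.cast_zero, zero_div, zero_sub]
      linarith
    exact mul_nonpos_of_nonneg_of_nonpos (ul_U S x) h2
  · rw [← Filter.eventually_atTop]
    obtain ⟨S0, -, -, hF⟩ := supT
    obtain ⟨η, hη, hη1⟩ := hF i hi hi2 ε hε
    have hi' : (33 : ℝ) ≤ (i : ℝ) := by exact_mod_cast hi
    obtain ⟨δ, hδ, hδ1, hδ2⟩ : ∃ δ : ℝ, 0 < δ ∧ 25 / 2 * δ < η ∧ δ ≤ 1 / 200 := by
      refine ⟨min (η / 25) (1 / 200), by positivity, ?_, min_le_right _ _⟩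
      have := min_le_left (η / 25) (1 / 200)
      linarith
    obtain ⟨W0, hW0⟩ := mert S.m S.hm S0.ε S0.hε
    have hM : Mert S.m (max W0 3) S0.ε := hW0 _ (le_max_left _ _)
    generalize max W0 3 = W at hM
    have hW3 : (3 : ℝ) ≤ W := hM.1
    filter_upwards [ul_rs S W i δ ε hδ hε, (ul_tend ((16 : ℝ) / 200) (by norm_num)).eventually_ge_atTop W,
      Filter.eventually_ge_atTop (2 * S.a.natAbs + 2), Filter.eventually_ge_atTop 3] with x hR hWz hxa hx3 E hE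
    have hx3' : (3 : ℝ) ≤ (x : ℝ) := by exact_mod_cast hx3
    have hx1 : (1 : ℝ) ≤ (x : ℝ) := by linarith
    have hxp : (0 : ℝ) < (x : ℝ) := by linarith
    have hlx : 0 < Real.log x := Real.log_pos (by linarith)
    set z : ℝ := (x : ℝ) ^ ((16 : ℝ) / 200) with hz
    set D : ℝ := (x : ℝ) ^ ((i : ℝ) / 200 - δ) with hDdef
    have hzD : z ^ 2 ≤ D := by
      rw [hz, hDdef, ← Real.rpow_natCast, ← Real.rpow_mul hxp.le]
      apply Real.rpow_le_rpow_of_exponent_le hx1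
      push_cast
      linarith
    have hse := se_low (S.I x) vm S.nv (fun k _ => ul_vm k)
      (fun k hk => ((dat_basic S).2.2.2 x hxa k hk).2.1) S.m S.hm W z D hW3 hWz hzD ⌈z⌉₊ le_rfl (S.X x) E
      ((x : ℝ) ^ ((100 - (i : ℝ)) / 200)) hE
    have hlin := (lin S0 S.m W hM ⌈z⌉₊ z D hWz le_rfl).2 hzD
    have hs : Real.log D / Real.log z = (i : ℝ) / 16 - 25 / 2 * δ := by
      rw [hz, hDdef, Real.log_rpow hxp, Real.log_rpow hxp]
      field_simp
      ring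
    rw [hs] at hlin
    have hphi := hη1 ((i : ℝ) / 16 - 25 / 2 * δ) (by linarith) (by linarith)
    have hVW := Vv_pos S.m W z (Or.inl hW3)
    have hV0 := Vv_pos S.m 0 W (Or.inr (ul_two S))
    have hmain : S.U x * ((ftn i : ℝ) / 10 ^ 7 - ε) ≤ S.X x * (Vv S.m 0 W * vr S.m W ⌈z⌉₊ false z D) := by
      have hU : S.U x = S.X x * (Vv S.m 0 W * Vv S.m W z) := by
        unfold Dat.U
        rw [← hz, Vv_split S.m 0 W z (by linarith) hWz]
      calc S.U x * ((ftn i : ℝ) / 10 ^ 7 - ε)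
          = S.X x * (Vv S.m 0 W * (Vv S.m W z * ((ftn i : ℝ) / 10 ^ 7 - ε))) := by rw [hU]; ring
        _ ≤ S.X x * (Vv S.m 0 W * vr S.m W ⌈z⌉₊ false z D) := by
            apply mul_le_mul_of_nonneg_left _ (ul_X S x)
            apply mul_le_mul_of_nonneg_left _ hV0.1.le
            exact (mul_le_mul_of_nonneg_left hphi hVW.1.le).trans hlin
    have hsum : 0 ≤ ∑ e ∈ E, 1 / (e.totient : ℝ) := Finset.sum_nonneg fun e _ => by positivity
    calc S.U x * (((ftn i : ℝ) / 10 ^ 7 - ε) * (∑ e ∈ E, 1 / (e.totient : ℝ)) - ε) =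
          S.U x * ((ftn i : ℝ) / 10 ^ 7 - ε) * (∑ e ∈ E, 1 / (e.totient : ℝ)) - S.U x * ε := by ring
      _ ≤ _ := sub_le_sub (mul_le_mul_of_nonneg_right hmain hsum) hR
      _ ≤ _ := hse

end Pool.Agent.CC
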