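import Pool.Agent.CC.RoA

/-! CC, part B: the main term of Rosser's sieve (linear sieve with a supersolution). -/

set_option autoImplicit false

namespace Pool.Agent.CC

open Finset

private theorem vr_h (m : ℕ) (W : ℝ) (n : ℕ) (t : Bool) {p : ℕ} (hp : p.Prime) (D : ℝ) :
    Ro m W n t (p : ℝ) D (fun b => 1 / (((p * b).totient : ℕ) : ℝ)) =
      1 / ((p : ℝ) - 1) * vr m W n t (p : ℝ) D := by
  unfold vr
  rw [← Ro_smul]
  apply Ro_congr
  intro b hb hbp
  have hpb : ¬ p ∣ b := by
    intro h
    have h1 : p ∈ b.primeFactors := Nat.mem_primeFactors.2 ⟨hp, h, hb.ne_zero⟩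
    exact lt_irrefl _ (mem_pr.1 (hbp p h1)).2.2.2
  rw [Nat.totient_mul ((Nat.Prime.coprime_iff_not_dvd hp).2 hpb), Nat.totient_prime hp]
  push_cast [hp.one_le]
  rw [one_div_mul_one_div]

open scoped Classical in
/-- MODULE VR_REC.  Recursion for the main term: `φ(p b) = (p - 1) φ(b)` for `p ∤ b` (`Ro_congr`, then `Ro_smul`). -/
theorem vr_true (m : ℕ) (W : ℝ) (n : ℕ) (z D : ℝ) :
    vr m W (n + 1) true z D =
      1 - ∑ p ∈ (pr m W z).filter (fun p : ℕ => (p : ℝ) ^ 3 < D), 1 / ((p : ℝ) - 1) * vr m W n false (p : ℝ) (D / p) := by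
  unfold vr
  rw [Ro]
  congr 1
  · simp
  · refine Finset.sum_congr rfl fun p hp => ?_
    rw [Finset.mem_filter, mem_pr] at hp
    exact vr_h m W n false hp.1.1 (D / p)

/-- MODULE VR_REC, second part. -/
theorem vr_false (m : ℕ) (W : ℝ) (n : ℕ) (z D : ℝ) :
    vr m W (n + 1) false z D =
      1 - ∑ p ∈ pr m W z, 1 / ((p : ℝ) - 1) * vr m W n true (p : ℝ) (D / p) := by
  unfold vr
  rw [Ro]
  congr 1
  · simp
  · refine Finset.sum_congr rfl fun p hp => ?_
    rw [mem_pr] at hp
    exact vr_h m W n true hp.1 (D / p)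

/-- MODULE VV.  All factors lie in `(0, 1]` (`p ≥ 3`: `1 - 1/(p-1) ≥ 1/2`).  For `W = 0` this needs `2 ∣ m`. -/
theorem Vv_pos (m : ℕ) (W z : ℝ) (h : 3 ≤ W ∨ 2 ∣ m) : 0 < Vv m W z ∧ Vv m W z ≤ 1 := by
  have h1 : ∀ p ∈ pr m W z, 0 < 1 - 1 / ((p : ℝ) - 1) ∧ 1 - 1 / ((p : ℝ) - 1) ≤ 1 := by
    intro p hp
    rw [mem_pr] at hp
    have h3 : 3 ≤ p := by
      rcases h with h | h
      · have h4 : (3 : ℝ) ≤ (p : ℝ) := h.trans hp.2.2.1
        exact_mod_cast h4
      · have h4 := hp.1.two_le
        rcases Nat.lt_or_ge 2 p with h5 | h5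
        · exact h5
        · have h6 : p = 2 := le_antisymm h5 h4
          rw [h6] at hp
          exact absurd h hp.2.1
    have h4 : (3 : ℝ) ≤ (p : ℝ) := by exact_mod_cast h3
    have h5 : 1 / ((p : ℝ) - 1) ≤ 1 / 2 :=
      one_div_le_one_div_of_le (by norm_num) (by linarith)
    have h6 : 0 ≤ 1 / ((p : ℝ) - 1) := by
      apply one_div_nonneg.2
      linarith
    constructor <;> linarith
  constructor
  · exact Finset.prod_pos fun p hp => (h1 p hp).1
  · exact Finset.prod_le_one (fun p hp => (h1 p hp).1.le) fun p hp => (h1 p hp).2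

/-- MODULE VV, second part: `pr m W z` is the disjoint union of `pr m W w` and `pr m w z`. -/
theorem Vv_split (m : ℕ) (W w z : ℝ) (h1 : W ≤ w) (h2 : w ≤ z) : Vv m W z = Vv m W w * Vv m w z := by
  classical
  have h3 : pr m W z = pr m W w ∪ pr m w z := by
    ext p
    rw [Finset.mem_union, mem_pr, mem_pr, mem_pr]
    constructor
    · rintro ⟨a, b, c, d⟩
      rcases lt_or_ge (p : ℝ) w with h | h
      · exact Or.inl ⟨a, b, c, h⟩
      · exact Or.inr ⟨a, b, h, d⟩
    · rintro (⟨a, b, c, d⟩ | ⟨a, b, c, d⟩)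
      · exact ⟨a, b, c, d.trans_le h2⟩
      · exact ⟨a, b, h1.trans c, d⟩
  have h4 : Disjoint (pr m W w) (pr m w z) := by
    rw [Finset.disjoint_left]
    intro p hp hp'
    rw [mem_pr] at hp hp'
    exact absurd hp.2.2.2 (not_lt.2 hp'.2.2.1)
  unfold Vv
  rw [h3, Finset.prod_union h4]

private theorem pr_lt {m : ℕ} {W z : ℝ} {p : ℕ} (hp : p ∈ pr m W z) :
    pr m W (p : ℝ) = (pr m W z).filter (fun q => q < p) := by
  ext q
  rw [Finset.mem_filter, mem_pr, mem_pr]
  rw [mem_pr] at hp
  constructor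
  · rintro ⟨a, b, c, d⟩
    exact ⟨⟨a, b, c, d.trans hp.2.2.2⟩, by exact_mod_cast d⟩
  · rintro ⟨⟨a, b, c, -⟩, d⟩
    exact ⟨a, b, c, by exact_mod_cast d⟩

/-- MODULE SUM_GV.  Telescoping: `∑_{W ≤ p < z} g(p) V(W, p) = 1 - V(W, z)`, `g(p) = 1/(p-1)`
(induction over the finite set of primes, largest last: `V(W,p) (1 - g(p))` is the product over the primes `≤ p`;
e.g. `Finset.prod_one_sub_ordered` / `Finset.sum_prod..` of Mathlib: `∏ (1 - f i) = 1 - ∑ f i ∏_{j < i} (1 - f j)`). -/
theorem sum_gV (m : ℕ) (W z : ℝ) :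
    ∑ p ∈ pr m W z, 1 / ((p : ℝ) - 1) * Vv m W (p : ℝ) = 1 - Vv m W z := by
  classical
  unfold Vv
  rw [Finset.prod_one_sub_ordered, sub_sub_cancel]
  refine Finset.sum_congr rfl fun p hp => ?_
  rw [pr_lt hp]

/-- MODULE SUMINT.  Let `q ≥ 0` be nonincreasing on `[s, ∞)`, `s = log D / log z`, and `Q` a majorant of its tail integral
in the sense `Q(t) ≥ Q(t') + (t' - t) q(t')` for `s ≤ t ≤ t'`.  Then
`∑_{W ≤ p < z} g(p) V(p) q(log D/log p) ≤ V(z) ((1+ε) Q(s)/s + ε q(s))`.
Proof: let `p_1 < ... < p_k` be the primes of `pr m W z`, `V_i = V(W, p_i)`, `V_{k+1} = V(W, z)`, so `V_1 = 1`,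
`g(p_i) V_i = V_i - V_{i+1}`; `s_i = log D/log p_i`, `s_{k+1} = s`, `s_i > s_{i+1}`, `q_i = q(s_i)` nondecreasing in `i`.
Abel: `T = ∑ (V_i - V_{i+1}) q_i = ∑_i (V_i - V_{k+1}) (q_i - q_{i-1})`, `q_0 = 0`.  By `Mert`
`V_i ≤ (1+ε) λ_i V_{k+1}`, `λ_i = log z/log p_i = s_i/s`, so
`T ≤ V_{k+1} [(1+ε) ∑ λ_i (q_i - q_{i-1}) - q_k] = V_{k+1} [(1+ε) ∑_i (λ_i - λ_{i+1}) q_i + ε q_k]` (`λ_{k+1} = 1`), and
`(λ_i - λ_{i+1}) q_i = (s_i - s_{i+1}) q(s_i)/s ≤ (Q(s_{i+1}) - Q(s_i))/s`, which telescopes to at most `Q(s)/s`; finally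
`q_k ≤ q(s)`.  In Lean: induction on `k` in the following form is convenient: for every `w ∈ [W, z]` (downwards), or the
statement `∑_{p ∈ pr m W w} (V(p) - V(p^+)) q(s_p) ≤ V(z)[(1+ε) (Q(s_w) - 0)/s + ...] + (V(w) - ..) q(s_w)`; choose the
form you like, e.g. prove for all `w`, `W ≤ w ≤ z`, with `s_w = log D/log w`:
`∑_{p ∈ pr m W w} g(p) V(p) q(s_p) + (V(W,w) - V(W,z)) q(s_w) ≤ V(z) [(1+ε) Q(s_w)/s + ((1+ε) s_w/s - 1) q(s_w)]`
by induction on the number of primes of `pr m W w` (when `w` increases past a prime `p` to `w'` the left side changes by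
`(V(w') - V(z)) (q(s_w') - q(s_w))`, the right side by at least `V(z) ((1+ε) s_w'/s - 1) (q(s_w') - q(s_w))`). -/
theorem sumint (m : ℕ) (W ε : ℝ) (hM : Mert m W ε) (hε : 0 ≤ ε) (z D : ℝ) (hz : W ≤ z) (hD : 1 < D) (q Q : ℝ → ℝ)
    (hq0 : ∀ t, Real.log D / Real.log z ≤ t → 0 ≤ q t)
    (hqa : ∀ t t', Real.log D / Real.log z ≤ t → t ≤ t' → q t' ≤ q t)
    (hQ0 : ∀ t, Real.log D / Real.log z ≤ t → 0 ≤ Q t)
    (hQ : ∀ t t', Real.log D / Real.log z ≤ t → t ≤ t' → Q t' + (t' - t) * q t' ≤ Q t) :
    ∑ p ∈ pr m W z, 1 / ((p : ℝ) - 1) * Vv m W (p : ℝ) * q (Real.log D / Real.log p) ≤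
      Vv m W z * ((1 + ε) * (Q (Real.log D / Real.log z) / (Real.log D / Real.log z)) +
        ε * q (Real.log D / Real.log z)) := by
  classical
  obtain ⟨hW3, hMert⟩ := hM
  have hL : 0 < Real.log D := Real.log_pos hD
  have hz3 : 3 ≤ z := hW3.trans hz
  have hlog : ∀ w : ℝ, W ≤ w → 0 < Real.log w := fun w hw =>
    Real.log_pos (by linarith)
  have hlz : 0 < Real.log z := hlog z hz
  set s : ℝ := Real.log D / Real.log z with hs
  have hs0 : 0 < s := div_pos hL hlz
  have hV0 : 0 < Vv m W z := (Vv_pos m W z (Or.inl hW3)).1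
  -- monotonicity of `s_w`
  have hsw : ∀ w w' : ℝ, W ≤ w → w ≤ w' → Real.log D / Real.log w' ≤ Real.log D / Real.log w := by
    intro w w' hw hww
    exact div_le_div_of_nonneg_left hL.le (hlog w hw) (Real.log_le_log (by linarith) hww)
  -- Mertens
  have hVw : ∀ w : ℝ, W ≤ w → w ≤ z →
      Vv m W w ≤ (1 + ε) * (Real.log D / Real.log w / s) * Vv m W z := by
    intro w hw hwz
    have h1 := (hMert w z hw hwz).2
    have h2 : Real.log D / Real.log w / s = Real.log z / Real.log w := by
      rw [hs]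
      have := hlog w hw
      field_simp
    rw [h2]
    exact h1
  -- the induction
  have key : ∀ (n : ℕ) (w : ℝ), W ≤ w → w ≤ z → (pr m W w).card ≤ n →
      ∑ p ∈ pr m W w, 1 / ((p : ℝ) - 1) * Vv m W (p : ℝ) * q (Real.log D / Real.log p) +
        (Vv m W w - Vv m W z) * q (Real.log D / Real.log w) ≤
      Vv m W z * ((1 + ε) * (Q (Real.log D / Real.log w) / s) +
        ((1 + ε) * (Real.log D / Real.log w / s) - 1) * q (Real.log D / Real.log w)) := by
    intro n
    induction n with
    | zero =>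
      intro w hw hwz hc
      have hempty : pr m W w = ∅ := Finset.card_eq_zero.1 (Nat.le_zero.1 hc)
      rw [hempty, Finset.sum_empty, zero_add]
      have h1 := hVw w hw hwz
      have hsw1 : s ≤ Real.log D / Real.log w := hsw w z hw hwz
      have h2 := hq0 _ hsw1
      have h3 := hQ0 _ hsw1
      have h4 : (Vv m W w - Vv m W z) * q (Real.log D / Real.log w) ≤
          ((1 + ε) * (Real.log D / Real.log w / s) * Vv m W z - Vv m W z) *
            q (Real.log D / Real.log w) :=
        mul_le_mul_of_nonneg_right (by linarith) h2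
      have h5 : 0 ≤ Vv m W z * ((1 + ε) * (Q (Real.log D / Real.log w) / s)) :=
        mul_nonneg hV0.le (mul_nonneg (by linarith) (div_nonneg h3 hs0.le))
      calc _ ≤ _ := h4
        _ = Vv m W z * (((1 + ε) * (Real.log D / Real.log w / s) - 1) *
            q (Real.log D / Real.log w)) := by ring
        _ ≤ _ := by rw [mul_add]; linarith
    | succ n ih =>
      intro w hw hwz hc
      rcases Finset.eq_empty_or_nonempty (pr m W w) with hempty | hne
      · exact ih w hw hwz (by rw [hempty]; simp)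
      · obtain ⟨p, hp, hmax⟩ := Finset.exists_max_image (pr m W w) id hne
        have hp' := mem_pr.1 hp
        have hWp : W ≤ (p : ℝ) := hp'.2.2.1
        have hpw : (p : ℝ) ≤ w := hp'.2.2.2.le
        have hins : pr m W w = insert p (pr m W (p : ℝ)) := by
          ext r
          rw [Finset.mem_insert]
          constructor
          · intro hr
            rcases eq_or_lt_of_le (hmax r hr) with h | h
            · exact Or.inl h
            · right
              rw [pr_lt hp, Finset.mem_filter]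
              exact ⟨hr, h⟩
          · rintro (rfl | hr)
            · exact hp
            · rw [pr_lt hp, Finset.mem_filter] at hr
              exact hr.1
        have hnot : p ∉ pr m W (p : ℝ) := by
          intro h
          exact lt_irrefl _ (mem_pr.1 h).2.2.2
        have hcard : (pr m W (p : ℝ)).card ≤ n := by
          rw [hins, Finset.card_insert_of_notMem hnot] at hc
          omega
        have h1 := ih (p : ℝ) hWp (hpw.trans hwz) hcard
        have hV : Vv m W w = Vv m W (p : ℝ) * (1 - 1 / ((p : ℝ) - 1)) := by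
          unfold Vv
          rw [hins, Finset.prod_insert hnot, mul_comm]
        have hsum : ∑ r ∈ pr m W w, 1 / ((r : ℝ) - 1) * Vv m W (r : ℝ) *
            q (Real.log D / Real.log r) = 1 / ((p : ℝ) - 1) * Vv m W (p : ℝ) *
              q (Real.log D / Real.log p) + ∑ r ∈ pr m W (p : ℝ), 1 / ((r : ℝ) - 1) *
                Vv m W (r : ℝ) * q (Real.log D / Real.log r) := by
          rw [hins, Finset.sum_insert hnot]
        have hsw1 : s ≤ Real.log D / Real.log w := hsw w z hw hwz
        have hsw2 : Real.log D / Real.log w ≤ Real.log D / Real.log (p : ℝ) :=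
          hsw p w hWp hpw
        have hqq : q (Real.log D / Real.log (p : ℝ)) ≤ q (Real.log D / Real.log w) :=
          hqa _ _ hsw1 hsw2
        have hQQ := hQ _ _ hsw1 hsw2
        have hVw1 := hVw w hw hwz
        rw [hsum]
        generalize Real.log D / Real.log (p : ℝ) = sp at *
        generalize Real.log D / Real.log w = sw at *
        generalize ∑ r ∈ pr m W (p : ℝ), 1 / ((r : ℝ) - 1) * Vv m W (r : ℝ) *
          q (Real.log D / Real.log r) = T at *
        have hg : 1 / ((p : ℝ) - 1) * Vv m W (p : ℝ) = Vv m W (p : ℝ) - Vv m W w := by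
          rw [hV]; ring
        rw [hg]
        have e1 : (Vv m W w - Vv m W z) * (q sw - q sp) ≤
            ((1 + ε) * (sw / s) * Vv m W z - Vv m W z) * (q sw - q sp) :=
          mul_le_mul_of_nonneg_right (by linarith) (by linarith)
        have e2 : Vv m W z * ((1 + ε) * ((Q sp + (sp - sw) * q sp) / s)) ≤
            Vv m W z * ((1 + ε) * (Q sw / s)) :=
          mul_le_mul_of_nonneg_left (mul_le_mul_of_nonneg_left
            (div_le_div_of_nonneg_right hQQ hs0.le) (by linarith)) hV0.le
        have e3 : Vv m W z * ((1 + ε) * ((Q sp + (sp - sw) * q sp) / s)) =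
            Vv m W z * ((1 + ε) * (Q sp / s)) +
              Vv m W z * ((1 + ε) * (sp / s)) * q sp - Vv m W z * ((1 + ε) * (sw / s)) * q sp := by
          ring
        linarith [e1, e2, e3, h1]
  have h := key _ z hz le_rfl le_rfl
  rw [sub_self, zero_mul, add_zero] at h
  refine h.trans (le_of_eq ?_)
  rw [← hs, div_self hs0.ne']
  ring

/-- The exponent of `D` with respect to a prime. -/
private theorem log_div_p {D p : ℝ} (hD : 0 < D) (hp : 1 < p) :
    Real.log (D / p) / Real.log p = Real.log D / Real.log p - 1 := by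
  have h : 0 < Real.log p := Real.log_pos hp
  rw [Real.log_div hD.ne' (by linarith), sub_div, div_self h.ne']

private theorem ceil_p {m : ℕ} {W z : ℝ} {n p : ℕ} (hn : ⌈z⌉₊ ≤ n + 1) (hp : p ∈ pr m W z) :
    ⌈(p : ℝ)⌉₊ ≤ n := by
  rw [Nat.ceil_natCast]
  have h1 : p < ⌈z⌉₊ := Nat.lt_ceil.2 (mem_pr.1 hp).2.2.2
  omega

/-- MODULE LIN: THE LINEAR SIEVE.  `V^+(z, D) ≤ V(z) (1 + φ(s))` for `s = log D/log z ≥ 1`, `V^-(z, D) ≥ V(z) (1 - ψ(s))` for
`s ≥ 2`.
Proof: induction on the fuel `n`.  `n = 0` impossible (`⌈z⌉ ≥ 3`).  Step `n + 1`; for `p ∈ pr m W z`: `W ≤ p`, `p < z`,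
`⌈(p:ℝ)⌉ = p ≤ n`, `log (D/p)/log p = s_p - 1` with `s_p = log D/log p`.
(+) Put `z' = min z (D^(1/3))`.  The primes of `pr m W z` with `p^3 < D` are those of `pr m W z'`.
 (+a) `W ≤ z'`: for these `p`: `p^3 < D` gives `p^2 ≤ D/p`, so by induction `vr n false p (D/p) ≥ V(p) (1 - ψ(s_p - 1))`, and
 by `vr_true`, `sum_gV` (for `z'`) and `sumint` with `q(t) = ψ(t-1)`, `Q(t) = Ψ(t-1)` (`s' = log D/log z' ≥ 3`):
 `vr ≤ 1 - ∑ g V(p) + ∑ g V(p) ψ(s_p - 1) ≤ V(z') (1 + (1+ε) Ψ(s'-1)/s' + ε ψ(s'-1)) ≤ V(z') (1 + φ(s'))` by `I1`.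
 If `z' = z` we are done.  Otherwise `s' = 3`, `s < 3`, and `V(z') ≤ (1+ε)(log z/log z') V(z) = (1+ε)(3/s) V(z)`, so
 `vr ≤ V(z) (1+ε)(3/s)(1 + φ(3)) ≤ V(z)(1 + φ(s))` by `I3`.
 (+b) `z' < W` (so `z' = D^(1/3) < W ≤ z`, no primes): `vr = 1 = V(W, W)` and `V(W,W) ≤ (1+ε)(log z/log W) V(z)` with
 `log W > (1/3) log D`, so `1 ≤ (1+ε)(3/s) V(z) ≤ V(z) (1 + φ(s))` by `I3` (`φ(3) ≥ 0`; `s < 3` because `D < W^3 ≤ z^3`).
(-) `z^2 ≤ D`: `p < z` gives `p ≤ D/p`, so by induction `vr n true p (D/p) ≤ V(p)(1 + φ(s_p - 1))` and by `vr_false`, `sum_gV`,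
 `sumint` with `q(t) = φ(t-1)`, `Q(t) = Φ(t-1)` on `[s, ∞)`, `s ≥ 2`:
 `vr ≥ 1 - ∑ g V(p) - ∑ g V(p) φ(s_p - 1) ≥ V(z) (1 - (1+ε) Φ(s-1)/s - ε φ(s-1)) ≥ V(z)(1 - ψ(s))` by `I2`. -/
theorem lin (S : Sup) (m : ℕ) (W : ℝ) (hM : Mert m W S.ε) :
    ∀ (n : ℕ) (z D : ℝ), W ≤ z → ⌈z⌉₊ ≤ n →
      (z ≤ D → vr m W n true z D ≤ Vv m W z * (1 + S.φ (Real.log D / Real.log z))) ∧
      (z ^ 2 ≤ D → Vv m W z * (1 - S.ψ (Real.log D / Real.log z)) ≤ vr m W n false z D) := by
  obtain ⟨hW3, hMert⟩ := id hM
  intro n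
  induction n with
  | zero =>
    intro z D hWz hn
    have h1 : z ≤ 0 := Nat.ceil_eq_zero.1 (Nat.le_zero.1 hn)
    linarith
  | succ n ih =>
    intro z D hWz hn
    have hz3 : 3 ≤ z := hW3.trans hWz
    have hlz : 0 < Real.log z := Real.log_pos (by linarith)
    have hVz : 0 < Vv m W z := (Vv_pos m W z (Or.inl hW3)).1
    have hε := S.hε
    have hg : ∀ {p : ℕ}, p ∈ pr m W z → 0 ≤ 1 / ((p : ℝ) - 1) := by
      intro p hp
      have := (mem_pr.1 hp).2.2.1
      exact one_div_nonneg.2 (by linarith)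
    constructor
    · intro hzD
      have hD3 : 3 ≤ D := hz3.trans hzD
      have hD1 : 1 < D := by linarith
      have hLD : 0 < Real.log D := Real.log_pos hD1
      -- the cube root
      set R : ℝ := D ^ ((1 : ℝ) / 3) with hR
      have hR0 : 0 < R := Real.rpow_pos_of_pos (by linarith) _
      have hR3 : R ^ 3 = D := by
        rw [hR, ← Real.rpow_natCast, ← Real.rpow_mul (by linarith)]
        norm_num
      have hlR : Real.log R = Real.log D / 3 := by
        rw [hR, Real.log_rpow (by linarith)]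
        ring
      have hcube : ∀ y : ℝ, 0 ≤ y → (y ^ 3 < D ↔ y < R) := by
        intro y hy
        rw [← hR3]
        exact pow_lt_pow_iff_left₀ hy hR0.le (by norm_num)
      have hset : (pr m W z).filter (fun p : ℕ => (p : ℝ) ^ 3 < D) = pr m W (min z R) := by
        ext p
        rw [Finset.mem_filter, mem_pr, mem_pr, hcube _ (Nat.cast_nonneg p), lt_min_iff]
        tauto
      rw [vr_true, hset]
      -- the value at 3
      have hφ3 : 0 ≤ S.φ 3 := S.φ0 3 (by norm_num)
      by_cases hWz' : W ≤ min z R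
      · -- (+a)
        have hW0 : 0 < min z R := by linarith
        have hlz' : 0 < Real.log (min z R) := Real.log_pos (by linarith)
        have hs3 : 3 ≤ Real.log D / Real.log (min z R) := by
          rw [le_div_iff₀ hlz']
          have h1 : Real.log (min z R) ≤ Real.log R := Real.log_le_log hW0 (min_le_right _ _)
          rw [hlR] at h1
          linarith
        have hb1 : ∀ p ∈ pr m W (min z R), 1 / ((p : ℝ) - 1) *
            (Vv m W (p : ℝ) * (1 - S.ψ (Real.log D / Real.log p - 1))) ≤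
              1 / ((p : ℝ) - 1) * vr m W n false (p : ℝ) (D / p) := by
          intro p hp
          have hp' := mem_pr.1 hp
          have hpz : p ∈ pr m W z := mem_pr.2 ⟨hp'.1, hp'.2.1, hp'.2.2.1,
            hp'.2.2.2.trans_le (min_le_left _ _)⟩
          have hp3 : (3 : ℝ) ≤ (p : ℝ) := hW3.trans hp'.2.2.1
          have hp0 : (0 : ℝ) < (p : ℝ) := by linarith
          have h1 := (ih (p : ℝ) (D / p) hp'.2.2.1 (ceil_p hn hpz)).2 (by
            rw [le_div_iff₀ hp0]
            have h2 : (p : ℝ) ^ 3 < D := (hcube _ hp0.le).2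
              (hp'.2.2.2.trans_le (min_le_right _ _))
            calc (p : ℝ) ^ 2 * p = (p : ℝ) ^ 3 := by ring
              _ ≤ D := h2.le)
          rw [log_div_p (by linarith) (by linarith)] at h1
          exact mul_le_mul_of_nonneg_left h1 (hg hpz)
        have hint := sumint m W S.ε hM hε.le (min z R) D hWz' hD1
          (fun t => S.ψ (t - 1)) (fun t => S.Ψ (t - 1))
          (fun t ht => S.ψ0 _ (by linarith))
          (fun t t' ht htt => S.ψa _ _ (by linarith) (by linarith))
          (fun t ht => S.Ψ0 _ (by linarith))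
          (fun t t' ht htt => by
            have := S.hΨ (t - 1) (t' - 1) (by linarith) (by linarith)
            have e : t' - 1 - (t - 1) = t' - t := by ring
            rwa [e] at this)
        have hsum := Finset.sum_le_sum hb1
        have hgV := sum_gV m W (min z R)
        have e1 : ∑ p ∈ pr m W (min z R), 1 / ((p : ℝ) - 1) *
            (Vv m W (p : ℝ) * (1 - S.ψ (Real.log D / Real.log p - 1))) =
            ∑ p ∈ pr m W (min z R), 1 / ((p : ℝ) - 1) * Vv m W (p : ℝ) -
              ∑ p ∈ pr m W (min z R), 1 / ((p : ℝ) - 1) * Vv m W (p : ℝ) *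
                S.ψ (Real.log D / Real.log p - 1) := by
          rw [← Finset.sum_sub_distrib]
          exact Finset.sum_congr rfl fun p _ => by ring
        have hI := S.I1 _ hs3
        have hVz' : 0 < Vv m W (min z R) := (Vv_pos m W _ (Or.inl hW3)).1
        have hup : 1 - ∑ p ∈ pr m W (min z R), 1 / ((p : ℝ) - 1) *
            vr m W n false (p : ℝ) (D / p) ≤
            Vv m W (min z R) * (1 + S.φ (Real.log D / Real.log (min z R))) := by
          have h2 := mul_le_mul_of_nonneg_left hI hVz'.le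
          rw [mul_add, mul_one]
          rw [e1] at hsum
          linarith [hsum, hint, h2, hgV]
        refine hup.trans ?_
        rcases le_or_gt z R with hzR | hzR
        · rw [min_eq_left hzR]
        · rw [min_eq_right hzR.le] at hWz' ⊢
          have hs' : Real.log D / Real.log R = 3 := by
            rw [hlR]
            field_simp
          rw [hs']
          have hlRz : Real.log R < Real.log z := Real.log_lt_log hR0 hzR
          rw [hlR] at hlRz
          have hs1 : 1 ≤ Real.log D / Real.log z := by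
            rw [le_div_iff₀ hlz, one_mul]
            exact Real.log_le_log (by linarith) hzD
          have hslt : Real.log D / Real.log z < 3 := by
            rw [div_lt_iff₀ hlz]
            linarith
          have hI3 := S.I3 _ hs1 hslt
          have hM1 := (hMert R z hWz' hzR.le).2
          have e2 : Real.log z / Real.log R = 3 / (Real.log D / Real.log z) := by
            rw [hlR]
            field_simp
          rw [e2] at hM1
          calc Vv m W R * (1 + S.φ 3)
              ≤ ((1 + S.ε) * (3 / (Real.log D / Real.log z)) * Vv m W z) * (1 + S.φ 3) :=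
                mul_le_mul_of_nonneg_right hM1 (by linarith)
            _ = Vv m W z * ((1 + S.ε) * (3 / (Real.log D / Real.log z)) * (1 + S.φ 3)) := by ring
            _ ≤ _ := mul_le_mul_of_nonneg_left hI3 hVz.le
      · -- (+b)
        push Not at hWz'
        have hRW : R < W := by
          rcases min_lt_iff.1 hWz' with h | h
          · linarith
          · exact h
        have hempty : pr m W (min z R) = ∅ := by
          apply Finset.eq_empty_of_forall_notMem
          intro p hp
          have := mem_pr.1 hp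
          linarith [this.2.2.1, this.2.2.2]
        rw [hempty, Finset.sum_empty, sub_zero]
        have hWW : Vv m W W = 1 := by
          unfold Vv
          have : pr m W W = ∅ := by
            apply Finset.eq_empty_of_forall_notMem
            intro p hp
            have := mem_pr.1 hp
            linarith [this.2.2.1, this.2.2.2]
          rw [this, Finset.prod_empty]
        have hM1 := (hMert W z le_rfl hWz).2
        rw [hWW] at hM1
        have hlW : 0 < Real.log W := Real.log_pos (by linarith)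
        have hlRW : Real.log D / 3 < Real.log W := by
          rw [← hlR]
          exact Real.log_lt_log hR0 hRW
        have hs1 : 1 ≤ Real.log D / Real.log z := by
          rw [le_div_iff₀ hlz, one_mul]
          exact Real.log_le_log (by linarith) hzD
        have hlWz : Real.log W ≤ Real.log z := Real.log_le_log (by linarith) hWz
        have hslt : Real.log D / Real.log z < 3 := by
          rw [div_lt_iff₀ hlz]
          linarith
        have hI3 := S.I3 _ hs1 hslt
        have e2 : Real.log z / Real.log W ≤ 3 / (Real.log D / Real.log z) := by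
          rw [div_div_eq_mul_div, div_le_div_iff₀ hlW hLD]
          nlinarith
        calc (1 : ℝ) ≤ (1 + S.ε) * (Real.log z / Real.log W) * Vv m W z := hM1
          _ ≤ (1 + S.ε) * (3 / (Real.log D / Real.log z)) * Vv m W z :=
              mul_le_mul_of_nonneg_right (mul_le_mul_of_nonneg_left e2 (by linarith)) hVz.le
          _ ≤ (1 + S.ε) * (3 / (Real.log D / Real.log z)) * Vv m W z * (1 + S.φ 3) := by
              apply le_mul_of_one_le_right
              · have : 0 < Real.log D / Real.log z := by linarith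
                positivity
              · linarith
          _ = Vv m W z * ((1 + S.ε) * (3 / (Real.log D / Real.log z)) * (1 + S.φ 3)) := by ring
          _ ≤ _ := mul_le_mul_of_nonneg_left hI3 hVz.le
    · intro hzD
      have hD1 : 1 < D := by nlinarith
      have hD0 : 0 < D := by linarith
      have hs2 : 2 ≤ Real.log D / Real.log z := by
        rw [le_div_iff₀ hlz]
        have h1 : Real.log (z ^ 2) ≤ Real.log D := Real.log_le_log (by positivity) hzD
        rw [Real.log_pow] at h1
        exact_mod_cast h1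
      rw [vr_false]
      have hb1 : ∀ p ∈ pr m W z, 1 / ((p : ℝ) - 1) * vr m W n true (p : ℝ) (D / p) ≤
          1 / ((p : ℝ) - 1) * (Vv m W (p : ℝ) * (1 + S.φ (Real.log D / Real.log p - 1))) := by
        intro p hp
        have hp' := mem_pr.1 hp
        have hp3 : (3 : ℝ) ≤ (p : ℝ) := hW3.trans hp'.2.2.1
        have hp0 : (0 : ℝ) < (p : ℝ) := by linarith
        have h1 := (ih (p : ℝ) (D / p) hp'.2.2.1 (ceil_p hn hp)).1 (by
          rw [le_div_iff₀ hp0]
          nlinarith [hp'.2.2.2])
        rw [log_div_p hD0 (by linarith)] at h1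
        exact mul_le_mul_of_nonneg_left h1 (hg hp)
      have hint := sumint m W S.ε hM hε.le z D hWz hD1
        (fun t => S.φ (t - 1)) (fun t => S.Φ (t - 1))
        (fun t ht => S.φ0 _ (by linarith))
        (fun t t' ht htt => S.φa _ _ (by linarith) (by linarith))
        (fun t ht => S.Φ0 _ (by linarith))
        (fun t t' ht htt => by
          have := S.hΦ (t - 1) (t' - 1) (by linarith) (by linarith)
          have e : t' - 1 - (t - 1) = t' - t := by ring
          rwa [e] at this)
      have hsum := Finset.sum_le_sum hb1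
      have hgV := sum_gV m W z
      have e1 : ∑ p ∈ pr m W z, 1 / ((p : ℝ) - 1) *
          (Vv m W (p : ℝ) * (1 + S.φ (Real.log D / Real.log p - 1))) =
          ∑ p ∈ pr m W z, 1 / ((p : ℝ) - 1) * Vv m W (p : ℝ) +
            ∑ p ∈ pr m W z, 1 / ((p : ℝ) - 1) * Vv m W (p : ℝ) *
              S.φ (Real.log D / Real.log p - 1) := by
        rw [← Finset.sum_add_distrib]
        exact Finset.sum_congr rfl fun p _ => by ring
      have hI := mul_le_mul_of_nonneg_left (S.I2 _ hs2) hVz.le
      rw [e1] at hsum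
      rw [mul_sub, mul_one]
      linarith [hsum, hint, hI, hgV]

end Pool.Agent.CC
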