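import Pool.Agent.CC.Fin

/-! CC, part N: from subgroups to the normalised data. -/

set_option autoImplicit false

namespace Pool.Agent.CC

open Finset

private theorem cls_three {Q : Type*} [Group Q] (h3 : Nat.card Q = 3) (g : Q) (hg : g ≠ 1) :
    g ^ 3 = 1 ∧ g ^ 2 ≠ 1 ∧ g ^ 2 ≠ g ∧ ∀ q : Q, q = 1 ∨ q = g ∨ q = g ^ 2 := by
  classical
  have hfin : Finite Q := Nat.finite_of_card_ne_zero (by rw [h3]; norm_num)
  have ho : orderOf g = 3 := by
    have h1 : orderOf g ∣ 3 := h3 ▸ orderOf_dvd_natCard g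
    rcases (Nat.dvd_prime Nat.prime_three).1 h1 with h | h
    · exact absurd (orderOf_eq_one_iff.1 h) hg
    · exact h
  have h3' : g ^ 3 = 1 := by rw [← ho]; exact pow_orderOf_eq_one g
  have h2 : g ^ 2 ≠ 1 := by
    intro h
    have := orderOf_dvd_of_pow_eq_one h
    rw [ho] at this
    omega
  have h2g : g ^ 2 ≠ g := by
    intro h
    have : g * g = g * 1 := by rw [mul_one, ← pow_two, h]
    exact hg (mul_left_cancel this)
  refine ⟨h3', h2, h2g, fun q => ?_⟩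
  haveI := Fintype.ofFinite Q
  have hc : Fintype.card Q = 3 := by rw [← Nat.card_eq_fintype_card, h3]
  have hs : ({1, g, g ^ 2} : Finset Q).card = 3 := by
    rw [Finset.card_insert_of_notMem, Finset.card_insert_of_notMem, Finset.card_singleton]
    · simpa using fun h => h2g h.symm
    · simp only [Finset.mem_insert, Finset.mem_singleton, not_or]
      exact ⟨fun h => hg h.symm, fun h => h2 h.symm⟩
  have hu : ({1, g, g ^ 2} : Finset Q) = Finset.univ := by
    apply Finset.eq_univ_of_card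
    rw [hs, hc]
  have := Finset.mem_univ q
  rw [← hu] at this
  simpa using this

open scoped Classical in
private noncomputable def clsf {Q : Type*} [Group Q] (g : Q) (q : Q) : ZMod 3 :=
  if q = 1 then 0 else if q = g then 1 else 2

private theorem clsf_mul {Q : Type*} [Group Q] (h3 : Nat.card Q = 3) (g : Q) (hg : g ≠ 1) (a b : Q) :
    clsf g (a * b) = clsf g a + clsf g b := by
  obtain ⟨h3', h2, h2g, hq⟩ := cls_three h3 g hg
  have e1 : clsf g 1 = 0 := by unfold clsf; rw [if_pos rfl]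
  have eg : clsf g g = 1 := by unfold clsf; rw [if_neg hg, if_pos rfl]
  have e2 : clsf g (g ^ 2) = 2 := by unfold clsf; rw [if_neg h2, if_neg h2g]
  have m1 : g * g = g ^ 2 := (pow_two g).symm
  have m2 : g * g ^ 2 = 1 := by rw [← h3']; group
  have m3 : g ^ 2 * g = 1 := by rw [← h3']; group
  have m4 : g ^ 2 * g ^ 2 = g := by
    calc g ^ 2 * g ^ 2 = g ^ 3 * g := by group
      _ = g := by rw [h3', one_mul]
  rcases hq a with rfl | rfl | rfl <;> rcases hq b with rfl | rfl | rfl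
  · rw [one_mul, e1]; rfl
  · rw [one_mul, e1, eg]; rfl
  · rw [one_mul, e1, e2]; rfl
  · rw [mul_one, e1, eg]; rfl
  · rw [m1, e2, eg]; rfl
  · rw [m2, e1, eg, e2]; rfl
  · rw [mul_one, e1, e2]; rfl
  · rw [m3, e1, e2, eg]; rfl
  · rw [m4, eg, e2]; rfl

/-- MODULE CLS.  A subgroup `H` of index 3 of `(ℤ/m)ˣ` and a unit `u ∉ H` give a class function `c : ℕ → ZMod 3`:
`(ℤ/m)ˣ/H` has order 3 and is generated by the class of `u`; `c x` = the exponent `i` with `x ∈ u^i H` for `x` prime to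
`m`, and 0 otherwise. -/
theorem cls (m : ℕ) (hm : 0 < m) (H : Subgroup (ZMod m)ˣ) (hH : H.index = 3) (u : (ZMod m)ˣ) (hu : u ∉ H) :
    ∃ c : ℕ → ZMod 3, (∀ x y : ℕ, x.Coprime m → y.Coprime m → c (x * y) = c x + c y) ∧
      (∀ x y : ℕ, x ≡ y [MOD m] → c x = c y) ∧ (∀ x : ℕ, (x : ZMod m) = u → c x = 1) ∧
      (∀ x : ℕ, ∀ v : (ZMod m)ˣ, (v : ZMod m) = (x : ZMod m) → (c x = 0 ↔ v ∈ H)) := by
  classical
  have h3 : Nat.card ((ZMod m)ˣ ⧸ H) = 3 := hH
  have hg : (QuotientGroup.mk u : (ZMod m)ˣ ⧸ H) ≠ 1 := by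
    intro h
    exact hu ((QuotientGroup.eq_one_iff u).1 h)
  set g : (ZMod m)ˣ ⧸ H := QuotientGroup.mk u with hgd
  let c : ℕ → ZMod 3 := fun x =>
    if h : x.Coprime m then clsf g (QuotientGroup.mk (ZMod.unitOfCoprime x h)) else 0
  have hc : ∀ (x : ℕ) (h : x.Coprime m), c x = clsf g (QuotientGroup.mk (ZMod.unitOfCoprime x h)) := by
    intro x h
    exact dif_pos h
  have hcv : ∀ (x : ℕ) (v : (ZMod m)ˣ), (v : ZMod m) = (x : ZMod m) → c x = clsf g (QuotientGroup.mk v) := by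
    intro x v hv
    have hx : x.Coprime m := by
      rw [← ZMod.isUnit_iff_coprime, ← hv]
      exact v.isUnit
    rw [hc x hx]
    have : ZMod.unitOfCoprime x hx = v := by
      apply Units.ext
      rw [ZMod.coe_unitOfCoprime, hv]
    rw [this]
  refine ⟨c, fun x y hx hy => ?_, fun x y hxy => ?_, fun x hx => ?_, fun x v hv => ?_⟩
  · have hxy : (x * y).Coprime m := Nat.Coprime.mul_left hx hy
    have e : ((ZMod.unitOfCoprime x hx * ZMod.unitOfCoprime y hy : (ZMod m)ˣ) : ZMod m) = ((x * y : ℕ) : ZMod m) := by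
      rw [Units.val_mul, ZMod.coe_unitOfCoprime, ZMod.coe_unitOfCoprime, Nat.cast_mul]
    rw [hcv _ _ e, hc x hx, hc y hy, QuotientGroup.mk_mul, clsf_mul h3 g hg]
  · have hz : (x : ZMod m) = (y : ZMod m) := (ZMod.natCast_eq_natCast_iff x y m).2 hxy
    by_cases hx : x.Coprime m
    · have e : ((ZMod.unitOfCoprime x hx : (ZMod m)ˣ) : ZMod m) = (x : ZMod m) := ZMod.coe_unitOfCoprime x hx
      rw [hcv x _ e, hcv y _ (e.trans hz)]
    · have hy : ¬ y.Coprime m := by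
        intro hy
        apply hx
        rw [← ZMod.isUnit_iff_coprime] at hy ⊢
        rwa [hz]
      have h1 : c x = 0 := dif_neg hx
      have h2 : c y = 0 := dif_neg hy
      rw [h1, h2]
  · rw [hcv x u hx.symm]
    unfold clsf
    rw [if_neg hg, if_pos rfl]
  · rw [hcv x v hv, ← QuotientGroup.eq_one_iff v]
    unfold clsf
    by_cases h1 : (QuotientGroup.mk v : (ZMod m)ˣ ⧸ H) = 1
    · rw [if_pos h1]
      exact ⟨fun _ => h1, fun _ => rfl⟩
    · rw [if_neg h1]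
      refine ⟨fun h => ?_, fun h => absurd h h1⟩
      exfalso
      by_cases h2 : (QuotientGroup.mk v : (ZMod m)ˣ ⧸ H) = g
      · rw [if_pos h2] at h
        exact absurd h (by decide)
      · rw [if_neg h2] at h
        exact absurd h (by decide)

/-- MODULE ENL.  Enlarging the modulus: `M = m r`, `r` = product of the primes dividing `2 a d` but not `m`; `Q ≡ q0 mod m`,
`Q ≡ 1 mod r`.  For a prime `p ∣ r`: `p` divides `a` or `d` (`2 ∣ a d`), not both, so `a + Q d ≡ a + d ≢ 0 mod p`. -/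
theorem enl (a d : ℤ) (hd : 1 ≤ d) (ha : a ≠ 0) (had : IsCoprime a d) (h2 : 2 ∣ a * d) (m : ℕ) (hm : 0 < m) (q0 : ℕ)
    (hq : q0.Coprime m) (hn : IsCoprime (a + q0 * d) (m : ℤ)) :
    ∃ M Q : ℕ, 0 < M ∧ m ∣ M ∧ (∀ p : ℕ, p.Prime → (p : ℤ) ∣ 2 * a * d → p ∣ M) ∧ Q.Coprime M ∧ Q ≡ q0 [MOD m] ∧
      IsCoprime (a + Q * d) (M : ℤ) := by
  classical
  set s : Finset ℕ := (2 * a * d).natAbs.primeFactors.filter (fun p => ¬ p ∣ m) with hs
  set r : ℕ := ∏ p ∈ s, p with hr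
  have hne : (2 * a * d).natAbs ≠ 0 := by
    rw [Int.natAbs_ne_zero]
    have : d ≠ 0 := by omega
    positivity
  have hsp : ∀ p ∈ s, p.Prime ∧ (p : ℤ) ∣ 2 * a * d ∧ ¬ p ∣ m := by
    intro p hp
    rw [hs, Finset.mem_filter] at hp
    refine ⟨Nat.prime_of_mem_primeFactors hp.1, ?_, hp.2⟩
    rw [Int.natCast_dvd]
    exact Nat.dvd_of_mem_primeFactors hp.1
  have hr0 : 0 < r := Finset.prod_pos fun p hp => (hsp p hp).1.pos
  have hmr : m.Coprime r := by
    rw [hr]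
    apply Nat.Coprime.prod_right
    intro p hp
    rw [Nat.coprime_comm]
    exact ((hsp p hp).1.coprime_iff_not_dvd).2 (hsp p hp).2.2
  obtain ⟨Q, hQ1, hQ2⟩ := Nat.chineseRemainder hmr q0 1
  have hQm : Q.Coprime m := by
    have : Nat.gcd Q m = Nat.gcd q0 m := hQ1.gcd_eq
    rw [Nat.Coprime, this]
    exact hq
  have hQr : Q.Coprime r := by
    have : Nat.gcd Q r = Nat.gcd 1 r := hQ2.gcd_eq
    rw [Nat.Coprime, this, Nat.gcd_one_left]
  refine ⟨m * r, Q, Nat.mul_pos hm hr0, Dvd.intro _ rfl, fun p hp hpd => ?_, Nat.Coprime.mul_right hQm hQr, hQ1, ?_⟩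
  · by_cases hpm : p ∣ m
    · exact hpm.mul_right r
    · have : p ∈ s := by
        rw [hs, Finset.mem_filter]
        refine ⟨?_, hpm⟩
        rw [Nat.mem_primeFactors]
        refine ⟨hp, ?_, hne⟩
        rwa [← Int.natCast_dvd]
      exact (Finset.dvd_prod_of_mem _ this).mul_left m
  · rw [Nat.cast_mul]
    apply IsCoprime.mul_right
    · have h1 : (m : ℤ) ∣ (Q : ℤ) - q0 := by
        have := (Nat.modEq_iff_dvd.1 hQ1.symm)
        exact this
      obtain ⟨t, ht⟩ := h1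
      have e : a + (Q : ℤ) * d = (a + q0 * d) + (m : ℤ) * (t * d) := by
        have : (Q : ℤ) = q0 + m * t := by linarith
        rw [this]; ring
      rw [e]
      exact IsCoprime.add_mul_left_left hn (t * d)
    · rw [hr, Nat.cast_prod]
      apply IsCoprime.prod_right
      intro p hp
      obtain ⟨hpp, hpd, hpm⟩ := hsp p hp
      have hpI : Prime (p : ℤ) := Nat.prime_iff_prime_int.1 hpp
      rw [isCoprime_comm]
      rw [Prime.coprime_iff_not_dvd hpI]
      intro hdv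
      have h1 : (p : ℤ) ∣ (Q : ℤ) - 1 := by
        have h1 : (r : ℤ) ∣ (Q : ℤ) - 1 := by
          have := (Nat.modEq_iff_dvd.1 hQ2.symm)
          exact_mod_cast this
        exact (by exact_mod_cast Finset.dvd_prod_of_mem _ hp : (p : ℤ) ∣ (r : ℤ)).trans h1
      have h3 : (p : ℤ) ∣ a + d := by
        have : a + d = (a + Q * d) - (Q - 1) * d := by ring
        rw [this]
        exact dvd_sub hdv (h1.mul_right d)
      have h4 : (p : ℤ) ∣ a * d := by
        have h5 : (p : ℤ) ∣ 2 * (a * d) := by rwa [← mul_assoc]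
        rcases hpI.dvd_or_dvd h5 with h6 | h6
        · exact h6.trans h2
        · exact h6
      have h7 : (p : ℤ) ∣ a ∧ (p : ℤ) ∣ d := by
        rcases hpI.dvd_or_dvd h4 with h6 | h6
        · exact ⟨h6, (dvd_add_right h6).1 h3⟩
        · exact ⟨(dvd_add_left h6).1 h3, h6⟩
      exact hpI.not_unit (had.isUnit_of_dvd' h7.1 h7.2)

open scoped Classical in
/-- MODULE WRAP: the theorem.
Proof: `cls` for `u`, `enl`, the data `Dat` with modulus `M`, class `Q` and the class function of `cls` (it is multiplicative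
on numbers prime to `M`, periodic mod `m`, hence mod `M`; for `k ≡ Q mod M`, `k ≡ q0 mod m`, so `a + k d ≡ a + q0 d = u`
mod `m` and `c = 1`).  `cubic`; a prime `q = k ≡ Q mod M` is `≡ q0 mod m`; `n = nv q`; the prime factors `p` of `n` are
prime to `M`, so units mod `m`, and `S.c p = 0` iff `p ∈ H`.  `2/25 = 16/200`. -/
theorem chen_cubic (a d : ℤ) (hd : 1 ≤ d) (ha : a ≠ 0) (had : IsCoprime a d) (h2 : 2 ∣ a * d) (m : ℕ) (hm : 0 < m)
    (H : Subgroup (ZMod m)ˣ) (hH : H.index = 3) (q0 : ℕ) (hq : q0.Coprime m) (u : (ZMod m)ˣ)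
    (hu : (u : ZMod m) = ((a + q0 * d : ℤ) : ZMod m)) (huH : u ∉ H) :
    ∃ c : ℝ, 0 < c ∧ ∃ x0 : ℕ, ∀ x : ℕ, x0 ≤ x → c * x / (Real.log x) ^ 2 ≤
      (((Ioc x (2 * x)).filter fun q => q.Prime ∧ q ≡ q0 [MOD m] ∧ ∃ n : ℕ, (n : ℤ) = a + q * d ∧ Squarefree n ∧
        n.primeFactors.card ≤ 3 ∧ (∀ p ∈ n.primeFactors, (x : ℝ) ^ ((2 : ℝ) / 25) ≤ (p : ℝ)) ∧
        ∃ p0 ∈ n.primeFactors, ∀ p ∈ n.primeFactors,
          (∃ v : (ZMod m)ˣ, (v : ZMod m) = (p : ZMod m) ∧ v ∈ H) ↔ p ≠ p0).card : ℝ) := by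
  obtain ⟨c, c1, c2, c3, c4⟩ := cls m hm H hH u huH
  have hn : IsCoprime (a + q0 * d) (m : ℤ) := by
    have h1 : IsUnit (((a + q0 * d : ℤ)) : ZMod m) := hu ▸ u.isUnit
    exact ((ZMod.coe_int_isUnit_iff_isCoprime _ _).1 h1).symm
  obtain ⟨M, Q, hM, hmM, hMp, hQM, hQq, hQn⟩ := enl a d hd ha had h2 m hm q0 hq hn
  have hval : ∀ k : ℕ, k ≡ q0 [MOD m] → 0 < a + k * d → (((a + k * d).toNat : ℕ) : ZMod m) = u := by
    intro k hk hpos
    have h1 : (((a + k * d).toNat : ℕ) : ℤ) = a + k * d := Int.toNat_of_nonneg hpos.le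
    have h3 : (((a + k * d).toNat : ℕ) : ZMod m) = (((a + k * d : ℤ)) : ZMod m) := by
      rw [← h1, Int.cast_natCast, Int.toNat_natCast]
    have h4 : (k : ZMod m) = (q0 : ZMod m) := (ZMod.natCast_eq_natCast_iff k q0 m).2 hk
    rw [h3, hu]
    push_cast
    rw [h4]
  let S : Dat :=
    { a := a, d := d, m := M, q0 := Q, c := c, hd := hd, hm := hM, hp := hMp, had := had, hq := hQM, hn := hQn
      hc1 := fun x y hx hy => c1 x y (Nat.Coprime.coprime_dvd_right hmM hx) (Nat.Coprime.coprime_dvd_right hmM hy)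
      hc2 := fun x y hxy => c2 x y (hxy.of_dvd hmM)
      hc3 := fun k hk hpos => c3 _ (hval k ((hk.of_dvd hmM).trans hQq) hpos) }
  obtain ⟨c', hc', x0, h0⟩ := cubic S
  obtain ⟨-, -, hdat, hdat2⟩ := dat_basic S
  refine ⟨c', hc', max x0 (2 * a.natAbs + 2), fun x hx => ?_⟩
  refine (h0 x (le_of_max_le_left hx)).trans ?_
  rw [Nat.cast_le]
  refine Finset.card_le_card fun k hk => ?_
  rw [Finset.mem_filter] at hk
  obtain ⟨hkI, hkp, hsq, hcard, hge, p0, hp0, hpp⟩ := hk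
  obtain ⟨hpos, -, -, -⟩ := hdat2 x (le_of_max_le_right hx) k hkI
  unfold Dat.I at hkI
  rw [Finset.mem_filter] at hkI
  obtain ⟨hk1, hk2⟩ := hkI
  obtain ⟨hnv, hcop⟩ := hdat k hk2 hpos
  rw [Finset.mem_filter]
  refine ⟨hk1, hkp, (hk2.of_dvd hmM).trans hQq, S.nv k, hnv, hsq, hcard, fun p hp => ?_, p0, hp0, fun p hp => ?_⟩
  · have e : (x : ℝ) ^ ((2 : ℝ) / 25) = (x : ℝ) ^ ((16 : ℝ) / 200) := by
      congr 1
      norm_num
    rw [e]
    exact hge p hp
  · have hpm : p.Coprime m :=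
      Nat.Coprime.coprime_dvd_right hmM (Nat.Coprime.coprime_dvd_left (Nat.dvd_of_mem_primeFactors hp) hcop)
    rw [← hpp p hp]
    have h5 := c4 p (ZMod.unitOfCoprime p hpm) (ZMod.coe_unitOfCoprime p hpm)
    constructor
    · rintro ⟨v, hv, hvH⟩
      exact (c4 p v hv).2 hvH
    · intro h6
      exact ⟨ZMod.unitOfCoprime p hpm, ZMod.coe_unitOfCoprime p hpm, h5.1 h6⟩


end Pool.Agent.CC
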